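import Pool.Agent.Lib_helper18.PENK.Defs2
import Pool.Agent.Lib_helper97.PENT.Defs

/-! PENK: the definitions of the statement files (helper18) -/

set_option autoImplicit false

namespace Pool.Agent.PENK

open Finset Pool.Agent.PENT

section

variable {K : ℕ} [NeZero K]

/-- the local condition at `p`: good for `u` and `v` -/
noncomputable def hgood (u u' : PolyK K) (p : ℕ) (R : Bas) : ℝ :=
  ich ((p ∣ DD u → (p : ℤ) ∣ Rf R (Lv u p)) ∧ (p ∣ DD u' → (p : ℤ) ∣ Rf R (Lv u' p)))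

/-- the density of the second sieve is at least `bden / p` (`op`: the open edges) -/
noncomputable def bden (op : Finset (Fin K)) (W : Wts K) (P0 p : ℕ) : ℝ :=
  if p % 4 = 3 then 2 * ((inr K \ op).card : ℝ)
  else if p ≤ P0 then
    2 * ((inr K \ op).card : ℝ) + 4 * ∑ k ∈ ivr K, (1 - W.bo k) + 2 * (1 - W.bo 0) +
      2 * (1 - W.bo 1)
  else 2 * ∑ j ∈ inr K \ op, (1 - 2 * W.al j) + 4 * ∑ k ∈ ivr K, (1 - W.be k) +
    2 * (1 - W.be 0 ^ 2 / W.s0) + 2 * (1 - W.be 1 ^ 2 / W.s1)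

end

/-- the family of `(B1)` for fixed `u` -/
structure B1S (q : Par 5) (x : ℝ) (P0 : ℕ) (u : PolyK 5) (i : Fin 5 → ℕ) (G0 G1 G2 G3 G4 : ℕ)
    (v : PolyK 5) : Prop where
  poly : IsPoly q x P0 v
  sep : Sep q v
  siz : Siz i v
  g0 : G0 ∣ dn v 0
  g1 : G1 ∣ dn v 1
  g2 : G2 ∣ dn v 2
  g3 : G3 ∣ dn v 3
  g4 : G4 ∣ dn v 4
  sl : ∀ p : ℕ, p.Prime → p ∣ G0 * G2 * G3 → SameL u v p

/-- the common parts of the edges if `c_3 = c_3'` -/
def gk (u v : PolyK 5) (k : Fin 5) : ℕ :=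
  if k = 1 then Nat.gcd (dn u 1) (dn v 1) else if k = 4 then Nat.gcd (dn u 4) (dn v 4)
  else Nat.gcd (dn v k) (bad u)

/-- the pairs of `(B3)` -/
structure B3S (q : Par 5) (x : ℝ) (P0 : ℕ) (s : PolyK 5 × PolyK 5) : Prop where
  p1 : IsPoly q x P0 s.1
  p2 : IsPoly q x P0 s.2
  s1 : Sep q s.1
  s2 : Sep q s.2
  he : cv s.2 3 = cv s.1 3
  hk : ∀ k, (dn s.2 k : ℝ) ≤ x ^ (q.ε / 8) * gk s.1 s.2 k

/-- the factor of the second sieve -/
noncomputable def FF (C1 : ℝ) (P0 p : ℕ) : ℝ := 1 - bden ∅ W5 P0 p / p + C1 / (p : ℝ) ^ 2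

/-- the triples -/
structure TripOk (q : Par 5) (x : ℝ) (P0 : ℕ) (s : Bas × PolyK 5 × PolyK 5) : Prop where
  p1 : IsPoly q x P0 s.2.1
  p2 : IsPoly q x P0 s.2.2
  s1 : Sep q s.2.1
  s2 : Sep q s.2.2
  o1 : Over q x s.1 s.2.1
  o2 : Over q x s.1 s.2.2

end Pool.Agent.PENK

namespace Pool.Agent.PENL

open Finset Pool.Agent.PENT

/-- the parameters of the pairs theorem -/
noncomputable def qq (p : Pool.Agent.PENT.Par) (δ : ℝ) : Pool.Agent.PENK.Par 5 where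
  e := p.e
  ε := p.ep
  δ := δ
  c3 := p.c1
  C4 := 1000 / p.c1
  σ := p.sg

/-- the base of the edge `0`, with signs removed -/
def RR (τ : Pol 5) : Pool.Agent.PENK.Bas :=
  (τ.q 0 / |τ.d 0|, bf τ.a τ.b τ.c (τ.u 0) (τ.u 1) / |τ.d 0|, τ.q 1 / |τ.d 0|)

end Pool.Agent.PENL
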