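import Pool.Agent.Lib_helper18.PENK.Defs

/-! Block PA3 (project PENT, part PENK) -/

set_option autoImplicit false

namespace Pool.Agent.PENK

open Finset Pool.Agent.PENT

/-- the number of roots of `t ^ 2 = -1` -/
theorem pa3_roots {p : ℕ} [Fact p.Prime] (h2 : 2 < p) :
    ((univ : Finset (ZMod p)).filter (fun t => t ^ 2 = -1)).card = if p % 4 = 1 then 2 else 0 := by
  classical
  have hodd : p % 2 = 1 := by
    rcases (Fact.out : p.Prime).eq_two_or_odd with h | h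
    · omega
    · exact h
  by_cases h4 : p % 4 = 1
  · rw [if_pos h4]
    have hsq : IsSquare (-1 : ZMod p) := ZMod.exists_sq_eq_neg_one_iff.2 (by omega)
    obtain ⟨t, ht⟩ := hsq
    have h20 : (2 : ZMod p) ≠ 0 := by
      intro h0
      have h1 : ((2 : ℕ) : ZMod p) = 0 := by exact_mod_cast h0
      rw [ZMod.natCast_eq_zero_iff] at h1
      have := Nat.le_of_dvd (by norm_num) h1
      omega
    have ht0 : t ≠ 0 := by
      rintro rfl
      rw [mul_zero] at ht
      exact one_ne_zero (neg_eq_zero.1 ht)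
    have hne : t ≠ -t := by
      intro h
      have h1 : 2 * t = 0 := by
        rw [two_mul]
        nth_rewrite 2 [h]
        exact add_neg_cancel t
      rcases mul_eq_zero.1 h1 with h3 | h3
      · exact h20 h3
      · exact ht0 h3
    have heq : (univ : Finset (ZMod p)).filter (fun t => t ^ 2 = -1) = {t, -t} := by
      ext s
      simp only [mem_filter, mem_univ, true_and, mem_insert, mem_singleton]
      constructor
      · intro hs
        have h1 : (s - t) * (s + t) = 0 := by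
          have : (s - t) * (s + t) = s ^ 2 - t * t := by ring
          rw [this, hs, ← ht, sub_self]
        rcases mul_eq_zero.1 h1 with h3 | h3
        · exact Or.inl (sub_eq_zero.1 h3)
        · exact Or.inr (eq_neg_of_add_eq_zero_left h3)
      · rintro (h | h)
        · rw [h, ht]; ring
        · rw [h, ht]; ring
    rw [heq, Finset.card_pair hne]
  · rw [if_neg h4, Finset.card_eq_zero, Finset.filter_eq_empty_iff]
    intro t _ ht
    have h3 : p % 4 = 3 := by omega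
    have hsq : IsSquare (-1 : ZMod p) := ⟨t, by rw [← ht]; ring⟩
    exact (ZMod.exists_sq_eq_neg_one_iff.1 hsq) h3

theorem card_VV_two_pr {p : ℕ} (hp : p.Prime) (h2 : 2 < p) (c c' : ℤ × ℤ)
    (hc : ¬ (p : ℤ) ∣ dt c c') :
    ((VV p).filter (fun r => (p : ℤ) ∣ Rf r c ∧ (p : ℤ) ∣ Rf r c')).card =
      if p % 4 = 1 then 2 else 0 := by
  classical
  have : Fact p.Prime := ⟨hp⟩
  have : NeZero p := ⟨hp.ne_zero⟩
  rw [← pa3_roots h2]
  -- coordinates modulo `p`
  obtain ⟨a, ha⟩ : ∃ a : ZMod p, a = (c.1 : ZMod p) := ⟨_, rfl⟩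
  obtain ⟨b, hb⟩ : ∃ b : ZMod p, b = (c.2 : ZMod p) := ⟨_, rfl⟩
  obtain ⟨a', ha'⟩ : ∃ a' : ZMod p, a' = (c'.1 : ZMod p) := ⟨_, rfl⟩
  obtain ⟨b', hb'⟩ : ∃ b' : ZMod p, b' = (c'.2 : ZMod p) := ⟨_, rfl⟩
  obtain ⟨d, hd⟩ : ∃ d : ZMod p, d = a * b' - b * a' := ⟨_, rfl⟩
  have hcast : ∀ x : ℤ, (p : ℤ) ∣ x ↔ (x : ZMod p) = 0 := fun x =>
    (ZMod.intCast_zmod_eq_zero_iff_dvd x p).symm
  have hd0 : d ≠ 0 := by
    intro h0
    apply hc
    rw [hcast]
    unfold dt
    push_cast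
    rw [← ha, ← hb, ← ha', ← hb', ← hd, h0]
  have h20 : (2 : ZMod p) ≠ 0 := by
    intro h0
    have h1 : ((2 : ℕ) : ZMod p) = 0 := by exact_mod_cast h0
    rw [ZMod.natCast_eq_zero_iff] at h1
    have := Nat.le_of_dvd (by norm_num) h1
    omega
  -- membership
  have hmem : ∀ r : Bas, r ∈ (VV p).filter (fun r => (p : ℤ) ∣ Rf r c ∧ (p : ℤ) ∣ Rf r c') ↔
      ((0 ≤ r.1 ∧ r.1 < p) ∧ (0 ≤ r.2.1 ∧ r.2.1 < p) ∧ (0 ≤ r.2.2 ∧ r.2.2 < p)) ∧
      ((r.1 : ZMod p) * r.2.2 - (r.2.1 : ZMod p) ^ 2 = 1) ∧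
      ((r.1 : ZMod p) * a ^ 2 + 2 * r.2.1 * a * b + r.2.2 * b ^ 2 = 0) ∧
      ((r.1 : ZMod p) * a' ^ 2 + 2 * r.2.1 * a' * b' + r.2.2 * b' ^ 2 = 0) := by
    intro r
    unfold VV Rf qf
    rw [mem_filter, mem_filter, mem_product, mem_product, mem_Ico, mem_Ico, mem_Ico,
      hcast, hcast, hcast]
    push_cast
    rw [← ha, ← hb, ← ha', ← hb', sub_eq_zero, and_assoc]
  refine Finset.card_nbij'
    (fun r => -((r.1 : ZMod p) * a * a' + r.2.1 * (a * b' + b * a') + r.2.2 * b * b') / d)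
    (fun t => ((((2 * t / d * (b * b') : ZMod p).val : ℕ) : ℤ),
      (((-(t / d) * (a * b' + b * a') : ZMod p).val : ℕ) : ℤ),
      (((2 * t / d * (a * a') : ZMod p).val : ℕ) : ℤ))) ?_ ?_ ?_ ?_
  · intro r hr
    obtain ⟨-, e1, e2, e3⟩ := (hmem r).1 (mem_coe.1 hr)
    refine mem_coe.2 (mem_filter.2 ⟨mem_univ _, ?_⟩)
    show (-((r.1 : ZMod p) * a * a' + r.2.1 * (a * b' + b * a') + r.2.2 * b * b') / d) ^ 2 = -1
    rw [div_pow, div_eq_iff (pow_ne_zero 2 hd0)]
    have key : ((r.1 : ZMod p) * a * a' + r.2.1 * (a * b' + b * a') + r.2.2 * b * b') ^ 2 =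
        ((r.1 : ZMod p) * a ^ 2 + 2 * r.2.1 * a * b + r.2.2 * b ^ 2) *
        ((r.1 : ZMod p) * a' ^ 2 + 2 * r.2.1 * a' * b' + r.2.2 * b' ^ 2) -
        ((r.1 : ZMod p) * r.2.2 - (r.2.1 : ZMod p) ^ 2) * d ^ 2 := by
      rw [hd]; ring
    rw [neg_pow_two, key, e1, e2]
    ring
  · intro t ht
    have ht2 : t ^ 2 = -1 := (mem_filter.1 (mem_coe.1 ht)).2
    refine mem_coe.2 ((hmem _).2 ⟨⟨⟨?_, ?_⟩, ⟨?_, ?_⟩, ⟨?_, ?_⟩⟩, ?_, ?_, ?_⟩)
    · exact Int.natCast_nonneg _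
    · exact Int.ofNat_lt.2 (ZMod.val_lt _)
    · exact Int.natCast_nonneg _
    · exact Int.ofNat_lt.2 (ZMod.val_lt _)
    · exact Int.natCast_nonneg _
    · exact Int.ofNat_lt.2 (ZMod.val_lt _)
    · simp only [Int.cast_natCast, ZMod.natCast_zmod_val]
      have e : 2 * t / d * (b * b') * (2 * t / d * (a * a')) - (-(t / d) * (a * b' + b * a')) ^ 2 =
          -(t ^ 2) * (a * b' - b * a') ^ 2 / d ^ 2 := by
        field_simp
        ring
      rw [e, ht2, ← hd]
      field_simp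
    · simp only [Int.cast_natCast, ZMod.natCast_zmod_val]
      field_simp
      ring
    · simp only [Int.cast_natCast, ZMod.natCast_zmod_val]
      field_simp
      ring
  · intro r hr
    obtain ⟨⟨f1, f2, f3⟩, -, e2, e3⟩ := (hmem r).1 (mem_coe.1 hr)
    have g1 : (2 * (-((r.1 : ZMod p) * a * a' + r.2.1 * (a * b' + b * a') + r.2.2 * b * b') / d) / d
        * (b * b') : ZMod p) = ((r.1 : ℤ) : ZMod p) := by
      field_simp
      rw [hd]
      linear_combination (-(b' ^ 2)) * e2 - b ^ 2 * e3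
    have g2 : (-((-((r.1 : ZMod p) * a * a' + r.2.1 * (a * b' + b * a') + r.2.2 * b * b') / d) / d)
        * (a * b' + b * a') : ZMod p) = ((r.2.1 : ℤ) : ZMod p) := by
      field_simp
      rw [hd]
      linear_combination (a' * b') * e2 + (a * b) * e3
    have g3 : (2 * (-((r.1 : ZMod p) * a * a' + r.2.1 * (a * b' + b * a') + r.2.2 * b * b') / d) / d
        * (a * a') : ZMod p) = ((r.2.2 : ℤ) : ZMod p) := by
      field_simp
      rw [hd]
      linear_combination (-(a' ^ 2)) * e2 - a ^ 2 * e3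
    show ((((2 * (-((r.1 : ZMod p) * a * a' + r.2.1 * (a * b' + b * a') + r.2.2 * b * b') / d) / d
        * (b * b') : ZMod p).val : ℕ) : ℤ),
      (((-((-((r.1 : ZMod p) * a * a' + r.2.1 * (a * b' + b * a') + r.2.2 * b * b') / d) / d)
        * (a * b' + b * a') : ZMod p).val : ℕ) : ℤ),
      (((2 * (-((r.1 : ZMod p) * a * a' + r.2.1 * (a * b' + b * a') + r.2.2 * b * b') / d) / d
        * (a * a') : ZMod p).val : ℕ) : ℤ)) = r
    rw [g1, g2, g3]
    rw [ZMod.val_intCast, ZMod.val_intCast, ZMod.val_intCast, Int.emod_eq_of_lt f1.1 f1.2,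
      Int.emod_eq_of_lt f2.1 f2.2, Int.emod_eq_of_lt f3.1 f3.2]
  · intro t ht
    simp only [Int.cast_natCast, ZMod.natCast_zmod_val]
    field_simp
    rw [hd]
    ring

end Pool.Agent.PENK

namespace Pool.Agent.PENK

theorem card_VV_two : type_of% @card_VV_two_pr := @card_VV_two_pr

end Pool.Agent.PENK
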