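import Pool.Agent.Lib_helper18.PENK.Defs
import Pool.Agent.Lib_helper18.PENKF.DefsW
import Pool.Agent.Lib_helper18.PENKF.PA1
import Pool.Agent.Lib_helper18.PENKF.PA2
import Pool.Agent.Lib_helper18.PENKF.PA3

set_option autoImplicit false

namespace Pool.Agent.PENK

open Finset Pool.Agent.PENT

theorem pa4_ich (s : Finset Bas) (P : Bas → Prop) [DecidablePred P] :
    ∑ r ∈ s, ich (P r) = ((s.filter P).card : ℝ) := by
  unfold ich
  rw [Finset.card_filter]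
  push_cast
  apply Finset.sum_congr rfl
  intro r _
  by_cases h : P r <;> simp [h]

theorem pa4_card {p : ℕ} (hp : p.Prime) (h2 : 2 < p) :
    ((VV p).card : ℝ) = p * (p + if p % 4 = 1 then 1 else -1) := by
  have h := card_VV hp h2
  have h' : (((VV p).card : ℤ) : ℝ) = ((p * (p + if p % 4 = 1 then 1 else -1) : ℤ) : ℝ) := by
    rw [h]
  push_cast at h'
  rw [h']

theorem pa4_pos {p : ℕ} (hp : p.Prime) (h2 : 2 < p) : (0 : ℝ) < ((VV p).card : ℝ) := by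
  rw [pa4_card hp h2]
  have h3 : (2 : ℝ) < (p : ℝ) := by exact_mod_cast h2
  split_ifs
  · exact mul_pos (by linarith) (by linarith)
  · exact mul_pos (by linarith) (by linarith)

/-- BLOCK PA4 (uses PA1, PA2, PA3): the means. -/
theorem mV_one_pr {p : ℕ} (hp : p.Prime) (h2 : 2 < p) (c : ℤ × ℤ)
    (hc : ¬ ((p : ℤ) ∣ c.1 ∧ (p : ℤ) ∣ c.2)) :
    mV p (fun R => ich ((p : ℤ) ∣ Rf R c)) = if p % 4 = 1 then 2 / ((p : ℝ) + 1) else 0 := by
  have h3 : (2 : ℝ) < (p : ℝ) := by exact_mod_cast h2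
  unfold mV
  rw [pa4_ich (VV p) (fun R => (p : ℤ) ∣ Rf R c), card_VV_one hp h2 c hc, pa4_card hp h2]
  split_ifs
  · push_cast
    have h4 : (p : ℝ) ≠ 0 := by linarith
    have h5 : (p : ℝ) + 1 ≠ 0 := by linarith
    field_simp
  · simp

theorem mV_two_pr {p : ℕ} (hp : p.Prime) (h2 : 2 < p) (c c' : ℤ × ℤ) (hc : ¬ (p : ℤ) ∣ dt c c') :
    mV p (fun R => ich ((p : ℤ) ∣ Rf R c ∧ (p : ℤ) ∣ Rf R c')) =
      if p % 4 = 1 then 2 / ((p : ℝ) * (p + 1)) else 0 := by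
  have h3 : (2 : ℝ) < (p : ℝ) := by exact_mod_cast h2
  unfold mV
  rw [pa4_ich (VV p) (fun R => (p : ℤ) ∣ Rf R c ∧ (p : ℤ) ∣ Rf R c'), card_VV_two hp h2 c c' hc,
    pa4_card hp h2]
  split_ifs
  · push_cast
    rfl
  · simp

theorem pa4_dvd {p : ℕ} (hp : p.Prime) (x z : ℤ) (hx : ¬ (p : ℤ) ∣ x) (h : (p : ℤ) ∣ x ^ 2 * z) :
    (p : ℤ) ∣ z := by
  have hp' : Prime (p : ℤ) := Nat.prime_iff_prime_int.1 hp
  rcases hp'.dvd_or_dvd h with h1 | h1
  · exact absurd (hp'.dvd_of_dvd_pow h1) hx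
  · exact h1

/-- two parallel vectors: the forms vanish at the same time -/
theorem Rf_par_pr {p : ℕ} (hp : p.Prime) (R : Bas) (c c' : ℤ × ℤ)
    (hc : ¬ ((p : ℤ) ∣ c.1 ∧ (p : ℤ) ∣ c.2)) (hd : (p : ℤ) ∣ dt c c')
    (h : (p : ℤ) ∣ Rf R c) : (p : ℤ) ∣ Rf R c' := by
  by_cases h1 : (p : ℤ) ∣ c.1
  · have h2 : ¬ (p : ℤ) ∣ c.2 := fun h3 => hc ⟨h1, h3⟩
    apply pa4_dvd hp c.2 _ h2
    have e : c.2 ^ 2 * Rf R c' = c'.2 ^ 2 * Rf R c -
        dt c c' * (2 * R.2.1 * c.2 * c'.2 + R.1 * (c.2 * c'.1 + c.1 * c'.2)) := by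
      unfold Rf qf dt
      ring
    rw [e]
    exact dvd_sub (Dvd.dvd.mul_left h _) (Dvd.dvd.mul_right hd _)
  · apply pa4_dvd hp c.1 _ h1
    have e : c.1 ^ 2 * Rf R c' = c'.1 ^ 2 * Rf R c +
        dt c c' * (2 * R.2.1 * c.1 * c'.1 + R.2.2 * (c.1 * c'.2 + c.2 * c'.1)) := by
      unfold Rf qf dt
      ring
    rw [e]
    exact dvd_add (Dvd.dvd.mul_left h _) (Dvd.dvd.mul_right hd _)

/-- elementary properties of the mean -/
theorem mV_mono_pr {p : ℕ} {h h' : Bas → ℝ} (hh : ∀ r, h r ≤ h' r) : mV p h ≤ mV p h' := by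
  unfold mV
  exact div_le_div_of_nonneg_right (Finset.sum_le_sum fun r _ => hh r) (Nat.cast_nonneg _)

theorem mV_const_pr {p : ℕ} (hp : p.Prime) (h2 : 2 < p) (c : ℝ) : mV p (fun _ => c) = c := by
  unfold mV
  rw [Finset.sum_const, nsmul_eq_mul]
  exact mul_div_cancel_left₀ c (pa4_pos hp h2).ne'

theorem mV_add_pr {p : ℕ} (h h' : Bas → ℝ) : mV p (fun r => h r + h' r) = mV p h + mV p h' := by
  unfold mV
  rw [Finset.sum_add_distrib, add_div]

theorem mV_smul_pr {p : ℕ} (c : ℝ) (h : Bas → ℝ) : mV p (fun r => c * h r) = c * mV p h := by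
  unfold mV
  rw [← Finset.mul_sum, mul_div_assoc]

end Pool.Agent.PENK

namespace Pool.Agent.PENK

theorem mV_one : type_of% @mV_one_pr := @mV_one_pr

theorem mV_two : type_of% @mV_two_pr := @mV_two_pr

theorem Rf_par : type_of% @Rf_par_pr := @Rf_par_pr

theorem mV_mono : type_of% @mV_mono_pr := @mV_mono_pr

theorem mV_const : type_of% @mV_const_pr := @mV_const_pr

theorem mV_add : type_of% @mV_add_pr := @mV_add_pr

theorem mV_smul : type_of% @mV_smul_pr := @mV_smul_pr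

end Pool.Agent.PENK
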