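import Pool.Agent.Lib_helper18.PENK.Defs
import Pool.Agent.Lib_helper39.PEQF.All
import Pool.Agent.Lib_helper39.PEQF.EE1

set_option autoImplicit false

namespace Pool.Agent.PENK

open Finset Pool.Agent.PENT

theorem pe1_rpow {c C4 x : ℝ} (hc : 0 < c) (hc1 : c ≤ 1 / 100) (hC : 1 ≤ C4) (hx : 2 ≤ x)
    (hx2 : C4 ^ (2 / c) ≤ x) : (C4 * x) ^ (1 - c) ≤ x ^ (1 - c / 2) := by
  have hx0 : 0 < x := by linarith
  have hC0 : 0 < C4 := by linarith
  have h1 : C4 ^ (1 - c) ≤ C4 := by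
    calc C4 ^ (1 - c) ≤ C4 ^ (1 : ℝ) := Real.rpow_le_rpow_of_exponent_le hC (by linarith)
      _ = C4 := Real.rpow_one _
  have h2 : C4 ≤ x ^ (c / 2) := by
    have h3 : (C4 ^ (2 / c)) ^ (c / 2) ≤ x ^ (c / 2) :=
      Real.rpow_le_rpow (by positivity) hx2 (by positivity)
    rw [← Real.rpow_mul hC0.le] at h3
    have h4 : 2 / c * (c / 2) = 1 := by field_simp
    rw [h4, Real.rpow_one] at h3
    exact h3
  rw [Real.mul_rpow hC0.le hx0.le]
  calc C4 ^ (1 - c) * x ^ (1 - c) ≤ x ^ (c / 2) * x ^ (1 - c) :=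
        mul_le_mul_of_nonneg_right (h1.trans h2) (by positivity)
    _ = x ^ (1 - c / 2) := by
        rw [← Real.rpow_add hx0]
        congr 1
        ring

/-- BLOCK PE1 -/
theorem eqq_pr : ∃ δ : ℝ, 0 < δ ∧ δ ≤ 1 / 10 ∧ EQQ δ := by
  obtain ⟨c, X₀, C, hc, hc1, hX0, hC, hmaj⟩ := Pool.Agent.PENT.EQ.maj 1 le_rfl
  refine ⟨c / 2, by linarith, by linarith, ?_⟩
  intro C4 hC4
  have hC40 : 0 < C4 := by linarith
  refine ⟨C * C4, max X₀ (C4 ^ (2 / c)), by positivity, hX0.trans (le_max_left _ _), ?_⟩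
  intro x hx G hG1 hG2
  have hxX : X₀ ≤ x := (le_max_left _ _).trans hx
  have hx2 : C4 ^ (2 / c) ≤ x := (le_max_right _ _).trans hx
  have hx22 : 2 ≤ x := hX0.trans hxX
  have hx1 : 1 ≤ x := by linarith
  have hxC : x ≤ C4 * x := by nlinarith
  have hkey := pe1_rpow hc hc1 hC4 hx22 hx2
  obtain ⟨O, hO1, hO2, hO3, hO4⟩ := hmaj (C4 * x) (hxX.trans hxC) G (hkey.trans hG1) (by
    calc G ≤ x ^ (1 + c / 2) := hG2
      _ ≤ (C4 * x) ^ (1 + c / 2) := Real.rpow_le_rpow (by linarith) hxC (by linarith)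
      _ ≤ (C4 * x) ^ (1 + c) :=
          Real.rpow_le_rpow_of_exponent_le (by linarith) (by linarith))
  refine ⟨O, fun t => Pool.Agent.PENT.EQ.QQ (Pool.Agent.PENT.EQ.emat t), ?_, ?_, ?_⟩
  · intro R hR h1 h2 h3
    obtain ⟨t, ht, hQ⟩ := hO1 R.1 R.2.1 R.2.2 (by linarith) h1 h2 (by linarith)
    exact ⟨t, ht, hQ⟩
  · calc (O.card : ℝ) ≤ C * (C4 * x) := hO3
      _ = C * C4 * x := by ring
  · intro T h hT hprod hper hb
    have h5 := hO4 T (fun p hp => ?_) (fun p hp p' hp' hne => ?_) ?_ h hper hb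
    · refine le_trans (le_trans (le_of_eq ?_) h5) hkey
      rfl
    · exact (hT p hp).1.odd_of_ne_two (by have := (hT p hp).2; omega)
    · exact (Nat.coprime_primes (hT p hp).1 (hT p' hp').1).2 hne
    · calc ((∏ p ∈ T, p : ℕ) : ℝ) ≤ x ^ (c / 2) := hprod
        _ ≤ x ^ c := Real.rpow_le_rpow_of_exponent_le hx1 (by linarith)
        _ ≤ (C4 * x) ^ c := Real.rpow_le_rpow (by linarith) hxC hc.le

end Pool.Agent.PENK

namespace Pool.Agent.PENK

theorem eqq : type_of% @eqq_pr := @eqq_pr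

end Pool.Agent.PENK
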