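import Pool.Agent.Lib_helper18.PENK.Defs

set_option autoImplicit false

namespace Pool.Agent.PENK

open Finset Pool.Agent.PENT

theorem pa5_dvd {p : ℕ} {a b : ℤ} (h : (p : ℤ) ∣ a - b) : (p : ℤ) ∣ a ↔ (p : ℤ) ∣ b := by
  constructor
  · intro ha
    have h1 := dvd_sub ha h
    rwa [sub_sub_cancel] at h1
  · intro hb
    have h1 := dvd_add h hb
    rwa [sub_add_cancel] at h1

theorem pa5_ind {p : ℕ} {a b : ℤ} (h : (p : ℤ) ∣ a - b) (α : ℝ) : ind p a α = ind p b α := by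
  unfold ind
  simp only [pa5_dvd h]

theorem pa5_Rf {p : ℕ} {r r' : Bas} (h1 : (p : ℤ) ∣ r.1 - r'.1) (h2 : (p : ℤ) ∣ r.2.1 - r'.2.1)
    (h3 : (p : ℤ) ∣ r.2.2 - r'.2.2) (c : ℤ × ℤ) : (p : ℤ) ∣ Rf r c - Rf r' c := by
  have h4 : Rf r c - Rf r' c = (r.1 - r'.1) * c.1 ^ 2 + (r.2.1 - r'.2.1) * (2 * c.1 * c.2) +
      (r.2.2 - r'.2.2) * c.2 ^ 2 := by
    unfold Rf qf
    ring
  rw [h4]
  exact dvd_add (dvd_add (Dvd.dvd.mul_right h1 _) (Dvd.dvd.mul_right h2 _))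
    (Dvd.dvd.mul_right h3 _)

/-- BLOCK PA5: `phi` is a function modulo `p` with values in `[0,1]`. -/
theorem phi_per_pr {K : ℕ} [NeZero K] (W : Wts K) (P0 : ℕ) (u u' : PolyK K) (p : ℕ) :
    PerV p (phi W P0 u u' p) := by
  intro r r' h1 h2 h3
  unfold phi
  rw [pa5_ind h1, pa5_ind h3]
  congr 1
  congr 1
  · exact Finset.prod_congr rfl fun k _ => pa5_ind (pa5_Rf h1 h2 h3 _) _
  · exact Finset.prod_congr rfl fun k _ => pa5_ind (pa5_Rf h1 h2 h3 _) _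

theorem pa5_ind_mem {p : ℕ} (a : ℤ) {α : ℝ} (h0 : 0 ≤ α) (h1 : α ≤ 1) :
    0 ≤ ind p a α ∧ ind p a α ≤ 1 := by
  unfold ind
  split_ifs
  · exact ⟨h0, h1⟩
  · exact ⟨zero_le_one, le_rfl⟩

theorem pa5_mul_mem {a b : ℝ} (ha : 0 ≤ a ∧ a ≤ 1) (hb : 0 ≤ b ∧ b ≤ 1) :
    0 ≤ a * b ∧ a * b ≤ 1 :=
  ⟨mul_nonneg ha.1 hb.1, mul_le_one₀ ha.2 hb.1 hb.2⟩

theorem pa5_quot {a s : ℝ} (ha : 0 < a) (ha1 : a ≤ 1) (hs : a ≤ s) :
    0 ≤ a ^ 2 / s ∧ a ^ 2 / s ≤ 1 := by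
  have hs0 : 0 < s := lt_of_lt_of_le ha hs
  refine ⟨by positivity, ?_⟩
  rw [div_le_one hs0]
  nlinarith

theorem phi_mem_pr {K : ℕ} [NeZero K] (W : Wts K) (hW : W.Ok) (P0 : ℕ) (u u' : PolyK K) (p : ℕ)
    (R : Bas) : 0 ≤ phi W P0 u u' p R ∧ phi W P0 u u' p R ≤ 1 := by
  have hg0 : 0 ≤ W.g0 P0 p ∧ W.g0 P0 p ≤ 1 := by
    unfold Wts.g0
    split_ifs
    · exact ⟨hW.bo0 0, hW.bo1 0⟩
    · exact pa5_quot (hW.be0 0) (hW.be1 0) (by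
        unfold Wts.s0
        linarith [hW.al0 (-1)])
  have hg1 : 0 ≤ W.g1 P0 p ∧ W.g1 P0 p ≤ 1 := by
    unfold Wts.g1
    split_ifs
    · exact ⟨hW.bo0 1, hW.bo1 1⟩
    · exact pa5_quot (hW.be0 1) (hW.be1 1) (by
        unfold Wts.s1
        linarith [hW.al0 1])
  have hgi : ∀ k, 0 ≤ W.gi P0 p k ∧ W.gi P0 p k ≤ 1 := by
    intro k
    unfold Wts.gi
    split_ifs
    · exact ⟨hW.bo0 k, hW.bo1 k⟩
    · exact ⟨(hW.be0 k).le, hW.be1 k⟩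
  have hprod : ∀ v : PolyK K, 0 ≤ ∏ k ∈ ivr K, ind p (Rf R (cv v k)) (W.gi P0 p k) ∧
      ∏ k ∈ ivr K, ind p (Rf R (cv v k)) (W.gi P0 p k) ≤ 1 := by
    intro v
    refine ⟨Finset.prod_nonneg fun k _ => (pa5_ind_mem _ (hgi k).1 (hgi k).2).1, ?_⟩
    exact Finset.prod_le_one (fun k _ => (pa5_ind_mem _ (hgi k).1 (hgi k).2).1)
      fun k _ => (pa5_ind_mem _ (hgi k).1 (hgi k).2).2
  unfold phi
  exact pa5_mul_mem (pa5_mul_mem (pa5_ind_mem _ hg0.1 hg0.2) (pa5_ind_mem _ hg1.1 hg1.2))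
    (pa5_mul_mem (hprod u) (hprod u'))

end Pool.Agent.PENK

namespace Pool.Agent.PENK

theorem phi_per : type_of% @phi_per_pr := @phi_per_pr

theorem phi_mem : type_of% @phi_mem_pr := @phi_mem_pr

end Pool.Agent.PENK
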