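import Pool.Agent.Lib_helper18.PENK.Defs2

/-! Block PF6: products of families -/

set_option autoImplicit false

namespace Pool.Agent.PENK

open Finset Pool.Agent.PENT

theorem pf6_mG_nonneg {V : Type} (L : Finset V) (f : V → ℝ) (h : ∀ v, 0 ≤ f v) : 0 ≤ mG L f := by
  unfold mG
  exact div_nonneg (Finset.sum_nonneg (fun v _ => h v)) (Nat.cast_nonneg _)

theorem pf6_mG_le {V : Type} (L : Finset V) (f : V → ℝ) (h : ∀ v, f v ≤ 1) : mG L f ≤ 1 := by
  unfold mG
  rcases Nat.eq_zero_or_pos L.card with h0 | h0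
  · rw [h0]; simp
  · have hc : (0 : ℝ) < L.card := by exact_mod_cast h0
    rw [div_le_one hc]
    calc ∑ r ∈ L, f r ≤ ∑ _r ∈ L, (1 : ℝ) := Finset.sum_le_sum (fun v _ => h v)
      _ = L.card := by simp

theorem pf6_mG_prod {V V' : Type} (L : Finset V) (L' : Finset V') (f : V × V' → ℝ) :
    mG (L ×ˢ L') f = mG L (fun v => mG L' (fun v' => f (v, v'))) := by
  unfold mG
  rw [Finset.sum_product, Finset.card_product, ← Finset.sum_div, div_div]
  congr 1
  push_cast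
  ring

/-- BLOCK PF6: products of families. Fix `o`, sum over `o'`; then `v ↦ mG (L' p) (h p (v, ·))` is a
function of `v` modulo `p` with values in `[0,1]`. -/
theorem equi_prod_pr {ι ι' V V' : Type} {O : Finset ι} {O' : Finset ι'} {pol : ι → V}
    {pol' : ι' → V'} {cg : ℕ → V → V → Prop} {cg' : ℕ → V' → V' → Prop} {L : ℕ → Finset V}
    {L' : ℕ → Finset V'} {S : Finset ℕ} {Q η η' : ℝ} (hc : ∀ p v, cg p v v)
    (hc' : ∀ p v, cg' p v v) (hη : 0 ≤ η) (hη' : 0 ≤ η') (h : EquiG O pol cg L S Q η)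
    (h' : EquiG O' pol' cg' L' S Q η') :
    EquiG (O ×ˢ O') (fun o => (pol o.1, pol' o.2)) (fun p v w => cg p v.1 w.1 ∧ cg' p v.2 w.2)
      (fun p => L p ×ˢ L' p) S Q (η + η') := by
  intro T hT hQ k hk1 hk2
  -- the inner means
  have hg := h T hT hQ (fun p v => mG (L' p) (fun v' => k p (v, v')))
    (fun p hp v w hvw => by
      have : (fun v' => k p (v, v')) = (fun v' => k p (w, v')) := by
        funext v'
        exact hk1 p hp (v, v') (w, v') ⟨hvw, hc' p v'⟩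
      simp only [this])
    (fun p hp v => ⟨pf6_mG_nonneg _ _ (fun v' => (hk2 p hp (v, v')).1),
      pf6_mG_le _ _ (fun v' => (hk2 p hp (v, v')).2)⟩)
  have hi : ∀ o ∈ O, |∑ o' ∈ O', ∏ p ∈ T, k p (pol o, pol' o') -
      O'.card * ∏ p ∈ T, mG (L' p) (fun v' => k p (pol o, v'))| ≤ η' * O'.card := by
    intro o _
    exact h' T hT hQ (fun p v' => k p (pol o, v'))
      (fun p hp v w hvw => hk1 p hp (pol o, v) (pol o, w) ⟨hc p (pol o), hvw⟩)
      (fun p hp v => hk2 p hp (pol o, v))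
  have hs : |∑ o ∈ O, (∑ o' ∈ O', ∏ p ∈ T, k p (pol o, pol' o') -
      O'.card * ∏ p ∈ T, mG (L' p) (fun v' => k p (pol o, v')))| ≤ O.card * (η' * O'.card) := by
    refine (Finset.abs_sum_le_sum_abs _ _).trans ?_
    refine (Finset.sum_le_sum hi).trans ?_
    rw [Finset.sum_const, nsmul_eq_mul]
  have hO' : (0 : ℝ) ≤ O'.card := Nat.cast_nonneg _
  have hm : |(O'.card : ℝ) * (∑ o ∈ O, ∏ p ∈ T, mG (L' p) (fun v' => k p (pol o, v')) -
      O.card * ∏ p ∈ T, mG (L p) (fun v => mG (L' p) (fun v' => k p (v, v'))))| ≤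
      O'.card * (η * O.card) := by
    rw [abs_mul, abs_of_nonneg hO']
    exact mul_le_mul_of_nonneg_left hg hO'
  have hP : ∏ p ∈ T, mG (L p ×ˢ L' p) (k p) =
      ∏ p ∈ T, mG (L p) (fun v => mG (L' p) (fun v' => k p (v, v'))) :=
    Finset.prod_congr rfl (fun p _ => pf6_mG_prod _ _ _)
  show |∑ o ∈ O ×ˢ O', ∏ p ∈ T, k p (pol o.1, pol' o.2) -
      ((O ×ˢ O').card : ℝ) * ∏ p ∈ T, mG (L p ×ˢ L' p) (k p)| ≤ (η + η') * ((O ×ˢ O').card : ℝ)
  rw [hP, Finset.sum_product, Finset.card_product]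
  have e : ∑ o ∈ O, ∑ o' ∈ O', ∏ p ∈ T, k p (pol o, pol' o') -
      ((O.card * O'.card : ℕ) : ℝ) *
        ∏ p ∈ T, mG (L p) (fun v => mG (L' p) (fun v' => k p (v, v'))) =
      ∑ o ∈ O, (∑ o' ∈ O', ∏ p ∈ T, k p (pol o, pol' o') -
        O'.card * ∏ p ∈ T, mG (L' p) (fun v' => k p (pol o, v'))) +
      (O'.card : ℝ) * (∑ o ∈ O, ∏ p ∈ T, mG (L' p) (fun v' => k p (pol o, v')) -
        O.card * ∏ p ∈ T, mG (L p) (fun v => mG (L' p) (fun v' => k p (v, v')))) := by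
    rw [Finset.sum_sub_distrib, ← Finset.mul_sum]
    push_cast
    ring
  rw [e]
  refine (abs_add_le _ _).trans ((add_le_add hs hm).trans (le_of_eq ?_))
  push_cast
  ring

end Pool.Agent.PENK

namespace Pool.Agent.PENK

theorem equi_prod : type_of% @equi_prod_pr := @equi_prod_pr

end Pool.Agent.PENK
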