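import Pool.Agent.Lib_helper18.PENK11.Defs
import Pool.Agent.Lib_helper18.PENKF.DefsW

/-! PENK, paths: the definitions of the statement files (helper18) -/

set_option autoImplicit false

namespace Pool.Agent.PENK

open Finset Pool.Agent.PENT

/-- the block of a vertex in the law: `{1,2}`, `{10,0}` or the vertex itself -/
def blk (j : Fin 11) : Finset (Fin 11) :=
  if j = 1 ∨ j = 2 then {1, 2} else if j = 10 ∨ j = 0 then {10, 0} else {j}

/-- the sum over the two special edges of a cell -/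
noncomputable def wsp2 (W : Wts 11) (P d1 d1' d2 d2' : ℕ) : ℝ :=
  wsp P (W.al 1 ^ 2 / W.s1) (W.al 1 * W.be 1 / W.s1) d1 d1' *
    wsp P (W.al (-1) ^ 2 / W.s0) (W.al (-1) * W.be 0 / W.s0) d2 d2'

/-- the triples -/
structure TripP (q : Par 11) (κ : ℝ) (m : Fin 11) (x : ℝ) (P0 : ℕ)
    (s : Bas × PolyK 11 × PolyK 11) : Prop where
  p1 : IsPath q κ m x P0 s.2.1
  p2 : IsPath q κ m x P0 s.2.2
  o1 : Over q x s.1 s.2.1
  o2 : Over q x s.1 s.2.2

end Pool.Agent.PENK
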