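import Mathlib
import Pool.Agent.Lib_helper18.PENK.Defs2
import Pool.Agent.Lib_helper39.PEQF.All
import Pool.Agent.Lib_helper39.PEQF.EE1

set_option autoImplicit false

namespace Pool.Agent.PENK

open Finset Pool.Agent.PENT

theorem pf2_inj (A B : ℕ) (hB : 2 * B ≤ A) :
    ∑ α ∈ Ioc B (2 * B), Nat.totient α ≤ (pr A).card := by
  have h1 : ∑ α ∈ Ioc B (2 * B), Nat.totient α =
      ((Ioc B (2 * B)).sigma (fun α => (Finset.range α).filter (fun a => α.Coprime a))).card := by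
    rw [Finset.card_sigma]
    rfl
  rw [h1]
  refine Finset.card_le_card_of_injOn (fun z => ((z.2 : ℤ), (z.1 : ℤ))) ?_ ?_
  · intro z hz
    obtain ⟨α, a⟩ := z
    have hz' := Finset.mem_coe.1 hz
    rw [Finset.mem_sigma, Finset.mem_Ioc, Finset.mem_filter, Finset.mem_range] at hz'
    obtain ⟨⟨_, g2⟩, g3, g4⟩ := hz'
    simp only at g2 g3 g4
    refine Finset.mem_coe.2 ?_
    unfold pr sq
    rw [Finset.mem_filter, Finset.mem_product, Finset.mem_Icc, Finset.mem_Icc]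
    refine ⟨⟨⟨?_, ?_⟩, ⟨?_, ?_⟩⟩, ?_⟩
    · simp only
      omega
    · simp only
      omega
    · simp only
      omega
    · simp only
      omega
    · have g5 : Nat.Coprime a α := g4.symm
      simpa [Int.gcd_natCast_natCast] using g5
  · intro z _ w _ h
    obtain ⟨α, a⟩ := z
    obtain ⟨β, b⟩ := w
    simp only [Prod.mk.injEq, Nat.cast_inj] at h
    obtain ⟨h2, h3⟩ := h
    subst h2
    subst h3
    rfl

theorem pr_card_pr : ∃ A₀ : ℕ, 1 ≤ A₀ ∧ (∀ A ≥ A₀, (A : ℝ) ^ 2 / 64 ≤ (pr A).card) ∧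
    ∀ A : ℕ, 1 ≤ A → ((pr A).card : ℝ) ≤ 9 * (A : ℝ) ^ 2 := by
  obtain ⟨A₀, h1, h2⟩ := EQ.totient_dyadic
  refine ⟨2 * A₀ + 4, by omega, ?_, ?_⟩
  · intro A hA
    obtain ⟨B, hB⟩ : ∃ B : ℕ, B = A / 2 := ⟨_, rfl⟩
    have hB0 : A₀ ≤ B := by omega
    have hB2 : 2 * B ≤ A := by omega
    have hB1 : A ≤ 2 * B + 1 := by omega
    have hs := h2 B hB0
    have hc := pf2_inj A B hB2
    have hc' : ∑ α ∈ Ioc B (2 * B), (Nat.totient α : ℝ) ≤ ((pr A).card : ℝ) := by
      exact_mod_cast hc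
    have hBpos : (0 : ℝ) < B := by
      have : 0 < B := by omega
      exact_mod_cast this
    have h3 : ∑ α ∈ Ioc B (2 * B), (Nat.totient α : ℝ) / (α : ℝ) ^ 2 ≤
        ∑ α ∈ Ioc B (2 * B), (Nat.totient α : ℝ) / (B : ℝ) ^ 2 := by
      refine Finset.sum_le_sum fun α hα => ?_
      have g1 : (B : ℝ) ≤ α := by
        exact_mod_cast (Finset.mem_Ioc.1 hα).1.le
      exact div_le_div_of_nonneg_left (Nat.cast_nonneg _) (by positivity)
        (pow_le_pow_left₀ hBpos.le g1 2)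
    rw [← Finset.sum_div] at h3
    have h4 : (1 : ℝ) / 8 ≤ (∑ α ∈ Ioc B (2 * B), (Nat.totient α : ℝ)) / (B : ℝ) ^ 2 :=
      hs.trans h3
    rw [le_div_iff₀ (by positivity)] at h4
    have h5 : (A : ℝ) ≤ 2 * B + 1 := by exact_mod_cast hB1
    have h6 : (4 : ℝ) ≤ A := by
      have : 4 ≤ A := by omega
      exact_mod_cast this
    nlinarith
  · intro A hA
    have h3 : (pr A).card ≤ (2 * A + 1) ^ 2 := by
      unfold pr
      refine (Finset.card_filter_le _ _).trans ?_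
      unfold sq
      rw [Finset.card_product, Int.card_Icc]
      have : ((A : ℤ) + 1 - -(A : ℤ)).toNat = 2 * A + 1 := by omega
      rw [this]
      exact le_of_eq (by ring)
    have h4 : ((pr A).card : ℝ) ≤ (2 * (A : ℝ) + 1) ^ 2 := by exact_mod_cast h3
    have h5 : (1 : ℝ) ≤ A := by exact_mod_cast hA
    nlinarith

end Pool.Agent.PENK

namespace Pool.Agent.PENK

theorem pr_card : type_of% @pr_card_pr := @pr_card_pr

end Pool.Agent.PENK
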