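import Pool.Agent.Lib_helper18.PENK.Defs2

/-! PENK (MP_892e4c_nt), block PF3 (helper67): the vector `bz` -/

set_option autoImplicit false

namespace Pool.Agent.PENK

open Finset Pool.Agent.PENT

theorem pf3_bez {a : ℤ × ℤ} (ha : Int.gcd a.1 a.2 = 1) :
    ∃ u v : ℤ, a.1 * u + a.2 * v = 1 := by
  refine ⟨Int.gcdA a.1 a.2, Int.gcdB a.1 a.2, ?_⟩
  have h := Int.gcd_eq_gcd_ab a.1 a.2
  rw [ha] at h
  push_cast at h
  exact h.symm

theorem pf3_exists {a : ℤ × ℤ} (ha : Int.gcd a.1 a.2 = 1) (δ : ℤ) :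
    ∃ b : ℤ × ℤ, dt a b = δ ∧ ∀ b', dt a b' = δ → nr b ≤ nr b' := by
  classical
  obtain ⟨u, v, huv⟩ := pf3_bez ha
  have hex : ∃ n : ℕ, ∃ b : ℤ × ℤ, dt a b = δ ∧ nr b = n := by
    refine ⟨_, (-(δ * v), δ * u), ?_, rfl⟩
    simp only [dt]
    linear_combination δ * huv
  obtain ⟨b, hb1, hb2⟩ := Nat.find_spec hex
  refine ⟨b, hb1, fun b' hb' => ?_⟩
  rw [hb2]
  exact Nat.find_min' hex ⟨b', hb', rfl⟩

/-- BLOCK PF3: the vector `bz` -/
theorem bz_spec_pr {a : ℤ × ℤ} (ha : Int.gcd a.1 a.2 = 1) (δ : ℤ) :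
    dt a (bz a δ) = δ ∧ (∀ b, dt a b = δ → nr (bz a δ) ≤ nr b) ∧
      ∀ b, dt a b = δ → ∃ t : ℤ, b = ((bz a δ).1 + t * a.1, (bz a δ).2 + t * a.2) := by
  classical
  have hex := pf3_exists ha δ
  have h0 : bz a δ = hex.choose := by
    unfold bz
    rw [dif_pos hex]
  have h1 : dt a (bz a δ) = δ := by rw [h0]; exact hex.choose_spec.1
  refine ⟨h1, ?_, ?_⟩
  · intro b hb
    rw [h0]
    exact hex.choose_spec.2 b hb
  · intro b hb
    obtain ⟨u, v, huv⟩ := pf3_bez ha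
    refine ⟨u * (b.1 - (bz a δ).1) + v * (b.2 - (bz a δ).2), ?_⟩
    have h2 : a.1 * b.2 - a.2 * b.1 = δ := hb
    have h3 : a.1 * (bz a δ).2 - a.2 * (bz a δ).1 = δ := h1
    ext
    · show b.1 = _
      linear_combination (-(b.1 - (bz a δ).1)) * huv - v * (h2 - h3)
    · show b.2 = _
      linear_combination (-(b.2 - (bz a δ).2)) * huv + u * (h2 - h3)

/-- every pair with `a` primitive, `|a| < 2 ^ (m + 1)`, `2 ^ m ≤ |a|`, `|b| < 2 ^ (n + 1)`, `m ≤ n`
belongs to the family (`|t| |a| ≤ |b| + |bz| ≤ 2 |b|`) -/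
theorem pair_mem_pr {m n : ℕ} (hmn : m ≤ n) {a b : ℤ × ℤ} (ha : Int.gcd a.1 a.2 = 1)
    (h1 : 2 ^ m ≤ nr a) (h2 : nr a < 2 ^ (m + 1)) (h3 : nr b < 2 ^ (n + 1)) :
    ∃ o ∈ OP (2 ^ (m + 1)) (4 * 2 ^ (n - m)), pP (dt a b) o = (a, b) := by
  obtain ⟨hz1, hz2, hz3⟩ := bz_spec_pr ha (dt a b)
  obtain ⟨t, ht⟩ := hz3 b rfl
  have hle := hz2 b rfl
  refine ⟨(a, t), ?_, ?_⟩
  · rw [OP, mem_product]
    have ha2 : |a.1| ≤ ((2 ^ (m + 1) : ℕ) : ℤ) ∧ |a.2| ≤ ((2 ^ (m + 1) : ℕ) : ℤ) := by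
      unfold nr at h2
      rw [Int.abs_eq_natAbs, Int.abs_eq_natAbs]
      constructor
      · exact_mod_cast (by omega : a.1.natAbs ≤ 2 ^ (m + 1))
      · exact_mod_cast (by omega : a.2.natAbs ≤ 2 ^ (m + 1))
    refine ⟨?_, ?_⟩
    · rw [pr, mem_filter, sq, mem_product, mem_Icc, mem_Icc]
      exact ⟨⟨abs_le.mp ha2.1, abs_le.mp ha2.2⟩, ha⟩
    · rw [mem_Icc, ← abs_le]
      -- the size of `t`
      have e1 : t * a.1 = b.1 - (bz a (dt a b)).1 := by
        have := congrArg Prod.fst ht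
        simp only at this
        linarith
      have e2 : t * a.2 = b.2 - (bz a (dt a b)).2 := by
        have := congrArg Prod.snd ht
        simp only at this
        linarith
      have f1 : t.natAbs * a.1.natAbs ≤ b.1.natAbs + (bz a (dt a b)).1.natAbs := by
        rw [← Int.natAbs_mul, e1]
        exact Int.natAbs_sub_le _ _
      have f2 : t.natAbs * a.2.natAbs ≤ b.2.natAbs + (bz a (dt a b)).2.natAbs := by
        rw [← Int.natAbs_mul, e2]
        exact Int.natAbs_sub_le _ _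
      have f3 : t.natAbs * nr a ≤ 2 * nr b := by
        have : t.natAbs * nr a ≤ nr b + nr (bz a (dt a b)) := by
          unfold nr
          nlinarith
        omega
      have f4 : t.natAbs * 2 ^ m < 4 * 2 ^ (n - m) * 2 ^ m := by
        have e4 : (2 : ℕ) ^ (n - m) * 2 ^ m = 2 ^ n := by
          rw [← pow_add]
          congr 1
          omega
        calc t.natAbs * 2 ^ m ≤ t.natAbs * nr a := Nat.mul_le_mul_left _ h1
          _ ≤ 2 * nr b := f3
          _ < 2 * 2 ^ (n + 1) := by omega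
          _ = 4 * 2 ^ n := by rw [pow_succ]; ring
          _ = 4 * 2 ^ (n - m) * 2 ^ m := by rw [mul_assoc, e4]
      have f5 : t.natAbs < 4 * 2 ^ (n - m) := lt_of_mul_lt_mul_right f4 (Nat.zero_le _)
      have f6 : |t| = (t.natAbs : ℤ) := Int.abs_eq_natAbs t
      rw [f6]
      exact_mod_cast f5.le
  · show (a, ((bz a (dt a b)).1 + t * a.1, (bz a (dt a b)).2 + t * a.2)) = (a, b)
    rw [← ht]

end Pool.Agent.PENK

namespace Pool.Agent.PENK

theorem bz_spec : type_of% @bz_spec_pr := @bz_spec_pr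

theorem pair_mem : type_of% @pair_mem_pr := @pair_mem_pr

end Pool.Agent.PENK
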