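import Pool.Agent.Lib_helper18.PENK.Defs2

/-! Block PF4 -/

set_option autoImplicit false

namespace Pool.Agent.PENK

open Finset Pool.Agent.PENT

theorem pf4_crt {m n : ℕ} (hm : 0 < m) (hn : 0 < n) (hmn : Nat.Coprime m n) {f g : ℤ → ℝ}
    (hf : ∀ s t : ℤ, (m : ℤ) ∣ s - t → f s = f t) (hg : ∀ s t : ℤ, (n : ℤ) ∣ s - t → g s = g t) :
    ∑ t ∈ range (m * n), f (t : ℤ) * g (t : ℤ) =
      (∑ t ∈ range m, f (t : ℤ)) * ∑ t ∈ range n, g (t : ℤ) := by
  rw [Finset.sum_mul_sum, ← Finset.sum_product']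
  refine Finset.sum_nbij (fun t => (t % m, t % n)) ?_ ?_ ?_ ?_
  · intro t _
    simp only [Finset.mem_product, Finset.mem_range]
    exact ⟨Nat.mod_lt _ hm, Nat.mod_lt _ hn⟩
  · intro t ht t' ht' h
    simp only [Prod.mk.injEq] at h
    simp only [Finset.coe_range, Set.mem_Iio] at ht ht'
    have h1 : t ≡ t' [MOD m * n] := (Nat.modEq_and_modEq_iff_modEq_mul hmn).1 ⟨h.1, h.2⟩
    exact Nat.ModEq.eq_of_lt_of_lt h1 ht ht'
  · rintro ⟨a, b⟩ hab
    simp only [Finset.coe_product, Finset.coe_range, Set.mem_prod, Set.mem_Iio] at hab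
    have hk := (Nat.chineseRemainder hmn a b).2
    refine ⟨(Nat.chineseRemainder hmn a b : ℕ), ?_, ?_⟩
    · simp only [Finset.coe_range, Set.mem_Iio]
      exact Nat.chineseRemainder_lt_mul hmn a b hm.ne' hn.ne'
    · have h1 : (Nat.chineseRemainder hmn a b : ℕ) % m = a := by
        rw [hk.1]; exact Nat.mod_eq_of_lt hab.1
      have h2 : (Nat.chineseRemainder hmn a b : ℕ) % n = b := by
        rw [hk.2]; exact Nat.mod_eq_of_lt hab.2
      simp only [h1, h2]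
  · intro t _
    have h1 : f (t : ℤ) = f ((t % m : ℕ) : ℤ) := by
      apply hf
      rw [Int.natCast_mod]
      exact Int.dvd_self_sub_emod
    have h2 : g (t : ℤ) = g ((t % n : ℕ) : ℤ) := by
      apply hg
      rw [Int.natCast_mod]
      exact Int.dvd_self_sub_emod
    simp only [h1, h2]
    
theorem pf4_prod (T : Finset ℕ) (hT : ∀ p ∈ T, p.Prime) (H : ℕ → ℤ → ℝ)
    (hper : ∀ p ∈ T, ∀ s t : ℤ, (p : ℤ) ∣ s - t → H p s = H p t) :
    (∀ s t : ℤ, ((∏ p ∈ T, p : ℕ) : ℤ) ∣ s - t → ∏ p ∈ T, H p s = ∏ p ∈ T, H p t) ∧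
      ∑ t ∈ range (∏ p ∈ T, p), ∏ p ∈ T, H p (t : ℤ) = ∏ p ∈ T, ∑ t ∈ range p, H p (t : ℤ) := by
  constructor
  · intro s t h
    refine Finset.prod_congr rfl fun p hp => hper p hp s t (dvd_trans ?_ h)
    exact_mod_cast Finset.dvd_prod_of_mem (fun p => p) hp
  · classical
    induction T using Finset.induction_on with
    | empty => simp
    | insert a T ha ih =>
      have hT' : ∀ p ∈ T, p.Prime := fun p hp => hT p (Finset.mem_insert_of_mem hp)
      have hper' : ∀ p ∈ T, ∀ s t : ℤ, (p : ℤ) ∣ s - t → H p s = H p t :=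
        fun p hp => hper p (Finset.mem_insert_of_mem hp)
      have haP : a.Prime := hT a (Finset.mem_insert_self a T)
      have hcop : Nat.Coprime a (∏ p ∈ T, p) := by
        refine Nat.Coprime.prod_right fun p hp => ?_
        rw [Nat.coprime_primes haP (hT' p hp)]
        rintro rfl
        exact ha hp
      have hpos : 0 < ∏ p ∈ T, p := Finset.prod_pos fun p hp => (hT' p hp).pos
      have h1 := pf4_crt (f := fun t => H a t) (g := fun t => ∏ p ∈ T, H p t) haP.pos hpos hcop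
        (fun s t h => hper a (Finset.mem_insert_self a T) s t h) (fun s t h => by
          refine Finset.prod_congr rfl fun p hp => hper' p hp s t (dvd_trans ?_ h)
          exact_mod_cast Finset.dvd_prod_of_mem (fun p => p) hp)
      rw [Finset.prod_insert ha, Finset.prod_insert ha, ← ih hT' hper', ← h1]
      refine Finset.sum_congr rfl fun t _ => ?_
      rw [Finset.prod_insert ha]

theorem pf4_shift {q : ℕ} {f : ℤ → ℝ} (hf : ∀ s t : ℤ, (q : ℤ) ∣ s - t → f s = f t) (c : ℕ) :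
    ∑ i ∈ range q, f ((i : ℤ) - c) = ∑ i ∈ range q, f (i : ℤ) := by
  induction c with
  | zero => simp
  | succ c ih =>
    rw [← ih]
    have h1 : ∑ i ∈ range q, f ((i : ℤ) - c) = ∑ i ∈ range q, f (((i + 1 : ℕ) : ℤ) - (c + 1 : ℕ)) := by
      refine Finset.sum_congr rfl fun i _ => ?_
      congr 1; push_cast; ring
    have h2 := Finset.sum_range_succ (fun i : ℕ => f ((i : ℤ) - (c + 1 : ℕ))) q
    have h3 := Finset.sum_range_succ' (fun i : ℕ => f ((i : ℤ) - (c + 1 : ℕ))) q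
    have h4 : f ((q : ℤ) - (c + 1 : ℕ)) = f (((0 : ℕ) : ℤ) - (c + 1 : ℕ)) := by
      apply hf
      have e : (q : ℤ) - (c + 1 : ℕ) - (((0 : ℕ) : ℤ) - (c + 1 : ℕ)) = q := by push_cast; ring
      rw [e]
    rw [h1]
    linarith

theorem pf4_mul {q : ℕ} {f : ℤ → ℝ} (hf : ∀ s t : ℤ, (q : ℤ) ∣ s - t → f s = f t) (m : ℕ) :
    ∑ i ∈ range (q * m), f (i : ℤ) = m * ∑ i ∈ range q, f (i : ℤ) := by
  induction m with
  | zero => simp
  | succ m ih =>
    rw [Nat.mul_succ, Finset.sum_range_add, ih]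
    have h1 : ∑ x ∈ range q, f ((q * m + x : ℕ) : ℤ) = ∑ x ∈ range q, f (x : ℤ) := by
      refine Finset.sum_congr rfl fun i _ => hf _ _ ?_
      push_cast
      rw [add_sub_cancel_right]
      exact Dvd.intro _ rfl
    rw [h1]; push_cast; ring

theorem pf4_main {q : ℕ} (hq : 0 < q) {f : ℤ → ℝ} (hf : ∀ s t : ℤ, (q : ℤ) ∣ s - t → f s = f t)
    (h01 : ∀ t, 0 ≤ f t ∧ f t ≤ 1) (N : ℕ) :
    |∑ i ∈ range N, f (i : ℤ) - N * ((∑ i ∈ range q, f (i : ℤ)) / q)| ≤ q := by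
  have hq0 : (0 : ℝ) < q := by exact_mod_cast hq
  set S : ℝ := ∑ i ∈ range q, f (i : ℤ) with hS
  have hN : q * (N / q) + N % q = N := Nat.div_add_mod N q
  have hr : N % q < q := Nat.mod_lt _ hq
  have h1 : ∑ i ∈ range N, f (i : ℤ) = (N / q : ℕ) * S +
      ∑ i ∈ range (N % q), f ((q * (N / q) + i : ℕ) : ℤ) := by
    conv_lhs => rw [← hN]
    rw [Finset.sum_range_add, pf4_mul hf]
  set R : ℝ := ∑ i ∈ range (N % q), f ((q * (N / q) + i : ℕ) : ℤ) with hR
  have hR0 : 0 ≤ R := Finset.sum_nonneg fun i _ => (h01 _).1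
  have hR1 : R ≤ (N % q : ℕ) := by
    have : R ≤ ∑ i ∈ range (N % q), (1 : ℝ) := Finset.sum_le_sum fun i _ => (h01 _).2
    simpa using this
  have hS0 : 0 ≤ S := Finset.sum_nonneg fun i _ => (h01 _).1
  have hS1 : S ≤ q := by
    have : S ≤ ∑ i ∈ range q, (1 : ℝ) := Finset.sum_le_sum fun i _ => (h01 _).2
    simpa using this
  have hSq0 : 0 ≤ S / q := by positivity
  have hSq1 : S / q ≤ 1 := by rw [div_le_one hq0]; exact hS1
  have hNR : (N : ℝ) = q * (N / q : ℕ) + (N % q : ℕ) := by exact_mod_cast hN.symm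
  have hrR : ((N % q : ℕ) : ℝ) ≤ q := by exact_mod_cast hr.le
  have hr0 : (0 : ℝ) ≤ (N % q : ℕ) := Nat.cast_nonneg _
  have h2 : ∑ i ∈ range N, f (i : ℤ) - N * (S / q) = R - (N % q : ℕ) * (S / q) := by
    rw [h1, hNR]
    have : (q : ℝ) * (N / q : ℕ) * (S / q) = (N / q : ℕ) * S := by field_simp
    rw [add_mul, this]; ring
  rw [h2, abs_le]
  have h3 : ((N % q : ℕ) : ℝ) * (S / q) ≤ (N % q : ℕ) * 1 := mul_le_mul_of_nonneg_left hSq1 hr0
  have h4 : 0 ≤ ((N % q : ℕ) : ℝ) * (S / q) := by positivity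
  constructor <;> linarith

/-- BLOCK PF4: one variable -/
theorem one_equi_pr (k : ℕ) (T : Finset ℕ) (hT : ∀ p ∈ T, p.Prime) (H : ℕ → ℤ → ℝ)
    (hper : ∀ p ∈ T, ∀ s t : ℤ, (p : ℤ) ∣ s - t → H p s = H p t)
    (h01 : ∀ p ∈ T, ∀ t, 0 ≤ H p t ∧ H p t ≤ 1) :
    |∑ t ∈ Icc (-(k : ℤ)) k, ∏ p ∈ T, H p t -
      (2 * (k : ℝ) + 1) * ∏ p ∈ T, ((∑ t ∈ range p, H p (t : ℤ)) / p)| ≤
      ((∏ p ∈ T, p : ℕ) : ℝ) := by
  obtain ⟨hF, hS⟩ := pf4_prod T hT H hper
  set q : ℕ := ∏ p ∈ T, p with hqdef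
  have hq : 0 < q := Finset.prod_pos fun p hp => (hT p hp).pos
  set F : ℤ → ℝ := fun t => ∏ p ∈ T, H p t with hFdef
  have hF01 : ∀ t, 0 ≤ F t ∧ F t ≤ 1 := fun t =>
    ⟨Finset.prod_nonneg fun p hp => (h01 p hp t).1,
      Finset.prod_le_one (fun p hp => (h01 p hp t).1) fun p hp => (h01 p hp t).2⟩
  have hG : ∀ s t : ℤ, (q : ℤ) ∣ s - t → F (s - k) = F (t - k) := by
    intro s t h
    apply hF
    have : s - (k : ℤ) - (t - k) = s - t := by ring
    rw [this]; exact h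
  have h1 := pf4_main (f := fun t => F (t - k)) hq hG (fun t => hF01 _) (2 * k + 1)
  have h2 : ∑ i ∈ range q, F ((i : ℤ) - k) = ∑ i ∈ range q, F (i : ℤ) := pf4_shift hF k
  have h3 : ∑ t ∈ Icc (-(k : ℤ)) k, F t = ∑ i ∈ range (2 * k + 1), F ((i : ℤ) - k) := by
    symm
    refine Finset.sum_nbij (fun i : ℕ => (i : ℤ) - k) ?_ ?_ ?_ ?_
    · intro i hi
      simp only [Finset.mem_range] at hi
      simp only [Finset.mem_Icc]
      omega
    · intro i _ j _ h
      simp only at h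
      omega
    · intro t ht
      simp only [Finset.coe_Icc, Set.mem_Icc] at ht
      refine ⟨(t + k).toNat, ?_, ?_⟩
      · simp only [Finset.coe_range, Set.mem_Iio]; omega
      · simp only; omega
    · intro i _; rfl
  have h4 : ∏ p ∈ T, ((∑ t ∈ range p, H p (t : ℤ)) / p) = (∑ i ∈ range q, F (i : ℤ)) / q := by
    rw [Finset.prod_div_distrib, ← hS, hqdef, Nat.cast_prod]
  rw [h4, h3]
  rw [h2] at h1
  have h5 : ((2 * k + 1 : ℕ) : ℝ) = 2 * (k : ℝ) + 1 := by push_cast; ring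
  rw [h5] at h1
  exact h1

end Pool.Agent.PENK

namespace Pool.Agent.PENK

theorem one_equi : type_of% @one_equi_pr := @one_equi_pr

end Pool.Agent.PENK
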