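import Pool.Agent.Lib_helper18.PENK.Defs2
import Pool.Agent.Lib_helper8.PENT.B.zb
import Pool.Agent.Lib_helper8.PENT.B.zc
import Pool.Agent.Lib_helper8.PENT.B.zk

set_option autoImplicit false

namespace Pool.Agent.PENK

open Finset Pool.Agent.PENT

theorem pf1_mob_sum (g : ℕ) :
    ∑ d ∈ g.divisors, (ArithmeticFunction.moebius d : ℝ) = if g = 1 then 1 else 0 := by
  have h : (ArithmeticFunction.moebius * (ArithmeticFunction.zeta : ArithmeticFunction ℤ)) g =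
      (1 : ArithmeticFunction ℤ) g := by
    rw [ArithmeticFunction.moebius_mul_coe_zeta]
  rw [ArithmeticFunction.coe_mul_zeta_apply, ArithmeticFunction.one_apply] at h
  have h2 := congrArg (fun z : ℤ => (z : ℝ)) h
  push_cast at h2
  rw [h2]

theorem pf1_mob {A : ℕ} {a : ℤ × ℤ} (ha : a ∈ sq A) (h0 : a ≠ (0, 0)) :
    (if Int.gcd a.1 a.2 = 1 then (1 : ℝ) else 0) =
      ∑ d ∈ Icc 1 A, (if (d : ℤ) ∣ a.1 ∧ (d : ℤ) ∣ a.2 then
        (ArithmeticFunction.moebius d : ℝ) else 0) := by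
  set g := Int.gcd a.1 a.2 with hg
  have hg0 : 0 < g := by
    rw [Nat.pos_iff_ne_zero]
    intro h
    obtain ⟨h1, h2⟩ := Int.gcd_eq_zero_iff.1 h
    exact h0 (Prod.ext h1 h2)
  rw [← pf1_mob_sum g, ← Finset.sum_filter]
  refine Finset.sum_congr ?_ fun _ _ => rfl
  ext d
  rw [Nat.mem_divisors, Finset.mem_filter, Finset.mem_Icc]
  constructor
  · rintro ⟨h1, _⟩
    have h2 : (d : ℤ) ∣ a.1 := (Int.natCast_dvd_natCast.2 h1).trans (Int.gcd_dvd_left _ _)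
    have h3 : (d : ℤ) ∣ a.2 := (Int.natCast_dvd_natCast.2 h1).trans (Int.gcd_dvd_right _ _)
    refine ⟨⟨Nat.pos_of_dvd_of_pos h1 hg0, ?_⟩, h2, h3⟩
    rw [sq, Finset.mem_product, Finset.mem_Icc, Finset.mem_Icc] at ha
    by_cases h4 : a.1 = 0
    · have h5 : a.2 ≠ 0 := fun h => h0 (Prod.ext h4 h)
      have h6 := Int.le_of_dvd (abs_pos.2 h5) ((dvd_abs _ _).2 h3)
      have h7 : |a.2| ≤ A := abs_le.2 ha.2
      omega
    · have h6 := Int.le_of_dvd (abs_pos.2 h4) ((dvd_abs _ _).2 h2)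
      have h7 : |a.1| ≤ A := abs_le.2 ha.1
      omega
  · rintro ⟨_, h2, h3⟩
    exact ⟨Int.natCast_dvd_natCast.1 (Int.dvd_coe_gcd h2 h3), hg0.ne'⟩

/-- the nonzero vectors of the square -/
theorem pf1_pr (A : ℕ) : pr A = ((sq A).filter (fun a => a ≠ (0, 0))).filter
    (fun a => Int.gcd a.1 a.2 = 1) := by
  ext a
  rw [pr, Finset.mem_filter, Finset.mem_filter, Finset.mem_filter]
  constructor
  · rintro ⟨h1, h2⟩
    refine ⟨⟨h1, ?_⟩, h2⟩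
    rintro rfl
    simp at h2
  · rintro ⟨⟨h1, _⟩, h2⟩
    exact ⟨h1, h2⟩

theorem pf1_sum (A : ℕ) (G : ℤ → ℤ → ℝ) :
    ∑ a ∈ pr A, G a.1 a.2 = ∑ d ∈ Icc 1 A, (ArithmeticFunction.moebius d : ℝ) *
      ∑ a ∈ (sq A).filter (fun a => a ≠ (0, 0)),
        (if (d : ℤ) ∣ a.1 ∧ (d : ℤ) ∣ a.2 then G a.1 a.2 else 0) := by
  rw [pf1_pr, Finset.sum_filter]
  simp_rw [Finset.mul_sum]
  rw [Finset.sum_comm]
  refine Finset.sum_congr rfl fun a ha => ?_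
  rw [Finset.mem_filter] at ha
  have h := pf1_mob ha.1 ha.2
  have e : (if Int.gcd a.1 a.2 = 1 then G a.1 a.2 else 0) =
      (if Int.gcd a.1 a.2 = 1 then (1 : ℝ) else 0) * G a.1 a.2 := by
    split_ifs <;> simp
  rw [e, h, Finset.sum_mul]
  refine Finset.sum_congr rfl fun d _ => ?_
  split_ifs <;> simp

theorem pf1_scale {A d : ℕ} (hd : 0 < d) (G : ℤ → ℤ → ℝ) :
    ∑ a ∈ (sq A).filter (fun a => a ≠ (0, 0)),
        (if (d : ℤ) ∣ a.1 ∧ (d : ℤ) ∣ a.2 then G a.1 a.2 else 0) =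
      ∑ a ∈ (sq (A / d)).filter (fun a => a ≠ (0, 0)), G (d * a.1) (d * a.2) := by
  have hdz : (0 : ℤ) < d := by exact_mod_cast hd
  rw [← Finset.sum_filter]
  symm
  have hmem : ∀ k : ℤ, (-((A / d : ℕ) : ℤ) ≤ k ∧ k ≤ ((A / d : ℕ) : ℤ)) ↔
      (-(A : ℤ) ≤ d * k ∧ d * k ≤ (A : ℤ)) := by
    intro k
    have e : ((A / d : ℕ) : ℤ) = (A : ℤ) / d := by push_cast; rfl
    have h1 : ∀ m : ℤ, m ≤ ((A / d : ℕ) : ℤ) ↔ d * m ≤ (A : ℤ) := by
      intro m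
      rw [e, Int.le_ediv_iff_mul_le hdz, mul_comm]
    have h2 := h1 (-k)
    have h3 := h1 k
    constructor
    · rintro ⟨h4, h5⟩
      have := h2.1 (by linarith)
      exact ⟨by linarith, h3.1 h5⟩
    · rintro ⟨h4, h5⟩
      have := h2.2 (by linarith)
      exact ⟨by linarith, h3.2 h5⟩
  refine Finset.sum_bij (fun a _ => ((d : ℤ) * a.1, (d : ℤ) * a.2)) ?_ ?_ ?_ ?_
  · intro a ha
    rw [Finset.mem_filter, sq, Finset.mem_product, Finset.mem_Icc, Finset.mem_Icc] at ha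
    rw [Finset.mem_filter, Finset.mem_filter, sq, Finset.mem_product, Finset.mem_Icc,
      Finset.mem_Icc]
    refine ⟨⟨⟨(hmem _).1 ha.1.1, (hmem _).1 ha.1.2⟩, ?_⟩, dvd_mul_right _ _, dvd_mul_right _ _⟩
    intro h
    have h1 := congrArg Prod.fst h
    have h2 := congrArg Prod.snd h
    simp only [mul_eq_zero, hdz.ne', false_or] at h1 h2
    exact ha.2 (Prod.ext h1 h2)
  · intro a _ b _ h
    have h1 := congrArg Prod.fst h
    have h2 := congrArg Prod.snd h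
    simp only at h1 h2
    exact Prod.ext (mul_left_cancel₀ hdz.ne' h1) (mul_left_cancel₀ hdz.ne' h2)
  · intro b hb
    rw [Finset.mem_filter, Finset.mem_filter, sq, Finset.mem_product, Finset.mem_Icc,
      Finset.mem_Icc] at hb
    obtain ⟨⟨⟨h1, h2⟩, h3⟩, ⟨k, hk⟩, ⟨l, hl⟩⟩ := hb
    refine ⟨(k, l), ?_, Prod.ext hk.symm hl.symm⟩
    rw [Finset.mem_filter, sq, Finset.mem_product, Finset.mem_Icc, Finset.mem_Icc]
    rw [hk] at h1
    rw [hl] at h2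
    refine ⟨⟨(hmem _).2 h1, (hmem _).2 h2⟩, ?_⟩
    intro h
    have e1 := congrArg Prod.fst h
    have e2 := congrArg Prod.snd h
    simp only at e1 e2
    apply h3
    refine Prod.ext ?_ ?_
    · show b.1 = 0
      rw [hk, e1, mul_zero]
    · show b.2 = 0
      rw [hl, e2, mul_zero]
  · intro a _
    rfl

theorem pf1_perm {q d : ℕ} (hq : 0 < q) (hdq : Nat.Coprime d q) (g : ℤ → ℝ)
    (hg : ∀ s t : ℤ, (q : ℤ) ∣ s - t → g s = g t) :
    ∑ a ∈ range q, g (d * a) = ∑ a ∈ range q, g a := by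
  have hinj : Set.InjOn (fun a : ℕ => (d * a) % q) (range q : Set ℕ) := by
    intro a ha b hb hab
    have ha' : a < q := by simpa using ha
    have hb' : b < q := by simpa using hb
    have h1 : d * a ≡ d * b [MOD q] := hab
    have h2 : a ≡ b [MOD q] := Nat.ModEq.cancel_left_of_coprime (Nat.coprime_comm.1 hdq) h1
    exact Nat.ModEq.eq_of_lt_of_lt h2 ha' hb'
  have himg : (range q).image (fun a : ℕ => (d * a) % q) = range q := by
    refine Finset.eq_of_subset_of_card_le ?_ ?_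
    · intro x hx
      obtain ⟨a, _, rfl⟩ := Finset.mem_image.1 hx
      exact Finset.mem_range.2 (Nat.mod_lt _ hq)
    · rw [Finset.card_image_of_injOn hinj]
  conv_rhs => rw [← himg]
  rw [Finset.sum_image hinj]
  refine Finset.sum_congr rfl fun a _ => hg _ _ ?_
  have h1 : (((d * a) % q : ℕ) : ℤ) = ((d : ℤ) * a) % q := by push_cast; rfl
  rw [h1]
  exact Int.dvd_self_sub_emod

theorem pf1_av {q d : ℕ} (hq : 0 < q) (hdq : Nat.Coprime d q) {G : ℤ → ℤ → ℝ} (hG : Per q G) :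
    av q (fun s t => G (d * s) (d * t)) = av q G := by
  unfold av
  congr 1
  have h1 : ∀ a : ℕ, ∑ b ∈ range q, G (d * (a : ℤ)) (d * (b : ℤ)) =
      ∑ b ∈ range q, G (d * (a : ℤ)) b := fun a =>
    pf1_perm hq hdq (fun t => G (d * (a : ℤ)) t) (fun s t h => hG _ _ _ _ (by simp) h)
  rw [Finset.sum_congr rfl fun a _ => h1 a]
  exact pf1_perm hq hdq (fun s => ∑ b ∈ range q, G s b)
    (fun s t h => Finset.sum_congr rfl fun b _ => hG _ _ _ _ h (by simp))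

theorem pf1_inner {q : ℕ} (hq : 0 < q) {G : ℤ → ℤ → ℝ} (hG : Per q G)
    (h01 : ∀ s t, 0 ≤ G s t ∧ G s t ≤ 1) (d B : ℕ) (hdq : Nat.Coprime d q) :
    |∑ a ∈ (sq B).filter (fun a => a ≠ (0, 0)), G (d * a.1) (d * a.2) -
      (2 * (B : ℝ) + 1) ^ 2 * av q G| ≤ 2 * q * (2 * (B : ℝ) + 1) + (q : ℝ) ^ 2 + 1 := by
  have hper : Per q (fun s t => G (d * s) (d * t)) := by
    intro s t s' t' h1 h2
    refine hG _ _ _ _ ?_ ?_
    · rw [← mul_sub]; exact dvd_mul_of_dvd_right h1 _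
    · rw [← mul_sub]; exact dvd_mul_of_dvd_right h2 _
  have hb := box_av hq hper (fun s t => h01 _ _) (-(B : ℤ) - 1) B (-(B : ℤ) - 1) B (by omega)
    (by omega)
  rw [pf1_av hq hdq hG] at hb
  have hIoc : Ioc (-(B : ℤ) - 1) B = Icc (-(B : ℤ)) B := by
    ext x; rw [Finset.mem_Ioc, Finset.mem_Icc]; omega
  have hside : (((B : ℤ) - (-(B : ℤ) - 1) : ℤ) : ℝ) = 2 * (B : ℝ) + 1 := by push_cast; ring
  rw [hIoc, hside] at hb
  have hsum : ∑ a ∈ sq B, G (d * a.1) (d * a.2) =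
      ∑ s ∈ Icc (-(B : ℤ)) B, ∑ t ∈ Icc (-(B : ℤ)) B, G (d * s) (d * t) := by
    rw [sq, Finset.sum_product]
  have h0mem : ((0, 0) : ℤ × ℤ) ∈ sq B := by
    rw [sq, Finset.mem_product, Finset.mem_Icc]; simp
  have hsplit : ∑ a ∈ (sq B).filter (fun a => a ≠ (0, 0)), G (d * a.1) (d * a.2) =
      ∑ a ∈ sq B, G (d * a.1) (d * a.2) - G (d * 0) (d * 0) := by
    rw [Finset.filter_ne', ← Finset.add_sum_erase _ _ h0mem]
    ring
  rw [hsplit, hsum]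
  have h1 := h01 (d * 0) (d * 0)
  rw [abs_le] at hb ⊢
  constructor
  · nlinarith [hb.1, h1.2]
  · nlinarith [hb.2, h1.1]

theorem pf1_main {A q : ℕ} (hA : 1 ≤ A) (hq : 0 < q) {G : ℤ → ℤ → ℝ} (hG : Per q G)
    (h01 : ∀ s t, 0 ≤ G s t ∧ G s t ≤ 1)
    (hzero : ∀ d : ℕ, ¬ Nat.Coprime d q → ∀ s t : ℤ, G (d * s) (d * t) = 0) :
    |∑ a ∈ pr A, G a.1 a.2 - av q G * ∑ d ∈ Icc 1 A, (ArithmeticFunction.moebius d : ℝ) *
      (if Nat.Coprime d q then (2 * ((A / d : ℕ) : ℝ) + 1) ^ 2 else 0)| ≤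
      8 * (q : ℝ) ^ 2 * A * (1 + Real.log A) := by
  have hq1 : (1 : ℝ) ≤ q := by exact_mod_cast hq
  have hA1 : (1 : ℝ) ≤ A := by exact_mod_cast hA
  rw [pf1_sum, Finset.mul_sum, ← Finset.sum_sub_distrib]
  refine (Finset.abs_sum_le_sum_abs _ _).trans ?_
  have key : ∀ d ∈ Icc 1 A, |(ArithmeticFunction.moebius d : ℝ) *
      ∑ a ∈ (sq A).filter (fun a => a ≠ (0, 0)),
        (if (d : ℤ) ∣ a.1 ∧ (d : ℤ) ∣ a.2 then G a.1 a.2 else 0) -
      av q G * ((ArithmeticFunction.moebius d : ℝ) *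
        (if Nat.Coprime d q then (2 * ((A / d : ℕ) : ℝ) + 1) ^ 2 else 0))| ≤
      6 * (q : ℝ) ^ 2 * A * ((d : ℝ))⁻¹ + 2 * (q : ℝ) ^ 2 := by
    intro d hd
    rw [Finset.mem_Icc] at hd
    have hd1 : (1 : ℝ) ≤ d := by exact_mod_cast hd.1
    have hdA : (d : ℝ) ≤ A := by exact_mod_cast hd.2
    have hdinv : (0 : ℝ) < ((d : ℝ))⁻¹ := by positivity
    have hAd : 1 ≤ (A : ℝ) * ((d : ℝ))⁻¹ := by
      rw [← div_eq_mul_inv, le_div_iff₀ (by linarith)]; linarith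
    have hmu : |(ArithmeticFunction.moebius d : ℝ)| ≤ 1 := by
      have := ArithmeticFunction.abs_moebius_le_one (n := d)
      exact_mod_cast this
    have e : (ArithmeticFunction.moebius d : ℝ) *
        ∑ a ∈ (sq A).filter (fun a => a ≠ (0, 0)),
          (if (d : ℤ) ∣ a.1 ∧ (d : ℤ) ∣ a.2 then G a.1 a.2 else 0) -
        av q G * ((ArithmeticFunction.moebius d : ℝ) *
          (if Nat.Coprime d q then (2 * ((A / d : ℕ) : ℝ) + 1) ^ 2 else 0)) =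
        (ArithmeticFunction.moebius d : ℝ) *
        (∑ a ∈ (sq (A / d)).filter (fun a => a ≠ (0, 0)), G (d * a.1) (d * a.2) -
          (if Nat.Coprime d q then (2 * ((A / d : ℕ) : ℝ) + 1) ^ 2 else 0) * av q G) := by
      rw [pf1_scale hd.1]; ring
    rw [e, abs_mul]
    refine (mul_le_mul_of_nonneg_right hmu (abs_nonneg _)).trans ?_
    rw [one_mul]
    by_cases hc : Nat.Coprime d q
    · rw [if_pos hc]
      refine (pf1_inner hq hG h01 d (A / d) hc).trans ?_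
      have hB : ((A / d : ℕ) : ℝ) ≤ (A : ℝ) * ((d : ℝ))⁻¹ := by
        rw [← div_eq_mul_inv]; exact Nat.cast_div_le
      have h1 : 2 * ((A / d : ℕ) : ℝ) + 1 ≤ 3 * (A * ((d : ℝ))⁻¹) := by linarith
      have h2 : 2 * (q : ℝ) * (2 * ((A / d : ℕ) : ℝ) + 1) ≤ 2 * q * (3 * (A * ((d : ℝ))⁻¹)) :=
        mul_le_mul_of_nonneg_left h1 (by positivity)
      have h3 : 2 * (q : ℝ) * (3 * (A * ((d : ℝ))⁻¹)) ≤ 2 * (q * q) * (3 * (A * ((d : ℝ))⁻¹)) := by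
        refine mul_le_mul_of_nonneg_right ?_ (by positivity)
        nlinarith
      nlinarith
    · rw [if_neg hc, zero_mul, sub_zero, Finset.sum_eq_zero fun a _ => hzero d hc a.1 a.2,
        abs_zero]
      positivity
  refine (Finset.sum_le_sum key).trans ?_
  rw [Finset.sum_add_distrib, ← Finset.mul_sum, Finset.sum_const, Nat.card_Icc]
  have hharm : ∑ d ∈ Icc 1 A, ((d : ℝ))⁻¹ ≤ 1 + Real.log A := by
    have h1 : ((harmonic A : ℚ) : ℝ) ≤ 1 + Real.log A := harmonic_le_one_add_log A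
    rw [harmonic_eq_sum_Icc] at h1
    push_cast at h1
    exact h1
  have hlog : 0 ≤ Real.log A := Real.log_nonneg hA1
  have h1 := mul_le_mul_of_nonneg_left hharm (show 0 ≤ 6 * (q : ℝ) ^ 2 * A by positivity)
  rw [nsmul_eq_mul, Nat.add_sub_cancel]
  have h2 : 0 ≤ (q : ℝ) ^ 2 * A * Real.log A := by positivity
  nlinarith

theorem pf1_Ico (p : ℕ) (g : ℤ → ℝ) : ∑ x ∈ Ico (0 : ℤ) p, g x = ∑ a ∈ range p, g (a : ℤ) := by
  symm
  refine Finset.sum_bij (fun a _ => (a : ℤ)) ?_ ?_ ?_ ?_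
  · intro a ha
    rw [Finset.mem_range] at ha
    rw [Finset.mem_Ico]
    omega
  · intro a _ b _ h
    exact_mod_cast h
  · intro b hb
    rw [Finset.mem_Ico] at hb
    refine ⟨b.toNat, ?_, ?_⟩
    · rw [Finset.mem_range]; omega
    · omega
  · intro a _
    rfl

theorem pf1_L1 {p : ℕ} (f : ℤ × ℤ → ℝ) :
    ∑ a ∈ range p, ∑ b ∈ range p, (if (p : ℤ) ∣ (a : ℤ) ∧ (p : ℤ) ∣ (b : ℤ) then 0
      else f ((a : ℤ), (b : ℤ))) = ∑ r ∈ L1' p, f r := by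
  have h1 : ∑ r ∈ L1' p, f r = ∑ r ∈ L1 p, (if (p : ℤ) ∣ r.1 ∧ (p : ℤ) ∣ r.2 then 0 else f r) := by
    rw [L1', Finset.sum_filter]
    refine Finset.sum_congr rfl fun r hr => ?_
    rw [L1, Finset.mem_product, Finset.mem_Ico, Finset.mem_Ico] at hr
    by_cases h : r = (0, 0)
    · rw [if_neg (by simp [h]), if_pos (by simp [h])]
    · rw [if_pos h, if_neg]
      rintro ⟨h1, h2⟩
      apply h
      have e1 := Int.eq_zero_of_dvd_of_nonneg_of_lt hr.1.1 hr.1.2 h1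
      have e2 := Int.eq_zero_of_dvd_of_nonneg_of_lt hr.2.1 hr.2.2 h2
      exact Prod.ext e1 e2
  rw [h1, L1, Finset.sum_product, pf1_Ico p (fun x => ∑ y ∈ Ico (0 : ℤ) p,
    (if (p : ℤ) ∣ (x, y).1 ∧ (p : ℤ) ∣ (x, y).2 then 0 else f (x, y)))]
  refine Finset.sum_congr rfl fun a _ => ?_
  rw [pf1_Ico]

theorem pf1_card {p : ℕ} (hp : 0 < p) : ((L1' p).card : ℝ) = (p : ℝ) ^ 2 - 1 := by
  have h0 : ((0, 0) : ℤ × ℤ) ∈ L1 p := by
    rw [L1, Finset.mem_product, Finset.mem_Ico]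
    simp [hp]
  have h1 : L1' p = (L1 p).erase (0, 0) := by rw [L1', Finset.filter_ne']
  have h2 : (L1 p).card = p ^ 2 := by
    rw [L1, Finset.card_product, Int.card_Ico]
    simp only [sub_zero, Int.toNat_natCast]
    ring
  rw [h1, Finset.card_erase_of_mem h0, h2, Nat.cast_sub (Nat.one_le_pow _ _ hp)]
  push_cast
  ring

theorem pf1_mG {p : ℕ} (hp : p.Prime) (f : ℤ × ℤ → ℝ) :
    av p (fun s t => if (p : ℤ) ∣ s ∧ (p : ℤ) ∣ t then 0 else f (s, t)) =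
      ((p : ℝ) ^ 2 - 1) / (p : ℝ) ^ 2 * mG (L1' p) f := by
  have hp2 : (2 : ℝ) ≤ p := by exact_mod_cast hp.two_le
  have hc : (p : ℝ) ^ 2 - 1 ≠ 0 := by nlinarith
  unfold av mG
  rw [pf1_L1 f, pf1_card hp.pos]
  field_simp

theorem pf1_mG01 (p : ℕ) (f : ℤ × ℤ → ℝ) (h01 : ∀ v, 0 ≤ f v ∧ f v ≤ 1) :
    0 ≤ mG (L1' p) f ∧ mG (L1' p) f ≤ 1 := by
  unfold mG
  refine ⟨div_nonneg (Finset.sum_nonneg fun r _ => (h01 r).1) (Nat.cast_nonneg _), ?_⟩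
  refine div_le_one_of_le₀ ?_ (Nat.cast_nonneg _)
  calc ∑ r ∈ L1' p, f r ≤ ∑ _r ∈ L1' p, (1 : ℝ) := Finset.sum_le_sum fun r _ => (h01 r).2
    _ = (L1' p).card := by simp

/-- the function with the zero vector removed -/
noncomputable def pf1_H (h : ℕ → ℤ × ℤ → ℝ) (p : ℕ) (s t : ℤ) : ℝ :=
  if (p : ℤ) ∣ s ∧ (p : ℤ) ∣ t then 0 else h p (s, t)

theorem pf1_H01 {h : ℕ → ℤ × ℤ → ℝ} {p : ℕ} (h01 : ∀ v, 0 ≤ h p v ∧ h p v ≤ 1) (s t : ℤ) :
    0 ≤ pf1_H h p s t ∧ pf1_H h p s t ≤ 1 := by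
  unfold pf1_H
  split_ifs
  · simp
  · exact h01 _

theorem pf1_Hper {h : ℕ → ℤ × ℤ → ℝ} {p : ℕ} (hper : ∀ v w, cg1 p v w → h p v = h p w) :
    Per p (pf1_H h p) := by
  intro s t s' t' h1 h2
  unfold pf1_H
  have e1 : (p : ℤ) ∣ s ↔ (p : ℤ) ∣ s' := (dvd_iff_dvd_of_dvd_sub h1)
  have e2 : (p : ℤ) ∣ t ↔ (p : ℤ) ∣ t' := (dvd_iff_dvd_of_dvd_sub h2)
  simp only [e1, e2, hper (s, t) (s', t') ⟨h1, h2⟩]

theorem pf1_est {A : ℕ} (hA : 1 ≤ A) (T : Finset ℕ) (h : ℕ → ℤ × ℤ → ℝ)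
    (hT : ∀ p ∈ T, p.Prime) (hper : ∀ p ∈ T, ∀ v w, cg1 p v w → h p v = h p w)
    (h01 : ∀ p ∈ T, ∀ v, 0 ≤ h p v ∧ h p v ≤ 1) :
    |∑ a ∈ pr A, ∏ p ∈ T, h p a - (∏ p ∈ T, ((p : ℝ) ^ 2 - 1) / (p : ℝ) ^ 2) *
      (∏ p ∈ T, mG (L1' p) (h p)) * ∑ d ∈ Icc 1 A, (ArithmeticFunction.moebius d : ℝ) *
      (if Nat.Coprime d (∏ p ∈ T, p) then (2 * ((A / d : ℕ) : ℝ) + 1) ^ 2 else 0)| ≤
      8 * ((∏ p ∈ T, p : ℕ) : ℝ) ^ 2 * A * (1 + Real.log A) := by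
  have hone : Per 1 (fun _ _ => (1 : ℝ)) := fun _ _ _ _ _ _ => rfl
  have hav := av_prod (q := 1) one_pos hone T (fun p => p) (fun p s t => pf1_H h p s t)
    (fun p hp => (hT p hp).pos) (fun p _ => Nat.coprime_one_left p)
    (fun p hp p' hp' hne => (Nat.coprime_primes (hT p hp) (hT p' hp')).2 hne)
    (fun p hp => pf1_Hper (hper p hp))
  simp only [one_mul] at hav
  obtain ⟨hPer, hAv⟩ := hav
  have hav1 : av 1 (fun _ _ => (1 : ℝ)) = 1 := by simp [av]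
  rw [hav1, one_mul] at hAv
  have hq : 0 < ∏ p ∈ T, p := Finset.prod_pos fun p hp => (hT p hp).pos
  have hG01 : ∀ s t : ℤ, 0 ≤ ∏ p ∈ T, pf1_H h p s t ∧ ∏ p ∈ T, pf1_H h p s t ≤ 1 := by
    intro s t
    exact ⟨Finset.prod_nonneg fun p hp => (pf1_H01 (h01 p hp) s t).1,
      Finset.prod_le_one (fun p hp => (pf1_H01 (h01 p hp) s t).1)
        fun p hp => (pf1_H01 (h01 p hp) s t).2⟩
  have hzero : ∀ d : ℕ, ¬ Nat.Coprime d (∏ p ∈ T, p) → ∀ s t : ℤ,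
      ∏ p ∈ T, pf1_H h p (d * s) (d * t) = 0 := by
    intro d hd s t
    obtain ⟨r, hr, hr1, hr2⟩ := Nat.Prime.not_coprime_iff_dvd.1 hd
    obtain ⟨p, hp, hrp⟩ := (Prime.dvd_finsetProd_iff hr.prime _).1 hr2
    have hrp' : r = p := (Nat.prime_dvd_prime_iff_eq hr (hT p hp)).1 hrp
    subst hrp'
    refine Finset.prod_eq_zero hp ?_
    have : (r : ℤ) ∣ (d : ℤ) := Int.natCast_dvd_natCast.2 hr1
    unfold pf1_H
    rw [if_pos ⟨dvd_mul_of_dvd_left this _, dvd_mul_of_dvd_left this _⟩]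
  have key := pf1_main hA hq hPer hG01 hzero
  have e1 : ∑ a ∈ pr A, ∏ p ∈ T, pf1_H h p a.1 a.2 = ∑ a ∈ pr A, ∏ p ∈ T, h p a := by
    refine Finset.sum_congr rfl fun a ha => Finset.prod_congr rfl fun p hp => ?_
    rw [pr, Finset.mem_filter] at ha
    unfold pf1_H
    rw [if_neg]
    rintro ⟨h1, h2⟩
    have h3 := Int.dvd_coe_gcd h1 h2
    rw [ha.2] at h3
    have h4 : p ∣ 1 := by exact_mod_cast h3
    exact (hT p hp).one_lt.ne' (Nat.dvd_one.1 h4)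
  have e2 : ∏ p ∈ T, av p (fun s t => pf1_H h p s t) =
      (∏ p ∈ T, ((p : ℝ) ^ 2 - 1) / (p : ℝ) ^ 2) * ∏ p ∈ T, mG (L1' p) (h p) := by
    rw [← Finset.prod_mul_distrib]
    exact Finset.prod_congr rfl fun p hp => pf1_mG (hT p hp) (h p)
  rw [e1, hAv, e2] at key
  exact key

theorem prim_equi_pr : ∃ C : ℝ, 0 ≤ C ∧ ∀ (A : ℕ) (T : Finset ℕ) (h : ℕ → ℤ × ℤ → ℝ), 1 ≤ A →
    (∀ p ∈ T, p.Prime) → (∀ p ∈ T, ∀ v w, cg1 p v w → h p v = h p w) →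
    (∀ p ∈ T, ∀ v, 0 ≤ h p v ∧ h p v ≤ 1) →
    |∑ a ∈ pr A, ∏ p ∈ T, h p a - (pr A).card * ∏ p ∈ T, mG (L1' p) (h p)| ≤
      C * ((∏ p ∈ T, p : ℕ) : ℝ) ^ 2 * A * (1 + Real.log A) := by
  refine ⟨16, by norm_num, ?_⟩
  intro A T h hA hT hper h01
  have k1 := pf1_est hA T h hT hper h01
  have k2 := pf1_est hA T (fun _ _ => 1) hT (fun _ _ _ _ _ => rfl) (fun _ _ _ => by simp)
  have m1 : ∏ p ∈ T, mG (L1' p) (fun _ => (1 : ℝ)) = 1 := by
    refine Finset.prod_eq_one fun p hp => ?_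
    unfold mG
    have hc := pf1_card (hT p hp).pos
    have hp2 : (2 : ℝ) ≤ p := by exact_mod_cast (hT p hp).two_le
    have hne : ((L1' p).card : ℝ) ≠ 0 := by rw [hc]; nlinarith
    rw [Finset.sum_const, nsmul_eq_mul, mul_one, div_self hne]
  have m2 : ∑ _a ∈ pr A, ∏ _p ∈ T, (1 : ℝ) = (pr A).card := by simp
  rw [m1, mul_one, m2] at k2
  set c : ℝ := ∏ p ∈ T, ((p : ℝ) ^ 2 - 1) / (p : ℝ) ^ 2
  set M : ℝ := ∑ d ∈ Icc 1 A, (ArithmeticFunction.moebius d : ℝ) *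
      (if Nat.Coprime d (∏ p ∈ T, p) then (2 * ((A / d : ℕ) : ℝ) + 1) ^ 2 else 0)
  set m : ℝ := ∏ p ∈ T, mG (L1' p) (h p) with hm
  set S : ℝ := ∑ a ∈ pr A, ∏ p ∈ T, h p a
  set E : ℝ := 8 * ((∏ p ∈ T, p : ℕ) : ℝ) ^ 2 * A * (1 + Real.log A) with hE
  have hm0 : 0 ≤ m := Finset.prod_nonneg fun p hp => (pf1_mG01 p (h p) (h01 p hp)).1
  have hm1 : m ≤ 1 := Finset.prod_le_one (fun p hp => (pf1_mG01 p (h p) (h01 p hp)).1)
    fun p hp => (pf1_mG01 p (h p) (h01 p hp)).2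
  have e : S - (pr A).card * m = (S - c * m * M) - m * ((pr A).card - c * M) := by ring
  have hE2 : 16 * ((∏ p ∈ T, p : ℕ) : ℝ) ^ 2 * A * (1 + Real.log A) = E + E := by
    rw [hE]; ring
  rw [hE2, e]
  refine (abs_sub _ _).trans (add_le_add k1 ?_)
  rw [abs_mul, abs_of_nonneg hm0]
  calc m * |((pr A).card : ℝ) - c * M| ≤ 1 * |((pr A).card : ℝ) - c * M| :=
        mul_le_mul_of_nonneg_right hm1 (abs_nonneg _)
    _ ≤ E := by rw [one_mul]; exact k2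

end Pool.Agent.PENK

namespace Pool.Agent.PENK

theorem prim_equi : type_of% @prim_equi_pr := @prim_equi_pr

end Pool.Agent.PENK
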