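import Pool.Agent.Lib_helper18.PENK.Defs2
import Pool.Agent.Lib_helper18.PENKF.DefsW
import Pool.Agent.Lib_helper18.PENKF.PF1
import Pool.Agent.Lib_helper18.PENKF.PF3
import Pool.Agent.Lib_helper18.PENKF.PF4

set_option autoImplicit false

namespace Pool.Agent.PENK

open Finset Pool.Agent.PENT

/-- the solutions modulo `p` of `det (v, b) = δ` -/
noncomputable def pf5_F (p : ℕ) (δ : ℤ) (v : ℤ × ℤ) : Finset (ℤ × ℤ) :=
  (L1 p).filter (fun b => (p : ℤ) ∣ dt v b - δ)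

theorem pf5_mem {p : ℕ} {δ : ℤ} {v b : ℤ × ℤ} : b ∈ pf5_F p δ v ↔
    ((0 ≤ b.1 ∧ b.1 < p) ∧ (0 ≤ b.2 ∧ b.2 < p)) ∧ (p : ℤ) ∣ v.1 * b.2 - v.2 * b.1 - δ := by
  unfold pf5_F L1 dt
  rw [mem_filter, mem_product, mem_Ico, mem_Ico]

theorem pf5_inv {p : ℕ} (hp : p.Prime) {x : ℤ} (h : ¬ (p : ℤ) ∣ x) : ∃ w : ℤ, (p : ℤ) ∣ x * w - 1 := by
  have h1 : IsCoprime (p : ℤ) x := (Nat.prime_iff_prime_int.1 hp).coprime_iff_not_dvd.2 h
  obtain ⟨a, b, hab⟩ := h1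
  exact ⟨b, -a, by linear_combination hab⟩

theorem pf5_card {p : ℕ} (hp : p.Prime) (δ : ℤ) {v : ℤ × ℤ}
    (hv : ¬ ((p : ℤ) ∣ v.1 ∧ (p : ℤ) ∣ v.2)) : (pf5_F p δ v).card = p := by
  have hp0 : (0 : ℤ) < p := by exact_mod_cast hp.pos
  have hIco : (Ico (0 : ℤ) p).card = p := by simp
  by_cases h1 : (p : ℤ) ∣ v.1
  · have h2 : ¬ (p : ℤ) ∣ v.2 := fun h => hv ⟨h1, h⟩
    obtain ⟨w, hw⟩ := pf5_inv hp h2
    have hF : pf5_F p δ v =
        (Ico (0 : ℤ) p).image (fun t : ℤ => (((v.1 * t - δ) * w) % (p : ℤ), t)) := by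
      ext b
      rw [pf5_mem, mem_image]
      constructor
      · rintro ⟨⟨hb1, hb2⟩, hd⟩
        refine ⟨b.2, mem_Ico.2 hb2, Prod.ext ?_ rfl⟩
        have h3 : (p : ℤ) ∣ (v.1 * b.2 - δ) * w - b.1 := by
          have h4 : (v.1 * b.2 - δ) * w - b.1 =
              (v.1 * b.2 - v.2 * b.1 - δ) * w + b.1 * (v.2 * w - 1) := by ring
          rw [h4]
          exact dvd_add (Dvd.dvd.mul_right hd _) (Dvd.dvd.mul_left hw _)
        show ((v.1 * b.2 - δ) * w) % (p : ℤ) = b.1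
        exact Eq.trans (Int.modEq_iff_dvd.2 h3).symm (Int.emod_eq_of_lt hb1.1 hb1.2)
      · rintro ⟨t, ht, rfl⟩
        rw [mem_Ico] at ht
        refine ⟨⟨⟨Int.emod_nonneg _ hp0.ne', Int.emod_lt_of_pos _ hp0⟩, ht⟩, ?_⟩
        set X := (v.1 * t - δ) * w with hX
        have h3 : (p : ℤ) ∣ X - X % (p : ℤ) := Int.dvd_self_sub_emod
        have h4 : v.1 * t - v.2 * (X % (p : ℤ)) - δ =
            v.2 * (X - X % (p : ℤ)) - (v.1 * t - δ) * (v.2 * w - 1) := by rw [hX]; ring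
        show (p : ℤ) ∣ v.1 * t - v.2 * (X % (p : ℤ)) - δ
        rw [h4]
        exact dvd_sub (Dvd.dvd.mul_left h3 _) (Dvd.dvd.mul_left hw _)
    rw [hF, card_image_of_injective, hIco]
    intro s t hst
    exact congrArg Prod.snd hst
  · obtain ⟨w, hw⟩ := pf5_inv hp h1
    have hF : pf5_F p δ v =
        (Ico (0 : ℤ) p).image (fun t : ℤ => (t, ((δ + v.2 * t) * w) % (p : ℤ))) := by
      ext b
      rw [pf5_mem, mem_image]
      constructor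
      · rintro ⟨⟨hb1, hb2⟩, hd⟩
        refine ⟨b.1, mem_Ico.2 hb1, Prod.ext rfl ?_⟩
        have h3 : (p : ℤ) ∣ (δ + v.2 * b.1) * w - b.2 := by
          have h4 : (δ + v.2 * b.1) * w - b.2 =
              b.2 * (v.1 * w - 1) - (v.1 * b.2 - v.2 * b.1 - δ) * w := by ring
          rw [h4]
          exact dvd_sub (Dvd.dvd.mul_left hw _) (Dvd.dvd.mul_right hd _)
        show ((δ + v.2 * b.1) * w) % (p : ℤ) = b.2
        exact Eq.trans (Int.modEq_iff_dvd.2 h3).symm (Int.emod_eq_of_lt hb2.1 hb2.2)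
      · rintro ⟨t, ht, rfl⟩
        rw [mem_Ico] at ht
        refine ⟨⟨ht, ⟨Int.emod_nonneg _ hp0.ne', Int.emod_lt_of_pos _ hp0⟩⟩, ?_⟩
        set X := (δ + v.2 * t) * w with hX
        have h3 : (p : ℤ) ∣ X - X % (p : ℤ) := Int.dvd_self_sub_emod
        have h4 : v.1 * (X % (p : ℤ)) - v.2 * t - δ =
            (δ + v.2 * t) * (v.1 * w - 1) - v.1 * (X - X % (p : ℤ)) := by rw [hX]; ring
        show (p : ℤ) ∣ v.1 * (X % (p : ℤ)) - v.2 * t - δ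
        rw [h4]
        exact dvd_sub (Dvd.dvd.mul_left hw _) (Dvd.dvd.mul_left h3 _)
    rw [hF, card_image_of_injective, hIco]
    intro s t hst
    exact congrArg Prod.fst hst

theorem pf5_zero {p : ℕ} {δ : ℤ} (hδ : ¬ (p : ℤ) ∣ δ) {v : ℤ × ℤ}
    (hv : (p : ℤ) ∣ v.1 ∧ (p : ℤ) ∣ v.2) : pf5_F p δ v = ∅ := by
  rw [eq_empty_iff_forall_notMem]
  intro b hb
  rw [pf5_mem] at hb
  apply hδ
  have h1 : δ = v.1 * b.2 - v.2 * b.1 - (v.1 * b.2 - v.2 * b.1 - δ) := by ring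
  rw [h1]
  exact dvd_sub (dvd_sub (Dvd.dvd.mul_right hv.1 _) (Dvd.dvd.mul_right hv.2 _)) hb.2

theorem pf5_card_le {p : ℕ} (hp : p.Prime) {δ : ℤ} (hδ : ¬ (p : ℤ) ∣ δ) (v : ℤ × ℤ) :
    (pf5_F p δ v).card ≤ p := by
  by_cases hv : (p : ℤ) ∣ v.1 ∧ (p : ℤ) ∣ v.2
  · rw [pf5_zero hδ hv, card_empty]
    exact Nat.zero_le _
  · exact (pf5_card hp δ hv).le

theorem pf5_congr {p : ℕ} {δ : ℤ} {v w : ℤ × ℤ} (h : cg1 p v w) : pf5_F p δ v = pf5_F p δ w := by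
  ext b
  rw [pf5_mem, pf5_mem]
  have h1 : (p : ℤ) ∣ (v.1 * b.2 - v.2 * b.1 - δ) - (w.1 * b.2 - w.2 * b.1 - δ) := by
    have h2 : (v.1 * b.2 - v.2 * b.1 - δ) - (w.1 * b.2 - w.2 * b.1 - δ) =
        (v.1 - w.1) * b.2 - (v.2 - w.2) * b.1 := by ring
    rw [h2]
    exact dvd_sub (Dvd.dvd.mul_right h.1 _) (Dvd.dvd.mul_right h.2 _)
  have h3 : (p : ℤ) ∣ v.1 * b.2 - v.2 * b.1 - δ ↔ (p : ℤ) ∣ w.1 * b.2 - w.2 * b.1 - δ :=
    (dvd_iff_dvd_of_dvd_sub h1)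
  rw [h3]

theorem pf5_cg1_refl (p : ℕ) (v : ℤ × ℤ) : cg1 p v v := by
  unfold cg1
  simp

/-- the mean over `t` -/
theorem pf5_sum {p : ℕ} (hp : p.Prime) (δ : ℤ) {a : ℤ × ℤ} (ha : Int.gcd a.1 a.2 = 1)
    (φ : ℤ × ℤ → ℝ) (hφ : ∀ b b', cg1 p b b' → φ b = φ b') :
    ∑ t ∈ range p, φ ((bz a δ).1 + (t : ℤ) * a.1, (bz a δ).2 + (t : ℤ) * a.2) =
      ∑ b ∈ pf5_F p δ a, φ b := by
  have hp0 : (0 : ℤ) < p := by exact_mod_cast hp.pos
  have hcop : IsCoprime a.1 a.2 := Int.isCoprime_iff_gcd_eq_one.2 ha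
  have hv : ¬ ((p : ℤ) ∣ a.1 ∧ (p : ℤ) ∣ a.2) := by
    rintro ⟨h1, h2⟩
    obtain ⟨x, y, hxy⟩ := hcop
    have h3 : (p : ℤ) ∣ 1 := by
      rw [← hxy]
      exact dvd_add (Dvd.dvd.mul_left h1 _) (Dvd.dvd.mul_left h2 _)
    have h4 := Int.le_of_dvd one_pos h3
    have h5 := hp.two_le
    omega
  have hdt : a.1 * (bz a δ).2 - a.2 * (bz a δ).1 = δ := (bz_spec ha δ).1
  set τ : ℕ → ℤ × ℤ := fun t => (((bz a δ).1 + (t : ℤ) * a.1) % (p : ℤ),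
    ((bz a δ).2 + (t : ℤ) * a.2) % (p : ℤ)) with hτ
  have hcg : ∀ t : ℕ, cg1 p ((bz a δ).1 + (t : ℤ) * a.1, (bz a δ).2 + (t : ℤ) * a.2) (τ t) :=
    fun t => ⟨Int.dvd_self_sub_emod, Int.dvd_self_sub_emod⟩
  have hinj : Set.InjOn τ (range p : Set ℕ) := by
    intro s hs t ht hst
    have hs' := mem_range.1 (mem_coe.1 hs)
    have ht' := mem_range.1 (mem_coe.1 ht)
    have e1 : ((bz a δ).1 + (s : ℤ) * a.1) % (p : ℤ) = ((bz a δ).1 + (t : ℤ) * a.1) % (p : ℤ) :=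
      congrArg Prod.fst hst
    have e2 : ((bz a δ).2 + (s : ℤ) * a.2) % (p : ℤ) = ((bz a δ).2 + (t : ℤ) * a.2) % (p : ℤ) :=
      congrArg Prod.snd hst
    have d1 : (p : ℤ) ∣ ((t : ℤ) - s) * a.1 := by
      have := Int.modEq_iff_dvd.1 e1
      have h : ((bz a δ).1 + (t : ℤ) * a.1) - ((bz a δ).1 + (s : ℤ) * a.1) =
          ((t : ℤ) - s) * a.1 := by ring
      rwa [h] at this
    have d2 : (p : ℤ) ∣ ((t : ℤ) - s) * a.2 := by
      have := Int.modEq_iff_dvd.1 e2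
      have h : ((bz a δ).2 + (t : ℤ) * a.2) - ((bz a δ).2 + (s : ℤ) * a.2) =
          ((t : ℤ) - s) * a.2 := by ring
      rwa [h] at this
    obtain ⟨x, y, hxy⟩ := hcop
    have d3 : (p : ℤ) ∣ (t : ℤ) - s := by
      have h : (t : ℤ) - s = x * (((t : ℤ) - s) * a.1) + y * (((t : ℤ) - s) * a.2) := by
        linear_combination (-((t : ℤ) - s)) * hxy
      rw [h]
      exact dvd_add (Dvd.dvd.mul_left d1 _) (Dvd.dvd.mul_left d2 _)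
    have d4 : (t : ℤ) - s = 0 := by
      apply Int.eq_zero_of_abs_lt_dvd d3
      rw [abs_lt]
      constructor <;> omega
    omega
  have himg : (range p).image τ = pf5_F p δ a := by
    apply eq_of_subset_of_card_le
    · intro b hb
      obtain ⟨t, -, rfl⟩ := mem_image.1 hb
      rw [pf5_mem]
      refine ⟨⟨⟨Int.emod_nonneg _ hp0.ne', Int.emod_lt_of_pos _ hp0⟩,
        ⟨Int.emod_nonneg _ hp0.ne', Int.emod_lt_of_pos _ hp0⟩⟩, ?_⟩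
      have h1 := (hcg t).1
      have h2 := (hcg t).2
      have h3 : a.1 * (τ t).2 - a.2 * (τ t).1 - δ =
          a.2 * (((bz a δ).1 + (t : ℤ) * a.1) - (τ t).1) -
            a.1 * (((bz a δ).2 + (t : ℤ) * a.2) - (τ t).2) := by
        linear_combination hdt
      rw [h3]
      exact dvd_sub (Dvd.dvd.mul_left h1 _) (Dvd.dvd.mul_left h2 _)
    · rw [card_image_of_injOn hinj, card_range, pf5_card hp δ hv]
  rw [← himg, sum_image (fun s hs t ht hst => hinj hs ht hst)]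
  exact sum_congr rfl fun t _ => hφ _ _ (hcg t)

/-- the mean over `b` -/
noncomputable def pf5_g (δ : ℤ) (h : ℕ → (ℤ × ℤ) × (ℤ × ℤ) → ℝ) (p : ℕ) (v : ℤ × ℤ) : ℝ :=
  (∑ b ∈ pf5_F p δ v, h p (v, b)) / p

theorem pf5_mean {p : ℕ} (hp : p.Prime) {δ : ℤ} (hδ : ¬ (p : ℤ) ∣ δ)
    (h : ℕ → (ℤ × ℤ) × (ℤ × ℤ) → ℝ) : mG (L1' p) (pf5_g δ h p) = mG (L2 δ p) (h p) := by
  have hp1 : (p : ℝ) ≠ 0 := by exact_mod_cast hp.pos.ne'
  have hL1 : ∀ v ∈ L1' p, ¬ ((p : ℤ) ∣ v.1 ∧ (p : ℤ) ∣ v.2) := by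
    rintro v hv ⟨d1, d2⟩
    unfold L1' L1 at hv
    rw [mem_filter, mem_product, mem_Ico, mem_Ico] at hv
    obtain ⟨⟨⟨h1, h2⟩, h3, h4⟩, h5⟩ := hv
    apply h5
    have e1 : v.1 = 0 := by
      apply Int.eq_zero_of_abs_lt_dvd d1
      rw [abs_of_nonneg h1]
      exact h2
    have e2 : v.2 = 0 := by
      apply Int.eq_zero_of_abs_lt_dvd d2
      rw [abs_of_nonneg h3]
      exact h4
    exact Prod.ext e1 e2
  have hsum : ∀ ψ : (ℤ × ℤ) × (ℤ × ℤ) → ℝ, ∑ r ∈ L2 δ p, ψ r =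
      ∑ v ∈ L1' p, ∑ b ∈ pf5_F p δ v, ψ (v, b) := by
    intro ψ
    unfold L2
    rw [sum_filter, sum_product]
    have h1 : ∀ v ∈ L1 p, (∑ b ∈ L1 p, if (p : ℤ) ∣ dt (v, b).1 (v, b).2 - δ then ψ (v, b) else 0) =
        ∑ b ∈ pf5_F p δ v, ψ (v, b) := by
      intro v _
      unfold pf5_F
      rw [sum_filter]
    rw [sum_congr rfl h1]
    symm
    apply sum_subset (filter_subset _ _)
    intro v hv hv'
    have h2 : v = (0, 0) := by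
      by_contra hne
      exact hv' (mem_filter.2 ⟨hv, hne⟩)
    rw [h2, pf5_zero hδ ⟨dvd_zero _, dvd_zero _⟩, sum_empty]
  have hcard : ((L2 δ p).card : ℝ) = (L1' p).card * p := by
    have h1 := hsum (fun _ => 1)
    rw [sum_const, nsmul_eq_mul, mul_one] at h1
    rw [h1]
    have h2 : ∀ v ∈ L1' p, ∑ b ∈ pf5_F p δ v, (1 : ℝ) = p := by
      intro v hv
      rw [sum_const, nsmul_eq_mul, mul_one, pf5_card hp δ (hL1 v hv)]
    rw [sum_congr rfl h2, sum_const, nsmul_eq_mul]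
  unfold mG
  rw [hcard, hsum]
  unfold pf5_g
  rw [← sum_div, div_div, mul_comm (p : ℝ)]

/-- BLOCK PF5 -/
theorem pair_equi_pr : ∃ C : ℝ, 0 ≤ C ∧ ∀ (A k : ℕ) (δ : ℤ) (T : Finset ℕ)
    (h : ℕ → (ℤ × ℤ) × (ℤ × ℤ) → ℝ), 1 ≤ A → (∀ p ∈ T, p.Prime ∧ ¬ (p : ℤ) ∣ δ) →
    (∀ p ∈ T, ∀ v w, cg2 p v w → h p v = h p w) → (∀ p ∈ T, ∀ v, 0 ≤ h p v ∧ h p v ≤ 1) →
    |∑ o ∈ OP A k, ∏ p ∈ T, h p (pP δ o) - (OP A k).card * ∏ p ∈ T, mG (L2 δ p) (h p)| ≤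
      C * ((∏ p ∈ T, p : ℕ) : ℝ) ^ 2 * A * (1 + Real.log A) * (2 * k + 1) +
        ((∏ p ∈ T, p : ℕ) : ℝ) * (pr A).card := by
  obtain ⟨C, hC, hE⟩ := prim_equi
  refine ⟨C, hC, ?_⟩
  intro A k δ T h hA hT hper h01
  have hg1 : ∀ p ∈ T, ∀ v w, cg1 p v w → pf5_g δ h p v = pf5_g δ h p w := by
    intro p hp v w hvw
    unfold pf5_g
    rw [pf5_congr hvw]
    congr 1
    exact sum_congr rfl fun b _ => hper p hp _ _ ⟨hvw, pf5_cg1_refl p b⟩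
  have hg2 : ∀ p ∈ T, ∀ v, 0 ≤ pf5_g δ h p v ∧ pf5_g δ h p v ≤ 1 := by
    intro p hp v
    have hp0 : (0 : ℝ) < p := by exact_mod_cast (hT p hp).1.pos
    unfold pf5_g
    refine ⟨div_nonneg (sum_nonneg fun b _ => (h01 p hp _).1) hp0.le, ?_⟩
    rw [div_le_one hp0]
    refine (sum_le_card_nsmul _ _ 1 fun b _ => (h01 p hp _).2).trans ?_
    rw [nsmul_eq_mul, mul_one]
    exact_mod_cast pf5_card_le (hT p hp).1 (hT p hp).2 v
  have h1 := hE A T (pf5_g δ h) hA (fun p hp => (hT p hp).1) hg1 hg2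
  have hmean : ∏ p ∈ T, mG (L1' p) (pf5_g δ h p) = ∏ p ∈ T, mG (L2 δ p) (h p) :=
    prod_congr rfl fun p hp => pf5_mean (hT p hp).1 (hT p hp).2 h
  rw [hmean] at h1
  set M := ∏ p ∈ T, mG (L2 δ p) (h p) with hM
  set Q : ℝ := ((∏ p ∈ T, p : ℕ) : ℝ) with hQ
  have hinner : ∀ a ∈ pr A, |∑ t ∈ Icc (-(k : ℤ)) k, ∏ p ∈ T, h p (pP δ (a, t)) -
      (2 * (k : ℝ) + 1) * ∏ p ∈ T, pf5_g δ h p a| ≤ Q := by
    intro a ha
    have ha1 : Int.gcd a.1 a.2 = 1 := (mem_filter.1 ha).2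
    have h2 := one_equi k T (fun p hp => (hT p hp).1)
      (fun p t => h p (pP δ (a, t)))
      (fun p hp s t hst => hper p hp _ _ ⟨pf5_cg1_refl p _, by
        unfold cg1 pP
        constructor
        · show (p : ℤ) ∣ (bz a δ).1 + s * a.1 - ((bz a δ).1 + t * a.1)
          have : (bz a δ).1 + s * a.1 - ((bz a δ).1 + t * a.1) = (s - t) * a.1 := by ring
          rw [this]
          exact Dvd.dvd.mul_right hst _
        · show (p : ℤ) ∣ (bz a δ).2 + s * a.2 - ((bz a δ).2 + t * a.2)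
          have : (bz a δ).2 + s * a.2 - ((bz a δ).2 + t * a.2) = (s - t) * a.2 := by ring
          rw [this]
          exact Dvd.dvd.mul_right hst _⟩)
      (fun p hp t => h01 p hp _)
    have h3 : ∏ p ∈ T, ((∑ t ∈ range p, h p (pP δ (a, (t : ℤ)))) / (p : ℝ)) =
        ∏ p ∈ T, pf5_g δ h p a := by
      refine prod_congr rfl fun p hp => ?_
      unfold pf5_g
      congr 1
      exact pf5_sum (hT p hp).1 δ ha1 (fun b => h p (a, b))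
        (fun b b' hbb => hper p hp _ _ ⟨pf5_cg1_refl p _, hbb⟩)
    rw [h3] at h2
    exact h2
  have hcardI : ((Icc (-(k : ℤ)) k).card : ℝ) = 2 * k + 1 := by
    have : (Icc (-(k : ℤ)) k).card = 2 * k + 1 := by
      rw [Int.card_Icc]
      omega
    rw [this]
    push_cast
    ring
  have hOP : ((OP A k).card : ℝ) = (pr A).card * (2 * k + 1) := by
    unfold OP
    rw [card_product, Nat.cast_mul, hcardI]
  have hS : ∑ o ∈ OP A k, ∏ p ∈ T, h p (pP δ o) =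
      ∑ a ∈ pr A, ∑ t ∈ Icc (-(k : ℤ)) k, ∏ p ∈ T, h p (pP δ (a, t)) := by
    unfold OP
    rw [sum_product]
  rw [hS, hOP]
  have hdec : ∑ a ∈ pr A, ∑ t ∈ Icc (-(k : ℤ)) k, ∏ p ∈ T, h p (pP δ (a, t)) -
      (pr A).card * (2 * (k : ℝ) + 1) * M =
      ∑ a ∈ pr A, (∑ t ∈ Icc (-(k : ℤ)) k, ∏ p ∈ T, h p (pP δ (a, t)) -
        (2 * (k : ℝ) + 1) * ∏ p ∈ T, pf5_g δ h p a) +
      (2 * (k : ℝ) + 1) * (∑ a ∈ pr A, ∏ p ∈ T, pf5_g δ h p a - (pr A).card * M) := by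
    rw [sum_sub_distrib, ← mul_sum]
    ring
  rw [hdec]
  refine (abs_add_le _ _).trans ?_
  have e1 : |∑ a ∈ pr A, (∑ t ∈ Icc (-(k : ℤ)) k, ∏ p ∈ T, h p (pP δ (a, t)) -
        (2 * (k : ℝ) + 1) * ∏ p ∈ T, pf5_g δ h p a)| ≤ Q * (pr A).card := by
    refine (abs_sum_le_sum_abs _ _).trans ?_
    refine (sum_le_card_nsmul _ _ _ hinner).trans ?_
    rw [nsmul_eq_mul, mul_comm]
  have hk : (0 : ℝ) ≤ 2 * (k : ℝ) + 1 := by positivity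
  have e2 : |(2 * (k : ℝ) + 1) * (∑ a ∈ pr A, ∏ p ∈ T, pf5_g δ h p a - (pr A).card * M)| ≤
      C * Q ^ 2 * A * (1 + Real.log A) * (2 * k + 1) := by
    rw [abs_mul, abs_of_nonneg hk, mul_comm]
    exact mul_le_mul_of_nonneg_right h1 hk
  linarith

end Pool.Agent.PENK

namespace Pool.Agent.PENK

theorem pair_equi : type_of% @pair_equi_pr := @pair_equi_pr

end Pool.Agent.PENK
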