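import Pool.Agent.Lib_helper18.PENK.Defs2

/-!
# PENK (MP_892e4c_nt), block PF10 (helper87): the law of pentagons modulo `p`
-/

set_option autoImplicit false

namespace Pool.Agent.PENK

open Finset Pool.Agent.PENT

/-- the solution of a linear congruence -/
theorem pf10_sol {p : ℕ} (hp : p.Prime) {x : ℤ} (hx : ¬ (p : ℤ) ∣ x) (m : ℤ) :
    ∃ y : ℤ, (0 ≤ y ∧ y < p) ∧ (p : ℤ) ∣ x * y - m ∧
      ∀ z : ℤ, 0 ≤ z → z < p → (p : ℤ) ∣ x * z - m → z = y := by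
  have hp' : Prime (p : ℤ) := Nat.prime_iff_prime_int.1 hp
  have hcop : IsCoprime (p : ℤ) x :=
    (Int.prime_iff_natAbs_prime.2 (by simpa using hp)).coprime_iff_not_dvd.2 hx
  obtain ⟨r, s, hrs⟩ := hcop
  have hp0 : (0 : ℤ) < p := by exact_mod_cast hp.pos
  refine ⟨(s * m) % p, ⟨Int.emod_nonneg _ hp0.ne', Int.emod_lt_of_pos _ hp0⟩, ?_, ?_⟩
  · have h1 : (s * m) % p = s * m - p * ((s * m) / p) := by
      have := Int.emod_add_mul_ediv (s * m) p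
      linarith
    rw [h1]
    refine ⟨-(r * m) - x * ((s * m) / p), ?_⟩
    linear_combination m * hrs
  · intro z hz0 hz1 hz
    have h1 : (p : ℤ) ∣ z - s * m := by
      have h2 : (p : ℤ) ∣ x * (z - s * m) := by
        have h3 : x * (z - s * m) = (x * z - m) + p * (r * m) := by
          linear_combination (-m) * hrs
        rw [h3]
        exact dvd_add hz (dvd_mul_right _ _)
      exact (hp'.dvd_or_dvd h2).resolve_left hx
    have h2 : z % p = (s * m) % p :=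
      (Int.emod_eq_emod_iff_emod_sub_eq_zero).2 (Int.emod_eq_zero_of_dvd h1)
    rw [← h2, Int.emod_eq_of_lt hz0 hz1]

/-- for fixed `a ≢ 0` the number of `b` with `det (a, b) = δ` is `p` -/
theorem fib_card_pr {p : ℕ} (hp : p.Prime) {a : ℤ × ℤ}
    (ha : ¬ ((p : ℤ) ∣ a.1 ∧ (p : ℤ) ∣ a.2))
    (δ : ℤ) : ((L1 p).filter (fun b => (p : ℤ) ∣ dt a b - δ)).card = p := by
  have hI : (Ico (0 : ℤ) p).card = p := by simp
  by_cases h1 : (p : ℤ) ∣ a.1
  · have h2 : ¬ (p : ℤ) ∣ a.2 := fun h => ha ⟨h1, h⟩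
    choose Y hY1 hY2 hY3 using fun m : ℤ => pf10_sol hp h2 m
    have key : (L1 p).filter (fun b => (p : ℤ) ∣ dt a b - δ) =
        (Ico (0 : ℤ) p).image (fun b2 => (Y (a.1 * b2 - δ), b2)) := by
      ext ⟨b1, b2⟩
      rw [mem_filter]
      simp only [L1, mem_product, mem_Ico, mem_image, Prod.mk.injEq, dt]
      constructor
      · rintro ⟨⟨⟨h3, h4⟩, h5⟩, h6⟩
        refine ⟨b2, h5, ?_, rfl⟩
        refine (hY3 _ b1 h3 h4 ?_).symm
        have h7 : a.2 * b1 - (a.1 * b2 - δ) = -(a.1 * b2 - a.2 * b1 - δ) := by ring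
        rw [h7]
        exact (dvd_neg).2 h6
      · rintro ⟨c, h5, h6, h7⟩
        subst h7
        subst h6
        refine ⟨⟨hY1 _, h5⟩, ?_⟩
        have h8 := hY2 (a.1 * c - δ)
        have h9 : a.1 * c - a.2 * Y (a.1 * c - δ) - δ =
            -(a.2 * Y (a.1 * c - δ) - (a.1 * c - δ)) := by ring
        rw [h9]
        exact (dvd_neg).2 h8
    rw [key, Finset.card_image_of_injective, hI]
    intro x y hxy
    exact (Prod.mk.inj hxy).2
  · choose Y hY1 hY2 hY3 using fun m : ℤ => pf10_sol hp h1 m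
    have key : (L1 p).filter (fun b => (p : ℤ) ∣ dt a b - δ) =
        (Ico (0 : ℤ) p).image (fun b1 => (b1, Y (a.2 * b1 + δ))) := by
      ext ⟨b1, b2⟩
      rw [mem_filter]
      simp only [L1, mem_product, mem_Ico, mem_image, Prod.mk.injEq, dt]
      constructor
      · rintro ⟨⟨h5, ⟨h3, h4⟩⟩, h6⟩
        refine ⟨b1, h5, rfl, ?_⟩
        refine (hY3 _ b2 h3 h4 ?_).symm
        have h7 : a.1 * b2 - (a.2 * b1 + δ) = a.1 * b2 - a.2 * b1 - δ := by ring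
        rw [h7]
        exact h6
      · rintro ⟨c, h5, h6, h7⟩
        subst h6
        subst h7
        refine ⟨⟨h5, hY1 _⟩, ?_⟩
        have h8 := hY2 (a.2 * c + δ)
        have h9 : a.1 * Y (a.2 * c + δ) - a.2 * c - δ =
            a.1 * Y (a.2 * c + δ) - (a.2 * c + δ) := by ring
        rw [h9]
        exact h8
    rw [key, Finset.card_image_of_injective, hI]
    intro x y hxy
    exact (Prod.mk.inj hxy).1

theorem L2_card_pr {p : ℕ} (hp : p.Prime) {δ : ℤ} (hδ : ¬ (p : ℤ) ∣ δ) :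
    ((L2 δ p).card : ℤ) = p * (p ^ 2 - 1) := by
  have hp0 : (0 : ℤ) < p := by exact_mod_cast hp.pos
  have h1 : (L2 δ p).card = ∑ a ∈ L1 p, ((L1 p).filter (fun b => (p : ℤ) ∣ dt a b - δ)).card := by
    rw [L2, Finset.card_filter, Finset.sum_product]
    refine Finset.sum_congr rfl fun a _ => ?_
    rw [Finset.card_filter]
  have h0 : ((0 : ℤ), (0 : ℤ)) ∈ L1 p := by
    simp only [L1, mem_product, mem_Ico]
    exact ⟨⟨le_rfl, hp0⟩, ⟨le_rfl, hp0⟩⟩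
  have hL : (L1 p).card = p ^ 2 := by
    simp [L1, pow_two]
  rw [h1, ← Finset.add_sum_erase _ _ h0]
  have h2 : ((L1 p).filter (fun b => (p : ℤ) ∣ dt ((0 : ℤ), (0 : ℤ)) b - δ)).card = 0 := by
    rw [Finset.card_eq_zero, Finset.filter_eq_empty_iff]
    intro b _ hb
    apply hδ
    have : dt ((0 : ℤ), (0 : ℤ)) b - δ = -δ := by simp [dt]
    rw [this] at hb
    exact (dvd_neg).1 hb
  have h3 : ∀ a ∈ (L1 p).erase ((0 : ℤ), (0 : ℤ)),
      ((L1 p).filter (fun b => (p : ℤ) ∣ dt a b - δ)).card = p := by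
    rintro ⟨a1, a2⟩ ha
    rw [mem_erase] at ha
    obtain ⟨hne, ha⟩ := ha
    simp only [L1, mem_product, mem_Ico] at ha
    apply fib_card_pr hp
    rintro ⟨k1, k2⟩
    apply hne
    have e1 : a1 = 0 := Int.eq_zero_of_dvd_of_nonneg_of_lt ha.1.1 ha.1.2 k1
    have e2 : a2 = 0 := Int.eq_zero_of_dvd_of_nonneg_of_lt ha.2.1 ha.2.2 k2
    rw [e1, e2]
  rw [h2, Finset.sum_congr rfl h3, Finset.sum_const, Finset.card_erase_of_mem h0, hL]
  have h4 : 1 ≤ p ^ 2 := Nat.one_le_pow _ _ hp.pos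
  rw [smul_eq_mul, zero_add]
  push_cast [Nat.cast_sub h4]
  ring

theorem Law5_sum_pr (δ1 δ4 : ℤ) (p : ℕ) (f : PolyK 5 → ℝ) :
    ∑ u ∈ Law5 δ1 δ4 p, f u =
      ∑ v ∈ L2 δ1 p, ∑ w ∈ L2 δ4 p, ∑ c ∈ L1 p, f ![w.2, v.1, v.2, c, w.1] := by
  have h1 : ∑ v ∈ L2 δ1 p, ∑ w ∈ L2 δ4 p, ∑ c ∈ L1 p, f ![w.2, v.1, v.2, c, w.1] =
      ∑ z ∈ (L2 δ1 p) ×ˢ ((L2 δ4 p) ×ˢ (L1 p)), f ![z.2.1.2, z.1.1, z.1.2, z.2.2, z.2.1.1] := by
    rw [Finset.sum_product]
    refine Finset.sum_congr rfl fun v _ => ?_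
    rw [Finset.sum_product]
  rw [h1]
  refine Finset.sum_bij' (fun u _ => ((u 1, u 2), ((u 4, u 0), u 3)))
    (fun z _ => ![z.2.1.2, z.1.1, z.1.2, z.2.2, z.2.1.1]) ?_ ?_ ?_ ?_ ?_
  · intro u hu
    rw [Law5, mem_filter, Fintype.mem_piFinset] at hu
    obtain ⟨h2, h3, h4⟩ := hu
    simp only [mem_product, L2, mem_filter]
    exact ⟨⟨⟨h2 1, h2 2⟩, h3⟩, ⟨⟨⟨h2 4, h2 0⟩, h4⟩, h2 3⟩⟩
  · rintro ⟨⟨v1, v2⟩, ⟨⟨w1, w2⟩, c⟩⟩ hz
    simp only [mem_product, L2, mem_filter] at hz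
    obtain ⟨⟨⟨h2, h3⟩, h4⟩, ⟨⟨⟨h5, h6⟩, h7⟩, h8⟩⟩ := hz
    rw [Law5, mem_filter, Fintype.mem_piFinset]
    refine ⟨?_, ?_, ?_⟩
    · intro j
      fin_cases j
      · exact h6
      · exact h2
      · exact h3
      · exact h8
      · exact h5
    · exact h4
    · exact h7
  · intro u _
    funext j
    fin_cases j <;> rfl
  · rintro ⟨⟨v1, v2⟩, ⟨⟨w1, w2⟩, c⟩⟩ _
    rfl
  · intro u _
    congr 1
    funext j
    fin_cases j <;> rfl

end Pool.Agent.PENK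

namespace Pool.Agent.PENK

theorem L2_card : type_of% @L2_card_pr := @L2_card_pr

theorem Law5_sum : type_of% @Law5_sum_pr := @Law5_sum_pr

theorem fib_card : type_of% @fib_card_pr := @fib_card_pr

end Pool.Agent.PENK
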