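import Pool.Agent.Lib_helper18.PENK11.Defs
import Pool.Agent.Lib_helper18.PENKF.DefsW
import Pool.Agent.Lib_helper18.PENKF.PF6

set_option autoImplicit false

namespace Pool.Agent.PENK

open Finset Pool.Agent.PENT

theorem qf3_sum {n : ℕ} {V : Type} (O : Fin (n + 1) → Finset V) (F : (Fin (n + 1) → V) → ℝ) :
    ∑ o ∈ Fintype.piFinset O, F o =
      ∑ o ∈ O 0 ×ˢ Fintype.piFinset (fun i : Fin n => O i.succ),
        F (Fin.cons (α := fun _ => V) o.1 o.2) := by
  refine Finset.sum_nbij' (fun o => (o 0, fun i => o i.succ))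
    (fun o => Fin.cons (α := fun _ => V) o.1 o.2) ?_ ?_ ?_ ?_ ?_
  · intro o ho
    rw [Fintype.mem_piFinset] at ho
    rw [Finset.mem_product]
    exact ⟨ho 0, by rw [Fintype.mem_piFinset]; exact fun i => ho i.succ⟩
  · intro o ho
    rw [Finset.mem_product, Fintype.mem_piFinset] at ho
    rw [Fintype.mem_piFinset]
    intro i
    refine Fin.cases ?_ (fun j => ?_) i
    · exact ho.1
    · exact ho.2 j
  · intro o _
    funext i
    refine Fin.cases rfl (fun j => rfl) i
  · intro o _
    rfl
  · intro o _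
    congr 1
    funext i
    refine Fin.cases rfl (fun j => rfl) i

theorem qf3_card {n : ℕ} {V : Type} (O : Fin (n + 1) → Finset V) :
    ((Fintype.piFinset O).card : ℝ) =
      ((O 0 ×ˢ Fintype.piFinset (fun i : Fin n => O i.succ)).card : ℝ) := by
  have h := qf3_sum O (fun _ => (1 : ℝ))
  simpa using h

theorem qf3_mG {n : ℕ} {V : Type} (L : Fin (n + 1) → Finset V) (f : (Fin (n + 1) → V) → ℝ) :
    mG (Fintype.piFinset L) f =
      mG (L 0 ×ˢ Fintype.piFinset (fun i : Fin n => L i.succ))
        (fun o => f (Fin.cons (α := fun _ => V) o.1 o.2)) := by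
  unfold mG
  rw [qf3_sum, qf3_card]

theorem qf3_zero {V : Type} (O : Fin 0 → Finset V) (f : (Fin 0 → V) → ℝ) :
    ∑ o ∈ Fintype.piFinset O, f o = f Fin.elim0 ∧ (Fintype.piFinset O).card = 1 := by
  have h : Fintype.piFinset O = {Fin.elim0} := by
    ext o
    rw [Fintype.mem_piFinset, Finset.mem_singleton]
    constructor
    · intro _
      funext i
      exact i.elim0
    · intro _ i
      exact i.elim0
  rw [h, Finset.sum_singleton, Finset.card_singleton]
  exact ⟨rfl, rfl⟩

/-- BLOCK QF3 (induction over `n` with PF6 = `equi_prod` and `Fin.consEquiv` / `Fin.cons`, or directly: fix all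
but one coordinate): finite products of families -/
theorem equi_pi_pr {n : ℕ} {V : Type} (O : Fin n → Finset V) (cg : ℕ → V → V → Prop)
    (L : Fin n → ℕ → Finset V) {S : Finset ℕ} {Q η : ℝ} (hc : ∀ p v, cg p v v) (hη : 0 ≤ η)
    (h : ∀ i, EquiG (O i) (fun v => v) cg (L i) S Q η) :
    EquiG (Fintype.piFinset O) (fun v => v) (fun p v w => ∀ i, cg p (v i) (w i))
      (fun p => Fintype.piFinset (fun i => L i p)) S Q (n * η) := by
  induction n with
  | zero =>
    intro T _ _ f _ _
    have e1 : ∀ p, mG (Fintype.piFinset (fun i => L i p)) (f p) = f p Fin.elim0 := by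
      intro p
      unfold mG
      rw [(qf3_zero (fun i => L i p) (f p)).1, (qf3_zero (fun i => L i p) (f p)).2]
      simp
    rw [(qf3_zero O (fun o => ∏ p ∈ T, f p o)).1, (qf3_zero O (fun _ => 0)).2]
    simp only [e1]
    simp
  | succ n ih =>
    intro T hT hQ f hf hf1
    have h1 := ih (fun i => O i.succ) (fun i => L i.succ) (fun i => h i.succ)
    have h2 := equi_prod hc (fun p v i => hc p (v i)) hη (by positivity : 0 ≤ (n : ℝ) * η) (h 0) h1
    have h3 := h2 T hT hQ (fun p o => f p (Fin.cons (α := fun _ => V) o.1 o.2)) ?_ ?_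
    · rw [qf3_sum, qf3_card]
      simp only [qf3_mG]
      have e : ((n + 1 : ℕ) : ℝ) * η = η + n * η := by push_cast; ring
      rw [e]
      exact h3
    · intro p hp v v' hv
      refine hf p hp _ _ ?_
      intro i
      refine Fin.cases ?_ (fun j => ?_) i
      · exact hv.1
      · exact hv.2 j
    · intro p hp v
      exact hf1 p hp _

end Pool.Agent.PENK

namespace Pool.Agent.PENK

theorem equi_pi : type_of% @equi_pi_pr := @equi_pi_pr

end Pool.Agent.PENK
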