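import Pool.Agent.Lib_helper18.PENK.Defs

/-! Block PB1 (helper31): the second adjacent vertex, and the Plücker relations -/

set_option autoImplicit false

namespace Pool.Agent.PENK

open Finset Pool.Agent.PENT

variable {K : ℕ} [NeZero K]

theorem pb1_ne (hK : 5 ≤ K) (j : Fin K) : j ≠ j + 1 := by
  intro h
  have h1 : (1 : Fin K) = 0 := by
    have h2 : j + 1 = j + 0 := by rw [add_zero]; exact h.symm
    exact add_left_cancel h2
  have h3 : (1 : Fin K).val = (0 : Fin K).val := by rw [h1]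
  rw [Fin.val_one', Fin.val_zero, Nat.mod_eq_of_lt (by omega)] at h3
  omega

theorem nd'_pr (hK : 5 ≤ K) {q : Par K} {x : ℝ} {P0 : ℕ} {u : PolyK K}
    (h : IsPoly q x P0 u) (j k : Fin K) (h1 : k ≠ j) (h2 : k ≠ j + 1) :
    Nat.Coprime (dn u j) (dt (u (j + 1)) (u k)).natAbs := by
  rw [Nat.coprime_iff_gcd_eq_one]
  by_contra hne
  obtain ⟨p, hp, hpd⟩ := Nat.exists_prime_and_dvd hne
  have hp1 : p ∣ dn u j := hpd.trans (Nat.gcd_dvd_left _ _)
  have hp2 : p ∣ (dt (u (j + 1)) (u k)).natAbs := hpd.trans (Nat.gcd_dvd_right _ _)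
  have hP : Prime (p : ℤ) := Nat.prime_iff_prime_int.1 hp
  have e1 : (p : ℤ) ∣ dt (u j) (u (j + 1)) := Int.natCast_dvd.2 hp1
  have e2 : (p : ℤ) ∣ dt (u (j + 1)) (u k) := Int.natCast_dvd.2 hp2
  have hnd := h.nd j k h1 h2
  have e3 : ¬ (p : ℤ) ∣ dt (u j) (u k) := by
    intro h3
    have h4 : p ∣ Nat.gcd (dn u j) (dt (u j) (u k)).natAbs :=
      Nat.dvd_gcd hp1 (Int.natCast_dvd.1 h3)
    rw [hnd.gcd_eq_one] at h4
    exact hp.one_lt.ne' (Nat.dvd_one.1 h4)
  have f1 : dt (u j) (u k) * (u (j + 1)).1 =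
      dt (u (j + 1)) (u k) * (u j).1 + dt (u j) (u (j + 1)) * (u k).1 := by
    unfold dt; ring
  have f2 : dt (u j) (u k) * (u (j + 1)).2 =
      dt (u (j + 1)) (u k) * (u j).2 + dt (u j) (u (j + 1)) * (u k).2 := by
    unfold dt; ring
  have g1 : (p : ℤ) ∣ (u (j + 1)).1 := by
    have : (p : ℤ) ∣ dt (u j) (u k) * (u (j + 1)).1 := by
      rw [f1]; exact dvd_add (e2.mul_right _) (e1.mul_right _)
    exact (hP.dvd_or_dvd this).resolve_left e3
  have g2 : (p : ℤ) ∣ (u (j + 1)).2 := by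
    have : (p : ℤ) ∣ dt (u j) (u k) * (u (j + 1)).2 := by
      rw [f2]; exact dvd_add (e2.mul_right _) (e1.mul_right _)
    exact (hP.dvd_or_dvd this).resolve_left e3
  have g3 : p ∣ dn u (j + 1) := by
    unfold dn dl
    apply Int.natCast_dvd.1
    unfold dt
    exact dvd_sub (g1.mul_right _) (g2.mul_right _)
  have hco := h.co j (j + 1) (pb1_ne hK j)
  have h5 : p ∣ Nat.gcd (dn u j) (dn u (j + 1)) := Nat.dvd_gcd hp1 g3
  rw [hco.gcd_eq_one] at h5
  exact hp.one_lt.ne' (Nat.dvd_one.1 h5)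

theorem dt_cv_pr {K : ℕ} [NeZero K] (u : PolyK K) (i j : Fin K) :
    dt (cv u i) (cv u j) = dl u 0 * dt (u i) (u j) := by
  unfold cv dl dt
  simp only [zero_add]
  ring

end Pool.Agent.PENK

namespace Pool.Agent.PENK

theorem IsPoly.nd' : type_of% @nd'_pr := @nd'_pr

theorem dt_cv : type_of% @dt_cv_pr := @dt_cv_pr

end Pool.Agent.PENK
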