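import Pool.Agent.Lib_helper18.PENK.Defs
import Pool.Agent.Lib_helper18.PENKF.DefsW
import Pool.Agent.Lib_helper18.PENKF.PB1

/-! Block PB2: the line of a polygon is a line -/

set_option autoImplicit false

namespace Pool.Agent.PENK

open Finset Pool.Agent.PENT

variable {K : ℕ} [NeZero K]

theorem pb2_01 (hK : 5 ≤ K) : (0 : Fin K) ≠ 1 := by
  intro h
  have := congrArg Fin.val h
  rw [Fin.val_one', Fin.val_zero, Nat.mod_eq_of_lt (by omega)] at this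
  omega

theorem pb2_0m (hK : 5 ≤ K) : (0 : Fin K) ≠ -1 := by
  intro h
  have h1 : (1 : Fin K) = 0 := by rw [← neg_neg (1 : Fin K), ← h, neg_zero]
  exact pb2_01 hK h1.symm

theorem pb2_val2 (hK : 5 ≤ K) : ((2 : Fin K) : ℕ) = 2 := by
  have : ((2 : Fin K) : ℕ) = 2 % K := rfl
  rw [this, Nat.mod_eq_of_lt (by omega)]

theorem pb2_20 (hK : 5 ≤ K) : (2 : Fin K) ≠ 0 := by
  intro h
  have := congrArg Fin.val h
  rw [pb2_val2 hK, Fin.val_zero] at this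
  omega

theorem pb2_21 (hK : 5 ≤ K) : (2 : Fin K) ≠ 1 := by
  intro h
  have := congrArg Fin.val h
  rw [pb2_val2 hK, Fin.val_one', Nat.mod_eq_of_lt (by omega)] at this
  omega

theorem pb2_dt_neg (v w : ℤ × ℤ) : dt v w = -dt w v := by
  unfold dt
  ring

theorem pb2_natAbs (v w : ℤ × ℤ) : (dt v w).natAbs = (dt w v).natAbs := by
  rw [pb2_dt_neg v w, Int.natAbs_neg]

/-- a prime dividing one of two coprime numbers does not divide the other -/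
theorem pb2_cop {p a : ℕ} {z : ℤ} (hp : p.Prime) (h : Nat.Coprime a z.natAbs) (ha : p ∣ a) :
    ¬ (p : ℤ) ∣ z := by
  intro hz
  have h1 : p ∣ z.natAbs := Int.natCast_dvd.1 hz
  exact Nat.Prime.one_lt hp |>.ne' (Nat.dvd_one.1 (h ▸ Nat.dvd_gcd ha h1))

/-- the primes of different edges are different -/
theorem pb2_uniq {q : Par K} {x : ℝ} {P0 : ℕ} {u : PolyK K} (h : IsPoly q x P0 u) {p : ℕ}
    (hp : p.Prime) {i j : Fin K} (hi : p ∣ dn u i) (hj : p ∣ dn u j) : i = j := by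
  by_contra hne
  have := h.co i j hne
  exact (Nat.Prime.one_lt hp).ne' (Nat.dvd_one.1 (this ▸ Nat.dvd_gcd hi hj))

/-- both coordinates of `c_j` at an interior edge `j ≠ 0` -/
theorem pb2_int {q : Par K} {x : ℝ} {P0 : ℕ} {u : PolyK K}
    (h : IsPoly q x P0 u) {p : ℕ} (hp : p.Prime) {j : Fin K} (hj : j ∈ inr K) (hj0 : j ≠ 0)
    (hpj : p ∣ dn u j) : ¬ (p : ℤ) ∣ (cv u j).1 ∧ ¬ (p : ℤ) ∣ (cv u j).2 := by
  have hj1 : j ≠ 1 ∧ j ≠ -1 := (Finset.mem_filter.1 hj).2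
  constructor
  · have h1 := h.nd j 1 hj1.1.symm (by
      intro hh
      apply hj0
      have : j + 1 = 0 + 1 := by rw [← hh, zero_add]
      exact add_right_cancel this)
    exact pb2_cop hp h1 hpj
  · have h1 := h.nd j 0 hj0.symm (by
      intro hh
      exact hj1.2 (eq_neg_of_add_eq_zero_left hh.symm))
    rw [pb2_natAbs] at h1
    exact pb2_cop hp h1 hpj

/-- both coordinates of `c_k` at the base edge -/
theorem pb2_zero (hK : 5 ≤ K) {q : Par K} {x : ℝ} {P0 : ℕ} {u : PolyK K}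
    (h : IsPoly q x P0 u) {p : ℕ} (hp : p.Prime) {k : Fin K} (hk0 : k ≠ 0) (hk1 : k ≠ 1)
    (hp0 : p ∣ dn u 0) : ¬ (p : ℤ) ∣ (cv u k).1 ∧ ¬ (p : ℤ) ∣ (cv u k).2 := by
  have hk1' : k ≠ 0 + 1 := by rwa [zero_add]
  constructor
  · have h1 := IsPoly.nd' hK h 0 k hk0 hk1'
    rw [zero_add, pb2_natAbs] at h1
    exact pb2_cop hp h1 hp0
  · exact pb2_cop hp (h.nd 0 k hk0 hk1') hp0

/-- the line at the base edge -/
theorem pb2_Lv0 (hK : 5 ≤ K) {q : Par K} {x : ℝ} {P0 : ℕ} {u : PolyK K}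
    (h : IsPoly q x P0 u) {p : ℕ} (hp : p.Prime) (hp0 : p ∣ dn u 0) : Lv u p = cv u 2 := by
  unfold Lv
  rw [if_neg (fun h1 => pb2_01 hK (pb2_uniq h hp hp0 h1)),
    if_neg (fun h1 => pb2_0m hK (pb2_uniq h hp hp0 h1)), if_pos hp0]

/-- the line at an interior edge `j ≠ 0` -/
theorem pb2_Lvj {q : Par K} {x : ℝ} {P0 : ℕ} {u : PolyK K}
    (h : IsPoly q x P0 u) {p : ℕ} (hp : p.Prime) {j : Fin K} (hj : j ∈ inr K) (hj0 : j ≠ 0)
    (hpj : p ∣ dn u j) : Lv u p = cv u j := by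
  have hj1 : j ≠ 1 ∧ j ≠ -1 := (Finset.mem_filter.1 hj).2
  have hex : ∃ j ∈ inr K, j ≠ 0 ∧ p ∣ dn u j := ⟨j, hj, hj0, hpj⟩
  unfold Lv
  rw [if_neg (fun h1 => hj1.1 (pb2_uniq h hp hpj h1)),
    if_neg (fun h1 => hj1.2 (pb2_uniq h hp hpj h1)),
    if_neg (fun h1 => hj0 (pb2_uniq h hp hpj h1)), dif_pos hex]
  congr 1
  exact pb2_uniq h hp hex.choose_spec.2.2 hpj

/-- BLOCK PB2. The line `L_p(u)` is a line. -/
theorem Lv_ne_pr (hK : 5 ≤ K) {q : Par K} {x : ℝ} {P0 : ℕ} {u : PolyK K}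
    (h : IsPoly q x P0 u) {p : ℕ} (hp : p.Prime) (hpu : p ∣ DD u) :
    ¬ ((p : ℤ) ∣ (Lv u p).1 ∧ (p : ℤ) ∣ (Lv u p).2) := by
  have hp1 : ¬ (p : ℤ) ∣ 1 := by
    intro h1
    have h2 : p ∣ 1 := by exact_mod_cast h1
    exact (Nat.Prime.one_lt hp).ne' (Nat.dvd_one.1 h2)
  obtain ⟨j, _, hj⟩ := (Prime.dvd_finsetProd_iff hp.prime _).1 hpu
  by_cases c1 : p ∣ dn u 1
  · unfold Lv
    rw [if_pos c1]
    exact fun hh => hp1 hh.2
  · by_cases c2 : p ∣ dn u (-1)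
    · unfold Lv
      rw [if_neg c1, if_pos c2]
      exact fun hh => hp1 hh.1
    · by_cases c3 : p ∣ dn u 0
      · rw [pb2_Lv0 hK h hp c3]
        exact fun hh => (pb2_zero hK h hp (pb2_20 hK) (pb2_21 hK) c3).1 hh.1
      · have hj0 : j ≠ 0 := by rintro rfl; exact c3 hj
        have hjr : j ∈ inr K := by
          refine Finset.mem_filter.2 ⟨Finset.mem_univ _, ?_, ?_⟩
          · rintro rfl; exact c1 hj
          · rintro rfl; exact c2 hj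
        rw [pb2_Lvj h hp hjr hj0 hj]
        exact fun hh => (pb2_int h hp hjr hj0 hj).1 hh.1

/-- at interior edges the line is different from `(1,0)` and `(0,1)` -/
theorem Lv_bad_pr (hK : 5 ≤ K) {q : Par K} {x : ℝ} {P0 : ℕ} {u : PolyK K}
    (h : IsPoly q x P0 u) {p : ℕ} (hp : p.Prime) (hpu : p ∣ bad u) :
    ¬ (p : ℤ) ∣ (Lv u p).1 ∧ ¬ (p : ℤ) ∣ (Lv u p).2 := by
  obtain ⟨j, hjr, hj⟩ := (Prime.dvd_finsetProd_iff hp.prime _).1 hpu
  by_cases hj0 : j = 0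
  · subst hj0
    rw [pb2_Lv0 hK h hp hj]
    exact pb2_zero hK h hp (pb2_20 hK) (pb2_21 hK) hj
  · rw [pb2_Lvj h hp hjr hj0 hj]
    exact pb2_int h hp hjr hj0 hj

end Pool.Agent.PENK

namespace Pool.Agent.PENK

theorem Lv_ne : type_of% @Lv_ne_pr := @Lv_ne_pr

theorem Lv_bad : type_of% @Lv_bad_pr := @Lv_bad_pr

end Pool.Agent.PENK
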