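import Pool.Agent.Lib_helper18.PENK.Defs
import Pool.Agent.Lib_helper18.PENKF.DefsW
import Pool.Agent.Lib_helper18.PENKF.PB1
import Pool.Agent.Lib_helper18.PENKF.PB2

/-! Block PB3: the lines at the edges -/

set_option autoImplicit false

namespace Pool.Agent.PENK

open Finset Pool.Agent.PENT

variable {K : ℕ} [NeZero K]

theorem pb3_01 (hK : 5 ≤ K) : (0 : Fin K) ≠ 1 := by
  intro h
  have := congrArg Fin.val h
  rw [Fin.val_one', Fin.val_zero, Nat.mod_eq_of_lt (by omega)] at this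
  omega

theorem pb3_0m (hK : 5 ≤ K) : (0 : Fin K) ≠ -1 := by
  intro h
  have h1 : (1 : Fin K) = 0 := by rw [← neg_neg (1 : Fin K), ← h, neg_zero]
  exact pb3_01 hK h1.symm

theorem pb3_val2 (hK : 5 ≤ K) : ((2 : Fin K) : ℕ) = 2 := by
  have : ((2 : Fin K) : ℕ) = 2 % K := rfl
  rw [this, Nat.mod_eq_of_lt (by omega)]

theorem pb3_20 (hK : 5 ≤ K) : (2 : Fin K) ≠ 0 := by
  intro h
  have := congrArg Fin.val h
  rw [pb3_val2 hK, Fin.val_zero] at this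
  omega

theorem pb3_21 (hK : 5 ≤ K) : (2 : Fin K) ≠ 1 := by
  intro h
  have := congrArg Fin.val h
  rw [pb3_val2 hK, Fin.val_one', Nat.mod_eq_of_lt (by omega)] at this
  omega

theorem pb3_dt_neg (v w : ℤ × ℤ) : dt v w = -dt w v := by
  unfold dt
  ring

theorem pb3_natAbs (v w : ℤ × ℤ) : (dt v w).natAbs = (dt w v).natAbs := by
  rw [pb3_dt_neg v w, Int.natAbs_neg]

/-- a prime dividing one of two coprime numbers does not divide the other -/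
theorem pb3_cop {p a : ℕ} {z : ℤ} (hp : p.Prime) (h : Nat.Coprime a z.natAbs) (ha : p ∣ a) :
    ¬ (p : ℤ) ∣ z := by
  intro hz
  have h1 : p ∣ z.natAbs := Int.natCast_dvd.1 hz
  exact Nat.Prime.one_lt hp |>.ne' (Nat.dvd_one.1 (h ▸ Nat.dvd_gcd ha h1))

/-- the primes of different edges are different -/
theorem pb3_uniq {q : Par K} {x : ℝ} {P0 : ℕ} {u : PolyK K} (h : IsPoly q x P0 u) {p : ℕ}
    (hp : p.Prime) {i j : Fin K} (hi : p ∣ dn u i) (hj : p ∣ dn u j) : i = j := by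
  by_contra hne
  have := h.co i j hne
  exact (Nat.Prime.one_lt hp).ne' (Nat.dvd_one.1 (this ▸ Nat.dvd_gcd hi hj))

/-- both coordinates of `c_k` at the base edge -/
theorem pb3_zero (hK : 5 ≤ K) {q : Par K} {x : ℝ} {P0 : ℕ} {u : PolyK K}
    (h : IsPoly q x P0 u) {p : ℕ} (hp : p.Prime) {k : Fin K} (hk0 : k ≠ 0) (hk1 : k ≠ 1)
    (hp0 : p ∣ dn u 0) : ¬ (p : ℤ) ∣ (cv u k).1 ∧ ¬ (p : ℤ) ∣ (cv u k).2 := by
  have hk1' : k ≠ 0 + 1 := by rwa [zero_add]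
  constructor
  · have h1 := IsPoly.nd' hK h 0 k hk0 hk1'
    rw [zero_add, pb3_natAbs] at h1
    exact pb3_cop hp h1 hp0
  · exact pb3_cop hp (h.nd 0 k hk0 hk1') hp0

/-- the line at the base edge -/
theorem pb3_Lv0 (hK : 5 ≤ K) {q : Par K} {x : ℝ} {P0 : ℕ} {u : PolyK K}
    (h : IsPoly q x P0 u) {p : ℕ} (hp : p.Prime) (hp0 : p ∣ dn u 0) : Lv u p = cv u 2 := by
  unfold Lv
  rw [if_neg (fun h1 => pb3_01 hK (pb3_uniq h hp hp0 h1)),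
    if_neg (fun h1 => pb3_0m hK (pb3_uniq h hp hp0 h1)), if_pos hp0]

/-- the line at an interior edge `j ≠ 0` -/
theorem pb3_Lvj {q : Par K} {x : ℝ} {P0 : ℕ} {u : PolyK K}
    (h : IsPoly q x P0 u) {p : ℕ} (hp : p.Prime) {j : Fin K} (hj : j ∈ inr K) (hj0 : j ≠ 0)
    (hpj : p ∣ dn u j) : Lv u p = cv u j := by
  have hj1 : j ≠ 1 ∧ j ≠ -1 := (Finset.mem_filter.1 hj).2
  have hex : ∃ j ∈ inr K, j ≠ 0 ∧ p ∣ dn u j := ⟨j, hj, hj0, hpj⟩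
  unfold Lv
  rw [if_neg (fun h1 => hj1.1 (pb3_uniq h hp hpj h1)),
    if_neg (fun h1 => hj1.2 (pb3_uniq h hp hpj h1)),
    if_neg (fun h1 => hj0 (pb3_uniq h hp hpj h1)), dif_pos hex]
  congr 1
  exact pb3_uniq h hp hex.choose_spec.2.2 hpj

/-- BLOCK PB3. The line contains `c_j` and `c_(j+1)` if `p ∣ dl_j` is an interior edge `≠ 0`. -/
theorem Lv_par_pr (hK : 5 ≤ K) {q : Par K} {x : ℝ} {P0 : ℕ} {u : PolyK K}
    (h : IsPoly q x P0 u) {p : ℕ} (hp : p.Prime) {j : Fin K} (hj : j ∈ inr K) (hj0 : j ≠ 0)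
    (hpj : p ∣ dn u j) :
    (p : ℤ) ∣ dt (Lv u p) (cv u j) ∧ (p : ℤ) ∣ dt (Lv u p) (cv u (j + 1)) := by
  rw [pb3_Lvj h hp hj hj0 hpj]
  constructor
  · have : dt (cv u j) (cv u j) = 0 := by unfold dt; ring
    rw [this]
    exact dvd_zero _
  · rw [dt_cv]
    exact Dvd.dvd.mul_left (Int.natCast_dvd.2 hpj) _

/-- if `p ∣ dl_0` the line contains all `c_k` -/
theorem Lv_par0_pr (hK : 5 ≤ K) {q : Par K} {x : ℝ} {P0 : ℕ} {u : PolyK K}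
    (h : IsPoly q x P0 u) {p : ℕ} (hp : p.Prime) (hp0 : p ∣ dn u 0) (k : Fin K)
    (hk : k ∈ ivr K) :
    (p : ℤ) ∣ dt (Lv u p) (cv u k) ∧ ¬ (p : ℤ) ∣ (cv u k).1 ∧ ¬ (p : ℤ) ∣ (cv u k).2 := by
  have hk' : k ≠ 0 ∧ k ≠ 1 := (Finset.mem_filter.1 hk).2
  refine ⟨?_, pb3_zero hK h hp hk'.1 hk'.2 hp0⟩
  rw [pb3_Lv0 hK h hp hp0, dt_cv]
  exact Dvd.dvd.mul_right (Int.natCast_dvd.2 hp0) _

end Pool.Agent.PENK

namespace Pool.Agent.PENK

theorem Lv_par : type_of% @Lv_par_pr := @Lv_par_pr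

theorem Lv_par0 : type_of% @Lv_par0_pr := @Lv_par0_pr

end Pool.Agent.PENK
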