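import Pool.Agent.Lib_helper18.PENK.Defs
import Pool.Agent.Lib_helper18.PENKF.DefsW
import Pool.Agent.Lib_helper18.PENKF.PB2

/-! PENK block PB4 (helper83) -/

set_option autoImplicit false

namespace Pool.Agent.PENK

open Finset Pool.Agent.PENT

variable {K : ℕ} [NeZero K]

/-- BLOCK PB4. Good bases vanish on the lines. -/
theorem over_Lv_pr (hK : 5 ≤ K) {q : Par K} {x : ℝ} {P0 : ℕ} {u : PolyK K}
    (h : IsPoly q x P0 u) {R : Bas} (hR : Over q x R u) {p : ℕ} (hp : p.Prime)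
    (hpu : p ∣ DD u) : (p : ℤ) ∣ Rf R (Lv u p) := by
  classical
  have key : ∀ j : Fin K, p ∣ dn u j → (p : ℤ) ∣ dl u j := by
    intro j hj
    exact Int.natCast_dvd.2 hj
  unfold Lv
  split_ifs with h1 h2 h3 h4
  · have e : Rf R (0, 1) = R.2.2 := by
      unfold Rf qf
      ring
    rw [e]
    exact (key 1 h1).trans hR.d1
  · have e : Rf R (1, 0) = R.1 := by
      unfold Rf qf
      ring
    rw [e]
    exact (key (-1) h2).trans hR.dm
  · exact (key 0 h3).trans hR.d0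
  · exact (key _ h4.choose_spec.2.2).trans (hR.dj _ h4.choose_spec.1 h4.choose_spec.2.1)
  · exfalso
    unfold DD at hpu
    obtain ⟨j, _, hj⟩ := (hp.prime.dvd_finsetProd_iff _).1 hpu
    apply h4
    refine ⟨j, ?_, ?_, hj⟩
    · unfold inr
      rw [Finset.mem_filter]
      refine ⟨Finset.mem_univ _, ?_, ?_⟩
      · rintro rfl
        exact h1 hj
      · rintro rfl
        exact h2 hj
    · rintro rfl
      exact h3 hj

/-- the primes of `D(u)` are `1 mod 4` (`-1` is a square modulo `p`: `g R(c) = (g c₁ + n c₂)² + c₂²`)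
-/
theorem over_one4_pr (hK : 5 ≤ K) {q : Par K} {x : ℝ} {P0 : ℕ} (hP0 : 2 ≤ P0) {u : PolyK K}
    (h : IsPoly q x P0 u) {R : Bas} (hR : Over q x R u) : One4 u := by
  intro p hp hpu
  haveI : Fact p.Prime := ⟨hp⟩
  have hodd : 2 < p := by
    unfold DD at hpu
    obtain ⟨j, _, hj⟩ := (hp.prime.dvd_finsetProd_iff _).1 hpu
    exact lt_of_le_of_lt hP0 (h.ro j p hp hj)
  have h1 := over_Lv_pr hK h hR hp hpu
  have h2 := Lv_ne hK h hp hpu
  set c : ℤ × ℤ := Lv u p with hc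
  have h3 : (p : ℤ) ∣ (R.1 * c.1 + R.2.1 * c.2) ^ 2 + c.2 ^ 2 := by
    have e : (R.1 * c.1 + R.2.1 * c.2) ^ 2 + c.2 ^ 2 = R.1 * Rf R c := by
      unfold Rf qf
      linear_combination (-c.2 ^ 2) * hR.disc
    rw [e]
    exact Dvd.dvd.mul_left h1 _
  -- a square root of `-1`
  have h4 : ∃ y : ZMod p, y ^ 2 = -1 := by
    by_cases h5 : (p : ℤ) ∣ c.2
    · have h6 : ¬ (p : ℤ) ∣ c.1 := fun h6 => h2 ⟨h6, h5⟩
      have hpp : Prime (p : ℤ) := Nat.prime_iff_prime_int.1 hp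
      have h7 : (p : ℤ) ∣ (R.1 * c.1 + R.2.1 * c.2) ^ 2 :=
        (dvd_add_left (Dvd.dvd.pow h5 (by norm_num))).1 h3
      have h8 : (p : ℤ) ∣ R.1 * c.1 :=
        (dvd_add_left (Dvd.dvd.mul_left h5 _)).1 (hpp.dvd_of_dvd_pow h7)
      have h9 : (p : ℤ) ∣ R.1 := (hpp.dvd_or_dvd h8).resolve_right h6
      refine ⟨(R.2.1 : ZMod p), ?_⟩
      have e := congrArg (Int.cast : ℤ → ZMod p) hR.disc
      push_cast at e
      have e9 : ((R.1 : ℤ) : ZMod p) = 0 := (ZMod.intCast_zmod_eq_zero_iff_dvd _ _).2 h9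
      rw [e9, zero_mul, zero_sub] at e
      rw [← e, neg_neg]
    · have h6 : ((c.2 : ℤ) : ZMod p) ≠ 0 := fun h6 =>
        h5 ((ZMod.intCast_zmod_eq_zero_iff_dvd _ _).1 h6)
      refine ⟨((R.1 * c.1 + R.2.1 * c.2 : ℤ) : ZMod p) / ((c.2 : ℤ) : ZMod p), ?_⟩
      have e := (ZMod.intCast_zmod_eq_zero_iff_dvd _ _).2 h3
      push_cast at e ⊢
      rw [div_pow, div_eq_iff (pow_ne_zero 2 h6)]
      linear_combination e
  obtain ⟨y, hy⟩ := h4
  have h5 := ZMod.mod_four_ne_three_of_sq_eq_neg_one hy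
  have h6 : p % 2 = 1 := by
    rcases hp.eq_two_or_odd with h6 | h6
    · omega
    · exact h6
  omega

end Pool.Agent.PENK

namespace Pool.Agent.PENK

theorem over_Lv : type_of% @over_Lv_pr := @over_Lv_pr

theorem over_one4 : type_of% @over_one4_pr := @over_one4_pr

end Pool.Agent.PENK
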