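import Pool.Agent.Lib_helper18.PENK.Defs2
import Pool.Agent.Lib_helper18.PENKF.DefsW
import Pool.Agent.Lib_helper18.PENKF.PB1

set_option autoImplicit false

namespace Pool.Agent.PENK

open Finset Pool.Agent.PENT

theorem pd2_symm (a b : ℤ × ℤ) : (dt a b).natAbs = (dt b a).natAbs := by
  have : dt a b = -(dt b a) := by unfold dt; ring
  rw [this, Int.natAbs_neg]

theorem cop13_pr {q : Par 5} {x : ℝ} {P0 : ℕ} {u : PolyK 5} (h : IsPoly q x P0 u) :
    Nat.Coprime (dt (u 1) (u 3)).natAbs (dn u 0) ∧ Nat.Coprime (dt (u 1) (u 3)).natAbs (dn u 1) ∧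
      Nat.Coprime (dt (u 1) (u 3)).natAbs (dn u 2) ∧
      Nat.Coprime (dt (u 1) (u 3)).natAbs (dt (u 0) (u 3)).natAbs := by
  have h0 : Nat.Coprime (dn u 0) (dt (u 1) (u 3)).natAbs :=
    IsPoly.nd' (le_refl 5) h 0 3 (by decide) (by decide)
  have h1 : Nat.Coprime (dn u 1) (dt (u 1) (u 3)).natAbs := h.nd 1 3 (by decide) (by decide)
  have h2 : Nat.Coprime (dn u 2) (dt (u 1) (u 3)).natAbs := by
    have := IsPoly.nd' (le_refl 5) h 2 1 (by decide) (by decide)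
    rw [pd2_symm (u 1) (u 3)]
    exact this
  refine ⟨h0.symm, h1.symm, h2.symm, ?_⟩
  refine Nat.coprime_of_dvd fun p hp h13 h03 => ?_
  have hpp : Prime (p : ℤ) := Nat.prime_iff_prime_int.mp hp
  have a13 : (p : ℤ) ∣ dt (u 1) (u 3) := Int.natCast_dvd.mpr h13
  have a03 : (p : ℤ) ∣ dt (u 0) (u 3) := Int.natCast_dvd.mpr h03
  have n0 : ¬ (p : ℤ) ∣ dt (u 0) (u 1) := by
    intro hd
    have hd' : p ∣ dn u 0 := Int.natCast_dvd.mp hd
    exact hp.one_lt.ne' (Nat.dvd_one.mp (h0 ▸ Nat.dvd_gcd hd' h13))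
  have c1 : (p : ℤ) ∣ dt (u 0) (u 1) * (u 3).1 := by
    have e : dt (u 0) (u 1) * (u 3).1 =
        dt (u 0) (u 3) * (u 1).1 - dt (u 1) (u 3) * (u 0).1 := by unfold dt; ring
    rw [e]
    exact dvd_sub (Dvd.dvd.mul_right a03 _) (Dvd.dvd.mul_right a13 _)
  have c2 : (p : ℤ) ∣ dt (u 0) (u 1) * (u 3).2 := by
    have e : dt (u 0) (u 1) * (u 3).2 =
        dt (u 0) (u 3) * (u 1).2 - dt (u 1) (u 3) * (u 0).2 := by unfold dt; ring
    rw [e]
    exact dvd_sub (Dvd.dvd.mul_right a03 _) (Dvd.dvd.mul_right a13 _)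
  have d1 : (p : ℤ) ∣ (u 3).1 := (hpp.dvd_or_dvd c1).resolve_left n0
  have d2 : (p : ℤ) ∣ (u 3).2 := (hpp.dvd_or_dvd c2).resolve_left n0
  have e2 : p ∣ dn u 2 := by
    apply Int.natCast_dvd.mp
    have : dl u 2 = (u 2).1 * (u 3).2 - (u 2).2 * (u 3).1 := rfl
    rw [this]
    exact dvd_sub (Dvd.dvd.mul_left d2 _) (Dvd.dvd.mul_left d1 _)
  have e3 : p ∣ dn u 3 := by
    apply Int.natCast_dvd.mp
    have : dl u 3 = (u 3).1 * (u 4).2 - (u 3).2 * (u 4).1 := rfl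
    rw [this]
    exact dvd_sub (Dvd.dvd.mul_right d1 _) (Dvd.dvd.mul_right d2 _)
  have := h.co 2 3 (by decide)
  exact hp.one_lt.ne' (Nat.dvd_one.mp (this ▸ Nat.dvd_gcd e2 e3))

theorem cop03_pr {q : Par 5} {x : ℝ} {P0 : ℕ} {u : PolyK 5} (h : IsPoly q x P0 u) :
    Nat.Coprime (dt (u 0) (u 3)).natAbs (dn u 0) ∧ Nat.Coprime (dt (u 0) (u 3)).natAbs (dn u 3) ∧
      Nat.Coprime (dt (u 0) (u 3)).natAbs (dn u 4) := by
  have h0 : Nat.Coprime (dn u 0) (dt (u 0) (u 3)).natAbs := h.nd 0 3 (by decide) (by decide)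
  have h3 : Nat.Coprime (dn u 3) (dt (u 0) (u 3)).natAbs := by
    have := h.nd 3 0 (by decide) (by decide)
    rw [pd2_symm (u 0) (u 3)]
    exact this
  have h4 : Nat.Coprime (dn u 4) (dt (u 0) (u 3)).natAbs :=
    IsPoly.nd' (le_refl 5) h 4 3 (by decide) (by decide)
  exact ⟨h0.symm, h3.symm, h4.symm⟩

theorem cop24_pr {q : Par 5} {x : ℝ} {P0 : ℕ} {u : PolyK 5} (h : IsPoly q x P0 u) :
    Nat.Coprime (dt (u 2) (u 4)).natAbs (dn u 2) ∧
      Nat.Coprime (dt (u 2) (u 4)).natAbs (dn u 3) := by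
  have h2 : Nat.Coprime (dn u 2) (dt (u 2) (u 4)).natAbs := h.nd 2 4 (by decide) (by decide)
  have h3 : Nat.Coprime (dn u 3) (dt (u 2) (u 4)).natAbs := by
    have := IsPoly.nd' (le_refl 5) h 3 2 (by decide) (by decide)
    rw [pd2_symm (u 2) (u 4)]
    exact this
  exact ⟨h2.symm, h3.symm⟩

theorem cv_prim_pr {q : Par 5} {x : ℝ} {P0 : ℕ} {u : PolyK 5} (h : IsPoly q x P0 u) (k : Fin 5)
    (hk : k ∈ ivr 5) : Int.gcd (cv u k).1 (cv u k).2 = 1 := by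
  have hk' : k ≠ 0 ∧ k ≠ 1 := (Finset.mem_filter.mp hk).2
  have hc : k = 2 ∨ k = 3 ∨ k = 4 := by
    revert hk'
    revert k
    decide
  show Nat.Coprime (dt (u k) (u 1)).natAbs (dt (u 0) (u k)).natAbs
  rcases hc with rfl | rfl | rfl
  · have := IsPoly.nd' (le_refl 5) h 1 0 (by decide) (by decide)
    rw [pd2_symm (u 2) (u 1), pd2_symm (u 0) (u 2)]
    exact this
  · rw [pd2_symm (u 3) (u 1)]
    exact (cop13_pr h).2.2.2
  · have := h.nd 4 1 (by decide) (by decide)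
    rw [pd2_symm (u 0) (u 4)]
    exact this.symm

end Pool.Agent.PENK

namespace Pool.Agent.PENK

theorem cv_prim : type_of% @cv_prim_pr := @cv_prim_pr

theorem cop13 : type_of% @cop13_pr := @cop13_pr

theorem cop03 : type_of% @cop03_pr := @cop03_pr

theorem cop24 : type_of% @cop24_pr := @cop24_pr

end Pool.Agent.PENK
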