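import Pool.Agent.Lib_helper18.PENK.Defs2

set_option autoImplicit false

namespace Pool.Agent.PENK

open Finset Pool.Agent.PENT

theorem pd3_dl0 (u : PolyK 5) : dl u 0 = dt (u 0) (u 1) := rfl

theorem pd3_dl1 (u : PolyK 5) : dl u 1 = dt (u 1) (u 2) := rfl

theorem pd3_dl2 (u : PolyK 5) : dl u 2 = dt (u 2) (u 3) := rfl

theorem pd3_dl3 (u : PolyK 5) : dl u 3 = dt (u 3) (u 4) := rfl

theorem pd3_dl4 (u : PolyK 5) : dl u 4 = dt (u 4) (u 0) := rfl

theorem plu1_pr (u : PolyK 5) : dt (u 0) (u 2) * dt (u 1) (u 3) =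
    dl u 0 * dl u 2 + dl u 1 * dt (u 0) (u 3) := by
  rw [pd3_dl0, pd3_dl1, pd3_dl2]
  unfold dt
  ring

theorem plu2_pr (u : PolyK 5) : dt (u 0) (u 3) * dt (u 1) (u 4) =
    dl u 0 * dl u 3 - dl u 4 * dt (u 1) (u 3) := by
  rw [pd3_dl0, pd3_dl3, pd3_dl4]
  unfold dt
  ring

theorem plu3_pr (u : PolyK 5) : dl u 0 * dt (u 2) (u 4) =
    dt (u 0) (u 2) * dt (u 1) (u 4) + dl u 1 * dl u 4 := by
  rw [pd3_dl0, pd3_dl1, pd3_dl4]
  unfold dt
  ring

theorem plu4_pr (u : PolyK 5) : dt (u 2) (u 4) * (cv u 3).1 = dl u 3 * (cv u 2).1 + dl u 2 * (cv u 4).1 ∧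
    dt (u 2) (u 4) * (cv u 3).2 = dl u 3 * (cv u 2).2 + dl u 2 * (cv u 4).2 := by
  rw [pd3_dl2, pd3_dl3]
  unfold cv dt
  constructor
  · ring
  · ring

theorem pd3_neg (a b : ℤ × ℤ) : dt a b = -dt b a := by
  unfold dt
  ring

theorem pd3_self (a : ℤ × ℤ) : dt a a = 0 := by
  unfold dt
  ring

theorem pd3_same {u v : PolyK 5} (h01 : dt (u 0) (u 1) = dt (v 0) (v 1))
    (h02 : dt (u 0) (u 2) = dt (v 0) (v 2)) (h03 : dt (u 0) (u 3) = dt (v 0) (v 3))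
    (h04 : dt (u 0) (u 4) = dt (v 0) (v 4)) (h12 : dt (u 1) (u 2) = dt (v 1) (v 2))
    (h13 : dt (u 1) (u 3) = dt (v 1) (v 3)) (h14 : dt (u 1) (u 4) = dt (v 1) (v 4))
    (h23 : dt (u 2) (u 3) = dt (v 2) (v 3)) (h24 : dt (u 2) (u 4) = dt (v 2) (v 4))
    (h34 : dt (u 3) (u 4) = dt (v 3) (v 4)) : SameD u v := by
  have key : ∀ i j : Fin 5, i < j → dt (u i) (u j) = dt (v i) (v j) := by
    intro i j hij
    fin_cases i <;> fin_cases j <;> first | exact absurd hij (by decide) | assumption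
  intro i j
  rcases lt_trichotomy i j with h | h | h
  · exact key i j h
  · subst h
    rw [pd3_self, pd3_self]
  · rw [pd3_neg (u i), pd3_neg (v i), key j i h]

/-- reconstruction of the determinants -/
theorem same_of_data1_pr {u v : PolyK 5} (h0 : dl u 0 ≠ 0) (h13 : dt (u 1) (u 3) ≠ 0)
    (h03 : dt (u 0) (u 3) ≠ 0) (hd : ∀ j, dl u j = dl v j)
    (e13 : dt (u 1) (u 3) = dt (v 1) (v 3)) (e03 : dt (u 0) (u 3) = dt (v 0) (v 3)) :
    SameD u v := by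
  have e02 : dt (u 0) (u 2) = dt (v 0) (v 2) := by
    have a := plu1_pr u
    have b := plu1_pr v
    rw [← hd 0, ← hd 1, ← hd 2, ← e13, ← e03] at b
    exact mul_right_cancel₀ h13 (a.trans b.symm)
  have e14 : dt (u 1) (u 4) = dt (v 1) (v 4) := by
    have a := plu2_pr u
    have b := plu2_pr v
    rw [← hd 0, ← hd 3, ← hd 4, ← e13, ← e03] at b
    exact mul_left_cancel₀ h03 (a.trans b.symm)
  have e24 : dt (u 2) (u 4) = dt (v 2) (v 4) := by
    have a := plu3_pr u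
    have b := plu3_pr v
    rw [← hd 0, ← hd 1, ← hd 4, ← e02, ← e14] at b
    exact mul_left_cancel₀ h0 (a.trans b.symm)
  have d4 := hd 4
  rw [pd3_dl4, pd3_dl4] at d4
  refine pd3_same (hd 0) e02 e03 ?_ (hd 1) e13 e14 (hd 2) e24 (hd 3)
  rw [pd3_neg (u 0), pd3_neg (v 0), d4]

theorem same_of_data2_pr {u v : PolyK 5} (h0 : dl u 0 ≠ 0) (h24 : dt (u 2) (u 4) ≠ 0)
    (e2 : cv u 2 = cv v 2) (e4 : cv u 4 = cv v 4) (d0 : dl u 0 = dl v 0) (d2 : dl u 2 = dl v 2)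
    (d3 : dl u 3 = dl v 3) : SameD u v := by
  have a1 : dt (u 2) (u 1) = dt (v 2) (v 1) := congrArg Prod.fst e2
  have a2 : dt (u 0) (u 2) = dt (v 0) (v 2) := congrArg Prod.snd e2
  have b1 : dt (u 4) (u 1) = dt (v 4) (v 1) := congrArg Prod.fst e4
  have b2 : dt (u 0) (u 4) = dt (v 0) (v 4) := congrArg Prod.snd e4
  have e12 : dt (u 1) (u 2) = dt (v 1) (v 2) := by rw [pd3_neg (u 1), pd3_neg (v 1), a1]
  have e14 : dt (u 1) (u 4) = dt (v 1) (v 4) := by rw [pd3_neg (u 1), pd3_neg (v 1), b1]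
  have e40 : dt (u 4) (u 0) = dt (v 4) (v 0) := by rw [pd3_neg (u 4), pd3_neg (v 4), b2]
  have e24 : dt (u 2) (u 4) = dt (v 2) (v 4) := by
    have a := plu3_pr u
    have b := plu3_pr v
    rw [pd3_dl1, pd3_dl4] at a b
    rw [← d0, ← a2, ← e14, ← e12, ← e40] at b
    exact mul_left_cancel₀ h0 (a.trans b.symm)
  have p := plu4_pr u
  have r := plu4_pr v
  rw [← e24, ← d3, ← d2, ← e2, ← e4] at r
  have c1 : dt (u 3) (u 1) = dt (v 3) (v 1) := mul_left_cancel₀ h24 (p.1.trans r.1.symm)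
  have c2 : dt (u 0) (u 3) = dt (v 0) (v 3) := mul_left_cancel₀ h24 (p.2.trans r.2.symm)
  have e13 : dt (u 1) (u 3) = dt (v 1) (v 3) := by rw [pd3_neg (u 1), pd3_neg (v 1), c1]
  exact pd3_same d0 a2 c2 b2 e12 e13 e14 d2 e24 d3

end Pool.Agent.PENK

namespace Pool.Agent.PENK

theorem plu1 : type_of% @plu1_pr := @plu1_pr

theorem plu2 : type_of% @plu2_pr := @plu2_pr

theorem plu3 : type_of% @plu3_pr := @plu3_pr

theorem plu4 : type_of% @plu4_pr := @plu4_pr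

theorem same_of_data1 : type_of% @same_of_data1_pr := @same_of_data1_pr

theorem same_of_data2 : type_of% @same_of_data2_pr := @same_of_data2_pr

end Pool.Agent.PENK
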