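import Pool.Agent.Lib_helper18.PENK.Defs2
import Pool.Agent.Lib_helper18.PENKF.DefsW
import Pool.Agent.Lib_helper18.PENKF.PD1
import Pool.Agent.Lib_helper18.PENKF.PD2
import Pool.Agent.Lib_helper18.PENKF.PD3

/-! Block `PD10` (project PENK, part 3), helper42. -/

set_option autoImplicit false

namespace Pool.Agent.PENK

open Finset Pool.Agent.PENT

theorem pd10_dt_cv (u : PolyK 5) : dt (cv u 2) (cv u 4) = dl u 0 * dt (u 2) (u 4) := by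
  rw [plu3 u]
  have e1 : dl u 1 = dt (u 1) (u 2) := rfl
  have e4 : dl u 4 = dt (u 4) (u 0) := rfl
  rw [e1, e4]
  unfold cv dt
  simp only
  ring

theorem pd10_dt_le (v w : ℤ × ℤ) : (dt v w).natAbs ≤ nr v * nr w := by
  unfold dt nr
  calc (v.1 * w.2 - v.2 * w.1).natAbs ≤ (v.1 * w.2).natAbs + (v.2 * w.1).natAbs :=
        Int.natAbs_sub_le _ _
    _ = v.1.natAbs * w.2.natAbs + v.2.natAbs * w.1.natAbs := by
        rw [Int.natAbs_mul, Int.natAbs_mul]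
    _ ≤ (v.1.natAbs + v.2.natAbs) * (w.1.natAbs + w.2.natAbs) := by nlinarith [Nat.zero_le (v.1.natAbs * w.1.natAbs), Nat.zero_le (v.2.natAbs * w.2.natAbs)]

theorem pd10_dt_ne {q : Par 5} {x : ℝ} {P0 : ℕ} {u : PolyK 5} (h : IsPoly q x P0 u)
    (i j : Fin 5) (hij : i ≠ j) : dt (u i) (u j) ≠ 0 := by
  intro h0
  have := h.sg i j hij
  rw [h0] at this
  simp at this

theorem pd10_box (i j : ℕ) {a b : ℤ × ℤ} (ha : nr a < 2 ^ (i + 1)) (hb : nr b < 2 ^ (j + 1)) :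
    (dt a b).natAbs ≤ 4 * 2 ^ i * 2 ^ j := by
  have h1 := pd10_dt_le a b
  have h2 : nr a * nr b ≤ 2 ^ (i + 1) * 2 ^ (j + 1) := Nat.mul_le_mul ha.le hb.le
  calc (dt a b).natAbs ≤ nr a * nr b := h1
    _ ≤ 2 ^ (i + 1) * 2 ^ (j + 1) := h2
    _ = 4 * 2 ^ i * 2 ^ j := by ring

theorem b1_c3_pr (q : Par 5) (hq : q.Ok) {x : ℝ} {P0 : ℕ} {u : PolyK 5}
    (i : Fin 5 → ℕ) (G0 G1 G2 G3 G4 : ℕ) (S : Finset (PolyK 5))
    (hS : ∀ v ∈ S, B1S q x P0 u i G0 G1 G2 G3 G4 v)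
    (hc : ∀ v ∈ S, ∀ w ∈ S, cv v 2 = cv w 2 ∧ cv v 4 = cv w 4 ∧ dl v 0 = dl w 0) :
    ((S.image (fun v => (dl v 2, dl v 3))).card : ℝ) ≤
      (128 / q.c3) * ((2 ^ i 3) ^ 2 / ((G2 : ℝ) * G3) + 1) := by
  classical
  have hc3 := hq.c30
  have hc31 := hq.c31
  rcases S.eq_empty_or_nonempty with he | ⟨v0, hv0⟩
  · subst he
    simp only [Finset.image_empty, Finset.card_empty, Nat.cast_zero]
    positivity
  set X : ℤ := dt (v0 2) (v0 4) with hX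
  have hX0 : X ≠ 0 := pd10_dt_ne (hS v0 hv0).poly 2 4 (by decide)
  have hXall : ∀ v ∈ S, dt (v 2) (v 4) = X := by
    intro v hv
    obtain ⟨h1, h2, h3⟩ := hc v hv v0 hv0
    have e1 := pd10_dt_cv v
    have e2 := pd10_dt_cv v0
    rw [h1, h2, h3, e2] at e1
    exact (mul_left_cancel₀ (pd10_dt_ne (hS v0 hv0).poly 0 1 (by decide)) e1).symm
  have hG2 : G2 ≠ 0 := by
    intro h0
    have := (hS v0 hv0).g2
    rw [h0, Nat.zero_dvd] at this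
    have h1 : dt (v0 2) (v0 3) = 0 := Int.natAbs_eq_zero.1 this
    exact pd10_dt_ne (hS v0 hv0).poly 2 3 (by decide) h1
  have hG3 : G3 ≠ 0 := by
    intro h0
    have := (hS v0 hv0).g3
    rw [h0, Nat.zero_dvd] at this
    have h1 : dt (v0 3) (v0 4) = 0 := Int.natAbs_eq_zero.1 this
    exact pd10_dt_ne (hS v0 hv0).poly 3 4 (by decide) h1
  have hco : ∀ v ∈ S, Nat.Coprime (dn v 2) (dn v 3) := fun v hv =>
    (hS v hv).poly.co 2 3 (by decide)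
  have hG23 : Nat.Coprime G2 G3 :=
    Nat.Coprime.coprime_dvd_left (hS v0 hv0).g2
      (Nat.Coprime.coprime_dvd_right (hS v0 hv0).g3 (hco v0 hv0))
  have hXG2 : Nat.Coprime X.natAbs G2 :=
    Nat.Coprime.coprime_dvd_right (hS v0 hv0).g2 (cop24 (hS v0 hv0).poly).1
  have hXG3 : Nat.Coprime X.natAbs G3 :=
    Nat.Coprime.coprime_dvd_right (hS v0 hv0).g3 (cop24 (hS v0 hv0).poly).2
  have hprim := cv_prim (hS v0 hv0).poly 2 (by decide)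
  have hN1 : 1 ≤ X.natAbs := Nat.one_le_iff_ne_zero.2 (Int.natAbs_ne_zero.2 hX0)
  -- the lattice lemma
  have hlat := lattice_lemma (S.image (fun v => (dl v 2, dl v 3))) (4 * 2 ^ i 2 * 2 ^ i 3)
    (4 * 2 ^ i 3 * 2 ^ i 4) (X.natAbs * (G2 * G3))
    (Nat.one_le_iff_ne_zero.2 (by positivity)) (Nat.one_le_iff_ne_zero.2 (by positivity))
    (Nat.one_le_iff_ne_zero.2 (Nat.mul_ne_zero (by omega) (Nat.mul_ne_zero hG2 hG3)))
    (by
      intro z hz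
      obtain ⟨v, hv, rfl⟩ := Finset.mem_image.1 hz
      exact hco v hv)
    (by
      intro z hz
      obtain ⟨v, hv, rfl⟩ := Finset.mem_image.1 hz
      exact pd10_box _ _ ((hS v hv).siz 2).2 ((hS v hv).siz 3).2)
    (by
      intro z hz
      obtain ⟨v, hv, rfl⟩ := Finset.mem_image.1 hz
      exact pd10_box _ _ ((hS v hv).siz 3).2 ((hS v hv).siz 4).2)
    (by
      intro z hz z' hz'
      obtain ⟨v, hv, rfl⟩ := Finset.mem_image.1 hz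
      obtain ⟨w, hw, rfl⟩ := Finset.mem_image.1 hz'
      have hd : dt (dl v 2, dl v 3) (dl w 2, dl w 3) = dl v 2 * dl w 3 - dl v 3 * dl w 2 := rfl
      rw [hd]
      have p1 := plu4 v
      have p2 := plu4 w
      rw [hXall v hv, (hc v hv v0 hv0).1, (hc v hv v0 hv0).2.1] at p1
      rw [hXall w hw, (hc w hw v0 hv0).1, (hc w hw v0 hv0).2.1] at p2
      have q1 : X ∣ (dl v 2 * dl w 3 - dl v 3 * dl w 2) * (cv v0 2).1 :=
        ⟨(cv w 3).1 * dl v 2 - (cv v 3).1 * dl w 2, by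
          linear_combination dl w 2 * p1.1 - dl v 2 * p2.1⟩
      have q2 : X ∣ (dl v 2 * dl w 3 - dl v 3 * dl w 2) * (cv v0 2).2 :=
        ⟨(cv w 3).2 * dl v 2 - (cv v 3).2 * dl w 2, by
          linear_combination dl w 2 * p1.2 - dl v 2 * p2.2⟩
      have q3 : X ∣ (dl v 2 * dl w 3 - dl v 3 * dl w 2) := by
        have hb := Int.gcd_eq_gcd_ab (cv v0 2).1 (cv v0 2).2
        rw [hprim] at hb
        have : (dl v 2 * dl w 3 - dl v 3 * dl w 2) =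
            (dl v 2 * dl w 3 - dl v 3 * dl w 2) * (cv v0 2).1 *
              Int.gcdA (cv v0 2).1 (cv v0 2).2 +
            (dl v 2 * dl w 3 - dl v 3 * dl w 2) * (cv v0 2).2 *
              Int.gcdB (cv v0 2).1 (cv v0 2).2 := by
          have hb' : (1 : ℤ) = (cv v0 2).1 * Int.gcdA (cv v0 2).1 (cv v0 2).2 +
            (cv v0 2).2 * Int.gcdB (cv v0 2).1 (cv v0 2).2 := by exact_mod_cast hb
          linear_combination (dl v 2 * dl w 3 - dl v 3 * dl w 2) * hb'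
        rw [this]
        exact dvd_add (Dvd.dvd.mul_right q1 _) (Dvd.dvd.mul_right q2 _)
      have q4 : X.natAbs ∣ (dl v 2 * dl w 3 - dl v 3 * dl w 2).natAbs := Int.natAbs_dvd_natAbs.2 q3
      have r2v : (G2 : ℤ) ∣ dl v 2 := Int.natCast_dvd.2 (hS v hv).g2
      have r2w : (G2 : ℤ) ∣ dl w 2 := Int.natCast_dvd.2 (hS w hw).g2
      have r3v : (G3 : ℤ) ∣ dl v 3 := Int.natCast_dvd.2 (hS v hv).g3
      have r3w : (G3 : ℤ) ∣ dl w 3 := Int.natCast_dvd.2 (hS w hw).g3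
      have s2 : G2 ∣ (dl v 2 * dl w 3 - dl v 3 * dl w 2).natAbs :=
        Int.natCast_dvd.1 (dvd_sub (Dvd.dvd.mul_right r2v _) (Dvd.dvd.mul_left r2w _))
      have s3 : G3 ∣ (dl v 2 * dl w 3 - dl v 3 * dl w 2).natAbs :=
        Int.natCast_dvd.1 (dvd_sub (Dvd.dvd.mul_left r3w _) (Dvd.dvd.mul_right r3v _))
      have s23 : G2 * G3 ∣ (dl v 2 * dl w 3 - dl v 3 * dl w 2).natAbs :=
        hG23.mul_dvd_of_dvd_of_dvd s2 s3
      exact Int.natCast_dvd.2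
        ((Nat.Coprime.mul_right hXG2 hXG3).mul_dvd_of_dvd_of_dvd q4 s23))
  -- the size of `X`
  have hXlow : q.c3 * (2 ^ i 2 : ℝ) * 2 ^ i 4 ≤ (X.natAbs : ℝ) := by
    have h1 := (hS v0 hv0).sep 2 4 (by decide)
    have h2 : ((2 ^ i 2 : ℕ) : ℝ) ≤ nr (v0 2) := by exact_mod_cast ((hS v0 hv0).siz 2).1
    have h3 : ((2 ^ i 4 : ℕ) : ℝ) ≤ nr (v0 4) := by exact_mod_cast ((hS v0 hv0).siz 4).1
    push_cast at h2 h3
    have h4 : |((dt (v0 2) (v0 4) : ℤ) : ℝ)| = (X.natAbs : ℝ) := by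
      rw [← hX, Nat.cast_natAbs, Int.cast_abs]
    rw [h4] at h1
    refine le_trans ?_ h1
    have h5 : (2 ^ i 2 : ℝ) * 2 ^ i 4 ≤ nr (v0 2) * nr (v0 4) :=
      mul_le_mul h2 h3 (by positivity) (by positivity)
    calc q.c3 * (2 ^ i 2 : ℝ) * 2 ^ i 4 = q.c3 * ((2 ^ i 2 : ℝ) * 2 ^ i 4) := by ring
      _ ≤ q.c3 * (nr (v0 2) * nr (v0 4)) := mul_le_mul_of_nonneg_left h5 hc3.le
      _ = q.c3 * nr (v0 2) * nr (v0 4) := by ring
  have hXpos : (0 : ℝ) < (X.natAbs : ℝ) := by exact_mod_cast hN1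
  have hG2' : (0 : ℝ) < G2 := by exact_mod_cast Nat.pos_of_ne_zero hG2
  have hG3' : (0 : ℝ) < G3 := by exact_mod_cast Nat.pos_of_ne_zero hG3
  refine hlat.trans ?_
  push_cast
  have main : 8 * (4 * 2 ^ i 2 * 2 ^ i 3) * (4 * 2 ^ i 3 * 2 ^ i 4) /
      ((X.natAbs : ℝ) * ((G2 : ℝ) * G3)) ≤ (128 / q.c3) * ((2 ^ i 3) ^ 2 / ((G2 : ℝ) * G3)) := by
    rw [div_le_iff₀ (by positivity)]
    have e : (128 / q.c3) * ((2 ^ i 3) ^ 2 / ((G2 : ℝ) * G3)) * ((X.natAbs : ℝ) * ((G2 : ℝ) * G3)) =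
        128 / q.c3 * (2 ^ i 3) ^ 2 * (X.natAbs : ℝ) := by
      field_simp
    rw [e]
    have e2 : (8 * (4 * 2 ^ i 2 * 2 ^ i 3) * (4 * 2 ^ i 3 * 2 ^ i 4) : ℝ) =
        128 / q.c3 * (2 ^ i 3) ^ 2 * (q.c3 * (2 ^ i 2 : ℝ) * 2 ^ i 4) := by
      field_simp
      ring
    rw [e2]
    exact mul_le_mul_of_nonneg_left hXlow (by positivity)
  have h6 : (6 : ℝ) ≤ 128 / q.c3 := by
    rw [le_div_iff₀ hc3]
    nlinarith
  have e3 : (128 / q.c3) * ((2 ^ i 3) ^ 2 / ((G2 : ℝ) * G3) + 1) =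
      (128 / q.c3) * ((2 ^ i 3) ^ 2 / ((G2 : ℝ) * G3)) + 128 / q.c3 := by ring
  rw [e3]
  have e4 : ((4 * 2 ^ i 2 * 2 ^ i 3 : ℝ)) = (4 * 2 ^ i 2 * 2 ^ i 3 : ℝ) := rfl
  linarith [main, h6]

end Pool.Agent.PENK

namespace Pool.Agent.PENK

theorem b1_c3 : type_of% @b1_c3_pr := @b1_c3_pr

end Pool.Agent.PENK
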