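import Mathlib
import Pool.Agent.Lib_helper18.PENK.Defs2

set_option autoImplicit false

namespace Pool.Agent.PENK

open Finset Pool.Agent.PENT

theorem pd4_nr (v : ℤ × ℤ) : (nr v : ℝ) = |(v.1 : ℝ)| + |(v.2 : ℝ)| := by
  unfold nr
  push_cast
  rw [Nat.cast_natAbs, Nat.cast_natAbs]
  push_cast
  rfl

theorem pd4_nr0 (v : ℤ × ℤ) : (0 : ℝ) ≤ (nr v : ℝ) := Nat.cast_nonneg _

/-- `|a b - c d|` for entries of two vectors -/
theorem pd4_two (a b : ℤ × ℤ) (x y z w : ℝ) (hx : |x| ≤ nr a) (hy : |y| ≤ nr b)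
    (hz : |z| ≤ nr a) (hw : |w| ≤ nr b) : |x * y - z * w| ≤ 2 * ((nr a : ℝ) * nr b) := by
  have h1 : |x * y| ≤ (nr a : ℝ) * nr b := by
    rw [abs_mul]
    exact mul_le_mul hx hy (abs_nonneg _) (pd4_nr0 _)
  have h2 : |z * w| ≤ (nr a : ℝ) * nr b := by
    rw [abs_mul]
    exact mul_le_mul hz hw (abs_nonneg _) (pd4_nr0 _)
  have h3 := abs_sub (x * y) (z * w)
  linarith

theorem pd4_dt (a b : ℤ × ℤ) : |(dt a b : ℝ)| ≤ (nr a : ℝ) * nr b := by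
  rw [pd4_nr, pd4_nr]
  unfold dt
  push_cast
  have h1 := abs_sub ((a.1 : ℝ) * b.2) ((a.2 : ℝ) * b.1)
  rw [abs_mul, abs_mul] at h1
  have p1 := abs_nonneg (a.1 : ℝ)
  have p2 := abs_nonneg (a.2 : ℝ)
  have p3 := abs_nonneg (b.1 : ℝ)
  have p4 := abs_nonneg (b.2 : ℝ)
  nlinarith [mul_nonneg p1 p3, mul_nonneg p2 p4]

/-- the real inequality -/
theorem pd4_real {t a b c A B C : ℝ} (ht : 0 < t) (ht1 : t ≤ 1) (ha : 0 ≤ a) (_hb : 0 ≤ b)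
    (hc : 0 ≤ c) (hA : 0 ≤ A) (hB : 0 < B) (hC : 0 < C) (h1 : t * a * b ≤ A * B)
    (h2 : t * a * c ≤ A * C) (h3 : t * B * C ≤ b * c) : a * t ^ 2 ≤ A := by
  have h4 : (t * a * b) * (t * a * c) ≤ (A * B) * (A * C) :=
    mul_le_mul h1 h2 (by positivity) (by positivity)
  have h5 : (t * a) ^ 2 * (t * B * C) ≤ (t * a) ^ 2 * (b * c) :=
    mul_le_mul_of_nonneg_left h3 (by positivity)
  have h6 : (t ^ 3 * a ^ 2) * (B * C) ≤ A ^ 2 * (B * C) := by nlinarith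
  have h7 : t ^ 3 * a ^ 2 ≤ A ^ 2 := le_of_mul_le_mul_right h6 (by positivity)
  have h8 : (a * t ^ 2) ^ 2 ≤ A ^ 2 := by
    have h9 : (a * t ^ 2) ^ 2 = t * (t ^ 3 * a ^ 2) := by ring
    rw [h9]
    have h10 : 0 ≤ t ^ 3 * a ^ 2 := by positivity
    nlinarith
  exact le_of_sq_le_sq h8 hA

/-- comparison of the norms -/
theorem pd4_cmp {q : Par 5} (hq : q.Ok) {u v : PolyK 5} (su : Sep q u) (sv : Sep q v)
    (h : SameD u v) (j i k : Fin 5) (hji : j ≠ i) (hjk : j ≠ k) (hik : i ≠ k)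
    (hi : 0 < (nr (u i) : ℝ)) (hk : 0 < (nr (u k) : ℝ)) :
    (nr (v j) : ℝ) * q.c3 ^ 2 ≤ nr (u j) := by
  have s1 := sv j i hji
  have s2 := sv j k hjk
  have s3 := su i k hik
  rw [← h j i] at s1
  rw [← h j k] at s2
  rw [h i k] at s3
  have d1 := pd4_dt (u j) (u i)
  have d2 := pd4_dt (u j) (u k)
  have d3 := pd4_dt (v i) (v k)
  exact pd4_real hq.c30 hq.c31 (pd4_nr0 _) (pd4_nr0 (v i)) (pd4_nr0 (v k)) (pd4_nr0 _) hi hk
    (s1.trans d1) (s2.trans d2) (s3.trans d3)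

/-- positivity of the norm of a vector of nonzero determinant -/
theorem pd4_pos {a b : ℤ × ℤ} (h : dt a b ≠ 0) : 0 < (nr a : ℝ) ∧ 0 < (nr b : ℝ) := by
  have h1 := pd4_dt a b
  have h2 : 0 < |(dt a b : ℝ)| := abs_pos.2 (by exact_mod_cast h)
  have h3 : 0 < (nr a : ℝ) * nr b := lt_of_lt_of_le h2 h1
  have p1 := pd4_nr0 a
  have p2 := pd4_nr0 b
  constructor
  · rcases p1.lt_or_eq with h4 | h4
    · exact h4
    · rw [← h4, zero_mul] at h3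
      exact absurd h3 (lt_irrefl _)
  · rcases p2.lt_or_eq with h4 | h4
    · exact h4
    · rw [← h4, mul_zero] at h3
      exact absurd h3 (lt_irrefl _)

/-- the four entries of `[v_0 v_1] adj [u_0 u_1]` -/
def pd4_N (u v : PolyK 5) : (ℤ × ℤ) × (ℤ × ℤ) :=
  (((v 0).1 * (u 1).2 - (v 1).1 * (u 0).2, (v 1).1 * (u 0).1 - (v 0).1 * (u 1).1),
    ((v 0).2 * (u 1).2 - (v 1).2 * (u 0).2, (v 1).2 * (u 0).1 - (v 0).2 * (u 1).1))

/-- integrality -/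
theorem pd4_dvd {u v : PolyK 5} (h : SameD u v) (hc : IsCoprime (dt (u 0) (u 1)) (dt (u 1) (u 2))) :
    (dt (u 0) (u 1) ∣ (pd4_N u v).1.1 ∧ dt (u 0) (u 1) ∣ (pd4_N u v).1.2) ∧
      (dt (u 0) (u 1) ∣ (pd4_N u v).2.1 ∧ dt (u 0) (u 1) ∣ (pd4_N u v).2.2) := by
  have h01 := h 0 1
  have h12 := h 1 2
  have h20 := h 2 0
  simp only [dt] at h01 h12 h20 hc ⊢
  simp only [pd4_N]
  refine ⟨⟨?_, ?_⟩, ⟨?_, ?_⟩⟩
  · refine hc.dvd_of_dvd_mul_left ⟨(v 1).1 * (u 2).2 - (v 2).1 * (u 1).2, ?_⟩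
    linear_combination ((u 1).2 * (v 0).1) * h12 + ((u 1).2 * (v 1).1) * h20 +
      ((u 1).2 * (v 2).1) * h01
  · refine hc.dvd_of_dvd_mul_left ⟨(v 2).1 * (u 1).1 - (v 1).1 * (u 2).1, ?_⟩
    linear_combination (-(u 1).1 * (v 0).1) * h12 - ((u 1).1 * (v 1).1) * h20 -
      ((u 1).1 * (v 2).1) * h01
  · refine hc.dvd_of_dvd_mul_left ⟨(v 1).2 * (u 2).2 - (v 2).2 * (u 1).2, ?_⟩
    linear_combination ((u 1).2 * (v 0).2) * h12 + ((u 1).2 * (v 1).2) * h20 +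
      ((u 1).2 * (v 2).2) * h01
  · refine hc.dvd_of_dvd_mul_left ⟨(v 2).2 * (u 1).1 - (v 1).2 * (u 2).1, ?_⟩
    linear_combination (-(u 1).1 * (v 0).2) * h12 - ((u 1).1 * (v 1).2) * h20 -
      ((u 1).1 * (v 2).2) * h01

/-- the vectors are determined by the matrix -/
theorem pd4_rec {u v : PolyK 5} (h : SameD u v) (j : Fin 5) :
    dt (u 0) (u 1) * (v j).1 = (pd4_N u v).1.1 * (u j).1 + (pd4_N u v).1.2 * (u j).2 ∧
    dt (u 0) (u 1) * (v j).2 = (pd4_N u v).2.1 * (u j).1 + (pd4_N u v).2.2 * (u j).2 := by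
  have h01 := h 0 1
  have h1 := h j 1
  have h0 := h 0 j
  simp only [dt] at h01 h1 h0 ⊢
  simp only [pd4_N]
  constructor
  · linear_combination (v j).1 * h01 - (v 0).1 * h1 - (v 1).1 * h0
  · linear_combination (v j).2 * h01 - (v 0).2 * h1 - (v 1).2 * h0

/-- bound for one entry -/
theorem pd4_entry {t : ℝ} (ht : 0 < t) {B : ℕ} (hB : 4 / t ^ 3 ≤ B) {D n : ℤ} (hD : D ≠ 0)
    (hdvd : D ∣ n) {U0 U1 : ℝ} (hDU : t * U0 * U1 ≤ |(D : ℝ)|)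
    (hn : |(n : ℝ)| * t ^ 2 ≤ 4 * (U0 * U1)) : n / D ∈ Icc (-(B : ℤ)) (B : ℤ) := by
  obtain ⟨m, rfl⟩ := hdvd
  rw [Int.mul_ediv_cancel_left _ hD]
  have hD' : 0 < |(D : ℝ)| := abs_pos.2 (by exact_mod_cast hD)
  have h1 : |((D * m : ℤ) : ℝ)| = |(D : ℝ)| * |(m : ℝ)| := by
    push_cast
    exact abs_mul _ _
  rw [h1] at hn
  have h2 : |(D : ℝ)| * (|(m : ℝ)| * t ^ 3) ≤ |(D : ℝ)| * 4 := by
    have h3 : (|(D : ℝ)| * |(m : ℝ)| * t ^ 2) * t ≤ (4 * (U0 * U1)) * t :=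
      mul_le_mul_of_nonneg_right hn ht.le
    nlinarith
  have h3 : |(m : ℝ)| * t ^ 3 ≤ 4 := le_of_mul_le_mul_left h2 hD'
  have h4 : |(m : ℝ)| ≤ 4 / t ^ 3 := by
    rw [le_div_iff₀ (by positivity)]
    exact h3
  have h5 : |(m : ℝ)| ≤ B := h4.trans hB
  have h6 := abs_le.1 h5
  rw [Finset.mem_Icc]
  constructor
  · have : (-(B : ℝ)) ≤ (m : ℝ) := h6.1
    exact_mod_cast this
  · exact_mod_cast h6.2

theorem pd4_abs1 (v : ℤ × ℤ) : |(v.1 : ℝ)| ≤ nr v := by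
  rw [pd4_nr]
  have := abs_nonneg (v.2 : ℝ)
  linarith

theorem pd4_abs2 (v : ℤ × ℤ) : |(v.2 : ℝ)| ≤ nr v := by
  rw [pd4_nr]
  have := abs_nonneg (v.1 : ℝ)
  linarith

/-- the size of `a b - c d`, `|a| ≤ |v_0|`, `|b| ≤ |u_1|`, `|c| ≤ |v_1|`, `|d| ≤ |u_0|` -/
theorem pd4_size {t V0 V1 U0 U1 a b c d : ℝ} (ht : 0 < t) (h0 : V0 * t ^ 2 ≤ U0)
    (h1 : V1 * t ^ 2 ≤ U1) (hU0 : 0 ≤ U0) (hU1 : 0 ≤ U1) (ha : |a| ≤ V0) (hb : |b| ≤ U1)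
    (hc : |c| ≤ V1) (hd : |d| ≤ U0) : |a * b - c * d| * t ^ 2 ≤ 4 * (U0 * U1) := by
  have e1 : |a * b| * t ^ 2 ≤ U0 * U1 := by
    rw [abs_mul]
    have e2 : |a| * t ^ 2 ≤ U0 := (mul_le_mul_of_nonneg_right ha (by positivity)).trans h0
    calc |a| * |b| * t ^ 2 = (|a| * t ^ 2) * |b| := by ring
      _ ≤ U0 * U1 := mul_le_mul e2 hb (abs_nonneg _) hU0
  have e3 : |c * d| * t ^ 2 ≤ U0 * U1 := by
    rw [abs_mul]
    have e2 : |c| * t ^ 2 ≤ U1 := (mul_le_mul_of_nonneg_right hc (by positivity)).trans h1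
    calc |c| * |d| * t ^ 2 = |d| * (|c| * t ^ 2) := by ring
      _ ≤ U0 * U1 := mul_le_mul hd e2 (by positivity) hU0
  have e4 : |a * b - c * d| * t ^ 2 ≤ (|a * b| + |c * d|) * t ^ 2 :=
    mul_le_mul_of_nonneg_right (abs_sub _ _) (by positivity)
  have e5 : 0 ≤ U0 * U1 := mul_nonneg hU0 hU1
  nlinarith

theorem same_bd_pr (q : Par 5) (hq : q.Ok) : ∃ C : ℕ, ∀ (x : ℝ) (P0 : ℕ) (S : Finset (PolyK 5)),
    (∀ u ∈ S, IsPoly q x P0 u ∧ Sep q u) → (∀ u ∈ S, ∀ v ∈ S, SameD u v) → S.card ≤ C := by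
  obtain ⟨B, hB⟩ : ∃ B : ℕ, 4 / q.c3 ^ 3 ≤ (B : ℝ) := exists_nat_ge _
  refine ⟨(2 * B + 1) * (2 * B + 1) * ((2 * B + 1) * (2 * B + 1)), ?_⟩
  intro x P0 S h1 h2
  rcases S.eq_empty_or_nonempty with hS | ⟨u, hu⟩
  · rw [hS, Finset.card_empty]
    exact Nat.zero_le _
  obtain ⟨pu, su⟩ := h1 u hu
  have nz : ∀ i j : Fin 5, i ≠ j → dt (u i) (u j) ≠ 0 := by
    intro i j hij h0
    have := pu.sg i j hij
    rw [h0, mul_zero] at this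
    exact absurd this (lt_irrefl _)
  have n01 := nz 0 1 (by decide)
  have n02 := nz 0 2 (by decide)
  have p0 := (pd4_pos n01).1
  have p1 := (pd4_pos n01).2
  have p2 := (pd4_pos n02).2
  have hco : IsCoprime (dt (u 0) (u 1)) (dt (u 1) (u 2)) := by
    have := pu.co 0 1 (by decide)
    exact Int.isCoprime_iff_gcd_eq_one.2 this
  have hDU : q.c3 * (nr (u 0) : ℝ) * nr (u 1) ≤ |(dt (u 0) (u 1) : ℝ)| := su 0 1 (by decide)
  have key : ∀ v ∈ S, ∀ z ∈ [(pd4_N u v).1.1, (pd4_N u v).1.2, (pd4_N u v).2.1,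
      (pd4_N u v).2.2], |(z : ℝ)| * q.c3 ^ 2 ≤ 4 * ((nr (u 0) : ℝ) * nr (u 1)) := by
    intro v hv z hz
    obtain ⟨_, sv⟩ := h1 v hv
    have hd := h2 u hu v hv
    have c0 := pd4_cmp hq su sv hd 0 1 2 (by decide) (by decide) (by decide) p1 p2
    have c1 := pd4_cmp hq su sv hd 1 0 2 (by decide) (by decide) (by decide) p0 p2
    simp only [List.mem_cons, List.not_mem_nil, or_false, pd4_N] at hz
    rcases hz with rfl | rfl | rfl | rfl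
    · push_cast
      exact pd4_size hq.c30 c0 c1 p0.le p1.le (pd4_abs1 _) (pd4_abs2 _) (pd4_abs1 _) (pd4_abs2 _)
    · push_cast
      rw [abs_sub_comm]
      exact pd4_size hq.c30 c0 c1 p0.le p1.le (pd4_abs1 _) (pd4_abs1 _) (pd4_abs1 _) (pd4_abs1 _)
    · push_cast
      exact pd4_size hq.c30 c0 c1 p0.le p1.le (pd4_abs2 _) (pd4_abs2 _) (pd4_abs2 _) (pd4_abs2 _)
    · push_cast
      rw [abs_sub_comm]
      exact pd4_size hq.c30 c0 c1 p0.le p1.le (pd4_abs2 _) (pd4_abs1 _) (pd4_abs2 _) (pd4_abs1 _)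
  have hcard : ((Icc (-(B : ℤ)) (B : ℤ) ×ˢ Icc (-(B : ℤ)) (B : ℤ)) ×ˢ
      (Icc (-(B : ℤ)) (B : ℤ) ×ˢ Icc (-(B : ℤ)) (B : ℤ))).card =
      (2 * B + 1) * (2 * B + 1) * ((2 * B + 1) * (2 * B + 1)) := by
    rw [Finset.card_product, Finset.card_product, Int.card_Icc]
    have : ((B : ℤ) + 1 - -(B : ℤ)).toNat = 2 * B + 1 := by omega
    rw [this]
  rw [← hcard]
  refine Finset.card_le_card_of_injOn (fun v =>
    (((pd4_N u v).1.1 / dt (u 0) (u 1), (pd4_N u v).1.2 / dt (u 0) (u 1)),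
      ((pd4_N u v).2.1 / dt (u 0) (u 1), (pd4_N u v).2.2 / dt (u 0) (u 1)))) ?_ ?_
  · intro v hv
    have hv' := Finset.mem_coe.1 hv
    obtain ⟨⟨d1, d2⟩, ⟨d3, d4⟩⟩ := pd4_dvd (h2 u hu v hv') hco
    have k := key v hv'
    refine Finset.mem_coe.2 ?_
    rw [Finset.mem_product, Finset.mem_product, Finset.mem_product]
    refine ⟨⟨?_, ?_⟩, ⟨?_, ?_⟩⟩
    · exact pd4_entry hq.c30 hB n01 d1 hDU (k _ (by simp))
    · exact pd4_entry hq.c30 hB n01 d2 hDU (k _ (by simp))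
    · exact pd4_entry hq.c30 hB n01 d3 hDU (k _ (by simp))
    · exact pd4_entry hq.c30 hB n01 d4 hDU (k _ (by simp))
  · intro v hv w hw he
    have hv' := Finset.mem_coe.1 hv
    have hw' := Finset.mem_coe.1 hw
    obtain ⟨⟨d1, d2⟩, ⟨d3, d4⟩⟩ := pd4_dvd (h2 u hu v hv') hco
    obtain ⟨⟨e1, e2⟩, ⟨e3, e4⟩⟩ := pd4_dvd (h2 u hu w hw') hco
    simp only [Prod.mk.injEq] at he
    obtain ⟨⟨f1, f2⟩, ⟨f3, f4⟩⟩ := he
    have canc : ∀ a b : ℤ, dt (u 0) (u 1) ∣ a → dt (u 0) (u 1) ∣ b →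
        a / dt (u 0) (u 1) = b / dt (u 0) (u 1) → a = b := by
      intro a b ha hb hab
      rw [← Int.mul_ediv_cancel' ha, ← Int.mul_ediv_cancel' hb, hab]
    have g1 := canc _ _ d1 e1 f1
    have g2 := canc _ _ d2 e2 f2
    have g3 := canc _ _ d3 e3 f3
    have g4 := canc _ _ d4 e4 f4
    funext j
    obtain ⟨r1, r2⟩ := pd4_rec (h2 u hu v hv') j
    obtain ⟨r3, r4⟩ := pd4_rec (h2 u hu w hw') j
    rw [g1, g2] at r1
    rw [g3, g4] at r2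
    refine Prod.ext ?_ ?_
    · exact mul_left_cancel₀ n01 (r1.trans r3.symm)
    · exact mul_left_cancel₀ n01 (r2.trans r4.symm)

end Pool.Agent.PENK

namespace Pool.Agent.PENK

theorem same_bd : type_of% @same_bd_pr := @same_bd_pr

end Pool.Agent.PENK
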