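import Pool.Agent.Lib_helper18.PENK.Defs2
import Pool.Agent.Lib_helper61.FG.DivB

set_option autoImplicit false

namespace Pool.Agent.PENK

open Finset Pool.Agent.PENT

theorem div_le_pr {θ : ℝ} (hθ : 0 < θ) : ∃ x₀ : ℝ, 1 ≤ x₀ ∧ ∀ x ≥ x₀, ∀ n : ℕ, 0 < n →
    (n : ℝ) ≤ x ^ 3 → (n.divisors.card : ℝ) ≤ x ^ θ := by
  obtain ⟨C, hC, hd⟩ := Pool.Agent.FG61.divisor_bound (ε := θ / 6) (by positivity)
  refine ⟨max 1 (C ^ (2 / θ)), le_max_left _ _, fun x hx n hn hnx => ?_⟩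
  have hx1 : 1 ≤ x := le_trans (le_max_left _ _) hx
  have hx0 : 0 < x := by linarith
  have hx2 : C ^ (2 / θ) ≤ x := le_trans (le_max_right _ _) hx
  have h1 : C ≤ x ^ (θ / 2) := by
    have h2 := Real.rpow_le_rpow (by positivity) hx2 (show 0 ≤ θ / 2 by positivity)
    rw [← Real.rpow_mul hC.le] at h2
    have h3 : 2 / θ * (θ / 2) = 1 := by field_simp
    rwa [h3, Real.rpow_one] at h2
  have h4 : (n : ℝ) ^ (θ / 6) ≤ x ^ (θ / 2) := by
    have h5 := Real.rpow_le_rpow (by positivity) hnx (show 0 ≤ θ / 6 by positivity)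
    have h6 : (x ^ 3) ^ (θ / 6) = x ^ (θ / 2) := by
      rw [← Real.rpow_natCast x 3, ← Real.rpow_mul hx0.le]
      congr 1
      push_cast
      ring
    rwa [h6] at h5
  calc (n.divisors.card : ℝ) ≤ C * (n : ℝ) ^ (θ / 6) := hd n hn
    _ ≤ x ^ (θ / 2) * x ^ (θ / 2) := by
        apply mul_le_mul h1 h4 (by positivity) (by positivity)
    _ = x ^ θ := by
        rw [← Real.rpow_add hx0]
        congr 1
        ring

theorem harm_sum_pr (M : Finset ℕ) (X : ℝ) (hX : 1 ≤ X) (h : ∀ m ∈ M, 1 ≤ m ∧ (m : ℝ) ≤ X) :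
    ∑ m ∈ M, 1 / (m : ℝ) ≤ 1 + Real.log X := by
  have hsub : M ⊆ Finset.Icc 1 ⌊X⌋₊ := by
    intro m hm
    rw [Finset.mem_Icc]
    exact ⟨(h m hm).1, Nat.le_floor (h m hm).2⟩
  have h1 : ∑ m ∈ M, 1 / (m : ℝ) ≤ ∑ m ∈ Finset.Icc 1 ⌊X⌋₊, 1 / (m : ℝ) :=
    Finset.sum_le_sum_of_subset_of_nonneg hsub (fun _ _ _ => by positivity)
  have h2 : ∑ m ∈ Finset.Icc 1 ⌊X⌋₊, 1 / (m : ℝ) = ((harmonic ⌊X⌋₊ : ℚ) : ℝ) := by
    rw [harmonic_eq_sum_Icc]
    push_cast
    exact Finset.sum_congr rfl (fun _ _ => by rw [one_div])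
  have h3 := harmonic_le_one_add_log ⌊X⌋₊
  have hf : 1 ≤ ⌊X⌋₊ := Nat.le_floor (by simpa using hX)
  have h4 : Real.log (⌊X⌋₊ : ℝ) ≤ Real.log X :=
    Real.log_le_log (by exact_mod_cast hf) (Nat.floor_le (by linarith))
  linarith [h1, h2.le]

theorem class_sum_pr (M : Finset ℕ) (N : ℕ) (T X : ℝ) (hN : 1 ≤ N) (hT : 1 ≤ T) (hX : 1 ≤ X)
    (h : ∀ m ∈ M, T ≤ (m : ℝ) ∧ (m : ℝ) ≤ X) (hc : ∀ m ∈ M, ∀ m' ∈ M, (N : ℤ) ∣ (m : ℤ) - m') :
    ∑ m ∈ M, 1 / (m : ℝ) ≤ 1 / T + (1 + Real.log X) / N := by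
  classical
  have hN0 : (0 : ℝ) < N := by exact_mod_cast hN
  have hlog : 0 ≤ Real.log X := Real.log_nonneg hX
  have hT0 : 0 < T := by linarith
  rcases M.eq_empty_or_nonempty with hM | hM
  · rw [hM, Finset.sum_empty]
    positivity
  · set m0 := M.min' hM with hm0
    have hm0M : m0 ∈ M := Finset.min'_mem M hM
    have hle : ∀ m ∈ M, m0 ≤ m := fun m hm => Finset.min'_le M m hm
    -- key map
    have hkey : ∀ m ∈ M.erase m0, m = m0 + N * ((m - m0) / N) ∧ 1 ≤ (m - m0) / N := by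
      intro m hm
      have hmM := Finset.mem_of_mem_erase hm
      have hne : m ≠ m0 := Finset.ne_of_mem_erase hm
      have hlt : m0 < m := lt_of_le_of_ne (hle m hmM) (Ne.symm hne)
      have hdv : (N : ℤ) ∣ (m : ℤ) - m0 := hc m hmM m0 hm0M
      have hdn : N ∣ m - m0 := by
        have : ((m - m0 : ℕ) : ℤ) = (m : ℤ) - m0 := by
          push_cast [Nat.cast_sub hlt.le]
          ring
        rw [← this] at hdv
        exact_mod_cast hdv
      obtain ⟨k, hk⟩ := hdn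
      have hk' : (m - m0) / N = k := by
        rw [hk, Nat.mul_div_cancel_left _ (by omega)]
      rw [hk']
      refine ⟨by omega, ?_⟩
      rcases Nat.eq_zero_or_pos k with h0 | h0
      · rw [h0] at hk
        simp at hk
        omega
      · exact h0
    have hinj : Set.InjOn (fun m => (m - m0) / N) (M.erase m0 : Finset ℕ) := by
      intro a ha b hb hab
      have h1 := (hkey a ha).1
      have h2 := (hkey b hb).1
      simp only at hab
      rw [h1, h2, hab]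
    have h1 : ∑ m ∈ M.erase m0, 1 / (m : ℝ) ≤
        ∑ m ∈ M.erase m0, (1 / (N : ℝ)) * (1 / (((m - m0) / N : ℕ) : ℝ)) := by
      apply Finset.sum_le_sum
      intro m hm
      obtain ⟨h2, h3⟩ := hkey m hm
      have h4 : (N : ℝ) * (((m - m0) / N : ℕ) : ℝ) ≤ m := by
        have h5 : N * ((m - m0) / N) ≤ m := by omega
        exact_mod_cast h5
      have h6 : (0 : ℝ) < (((m - m0) / N : ℕ) : ℝ) := by exact_mod_cast h3
      rw [one_div_mul_one_div]
      exact one_div_le_one_div_of_le (by positivity) h4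
    have h2 : ∑ m ∈ M.erase m0, (1 / (N : ℝ)) * (1 / (((m - m0) / N : ℕ) : ℝ)) =
        (1 / (N : ℝ)) * ∑ k ∈ (M.erase m0).image (fun m => (m - m0) / N), 1 / (k : ℝ) := by
      rw [← Finset.mul_sum, Finset.sum_image (fun a ha b hb hab => hinj ha hb hab)]
    have h3 : ∑ k ∈ (M.erase m0).image (fun m => (m - m0) / N), 1 / (k : ℝ) ≤
        1 + Real.log X := by
      apply harm_sum_pr _ X hX
      intro k hk
      rw [Finset.mem_image] at hk
      obtain ⟨m, hm, rfl⟩ := hk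
      obtain ⟨h4, h5⟩ := hkey m hm
      refine ⟨h5, ?_⟩
      have h6 : (m - m0) / N ≤ m := le_trans (Nat.div_le_self _ _) (Nat.sub_le _ _)
      calc (((m - m0) / N : ℕ) : ℝ) ≤ (m : ℝ) := by exact_mod_cast h6
        _ ≤ X := (h m (Finset.mem_of_mem_erase hm)).2
    have h4 : 1 / (m0 : ℝ) ≤ 1 / T := one_div_le_one_div_of_le hT0 (h m0 hm0M).1
    have h5 : (1 / (N : ℝ)) * ∑ k ∈ (M.erase m0).image (fun m => (m - m0) / N), 1 / (k : ℝ) ≤
        (1 / (N : ℝ)) * (1 + Real.log X) :=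
      mul_le_mul_of_nonneg_left h3 (by positivity)
    have h6 : (1 + Real.log X) / N = (1 / (N : ℝ)) * (1 + Real.log X) := by ring
    rw [← Finset.add_sum_erase M _ hm0M, h6]
    linarith

theorem fib_sum_pr {α β : Type} [DecidableEq β] (S : Finset α) (f : α → β) (w1 : β → ℝ) (w2 : α → ℝ)
    (B : ℝ) (h1 : ∀ b, 0 ≤ w1 b)
    (hB : ∀ b ∈ S.image f, ∑ a ∈ S.filter (fun a => f a = b), w2 a ≤ B) :
    ∑ a ∈ S, w1 (f a) * w2 a ≤ B * ∑ b ∈ S.image f, w1 b := by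
  have h2 : ∑ a ∈ S, w1 (f a) * w2 a =
      ∑ b ∈ S.image f, ∑ a ∈ S.filter (fun a => f a = b), w1 (f a) * w2 a := by
    rw [Finset.sum_fiberwise_of_maps_to (fun a ha => Finset.mem_image_of_mem f ha)]
  rw [h2, Finset.mul_sum]
  apply Finset.sum_le_sum
  intro b hb
  have h3 : ∑ a ∈ S.filter (fun a => f a = b), w1 (f a) * w2 a =
      w1 b * ∑ a ∈ S.filter (fun a => f a = b), w2 a := by
    rw [Finset.mul_sum]
    apply Finset.sum_congr rfl
    intro a ha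
    rw [(Finset.mem_filter.mp ha).2]
  rw [h3, mul_comm B]
  exact mul_le_mul_of_nonneg_left (hB b hb) (h1 b)

end Pool.Agent.PENK

namespace Pool.Agent.PENK

theorem div_le : type_of% @div_le_pr := @div_le_pr

theorem harm_sum : type_of% @harm_sum_pr := @harm_sum_pr

theorem class_sum : type_of% @class_sum_pr := @class_sum_pr

theorem fib_sum : type_of% @fib_sum_pr := @fib_sum_pr

end Pool.Agent.PENK
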