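import Pool.Agent.Lib_helper18.PENK.Defs2
import Pool.Agent.Lib_helper18.PENKF.DefsW
import Pool.Agent.Lib_helper18.PENKF.PB2
import Pool.Agent.Lib_helper18.PENKF.PB3
import Pool.Agent.Lib_helper18.PENKF.PD1
import Pool.Agent.Lib_helper18.PENKF.PD2

set_option autoImplicit false

namespace Pool.Agent.PENK

open Finset Pool.Agent.PENT

/-- two vectors parallel to a nonzero vector modulo `p` are parallel -/
theorem pd9_par {p : ℕ} (hp : p.Prime) {a b c : ℤ × ℤ}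
    (hb : ¬ ((p : ℤ) ∣ b.1 ∧ (p : ℤ) ∣ b.2)) (h1 : (p : ℤ) ∣ dt b a) (h2 : (p : ℤ) ∣ dt b c) :
    (p : ℤ) ∣ dt a c := by
  have hp' : Prime (p : ℤ) := Nat.prime_iff_prime_int.mp hp
  have e1 : b.1 * dt a c = a.1 * dt b c - c.1 * dt b a := by unfold dt; ring
  have e2 : b.2 * dt a c = a.2 * dt b c - c.2 * dt b a := by unfold dt; ring
  have d1 : (p : ℤ) ∣ b.1 * dt a c := by
    rw [e1]; exact dvd_sub (Dvd.dvd.mul_left h2 _) (Dvd.dvd.mul_left h1 _)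
  have d2 : (p : ℤ) ∣ b.2 * dt a c := by
    rw [e2]; exact dvd_sub (Dvd.dvd.mul_left h2 _) (Dvd.dvd.mul_left h1 _)
  rcases hp'.dvd_or_dvd d1 with h | h
  · rcases hp'.dvd_or_dvd d2 with h' | h'
    · exact absurd ⟨h, h'⟩ hb
    · exact h'
  · exact h

theorem pd9_symm {p : ℕ} {a b : ℤ × ℤ} (h : (p : ℤ) ∣ dt a b) : (p : ℤ) ∣ dt b a := by
  have : dt b a = - dt a b := by unfold dt; ring
  rw [this]; exact (dvd_neg).mpr h

theorem pd9_dt_le (a b : ℤ × ℤ) : (dt a b).natAbs ≤ nr a * nr b := by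
  unfold dt nr
  zify
  calc |a.1 * b.2 - a.2 * b.1| ≤ |a.1 * b.2| + |a.2 * b.1| := abs_sub _ _
    _ = |a.1| * |b.2| + |a.2| * |b.1| := by rw [abs_mul, abs_mul]
    _ ≤ (|a.1| + |a.2|) * (|b.1| + |b.2|) := by
        nlinarith [abs_nonneg a.1, abs_nonneg a.2, abs_nonneg b.1, abs_nonneg b.2,
          mul_nonneg (abs_nonneg a.1) (abs_nonneg b.1), mul_nonneg (abs_nonneg a.2) (abs_nonneg b.2)]

/-- sizes -/
theorem pd9_siz {i : Fin 5 → ℕ} {v : PolyK 5} (h : Siz i v) (j k : Fin 5) :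
    (dt (v j) (v k)).natAbs ≤ 4 * 2 ^ (i j + i k) := by
  have h1 := (h j).2.le
  have h2 := (h k).2.le
  calc (dt (v j) (v k)).natAbs ≤ nr (v j) * nr (v k) := pd9_dt_le _ _
    _ ≤ 2 ^ (i j + 1) * 2 ^ (i k + 1) := Nat.mul_le_mul h1 h2
    _ = 4 * 2 ^ (i j + i k) := by ring

theorem pd9_zero_mem : (0 : Fin 5) ∈ inr 5 := by unfold inr; decide
theorem pd9_three_mem : (3 : Fin 5) ∈ inr 5 := by unfold inr; decide
theorem pd9_four_mem : (4 : Fin 5) ∈ ivr 5 := by unfold ivr; decide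

theorem pd9_dvd_bad {u : PolyK 5} {j : Fin 5} (hj : j ∈ inr 5) : dn u j ∣ bad u :=
  Finset.dvd_prod_of_mem _ hj

theorem pd9_dvd_DD (u : PolyK 5) (j : Fin 5) : dn u j ∣ DD u :=
  Finset.dvd_prod_of_mem _ (mem_univ _)

theorem pd9_bad_DD (u : PolyK 5) : bad u ∣ DD u := by
  unfold bad DD
  exact Finset.prod_dvd_prod_of_subset _ _ _ (filter_subset _ _)

/-- the chords `c_4` of two polygons of the family are parallel modulo `G0 G3 G4` -/
theorem pd9_cong {q : Par 5} {x : ℝ} {P0 : ℕ} {u : PolyK 5} (hu : IsPoly q x P0 u)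
    {i : Fin 5 → ℕ} {G0 G1 G2 G3 G4 : ℕ} (hG : G0 * G2 * G3 ∣ bad u) {v w : PolyK 5}
    (hv : B1S q x P0 u i G0 G1 G2 G3 G4 v) (hw : B1S q x P0 u i G0 G1 G2 G3 G4 w) :
    ((G0 * G3 * G4 : ℕ) : ℤ) ∣ dt (cv v 4) (cv w 4) := by
  have K5 : 5 ≤ 5 := le_rfl
  -- common lines
  have key : ∀ p : ℕ, p.Prime → p ∣ G0 * G2 * G3 → p ∣ DD v → p ∣ DD w →
      (p : ℤ) ∣ dt (Lv v p) (cv v 4) → (p : ℤ) ∣ dt (Lv w p) (cv w 4) →
      (p : ℤ) ∣ dt (cv v 4) (cv w 4) := by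
    intro p hp hpG hpv hpw h1 h2
    have hpu : p ∣ DD u := (hpG.trans hG).trans (pd9_bad_DD u)
    have nu := Lv_ne K5 hu hp hpu
    have nv := Lv_ne K5 hv.poly hp hpv
    have nw := Lv_ne K5 hw.poly hp hpw
    have s1 : (p : ℤ) ∣ dt (Lv u p) (Lv v p) := hv.sl p hp hpG
    have s2 : (p : ℤ) ∣ dt (Lv u p) (Lv w p) := hw.sl p hp hpG
    -- `Lv u ∥ cv v`
    have t1 : (p : ℤ) ∣ dt (Lv u p) (cv v 4) := pd9_par hp nv (pd9_symm s1) h1
    have t2 : (p : ℤ) ∣ dt (Lv u p) (cv w 4) := pd9_par hp nw (pd9_symm s2) h2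
    exact pd9_par hp nu t1 t2
  have c0 : ∀ p : ℕ, p.Prime → p ∣ G0 → (p : ℤ) ∣ dt (cv v 4) (cv w 4) := by
    intro p hp hpG
    have a1 : p ∣ dn v 0 := hpG.trans hv.g0
    have a2 : p ∣ dn w 0 := hpG.trans hw.g0
    exact key p hp (hpG.trans ⟨G2 * G3, by ring⟩) (a1.trans (pd9_dvd_DD _ _))
      (a2.trans (pd9_dvd_DD _ _)) (Lv_par0 K5 hv.poly hp a1 4 pd9_four_mem).1
      (Lv_par0 K5 hw.poly hp a2 4 pd9_four_mem).1
  have c3 : ∀ p : ℕ, p.Prime → p ∣ G3 → (p : ℤ) ∣ dt (cv v 4) (cv w 4) := by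
    intro p hp hpG
    have a1 : p ∣ dn v 3 := hpG.trans hv.g3
    have a2 : p ∣ dn w 3 := hpG.trans hw.g3
    have b1 := (Lv_par K5 hv.poly hp pd9_three_mem (by decide) a1).2
    have b2 := (Lv_par K5 hw.poly hp pd9_three_mem (by decide) a2).2
    have e : (3 + 1 : Fin 5) = 4 := by decide
    rw [e] at b1 b2
    exact key p hp (hpG.trans ⟨G0 * G2, by ring⟩) (a1.trans (pd9_dvd_DD _ _))
      (a2.trans (pd9_dvd_DD _ _)) b1 b2
  have c4 : ∀ p : ℕ, p.Prime → p ∣ G4 → (p : ℤ) ∣ dt (cv v 4) (cv w 4) := by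
    intro p hp hpG
    have e : (4 + 1 : Fin 5) = 0 := by decide
    have aux : ∀ z : PolyK 5, p ∣ dn z 4 → (p : ℤ) ∣ (cv z 4).2 := by
      intro z hz
      have h1 : (p : ℤ) ∣ dl z 4 := Int.natCast_dvd.mpr hz
      have h2 : (cv z 4).2 = - dl z 4 := by
        unfold cv dl; rw [e]; simp only [dt]; ring
      rw [h2]; exact (dvd_neg).mpr h1
    have b1 := aux v (hpG.trans hv.g4)
    have b2 := aux w (hpG.trans hw.g4)
    unfold dt
    exact dvd_sub (Dvd.dvd.mul_left b2 _) (Dvd.dvd.mul_right b1 _)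
  -- squarefree and coprime
  have s0 : Squarefree G0 := (hv.poly.sq 0).squarefree_of_dvd hv.g0
  have s3 : Squarefree G3 := (hv.poly.sq 3).squarefree_of_dvd hv.g3
  have s4 : Squarefree G4 := (hv.poly.sq 4).squarefree_of_dvd hv.g4
  have co03 : Nat.Coprime G0 G3 :=
    Nat.Coprime.coprime_dvd_left hv.g0 (Nat.Coprime.coprime_dvd_right hv.g3
      (hv.poly.co 0 3 (by decide)))
  have co04 : Nat.Coprime G0 G4 :=
    Nat.Coprime.coprime_dvd_left hv.g0 (Nat.Coprime.coprime_dvd_right hv.g4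
      (hv.poly.co 0 4 (by decide)))
  have co34 : Nat.Coprime G3 G4 :=
    Nat.Coprime.coprime_dvd_left hv.g3 (Nat.Coprime.coprime_dvd_right hv.g4
      (hv.poly.co 3 4 (by decide)))
  have sf : Squarefree (G0 * G3 * G4) := by
    rw [Nat.squarefree_mul (Nat.Coprime.mul_left co04 co34), Nat.squarefree_mul co03]
    exact ⟨⟨s0, s3⟩, s4⟩
  rw [Int.natCast_dvd]
  rw [← Nat.prod_primeFactors_of_squarefree sf]
  refine Finset.prod_primes_dvd _ (fun p hp => (Nat.prime_of_mem_primeFactors hp).prime)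
    (fun p hp => ?_)
  have hpp := Nat.prime_of_mem_primeFactors hp
  have hd := Nat.dvd_of_mem_primeFactors hp
  rw [← Int.natCast_dvd]
  rcases (hpp.dvd_mul).mp hd with h | h
  · rcases (hpp.dvd_mul).mp h with h' | h'
    · exact c0 p hpp h'
    · exact c3 p hpp h'
  · exact c4 p hpp h

/-- BLOCK PD9 (as PD8): the chords `c_4`, `I = G0 G3 G4` (second coordinate `-dl 4`). -/
theorem b1_c4_pr (q : Par 5) (hq : q.Ok) {x : ℝ} {P0 : ℕ} {u : PolyK 5} (hu : IsPoly q x P0 u)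
    (i : Fin 5 → ℕ) (G0 G1 G2 G3 G4 : ℕ) (hG : G0 * G2 * G3 ∣ bad u) (S : Finset (PolyK 5))
    (hS : ∀ v ∈ S, B1S q x P0 u i G0 G1 G2 G3 G4 v) :
    ((S.image (fun v => cv v 4)).card : ℝ) ≤
      128 * ((2 : ℝ) ^ i 0 * 2 ^ i 1 * (2 ^ i 4) ^ 2 / (G0 * G3 * G4) + 1) := by
  rcases S.eq_empty_or_nonempty with rfl | ⟨v0, hv0⟩
  · simp only [image_empty, card_empty, Nat.cast_zero]
    positivity
  have B0 := hS v0 hv0
  have pos : ∀ j : Fin 5, ∀ G : ℕ, G ∣ dn v0 j → 1 ≤ G := by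
    intro j G hGd
    rcases Nat.eq_zero_or_pos G with h | h
    · subst h
      exact absurd (Nat.eq_zero_of_zero_dvd hGd) (B0.poly.sq j).ne_zero
    · exact h
  have p0 := pos 0 G0 B0.g0
  have p3 := pos 3 G3 B0.g3
  have p4 := pos 4 G4 B0.g4
  have hI : 1 ≤ G0 * G3 * G4 := Nat.mul_pos (Nat.mul_pos p0 p3) p4
  have L := lattice_lemma (S.image (fun v => cv v 4)) (4 * 2 ^ (i 4 + i 1)) (4 * 2 ^ (i 0 + i 4))
    (G0 * G3 * G4) (by have := Nat.one_le_two_pow (n := i 4 + i 1); omega)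
    (by have := Nat.one_le_two_pow (n := i 0 + i 4); omega) hI
    (by
      intro c hc
      obtain ⟨v, hv, rfl⟩ := mem_image.mp hc
      exact cv_prim (hS v hv).poly 4 pd9_four_mem)
    (by
      intro c hc
      obtain ⟨v, hv, rfl⟩ := mem_image.mp hc
      exact pd9_siz (hS v hv).siz 4 1)
    (by
      intro c hc
      obtain ⟨v, hv, rfl⟩ := mem_image.mp hc
      exact pd9_siz (hS v hv).siz 0 4)
    (by
      intro c hc c' hc'
      obtain ⟨v, hv, rfl⟩ := mem_image.mp hc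
      obtain ⟨w, hw, rfl⟩ := mem_image.mp hc'
      exact pd9_cong hu hG (hS v hv) (hS w hw))
  refine L.trans ?_
  have g0 : (0 : ℝ) < G0 := by exact_mod_cast p0
  have g3 : (0 : ℝ) < G3 := by exact_mod_cast p3
  have g4 : (0 : ℝ) < G4 := by exact_mod_cast p4
  push_cast
  have e : 8 * (4 * (2 : ℝ) ^ (i 4 + i 1)) * (4 * 2 ^ (i 0 + i 4)) / (G0 * G3 * G4) =
      128 * ((2 : ℝ) ^ i 0 * 2 ^ i 1 * (2 ^ i 4) ^ 2 / (G0 * G3 * G4)) := by
    rw [pow_add, pow_add]; ring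
  rw [e]
  nlinarith

end Pool.Agent.PENK

namespace Pool.Agent.PENK

theorem b1_c4 : type_of% @b1_c4_pr := @b1_c4_pr

end Pool.Agent.PENK
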