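import Mathlib
import Pool.Agent.Lib_helper18.PENK.Defs2
import Pool.Agent.Lib_helper18.PENKF.DefsW
import Pool.Agent.Lib_helper18.PENKF.PD3
import Pool.Agent.Lib_helper18.PENKF.PD4
import Pool.Agent.Lib_helper18.PENKF.PD5
import Pool.Agent.Lib_helper18.PENKF.PD8
import Pool.Agent.Lib_helper18.PENKF.PD9
import Pool.Agent.Lib_helper18.PENKF.PD10

set_option autoImplicit false

namespace Pool.Agent.PENK

open Finset Pool.Agent.PENT

theorem pd11_fib {α β : Type} [DecidableEq β] (S : Finset α) (f : α → β) (B D : ℝ) (hB0 : 0 ≤ B)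
    (h : ∀ b ∈ S.image f, ((S.filter (fun a => f a = b)).card : ℝ) ≤ B)
    (hD : ((S.image f).card : ℝ) ≤ D) : (S.card : ℝ) ≤ B * D := by
  have h1 : (S.card : ℝ) = ∑ b ∈ S.image f, ((S.filter (fun a => f a = b)).card : ℝ) := by
    exact_mod_cast Finset.card_eq_sum_card_image f S
  rw [h1]
  calc ∑ b ∈ S.image f, ((S.filter (fun a => f a = b)).card : ℝ)
      ≤ ∑ b ∈ S.image f, B := Finset.sum_le_sum h
    _ = B * (S.image f).card := by rw [Finset.sum_const, nsmul_eq_mul, mul_comm]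
    _ ≤ B * D := mul_le_mul_of_nonneg_left hD hB0

theorem pd11_dt_cv (u : PolyK 5) :
    dt (cv u 2) (cv u 4) = dl u 0 * dt (u 2) (u 4) := by
  have : dl u 0 = dt (u 0) (u 1) := rfl
  rw [this]
  simp only [cv, dt]
  ring

theorem pd11_ne {q : Par 5} {x : ℝ} {P0 : ℕ} {v : PolyK 5} (h : IsPoly q x P0 v) {i j : Fin 5}
    (hij : i ≠ j) : dt (v i) (v j) ≠ 0 := by
  intro h0
  have := h.sg i j hij
  rw [h0] at this
  simp at this

theorem pd11_dt_le (a b : ℤ × ℤ) : (dt a b).natAbs ≤ nr a * nr b := by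
  unfold dt nr
  have h1 : (a.1 * b.2 - a.2 * b.1).natAbs ≤ (a.1 * b.2).natAbs + (a.2 * b.1).natAbs :=
    Int.natAbs_sub_le _ _
  rw [Int.natAbs_mul, Int.natAbs_mul] at h1
  nlinarith [Nat.zero_le (a.1.natAbs * b.1.natAbs), Nat.zero_le (a.2.natAbs * b.2.natAbs)]

theorem pd11_size {q : Par 5} (hq : q.Ok) {x : ℝ} (hx : 1 ≤ x) {P0 : ℕ} {v : PolyK 5}
    (h : IsPoly q x P0 v) : (((dt (cv v 2) (cv v 4)).natAbs : ℕ) : ℝ) ≤ x ^ 3 := by
  have h0 : 0 < x := by linarith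
  rw [pd11_dt_cv, Int.natAbs_mul]
  have e : dl v 0 = dt (v 0) (v 1) := rfl
  rw [e]
  push_cast
  have a1 : (((dt (v 0) (v 1)).natAbs : ℕ) : ℝ) ≤ nr (v 0) * nr (v 1) := by
    exact_mod_cast pd11_dt_le (v 0) (v 1)
  have a2 : (((dt (v 2) (v 4)).natAbs : ℕ) : ℝ) ≤ nr (v 2) * nr (v 4) := by
    exact_mod_cast pd11_dt_le (v 2) (v 4)
  have hj : ∀ j, (nr (v j) : ℝ) ≤ x ^ (q.e j + q.ε) := fun j =>
    (h.hi j).trans (Real.rpow_le_rpow_of_exponent_le hx (by have := hq.ε0; linarith))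
  have hs := hq.hs
  rw [Fin.sum_univ_five] at hs
  have he := hq.he 3
  have hε := hq.ε0
  have hδ := hq.δ1
  have b0 : ∀ j, (0 : ℝ) ≤ nr (v j) := fun j => Nat.cast_nonneg _
  calc (((dt (v 0) (v 1)).natAbs : ℕ) : ℝ) * (((dt (v 2) (v 4)).natAbs : ℕ) : ℝ)
      ≤ (nr (v 0) * nr (v 1)) * (nr (v 2) * nr (v 4)) :=
        mul_le_mul a1 a2 (Nat.cast_nonneg _) (mul_nonneg (b0 0) (b0 1))
    _ ≤ (x ^ (q.e 0 + q.ε) * x ^ (q.e 1 + q.ε)) * (x ^ (q.e 2 + q.ε) * x ^ (q.e 4 + q.ε)) := by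
        have hp : ∀ j, (0 : ℝ) ≤ x ^ (q.e j + q.ε) := fun j => (Real.rpow_pos_of_pos h0 _).le
        exact mul_le_mul (mul_le_mul (hj 0) (hj 1) (b0 1) (hp 0))
          (mul_le_mul (hj 2) (hj 4) (b0 4) (hp 2)) (mul_nonneg (b0 2) (b0 4))
          (mul_nonneg (hp 0) (hp 1))
    _ = x ^ ((q.e 0 + q.ε) + (q.e 1 + q.ε) + ((q.e 2 + q.ε) + (q.e 4 + q.ε))) := by
        rw [Real.rpow_add h0 ((q.e 0 + q.ε) + (q.e 1 + q.ε)), Real.rpow_add h0 (q.e 0 + q.ε),
          Real.rpow_add h0 (q.e 2 + q.ε)]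
    _ ≤ x ^ ((3 : ℕ) : ℝ) := by
        apply Real.rpow_le_rpow_of_exponent_le hx
        push_cast
        linarith
    _ = x ^ 3 := Real.rpow_natCast x 3

theorem b1_count_pr (q : Par 5) (hq : q.Ok) {θ : ℝ} (hθ : 0 < θ) : ∃ x₀ : ℝ, 1 ≤ x₀ ∧ ∀ x ≥ x₀,
    ∀ (P0 : ℕ) (u : PolyK 5), IsPoly q x P0 u → ∀ (i : Fin 5 → ℕ) (G0 G1 G2 G3 G4 : ℕ),
    G0 * G2 * G3 ∣ bad u → ∀ S : Finset (PolyK 5), (∀ v ∈ S, B1S q x P0 u i G0 G1 G2 G3 G4 v) →
    (S.card : ℝ) ≤ x ^ θ * (((2 : ℝ) ^ i 0 * 2 ^ i 1 * (2 ^ i 2) ^ 2 / (G0 * G1 * G2) + 1) *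
      ((2 : ℝ) ^ i 0 * 2 ^ i 1 * (2 ^ i 4) ^ 2 / (G0 * G3 * G4) + 1) *
        ((2 ^ i 3) ^ 2 / ((G2 : ℝ) * G3) + 1)) := by
  obtain ⟨C, hC⟩ := same_bd q hq
  obtain ⟨x₁, hx₁, hdiv⟩ := div_le (half_pos hθ)
  set A : ℝ := C * (128 / q.c3) * 128 * 128 with hA
  have hc3 := hq.c30
  have hA0 : 0 ≤ A := by positivity
  refine ⟨max x₁ (A ^ (2 / θ)), le_max_of_le_left hx₁, ?_⟩
  intro x hx P0 u hu i G0 G1 G2 G3 G4 hG S hS
  have hxx₁ : x₁ ≤ x := (le_max_left _ _).trans hx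
  have hx1 : 1 ≤ x := hx₁.trans hxx₁
  have hx0 : 0 < x := by linarith
  have hAx : A ≤ x ^ (θ / 2) := by
    have h1 : A ^ (2 / θ) ≤ x := (le_max_right _ _).trans hx
    have h2 : (A ^ (2 / θ)) ^ (θ / 2) ≤ x ^ (θ / 2) :=
      Real.rpow_le_rpow (Real.rpow_nonneg hA0 _) h1 (half_pos hθ).le
    rw [← Real.rpow_mul hA0] at h2
    have h3 : 2 / θ * (θ / 2) = 1 := by field_simp
    rw [h3, Real.rpow_one] at h2
    exact h2
  set R1 : ℝ := (2 : ℝ) ^ i 0 * 2 ^ i 1 * (2 ^ i 2) ^ 2 / (G0 * G1 * G2) + 1 with hR1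
  set R2 : ℝ := (2 : ℝ) ^ i 0 * 2 ^ i 1 * (2 ^ i 4) ^ 2 / (G0 * G3 * G4) + 1 with hR2
  set R3 : ℝ := (2 ^ i 3) ^ 2 / ((G2 : ℝ) * G3) + 1 with hR3
  have hR10 : 0 ≤ R1 := by positivity
  have hR20 : 0 ≤ R2 := by positivity
  have hR30 : 0 ≤ R3 := by positivity
  have hX0 : 0 ≤ x ^ (θ / 2) := (Real.rpow_pos_of_pos hx0 _).le
  have key : (S.card : ℝ) ≤ (((C : ℝ) * ((128 / q.c3) * R3)) * x ^ (θ / 2) * (128 * R2)) *
      (128 * R1) := by
    refine pd11_fib S (fun v => cv v 2) _ _ (by positivity) ?_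
      (b1_c2 q hq hu i G0 G1 G2 G3 G4 hG S hS)
    intro c2 hc2
    have hS1 : ∀ v ∈ S.filter (fun v => cv v 2 = c2), B1S q x P0 u i G0 G1 G2 G3 G4 v :=
      fun v hv => hS v (mem_filter.mp hv).1
    refine pd11_fib _ (fun v => cv v 4) _ _ (by positivity) ?_
      (b1_c4 q hq hu i G0 G1 G2 G3 G4 hG _ hS1)
    intro c4 hc4
    refine pd11_fib _ (fun v => dl v 0) _ _ (by positivity) ?_ ?_
    · intro d0 hd0
      refine pd11_fib _ (fun v => (dl v 2, dl v 3)) _ _ (by positivity) ?_ ?_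
      · intro d23 hd23
        have := hC x P0 ((((S.filter (fun v => cv v 2 = c2)).filter (fun v => cv v 4 = c4)).filter
          (fun v => dl v 0 = d0)).filter (fun v => (dl v 2, dl v 3) = d23)) ?_ ?_
        · exact_mod_cast this
        · intro v hv
          simp only [mem_filter] at hv
          exact ⟨(hS v hv.1.1.1.1).poly, (hS v hv.1.1.1.1).sep⟩
        · intro v hv w hw
          simp only [mem_filter] at hv hw
          obtain ⟨⟨⟨⟨v1, v2⟩, v3⟩, v4⟩, v5⟩ := hv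
          obtain ⟨⟨⟨⟨w1, w2⟩, w3⟩, w4⟩, w5⟩ := hw
          have h23 : (dl v 2, dl v 3) = (dl w 2, dl w 3) := v5.trans w5.symm
          rw [Prod.mk.injEq] at h23
          refine same_of_data2 ?_ ?_ (v2.trans w2.symm) (v3.trans w3.symm) (v4.trans w4.symm)
            h23.1 h23.2
          · exact pd11_ne (hS v v1).poly (i := 0) (j := 1) (by decide)
          · exact pd11_ne (hS v v1).poly (i := 2) (j := 4) (by decide)
      · refine b1_c3 q hq i G0 G1 G2 G3 G4 _ (u := u) (x := x) (P0 := P0) ?_ ?_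
        · intro v hv
          simp only [mem_filter] at hv
          exact hS v hv.1.1.1
        · intro v hv w hw
          simp only [mem_filter] at hv hw
          exact ⟨hv.1.1.2.trans hw.1.1.2.symm, hv.1.2.trans hw.1.2.symm, hv.2.trans hw.2.symm⟩
    · -- the number of values of `dl v 0`
      set S2 := (S.filter (fun v => cv v 2 = c2)).filter (fun v => cv v 4 = c4) with hS2
      rcases S2.eq_empty_or_nonempty with he | ⟨v0, hv0⟩
      · rw [he]
        simpa using hX0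
      · have hv0' := hv0
        simp only [hS2, mem_filter] at hv0'
        have hp0 := (hS v0 hv0'.1.1).poly
        have e0 : dt c2 c4 = dt (cv v0 2) (cv v0 4) := by rw [hv0'.1.2, hv0'.2]
        have hn : 0 < (dt c2 c4).natAbs := by
          rw [e0, pd11_dt_cv]
          exact Int.natAbs_pos.mpr (mul_ne_zero (pd11_ne hp0 (i := 0) (j := 1) (by decide))
            (pd11_ne hp0 (i := 2) (j := 4) (by decide)))
        have hn3 : (((dt c2 c4).natAbs : ℕ) : ℝ) ≤ x ^ 3 := by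
          rw [e0]
          exact pd11_size hq hx1 hp0
        have hd := hdiv x hxx₁ _ hn hn3
        refine le_trans ?_ hd
        have hsub : S2.image (fun v => dl v 0) ⊆
            ((dt c2 c4).natAbs.divisors).image (fun d : ℕ => q.σ 0 1 * (d : ℤ)) := by
          intro d hd
          rw [mem_image] at hd
          obtain ⟨v, hv, rfl⟩ := hd
          simp only [hS2, mem_filter] at hv
          have hpv := (hS v hv.1.1).poly
          have ev : dt c2 c4 = dl v 0 * dt (v 2) (v 4) := by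
            rw [← pd11_dt_cv, hv.1.2, hv.2]
          rw [mem_image]
          refine ⟨dn v 0, ?_, ?_⟩
          · rw [Nat.mem_divisors]
            refine ⟨?_, hn.ne'⟩
            rw [ev, Int.natAbs_mul]
            exact Dvd.intro _ rfl
          · have hsg := hpv.sg 0 1 (by decide)
            have e1 : dl v 0 = dt (v 0) (v 1) := rfl
            have e2 : ((dn v 0 : ℕ) : ℤ) = |dl v 0| := by
              unfold dn
              exact Int.natCast_natAbs _
            rw [e2, e1]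
            rcases hq.hσ 0 1 with hs | hs
            · rw [hs] at hsg ⊢
              rw [abs_of_pos (by linarith)]
              ring
            · rw [hs] at hsg ⊢
              rw [abs_of_neg (by linarith)]
              ring
        exact_mod_cast (card_le_card hsub).trans card_image_le
  calc (S.card : ℝ) ≤ (((C : ℝ) * ((128 / q.c3) * R3)) * x ^ (θ / 2) * (128 * R2)) *
      (128 * R1) := key
    _ = A * x ^ (θ / 2) * (R1 * R2 * R3) := by rw [hA]; ring
    _ ≤ x ^ (θ / 2) * x ^ (θ / 2) * (R1 * R2 * R3) := by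
        apply mul_le_mul_of_nonneg_right _ (by positivity)
        exact mul_le_mul_of_nonneg_right hAx hX0
    _ = x ^ θ * (R1 * R2 * R3) := by
        rw [← Real.rpow_add hx0, add_halves]

end Pool.Agent.PENK

namespace Pool.Agent.PENK

theorem b1_count : type_of% @b1_count_pr := @b1_count_pr

end Pool.Agent.PENK
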