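import Pool.Agent.Lib_helper18.PENK.Defs2

/-! Block PD12 (project PENT, part PENK) -/

set_option autoImplicit false

namespace Pool.Agent.PENK

open Finset Pool.Agent.PENT

/-- a fraction is at most `c / Z ^ 2` -/
theorem pd12_div {a b c z : ℝ} (hb : 0 < b) (hz : 0 < z) (h : a * z ≤ c * b) : a / b ≤ c / z := by
  rw [div_le_div_iff₀ hb hz]
  exact h

theorem eight_pr (U0 U1 U2 U3 U4 G0 G1 G2 G3 G4 Z T W : ℝ) (hZ : 1 ≤ Z) (u0 : Z ≤ U0) (u1 : Z ≤ U1)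
    (u2 : Z ≤ U2) (u3 : Z ≤ U3) (u4 : Z ≤ U4) (g0 : 1 ≤ G0) (g1 : 1 ≤ G1) (g2 : 1 ≤ G2)
    (g3 : 1 ≤ G3) (g4 : 1 ≤ G4) (h0 : G0 ≤ 4 * (U0 * U1)) (h1 : G1 ≤ 4 * (U1 * U2))
    (h2 : G2 ≤ 4 * (U2 * U3)) (h3 : G3 ≤ 4 * (U3 * U4)) (h4 : G4 ≤ 4 * (U4 * U0)) (hT : 0 < T)
    (hT' : T ≤ G0 * G2 * G3) (hW : G0 * G2 * G3 ≤ W * (U0 * U1 * U3 ^ 2)) :
    G0 * G1 * G2 * G3 * G4 / (U0 * U1 * U2 * U3 * U4) ^ 2 *
      ((U0 * U1 * U2 ^ 2 / (G0 * G1 * G2) + 1) * (U0 * U1 * U4 ^ 2 / (G0 * G3 * G4) + 1) *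
        (U3 ^ 2 / (G2 * G3) + 1)) ≤ 1 / T + (105 + 16 * W) / Z ^ 2 := by
  have hZ0 : 0 < Z := by linarith
  have hZ2 : 0 < Z ^ 2 := by positivity
  have U0p : 0 < U0 := by linarith
  have U1p : 0 < U1 := by linarith
  have U2p : 0 < U2 := by linarith
  have U3p : 0 < U3 := by linarith
  have U4p : 0 < U4 := by linarith
  have G0p : 0 < G0 := by linarith
  have G1p : 0 < G1 := by linarith
  have G2p : 0 < G2 := by linarith
  have G3p : 0 < G3 := by linarith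
  have G4p : 0 < G4 := by linarith
  have prod2 : ∀ x y : ℝ, Z ≤ x → Z ≤ y → Z ^ 2 ≤ x * y := by
    intro x y hx hy
    rw [pow_two]
    exact mul_le_mul hx hy hZ0.le (by linarith)
  have hWp : 0 < W := by
    by_contra hc
    have hc' : W ≤ 0 := not_lt.1 hc
    have e1 : W * (U0 * U1 * U3 ^ 2) ≤ 0 := mul_nonpos_of_nonpos_of_nonneg hc' (by positivity)
    have e2 : 0 < G0 * G2 * G3 := by positivity
    linarith
  have expand : G0 * G1 * G2 * G3 * G4 / (U0 * U1 * U2 * U3 * U4) ^ 2 *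
      ((U0 * U1 * U2 ^ 2 / (G0 * G1 * G2) + 1) * (U0 * U1 * U4 ^ 2 / (G0 * G3 * G4) + 1) *
        (U3 ^ 2 / (G2 * G3) + 1)) =
      1 / (G0 * G2 * G3) + 1 / (G0 * U3 ^ 2) + G4 / (G2 * (U0 * U1 * U4 ^ 2)) +
        (G3 * G4) / (U0 * U1 * U3 ^ 2 * U4 ^ 2) + G1 / (G3 * (U0 * U1 * U2 ^ 2)) +
        (G1 * G2) / (U0 * U1 * U2 ^ 2 * U3 ^ 2) +
        (G0 * G1 * G4) / (U0 ^ 2 * U1 ^ 2 * U2 ^ 2 * U4 ^ 2) +
        (G0 * G2 * G3 * (G1 * G4)) / (U0 * U1 * U2 * U3 * U4) ^ 2 := by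
    field_simp
    ring
  have t1 : 1 / (G0 * G2 * G3) ≤ 1 / T := one_div_le_one_div_of_le hT hT'
  have t2 : 1 / (G0 * U3 ^ 2) ≤ 1 / Z ^ 2 := by
    apply one_div_le_one_div_of_le hZ2
    have e1 : Z ^ 2 ≤ U3 ^ 2 := pow_le_pow_left₀ hZ0.le u3 2
    have e2 : U3 ^ 2 ≤ G0 * U3 ^ 2 := le_mul_of_one_le_left (by positivity) g0
    linarith
  have t3 : G4 / (G2 * (U0 * U1 * U4 ^ 2)) ≤ 4 / Z ^ 2 := by
    apply pd12_div (by positivity) hZ2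
    calc G4 * Z ^ 2 ≤ (4 * (U4 * U0)) * (U1 * U4) :=
          mul_le_mul h4 (prod2 _ _ u1 u4) hZ2.le (by positivity)
      _ = 4 * (1 * (U0 * U1 * U4 ^ 2)) := by ring
      _ ≤ 4 * (G2 * (U0 * U1 * U4 ^ 2)) := by
          apply mul_le_mul_of_nonneg_left _ (by norm_num)
          exact mul_le_mul_of_nonneg_right g2 (by positivity)
  have t4 : (G3 * G4) / (U0 * U1 * U3 ^ 2 * U4 ^ 2) ≤ 16 / Z ^ 2 := by
    apply pd12_div (by positivity) hZ2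
    calc G3 * G4 * Z ^ 2 ≤ (4 * (U3 * U4)) * (4 * (U4 * U0)) * (U1 * U3) :=
          mul_le_mul (mul_le_mul h3 h4 G4p.le (by positivity)) (prod2 _ _ u1 u3) hZ2.le
            (by positivity)
      _ = 16 * (U0 * U1 * U3 ^ 2 * U4 ^ 2) := by ring
  have t5 : G1 / (G3 * (U0 * U1 * U2 ^ 2)) ≤ 4 / Z ^ 2 := by
    apply pd12_div (by positivity) hZ2
    calc G1 * Z ^ 2 ≤ (4 * (U1 * U2)) * (U0 * U2) :=
          mul_le_mul h1 (prod2 _ _ u0 u2) hZ2.le (by positivity)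
      _ = 4 * (1 * (U0 * U1 * U2 ^ 2)) := by ring
      _ ≤ 4 * (G3 * (U0 * U1 * U2 ^ 2)) := by
          apply mul_le_mul_of_nonneg_left _ (by norm_num)
          exact mul_le_mul_of_nonneg_right g3 (by positivity)
  have t6 : (G1 * G2) / (U0 * U1 * U2 ^ 2 * U3 ^ 2) ≤ 16 / Z ^ 2 := by
    apply pd12_div (by positivity) hZ2
    calc G1 * G2 * Z ^ 2 ≤ (4 * (U1 * U2)) * (4 * (U2 * U3)) * (U0 * U3) :=
          mul_le_mul (mul_le_mul h1 h2 G2p.le (by positivity)) (prod2 _ _ u0 u3) hZ2.le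
            (by positivity)
      _ = 16 * (U0 * U1 * U2 ^ 2 * U3 ^ 2) := by ring
  have t7 : (G0 * G1 * G4) / (U0 ^ 2 * U1 ^ 2 * U2 ^ 2 * U4 ^ 2) ≤ 64 / Z ^ 2 := by
    apply pd12_div (by positivity) hZ2
    calc G0 * G1 * G4 * Z ^ 2 ≤ (4 * (U0 * U1)) * (4 * (U1 * U2)) * (4 * (U4 * U0)) *
          (U2 * U4) :=
          mul_le_mul (mul_le_mul (mul_le_mul h0 h1 G1p.le (by positivity)) h4 G4p.le
            (by positivity)) (prod2 _ _ u2 u4) hZ2.le (by positivity)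
      _ = 64 * (U0 ^ 2 * U1 ^ 2 * U2 ^ 2 * U4 ^ 2) := by ring
  have t8 : (G0 * G2 * G3 * (G1 * G4)) / (U0 * U1 * U2 * U3 * U4) ^ 2 ≤ (16 * W) / Z ^ 2 := by
    apply pd12_div (by positivity) hZ2
    calc G0 * G2 * G3 * (G1 * G4) * Z ^ 2 ≤
          (W * (U0 * U1 * U3 ^ 2)) * ((4 * (U1 * U2)) * (4 * (U4 * U0))) * (U2 * U4) :=
          mul_le_mul (mul_le_mul hW (mul_le_mul h1 h4 G4p.le (by positivity)) (by positivity)
            (by positivity)) (prod2 _ _ u2 u4) hZ2.le (by positivity)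
      _ = 16 * W * (U0 * U1 * U2 * U3 * U4) ^ 2 := by ring
  have tsum : (105 + 16 * W) / Z ^ 2 = 1 / Z ^ 2 + 4 / Z ^ 2 + 16 / Z ^ 2 + 4 / Z ^ 2 +
      16 / Z ^ 2 + 64 / Z ^ 2 + (16 * W) / Z ^ 2 := by
    rw [← add_div, ← add_div, ← add_div, ← add_div, ← add_div, ← add_div]
    congr 1
    ring
  rw [expand, tsum]
  linarith

end Pool.Agent.PENK

namespace Pool.Agent.PENK

theorem eight : type_of% @eight_pr := @eight_pr

end Pool.Agent.PENK
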