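import Pool.Agent.Lib_helper18.PENK.Defs2
import Pool.Agent.Lib_helper18.PENKF.DefsW
import Pool.Agent.Lib_helper18.PENKF.PB2
import Pool.Agent.Lib_helper18.PENKF.PB3
import Pool.Agent.Lib_helper18.PENKF.PD2

set_option autoImplicit false

namespace Pool.Agent.PENK

open Finset Pool.Agent.PENT

theorem pd13_cases {p : ℕ} (hp : p.Prime) {u : PolyK 5} (h : p ∣ bad u) :
    p ∣ dn u 0 ∨ p ∣ dn u 2 ∨ p ∣ dn u 3 := by
  unfold bad at h
  obtain ⟨j, hj, hd⟩ := (Prime.dvd_finsetProd_iff (Nat.prime_iff.1 hp) _).1 h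
  fin_cases j
  · exact Or.inl hd
  · exact absurd hj (by decide)
  · exact Or.inr (Or.inl hd)
  · exact Or.inr (Or.inr hd)
  · exact absurd hj (by decide)

theorem pd13_line {q : Par 5} {x : ℝ} {P0 : ℕ} {u : PolyK 5} (hu : IsPoly q x P0 u) {p : ℕ}
    (hp : p.Prime) (h : p ∣ bad u) : (p : ℤ) ∣ dt (Lv u p) (cv u 3) := by
  rcases pd13_cases hp h with h0 | h2 | h3
  · exact (Lv_par0 (le_refl 5) hu hp h0 3 (by decide)).1
  · exact (Lv_par (le_refl 5) hu hp (j := 2) (by decide) (by decide) h2).2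
  · exact (Lv_par (le_refl 5) hu hp (j := 3) (by decide) (by decide) h3).1

theorem pd13_par {p : ℕ} (hp : p.Prime) {L L' c c' : ℤ × ℤ} (h1 : ¬ (p : ℤ) ∣ L.1)
    (h2 : ¬ (p : ℤ) ∣ L'.1) (h3 : (p : ℤ) ∣ dt L L') (h4 : (p : ℤ) ∣ dt L c)
    (h5 : (p : ℤ) ∣ dt L' c') : (p : ℤ) ∣ dt c c' := by
  unfold dt at *
  have hpi : Prime (p : ℤ) := Nat.prime_iff_prime_int.1 hp
  have h6 : (p : ℤ) ∣ L.1 * (L'.1 * (c.1 * c'.2 - c.2 * c'.1)) := by
    have h7 : L.1 * (L'.1 * (c.1 * c'.2 - c.2 * c'.1)) =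
        (L.1 * c.1) * (L'.1 * c'.2 - L'.2 * c'.1) - (L.1 * c.2 - L.2 * c.1) * (L'.1 * c'.1) +
          (L.1 * L'.2 - L.2 * L'.1) * (c.1 * c'.1) := by ring
    rw [h7]
    exact dvd_add (dvd_sub (Dvd.dvd.mul_left h5 _) (Dvd.dvd.mul_right h4 _))
      (Dvd.dvd.mul_right h3 _)
  rcases hpi.dvd_or_dvd h6 with h | h
  · exact absurd h h1
  rcases hpi.dvd_or_dvd h with h | h
  · exact absurd h h2
  exact h

theorem pd13_eq {a b : ℤ × ℤ} (ha : Int.gcd a.1 a.2 = 1) (hb : Int.gcd b.1 b.2 = 1)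
    (hd : dt a b = 0) {s : ℤ} (h1 : 0 < s * a.2) (h2 : 0 < s * b.2) : b = a := by
  unfold dt at hd
  have hca : IsCoprime a.2 a.1 := (Int.isCoprime_iff_gcd_eq_one.2 ha).symm
  have hcb : IsCoprime b.2 b.1 := (Int.isCoprime_iff_gcd_eq_one.2 hb).symm
  have e1 : a.2 ∣ b.2 := by
    apply hca.dvd_of_dvd_mul_left
    exact ⟨b.1, by linarith⟩
  have e2 : b.2 ∣ a.2 := by
    apply hcb.dvd_of_dvd_mul_left
    exact ⟨a.1, by linarith⟩
  have e3 : a.2 = b.2 := by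
    have e4 := Int.natAbs_eq_natAbs_iff.1 (Int.natAbs_dvd_natAbs.2 e1 |>.antisymm
      (Int.natAbs_dvd_natAbs.2 e2))
    rcases e4 with h | h
    · exact h
    · exfalso
      rw [h] at h1
      have : s * -b.2 = -(s * b.2) := by ring
      rw [this] at h1
      linarith
  have hne : a.2 ≠ 0 := by
    intro h
    rw [h, mul_zero] at h1
    exact lt_irrefl _ h1
  have e5 : a.2 * (b.1 - a.1) = 0 := by
    rw [← e3] at hd
    linarith
  rcases mul_eq_zero.1 e5 with h | h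
  · exact absurd h hne
  · exact Prod.ext (by linarith) e3.symm

theorem Gc_dvd_pr {q : Par 5} {x : ℝ} {P0 : ℕ} {u v : PolyK 5} (hq : q.Ok) (hu : IsPoly q x P0 u)
    (hv : IsPoly q x P0 v) (hne : cv v 3 ≠ cv u 3) :
    (Gc u v : ℤ) ∣ dt (cv u 3) (cv v 3) ∧ dt (cv u 3) (cv v 3) ≠ 0 := by
  classical
  constructor
  · rw [Int.natCast_dvd]
    unfold Gc
    apply Finset.prod_primes_dvd
    · intro p hp
      exact Nat.prime_iff.1 (Nat.prime_of_mem_primeFactors (mem_filter.1 hp).1)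
    · intro p hp
      obtain ⟨h1, h2⟩ := mem_filter.1 hp
      have hpp := Nat.prime_of_mem_primeFactors h1
      have hd := Nat.dvd_of_mem_primeFactors h1
      have hdu : p ∣ bad u := hd.trans (Nat.gcd_dvd_left _ _)
      have hdv : p ∣ bad v := hd.trans (Nat.gcd_dvd_right _ _)
      rw [← Int.natCast_dvd]
      exact pd13_par hpp (Lv_bad (le_refl 5) hu hpp hdu).1 (Lv_bad (le_refl 5) hv hpp hdv).1 h2
        (pd13_line hu hpp hdu) (pd13_line hv hpp hdv)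
  · intro h0
    exact hne (pd13_eq (cv_prim hu 3 (by decide)) (cv_prim hv 3 (by decide)) h0
      (hu.sg 0 3 (by decide)) (hv.sg 0 3 (by decide)))

theorem pd13_dt (a b : ℤ × ℤ) : |dt a b| ≤ (nr a : ℤ) * nr b := by
  unfold dt nr
  push_cast
  have h1 : |a.1 * b.2 - a.2 * b.1| ≤ |a.1 * b.2| + |a.2 * b.1| := abs_sub _ _
  rw [abs_mul, abs_mul] at h1
  nlinarith [mul_nonneg (abs_nonneg a.1) (abs_nonneg b.1),
    mul_nonneg (abs_nonneg a.2) (abs_nonneg b.2)]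

theorem Gc_le_pr {q : Par 5} {x : ℝ} (hx : 1 ≤ x) {P0 : ℕ} {u v : PolyK 5} (hq : q.Ok)
    (hu : IsPoly q x P0 u) (hv : IsPoly q x P0 v) (hne : cv v 3 ≠ cv u 3) {i : Fin 5 → ℕ}
    (hi : Siz i v) :
    (Gc u v : ℝ) ≤ 32 * x ^ (q.ε / 25) * ((2 : ℝ) ^ i 0 * 2 ^ i 1 * (2 ^ i 3) ^ 2) := by
  obtain ⟨hd, h0⟩ := Gc_dvd_pr hq hu hv hne
  have hx0 : 0 < x := by linarith
  have h1 : (Gc u v : ℤ) ≤ |dt (cv u 3) (cv v 3)| :=
    Int.le_of_dvd (abs_pos.2 h0) ((dvd_abs _ _).2 hd)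
  have h2 : |dt (cv u 3) (cv v 3)| ≤
      (nr (u 3) : ℤ) * nr (u 1) * (nr (v 0) * nr (v 3)) +
        (nr (u 0) : ℤ) * nr (u 3) * (nr (v 3) * nr (v 1)) := by
    have e : dt (cv u 3) (cv v 3) = dt (u 3) (u 1) * dt (v 0) (v 3) -
        dt (u 0) (u 3) * dt (v 3) (v 1) := rfl
    rw [e]
    refine (abs_sub _ _).trans ?_
    rw [abs_mul, abs_mul]
    exact add_le_add (mul_le_mul (pd13_dt _ _) (pd13_dt _ _) (abs_nonneg _) (by positivity))
      (mul_le_mul (pd13_dt _ _) (pd13_dt _ _) (abs_nonneg _) (by positivity))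
  have h3 : (Gc u v : ℝ) ≤ (nr (u 3) : ℝ) * nr (u 1) * (nr (v 0) * nr (v 3)) +
        (nr (u 0) : ℝ) * nr (u 3) * (nr (v 3) * nr (v 1)) := by exact_mod_cast h1.trans h2
  set E : ℝ := x ^ (q.ε / 50) with hE
  have hE0 : 0 ≤ E := Real.rpow_nonneg hx0.le _
  have hE2 : E * E = x ^ (q.ε / 25) := by
    rw [hE, ← Real.rpow_add hx0]
    congr 1
    ring
  have huv : ∀ j, (nr (u j) : ℝ) ≤ E * nr (v j) := by
    intro j
    have a1 := hu.hi j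
    rw [Real.rpow_add hx0] at a1
    have a2 := hv.lo j
    calc (nr (u j) : ℝ) ≤ x ^ q.e j * E := a1
      _ ≤ nr (v j) * E := mul_le_mul_of_nonneg_right a2 hE0
      _ = E * nr (v j) := mul_comm _ _
  have hvi : ∀ j, (nr (v j) : ℝ) ≤ 2 * 2 ^ i j := by
    intro j
    have := (hi j).2
    have h4 : (nr (v j) : ℝ) ≤ ((2 ^ (i j + 1) : ℕ) : ℝ) := by exact_mod_cast this.le
    rw [Nat.cast_pow, pow_succ] at h4
    push_cast at h4
    linarith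
  have n0 : ∀ w : ℤ × ℤ, (0 : ℝ) ≤ nr w := fun w => Nat.cast_nonneg _
  have h4 : (nr (u 3) : ℝ) * nr (u 1) ≤ (E * nr (v 3)) * (E * nr (v 1)) :=
    mul_le_mul (huv 3) (huv 1) (n0 _) (mul_nonneg hE0 (n0 _))
  have h5 : (nr (u 0) : ℝ) * nr (u 3) ≤ (E * nr (v 0)) * (E * nr (v 3)) :=
    mul_le_mul (huv 0) (huv 3) (n0 _) (mul_nonneg hE0 (n0 _))
  have h6 : (nr (u 3) : ℝ) * nr (u 1) * (nr (v 0) * nr (v 3)) +
        (nr (u 0) : ℝ) * nr (u 3) * (nr (v 3) * nr (v 1)) ≤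
      2 * (E * E) * ((nr (v 0) : ℝ) * nr (v 1) * ((nr (v 3) : ℝ) * nr (v 3))) := by
    have b1 := mul_le_mul_of_nonneg_right h4 (mul_nonneg (n0 (v 0)) (n0 (v 3)))
    have b2 := mul_le_mul_of_nonneg_right h5 (mul_nonneg (n0 (v 3)) (n0 (v 1)))
    calc _ ≤ (E * nr (v 3)) * (E * nr (v 1)) * (nr (v 0) * nr (v 3)) +
          (E * nr (v 0)) * (E * nr (v 3)) * (nr (v 3) * nr (v 1)) := add_le_add b1 b2
      _ = _ := by ring
  have h7 : (nr (v 0) : ℝ) * nr (v 1) * ((nr (v 3) : ℝ) * nr (v 3)) ≤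
      (2 * 2 ^ i 0) * (2 * 2 ^ i 1) * ((2 * 2 ^ i 3) * (2 * 2 ^ i 3)) :=
    mul_le_mul (mul_le_mul (hvi 0) (hvi 1) (n0 _) (by positivity))
      (mul_le_mul (hvi 3) (hvi 3) (n0 _) (by positivity)) (mul_nonneg (n0 _) (n0 _))
      (by positivity)
  calc (Gc u v : ℝ) ≤ 2 * (E * E) * ((nr (v 0) : ℝ) * nr (v 1) * ((nr (v 3) : ℝ) * nr (v 3))) :=
        h3.trans h6
    _ ≤ 2 * (E * E) * ((2 * 2 ^ i 0) * (2 * 2 ^ i 1) * ((2 * 2 ^ i 3) * (2 * 2 ^ i 3))) :=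
        mul_le_mul_of_nonneg_left h7 (by positivity)
    _ = _ := by
        rw [hE2]
        ring

end Pool.Agent.PENK

namespace Pool.Agent.PENK

theorem Gc_dvd : type_of% @Gc_dvd_pr := @Gc_dvd_pr

theorem Gc_le : type_of% @Gc_le_pr := @Gc_le_pr

end Pool.Agent.PENK
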