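import Pool.Agent.Lib_helper18.PENK.Defs2
import Pool.Agent.Lib_helper18.PENKF.DefsW
import Pool.Agent.Lib_helper18.PENKF.PF3

/-! Block PF8 -/

set_option autoImplicit false

namespace Pool.Agent.PENK

open Finset Pool.Agent.PENT

theorem pf8_gcd {a b c : ℤ × ℤ} (h : Nat.Coprime (dt c a).natAbs (dt a b).natAbs) :
    Int.gcd a.1 a.2 = 1 := by
  have h1 : (Int.gcd a.1 a.2 : ℤ) ∣ a.1 := Int.gcd_dvd_left ..
  have h2 : (Int.gcd a.1 a.2 : ℤ) ∣ a.2 := Int.gcd_dvd_right ..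
  have h3 : (Int.gcd a.1 a.2 : ℤ) ∣ dt c a := by
    unfold dt
    exact dvd_sub (Dvd.dvd.mul_left h2 _) (Dvd.dvd.mul_left h1 _)
  have h4 : (Int.gcd a.1 a.2 : ℤ) ∣ dt a b := by
    unfold dt
    exact dvd_sub (Dvd.dvd.mul_right h1 _) (Dvd.dvd.mul_right h2 _)
  have h5 : Int.gcd a.1 a.2 ∣ (dt c a).natAbs := Int.natCast_dvd.mp h3
  have h6 : Int.gcd a.1 a.2 ∣ (dt a b).natAbs := Int.natCast_dvd.mp h4
  have h7 := Nat.dvd_gcd h5 h6
  rw [h] at h7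
  exact Nat.dvd_one.mp h7

theorem pf8_pair {m n : ℕ} {a b : ℤ × ℤ} (ha : Int.gcd a.1 a.2 = 1) (hb : Int.gcd b.1 b.2 = 1)
    (h1 : 2 ^ m ≤ nr a) (h2 : nr a < 2 ^ (m + 1)) (h3 : 2 ^ n ≤ nr b) (h4 : nr b < 2 ^ (n + 1)) :
    ∃ o ∈ OP (2 ^ (min m n + 1)) (4 * 2 ^ (max m n - min m n)),
      pP (sgb (decide (m < n)) (dt a b)) o = if m < n then (a, b) else (b, a) := by
  by_cases hmn : m < n
  · obtain ⟨o, ho, ho'⟩ := pair_mem hmn.le ha h1 h2 h4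
    refine ⟨o, ?_, ?_⟩
    · rw [min_eq_left hmn.le, max_eq_right hmn.le]
      exact ho
    · simp only [hmn, decide_true, sgb, if_true]
      exact ho'
  · have hnm : n ≤ m := not_lt.mp hmn
    obtain ⟨o, ho, ho'⟩ := pair_mem hnm hb h3 h4 h2
    refine ⟨o, ?_, ?_⟩
    · rw [min_eq_right hnm, max_eq_left hnm]
      exact ho
    · have e : -dt a b = dt b a := by unfold dt; ring
      simp only [hmn, decide_false, sgb, if_false, Bool.false_eq_true]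
      rw [e]
      exact ho'

theorem pent_mem_pr (q : Par 5) (hq : q.Ok) {x : ℝ} {P0 : ℕ}
    {u : PolyK 5} (hu : IsPoly q x P0 u) {i : Fin 5 → ℕ} (hi : Siz i u) :
    ∃ o ∈ O5 i, pol5 i (dl u 1) (dl u 4) o = u := by
  have g1 : Int.gcd (u 1).1 (u 1).2 = 1 := pf8_gcd (hu.co 0 1 (by decide))
  have g2 : Int.gcd (u 2).1 (u 2).2 = 1 := pf8_gcd (hu.co 1 2 (by decide))
  have g4 : Int.gcd (u 4).1 (u 4).2 = 1 := pf8_gcd (hu.co 3 4 (by decide))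
  have g0 : Int.gcd (u 0).1 (u 0).2 = 1 := pf8_gcd (hu.co 4 0 (by decide))
  obtain ⟨o1, ho1, ho1'⟩ := pf8_pair g1 g2 (hi 1).1 (hi 1).2 (hi 2).1 (hi 2).2
  obtain ⟨o4, ho4, ho4'⟩ := pf8_pair g4 g0 (hi 4).1 (hi 4).2 (hi 0).1 (hi 0).2
  have e1 : dl u 1 = dt (u 1) (u 2) := rfl
  have e4 : dl u 4 = dt (u 4) (u 0) := rfl
  refine ⟨((o1, o4), u 3), ?_, ?_⟩
  · unfold O5
    rw [mem_product, mem_product]
    refine ⟨⟨ho1, ho4⟩, ?_⟩
    have h3 := (hi 3).2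
    unfold nr at h3
    unfold sq
    rw [mem_product, mem_Icc, mem_Icc]
    have h3' : ((u 3).1.natAbs : ℤ) + ((u 3).2.natAbs : ℤ) < ((2 ^ (i 3 + 1) : ℕ) : ℤ) := by
      exact_mod_cast h3
    obtain ⟨B, hB⟩ : ∃ B : ℤ, B = ((2 ^ (i 3 + 1) : ℕ) : ℤ) := ⟨_, rfl⟩
    rw [← hB] at h3'
    simp only [← hB]
    omega
  · unfold pol5
    rw [e1, e4]
    simp only [ho1', ho4']
    funext j
    by_cases c1 : i 1 < i 2 <;> by_cases c4 : i 4 < i 0 <;> fin_cases j <;>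
      simp [asm5, c1, c4]

theorem siz_ok_pr (q : Par 5) (hq : q.Ok) {x : ℝ} (hx : 1 ≤ x) {P0 : ℕ} {u : PolyK 5}
    (hu : IsPoly q x P0 u) : ∃ i : Fin 5 → ℕ, Siz i u ∧ SizOk q x i := by
  have hpos : ∀ j, nr (u j) ≠ 0 := by
    intro j h
    have h1 := hu.lo j
    rw [h] at h1
    have h2 : 0 < x ^ q.e j := Real.rpow_pos_of_pos (by linarith) _
    simp only [Nat.cast_zero] at h1
    linarith
  refine ⟨fun j => Nat.log 2 (nr (u j)), ?_, ?_⟩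
  · intro j
    exact ⟨Nat.pow_log_le_self 2 (hpos j), Nat.lt_pow_succ_log_self (by norm_num) _⟩
  · intro j
    have h1 : 2 ^ Nat.log 2 (nr (u j)) ≤ nr (u j) := Nat.pow_log_le_self 2 (hpos j)
    have h2 : nr (u j) < 2 ^ (Nat.log 2 (nr (u j)) + 1) := Nat.lt_pow_succ_log_self (by norm_num) _
    have h1' : (2 : ℝ) ^ Nat.log 2 (nr (u j)) ≤ nr (u j) := by exact_mod_cast h1
    have h2' : (nr (u j) : ℝ) < 2 ^ (Nat.log 2 (nr (u j)) + 1) := by exact_mod_cast h2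
    rw [pow_succ] at h2'
    have h3 := hu.lo j
    have h4 := hu.hi j
    simp only
    constructor
    · linarith
    · linarith

end Pool.Agent.PENK

namespace Pool.Agent.PENK

theorem pent_mem : type_of% @pent_mem_pr := @pent_mem_pr

theorem siz_ok : type_of% @siz_ok_pr := @siz_ok_pr

end Pool.Agent.PENK
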