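import Pool.Agent.Lib_helper18.PENK.Defs2
import Pool.Agent.Lib_helper18.PENKF.DefsW
import Pool.Agent.Lib_helper18.PENKF.PD5
import Pool.Agent.Lib_helper18.PENKF.PD11
import Pool.Agent.Lib_helper18.PENKF.PD12
import Pool.Agent.Lib_helper18.PENKF.PD13
import Pool.Agent.Lib_helper18.PENKF.PF8

/-! Block PD14: the sum (B1) for fixed `u` -/

set_option autoImplicit false

namespace Pool.Agent.PENK

open Finset Pool.Agent.PENT

theorem pd14_dt_le (a b : ℤ × ℤ) : (dt a b).natAbs ≤ nr a * nr b := by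
  unfold dt nr
  calc (a.1 * b.2 - a.2 * b.1).natAbs ≤ (a.1 * b.2).natAbs + (a.2 * b.1).natAbs :=
        Int.natAbs_sub_le _ _
    _ = a.1.natAbs * b.2.natAbs + a.2.natAbs * b.1.natAbs := by
        rw [Int.natAbs_mul, Int.natAbs_mul]
    _ ≤ (a.1.natAbs + a.2.natAbs) * (b.1.natAbs + b.2.natAbs) := by
        nlinarith [Nat.zero_le (a.1.natAbs * b.1.natAbs), Nat.zero_le (a.2.natAbs * b.2.natAbs)]

theorem pd14_dn_pos {q : Par 5} {x : ℝ} {P0 : ℕ} {u : PolyK 5} (h : IsPoly q x P0 u)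
    (j : Fin 5) : 0 < dn u j := by
  have h1 := h.sg j (j + 1) (by revert j; decide)
  unfold dn dl
  apply Int.natAbs_pos.2
  intro h2
  rw [h2] at h1
  simp at h1

theorem pd14_bad (u : PolyK 5) : bad u = dn u 0 * dn u 2 * dn u 3 := by
  have h : inr 5 = {0, 2, 3} := by decide
  unfold bad
  rw [h]
  simp [Finset.prod_insert, mul_assoc]

theorem pd14_DD (u : PolyK 5) : DD u = dn u 0 * dn u 1 * dn u 2 * dn u 3 * dn u 4 := by
  unfold DD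
  rw [Fin.prod_univ_five]

theorem pd14_Gc_dvd_gcd (u v : PolyK 5) : Gc u v ∣ Nat.gcd (bad u) (bad v) := by
  classical
  unfold Gc
  refine (Finset.prod_dvd_prod_of_subset _ _ _ (Finset.filter_subset _ _)).trans
    (Nat.prod_primeFactors_dvd _)

theorem pd14_Gc_prime {u v : PolyK 5} {p : ℕ} (hp : p.Prime) (h : p ∣ Gc u v) :
    SameL u v p := by
  classical
  unfold Gc at h
  obtain ⟨r, hr, hpr⟩ := (Prime.dvd_finsetProd_iff hp.prime _).1 h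
  rw [Finset.mem_filter] at hr
  have h1 := (Nat.prime_dvd_prime_iff_eq hp (Nat.prime_of_mem_primeFactors hr.1)).1 hpr
  rw [h1]
  exact hr.2

theorem pd14_split {g a b c : ℕ} (h : g ∣ a * b * c) (h1 : Nat.Coprime a b)
    (h2 : Nat.Coprime a c) (h3 : Nat.Coprime b c) :
    g = Nat.gcd g a * Nat.gcd g b * Nat.gcd g c := by
  rw [← Nat.Coprime.gcd_mul _ h1, ← Nat.Coprime.gcd_mul _ (Nat.Coprime.mul_left h2 h3)]
  exact (Nat.gcd_eq_left h).symm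

/-- the parts of the common factors -/
noncomputable def pd14_G (u v : PolyK 5) (k : Fin 5) : ℕ :=
  if k = 1 then Nat.gcd (dn u 1) (dn v 1) else if k = 4 then Nat.gcd (dn u 4) (dn v 4)
  else Nat.gcd (Gc u v) (dn v k)

theorem pd14_G_dvd (u v : PolyK 5) (k : Fin 5) : pd14_G u v k ∣ dn v k := by
  unfold pd14_G
  by_cases h1 : k = 1
  · rw [if_pos h1, h1]; exact Nat.gcd_dvd_right _ _
  rw [if_neg h1]
  by_cases h4 : k = 4
  · rw [if_pos h4, h4]; exact Nat.gcd_dvd_right _ _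
  rw [if_neg h4]
  exact Nat.gcd_dvd_right _ _

theorem pd14_bad_dvd (u : PolyK 5) : bad u ∣ DD u := by
  rw [pd14_bad, pd14_DD]
  exact ⟨dn u 1 * dn u 4, by ring⟩

theorem pd14_G_dvd' (u v : PolyK 5) (k : Fin 5) : pd14_G u v k ∣ DD u := by
  unfold pd14_G
  have hd : ∀ j, dn u j ∣ DD u := fun j => Finset.dvd_prod_of_mem _ (Finset.mem_univ j)
  by_cases h1 : k = 1
  · rw [if_pos h1]; exact (Nat.gcd_dvd_left _ _).trans (hd 1)
  rw [if_neg h1]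
  by_cases h4 : k = 4
  · rw [if_pos h4]; exact (Nat.gcd_dvd_left _ _).trans (hd 4)
  rw [if_neg h4]
  exact (Nat.gcd_dvd_left _ _).trans ((pd14_Gc_dvd_gcd u v).trans
    ((Nat.gcd_dvd_left _ _).trans (pd14_bad_dvd u)))

theorem pd14_Gc_eq {q : Par 5} {x : ℝ} {P0 : ℕ} {u v : PolyK 5} (hv : IsPoly q x P0 v) :
    Gc u v = pd14_G u v 0 * pd14_G u v 2 * pd14_G u v 3 := by
  have h1 : Gc u v ∣ dn v 0 * dn v 2 * dn v 3 := by
    rw [← pd14_bad]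
    exact (pd14_Gc_dvd_gcd u v).trans (Nat.gcd_dvd_right _ _)
  have h2 := pd14_split h1 (hv.co 0 2 (by decide)) (hv.co 0 3 (by decide))
    (hv.co 2 3 (by decide))
  unfold pd14_G
  simpa using h2

theorem pd14_DD_le {q : Par 5} (hq : q.Ok) {x : ℝ} (hx : 1 ≤ x) {P0 : ℕ} {u : PolyK 5}
    (h : IsPoly q x P0 u) : (DD u : ℝ) ≤ x := by
  have hx0 : 0 < x := by linarith
  have h1 : (DD u : ℝ) ≤ ∏ j : Fin 5, x ^ (q.e j + q.ε / 50 + (q.e (j + 1) + q.ε / 50)) := by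
    unfold DD
    push_cast
    apply Finset.prod_le_prod (fun j _ => Nat.cast_nonneg _)
    intro j _
    have h2 : (dn u j : ℝ) ≤ nr (u j) * nr (u (j + 1)) := by
      unfold dn dl
      exact_mod_cast pd14_dt_le _ _
    rw [Real.rpow_add hx0]
    refine h2.trans (mul_le_mul (h.hi j) (h.hi (j + 1)) (Nat.cast_nonneg _)
      (Real.rpow_nonneg hx0.le _))
  refine h1.trans ?_
  rw [← Real.rpow_sum_of_pos hx0]
  have h3 : ∑ j : Fin 5, (q.e j + q.ε / 50 + (q.e (j + 1) + q.ε / 50)) ≤ 1 := by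
    have h4 := hq.hs
    have h5 := hq.δ1
    have h6 := hq.ε0
    rw [Fin.sum_univ_five] at h4 ⊢
    have e1 : (0 : Fin 5) + 1 = 1 := rfl
    have e2 : (1 : Fin 5) + 1 = 2 := rfl
    have e3 : (2 : Fin 5) + 1 = 3 := rfl
    have e4 : (3 : Fin 5) + 1 = 4 := rfl
    have e5 : (4 : Fin 5) + 1 = 0 := rfl
    rw [e1, e2, e3, e4, e5]
    linarith
  calc x ^ (∑ j : Fin 5, (q.e j + q.ε / 50 + (q.e (j + 1) + q.ε / 50))) ≤ x ^ (1 : ℝ) :=
        Real.rpow_le_rpow_of_exponent_le hx h3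
    _ = x := Real.rpow_one x

/-- lower bound of the edges -/
theorem pd14_dn_ge {q : Par 5} (hq : q.Ok) {u : PolyK 5} (hs : Sep q u) {i : Fin 5 → ℕ}
    (hi : Siz i u) (j : Fin 5) :
    q.c3 * ((2 : ℝ) ^ i j * 2 ^ i (j + 1)) ≤ (dn u j : ℝ) := by
  have h1 := hs j (j + 1) (by revert j; decide)
  have h2 : |((dt (u j) (u (j + 1)) : ℤ) : ℝ)| = (dn u j : ℝ) := by
    unfold dn dl
    rw [Nat.cast_natAbs, Int.cast_abs]
  rw [h2] at h1
  refine le_trans ?_ h1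
  have h3 : ((2 : ℝ) ^ i j) ≤ nr (u j) := by exact_mod_cast (hi j).1
  have h4 : ((2 : ℝ) ^ i (j + 1)) ≤ nr (u (j + 1)) := by exact_mod_cast (hi (j + 1)).1
  rw [mul_assoc]
  exact mul_le_mul_of_nonneg_left (mul_le_mul h3 h4 (by positivity) (Nat.cast_nonneg _))
    hq.c30.le

theorem pd14_DD_ge {q : Par 5} (hq : q.Ok) {u : PolyK 5} (hs : Sep q u) {i : Fin 5 → ℕ}
    (hi : Siz i u) :
    q.c3 ^ 5 * ((2 : ℝ) ^ i 0 * 2 ^ i 1 * 2 ^ i 2 * 2 ^ i 3 * 2 ^ i 4) ^ 2 ≤ (DD u : ℝ) := by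
  have h1 : ∏ j : Fin 5, (q.c3 * ((2 : ℝ) ^ i j * 2 ^ i (j + 1))) ≤ ∏ j : Fin 5, (dn u j : ℝ) := by
    apply Finset.prod_le_prod
    · intro j _
      have := hq.c30
      positivity
    · intro j _
      exact pd14_dn_ge hq hs hi j
  have h2 : (DD u : ℝ) = ∏ j : Fin 5, (dn u j : ℝ) := by
    unfold DD
    push_cast
    rfl
  rw [h2]
  refine le_trans (le_of_eq ?_) h1
  rw [Fin.prod_univ_five]
  have e1 : (0 : Fin 5) + 1 = 1 := rfl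
  have e2 : (1 : Fin 5) + 1 = 2 := rfl
  have e3 : (2 : Fin 5) + 1 = 3 := rfl
  have e4 : (3 : Fin 5) + 1 = 4 := rfl
  have e5 : (4 : Fin 5) + 1 = 0 := rfl
  rw [e1, e2, e3, e4, e5]
  ring

theorem pd14_dn_lt {u : PolyK 5} {i : Fin 5 → ℕ} (hi : Siz i u) (j : Fin 5) :
    (dn u j : ℝ) ≤ 4 * ((2 : ℝ) ^ i j * 2 ^ i (j + 1)) := by
  have h1 : dn u j ≤ nr (u j) * nr (u (j + 1)) := by
    unfold dn dl
    exact pd14_dt_le _ _
  have h2 : nr (u j) * nr (u (j + 1)) ≤ 2 ^ (i j + 1) * 2 ^ (i (j + 1) + 1) :=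
    Nat.mul_le_mul (hi j).2.le (hi (j + 1)).2.le
  have h3 : ((dn u j : ℕ) : ℝ) ≤ ((2 ^ (i j + 1) * 2 ^ (i (j + 1) + 1) : ℕ) : ℝ) := by
    exact_mod_cast h1.trans h2
  refine h3.trans (le_of_eq ?_)
  push_cast
  ring

/-- the sizes are logarithmic -/
theorem pd14_i_le {q : Par 5} (hq : q.Ok) {x : ℝ} (hx : 1 ≤ x) {i : Fin 5 → ℕ}
    (hi : SizOk q x i) (j : Fin 5) : i j ≤ ⌊2 * Real.log x⌋₊ := by
  have h1 := (hi j).2
  have hx0 : 0 < x := by linarith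
  have h2 : q.e j + q.ε / 50 ≤ 1 := by
    have h4 := hq.hs
    have h5 := hq.δ1
    have h6 := hq.ε0
    have h7 : q.e j + q.ε ≤ ∑ j, (q.e j + q.ε) :=
      Finset.single_le_sum (f := fun j => q.e j + q.ε)
        (fun k _ => by have := hq.he k; show 0 ≤ q.e k + q.ε; linarith) (Finset.mem_univ j)
    linarith
  have h3 : (2 : ℝ) ^ i j ≤ x := by
    refine h1.trans ?_
    calc x ^ (q.e j + q.ε / 50) ≤ x ^ (1 : ℝ) := Real.rpow_le_rpow_of_exponent_le hx h2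
      _ = x := Real.rpow_one x
  have h4 := Real.log_le_log (by positivity) h3
  rw [Real.log_pow] at h4
  apply Nat.le_floor
  have h5 : (0.5 : ℝ) < Real.log 2 := by
    have := Real.log_two_gt_d9
    linarith
  have h6 : (0 : ℝ) ≤ (i j : ℝ) := Nat.cast_nonneg _
  nlinarith


/-- one fibre -/
theorem pd14_fib (q : Par 5) (hq : q.Ok) {x θ : ℝ} (hx : 1 ≤ x) {P0 : ℕ} {u : PolyK 5}
    (hu : IsPoly q x P0 u) (hZ : 1 ≤ x ^ (4 * q.ε) / 2) (hg : q.Gap)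
    (hcount : ∀ (i : Fin 5 → ℕ) (G0 G1 G2 G3 G4 : ℕ),
      G0 * G2 * G3 ∣ bad u → ∀ S : Finset (PolyK 5), (∀ v ∈ S, B1S q x P0 u i G0 G1 G2 G3 G4 v) →
      (S.card : ℝ) ≤ x ^ θ * (((2 : ℝ) ^ i 0 * 2 ^ i 1 * (2 ^ i 2) ^ 2 / (G0 * G1 * G2) + 1) *
        ((2 : ℝ) ^ i 0 * 2 ^ i 1 * (2 ^ i 4) ^ 2 / (G0 * G3 * G4) + 1) *
          ((2 ^ i 3) ^ 2 / ((G2 : ℝ) * G3) + 1)))
    (i : Fin 5 → ℕ) (g : Fin 5 → ℕ) (F : Finset (PolyK 5))
    (hF : ∀ v ∈ F, IsPoly q x P0 v ∧ Sep q v ∧ x ^ (q.ε / 8) < (Gc u v : ℝ) ∧ cv v 3 ≠ cv u 3 ∧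
      Siz i v ∧ SizOk q x i ∧ pd14_G u v = g) :
    ∑ v ∈ F, (Gc u v : ℝ) * Nat.gcd (dn u 1) (dn v 1) * Nat.gcd (dn u 4) (dn v 4) / DD v ≤
      x ^ θ / q.c3 ^ 5 * (1 / x ^ (q.ε / 8) +
        (105 + 16 * (32 * x ^ (q.ε / 25))) / (x ^ (4 * q.ε) / 2) ^ 2) := by
  have hx0 : 0 < x := by linarith
  have hc3 := hq.c30
  rcases F.eq_empty_or_nonempty with h0 | ⟨v0, hv0⟩
  · rw [h0]
    simp only [Finset.sum_empty]
    positivity
  obtain ⟨hp0, hs0, hT0, hc0, hi0, hio, hg0⟩ := hF v0 hv0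
  set U : Fin 5 → ℝ := fun j => (2 : ℝ) ^ i j with hU
  have hUpos : ∀ j, 0 < U j := fun j => by simp only [hU]; positivity
  have hgd : ∀ k, g k ∣ dn v0 k := fun k => by rw [← hg0]; exact pd14_G_dvd u v0 k
  have hgpos : ∀ k, 0 < g k := fun k => Nat.pos_of_dvd_of_pos (hgd k) (pd14_dn_pos hp0 k)
  have hg1 : ∀ k, (1 : ℝ) ≤ (g k : ℝ) := fun k => by exact_mod_cast hgpos k
  have hgle : ∀ k, (g k : ℝ) ≤ 4 * (U k * U (k + 1)) := by
    intro k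
    have h1 : (g k : ℝ) ≤ (dn v0 k : ℝ) := by
      exact_mod_cast Nat.le_of_dvd (pd14_dn_pos hp0 k) (hgd k)
    exact h1.trans (pd14_dn_lt hi0 k)
  have hZU : ∀ j, x ^ (4 * q.ε) / 2 ≤ U j := by
    intro j
    refine le_trans ?_ (hio j).1
    have := Real.rpow_le_rpow_of_exponent_le hx (hg.he j)
    linarith
  have hGc : ∀ v ∈ F, (Gc u v : ℝ) = (g 0 : ℝ) * g 2 * g 3 := by
    intro v hv
    obtain ⟨hp, _, _, _, _, _, hgv⟩ := hF v hv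
    have h1 := pd14_Gc_eq (u := u) hp
    rw [hgv] at h1
    rw [h1]
    push_cast
    ring
  have hw : ∀ v ∈ F, (Gc u v : ℝ) * Nat.gcd (dn u 1) (dn v 1) * Nat.gcd (dn u 4) (dn v 4) / DD v ≤
      ((g 0 : ℝ) * g 1 * g 2 * g 3 * g 4) / (q.c3 ^ 5 * (U 0 * U 1 * U 2 * U 3 * U 4) ^ 2) := by
    intro v hv
    obtain ⟨hp, hs, _, _, hi, _, hgv⟩ := hF v hv
    have h1 : Nat.gcd (dn u 1) (dn v 1) = g 1 := by
      rw [← hgv]; unfold pd14_G; simp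
    have h4 : Nat.gcd (dn u 4) (dn v 4) = g 4 := by
      rw [← hgv]; unfold pd14_G
      rw [if_neg (by decide), if_pos rfl]
    rw [h1, h4, hGc v hv]
    have h5 := pd14_DD_ge hq hs hi
    have h6 : (0 : ℝ) < q.c3 ^ 5 * (U 0 * U 1 * U 2 * U 3 * U 4) ^ 2 := by
      have := hUpos 0; have := hUpos 1; have := hUpos 2; have := hUpos 3; have := hUpos 4
      positivity
    have h7 : (g 0 : ℝ) * g 2 * g 3 * g 1 * g 4 = (g 0 : ℝ) * g 1 * g 2 * g 3 * g 4 := by ring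
    rw [h7]
    exact div_le_div_of_nonneg_left (by positivity) h6 h5
  have hcard := hcount i (g 0) (g 1) (g 2) (g 3) (g 4) (by
    have h1 : Gc u v0 = g 0 * g 2 * g 3 := by
      have h1 := pd14_Gc_eq (u := u) hp0
      rw [hg0] at h1
      exact h1
    rw [← h1]
    exact (pd14_Gc_dvd_gcd u v0).trans (Nat.gcd_dvd_left _ _)) F (by
    intro v hv
    obtain ⟨hp, hs, hT, hc, hi, _, hgv⟩ := hF v hv
    have h1 : Gc u v = g 0 * g 2 * g 3 := by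
      have h1 := pd14_Gc_eq (u := u) hp
      rw [hgv] at h1
      exact h1
    refine ⟨hp, hs, hi, ?_, ?_, ?_, ?_, ?_, ?_⟩
    · rw [← hgv]; exact pd14_G_dvd u v 0
    · rw [← hgv]; exact pd14_G_dvd u v 1
    · rw [← hgv]; exact pd14_G_dvd u v 2
    · rw [← hgv]; exact pd14_G_dvd u v 3
    · rw [← hgv]; exact pd14_G_dvd u v 4
    · intro p hpp hpd
      rw [← h1] at hpd
      exact pd14_Gc_prime hpp hpd)
  have hT' : x ^ (q.ε / 8) ≤ (g 0 : ℝ) * g 2 * g 3 := by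
    rw [← hGc v0 hv0]; exact hT0.le
  have hW : (g 0 : ℝ) * g 2 * g 3 ≤ 32 * x ^ (q.ε / 25) * (U 0 * U 1 * U 3 ^ 2) := by
    rw [← hGc v0 hv0]
    exact Gc_le hx hq hu hp0 hc0 hi0
  have e8 := eight (U 0) (U 1) (U 2) (U 3) (U 4) (g 0) (g 1) (g 2) (g 3) (g 4)
    (x ^ (4 * q.ε) / 2) (x ^ (q.ε / 8)) (32 * x ^ (q.ε / 25)) hZ (hZU 0) (hZU 1) (hZU 2) (hZU 3)
    (hZU 4) (hg1 0) (hg1 1) (hg1 2) (hg1 3) (hg1 4) (hgle 0) (hgle 1) (hgle 2) (hgle 3) (hgle 4)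
    (by positivity) hT' hW
  calc ∑ v ∈ F, (Gc u v : ℝ) * Nat.gcd (dn u 1) (dn v 1) * Nat.gcd (dn u 4) (dn v 4) / DD v
      ≤ ∑ _v ∈ F, ((g 0 : ℝ) * g 1 * g 2 * g 3 * g 4) /
          (q.c3 ^ 5 * (U 0 * U 1 * U 2 * U 3 * U 4) ^ 2) := Finset.sum_le_sum hw
    _ = F.card * (((g 0 : ℝ) * g 1 * g 2 * g 3 * g 4) /
          (q.c3 ^ 5 * (U 0 * U 1 * U 2 * U 3 * U 4) ^ 2)) := by
        rw [Finset.sum_const, nsmul_eq_mul]
    _ ≤ (x ^ θ * (((2 : ℝ) ^ i 0 * 2 ^ i 1 * (2 ^ i 2) ^ 2 / (g 0 * g 1 * g 2) + 1) *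
        ((2 : ℝ) ^ i 0 * 2 ^ i 1 * (2 ^ i 4) ^ 2 / (g 0 * g 3 * g 4) + 1) *
          ((2 ^ i 3) ^ 2 / ((g 2 : ℝ) * g 3) + 1))) * (((g 0 : ℝ) * g 1 * g 2 * g 3 * g 4) /
          (q.c3 ^ 5 * (U 0 * U 1 * U 2 * U 3 * U 4) ^ 2)) := by
        apply mul_le_mul_of_nonneg_right hcard
        have := hUpos 0; have := hUpos 1; have := hUpos 2; have := hUpos 3; have := hUpos 4
        positivity
    _ = x ^ θ / q.c3 ^ 5 * ((g 0 : ℝ) * g 1 * g 2 * g 3 * g 4 / (U 0 * U 1 * U 2 * U 3 * U 4) ^ 2 *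
      ((U 0 * U 1 * U 2 ^ 2 / (g 0 * g 1 * g 2) + 1) * (U 0 * U 1 * U 4 ^ 2 / (g 0 * g 3 * g 4) + 1)
        * (U 3 ^ 2 / (g 2 * g 3) + 1))) := by
        simp only [hU]
        rw [← div_div]
        ring
    _ ≤ x ^ θ / q.c3 ^ 5 * (1 / x ^ (q.ε / 8) +
        (105 + 16 * (32 * x ^ (q.ε / 25))) / (x ^ (4 * q.ε) / 2) ^ 2) := by
        apply mul_le_mul_of_nonneg_left e8
        positivity

theorem pd14_final {ε c3 : ℝ} (hε : 0 < ε) (hc : 0 < c3) : ∃ x₀ : ℝ, 1 ≤ x₀ ∧ ∀ x ≥ x₀,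
    1 ≤ x ^ (4 * ε) / 2 ∧
    ((⌊2 * Real.log x⌋₊ + 1 : ℕ) : ℝ) ^ 5 * (x ^ (ε / 320)) ^ 5 *
      (x ^ (ε / 320) / c3 ^ 5 * (1 / x ^ (ε / 8) +
        (105 + 16 * (32 * x ^ (ε / 25))) / (x ^ (4 * ε) / 2) ^ 2)) ≤ x ^ (-(ε / 10)) := by
  set θ : ℝ := ε / 320 with hθ
  have hθ0 : 0 < θ := by positivity
  set K : ℝ := (2 / (θ / 5) + 1) ^ 5 * 2469 / c3 ^ 5 with hK
  have hK0 : 0 < K := by positivity
  refine ⟨max 1 (max (K ^ (1 / θ)) (2 ^ (1 / (4 * ε)))), le_max_left _ _, ?_⟩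
  intro x hx
  have hx1 : 1 ≤ x := (le_max_left _ _).trans hx
  have hx2 : K ^ (1 / θ) ≤ x := ((le_max_left _ _).trans (le_max_right _ _)).trans hx
  have hx3 : (2 : ℝ) ^ (1 / (4 * ε)) ≤ x := ((le_max_right _ _).trans (le_max_right _ _)).trans hx
  have hx0 : 0 < x := by linarith
  have hKx : K ≤ x ^ θ := by
    have h1 := Real.rpow_le_rpow (by positivity) hx2 hθ0.le
    rw [← Real.rpow_mul hK0.le, one_div, inv_mul_cancel₀ hθ0.ne', Real.rpow_one] at h1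
    exact h1
  have h2x : 2 ≤ x ^ (4 * ε) := by
    have h4 : 0 < 4 * ε := by positivity
    have h1 := Real.rpow_le_rpow (by positivity) hx3 h4.le
    rw [← Real.rpow_mul (by norm_num), one_div, inv_mul_cancel₀ h4.ne', Real.rpow_one] at h1
    exact h1
  refine ⟨by linarith, ?_⟩
  have hlog0 : 0 ≤ Real.log x := Real.log_nonneg hx1
  have h5 : ((⌊2 * Real.log x⌋₊ + 1 : ℕ) : ℝ) ≤ (2 / (θ / 5) + 1) * x ^ (θ / 5) := by
    have h6 : ((⌊2 * Real.log x⌋₊ : ℕ) : ℝ) ≤ 2 * Real.log x := Nat.floor_le (by positivity)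
    have h7 : Real.log x ≤ x ^ (θ / 5) / (θ / 5) := Real.log_le_rpow_div hx0.le (by positivity)
    have h8 : 1 ≤ x ^ (θ / 5) := Real.one_le_rpow hx1 (by positivity)
    push_cast
    calc (⌊2 * Real.log x⌋₊ : ℝ) + 1 ≤ 2 * (x ^ (θ / 5) / (θ / 5)) + x ^ (θ / 5) := by linarith
      _ = (2 / (θ / 5) + 1) * x ^ (θ / 5) := by ring
  have h9 : ((⌊2 * Real.log x⌋₊ + 1 : ℕ) : ℝ) ^ 5 ≤ (2 / (θ / 5) + 1) ^ 5 * x ^ θ := by
    calc ((⌊2 * Real.log x⌋₊ + 1 : ℕ) : ℝ) ^ 5 ≤ ((2 / (θ / 5) + 1) * x ^ (θ / 5)) ^ 5 :=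
          pow_le_pow_left₀ (Nat.cast_nonneg _) h5 5
      _ = (2 / (θ / 5) + 1) ^ 5 * x ^ θ := by
          rw [mul_pow, ← Real.rpow_natCast (x ^ (θ / 5)) 5, ← Real.rpow_mul hx0.le]
          congr 2
          push_cast
          ring
  have h10 : 1 / x ^ (ε / 8) +
        (105 + 16 * (32 * x ^ (ε / 25))) / (x ^ (4 * ε) / 2) ^ 2 ≤ 2469 * x ^ (-(ε / 8)) := by
    have e1 : 1 / x ^ (ε / 8) = x ^ (-(ε / 8)) := by
      rw [Real.rpow_neg hx0.le, one_div]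
    have e2 : 1 ≤ x ^ (ε / 25) := Real.one_le_rpow hx1 (by positivity)
    have e3 : (105 + 16 * (32 * x ^ (ε / 25))) / (x ^ (4 * ε) / 2) ^ 2 ≤
        2468 * (x ^ (ε / 25) / (x ^ (4 * ε)) ^ 2) := by
      have e4 : 0 < x ^ (4 * ε) := by positivity
      rw [div_pow, div_div_eq_mul_div, ← mul_div_assoc]
      apply div_le_div_of_nonneg_right _ (by positivity)
      nlinarith
    have e5 : x ^ (ε / 25) / (x ^ (4 * ε)) ^ 2 ≤ x ^ (-(ε / 8)) := by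
      rw [← Real.rpow_natCast (x ^ (4 * ε)) 2, ← Real.rpow_mul hx0.le, ← Real.rpow_sub hx0]
      apply Real.rpow_le_rpow_of_exponent_le hx1
      push_cast
      linarith
    rw [e1]
    linarith
  calc ((⌊2 * Real.log x⌋₊ + 1 : ℕ) : ℝ) ^ 5 * (x ^ θ) ^ 5 *
      (x ^ θ / c3 ^ 5 * (1 / x ^ (ε / 8) +
        (105 + 16 * (32 * x ^ (ε / 25))) / (x ^ (4 * ε) / 2) ^ 2))
      ≤ ((2 / (θ / 5) + 1) ^ 5 * x ^ θ) * (x ^ θ) ^ 5 *
        (x ^ θ / c3 ^ 5 * (2469 * x ^ (-(ε / 8)))) := by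
        apply mul_le_mul
        · exact mul_le_mul_of_nonneg_right h9 (by positivity)
        · exact mul_le_mul_of_nonneg_left h10 (by positivity)
        · positivity
        · positivity
    _ = K * ((x ^ θ) ^ 7 * x ^ (-(ε / 8))) := by
        rw [hK]; ring
    _ ≤ x ^ θ * ((x ^ θ) ^ 7 * x ^ (-(ε / 8))) :=
        mul_le_mul_of_nonneg_right hKx (by positivity)
    _ = x ^ (-(ε / 10)) := by
        rw [← mul_assoc, ← pow_succ', ← Real.rpow_natCast (x ^ θ), ← Real.rpow_mul hx0.le,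
          ← Real.rpow_add hx0]
        congr 1
        push_cast
        rw [hθ]
        ring

theorem b1_sum_pr (q : Par 5) (hq : q.Ok) (hg : q.Gap) : ∃ x₀ : ℝ, 1 ≤ x₀ ∧ ∀ x ≥ x₀,
    ∀ (P0 : ℕ) (u : PolyK 5), IsPoly q x P0 u → Sep q u → ∀ S : Finset (PolyK 5),
    (∀ v ∈ S, IsPoly q x P0 v ∧ Sep q v ∧ x ^ (q.ε / 8) < (Gc u v : ℝ) ∧ cv v 3 ≠ cv u 3) →
    ∑ v ∈ S, (Gc u v : ℝ) * Nat.gcd (dn u 1) (dn v 1) * Nat.gcd (dn u 4) (dn v 4) / DD v ≤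
      x ^ (-(q.ε / 10)) := by
  classical
  have hε := hq.ε0
  have hθ : 0 < q.ε / 320 := by positivity
  obtain ⟨x1, hx1, H1⟩ := b1_count q hq hθ
  obtain ⟨x2, hx2, H2⟩ := div_le hθ
  obtain ⟨x3, hx3, H3⟩ := pd14_final (c3 := q.c3) hε hq.c30
  refine ⟨max x1 (max x2 x3), hx1.trans (le_max_left _ _), ?_⟩
  intro x hx P0 u hu hsu S hS
  have hxa : x1 ≤ x := (le_max_left _ _).trans hx
  have hxb : x2 ≤ x := ((le_max_left _ _).trans (le_max_right _ _)).trans hx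
  have hxc : x3 ≤ x := ((le_max_right _ _).trans (le_max_right _ _)).trans hx
  have hx1' : 1 ≤ x := hx1.trans hxa
  have hx0 : 0 < x := by linarith
  obtain ⟨hZ, hfin⟩ := H3 x hxc
  have hDD0 : 0 < DD u := Finset.prod_pos (fun j _ => pd14_dn_pos hu j)
  have hdiv : ((DD u).divisors.card : ℝ) ≤ x ^ (q.ε / 320) := by
    apply H2 x hxb _ hDD0
    have h1 := pd14_DD_le hq hx1' hu
    calc (DD u : ℝ) ≤ x := h1
      _ = x ^ 1 := (pow_one x).symm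
      _ ≤ x ^ 3 := pow_le_pow_right₀ hx1' (by norm_num)
  -- the sizes
  have hsz : ∀ v ∈ S, ∃ i : Fin 5 → ℕ, Siz i v ∧ SizOk q x i := fun v hv =>
    siz_ok q hq hx1' (hS v hv).1
  let iv : PolyK 5 → (Fin 5 → ℕ) := fun v => if h : v ∈ S then (hsz v h).choose else 0
  have hiv : ∀ v ∈ S, Siz (iv v) v ∧ SizOk q x (iv v) := by
    intro v hv
    have h1 : iv v = (hsz v hv).choose := by
      show (if h : v ∈ S then (hsz v h).choose else 0) = _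
      rw [dif_pos hv]
    rw [h1]
    exact (hsz v hv).choose_spec
  set J : Finset ((Fin 5 → ℕ) × (Fin 5 → ℕ)) :=
    (Fintype.piFinset (fun _ => range (⌊2 * Real.log x⌋₊ + 1))) ×ˢ
      (Fintype.piFinset (fun _ => (DD u).divisors)) with hJ
  have hmap : ∀ v ∈ S, (iv v, pd14_G u v) ∈ J := by
    intro v hv
    rw [hJ, Finset.mem_product, Fintype.mem_piFinset, Fintype.mem_piFinset]
    refine ⟨fun j => ?_, fun k => ?_⟩
    · rw [Finset.mem_range]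
      exact Nat.lt_succ_of_le (pd14_i_le hq hx1' (hiv v hv).2 j)
    · rw [Nat.mem_divisors]
      exact ⟨pd14_G_dvd' u v k, hDD0.ne'⟩
  have hJcard : (J.card : ℝ) ≤
      ((⌊2 * Real.log x⌋₊ + 1 : ℕ) : ℝ) ^ 5 * (x ^ (q.ε / 320)) ^ 5 := by
    rw [hJ, Finset.card_product, Fintype.card_piFinset_const, Fintype.card_piFinset_const,
      Finset.card_range]
    rw [Nat.cast_mul, Nat.cast_pow, Nat.cast_pow]
    exact mul_le_mul_of_nonneg_left (pow_le_pow_left₀ (Nat.cast_nonneg _) hdiv 5) (by positivity)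
  set B : ℝ := x ^ (q.ε / 320) / q.c3 ^ 5 * (1 / x ^ (q.ε / 8) +
        (105 + 16 * (32 * x ^ (q.ε / 25))) / (x ^ (4 * q.ε) / 2) ^ 2) with hB
  have hc3 := hq.c30
  have hB0 : 0 ≤ B := by rw [hB]; positivity
  rw [← Finset.sum_fiberwise_of_maps_to hmap]
  calc ∑ b ∈ J, ∑ v ∈ S with (iv v, pd14_G u v) = b,
        (Gc u v : ℝ) * Nat.gcd (dn u 1) (dn v 1) * Nat.gcd (dn u 4) (dn v 4) / DD v
      ≤ ∑ _b ∈ J, B := by
        apply Finset.sum_le_sum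
        intro b _
        apply pd14_fib q hq hx1' hu hZ hg (H1 x hxa P0 u hu) b.1 b.2
        intro v hv
        rw [Finset.mem_filter] at hv
        obtain ⟨hv1, hv2⟩ := hv
        obtain ⟨a1, a2, a3, a4⟩ := hS v hv1
        have hb1 : iv v = b.1 := by rw [← hv2]
        have hb2 : pd14_G u v = b.2 := by rw [← hv2]
        rw [← hb1]
        exact ⟨a1, a2, a3, a4, (hiv v hv1).1, (hiv v hv1).2, hb2⟩
    _ = J.card * B := by rw [Finset.sum_const, nsmul_eq_mul]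
    _ ≤ ((⌊2 * Real.log x⌋₊ + 1 : ℕ) : ℝ) ^ 5 * (x ^ (q.ε / 320)) ^ 5 * B :=
        mul_le_mul_of_nonneg_right hJcard hB0
    _ ≤ x ^ (-(q.ε / 10)) := hfin

end Pool.Agent.PENK

namespace Pool.Agent.PENK

theorem b1_sum : type_of% @b1_sum_pr := @b1_sum_pr

end Pool.Agent.PENK
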