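import Pool.Agent.Lib_helper18.PENK.Defs2
import Pool.Agent.Lib_helper18.PENKF.DefsW
import Pool.Agent.Lib_helper18.PENKF.PB2
import Pool.Agent.Lib_helper18.PENKF.PB3

/-! Block PD15 (helper31): if `c_3 = c_3'` all lines agree -/

set_option autoImplicit false

namespace Pool.Agent.PENK

open Finset Pool.Agent.PENT

theorem pd15_inr : inr 5 = {0, 2, 3} := by decide

theorem pd15_bad (u : PolyK 5) : bad u = dn u 0 * (dn u 2 * dn u 3) := by
  unfold bad
  rw [pd15_inr]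
  rw [Finset.prod_insert (by decide), Finset.prod_insert (by decide), Finset.prod_singleton]

theorem pd15_ndv {u : PolyK 5} {j k : Fin 5} {p : ℕ} (hp : p.Prime)
    (hc : Nat.Coprime (dn u j) (dt (u j) (u k)).natAbs) (hpj : p ∣ dn u j) :
    ¬ (p : ℤ) ∣ dt (u j) (u k) := by
  intro h3
  have h4 : p ∣ Nat.gcd (dn u j) (dt (u j) (u k)).natAbs :=
    Nat.dvd_gcd hpj (Int.natCast_dvd.1 h3)
  rw [hc.gcd_eq_one] at h4
  exact hp.one_lt.ne' (Nat.dvd_one.1 h4)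

theorem pd15_nd' {q : Par 5} {x : ℝ} {P0 : ℕ} {u : PolyK 5}
    (h : IsPoly q x P0 u) (j k : Fin 5) (h0 : j ≠ j + 1) (h1 : k ≠ j) (h2 : k ≠ j + 1) {p : ℕ}
    (hp : p.Prime) (hp1 : p ∣ dn u j) : ¬ (p : ℤ) ∣ dt (u (j + 1)) (u k) := by
  intro e2
  have hP : Prime (p : ℤ) := Nat.prime_iff_prime_int.1 hp
  have e1 : (p : ℤ) ∣ dt (u j) (u (j + 1)) := Int.natCast_dvd.2 hp1
  have e3 : ¬ (p : ℤ) ∣ dt (u j) (u k) := pd15_ndv hp (h.nd j k h1 h2) hp1
  have f1 : dt (u j) (u k) * (u (j + 1)).1 =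
      dt (u (j + 1)) (u k) * (u j).1 + dt (u j) (u (j + 1)) * (u k).1 := by
    unfold dt; ring
  have f2 : dt (u j) (u k) * (u (j + 1)).2 =
      dt (u (j + 1)) (u k) * (u j).2 + dt (u j) (u (j + 1)) * (u k).2 := by
    unfold dt; ring
  have g1 : (p : ℤ) ∣ (u (j + 1)).1 := by
    have : (p : ℤ) ∣ dt (u j) (u k) * (u (j + 1)).1 := by
      rw [f1]; exact dvd_add (e2.mul_right _) (e1.mul_right _)
    exact (hP.dvd_or_dvd this).resolve_left e3
  have g2 : (p : ℤ) ∣ (u (j + 1)).2 := by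
    have : (p : ℤ) ∣ dt (u j) (u k) * (u (j + 1)).2 := by
      rw [f2]; exact dvd_add (e2.mul_right _) (e1.mul_right _)
    exact (hP.dvd_or_dvd this).resolve_left e3
  have g3 : p ∣ dn u (j + 1) := by
    unfold dn dl
    apply Int.natCast_dvd.1
    unfold dt
    exact dvd_sub (g1.mul_right _) (g2.mul_right _)
  have hco := h.co j (j + 1) h0
  have h5 : p ∣ Nat.gcd (dn u j) (dn u (j + 1)) := Nat.dvd_gcd hp1 g3
  rw [hco.gcd_eq_one] at h5
  exact hp.one_lt.ne' (Nat.dvd_one.1 h5)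

theorem pd15_line {q : Par 5} {x : ℝ} {P0 : ℕ} {u : PolyK 5} (hu : IsPoly q x P0 u) {p : ℕ}
    (hp : p.Prime) (h : p ∣ bad u) :
    (p : ℤ) ∣ dt (Lv u p) (cv u 3) ∧ ¬ (p : ℤ) ∣ (cv u 3).1 := by
  rw [pd15_bad] at h
  rcases (Nat.Prime.dvd_mul hp).1 h with h0 | h23
  · have h1 := Lv_par0 (by norm_num) hu hp h0 3 (by decide)
    exact ⟨h1.1, h1.2.1⟩
  rcases (Nat.Prime.dvd_mul hp).1 h23 with h2 | h3
  · have h1 := Lv_par (by norm_num) hu hp (j := 2) (by decide) (by decide) h2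
    refine ⟨h1.2, ?_⟩
    have h4 := pd15_nd' hu 2 1 (by decide) (by decide) (by decide) hp h2
    exact h4
  · have h1 := Lv_par (by norm_num) hu hp (j := 3) (by decide) (by decide) h3
    refine ⟨h1.1, ?_⟩
    exact pd15_ndv hp (hu.nd 3 1 (by decide) (by decide)) h3

theorem pd15_same {q : Par 5} {x : ℝ} {P0 : ℕ} {u v : PolyK 5} (hu : IsPoly q x P0 u)
    (hv : IsPoly q x P0 v) (he : cv v 3 = cv u 3) {p : ℕ} (hp : p.Prime) (h1 : p ∣ bad u)
    (h2 : p ∣ bad v) : SameL u v p := by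
  have a := pd15_line hu hp h1
  have b := pd15_line hv hp h2
  rw [he] at b
  have hP : Prime (p : ℤ) := Nat.prime_iff_prime_int.1 hp
  unfold SameL
  have f : dt (Lv u p) (Lv v p) * (cv u 3).1 =
      dt (Lv u p) (cv u 3) * (Lv v p).1 - dt (Lv v p) (cv u 3) * (Lv u p).1 := by
    unfold dt; ring
  have g : (p : ℤ) ∣ dt (Lv u p) (Lv v p) * (cv u 3).1 := by
    rw [f]; exact dvd_sub (a.1.mul_right _) (b.1.mul_right _)
  exact (hP.dvd_or_dvd g).resolve_right a.2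

theorem pd15_sqf {q : Par 5} {x : ℝ} {P0 : ℕ} {u : PolyK 5} (hu : IsPoly q x P0 u) :
    Squarefree (bad u) := by
  rw [pd15_bad]
  have h23 : Nat.Coprime (dn u 2) (dn u 3) := hu.co 2 3 (by decide)
  have h02 : Nat.Coprime (dn u 0) (dn u 2) := hu.co 0 2 (by decide)
  have h03 : Nat.Coprime (dn u 0) (dn u 3) := hu.co 0 3 (by decide)
  rw [Nat.squarefree_mul (Nat.Coprime.mul_right h02 h03), Nat.squarefree_mul h23]
  exact ⟨hu.sq 0, hu.sq 2, hu.sq 3⟩

theorem pd15_Gc {q : Par 5} {x : ℝ} {P0 : ℕ} {u v : PolyK 5} (hu : IsPoly q x P0 u)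
    (hv : IsPoly q x P0 v) (he : cv v 3 = cv u 3) : Gc u v = Nat.gcd (bad u) (bad v) := by
  classical
  unfold Gc
  have hf : (Nat.gcd (bad u) (bad v)).primeFactors.filter (SameL u v) =
      (Nat.gcd (bad u) (bad v)).primeFactors := by
    apply Finset.filter_true_of_mem
    intro p hp
    have hp1 := Nat.prime_of_mem_primeFactors hp
    have hp2 := Nat.dvd_of_mem_primeFactors hp
    exact pd15_same hu hv he hp1 (hp2.trans (Nat.gcd_dvd_left _ _))
      (hp2.trans (Nat.gcd_dvd_right _ _))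
  have hs : Squarefree (Nat.gcd (bad u) (bad v)) :=
    Squarefree.squarefree_of_dvd (Nat.gcd_dvd_left _ _) (pd15_sqf hu)
  calc ∏ p ∈ (Nat.gcd (bad u) (bad v)).primeFactors.filter (SameL u v), p
      = ∏ p ∈ (Nat.gcd (bad u) (bad v)).primeFactors, p := by
        refine Finset.prod_congr ?_ (fun _ _ => rfl)
        rw [← hf]
        ext p
        simp only [Finset.mem_filter]
        tauto
    _ = Nat.gcd (bad u) (bad v) := Nat.prod_primeFactors_of_squarefree hs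

theorem gk_prod_pr {q : Par 5} {x : ℝ} {P0 : ℕ} {u v : PolyK 5} (hu : IsPoly q x P0 u)
    (hv : IsPoly q x P0 v) (he : cv v 3 = cv u 3) :
    Gc u v * Nat.gcd (dn u 1) (dn v 1) * Nat.gcd (dn u 4) (dn v 4) = ∏ k, gk u v k := by
  rw [Fin.prod_univ_five, pd15_Gc hu hv he]
  have g0 : gk u v 0 = Nat.gcd (dn v 0) (bad u) := rfl
  have g1 : gk u v 1 = Nat.gcd (dn u 1) (dn v 1) := rfl
  have g2 : gk u v 2 = Nat.gcd (dn v 2) (bad u) := rfl
  have g3 : gk u v 3 = Nat.gcd (dn v 3) (bad u) := rfl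
  have g4 : gk u v 4 = Nat.gcd (dn u 4) (dn v 4) := rfl
  rw [g0, g1, g2, g3, g4]
  have h23 : Nat.Coprime (dn v 2) (dn v 3) := hv.co 2 3 (by decide)
  have h02 : Nat.Coprime (dn v 0) (dn v 2) := hv.co 0 2 (by decide)
  have h03 : Nat.Coprime (dn v 0) (dn v 3) := hv.co 0 3 (by decide)
  have e : Nat.gcd (bad u) (bad v) =
      Nat.gcd (dn v 0) (bad u) * (Nat.gcd (dn v 2) (bad u) * Nat.gcd (dn v 3) (bad u)) := by
    rw [pd15_bad v, Nat.Coprime.gcd_mul _ (Nat.Coprime.mul_right h02 h03),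
      Nat.Coprime.gcd_mul _ h23, Nat.gcd_comm (bad u), Nat.gcd_comm (bad u) (dn v 2),
      Nat.gcd_comm (bad u) (dn v 3)]
  rw [e]
  ring

end Pool.Agent.PENK

namespace Pool.Agent.PENK

theorem gk_prod : type_of% @gk_prod_pr := @gk_prod_pr

end Pool.Agent.PENK
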