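import Pool.Agent.Lib_helper18.PENK.Defs2
import Pool.Agent.Lib_helper18.PENKF.DefsW
import Pool.Agent.Lib_helper18.PENKF.PD2
import Pool.Agent.Lib_helper18.PENKF.PD3

set_option autoImplicit false

namespace Pool.Agent.PENK

open Finset Pool.Agent.PENT

theorem pd16_core {N c s : ℤ} {g m m' : ℕ} (hc : IsCoprime N c) (hg : IsCoprime N (g : ℤ))
    (hs : s = 1 ∨ s = -1) (h : N ∣ c * (s * (g * m) - s * (g * m'))) : N ∣ (m : ℤ) - m' := by
  have h1 : N ∣ s * (g * m) - s * (g * m') := hc.dvd_of_dvd_mul_left h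
  have h2 : N ∣ (g : ℤ) * ((m : ℤ) - m') := by
    rcases hs with rfl | rfl
    · have e : (1 : ℤ) * (g * m) - 1 * (g * m') = (g : ℤ) * ((m : ℤ) - m') := by ring
      rwa [e] at h1
    · have e : (-1 : ℤ) * (g * m) - -1 * (g * m') = -((g : ℤ) * ((m : ℤ) - m')) := by ring
      rw [e] at h1
      exact (dvd_neg).mp h1
  exact hg.dvd_of_dvd_mul_left h2

theorem pd16_cop {a b : ℤ} (h : Nat.Coprime a.natAbs b.natAbs) : IsCoprime a b :=
  Int.isCoprime_iff_gcd_eq_one.mpr h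

theorem pd16_copg {a : ℤ} {d g m : ℕ} (h : Nat.Coprime a.natAbs d) (e : d = g * m) :
    IsCoprime a (g : ℤ) := by
  subst e
  have h1 : Nat.Coprime a.natAbs g := Nat.Coprime.coprime_mul_right_right h
  exact Int.isCoprime_iff_gcd_eq_one.mpr h1

theorem pd16_dl {q : Par 5} (hq : q.Ok) {x : ℝ} {P0 : ℕ} {v : PolyK 5} (hv : IsPoly q x P0 v)
    (j : Fin 5) (g m : ℕ) (e : dn v j = g * m) :
    dl v j = q.σ j (j + 1) * ((g : ℤ) * m) := by
  have hj0 : ∀ j : Fin 5, j ≠ j + 1 := by decide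
  have hj : j ≠ j + 1 := hj0 j
  have hs := hv.sg j (j + 1) hj
  have hd : dl v j = dt (v j) (v (j + 1)) := rfl
  have hn : ((dn v j : ℕ) : ℤ) = |dl v j| := Int.natCast_natAbs _
  rw [e] at hn
  push_cast at hn
  rw [hn]
  rw [← hd] at hs
  rcases hq.hσ j (j + 1) with h | h
  · rw [h] at hs ⊢
    rw [one_mul] at hs ⊢
    exact (abs_of_pos hs).symm
  · rw [h] at hs ⊢
    have : dl v j < 0 := by linarith
    rw [abs_of_neg this]
    ring

/-- BLOCK PD16 (uses PD2, PD3): the congruences. -/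
theorem b2_cong_pr {q : Par 5} (hq : q.Ok) {x : ℝ} {P0 : ℕ} {v w : PolyK 5} (hv : IsPoly q x P0 v)
    (hw : IsPoly q x P0 w) (he : cv v 3 = cv w 3) (g m m' : Fin 5 → ℕ) (k : Fin 5)
    (h1 : ∀ j, dn v j = g j * m j) (h2 : ∀ j, dn w j = g j * m' j) (h3 : ∀ j, j ≠ k → m j = m' j) :
    ((if k = 3 ∨ k = 4 then dt (v 0) (v 3) else dt (v 1) (v 3)) : ℤ) ∣ (m k : ℤ) - m' k := by
  have e31 : dt (v 3) (v 1) = dt (w 3) (w 1) := congrArg Prod.fst he
  have e03 : dt (v 0) (v 3) = dt (w 0) (w 3) := congrArg Prod.snd he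
  have e13 : dt (v 1) (v 3) = dt (w 1) (w 3) := by
    have a : dt (v 1) (v 3) = -dt (v 3) (v 1) := by unfold dt; ring
    have b : dt (w 1) (w 3) = -dt (w 3) (w 1) := by unfold dt; ring
    rw [a, b, e31]
  have dv : ∀ j, dl v j = q.σ j (j + 1) * ((g j : ℤ) * m j) := fun j =>
    pd16_dl hq hv j (g j) (m j) (h1 j)
  have dw : ∀ j, dl w j = q.σ j (j + 1) * ((g j : ℤ) * m' j) := fun j =>
    pd16_dl hq hw j (g j) (m' j) (h2 j)
  have same : ∀ j, j ≠ k → dl w j = dl v j := by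
    intro j hj
    rw [dv, dw, h3 j hj]
  have c13 := cop13 hv
  have c03 := cop03 hv
  have p1v := plu1 v
  have p1w := plu1 w
  have p2v := plu2 v
  have p2w := plu2 w
  rw [← e13, ← e03] at p1w p2w
  have hk0 : ∀ k : Fin 5, k = 0 ∨ k = 1 ∨ k = 2 ∨ k = 3 ∨ k = 4 := by decide
  have hk := hk0 k
  rcases hk with rfl | rfl | rfl | rfl | rfl
  · rw [if_neg (by decide)]
    refine pd16_core (c := dl v 2) (s := q.σ 0 (0 + 1)) (g := g 0) (pd16_cop c13.2.2.1)
      (pd16_copg c13.1 (h1 0)) (hq.hσ _ _) ?_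
    rw [← dv 0, ← dw 0]
    rw [same 1 (by decide), same 2 (by decide)] at p1w
    refine ⟨dt (v 0) (v 2) - dt (w 0) (w 2), ?_⟩
    linear_combination p1w - p1v
  · rw [if_neg (by decide)]
    refine pd16_core (c := dt (v 0) (v 3)) (s := q.σ 1 (1 + 1)) (g := g 1) (pd16_cop c13.2.2.2)
      (pd16_copg c13.2.1 (h1 1)) (hq.hσ _ _) ?_
    rw [← dv 1, ← dw 1]
    rw [same 0 (by decide), same 2 (by decide)] at p1w
    refine ⟨dt (v 0) (v 2) - dt (w 0) (w 2), ?_⟩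
    linear_combination p1w - p1v
  · rw [if_neg (by decide)]
    refine pd16_core (c := dl v 0) (s := q.σ 2 (2 + 1)) (g := g 2) (pd16_cop c13.1)
      (pd16_copg c13.2.2.1 (h1 2)) (hq.hσ _ _) ?_
    rw [← dv 2, ← dw 2]
    rw [same 0 (by decide), same 1 (by decide)] at p1w
    refine ⟨dt (v 0) (v 2) - dt (w 0) (w 2), ?_⟩
    linear_combination p1w - p1v
  · rw [if_pos (by decide)]
    refine pd16_core (c := dl v 0) (s := q.σ 3 (3 + 1)) (g := g 3) (pd16_cop c03.1)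
      (pd16_copg c03.2.1 (h1 3)) (hq.hσ _ _) ?_
    rw [← dv 3, ← dw 3]
    rw [same 0 (by decide), same 4 (by decide)] at p2w
    refine ⟨dt (v 1) (v 4) - dt (w 1) (w 4), ?_⟩
    linear_combination p2w - p2v
  · rw [if_pos (by decide)]
    refine pd16_core (c := dt (v 1) (v 3)) (s := q.σ 4 (4 + 1)) (g := g 4)
      (pd16_cop c13.2.2.2).symm (pd16_copg c03.2.2 (h1 4)) (hq.hσ _ _) ?_
    rw [← dv 4, ← dw 4]
    rw [same 0 (by decide), same 3 (by decide)] at p2w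
    refine ⟨dt (w 1) (w 4) - dt (v 1) (v 4), ?_⟩
    linear_combination p2v - p2w

end Pool.Agent.PENK

namespace Pool.Agent.PENK

theorem b2_cong : type_of% @b2_cong_pr := @b2_cong_pr

end Pool.Agent.PENK
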