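import Mathlib
import Pool.Agent.Lib_helper18.PENK.Defs2
import Pool.Agent.Lib_helper18.PENKF.DefsW
import Pool.Agent.Lib_helper18.PENKF.PD3
import Pool.Agent.Lib_helper18.PENKF.PD4
import Pool.Agent.Lib_helper18.PENKF.PD5
import Pool.Agent.Lib_helper18.PENKF.PD15
import Pool.Agent.Lib_helper18.PENKF.PD16

/-! PD17: (B2) for fixed `u` and `k` -/

set_option autoImplicit false

namespace Pool.Agent.PENK

open Finset Pool.Agent.PENT

theorem pd17_ne {u : PolyK 5} {q : Par 5} {x : ℝ} {P0 : ℕ} (h : IsPoly q x P0 u) (i j : Fin 5)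
    (hij : i ≠ j) : dt (u i) (u j) ≠ 0 := by
  intro h0
  have := h.sg i j hij
  rw [h0, mul_zero] at this
  exact lt_irrefl _ this

theorem pd17_succ_ne (j : Fin 5) : j ≠ j + 1 := by
  revert j; decide

theorem pd17_dn_pos {u : PolyK 5} {q : Par 5} {x : ℝ} {P0 : ℕ} (h : IsPoly q x P0 u) (j : Fin 5) :
    0 < dn u j := by
  unfold dn dl
  exact Int.natAbs_pos.2 (pd17_ne h _ _ (pd17_succ_ne j))

theorem pd17_dl_eq {v w : PolyK 5} {q : Par 5} (hq : q.Ok) {x : ℝ} {P0 : ℕ}
    (hv : IsPoly q x P0 v) (hw : IsPoly q x P0 w) (j : Fin 5) (h : dn v j = dn w j) :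
    dl v j = dl w j := by
  have h1 := hv.sg j (j + 1) (pd17_succ_ne j)
  have h2 := hw.sg j (j + 1) (pd17_succ_ne j)
  have h3 : |dl v j| = |dl w j| := by
    have : ((dn v j : ℕ) : ℤ) = ((dn w j : ℕ) : ℤ) := by rw [h]
    simpa [dn, Int.natCast_natAbs] using this
  change 0 < q.σ j (j + 1) * dl v j at h1
  change 0 < q.σ j (j + 1) * dl w j at h2
  rcases hq.hσ j (j + 1) with hs | hs
  · rw [hs, one_mul] at h1 h2
    rwa [abs_of_pos h1, abs_of_pos h2] at h3
  · rw [hs] at h1 h2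
    have a1 : dl v j < 0 := by linarith
    have a2 : dl w j < 0 := by linarith
    rw [abs_of_neg a1, abs_of_neg a2] at h3
    linarith

theorem pd17_dt_le (v w : ℤ × ℤ) : ((dt v w).natAbs : ℝ) ≤ nr v * nr w := by
  have h : (dt v w).natAbs ≤ nr v * nr w := by
    unfold dt nr
    calc (v.1 * w.2 - v.2 * w.1).natAbs ≤ (v.1 * w.2).natAbs + (v.2 * w.1).natAbs :=
          Int.natAbs_sub_le _ _
      _ = v.1.natAbs * w.2.natAbs + v.2.natAbs * w.1.natAbs := by
          rw [Int.natAbs_mul, Int.natAbs_mul]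
      _ ≤ (v.1.natAbs + v.2.natAbs) * (w.1.natAbs + w.2.natAbs) := by
          nlinarith [Nat.zero_le (v.1.natAbs * w.1.natAbs), Nat.zero_le (v.2.natAbs * w.2.natAbs)]
  exact_mod_cast h

theorem pd17_e_le {q : Par 5} (hq : q.Ok) (j : Fin 5) : q.e j + q.ε / 50 ≤ 1 / 500 := by
  have h1 : q.e j + q.ε ≤ ∑ i, (q.e i + q.ε) := by
    apply Finset.single_le_sum (f := fun i => q.e i + q.ε) (fun i _ => ?_) (Finset.mem_univ j)
    have := hq.he i
    have := hq.ε0
    show 0 ≤ q.e i + q.ε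
    linarith
  have := hq.hs
  have := hq.δ1
  have := hq.ε0
  linarith

theorem pd17_dn_le {q : Par 5} (hq : q.Ok) {x : ℝ} (hx : 1 ≤ x) {P0 : ℕ} {u : PolyK 5}
    (h : IsPoly q x P0 u) (j : Fin 5) : (dn u j : ℝ) ≤ x ^ (1 / 5 : ℝ) := by
  have h1 : (dn u j : ℝ) ≤ nr (u j) * nr (u (j + 1)) := pd17_dt_le _ _
  have h2 : (nr (u j) : ℝ) ≤ x ^ (1 / 500 : ℝ) :=
    (h.hi j).trans (Real.rpow_le_rpow_of_exponent_le hx (pd17_e_le hq j))
  have h3 : (nr (u (j + 1)) : ℝ) ≤ x ^ (1 / 500 : ℝ) :=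
    (h.hi (j + 1)).trans (Real.rpow_le_rpow_of_exponent_le hx (pd17_e_le hq (j + 1)))
  have hx0 : (0 : ℝ) < x := by linarith
  calc (dn u j : ℝ) ≤ nr (u j) * nr (u (j + 1)) := h1
    _ ≤ x ^ (1 / 500 : ℝ) * x ^ (1 / 500 : ℝ) :=
        mul_le_mul h2 h3 (Nat.cast_nonneg _) (Real.rpow_nonneg hx0.le _)
    _ = x ^ (1 / 500 + 1 / 500 : ℝ) := (Real.rpow_add hx0 _ _).symm
    _ ≤ x ^ (1 / 5 : ℝ) := Real.rpow_le_rpow_of_exponent_le hx (by norm_num)

theorem pd17_DD_le {q : Par 5} (hq : q.Ok) {x : ℝ} (hx : 1 ≤ x) {P0 : ℕ} {u : PolyK 5}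
    (h : IsPoly q x P0 u) : (DD u : ℝ) ≤ x := by
  have hx0 : (0 : ℝ) < x := by linarith
  unfold DD
  push_cast
  calc ∏ j, (dn u j : ℝ) ≤ ∏ _j : Fin 5, x ^ (1 / 5 : ℝ) :=
        Finset.prod_le_prod (fun j _ => Nat.cast_nonneg _) (fun j _ => pd17_dn_le hq hx h j)
    _ = x := by
        rw [Finset.prod_const, Finset.card_univ, Fintype.card_fin, ← Real.rpow_natCast,
          ← Real.rpow_mul hx0.le]
        norm_num

theorem pd17_gk_dvd (u v : PolyK 5) (j : Fin 5) : gk u v j ∣ dn v j := by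
  unfold gk
  split_ifs with h1 h2
  · subst h1; exact Nat.gcd_dvd_right _ _
  · subst h2; exact Nat.gcd_dvd_right _ _
  · exact Nat.gcd_dvd_left _ _

theorem pd17_gk_dvd' (u v : PolyK 5) (j : Fin 5) : gk u v j ∣ DD u := by
  unfold gk
  split_ifs with h1 h2
  · exact (Nat.gcd_dvd_left _ _).trans (Finset.dvd_prod_of_mem _ (Finset.mem_univ _))
  · exact (Nat.gcd_dvd_left _ _).trans (Finset.dvd_prod_of_mem _ (Finset.mem_univ _))
  · refine (Nat.gcd_dvd_right _ _).trans ?_
    unfold bad DD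
    exact Finset.prod_dvd_prod_of_subset _ _ _ (Finset.subset_univ _)

theorem pd17_N {q : Par 5} (hq : q.Ok) (hg : q.Gap) {x : ℝ} (hx : 1 ≤ x) {P0 : ℕ} {u : PolyK 5}
    (h : IsPoly q x P0 u) (hs : Sep q u) (i j : Fin 5) (hij : i ≠ j) :
    q.c3 * x ^ (8 * q.ε) ≤ ((dt (u i) (u j)).natAbs : ℝ) := by
  have hx0 : (0 : ℝ) < x := by linarith
  have h1 := hs i j hij
  have h2 : ((dt (u i) (u j)).natAbs : ℝ) = |(dt (u i) (u j) : ℝ)| := by
    rw [← Int.cast_abs, ← Int.natCast_natAbs, Int.cast_natCast]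
  rw [h2]
  refine le_trans ?_ h1
  have h3 : x ^ (4 * q.ε) ≤ (nr (u i) : ℝ) :=
    (Real.rpow_le_rpow_of_exponent_le hx (hg.he i)).trans (h.lo i)
  have h4 : x ^ (4 * q.ε) ≤ (nr (u j) : ℝ) :=
    (Real.rpow_le_rpow_of_exponent_le hx (hg.he j)).trans (h.lo j)
  have h5 : x ^ (8 * q.ε) = x ^ (4 * q.ε) * x ^ (4 * q.ε) := by
    rw [← Real.rpow_add hx0]; congr 1; ring
  rw [h5, mul_assoc]
  exact mul_le_mul_of_nonneg_left (mul_le_mul h3 h4 (Real.rpow_nonneg hx0.le _)
    (Nat.cast_nonneg _)) hq.c30.le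

/-- the last inequality -/
theorem pd17_ineq (ε c3 : ℝ) (hε : 0 < ε) (hc : 0 < c3) (C : ℕ) : ∃ x₀ : ℝ, 1 ≤ x₀ ∧
    ∀ x ≥ x₀, (x ^ (ε / 1000)) ^ 5 * ((C * (1 / x ^ (ε / 8) + (1 + Real.log x) /
      (c3 * x ^ (8 * ε)))) * (1 + Real.log x) ^ 5) ≤ x ^ (-(ε / 10)) := by
  have h1 : Filter.Tendsto (fun x : ℝ => (C * (1 + 1 / c3)) * (1 + Real.log x) ^ 6 /
      x ^ (ε / 50)) Filter.atTop (nhds 0) := by
    have hlog : (fun x : ℝ => (1 + Real.log x)) =o[Filter.atTop] fun x => x ^ (ε / 400) := by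
      have a1 : (fun _ : ℝ => (1 : ℝ)) =o[Filter.atTop] fun x => x ^ (ε / 400) := by
        rw [Asymptotics.isLittleO_const_left]
        right
        have := tendsto_rpow_atTop (by positivity : 0 < ε / 400)
        exact Filter.tendsto_abs_atTop_atTop.comp this
      exact a1.add (isLittleO_log_rpow_atTop (by positivity))
    have h6 := hlog.pow (show 0 < 6 by norm_num)
    have h7 : (fun x : ℝ => (x ^ (ε / 400)) ^ 6) =O[Filter.atTop] fun x => x ^ (ε / 50) := by
      refine Asymptotics.IsBigO.of_bound 1 ?_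
      filter_upwards [Filter.eventually_ge_atTop 1] with x hx
      have hx0 : (0 : ℝ) < x := by linarith
      rw [Real.norm_of_nonneg (by positivity), Real.norm_of_nonneg (by positivity), one_mul,
        ← Real.rpow_natCast, ← Real.rpow_mul hx0.le]
      apply Real.rpow_le_rpow_of_exponent_le hx
      push_cast
      linarith
    have h8 := (h6.trans_isBigO h7).const_mul_left (C * (1 + 1 / c3))
    exact h8.tendsto_div_nhds_zero
  have h2 := (h1.eventually (gt_mem_nhds (show (0 : ℝ) < 1 by norm_num))).and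
    (Filter.eventually_ge_atTop (1 : ℝ))
  obtain ⟨x₀, hx₀⟩ := Filter.eventually_atTop.1 h2
  refine ⟨max x₀ 1, le_max_right _ _, fun x hx => ?_⟩
  obtain ⟨h3, hx1⟩ := hx₀ x ((le_max_left _ _).trans hx)
  have hx0 : (0 : ℝ) < x := by linarith
  have hl : 0 ≤ Real.log x := Real.log_nonneg hx1
  rw [div_lt_one (by positivity)] at h3
  have e1 : 1 / x ^ (ε / 8) + (1 + Real.log x) / (c3 * x ^ (8 * ε)) ≤
      (1 + 1 / c3) * (1 + Real.log x) * x ^ (-(ε / 8)) := by
    have b1 : 1 / x ^ (ε / 8) = x ^ (-(ε / 8)) := by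
      rw [Real.rpow_neg hx0.le, one_div]
    have b2 : 1 / x ^ (8 * ε) ≤ x ^ (-(ε / 8)) := by
      rw [one_div, ← Real.rpow_neg hx0.le]
      apply Real.rpow_le_rpow_of_exponent_le hx1
      linarith
    have b3 : (1 + Real.log x) / (c3 * x ^ (8 * ε)) =
        1 / c3 * (1 + Real.log x) * (1 / x ^ (8 * ε)) := by
      field_simp
    rw [b1, b3]
    have b4 : 1 / c3 * (1 + Real.log x) * (1 / x ^ (8 * ε)) ≤
        1 / c3 * (1 + Real.log x) * x ^ (-(ε / 8)) :=
      mul_le_mul_of_nonneg_left b2 (by positivity)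
    have b5 : x ^ (-(ε / 8)) ≤ (1 + Real.log x) * x ^ (-(ε / 8)) := by
      have : 0 ≤ Real.log x * x ^ (-(ε / 8)) := by positivity
      nlinarith
    calc x ^ (-(ε / 8)) + 1 / c3 * (1 + Real.log x) * (1 / x ^ (8 * ε))
        ≤ (1 + Real.log x) * x ^ (-(ε / 8)) + 1 / c3 * (1 + Real.log x) * x ^ (-(ε / 8)) :=
          add_le_add b5 b4
      _ = (1 + 1 / c3) * (1 + Real.log x) * x ^ (-(ε / 8)) := by ring
  have e2 : (x ^ (ε / 1000)) ^ 5 = x ^ (ε / 200) := by
    rw [← Real.rpow_natCast, ← Real.rpow_mul hx0.le]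
    congr 1
    push_cast
    ring
  rw [e2]
  calc x ^ (ε / 200) * ((C * (1 / x ^ (ε / 8) + (1 + Real.log x) / (c3 * x ^ (8 * ε)))) *
        (1 + Real.log x) ^ 5)
      ≤ x ^ (ε / 200) * ((C * ((1 + 1 / c3) * (1 + Real.log x) * x ^ (-(ε / 8)))) *
        (1 + Real.log x) ^ 5) := by gcongr
    _ = ((C * (1 + 1 / c3)) * (1 + Real.log x) ^ 6) * (x ^ (ε / 200) * x ^ (-(ε / 8))) := by
        ring
    _ ≤ x ^ (ε / 50) * (x ^ (ε / 200) * x ^ (-(ε / 8))) := by gcongr
    _ = x ^ (-(ε / 10)) := by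
        rw [← Real.rpow_add hx0, ← Real.rpow_add hx0]
        congr 1
        ring

/-- BLOCK PD17 -/
theorem b2_sum_pr (q : Par 5) (hq : q.Ok) (hg : q.Gap) : ∃ x₀ : ℝ, 1 ≤ x₀ ∧ ∀ x ≥ x₀,
    ∀ (P0 : ℕ) (u : PolyK 5), IsPoly q x P0 u → Sep q u → ∀ S : Finset (PolyK 5), ∀ k : Fin 5,
    (∀ v ∈ S, IsPoly q x P0 v ∧ Sep q v ∧ cv v 3 = cv u 3 ∧
      x ^ (q.ε / 8) * gk u v k < (dn v k : ℝ)) →
    ∑ v ∈ S, (Gc u v : ℝ) * Nat.gcd (dn u 1) (dn v 1) * Nat.gcd (dn u 4) (dn v 4) / DD v ≤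
      x ^ (-(q.ε / 10)) := by
  classical
  obtain ⟨C, hC⟩ := same_bd q hq
  obtain ⟨x1, hx1, hdiv⟩ := div_le (θ := q.ε / 1000) (by have := hq.ε0; positivity)
  obtain ⟨x2, hx2, hfin⟩ := pd17_ineq q.ε q.c3 hq.ε0 hq.c30 C
  refine ⟨max x1 x2, hx1.trans (le_max_left _ _), fun x hx P0 u hu hsu S k hS => ?_⟩
  have hxx1 : x1 ≤ x := (le_max_left _ _).trans hx
  have hxx2 : x2 ≤ x := (le_max_right _ _).trans hx
  have hx1' : 1 ≤ x := hx1.trans hxx1
  have hx0 : (0 : ℝ) < x := by linarith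
  have hlog : 0 ≤ Real.log x := Real.log_nonneg hx1'
  have hε := hq.ε0
  -- the numbers m
  set m : PolyK 5 → Fin 5 → ℕ := fun v j => dn v j / gk u v j with hm
  have hdn : ∀ v ∈ S, ∀ j, dn v j = gk u v j * m v j := fun v _ j =>
    (Nat.mul_div_cancel' (pd17_gk_dvd u v j)).symm
  have hdpos : ∀ v ∈ S, ∀ j, 0 < dn v j := fun v hv j => pd17_dn_pos (hS v hv).1 j
  have hmpos : ∀ v ∈ S, ∀ j, 1 ≤ m v j := by
    intro v hv j
    have h1 := hdn v hv j
    have h2 := hdpos v hv j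
    rw [h1] at h2
    exact Nat.pos_of_mul_pos_left h2 |> fun h => h
  have hgpos : ∀ v ∈ S, ∀ j, 1 ≤ gk u v j := by
    intro v hv j
    have h1 := hdn v hv j
    have h2 := hdpos v hv j
    rw [h1] at h2
    exact Nat.pos_of_mul_pos_right h2 |> fun h => h
  have hmle : ∀ v ∈ S, ∀ j, (m v j : ℝ) ≤ x := by
    intro v hv j
    have h1 : m v j ≤ dn v j := Nat.div_le_self _ _
    have h2 : (dn v j : ℝ) ≤ x ^ (1 / 5 : ℝ) := pd17_dn_le hq hx1' (hS v hv).1 j
    have h3 : x ^ (1 / 5 : ℝ) ≤ x ^ (1 : ℝ) :=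
      Real.rpow_le_rpow_of_exponent_le hx1' (by norm_num)
    rw [Real.rpow_one] at h3
    have h4 : (m v j : ℝ) ≤ dn v j := by exact_mod_cast h1
    linarith
  -- the summand
  have hsum : ∑ v ∈ S, (Gc u v : ℝ) * Nat.gcd (dn u 1) (dn v 1) * Nat.gcd (dn u 4) (dn v 4) /
      DD v = ∑ v ∈ S, (1 : ℝ) * ∏ j, 1 / (m v j : ℝ) := by
    refine Finset.sum_congr rfl fun v hv => ?_
    have h1 := gk_prod hu (hS v hv).1 (hS v hv).2.2.1
    have h2 : (Gc u v : ℝ) * Nat.gcd (dn u 1) (dn v 1) * Nat.gcd (dn u 4) (dn v 4) =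
        ∏ j, (gk u v j : ℝ) := by
      rw [← Nat.cast_prod, ← h1]; push_cast; ring
    rw [h2, one_mul]
    unfold DD
    rw [Nat.cast_prod, ← Finset.prod_div_distrib]
    refine Finset.prod_congr rfl fun j _ => ?_
    have h3 : (dn v j : ℝ) = gk u v j * m v j := by exact_mod_cast hdn v hv j
    have h4 : (0 : ℝ) < gk u v j := by exact_mod_cast hgpos v hv j
    have h5 : (0 : ℝ) < m v j := by exact_mod_cast hmpos v hv j
    rw [h3]
    field_simp
  rw [hsum]
  -- the modulus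
  set Nz : ℤ := if k = 3 ∨ k = 4 then dt (u 0) (u 3) else dt (u 1) (u 3) with hNz
  have hNne : Nz ≠ 0 := by
    rw [hNz]; split_ifs
    · exact pd17_ne hu 0 3 (by decide)
    · exact pd17_ne hu 1 3 (by decide)
  have hNle : q.c3 * x ^ (8 * q.ε) ≤ (Nz.natAbs : ℝ) := by
    rw [hNz]; split_ifs
    · exact pd17_N hq hg hx1' hu hsu 0 3 (by decide)
    · exact pd17_N hq hg hx1' hu hsu 1 3 (by decide)
  have hNpos : 1 ≤ Nz.natAbs := Int.natAbs_pos.2 hNne
  have h03 : ∀ v ∈ S, dt (v 0) (v 3) = dt (u 0) (u 3) := by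
    intro v hv
    have := congrArg Prod.snd (hS v hv).2.2.1
    simpa [cv] using this
  have h13 : ∀ v ∈ S, dt (v 1) (v 3) = dt (u 1) (u 3) := by
    intro v hv
    have := congrArg Prod.fst (hS v hv).2.2.1
    simp only [cv, dt] at this ⊢
    linarith
  -- the third step
  have step3 : ∀ S' : Finset (PolyK 5), S' ⊆ S → (∀ v ∈ S', ∀ w ∈ S', gk u v = gk u w) →
      (∀ v ∈ S', ∀ w ∈ S', ∀ j, j ≠ k → m v j = m w j) →
      ∑ v ∈ S', 1 / (m v k : ℝ) ≤ C * (1 / x ^ (q.ε / 8) + (1 + Real.log x) /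
        (q.c3 * x ^ (8 * q.ε))) := by
    intro S' hS' hgg hmm
    have h1 := fib_sum S' (fun v => m v k) (fun n => 1 / (n : ℝ)) (fun _ => 1) C
      (fun n => by positivity) (by
        intro n _
        rw [Finset.sum_const, nsmul_eq_mul, mul_one]
        have : (S'.filter (fun v => m v k = n)).card ≤ C := by
          apply hC x P0
          · intro v hv
            have hv' := hS' (Finset.mem_filter.1 hv).1
            exact ⟨(hS v hv').1, (hS v hv').2.1⟩
          · intro v hv w hw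
            rw [Finset.mem_filter] at hv hw
            have hv' := hS' hv.1
            have hw' := hS' hw.1
            have hdd : ∀ j, dn v j = dn w j := by
              intro j
              rw [hdn v hv' j, hdn w hw' j, congrFun (hgg v hv.1 w hw.1) j]
              congr 1
              by_cases hjk : j = k
              · subst hjk; rw [hv.2, hw.2]
              · exact hmm v hv.1 w hw.1 j hjk
            apply same_of_data1
            · exact pd17_ne (hS v hv').1 0 (0 + 1) (by decide)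
            · exact pd17_ne (hS v hv').1 1 3 (by decide)
            · exact pd17_ne (hS v hv').1 0 3 (by decide)
            · exact fun j => pd17_dl_eq hq (hS v hv').1 (hS w hw').1 j (hdd j)
            · rw [h13 v hv', h13 w hw']
            · rw [h03 v hv', h03 w hw']
        exact_mod_cast this)
    simp only [mul_one] at h1
    refine h1.trans ?_
    have h2 := class_sum (S'.image (fun v => m v k)) Nz.natAbs (x ^ (q.ε / 8)) x hNpos
      (Real.one_le_rpow hx1' (by positivity)) hx1' (by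
        intro n hn
        obtain ⟨v, hv, rfl⟩ := Finset.mem_image.1 hn
        have hv' := hS' hv
        refine ⟨?_, hmle v hv' k⟩
        have h3 := (hS v hv').2.2.2
        have h4 : (dn v k : ℝ) = gk u v k * m v k := by exact_mod_cast hdn v hv' k
        have h5 : (0 : ℝ) < gk u v k := by exact_mod_cast hgpos v hv' k
        rw [h4, mul_comm (gk u v k : ℝ)] at h3
        exact (lt_of_mul_lt_mul_right h3 h5.le).le) (by
        intro n hn n' hn'
        obtain ⟨v, hv, rfl⟩ := Finset.mem_image.1 hn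
        obtain ⟨w, hw, rfl⟩ := Finset.mem_image.1 hn'
        have hv' := hS' hv
        have hw' := hS' hw
        have h3 := b2_cong hq (hS v hv').1 (hS w hw').1
          ((hS v hv').2.2.1.trans (hS w hw').2.2.1.symm) (gk u v) (m v) (m w) k
          (hdn v hv') (fun j => by rw [congrFun (hgg v hv w hw) j]; exact hdn w hw' j)
          (hmm v hv w hw)
        have h4 : (if k = 3 ∨ k = 4 then dt (v 0) (v 3) else dt (v 1) (v 3)) = Nz := by
          rw [hNz, h03 v hv', h13 v hv']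
        rw [h4] at h3
        exact Int.natAbs_dvd.2 h3)
    have h5 : (1 + Real.log x) / (Nz.natAbs : ℝ) ≤ (1 + Real.log x) / (q.c3 * x ^ (8 * q.ε)) := by
      apply div_le_div_of_nonneg_left (by linarith) _ hNle
      have := hq.c30
      positivity
    exact mul_le_mul_of_nonneg_left (h2.trans (by linarith)) (Nat.cast_nonneg _)
  set B2 : ℝ := C * (1 / x ^ (q.ε / 8) + (1 + Real.log x) / (q.c3 * x ^ (8 * q.ε))) with hB2
  have hB20 : 0 ≤ B2 := by
    have := hq.c30
    positivity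
  -- the second step
  have step2 : ∀ S' : Finset (PolyK 5), S' ⊆ S → (∀ v ∈ S', ∀ w ∈ S', gk u v = gk u w) →
      ∑ v ∈ S', ∏ j, 1 / (m v j : ℝ) ≤ B2 * (1 + Real.log x) ^ 5 := by
    intro S' hS' hgg
    have h1 := fib_sum S' (fun v => (fun j => if j = k then 0 else m v j : Fin 5 → ℕ))
      (fun b => ∏ j, if j = k then (1 : ℝ) else 1 / (b j : ℝ)) (fun v => 1 / (m v k : ℝ)) B2
      (fun b => Finset.prod_nonneg fun j _ => by split_ifs <;> positivity) (by
        intro b _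
        apply step3 _ ((Finset.filter_subset _ _).trans hS')
        · intro v hv w hw
          exact hgg v (Finset.mem_filter.1 hv).1 w (Finset.mem_filter.1 hw).1
        · intro v hv w hw j hj
          have e1 := congrFun (Finset.mem_filter.1 hv).2 j
          have e2 := congrFun (Finset.mem_filter.1 hw).2 j
          simp only [hj, if_false] at e1 e2
          rw [e1, e2])
    have h2 : ∑ v ∈ S', ∏ j, 1 / (m v j : ℝ) = ∑ v ∈ S',
        (∏ j, if j = k then (1 : ℝ) else 1 / (((if j = k then 0 else m v j : ℕ)) : ℝ)) *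
          (1 / (m v k : ℝ)) := by
      refine Finset.sum_congr rfl fun v _ => ?_
      have h3 : ∏ j, 1 / (m v j : ℝ) = (∏ j, if j = k then (1 : ℝ) else 1 / (m v j : ℝ)) *
          ∏ j, if j = k then 1 / (m v j : ℝ) else 1 := by
        rw [← Finset.prod_mul_distrib]
        refine Finset.prod_congr rfl fun j _ => ?_
        split_ifs <;> ring
      rw [h3, Finset.prod_ite_eq' Finset.univ k]
      simp only [Finset.mem_univ, if_true]
      congr 1
      refine Finset.prod_congr rfl fun j _ => ?_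
      split_ifs with hj
      · rfl
      · rfl
    rw [h2]
    refine h1.trans (mul_le_mul_of_nonneg_left ?_ hB20)
    -- the sum over the image
    have hsub : S'.image (fun v => (fun j => if j = k then 0 else m v j : Fin 5 → ℕ)) ⊆
        Fintype.piFinset (fun j : Fin 5 => if j = k then {0} else Finset.Icc 1 ⌊x⌋₊) := by
      intro b hb
      obtain ⟨v, hv, rfl⟩ := Finset.mem_image.1 hb
      rw [Fintype.mem_piFinset]
      intro j
      by_cases hj : j = k
      · simp [hj]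
      · simp only [hj, if_false]
        rw [Finset.mem_Icc]
        exact ⟨hmpos v (hS' hv) j, Nat.le_floor (hmle v (hS' hv) j)⟩
    refine (Finset.sum_le_sum_of_subset_of_nonneg hsub fun b _ _ =>
      Finset.prod_nonneg fun j _ => by split_ifs <;> positivity).trans ?_
    rw [← Finset.prod_univ_sum (fun j : Fin 5 => if j = k then ({0} : Finset ℕ) else
      Finset.Icc 1 ⌊x⌋₊) (fun j n => if j = k then (1 : ℝ) else 1 / (n : ℝ))]
    calc ∏ j : Fin 5, ∑ n ∈ (if j = k then ({0} : Finset ℕ) else Finset.Icc 1 ⌊x⌋₊),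
          (if j = k then (1 : ℝ) else 1 / (n : ℝ)) ≤ ∏ _j : Fin 5, (1 + Real.log x) := by
          refine Finset.prod_le_prod (fun j _ => Finset.sum_nonneg fun n _ => by
            split_ifs <;> positivity) (fun j _ => ?_)
          by_cases hj : j = k
          · simp only [hj, if_true, Finset.sum_singleton]
            linarith
          · simp only [hj, if_false]
            apply harm_sum _ x hx1'
            intro n hn
            rw [Finset.mem_Icc] at hn
            exact ⟨hn.1, (Nat.cast_le.2 hn.2).trans (Nat.floor_le hx0.le)⟩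
      _ = (1 + Real.log x) ^ 5 := by
          rw [Finset.prod_const, Finset.card_univ, Fintype.card_fin]
  -- the first step
  have h1 := fib_sum S (fun v => gk u v) (fun _ => (1 : ℝ)) (fun v => ∏ j, 1 / (m v j : ℝ))
    (B2 * (1 + Real.log x) ^ 5) (fun _ => zero_le_one) (by
      intro b _
      apply step2 _ (Finset.filter_subset _ _)
      intro v hv w hw
      exact (Finset.mem_filter.1 hv).2.trans (Finset.mem_filter.1 hw).2.symm)
  refine h1.trans ?_
  rw [Finset.sum_const, nsmul_eq_mul, mul_one]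
  have hDD : 0 < DD u := Finset.prod_pos fun j _ => pd17_dn_pos hu j
  have hcard : (S.image (fun v => gk u v)).card ≤ (DD u).divisors.card ^ 5 := by
    have hsub : S.image (fun v => gk u v) ⊆ Fintype.piFinset (fun _ : Fin 5 => (DD u).divisors) := by
      intro b hb
      obtain ⟨v, _, rfl⟩ := Finset.mem_image.1 hb
      rw [Fintype.mem_piFinset]
      intro j
      exact Nat.mem_divisors.2 ⟨pd17_gk_dvd' u v j, hDD.ne'⟩
    refine (Finset.card_le_card hsub).trans (le_of_eq ?_)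
    rw [Fintype.card_piFinset, Finset.prod_const, Finset.card_univ, Fintype.card_fin]
  have hτ : ((DD u).divisors.card : ℝ) ≤ x ^ (q.ε / 1000) := by
    apply hdiv x hxx1 _ hDD
    have h2 := pd17_DD_le hq hx1' hu
    nlinarith [mul_nonneg hx0.le (by nlinarith : (0 : ℝ) ≤ x ^ 2 - 1)]
  have hcard' : ((S.image (fun v => gk u v)).card : ℝ) ≤ (x ^ (q.ε / 1000)) ^ 5 := by
    calc ((S.image (fun v => gk u v)).card : ℝ) ≤ (((DD u).divisors.card ^ 5 : ℕ) : ℝ) := by
          exact_mod_cast hcard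
      _ = ((DD u).divisors.card : ℝ) ^ 5 := by push_cast; ring
      _ ≤ (x ^ (q.ε / 1000)) ^ 5 := pow_le_pow_left₀ (Nat.cast_nonneg _) hτ 5
  have h10 : 0 ≤ B2 * (1 + Real.log x) ^ 5 := by positivity
  calc B2 * (1 + Real.log x) ^ 5 * ((S.image (fun v => gk u v)).card : ℝ)
      ≤ B2 * (1 + Real.log x) ^ 5 * (x ^ (q.ε / 1000)) ^ 5 :=
        mul_le_mul_of_nonneg_left hcard' h10
    _ = (x ^ (q.ε / 1000)) ^ 5 * (B2 * (1 + Real.log x) ^ 5) := by ring
    _ ≤ x ^ (-(q.ε / 10)) := hfin x hxx2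

end Pool.Agent.PENK

namespace Pool.Agent.PENK

theorem b2_sum : type_of% @b2_sum_pr := @b2_sum_pr

end Pool.Agent.PENK
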