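import Pool.Agent.Lib_helper18.PENK.Defs2
import Pool.Agent.Lib_helper18.PENKF.DefsW
import Pool.Agent.Lib_helper18.PENKF.PD2
import Pool.Agent.Lib_helper18.PENKF.PD3
import Pool.Agent.Lib_helper18.PENKF.PD4
import Pool.Agent.Lib_helper18.PENKF.PD5

/-! Block PD18: `(B3)`, `e ≠ 0` (uses PD2 - PD5: `cop13`, `plu1`, `plu2`, `same_of_data1`, `same_bd`,
`div_le`) -/

set_option autoImplicit false

namespace Pool.Agent.PENK

open Finset Pool.Agent.PENT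

/-! ### counting -/

/-- numbers in `[1, B]` -/
theorem pd18_card_le (M : Finset ℕ) (B : ℝ) (hB : 0 ≤ B) (h : ∀ b ∈ M, 1 ≤ b ∧ (b : ℝ) ≤ B) :
    (M.card : ℝ) ≤ B := by
  have hs : M ⊆ Icc 1 ⌊B⌋₊ := by
    intro b hb
    rw [mem_Icc]
    exact ⟨(h b hb).1, Nat.le_floor (h b hb).2⟩
  have h1 := card_le_card hs
  rw [Nat.card_Icc, Nat.add_sub_cancel] at h1
  calc (M.card : ℝ) ≤ (⌊B⌋₊ : ℝ) := by exact_mod_cast h1
    _ ≤ B := Nat.floor_le hB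

/-- numbers `b = G m`, `G ∣ n`, `m ≤ w` -/
theorem pd18_card_gcd (M : Finset ℕ) (n : ℕ) (w D : ℝ) (hn : 1 ≤ n) (hw : 0 ≤ w) (hD : 0 ≤ D)
    (hτ : (n.divisors.card : ℝ) ≤ D)
    (h : ∀ b ∈ M, 1 ≤ b ∧ (b : ℝ) ≤ w * Nat.gcd b n) : (M.card : ℝ) ≤ D * w := by
  have hs : M ⊆ (n.divisors ×ˢ Icc 1 ⌊w⌋₊).image (fun v => v.1 * v.2) := by
    intro b hb
    obtain ⟨h1, h2⟩ := h b hb
    have hg : 0 < Nat.gcd b n := Nat.gcd_pos_of_pos_left _ h1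
    have hd : Nat.gcd b n ∣ b := Nat.gcd_dvd_left _ _
    have hm : Nat.gcd b n * (b / Nat.gcd b n) = b := Nat.mul_div_cancel' hd
    rw [mem_image]
    refine ⟨(Nat.gcd b n, b / Nat.gcd b n), ?_, hm⟩
    rw [mem_product]
    refine ⟨Nat.mem_divisors.mpr ⟨Nat.gcd_dvd_right _ _, by omega⟩, ?_⟩
    show b / Nat.gcd b n ∈ Icc 1 ⌊w⌋₊
    rw [mem_Icc]
    refine ⟨Nat.div_pos (Nat.le_of_dvd h1 hd) hg, Nat.le_floor ?_⟩
    have hg' : (0 : ℝ) < (Nat.gcd b n : ℝ) := by exact_mod_cast hg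
    have hm' : (Nat.gcd b n : ℝ) * ((b / Nat.gcd b n : ℕ) : ℝ) = (b : ℝ) := by exact_mod_cast hm
    nlinarith
  have h1 := (card_le_card hs).trans card_image_le
  rw [card_product, Nat.card_Icc, Nat.add_sub_cancel] at h1
  calc (M.card : ℝ) ≤ ((n.divisors.card * ⌊w⌋₊ : ℕ) : ℝ) := by exact_mod_cast h1
    _ = (n.divisors.card : ℝ) * (⌊w⌋₊ : ℝ) := by push_cast; ring
    _ ≤ D * w := mul_le_mul hτ (Nat.floor_le hw) (Nat.cast_nonneg _) hD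

/-- divisors -/
theorem pd18_card_dvd (M : Finset ℕ) (n : ℕ) (D : ℝ) (hn : n ≠ 0)
    (hτ : (n.divisors.card : ℝ) ≤ D) (h : ∀ b ∈ M, b ∣ n) : (M.card : ℝ) ≤ D := by
  have hs : M ⊆ n.divisors := fun b hb => Nat.mem_divisors.mpr ⟨h b hb, hn⟩
  calc (M.card : ℝ) ≤ (n.divisors.card : ℝ) := by exact_mod_cast card_le_card hs
    _ ≤ D := hτ

/-- one class modulo `N` -/
theorem pd18_card_cls (M : Finset ℕ) (N : ℕ) (B : ℝ) (hN : 1 ≤ N) (hB : 0 ≤ B)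
    (h : ∀ b ∈ M, (b : ℝ) ≤ B) (hc : ∀ b ∈ M, ∀ b' ∈ M, (N : ℤ) ∣ (b : ℤ) - b') :
    (M.card : ℝ) ≤ B / N + 1 := by
  have hN' : (0 : ℝ) < N := by exact_mod_cast hN
  have hinj : Set.InjOn (fun b : ℕ => b / N) (M : Set ℕ) := by
    intro b hb b' hb' hbb
    have hbb' : b / N = b' / N := hbb
    have hd := hc b (Finset.mem_coe.mp hb) b' (Finset.mem_coe.mp hb')
    have hm : b % N = b' % N := by
      have : b' ≡ b [MOD N] := (Nat.modEq_iff_dvd).mpr hd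
      exact this.symm
    have e1 := Nat.div_add_mod b N
    have e2 := Nat.div_add_mod b' N
    rw [hbb', hm] at e1
    omega
  have h1 : M.card = (M.image (fun b => b / N)).card := (card_image_of_injOn hinj).symm
  have hs : M.image (fun b => b / N) ⊆ range (⌊B / N⌋₊ + 1) := by
    intro c hcm
    rw [mem_image] at hcm
    obtain ⟨b, hb, rfl⟩ := hcm
    rw [mem_range]
    have : b / N ≤ ⌊B / N⌋₊ := by
      apply Nat.le_floor
      have h2 : ((b / N : ℕ) : ℝ) ≤ (b : ℝ) / N := Nat.cast_div_le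
      exact h2.trans (div_le_div_of_nonneg_right (h b hb) hN'.le)
    omega
  have h2 := card_le_card hs
  rw [← h1, card_range] at h2
  calc (M.card : ℝ) ≤ ((⌊B / N⌋₊ + 1 : ℕ) : ℝ) := by exact_mod_cast h2
    _ = (⌊B / N⌋₊ : ℝ) + 1 := by push_cast; ring
    _ ≤ B / N + 1 := by
        have := Nat.floor_le (div_nonneg hB hN'.le)
        linarith

/-- one more number -/
theorem pd18_chain {α : Type} [DecidableEq α] (S : Finset α) (f : α → List ℕ) (g : α → ℕ)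
    {A B : ℝ} (hB : 0 ≤ B) (hA : ((S.image f).card : ℝ) ≤ A)
    (h : ∀ S' ⊆ S, (∀ s ∈ S', ∀ t ∈ S', f s = f t) → S'.Nonempty →
      ((S'.image g).card : ℝ) ≤ B) :
    ((S.image (fun s => g s :: f s)).card : ℝ) ≤ A * B := by
  have hm : ∀ b ∈ (S.image (fun s => g s :: f s)).image List.tail,
      ((S.image (fun s => g s :: f s)).filter (fun l => l.tail = b)).card ≤ ⌊B⌋₊ := by
    intro b hb
    apply Nat.le_floor
    rw [mem_image] at hb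
    obtain ⟨l, hl, rfl⟩ := hb
    rw [mem_image] at hl
    obtain ⟨s0, hs0, rfl⟩ := hl
    have hsub : (S.image (fun s => g s :: f s)).filter (fun l => l.tail = f s0) ⊆
        ((S.filter (fun s => f s = f s0)).image g).image (fun a => a :: f s0) := by
      intro l hl
      rw [mem_filter, mem_image] at hl
      obtain ⟨⟨s, hs, rfl⟩, ht⟩ := hl
      have ht' : f s = f s0 := ht
      rw [mem_image]
      exact ⟨g s, mem_image_of_mem _ (mem_filter.mpr ⟨hs, ht'⟩), by rw [ht']⟩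
    have h1 := (card_le_card hsub).trans card_image_le
    have h2 := h (S.filter (fun s => f s = f s0)) (filter_subset _ _)
      (fun s hs t ht => by
        rw [(mem_filter.mp hs).2, (mem_filter.mp ht).2]) ⟨s0, mem_filter.mpr ⟨hs0, rfl⟩⟩
    calc (((S.image (fun s => g s :: f s)).filter (fun l => l.tail = f s0)).card : ℝ)
        ≤ (((S.filter (fun s => f s = f s0)).image g).card : ℝ) := by exact_mod_cast h1
      _ ≤ B := h2
  have h3 := card_le_mul_card_image (S.image (fun s => g s :: f s)) ⌊B⌋₊ hm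
  have h4 : (S.image (fun s => g s :: f s)).image List.tail = S.image f := by
    rw [image_image]
    rfl
  rw [h4] at h3
  have hA0 : (0 : ℝ) ≤ A := (Nat.cast_nonneg _).trans hA
  calc ((S.image (fun s => g s :: f s)).card : ℝ) ≤ ((⌊B⌋₊ * (S.image f).card : ℕ) : ℝ) := by
        exact_mod_cast h3
    _ = (⌊B⌋₊ : ℝ) * ((S.image f).card : ℝ) := by push_cast; ring
    _ ≤ B * A := mul_le_mul (Nat.floor_le hB) hA (Nat.cast_nonneg _) hB
    _ = A * B := mul_comm _ _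

/-- the abstract count -/
theorem pd18_count {α : Type} [DecidableEq α] (S : Finset α)
    (a0 a2 a3 b0 b2 b3 m m' X d d' Z c E G : α → ℕ) (w H Q0 Q2 Q3 Q1 Q4 N0 : ℝ) (C : ℕ)
    (hw : 1 ≤ w) (hH : 0 ≤ H) (hQ0 : 0 ≤ Q0) (hQ1 : 0 ≤ Q1) (hQ2 : 0 ≤ Q2) (hQ3 : 0 ≤ Q3)
    (hQ4 : 0 ≤ Q4) (hN0 : 0 < N0)
    (ha0 : ∀ s ∈ S, 1 ≤ a0 s ∧ (a0 s : ℝ) ≤ Q0) (ha2 : ∀ s ∈ S, 1 ≤ a2 s ∧ (a2 s : ℝ) ≤ Q2)
    (ha3 : ∀ s ∈ S, 1 ≤ a3 s ∧ (a3 s : ℝ) ≤ Q3)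
    (hτ : ∀ s ∈ S, ((a0 s * a2 s * a3 s).divisors.card : ℝ) ≤ w)
    (hb0 : ∀ s ∈ S, 1 ≤ b0 s ∧ (b0 s : ℝ) ≤ w * Nat.gcd (b0 s) (a0 s * a2 s * a3 s))
    (hb2 : ∀ s ∈ S, 1 ≤ b2 s ∧ (b2 s : ℝ) ≤ w * Nat.gcd (b2 s) (a0 s * a2 s * a3 s))
    (hb3 : ∀ s ∈ S, 1 ≤ b3 s ∧ (b3 s : ℝ) ≤ w * Nat.gcd (b3 s) (a0 s * a2 s * a3 s))
    (hm : ∀ s ∈ S, 1 ≤ m s ∧ (m s : ℝ) ≤ H) (hm' : ∀ s ∈ S, 1 ≤ m' s ∧ (m' s : ℝ) ≤ w)
    (hE : ∀ s ∈ S, E s ≠ 0 ∧ X s ∣ E s ∧ ((E s).divisors.card : ℝ) ≤ w)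
    (hE' : ∀ s ∈ S, ∀ t ∈ S, [a0 s, a2 s, a3 s, b0 s, b2 s, b3 s, m s, m' s] =
      [a0 t, a2 t, a3 t, b0 t, b2 t, b3 t, m t, m' t] → E s = E t)
    (hd : ∀ s ∈ S, 1 ≤ d s ∧ (d s : ℝ) ≤ Q1)
    (hτd : ∀ s ∈ S, ((d s).divisors.card : ℝ) ≤ w)
    (hd' : ∀ s ∈ S, 1 ≤ d' s ∧ (d' s : ℝ) ≤ w * Nat.gcd (d' s) (d s))
    (hG : ∀ s ∈ S, G s ≠ 0 ∧ Z s ∣ G s ∧ ((G s).divisors.card : ℝ) ≤ w)
    (hG' : ∀ s ∈ S, ∀ t ∈ S, [a0 s, a2 s, a3 s, X s, d s] = [a0 t, a2 t, a3 t, X t, d t] →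
      G s = G t)
    (hc : ∀ s ∈ S, (c s : ℝ) ≤ Q4) (hX : ∀ s ∈ S, N0 ≤ (X s : ℝ))
    (hc' : ∀ s ∈ S, ∀ t ∈ S, [a0 s, a2 s, a3 s, X s, d s, Z s] =
      [a0 t, a2 t, a3 t, X t, d t, Z t] → (X s : ℤ) ∣ (c s : ℤ) - c t)
    (hfin : ∀ S' ⊆ S, (∀ s ∈ S', ∀ t ∈ S',
      [a0 s, a2 s, a3 s, b0 s, b2 s, b3 s, m s, m' s, X s, d s, d' s, Z s, c s] =
      [a0 t, a2 t, a3 t, b0 t, b2 t, b3 t, m t, m' t, X t, d t, d' t, Z t, c t]) →
      S'.card ≤ C) :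
    (S.card : ℝ) ≤ C * (Q0 * Q2 * Q3 * (w * w) * (w * w) * (w * w) * H * w * w * Q1 * (w * w) * w *
      (Q4 / N0 + 1)) := by
  have hw0 : (0 : ℝ) ≤ w := by linarith
  have hww : (0 : ℝ) ≤ w * w := mul_nonneg hw0 hw0
  -- level 0
  have l0 : ((S.image (fun _ => ([] : List ℕ))).card : ℝ) ≤ 1 := by
    have h1 : S.image (fun _ => ([] : List ℕ)) ⊆ {[]} := by
      intro l hl
      rw [mem_image] at hl
      obtain ⟨_, _, rfl⟩ := hl
      simp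
    have h2 := card_le_card h1
    rw [card_singleton] at h2
    exact_mod_cast h2
  have mem_im : ∀ (S' : Finset α) (g : α → ℕ) (P : ℕ → Prop), (∀ s ∈ S', P (g s)) →
      ∀ b ∈ S'.image g, P b := by
    intro S' g P h b hb
    rw [mem_image] at hb
    obtain ⟨s, hs, rfl⟩ := hb
    exact h s hs
  have simple : ∀ (g : α → ℕ) (B : ℝ), 0 ≤ B → (∀ s ∈ S, 1 ≤ g s ∧ (g s : ℝ) ≤ B) →
      ∀ S' ⊆ S, ((S'.image g).card : ℝ) ≤ B := by
    intro g B hB h S' hS'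
    exact pd18_card_le _ B hB (mem_im S' g (fun b => 1 ≤ b ∧ (b : ℝ) ≤ B)
      (fun s hs => h s (hS' hs)))
  have l1 := pd18_chain S _ a0 hQ0 l0 (fun S' hS' _ _ => simple a0 Q0 hQ0 ha0 S' hS')
  have l2 := pd18_chain S _ a2 hQ2 l1 (fun S' hS' _ _ => simple a2 Q2 hQ2 ha2 S' hS')
  have l3 := pd18_chain S _ a3 hQ3 l2 (fun S' hS' _ _ => simple a3 Q3 hQ3 ha3 S' hS')
  have lb : ∀ (b : α → ℕ) (f : α → List ℕ),
      (∀ s ∈ S, 1 ≤ b s ∧ (b s : ℝ) ≤ w * Nat.gcd (b s) (a0 s * a2 s * a3 s)) →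
      (∀ s t, f s = f t → a0 s * a2 s * a3 s = a0 t * a2 t * a3 t) →
      ∀ S' ⊆ S, (∀ s ∈ S', ∀ t ∈ S', f s = f t) → S'.Nonempty →
        ((S'.image b).card : ℝ) ≤ w * w := by
    intro b f hb hf S' hS' hff hne
    obtain ⟨t, ht⟩ := hne
    have htS := hS' ht
    refine pd18_card_gcd _ (a0 t * a2 t * a3 t) w w ?_ hw0 hw0 (hτ t htS) ?_
    · exact Nat.mul_pos (Nat.mul_pos (ha0 t htS).1 (ha2 t htS).1) (ha3 t htS).1
    · refine mem_im S' b (fun v => 1 ≤ v ∧ (v : ℝ) ≤ w * Nat.gcd v (a0 t * a2 t * a3 t)) ?_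
      intro s hs
      rw [← hf s t (hff s hs t ht)]
      exact hb s (hS' hs)
  have l4 := pd18_chain S _ b0 hww l3 (lb b0 _ hb0 (fun s t h => by
    simp only [List.cons.injEq, and_true] at h
    rw [h.1, h.2.1, h.2.2]))
  have l5 := pd18_chain S _ b2 hww l4 (lb b2 _ hb2 (fun s t h => by
    simp only [List.cons.injEq, and_true] at h
    rw [h.2.1, h.2.2.1, h.2.2.2]))
  have l6 := pd18_chain S _ b3 hww l5 (lb b3 _ hb3 (fun s t h => by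
    simp only [List.cons.injEq, and_true] at h
    rw [h.2.2.1, h.2.2.2.1, h.2.2.2.2]))
  have l7 := pd18_chain S _ m hH l6 (fun S' hS' _ _ => simple m H hH hm S' hS')
  have l8 := pd18_chain S _ m' hw0 l7 (fun S' hS' _ _ => simple m' w hw0 hm' S' hS')
  have l9 := pd18_chain S _ X hw0 l8 (by
    intro S' hS' hff hne
    obtain ⟨t, ht⟩ := hne
    have htS := hS' ht
    obtain ⟨h1, h2, h3⟩ := hE t htS
    refine pd18_card_dvd _ (E t) w h1 h3 ?_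
    refine mem_im S' X (fun v => v ∣ E t) ?_
    intro s hs
    have h4 := hff s hs t ht
    simp only [List.cons.injEq, and_true] at h4
    have h5 : E s = E t := hE' s (hS' hs) t htS (by
      simp only [List.cons.injEq, and_true]
      tauto)
    rw [← h5]
    exact (hE s (hS' hs)).2.1)
  have l10 := pd18_chain S _ d hQ1 l9 (fun S' hS' _ _ => simple d Q1 hQ1 hd S' hS')
  have l11 := pd18_chain S _ d' hww l10 (by
    intro S' hS' hff hne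
    obtain ⟨t, ht⟩ := hne
    have htS := hS' ht
    refine pd18_card_gcd _ (d t) w w (hd t htS).1 hw0 hw0 (hτd t htS) ?_
    refine mem_im S' d' (fun v => 1 ≤ v ∧ (v : ℝ) ≤ w * Nat.gcd v (d t)) ?_
    intro s hs
    have h4 := hff s hs t ht
    simp only [List.cons.injEq, and_true] at h4
    rw [← h4.1]
    exact hd' s (hS' hs))
  have l12 := pd18_chain S _ Z hw0 l11 (by
    intro S' hS' hff hne
    obtain ⟨t, ht⟩ := hne
    have htS := hS' ht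
    obtain ⟨h1, h2, h3⟩ := hG t htS
    refine pd18_card_dvd _ (G t) w h1 h3 ?_
    refine mem_im S' Z (fun v => v ∣ G t) ?_
    intro s hs
    have h4 := hff s hs t ht
    simp only [List.cons.injEq, and_true] at h4
    have h5 : G s = G t := hG' s (hS' hs) t htS (by
      simp only [List.cons.injEq, and_true]
      tauto)
    rw [← h5]
    exact (hG s (hS' hs)).2.1)
  have hq : (0 : ℝ) ≤ Q4 / N0 + 1 := by positivity
  have l13 := pd18_chain S _ c hq l12 (by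
    intro S' hS' hff hne
    obtain ⟨t, ht⟩ := hne
    have htS := hS' ht
    have hXt : (0 : ℝ) < X t := lt_of_lt_of_le hN0 (hX t htS)
    have hXt' : 1 ≤ X t := by exact_mod_cast hXt
    refine (pd18_card_cls _ (X t) Q4 hXt' hQ4 (mem_im S' c (fun v => (v : ℝ) ≤ Q4)
      (fun s hs => hc s (hS' hs))) ?_).trans ?_
    · intro v hv v' hv'
      rw [mem_image] at hv hv'
      obtain ⟨s, hs, rfl⟩ := hv
      obtain ⟨s', hs', rfl⟩ := hv'
      have h4 := hff s hs s' hs'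
      have h4t := hff s hs t ht
      simp only [List.cons.injEq, and_true] at h4 h4t
      have h5 := hc' s (hS' hs) s' (hS' hs') (by
        simp only [List.cons.injEq, and_true]
        tauto)
      have h6 : X s = X t := by tauto
      rw [← h6]
      exact h5
    · have := div_le_div_of_nonneg_left hQ4 hN0 (hX t htS)
      linarith)
  -- the fibres
  have hf := card_le_mul_card_image (f := fun s => [c s, Z s, d' s, d s, X s, m' s, m s, b3 s, b2 s,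
    b0 s, a3 s, a2 s, a0 s]) S C (by
      intro l _
      apply hfin _ (filter_subset _ _)
      intro s hs t ht
      have h1 := (mem_filter.mp hs).2.trans (mem_filter.mp ht).2.symm
      simp only [List.cons.injEq, and_true] at h1
      simp only [List.cons.injEq, and_true]
      tauto)
  have hC : (0 : ℝ) ≤ C := Nat.cast_nonneg _
  calc (S.card : ℝ) ≤ ((C * (S.image (fun s => [c s, Z s, d' s, d s, X s, m' s, m s, b3 s, b2 s,
        b0 s, a3 s, a2 s, a0 s])).card : ℕ) : ℝ) := by exact_mod_cast hf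
    _ = (C : ℝ) * ((S.image (fun s => [c s, Z s, d' s, d s, X s, m' s, m s, b3 s, b2 s,
        b0 s, a3 s, a2 s, a0 s])).card : ℝ) := by push_cast; ring
    _ ≤ (C : ℝ) * (1 * Q0 * Q2 * Q3 * (w * w) * (w * w) * (w * w) * H * w * w * Q1 * (w * w) * w *
      (Q4 / N0 + 1)) := mul_le_mul_of_nonneg_left l13 hC
    _ = _ := by ring

/-! ### polygons -/

theorem pd18_dt_le (v w : ℤ × ℤ) : (dt v w).natAbs ≤ nr v * nr w := by
  unfold dt nr
  have h1 : (v.1 * w.2 - v.2 * w.1).natAbs ≤ (v.1 * w.2).natAbs + (v.2 * w.1).natAbs :=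
    Int.natAbs_sub_le _ _
  rw [Int.natAbs_mul, Int.natAbs_mul] at h1
  nlinarith [Nat.zero_le (v.1.natAbs * w.1.natAbs), Nat.zero_le (v.2.natAbs * w.2.natAbs)]

theorem pd18_anti (v w : ℤ × ℤ) : dt v w = - dt w v := by
  unfold dt; ring

/-- the signs are fixed -/
theorem pd18_sgn {q : Par 5} (hq : q.Ok) {x : ℝ} {P0 : ℕ} {u : PolyK 5} (hu : IsPoly q x P0 u)
    {i j : Fin 5} (hij : i ≠ j) : dt (u i) (u j) = q.σ i j * ((dt (u i) (u j)).natAbs : ℤ) := by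
  have h1 := hu.sg i j hij
  rcases hq.hσ i j with h | h
  · rw [h] at h1 ⊢
    rw [one_mul] at h1 ⊢
    exact (Int.natAbs_of_nonneg h1.le).symm
  · rw [h] at h1 ⊢
    have h2 : dt (u i) (u j) < 0 := by linarith
    have h3 : ((dt (u i) (u j)).natAbs : ℤ) = - dt (u i) (u j) := Int.ofNat_natAbs_of_nonpos h2.le
    rw [h3]; ring

theorem pd18_pos {q : Par 5} {x : ℝ} {P0 : ℕ} {u : PolyK 5} (hu : IsPoly q x P0 u)
    {i j : Fin 5} (hij : i ≠ j) : 1 ≤ (dt (u i) (u j)).natAbs := by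
  have h1 := hu.sg i j hij
  have h2 : dt (u i) (u j) ≠ 0 := by
    intro h
    rw [h, mul_zero] at h1
    exact lt_irrefl _ h1
  exact Nat.one_le_iff_ne_zero.mpr (Int.natAbs_ne_zero.mpr h2)

theorem pd18_w {q : Par 5} {x : ℝ} (hx : 1 ≤ x) (hε : 0 < q.ε) : 1 ≤ x ^ (q.ε / 8) :=
  Real.one_le_rpow hx (by positivity)

theorem pd18_le {q : Par 5} (hq : q.Ok) {x : ℝ} (hx : 1 ≤ x) {P0 : ℕ} {u : PolyK 5}
    (hu : IsPoly q x P0 u) (i j : Fin 5) :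
    ((dt (u i) (u j)).natAbs : ℝ) ≤ x ^ (q.ε / 8) * (x ^ q.e i * x ^ q.e j) := by
  have hx0 : 0 < x := by linarith
  have hε := hq.ε0
  have h1 : ((dt (u i) (u j)).natAbs : ℝ) ≤ (nr (u i) : ℝ) * nr (u j) := by
    exact_mod_cast pd18_dt_le (u i) (u j)
  have h2 : (nr (u i) : ℝ) * nr (u j) ≤ x ^ (q.e i + q.ε / 50) * x ^ (q.e j + q.ε / 50) :=
    mul_le_mul (hu.hi i) (hu.hi j) (Nat.cast_nonneg _) (Real.rpow_nonneg hx0.le _)
  have h3 : x ^ (q.e i + q.ε / 50) * x ^ (q.e j + q.ε / 50) =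
      x ^ (q.ε / 25) * (x ^ q.e i * x ^ q.e j) := by
    rw [← Real.rpow_add hx0, ← Real.rpow_add hx0, ← Real.rpow_add hx0]
    congr 1; ring
  have h4 : x ^ (q.ε / 25) ≤ x ^ (q.ε / 8) := Real.rpow_le_rpow_of_exponent_le hx (by linarith)
  rw [h3] at h2
  refine h1.trans (h2.trans (mul_le_mul_of_nonneg_right h4 ?_))
  positivity

theorem pd18_ge {q : Par 5} (hq : q.Ok) {x : ℝ} (hx : 1 ≤ x) {P0 : ℕ} {u : PolyK 5}
    (hu : IsPoly q x P0 u) (hs : Sep q u) {i j : Fin 5} (hij : i ≠ j) :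
    q.c3 * (x ^ q.e i * x ^ q.e j) ≤ ((dt (u i) (u j)).natAbs : ℝ) := by
  have hx0 : 0 < x := by linarith
  have h1 := hs i j hij
  have h2 : x ^ q.e i * x ^ q.e j ≤ (nr (u i) : ℝ) * nr (u j) :=
    mul_le_mul (hu.lo i) (hu.lo j) (Real.rpow_nonneg hx0.le _) (Nat.cast_nonneg _)
  have h3 : ((dt (u i) (u j)).natAbs : ℝ) = |(dt (u i) (u j) : ℝ)| := by
    rw [Nat.cast_natAbs, Int.cast_abs]
  rw [h3]
  calc q.c3 * (x ^ q.e i * x ^ q.e j) ≤ q.c3 * ((nr (u i) : ℝ) * nr (u j)) :=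
        mul_le_mul_of_nonneg_left h2 hq.c30.le
    _ = q.c3 * nr (u i) * nr (u j) := by ring
    _ ≤ _ := h1

/-- the sizes `x ^ e_j` -/
theorem pd18_U {q : Par 5} (hg : q.Gap) {x : ℝ} (hx : 1 ≤ x) (j : Fin 5) :
    (x ^ (q.ε / 8)) ^ 32 ≤ x ^ q.e j := by
  have hx0 : 0 < x := by linarith
  rw [← Real.rpow_natCast, ← Real.rpow_mul hx0.le]
  apply Real.rpow_le_rpow_of_exponent_le hx
  have := hg.he j
  push_cast
  linarith

theorem pd18_Y {q : Par 5} (hq : q.Ok) {x : ℝ} (hx : 1 ≤ x) (j : Fin 5) :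
    x ^ q.e j ≤ x ^ (1 / 500 : ℝ) ∧ x ^ (q.ε / 8) ≤ x ^ (1 / 500 : ℝ) := by
  have h1 : q.e j + q.ε ≤ ∑ i, (q.e i + q.ε) :=
    single_le_sum (f := fun i => q.e i + q.ε) (fun i _ => by
      have := hq.he i
      have := hq.ε0
      show 0 ≤ q.e i + q.ε
      linarith) (mem_univ j)
  have h2 := hq.hs
  have h3 := hq.δ1
  have h4 := hq.ε0
  have h5 := hq.he j
  exact ⟨Real.rpow_le_rpow_of_exponent_le hx (by linarith),
    Real.rpow_le_rpow_of_exponent_le hx (by linarith)⟩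

theorem pd18_Y3 {q : Par 5} (hq : q.Ok) {x : ℝ} (hx : 1 ≤ x) {P0 : ℕ} {u : PolyK 5}
    (hu : IsPoly q x P0 u) (i j : Fin 5) :
    ((dt (u i) (u j)).natAbs : ℝ) ≤ (x ^ (1 / 500 : ℝ)) ^ 3 := by
  have hx0 : 0 < x := by linarith
  have h1 := pd18_le hq hx hu i j
  have h2 := pd18_Y hq hx i
  have h3 := pd18_Y hq hx j
  have hY : 0 ≤ x ^ (1 / 500 : ℝ) := Real.rpow_nonneg hx0.le _
  calc ((dt (u i) (u j)).natAbs : ℝ) ≤ x ^ (q.ε / 8) * (x ^ q.e i * x ^ q.e j) := h1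
    _ ≤ x ^ (1 / 500 : ℝ) * (x ^ (1 / 500 : ℝ) * x ^ (1 / 500 : ℝ)) :=
        mul_le_mul h2.2 (mul_le_mul h2.1 h3.1 (Real.rpow_nonneg hx0.le _) hY) (by positivity) hY
    _ = _ := by ring

theorem pd18_Yx {x : ℝ} (hx : 1 ≤ x) {k : ℕ} (hk : k ≤ 500) : (x ^ (1 / 500 : ℝ)) ^ k ≤ x := by
  have hx0 : 0 < x := by linarith
  rw [← Real.rpow_natCast, ← Real.rpow_mul hx0.le]
  have hk' : (k : ℝ) ≤ 500 := by exact_mod_cast hk
  calc x ^ (1 / 500 * (k : ℝ)) ≤ x ^ (1 : ℝ) :=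
        Real.rpow_le_rpow_of_exponent_le hx (by linarith)
    _ = x := Real.rpow_one x

theorem pd18_bad (u : PolyK 5) : bad u = dn u 0 * dn u 2 * dn u 3 := by
  unfold bad
  have h : inr 5 = {0, 2, 3} := by decide
  rw [h, prod_insert (by decide), prod_insert (by decide), prod_singleton, mul_assoc]

theorem pd18_DD (u : PolyK 5) : DD u = dn u 0 * dn u 1 * dn u 2 * dn u 3 * dn u 4 := by
  unfold DD
  rw [Fin.prod_univ_five]

/-- `x_13` and `x_03` agree -/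
theorem pd18_he {u v : PolyK 5} (h : cv v 3 = cv u 3) :
    dt (v 1) (v 3) = dt (u 1) (u 3) ∧ dt (v 0) (v 3) = dt (u 0) (u 3) := by
  have h1 : dt (v 3) (v 1) = dt (u 3) (u 1) := congrArg Prod.fst h
  have h2 : dt (v 0) (v 3) = dt (u 0) (u 3) := congrArg Prod.snd h
  refine ⟨?_, h2⟩
  rw [pd18_anti (v 1), pd18_anti (u 1), h1]

/-- the parts of the edge `4` which are not common -/
def pd18m (s : PolyK 5 × PolyK 5) : ℕ := dn s.1 4 / Nat.gcd (dn s.1 4) (dn s.2 4)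

def pd18m' (s : PolyK 5 × PolyK 5) : ℕ := dn s.2 4 / Nat.gcd (dn s.1 4) (dn s.2 4)

/-- `|e|` -/
def pd18E (s : PolyK 5 × PolyK 5) : ℕ :=
  (dl s.1 0 * dl s.1 3 * (pd18m' s : ℤ) - dl s.2 0 * dl s.2 3 * (pd18m s : ℤ)).natAbs

/-- `|x_02 x_13|` -/
def pd18G (s : PolyK 5 × PolyK 5) : ℕ :=
  (dl s.1 0 * dl s.1 2 + dl s.1 1 * dt (s.1 0) (s.1 3)).natAbs

theorem pd18_m {q : Par 5} {x : ℝ} {P0 : ℕ} {s : PolyK 5 × PolyK 5} (h : B3S q x P0 s) :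
    dn s.1 4 = Nat.gcd (dn s.1 4) (dn s.2 4) * pd18m s ∧
      dn s.2 4 = Nat.gcd (dn s.1 4) (dn s.2 4) * pd18m' s ∧
        1 ≤ Nat.gcd (dn s.1 4) (dn s.2 4) ∧ 1 ≤ pd18m s ∧ 1 ≤ pd18m' s := by
  have h1 : 1 ≤ dn s.1 4 := pd18_pos h.p1 (by decide)
  have h2 : 1 ≤ dn s.2 4 := pd18_pos h.p2 (by decide)
  have hg : 0 < Nat.gcd (dn s.1 4) (dn s.2 4) := Nat.gcd_pos_of_pos_left _ h1
  refine ⟨(Nat.mul_div_cancel' (Nat.gcd_dvd_left _ _)).symm,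
    (Nat.mul_div_cancel' (Nat.gcd_dvd_right _ _)).symm, hg, ?_, ?_⟩
  · exact Nat.div_pos (Nat.le_of_dvd h1 (Nat.gcd_dvd_left _ _)) hg
  · exact Nat.div_pos (Nat.le_of_dvd h2 (Nat.gcd_dvd_right _ _)) hg

theorem pd18_m_le {q : Par 5} (hq : q.Ok) {x : ℝ} (hx : 1 ≤ x) {P0 : ℕ} {s : PolyK 5 × PolyK 5}
    (h : B3S q x P0 s) : (pd18m s : ℝ) ≤ x ^ (q.ε / 8) * x ^ (q.ε / 8) / q.c3 ∧
      (pd18m' s : ℝ) ≤ x ^ (q.ε / 8) := by
  obtain ⟨e1, e2, hg, hm, hm'⟩ := pd18_m h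
  have hx0 : 0 < x := by linarith
  have hw : 0 < x ^ (q.ε / 8) := Real.rpow_pos_of_pos hx0 _
  have hp : 0 < x ^ q.e 4 * x ^ q.e 0 :=
    mul_pos (Real.rpow_pos_of_pos hx0 _) (Real.rpow_pos_of_pos hx0 _)
  have hk : (dn s.2 4 : ℝ) ≤ x ^ (q.ε / 8) * (Nat.gcd (dn s.1 4) (dn s.2 4) : ℝ) := by
    have := h.hk 4
    have hgk : gk s.1 s.2 4 = Nat.gcd (dn s.1 4) (dn s.2 4) := by
      unfold gk
      rw [if_neg (by decide), if_pos rfl]
    rw [hgk] at this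
    exact this
  have hge : q.c3 * (x ^ q.e 4 * x ^ q.e 0) ≤ (dn s.2 4 : ℝ) :=
    pd18_ge hq hx h.p2 h.s2 (i := 4) (j := 0) (by decide)
  have hle : (dn s.1 4 : ℝ) ≤ x ^ (q.ε / 8) * (x ^ q.e 4 * x ^ q.e 0) :=
    pd18_le hq hx h.p1 4 0
  set g := Nat.gcd (dn s.1 4) (dn s.2 4) with hgdef
  have hg' : (0 : ℝ) < g := by exact_mod_cast hg
  have e1' : (dn s.1 4 : ℝ) = (g : ℝ) * pd18m s := by exact_mod_cast e1
  have e2' : (dn s.2 4 : ℝ) = (g : ℝ) * pd18m' s := by exact_mod_cast e2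
  have hm0 : (0 : ℝ) ≤ pd18m s := Nat.cast_nonneg _
  constructor
  · rw [le_div_iff₀ hq.c30]
    have h1 : (pd18m s : ℝ) * (q.c3 * (x ^ q.e 4 * x ^ q.e 0)) ≤
        x ^ (q.ε / 8) * (x ^ (q.ε / 8) * (x ^ q.e 4 * x ^ q.e 0)) := by
      calc (pd18m s : ℝ) * (q.c3 * (x ^ q.e 4 * x ^ q.e 0)) ≤ (pd18m s : ℝ) * (dn s.2 4 : ℝ) :=
            mul_le_mul_of_nonneg_left hge hm0
        _ ≤ (pd18m s : ℝ) * (x ^ (q.ε / 8) * (g : ℝ)) := mul_le_mul_of_nonneg_left hk hm0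
        _ = x ^ (q.ε / 8) * ((g : ℝ) * pd18m s) := by ring
        _ ≤ x ^ (q.ε / 8) * (x ^ (q.ε / 8) * (x ^ q.e 4 * x ^ q.e 0)) := by
            rw [← e1']
            exact mul_le_mul_of_nonneg_left hle hw.le
    have h2 : ((pd18m s : ℝ) * q.c3) * (x ^ q.e 4 * x ^ q.e 0) ≤
        (x ^ (q.ε / 8) * x ^ (q.ε / 8)) * (x ^ q.e 4 * x ^ q.e 0) := by
      calc ((pd18m s : ℝ) * q.c3) * (x ^ q.e 4 * x ^ q.e 0) =
            (pd18m s : ℝ) * (q.c3 * (x ^ q.e 4 * x ^ q.e 0)) := by ring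
        _ ≤ _ := h1
        _ = _ := by ring
    exact le_of_mul_le_mul_right h2 hp
  · have h1 : (g : ℝ) * pd18m' s ≤ (g : ℝ) * x ^ (q.ε / 8) := by
      rw [← e2']
      calc (dn s.2 4 : ℝ) ≤ x ^ (q.ε / 8) * (g : ℝ) := hk
        _ = _ := mul_comm _ _
    exact le_of_mul_le_mul_left h1 hg'

theorem pd18_dl4 {q : Par 5} (hq : q.Ok) {x : ℝ} {P0 : ℕ} {u : PolyK 5} (hu : IsPoly q x P0 u) :
    dl u 4 = q.σ 4 0 * (dn u 4 : ℤ) :=
  pd18_sgn hq hu (i := 4) (j := 0) (by decide)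

theorem pd18_dl {q : Par 5} (hq : q.Ok) {x : ℝ} {P0 : ℕ} {u v : PolyK 5} (hu : IsPoly q x P0 u)
    (hv : IsPoly q x P0 v) (j : Fin 5) (h : dn u j = dn v j) : dl u j = dl v j := by
  have hj : j ≠ j + 1 := by fin_cases j <;> decide
  have h1 := pd18_sgn hq hu hj
  have h2 := pd18_sgn hq hv hj
  have h3 : (dt (u j) (u (j + 1))).natAbs = (dt (v j) (v (j + 1))).natAbs := h
  show dt (u j) (u (j + 1)) = dt (v j) (v (j + 1))
  rw [h1, h2, h3]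

theorem pd18_dt {q : Par 5} (hq : q.Ok) {x : ℝ} {P0 : ℕ} {u v : PolyK 5} (hu : IsPoly q x P0 u)
    (hv : IsPoly q x P0 v) {i j : Fin 5} (hij : i ≠ j)
    (h : (dt (u i) (u j)).natAbs = (dt (v i) (v j)).natAbs) :
    dt (u i) (u j) = dt (v i) (v j) := by
  rw [pd18_sgn hq hu hij, pd18_sgn hq hv hij, h]

theorem pd18_E {q : Par 5} (hq : q.Ok) {x : ℝ} {P0 : ℕ} {s : PolyK 5 × PolyK 5}
    (h : B3S q x P0 s)
    (hne : dl s.1 0 * dl s.1 3 * dl s.2 4 ≠ dl s.2 0 * dl s.2 3 * dl s.1 4) :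
    pd18E s ≠ 0 ∧ (dt (s.1 0) (s.1 3)).natAbs ∣ pd18E s := by
  obtain ⟨e1, e2, hg, hm, hm'⟩ := pd18_m h
  have d1 := pd18_dl4 hq h.p1
  have d2 := pd18_dl4 hq h.p2
  set g := Nat.gcd (dn s.1 4) (dn s.2 4) with hgdef
  have e1' : (dn s.1 4 : ℤ) = (g : ℤ) * pd18m s := by exact_mod_cast e1
  have e2' : (dn s.2 4 : ℤ) = (g : ℤ) * pd18m' s := by exact_mod_cast e2
  rw [e1'] at d1
  rw [e2'] at d2
  constructor
  · unfold pd18E
    rw [Int.natAbs_ne_zero]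
    intro h0
    apply hne
    rw [d1, d2]
    have : dl s.1 0 * dl s.1 3 * (pd18m' s : ℤ) = dl s.2 0 * dl s.2 3 * (pd18m s : ℤ) := by
      linarith
    calc dl s.1 0 * dl s.1 3 * (q.σ 4 0 * ((g : ℤ) * pd18m' s)) =
          (dl s.1 0 * dl s.1 3 * (pd18m' s : ℤ)) * (q.σ 4 0 * (g : ℤ)) := by ring
      _ = (dl s.2 0 * dl s.2 3 * (pd18m s : ℤ)) * (q.σ 4 0 * (g : ℤ)) := by rw [this]
      _ = _ := by ring
  · unfold pd18E
    rw [Int.natAbs_dvd_natAbs]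
    have p1 := plu2 s.1
    have p2 := plu2 s.2
    obtain ⟨h13, h03⟩ := pd18_he h.he
    rw [h13, h03] at p2
    refine ⟨(pd18m' s : ℤ) * dt (s.1 1) (s.1 4) - (pd18m s : ℤ) * dt (s.2 1) (s.2 4), ?_⟩
    have q1 : dl s.1 0 * dl s.1 3 = dt (s.1 0) (s.1 3) * dt (s.1 1) (s.1 4) +
        dl s.1 4 * dt (s.1 1) (s.1 3) := by rw [p1]; ring
    have q2 : dl s.2 0 * dl s.2 3 = dt (s.1 0) (s.1 3) * dt (s.2 1) (s.2 4) +
        dl s.2 4 * dt (s.1 1) (s.1 3) := by rw [p2]; ring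
    rw [q1, q2, d1, d2]
    ring

theorem pd18_G {q : Par 5} {x : ℝ} {P0 : ℕ} {s : PolyK 5 × PolyK 5}
    (h : B3S q x P0 s) : pd18G s ≠ 0 ∧ (dt (s.1 1) (s.1 3)).natAbs ∣ pd18G s := by
  have p1 := plu1 s.1
  have h02 := pd18_pos h.p1 (i := 0) (j := 2) (by decide)
  have h13 := pd18_pos h.p1 (i := 1) (j := 3) (by decide)
  have e : pd18G s = (dt (s.1 0) (s.1 2)).natAbs * (dt (s.1 1) (s.1 3)).natAbs := by
    unfold pd18G
    rw [← p1, Int.natAbs_mul]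
  rw [e]
  refine ⟨?_, Nat.dvd_mul_left _ _⟩
  have := Nat.mul_pos (Nat.lt_of_lt_of_le Nat.zero_lt_one h02)
    (Nat.lt_of_lt_of_le Nat.zero_lt_one h13)
  omega

/-- sizes of `e` and `x_02 x_13` -/
theorem pd18_sz {q : Par 5} (hq : q.Ok) {x : ℝ} (hx : 2 ≤ x) {P0 : ℕ} {s : PolyK 5 × PolyK 5}
    (h : B3S q x P0 s) : (pd18E s : ℝ) ≤ x ^ 3 ∧ (pd18G s : ℝ) ≤ x ^ 3 ∧
      ((dn s.1 0 * dn s.1 2 * dn s.1 3 : ℕ) : ℝ) ≤ x ^ 3 ∧ (dn s.1 1 : ℝ) ≤ x ^ 3 := by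
  have hx1 : 1 ≤ x := by linarith
  have hx0 : 0 < x := by linarith
  have hY : 1 ≤ x ^ (1 / 500 : ℝ) := Real.one_le_rpow hx1 (by norm_num)
  have hYx : ∀ k : ℕ, k ≤ 500 → (x ^ (1 / 500 : ℝ)) ^ k ≤ x := fun k hk => pd18_Yx hx1 hk
  have a : ∀ j, (dn s.1 j : ℝ) ≤ (x ^ (1 / 500 : ℝ)) ^ 3 := fun j => pd18_Y3 hq hx1 h.p1 j (j + 1)
  have b : ∀ j, (dn s.2 j : ℝ) ≤ (x ^ (1 / 500 : ℝ)) ^ 3 := fun j => pd18_Y3 hq hx1 h.p2 j (j + 1)
  have c : ((dt (s.1 0) (s.1 3)).natAbs : ℝ) ≤ (x ^ (1 / 500 : ℝ)) ^ 3 := pd18_Y3 hq hx1 h.p1 0 3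
  obtain ⟨e1, e2, hg, hm, hm'⟩ := pd18_m h
  have m1 : (pd18m s : ℝ) ≤ (x ^ (1 / 500 : ℝ)) ^ 3 := by
    refine le_trans ?_ (a 4)
    have : pd18m s ≤ dn s.1 4 := Nat.div_le_self _ _
    exact_mod_cast this
  have m2 : (pd18m' s : ℝ) ≤ (x ^ (1 / 500 : ℝ)) ^ 3 := by
    refine le_trans ?_ (b 4)
    have : pd18m' s ≤ dn s.2 4 := Nat.div_le_self _ _
    exact_mod_cast this
  set Y := x ^ (1 / 500 : ℝ) with hYdef
  have hY3 : 0 ≤ Y ^ 3 := by positivity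
  have h9 : Y ^ 3 * Y ^ 3 * Y ^ 3 ≤ x := by
    calc Y ^ 3 * Y ^ 3 * Y ^ 3 = Y ^ 9 := by ring
      _ ≤ x := hYx 9 (by norm_num)
  have h6 : Y ^ 3 * Y ^ 3 ≤ x := by
    calc Y ^ 3 * Y ^ 3 = Y ^ 6 := by ring
      _ ≤ x := hYx 6 (by norm_num)
  have hx4 : 4 ≤ x * x := by nlinarith
  have hx3 : x * 4 ≤ x ^ 3 := by
    calc x * 4 ≤ x * (x * x) := mul_le_mul_of_nonneg_left hx4 hx0.le
      _ = x ^ 3 := by ring
  have hxx : x + x ≤ x ^ 3 := by linarith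
  have hxx' : x ≤ x ^ 3 := by linarith
  have tri : ∀ p r t : ℕ, (p : ℝ) ≤ Y ^ 3 → (r : ℝ) ≤ Y ^ 3 → (t : ℝ) ≤ Y ^ 3 →
      (p : ℝ) * r * t ≤ x := by
    intro p r t hp hr ht
    exact (mul_le_mul (mul_le_mul hp hr (Nat.cast_nonneg _) hY3) ht (Nat.cast_nonneg _)
      (mul_nonneg hY3 hY3)).trans h9
  have duo : ∀ p r : ℕ, (p : ℝ) ≤ Y ^ 3 → (r : ℝ) ≤ Y ^ 3 → (p : ℝ) * r ≤ x := by
    intro p r hp hr
    exact (mul_le_mul hp hr (Nat.cast_nonneg _) hY3).trans h6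
  refine ⟨?_, ?_, ?_, ?_⟩
  · have h1 : pd18E s ≤ dn s.1 0 * dn s.1 3 * pd18m' s + dn s.2 0 * dn s.2 3 * pd18m s := by
      unfold pd18E dn
      refine (Int.natAbs_sub_le _ _).trans ?_
      rw [Int.natAbs_mul, Int.natAbs_mul, Int.natAbs_mul, Int.natAbs_mul, Int.natAbs_natCast,
        Int.natAbs_natCast]
    have h2 : (pd18E s : ℝ) ≤ (dn s.1 0 : ℝ) * dn s.1 3 * pd18m' s +
        (dn s.2 0 : ℝ) * dn s.2 3 * pd18m s := by exact_mod_cast h1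
    have := tri _ _ _ (a 0) (a 3) m2
    have := tri _ _ _ (b 0) (b 3) m1
    linarith
  · have h1 : pd18G s ≤ dn s.1 0 * dn s.1 2 + dn s.1 1 * (dt (s.1 0) (s.1 3)).natAbs := by
      unfold pd18G dn
      refine (Int.natAbs_add_le _ _).trans ?_
      rw [Int.natAbs_mul, Int.natAbs_mul]
    have h2 : (pd18G s : ℝ) ≤ (dn s.1 0 : ℝ) * dn s.1 2 +
        (dn s.1 1 : ℝ) * ((dt (s.1 0) (s.1 3)).natAbs : ℝ) := by exact_mod_cast h1
    have := duo _ _ (a 0) (a 2)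
    have := duo _ _ (a 1) c
    linarith
  · push_cast
    exact (tri _ _ _ (a 0) (a 2) (a 3)).trans hxx'
  · refine (a 1).trans ((le_trans ?_ h6).trans hxx')
    have : 1 ≤ Y ^ 3 := one_le_pow₀ hY
    nlinarith

theorem pd18_final (w c3 p0 p1 p2 p3 p4 N0 n C : ℝ) (hw : 1 ≤ w) (hc0 : 0 < c3) (hc1 : c3 ≤ 1)
    (h0 : 0 < p0) (h1 : 0 < p1) (h2 : 0 < p2) (h3 : 0 < p3) (h4 : w ^ 64 ≤ p4)
    (hN : c3 * w ^ 64 ≤ N0) (hC : 0 ≤ C) (hK : 2 * C ≤ c3 ^ 7 * w)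
    (hn : n ≤ C * ((w * p0) * (w * p2) * (w * p3) * (w * w) * (w * w) * (w * w) *
      (w * w / c3) * w * w * (w * p1) * (w * w) * w * (w * p4 / N0 + 1))) :
    n / (c3 ^ 5 * (p0 * p1 * p2 * p3 * p4)) ≤ (w ^ 8)⁻¹ := by
  have hw0 : 0 < w := by linarith
  have hw64 : 0 < w ^ 64 := by positivity
  have hp4 : 0 < p4 := lt_of_lt_of_le hw64 h4
  have hN0 : 0 < N0 := lt_of_lt_of_le (mul_pos hc0 hw64) hN
  have b8 : w * p4 / N0 + 1 ≤ 2 * w * p4 / (c3 * w ^ 64) := by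
    have e1 : w * p4 / N0 ≤ w * p4 / (c3 * w ^ 64) :=
      div_le_div_of_nonneg_left (by positivity) (mul_pos hc0 hw64) hN
    have e2 : 1 ≤ w * p4 / (c3 * w ^ 64) := by
      rw [one_le_div (mul_pos hc0 hw64)]
      calc c3 * w ^ 64 ≤ 1 * w ^ 64 := mul_le_mul_of_nonneg_right hc1 hw64.le
        _ ≤ w * p4 := mul_le_mul hw h4 hw64.le hw0.le
    calc w * p4 / N0 + 1 ≤ w * p4 / (c3 * w ^ 64) + w * p4 / (c3 * w ^ 64) := add_le_add e1 e2
      _ = _ := by ring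
  set P := p0 * p1 * p2 * p3 * p4 with hP
  have hP0 : 0 < P := by positivity
  have hn2 : n ≤ C * 2 * w ^ 18 * P / (c3 ^ 2 * w ^ 64) := by
    refine hn.trans ?_
    calc C * ((w * p0) * (w * p2) * (w * p3) * (w * w) * (w * w) * (w * w) *
        (w * w / c3) * w * w * (w * p1) * (w * w) * w * (w * p4 / N0 + 1)) ≤
        C * ((w * p0) * (w * p2) * (w * p3) * (w * w) * (w * w) * (w * w) *
        (w * w / c3) * w * w * (w * p1) * (w * w) * w * (2 * w * p4 / (c3 * w ^ 64))) := by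
          refine mul_le_mul_of_nonneg_left ?_ hC
          refine mul_le_mul_of_nonneg_left b8 ?_
          positivity
      _ = _ := by
          rw [hP]
          field_simp
  rw [div_le_iff₀ (by positivity)]
  refine hn2.trans ?_
  rw [div_le_iff₀ (by positivity)]
  have e3 : C * 2 * w ^ 18 * P ≤ c3 ^ 7 * w ^ 19 * P := by
    calc C * 2 * w ^ 18 * P = (2 * C) * (w ^ 18 * P) := by ring
      _ ≤ (c3 ^ 7 * w) * (w ^ 18 * P) := mul_le_mul_of_nonneg_right hK (by positivity)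
      _ = _ := by ring
  have e4 : c3 ^ 7 * w ^ 19 * P ≤ c3 ^ 7 * w ^ 56 * P := by
    refine mul_le_mul_of_nonneg_right ?_ hP0.le
    refine mul_le_mul_of_nonneg_left ?_ (by positivity)
    exact pow_le_pow_right₀ hw (by norm_num)
  refine (e3.trans e4).trans (le_of_eq ?_)
  field_simp

/-- the final fibre -/
theorem pd18_fib {q : Par 5} (hq : q.Ok) {C : ℕ} (hC : ∀ (x : ℝ) (P0 : ℕ) (S : Finset (PolyK 5)),
    (∀ u ∈ S, IsPoly q x P0 u ∧ Sep q u) → (∀ u ∈ S, ∀ v ∈ S, SameD u v) → S.card ≤ C)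
    {x : ℝ} {P0 : ℕ} (S : Finset (PolyK 5 × PolyK 5)) (hS : ∀ s ∈ S, B3S q x P0 s)
    (h1 : ∀ s ∈ S, ∀ t ∈ S, ∀ j, dn s.1 j = dn t.1 j)
    (h2 : ∀ s ∈ S, ∀ t ∈ S, ∀ j, dn s.2 j = dn t.2 j)
    (h13 : ∀ s ∈ S, ∀ t ∈ S, (dt (s.1 1) (s.1 3)).natAbs = (dt (t.1 1) (t.1 3)).natAbs)
    (h03 : ∀ s ∈ S, ∀ t ∈ S, (dt (s.1 0) (s.1 3)).natAbs = (dt (t.1 0) (t.1 3)).natAbs) :
    S.card ≤ C * C := by
  have hnz : ∀ {u : PolyK 5}, IsPoly q x P0 u → ∀ {i j : Fin 5}, i ≠ j → dt (u i) (u j) ≠ 0 := by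
    intro u hu i j hij h0
    have h := pd18_pos hu hij
    rw [h0] at h
    simp at h
  have a13 : ∀ s ∈ S, ∀ t ∈ S, dt (s.1 1) (s.1 3) = dt (t.1 1) (t.1 3) := fun s hs t ht =>
    pd18_dt hq (hS s hs).p1 (hS t ht).p1 (by decide) (h13 s hs t ht)
  have a03 : ∀ s ∈ S, ∀ t ∈ S, dt (s.1 0) (s.1 3) = dt (t.1 0) (t.1 3) := fun s hs t ht =>
    pd18_dt hq (hS s hs).p1 (hS t ht).p1 (by decide) (h03 s hs t ht)
  have c1 : (S.image Prod.fst).card ≤ C := by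
    apply hC x P0
    · intro u hu
      rw [mem_image] at hu
      obtain ⟨s, hs, rfl⟩ := hu
      exact ⟨(hS s hs).p1, (hS s hs).s1⟩
    · intro u hu v hv
      rw [mem_image] at hu hv
      obtain ⟨s, hs, rfl⟩ := hu
      obtain ⟨t, ht, rfl⟩ := hv
      exact same_of_data1 (hnz (hS s hs).p1 (i := 0) (j := 1) (by decide))
        (hnz (hS s hs).p1 (by decide)) (hnz (hS s hs).p1 (by decide))
        (fun j => pd18_dl hq (hS s hs).p1 (hS t ht).p1 j (h1 s hs t ht j))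
        (a13 s hs t ht) (a03 s hs t ht)
  have c2 : (S.image Prod.snd).card ≤ C := by
    apply hC x P0
    · intro u hu
      rw [mem_image] at hu
      obtain ⟨s, hs, rfl⟩ := hu
      exact ⟨(hS s hs).p2, (hS s hs).s2⟩
    · intro u hu v hv
      rw [mem_image] at hu hv
      obtain ⟨s, hs, rfl⟩ := hu
      obtain ⟨t, ht, rfl⟩ := hv
      obtain ⟨b1, b2⟩ := pd18_he (hS s hs).he
      obtain ⟨b3, b4⟩ := pd18_he (hS t ht).he
      exact same_of_data1 (hnz (hS s hs).p2 (i := 0) (j := 1) (by decide))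
        (hnz (hS s hs).p2 (by decide)) (hnz (hS s hs).p2 (by decide))
        (fun j => pd18_dl hq (hS s hs).p2 (hS t ht).p2 j (h2 s hs t ht j))
        (by rw [b1, b3]; exact a13 s hs t ht) (by rw [b2, b4]; exact a03 s hs t ht)
  have hsub : S ⊆ (S.image Prod.fst) ×ˢ (S.image Prod.snd) := by
    intro s hs
    rw [mem_product]
    exact ⟨mem_image_of_mem _ hs, mem_image_of_mem _ hs⟩
  calc S.card ≤ ((S.image Prod.fst) ×ˢ (S.image Prod.snd)).card := card_le_card hsub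
    _ = (S.image Prod.fst).card * (S.image Prod.snd).card := card_product _ _
    _ ≤ C * C := Nat.mul_le_mul c1 c2

/-- BLOCK PD18 (uses PD2 - PD5; `fib_sum`): `(B3)`, `e ≠ 0`. Notation `u = s.1`, `v = s.2`,
`m_4 = dn u 4 / G_4`, `m_4' = dn v 4 / G_4`, `G_4 = gcd`; `T = x ^ (ε/8)`, `m_j' ≤ T` and
`m_4, m_1 ≤ H = x ^ (ε/8 + ε/25) / c3` (sizes of `dn u 4`, `dn v 4`).
`e = dl u 0 dl u 3 m_4' - dl v 0 dl v 3 m_4 ≠ 0` is divisible by `x_03` (`plu2` for `u` and `v`).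
Choose successively: `dn u 0, dn u 2, dn u 3` (`(1 + log x)³`, weight `1/dn`); `dn v 0, dn v 2, dn v 3`
(a divisor of `bad u` times `m ≤ T` each); `m_4, m_4'` (`H²`); `x_03 ∣ e`; `dn u 1` (`1 + log x`); `dn v 1`
(a divisor of `dn u 1` times `m ≤ T`); `x_13 ∣ x_02 x_13 = dl u 0 dl u 2 + dl u 1 x_03 ≠ 0`; `dn u 4` in one
class modulo `x_03` (`plu2`, `x_13` prime to `x_03`; `class_sum` with `T = c3 x ^ (8 ε)`); `dn v 4` is then
determined; `(u, v)` up to equivalence of `u` and of `v` (`same_of_data1`, `same_bd`). Signs are fixed. -/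
theorem b3_e_pr (q : Par 5) (hq : q.Ok) (hg : q.Gap) : ∃ x₀ : ℝ, 1 ≤ x₀ ∧ ∀ x ≥ x₀,
    ∀ (P0 : ℕ) (S : Finset (PolyK 5 × PolyK 5)), (∀ s ∈ S, B3S q x P0 s ∧
      dl s.1 0 * dl s.1 3 * dl s.2 4 ≠ dl s.2 0 * dl s.2 3 * dl s.1 4) →
    ∑ s ∈ S, 1 / (DD s.1 : ℝ) ≤ x ^ (-q.ε) := by
  classical
  obtain ⟨C, hC⟩ := same_bd q hq
  have hε := hq.ε0
  obtain ⟨x1, hx1, hdiv⟩ := div_le (θ := q.ε / 8) (by positivity)
  have hc3 := hq.c30
  set K : ℝ := 2 * (C * C : ℕ) / q.c3 ^ 7 + 1 with hK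
  have hK1 : 1 ≤ K := by
    have : 0 ≤ 2 * ((C * C : ℕ) : ℝ) / q.c3 ^ 7 := by positivity
    linarith
  refine ⟨max (max x1 2) (K ^ (8 / q.ε)), le_max_of_le_left (le_max_of_le_left hx1), ?_⟩
  intro x hx P0 S hS
  have hxa : x1 ≤ x := (le_max_left _ _).trans ((le_max_left _ _).trans hx)
  have hx2 : 2 ≤ x := (le_max_right _ _).trans ((le_max_left _ _).trans hx)
  have hxK : K ^ (8 / q.ε) ≤ x := (le_max_right _ _).trans hx
  have hx1' : 1 ≤ x := by linarith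
  have hx0 : 0 < x := by linarith
  have hwK : K ≤ x ^ (q.ε / 8) := by
    have h1 : (K ^ (8 / q.ε)) ^ (q.ε / 8) ≤ x ^ (q.ε / 8) :=
      Real.rpow_le_rpow (Real.rpow_nonneg (by linarith) _) hxK (by positivity)
    rw [← Real.rpow_mul (by linarith)] at h1
    have h2 : 8 / q.ε * (q.ε / 8) = 1 := by field_simp
    rw [h2, Real.rpow_one] at h1
    exact h1
  have hτ := hdiv x hxa
  have hw1 : 1 ≤ x ^ (q.ε / 8) := pd18_w hx1' hε
  set w := x ^ (q.ε / 8) with hw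
  have hw0 : 0 < w := by linarith
  have hB : ∀ s ∈ S, B3S q x P0 s := fun s hs => (hS s hs).1
  have hU : ∀ j, 0 < x ^ q.e j := fun j => Real.rpow_pos_of_pos hx0 _
  have hgk : ∀ s ∈ S, ∀ k : Fin 5, k ≠ 1 → k ≠ 4 →
      (dn s.2 k : ℝ) ≤ w * Nat.gcd (dn s.2 k) (dn s.1 0 * dn s.1 2 * dn s.1 3) := by
    intro s hs k h1 h4
    have h := (hB s hs).hk k
    have e : gk s.1 s.2 k = Nat.gcd (dn s.2 k) (bad s.1) := by
      unfold gk
      rw [if_neg h1, if_neg h4]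
    rw [e, pd18_bad] at h
    exact h
  have hpos1 : ∀ s ∈ S, ∀ j : Fin 5, 1 ≤ dn s.1 j := by
    intro s hs j
    have hj : j ≠ j + 1 := by fin_cases j <;> decide
    exact pd18_pos (hB s hs).p1 hj
  have hpos2 : ∀ s ∈ S, ∀ j : Fin 5, 1 ≤ dn s.2 j := by
    intro s hs j
    have hj : j ≠ j + 1 := by fin_cases j <;> decide
    exact pd18_pos (hB s hs).p2 hj
  have hdl : ∀ s ∈ S, ∀ t ∈ S, ∀ j, dn s.1 j = dn t.1 j → dl s.1 j = dl t.1 j :=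
    fun s hs t ht j h => pd18_dl hq (hB s hs).p1 (hB t ht).p1 j h
  have hdl' : ∀ s ∈ S, ∀ t ∈ S, ∀ j, dn s.2 j = dn t.2 j → dl s.2 j = dl t.2 j :=
    fun s hs t ht j h => pd18_dl hq (hB s hs).p2 (hB t ht).p2 j h
  have hN0 : w ^ 64 ≤ x ^ q.e 0 * x ^ q.e 3 := by
    have h1 := pd18_U hg hx1' 0
    have h2 := pd18_U hg hx1' 3
    calc w ^ 64 = w ^ 32 * w ^ 32 := by ring
      _ ≤ _ := mul_le_mul h1 h2 (by positivity) (hU 0).le
  have hcount := pd18_count S (fun s => dn s.1 0) (fun s => dn s.1 2) (fun s => dn s.1 3)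
    (fun s => dn s.2 0) (fun s => dn s.2 2) (fun s => dn s.2 3) pd18m pd18m'
    (fun s => (dt (s.1 0) (s.1 3)).natAbs) (fun s => dn s.1 1) (fun s => dn s.2 1)
    (fun s => (dt (s.1 1) (s.1 3)).natAbs) (fun s => dn s.1 4) pd18E pd18G
    w (w * w / q.c3) (w * (x ^ q.e 0 * x ^ q.e 1)) (w * (x ^ q.e 2 * x ^ q.e 3))
    (w * (x ^ q.e 3 * x ^ q.e 4)) (w * (x ^ q.e 1 * x ^ q.e 2)) (w * (x ^ q.e 4 * x ^ q.e 0))
    (q.c3 * (x ^ q.e 0 * x ^ q.e 3)) (C * C) hw1 (by positivity)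
    (mul_nonneg hw0.le (mul_nonneg (hU 0).le (hU 1).le))
    (mul_nonneg hw0.le (mul_nonneg (hU 1).le (hU 2).le))
    (mul_nonneg hw0.le (mul_nonneg (hU 2).le (hU 3).le))
    (mul_nonneg hw0.le (mul_nonneg (hU 3).le (hU 4).le))
    (mul_nonneg hw0.le (mul_nonneg (hU 4).le (hU 0).le))
    (mul_pos hc3 (mul_pos (hU 0) (hU 3)))
    (fun s hs => ⟨hpos1 s hs 0, pd18_le hq hx1' (hB s hs).p1 0 1⟩)
    (fun s hs => ⟨hpos1 s hs 2, pd18_le hq hx1' (hB s hs).p1 2 3⟩)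
    (fun s hs => ⟨hpos1 s hs 3, pd18_le hq hx1' (hB s hs).p1 3 4⟩)
    (fun s hs => hτ _ (Nat.mul_pos (Nat.mul_pos (hpos1 s hs 0) (hpos1 s hs 2)) (hpos1 s hs 3))
      (pd18_sz hq hx2 (hB s hs)).2.2.1)
    (fun s hs => ⟨hpos2 s hs 0, hgk s hs 0 (by decide) (by decide)⟩)
    (fun s hs => ⟨hpos2 s hs 2, hgk s hs 2 (by decide) (by decide)⟩)
    (fun s hs => ⟨hpos2 s hs 3, hgk s hs 3 (by decide) (by decide)⟩)
    (fun s hs => ⟨(pd18_m (hB s hs)).2.2.2.1, (pd18_m_le hq hx1' (hB s hs)).1⟩)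
    (fun s hs => ⟨(pd18_m (hB s hs)).2.2.2.2, (pd18_m_le hq hx1' (hB s hs)).2⟩)
    (fun s hs => ⟨(pd18_E hq (hB s hs) (hS s hs).2).1, (pd18_E hq (hB s hs) (hS s hs).2).2,
      hτ _ (Nat.pos_of_ne_zero (pd18_E hq (hB s hs) (hS s hs).2).1)
        (pd18_sz hq hx2 (hB s hs)).1⟩)
    (by
      intro s hs t ht h
      simp only [List.cons.injEq, and_true] at h
      obtain ⟨k0, k2, k3, l0, l2, l3, n1, n2⟩ := h
      unfold pd18E
      rw [hdl s hs t ht 0 k0, hdl s hs t ht 3 k3, hdl' s hs t ht 0 l0, hdl' s hs t ht 3 l3, n1, n2])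
    (fun s hs => ⟨hpos1 s hs 1, pd18_le hq hx1' (hB s hs).p1 1 2⟩)
    (fun s hs => hτ _ (hpos1 s hs 1) (pd18_sz hq hx2 (hB s hs)).2.2.2)
    (by
      intro s hs
      refine ⟨hpos2 s hs 1, ?_⟩
      have h := (hB s hs).hk 1
      have e : gk s.1 s.2 1 = Nat.gcd (dn s.2 1) (dn s.1 1) := by
        unfold gk
        rw [if_pos rfl, Nat.gcd_comm]
      rw [e] at h
      exact h)
    (fun s hs => ⟨(pd18_G (hB s hs)).1, (pd18_G (hB s hs)).2,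
      hτ _ (Nat.pos_of_ne_zero (pd18_G (hB s hs)).1) (pd18_sz hq hx2 (hB s hs)).2.1⟩)
    (by
      intro s hs t ht h
      simp only [List.cons.injEq, and_true] at h
      obtain ⟨k0, k2, k3, kx, k1⟩ := h
      unfold pd18G
      rw [hdl s hs t ht 0 k0, hdl s hs t ht 2 k2, hdl s hs t ht 1 k1,
        pd18_dt hq (hB s hs).p1 (hB t ht).p1 (i := 0) (j := 3) (by decide) kx])
    (fun s hs => pd18_le hq hx1' (hB s hs).p1 4 0)
    (fun s hs => pd18_ge hq hx1' (hB s hs).p1 (hB s hs).s1 (i := 0) (j := 3) (by decide))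
    (by
      intro s hs t ht h
      simp only [List.cons.injEq, and_true] at h
      obtain ⟨k0, k2, k3, kx, k1, kz⟩ := h
      have ex := pd18_dt hq (hB s hs).p1 (hB t ht).p1 (i := 0) (j := 3) (by decide) kx
      have ez := pd18_dt hq (hB s hs).p1 (hB t ht).p1 (i := 1) (j := 3) (by decide) kz
      have p1 := plu2 s.1
      have p2 := plu2 t.1
      rw [hdl s hs t ht 0 k0, hdl s hs t ht 3 k3, ex, ez] at p1
      have hdvd : dt (t.1 0) (t.1 3) ∣ (dl s.1 4 - dl t.1 4) * dt (t.1 1) (t.1 3) := by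
        refine ⟨dt (t.1 1) (t.1 4) - dt (s.1 1) (s.1 4), ?_⟩
        linear_combination p1 - p2
      have hcop : IsCoprime (dt (t.1 0) (t.1 3)) (dt (t.1 1) (t.1 3)) := by
        rw [Int.isCoprime_iff_gcd_eq_one]
        have := (cop13 (hB t ht).p1).2.2.2
        rw [Nat.coprime_comm] at this
        exact this
      have h1 := hcop.dvd_of_dvd_mul_right hdvd
      have h2 : (((dt (s.1 0) (s.1 3)).natAbs : ℕ) : ℤ) ∣ dl s.1 4 - dl t.1 4 := by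
        rw [ex]
        exact Int.natAbs_dvd.mpr h1
      have d1 := pd18_dl4 hq (hB s hs).p1
      have d2 := pd18_dl4 hq (hB t ht).p1
      rw [d1, d2, ← mul_sub] at h2
      rcases hq.hσ 4 0 with h3 | h3
      · rw [h3, one_mul] at h2
        exact h2
      · rw [h3, neg_one_mul, Int.dvd_neg] at h2
        exact h2)
    (by
      intro S' hS' hk
      refine pd18_fib hq hC S' (fun s hs => hB s (hS' hs)) ?_ ?_ ?_ ?_
      · intro s hs t ht j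
        have h := hk s hs t ht
        simp only [List.cons.injEq, and_true] at h
        obtain ⟨k0, k2, k3, l0, l2, l3, n1, n2, kx, k1, l1, kz, k4⟩ := h
        fin_cases j
        · exact k0
        · exact k1
        · exact k2
        · exact k3
        · exact k4
      · intro s hs t ht j
        have h := hk s hs t ht
        simp only [List.cons.injEq, and_true] at h
        obtain ⟨k0, k2, k3, l0, l2, l3, n1, n2, kx, k1, l1, kz, k4⟩ := h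
        fin_cases j
        · exact l0
        · exact l1
        · exact l2
        · exact l3
        · show dn s.2 4 = dn t.2 4
          obtain ⟨e1, e2, hgs, hm, hm'⟩ := pd18_m (hB s (hS' hs))
          obtain ⟨f1, f2, hgt, gm, gm'⟩ := pd18_m (hB t (hS' ht))
          have e3 : dn s.2 4 * pd18m s = dn s.1 4 * pd18m' s := by
            calc dn s.2 4 * pd18m s =
                  (Nat.gcd (dn s.1 4) (dn s.2 4) * pd18m' s) * pd18m s := by rw [← e2]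
              _ = (Nat.gcd (dn s.1 4) (dn s.2 4) * pd18m s) * pd18m' s := by ring
              _ = dn s.1 4 * pd18m' s := by rw [← e1]
          have f3 : dn t.2 4 * pd18m t = dn t.1 4 * pd18m' t := by
            calc dn t.2 4 * pd18m t =
                  (Nat.gcd (dn t.1 4) (dn t.2 4) * pd18m' t) * pd18m t := by rw [← f2]
              _ = (Nat.gcd (dn t.1 4) (dn t.2 4) * pd18m t) * pd18m' t := by ring
              _ = dn t.1 4 * pd18m' t := by rw [← f1]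
          rw [← n1, ← n2, ← k4, ← e3] at f3
          exact (Nat.eq_of_mul_eq_mul_right hm f3).symm
      · intro s hs t ht
        have h := hk s hs t ht
        simp only [List.cons.injEq, and_true] at h
        obtain ⟨k0, k2, k3, l0, l2, l3, n1, n2, kx, k1, l1, kz, k4⟩ := h
        exact kz
      · intro s hs t ht
        have h := hk s hs t ht
        simp only [List.cons.injEq, and_true] at h
        obtain ⟨k0, k2, k3, l0, l2, l3, n1, n2, kx, k1, l1, kz, k4⟩ := h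
        exact kx)
  -- the sum
  have hP : 0 < (x ^ q.e 0 * x ^ q.e 1) * (x ^ q.e 1 * x ^ q.e 2) * (x ^ q.e 2 * x ^ q.e 3) *
      (x ^ q.e 3 * x ^ q.e 4) * (x ^ q.e 4 * x ^ q.e 0) := by
    have := hU 0
    have := hU 1
    have := hU 2
    have := hU 3
    have := hU 4
    positivity
  have hterm : ∀ s ∈ S, 1 / (DD s.1 : ℝ) ≤ 1 / (q.c3 ^ 5 * ((x ^ q.e 0 * x ^ q.e 1) *
      (x ^ q.e 1 * x ^ q.e 2) * (x ^ q.e 2 * x ^ q.e 3) *
      (x ^ q.e 3 * x ^ q.e 4) * (x ^ q.e 4 * x ^ q.e 0))) := by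
    intro s hs
    apply one_div_le_one_div_of_le (by positivity)
    rw [pd18_DD]
    push_cast
    have g0 : q.c3 * (x ^ q.e 0 * x ^ q.e 1) ≤ (dn s.1 0 : ℝ) :=
      pd18_ge hq hx1' (hB s hs).p1 (hB s hs).s1 (i := 0) (j := 1) (by decide)
    have g1 : q.c3 * (x ^ q.e 1 * x ^ q.e 2) ≤ (dn s.1 1 : ℝ) :=
      pd18_ge hq hx1' (hB s hs).p1 (hB s hs).s1 (i := 1) (j := 2) (by decide)
    have g2 : q.c3 * (x ^ q.e 2 * x ^ q.e 3) ≤ (dn s.1 2 : ℝ) :=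
      pd18_ge hq hx1' (hB s hs).p1 (hB s hs).s1 (i := 2) (j := 3) (by decide)
    have g3 : q.c3 * (x ^ q.e 3 * x ^ q.e 4) ≤ (dn s.1 3 : ℝ) :=
      pd18_ge hq hx1' (hB s hs).p1 (hB s hs).s1 (i := 3) (j := 4) (by decide)
    have g4 : q.c3 * (x ^ q.e 4 * x ^ q.e 0) ≤ (dn s.1 4 : ℝ) :=
      pd18_ge hq hx1' (hB s hs).p1 (hB s hs).s1 (i := 4) (j := 0) (by decide)
    have u0 := hU 0
    have u1 := hU 1
    have u2 := hU 2
    have u3 := hU 3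
    have u4 := hU 4
    calc q.c3 ^ 5 * ((x ^ q.e 0 * x ^ q.e 1) *
      (x ^ q.e 1 * x ^ q.e 2) * (x ^ q.e 2 * x ^ q.e 3) *
      (x ^ q.e 3 * x ^ q.e 4) * (x ^ q.e 4 * x ^ q.e 0)) =
        (q.c3 * (x ^ q.e 0 * x ^ q.e 1)) * (q.c3 * (x ^ q.e 1 * x ^ q.e 2)) *
          (q.c3 * (x ^ q.e 2 * x ^ q.e 3)) * (q.c3 * (x ^ q.e 3 * x ^ q.e 4)) *
            (q.c3 * (x ^ q.e 4 * x ^ q.e 0)) := by ring
      _ ≤ (dn s.1 0 : ℝ) * dn s.1 1 * dn s.1 2 * dn s.1 3 * dn s.1 4 :=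
        mul_le_mul (mul_le_mul (mul_le_mul (mul_le_mul g0 g1 (by positivity) (by positivity)) g2
          (by positivity) (by positivity)) g3 (by positivity) (by positivity)) g4
          (by positivity) (by positivity)
  have hsum := sum_le_sum hterm
  rw [sum_const, nsmul_eq_mul] at hsum
  refine hsum.trans ?_
  rw [mul_one_div]
  have hfin := pd18_final w q.c3 (x ^ q.e 0 * x ^ q.e 1) (x ^ q.e 1 * x ^ q.e 2)
    (x ^ q.e 2 * x ^ q.e 3) (x ^ q.e 3 * x ^ q.e 4) (x ^ q.e 4 * x ^ q.e 0)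
    (q.c3 * (x ^ q.e 0 * x ^ q.e 3)) (S.card : ℝ) ((C * C : ℕ) : ℝ) hw1 hc3 hq.c31
    (mul_pos (hU 0) (hU 1)) (mul_pos (hU 1) (hU 2)) (mul_pos (hU 2) (hU 3))
    (mul_pos (hU 3) (hU 4))
    (by
      have h1 := pd18_U hg hx1' 4
      have h2 := pd18_U hg hx1' 0
      calc w ^ 64 = w ^ 32 * w ^ 32 := by ring
        _ ≤ _ := mul_le_mul h1 h2 (by positivity) (hU 4).le)
    (mul_le_mul_of_nonneg_left hN0 hc3.le) (Nat.cast_nonneg _)
    (by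
      have h1 : 2 * ((C * C : ℕ) : ℝ) / q.c3 ^ 7 ≤ w := by
        have : 2 * ((C * C : ℕ) : ℝ) / q.c3 ^ 7 ≤ K := by rw [hK]; linarith
        exact this.trans hwK
      rw [div_le_iff₀ (by positivity)] at h1
      linarith)
    hcount
  refine hfin.trans (le_of_eq ?_)
  rw [Real.rpow_neg hx0.le, hw, ← Real.rpow_natCast, ← Real.rpow_mul hx0.le]
  congr 2
  push_cast
  ring

end Pool.Agent.PENK

namespace Pool.Agent.PENK

theorem b3_e : type_of% @b3_e_pr := @b3_e_pr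

end Pool.Agent.PENK
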