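import Pool.Agent.Lib_helper18.PENK.Defs2
import Pool.Agent.Lib_helper18.PENKF.DefsW
import Pool.Agent.Lib_helper18.PENKF.PD3

set_option autoImplicit false

namespace Pool.Agent.PENK

open Finset Pool.Agent.PENT

private theorem pd20_cop {q : Par 5} {x : ℝ} {P0 : ℕ} {u : PolyK 5} (hu : IsPoly q x P0 u)
    (i j : Fin 5) (h : i ≠ j) : IsCoprime (dl u i) (dl u j) := by
  rw [Int.isCoprime_iff_gcd_eq_one]
  exact hu.co i j h

private theorem pd20_ne {q : Par 5} {x : ℝ} {P0 : ℕ} {u : PolyK 5} (hu : IsPoly q x P0 u)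
    (i j : Fin 5) (h : i ≠ j) : dt (u i) (u j) ≠ 0 := by
  intro h0
  have := hu.sg i j h
  rw [h0] at this
  simp at this

private theorem pd20_eq {q : Par 5} {x : ℝ} {P0 : ℕ} {u v : PolyK 5} (hq : q.Ok)
    (hu : IsPoly q x P0 u) (hv : IsPoly q x P0 v) (j : Fin 5) (h1 : dl u j ∣ dl v j)
    (h2 : dl v j ∣ dl u j) : dl u j = dl v j := by
  have hne : j ≠ j + 1 := by fin_cases j <;> decide
  have a := hu.sg j (j + 1) hne
  have b := hv.sg j (j + 1) hne
  have hab : (dl u j).natAbs = (dl v j).natAbs :=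
    Nat.dvd_antisymm (Int.natAbs_dvd_natAbs.mpr h1) (Int.natAbs_dvd_natAbs.mpr h2)
  rcases Int.natAbs_eq_natAbs_iff.mp hab with h | h
  · exact h
  · exfalso
    have h' : dt (u j) (u (j + 1)) = -dt (v j) (v (j + 1)) := h
    rw [h'] at a
    rcases hq.hσ j (j + 1) with e | e <;> rw [e] at a b <;> linarith

theorem b3_same_pr {q : Par 5} (hq : q.Ok) {x : ℝ} {P0 : ℕ} {u v : PolyK 5} (hu : IsPoly q x P0 u)
    (hv : IsPoly q x P0 v) (he : cv v 3 = cv u 3)
    (h1 : dl u 0 * dl u 3 * dl v 4 = dl v 0 * dl v 3 * dl u 4)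
    (h2 : dl u 0 * dl u 2 * dl v 1 = dl v 0 * dl v 2 * dl u 1) : SameD u v := by
  have nz : ∀ {w : PolyK 5}, IsPoly q x P0 w → ∀ j : Fin 5, dl w j ≠ 0 := by
    intro w hw j
    have hne : j ≠ j + 1 := by fin_cases j <;> decide
    exact pd20_ne hw j (j + 1) hne
  have u40 : IsCoprime (dl u 4) (dl u 0 * dl u 3) :=
    (pd20_cop hu 4 0 (by decide)).mul_right (pd20_cop hu 4 3 (by decide))
  have v40 : IsCoprime (dl v 4) (dl v 0 * dl v 3) :=
    (pd20_cop hv 4 0 (by decide)).mul_right (pd20_cop hv 4 3 (by decide))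
  have u10 : IsCoprime (dl u 1) (dl u 0 * dl u 2) :=
    (pd20_cop hu 1 0 (by decide)).mul_right (pd20_cop hu 1 2 (by decide))
  have v10 : IsCoprime (dl v 1) (dl v 0 * dl v 2) :=
    (pd20_cop hv 1 0 (by decide)).mul_right (pd20_cop hv 1 2 (by decide))
  have e4 : dl u 4 = dl v 4 := by
    apply pd20_eq hq hu hv
    · exact u40.dvd_of_dvd_mul_left (h1 ▸ Dvd.intro_left _ rfl)
    · exact v40.dvd_of_dvd_mul_left (h1 ▸ Dvd.intro_left _ rfl)
  have e1 : dl u 1 = dl v 1 := by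
    apply pd20_eq hq hu hv
    · exact u10.dvd_of_dvd_mul_left (h2 ▸ Dvd.intro_left _ rfl)
    · exact v10.dvd_of_dvd_mul_left (h2 ▸ Dvd.intro_left _ rfl)
  have p3 : dl u 0 * dl u 3 = dl v 0 * dl v 3 := by
    rw [e4] at h1
    exact mul_right_cancel₀ (nz hv 4) h1
  have p2 : dl u 0 * dl u 2 = dl v 0 * dl v 2 := by
    rw [e1] at h2
    exact mul_right_cancel₀ (nz hv 1) h2
  have key : ∀ {a b a3 b3 a2 b2 : ℤ}, a * a3 = b * b3 → a * a2 = b * b2 → IsCoprime b3 b2 →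
      a ∣ b := by
    intro a b a3 b3 a2 b2 h3 h2 hc
    obtain ⟨s, t, hst⟩ := hc
    refine ⟨s * a3 + t * a2, ?_⟩
    calc b = b * (s * b3 + t * b2) := by rw [hst, mul_one]
      _ = s * (b * b3) + t * (b * b2) := by ring
      _ = s * (a * a3) + t * (a * a2) := by rw [h3, h2]
      _ = a * (s * a3 + t * a2) := by ring
  have e0 : dl u 0 = dl v 0 := by
    apply pd20_eq hq hu hv
    · exact key p3 p2 (pd20_cop hv 3 2 (by decide))
    · exact key p3.symm p2.symm (pd20_cop hu 3 2 (by decide))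
  have e3 : dl u 3 = dl v 3 := by
    rw [e0] at p3
    exact mul_left_cancel₀ (nz hv 0) p3
  have e2 : dl u 2 = dl v 2 := by
    rw [e0] at p2
    exact mul_left_cancel₀ (nz hv 0) p2
  have he1 : dt (v 3) (v 1) = dt (u 3) (u 1) := congrArg Prod.fst he
  have he2 : dt (v 0) (v 3) = dt (u 0) (u 3) := congrArg Prod.snd he
  have anti : ∀ a b : ℤ × ℤ, dt a b = -dt b a := by
    intro a b
    unfold dt
    ring
  have a13 : dt (u 1) (u 3) = dt (v 1) (v 3) := by
    rw [anti (u 1) (u 3), anti (v 1) (v 3), he1]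
  refine same_of_data1 (nz hu 0) (pd20_ne hu 1 3 (by decide)) (pd20_ne hu 0 3 (by decide)) ?_
    a13 he2.symm
  intro j
  fin_cases j
  · exact e0
  · exact e1
  · exact e2
  · exact e3
  · exact e4

end Pool.Agent.PENK

namespace Pool.Agent.PENK

theorem b3_same : type_of% @b3_same_pr := @b3_same_pr

end Pool.Agent.PENK
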