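import Pool.Agent.Lib_helper18.PENK.Defs
import Pool.Agent.Lib_helper61.FG.DivB

set_option autoImplicit false

namespace Pool.Agent.PENK

open Finset Pool.Agent.PENT

theorem pd6_one_ne {K : ℕ} [NeZero K] (hK : 5 ≤ K) : (1 : Fin K) ≠ -1 := by
  obtain ⟨k, rfl⟩ : ∃ k, K = k + 5 := ⟨K - 5, by omega⟩
  intro h
  have h2 := congrArg Fin.val h
  rw [Fin.val_one', Fin.val_neg] at h2
  have h3 : (1 : Fin (k + 5)) ≠ 0 := by
    intro h4
    have := congrArg Fin.val h4
    simp at this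
  rw [if_neg h3, Fin.val_one', Nat.mod_eq_of_lt (by omega)] at h2
  omega

theorem pd6_lw_nonneg (P p : ℕ) {a : ℝ} (ha : 0 ≤ a) : 0 ≤ lw P p a := by
  unfold lw; split_ifs
  · exact ha
  · norm_num

theorem pd6_lw_le (P p : ℕ) {a : ℝ} (ha : a ≤ 1) : lw P p a ≤ 1 := by
  unfold lw; split_ifs
  · exact ha
  · exact le_rfl

/-- `2 ^ ω / n` for a squarefree number -/
theorem pd6_two {n : ℕ} (hn : Squarefree n) :
    ∏ p ∈ n.primeFactors, (2 : ℝ) / p = (n.divisors.card : ℝ) / n := by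
  have h0 : n ≠ 0 := hn.ne_zero
  rw [Finset.prod_div_distrib]
  congr 1
  · rw [Nat.card_divisors h0]
    push_cast
    apply Finset.prod_congr rfl
    intro p hp
    have h1 : n.factorization p = 1 := by
      have h2 := (Nat.squarefree_iff_factorization_le_one h0).1 hn p
      have h3 : 0 < n.factorization p :=
        (Nat.mem_primeFactors.1 hp).1.factorization_pos_of_dvd h0 (Nat.mem_primeFactors.1 hp).2.1
      omega
    rw [h1]; norm_num
  · rw [← Nat.cast_prod, Nat.prod_primeFactors_of_squarefree hn]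

theorem pd6_wi {K : ℕ} [NeZero K] (W : Wts K) (hW : W.Ok) (P : ℕ) (u : PolyK K)
    (hsq : ∀ j, Squarefree (dn u j)) :
    wi W P u ≤ ∏ j ∈ inr K, (((dn u j).divisors.card : ℝ) / dn u j) := by
  unfold wi
  apply Finset.prod_le_prod
  · intro j _
    apply Finset.prod_nonneg
    intro p _
    have := pd6_lw_nonneg P p (hW.al0 j)
    positivity
  · intro j _
    rw [← pd6_two (hsq j)]
    apply Finset.prod_le_prod
    · intro p _
      have := pd6_lw_nonneg P p (hW.al0 j)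
      positivity
    · intro p _
      have := pd6_lw_le P p ((hW.al1 j).trans (by norm_num))
      apply div_le_div_of_nonneg_right _ (Nat.cast_nonneg p)
      linarith

theorem pd6_wi_nonneg {K : ℕ} [NeZero K] (W : Wts K) (hW : W.Ok) (P : ℕ) (u : PolyK K) :
    0 ≤ wi W P u := by
  unfold wi
  apply Finset.prod_nonneg
  intro j _
  apply Finset.prod_nonneg
  intro p _
  have := pd6_lw_nonneg P p (hW.al0 j)
  positivity

theorem pd6_wsp_nonneg (P : ℕ) {both one : ℝ} (h1 : 0 ≤ both) (h2 : 0 ≤ one) (d d' : ℕ) :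
    0 ≤ wsp P both one d d' := by
  unfold wsp
  apply Finset.prod_nonneg
  intro p _
  have := pd6_lw_nonneg P p h1
  have := pd6_lw_nonneg P p h2
  split_ifs <;> positivity

theorem pd6_wsp (P : ℕ) {both one : ℝ} (h1 : 0 ≤ both) (h1' : both ≤ 1) (h2 : 0 ≤ one)
    (h2' : one ≤ 1) {d d' : ℕ} (hd : Squarefree d) (hd' : Squarefree d') :
    wsp P both one d d' ≤ (d.divisors.card : ℝ) * d'.divisors.card * Nat.gcd d d' / (d * d') := by
  have hd0 := hd.ne_zero
  have hd0' := hd'.ne_zero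
  have hg0 : Nat.gcd d d' ≠ 0 := Nat.gcd_ne_zero_left hd0
  have hsg : Squarefree (Nat.gcd d d') := hd.squarefree_of_dvd (Nat.gcd_dvd_left _ _)
  have hstep : wsp P both one d d' ≤ ∏ p ∈ (d * d').primeFactors, (2 : ℝ) / p := by
    unfold wsp
    apply Finset.prod_le_prod
    · intro p _
      have := pd6_lw_nonneg P p h1
      have := pd6_lw_nonneg P p h2
      split_ifs <;> positivity
    · intro p _
      have a1 := pd6_lw_le P p h1'
      have a2 := pd6_lw_le P p h2'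
      apply div_le_div_of_nonneg_right _ (Nat.cast_nonneg p)
      split_ifs <;> linarith
  refine hstep.trans ?_
  have hmul : (∏ p ∈ (d * d').primeFactors, (2 : ℝ) / p) *
      ∏ p ∈ (Nat.gcd d d').primeFactors, (2 : ℝ) / p =
      (∏ p ∈ d.primeFactors, (2 : ℝ) / p) * ∏ p ∈ d'.primeFactors, (2 : ℝ) / p := by
    rw [Nat.primeFactors_mul hd0 hd0', Nat.primeFactors_gcd hd0 hd0']
    exact Finset.prod_union_inter
  rw [pd6_two hd, pd6_two hd', pd6_two hsg] at hmul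
  have hgp : (0 : ℝ) < (Nat.gcd d d' : ℕ) := by exact_mod_cast Nat.pos_of_ne_zero hg0
  have hdp : (0 : ℝ) < d := by exact_mod_cast Nat.pos_of_ne_zero hd0
  have hdp' : (0 : ℝ) < d' := by exact_mod_cast Nat.pos_of_ne_zero hd0'
  have hc : (1 : ℝ) ≤ ((Nat.gcd d d').divisors.card : ℝ) := by
    exact_mod_cast Finset.card_pos.2 ⟨1, Nat.one_mem_divisors.2 hg0⟩
  have hY : 0 ≤ ∏ p ∈ (d * d').primeFactors, (2 : ℝ) / p :=
    Finset.prod_nonneg (fun p _ => by positivity)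
  set Y := ∏ p ∈ (d * d').primeFactors, (2 : ℝ) / p
  have h3 : Y * ((Nat.gcd d d').divisors.card : ℝ) =
      (d.divisors.card : ℝ) * d'.divisors.card * Nat.gcd d d' / (d * d') := by
    have : Y * ((Nat.gcd d d').divisors.card : ℝ) =
        (Y * (((Nat.gcd d d').divisors.card : ℝ) / (Nat.gcd d d' : ℕ))) * (Nat.gcd d d' : ℕ) := by
      field_simp
    rw [this, hmul]
    field_simp
  rw [← h3]
  nlinarith

theorem pd6_Gc (n : ℕ) (hn : n ≠ 0) : ∏ p ∈ n.primeFactors, (p : ℝ) / 2 ≤ n := by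
  have h1 : ∏ p ∈ n.primeFactors, (p : ℝ) / 2 ≤ ∏ p ∈ n.primeFactors, (p : ℝ) := by
    apply Finset.prod_le_prod
    · intro p _; positivity
    · intro p _
      have : (0 : ℝ) ≤ p := Nat.cast_nonneg p
      linarith
  refine h1.trans ?_
  rw [← Nat.cast_prod]
  exact_mod_cast Nat.le_of_dvd (Nat.pos_of_ne_zero hn) (Nat.prod_primeFactors_dvd n)

theorem pd6_Gc_ne {K : ℕ} [NeZero K] (u u' : PolyK K) : Gc u u' ≠ 0 := by
  classical
  unfold Gc
  rw [Finset.prod_ne_zero_iff]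
  intro p hp
  rw [mem_filter, Nat.mem_primeFactors] at hp
  exact hp.1.1.ne_zero

/-- the product over all edges -/
theorem pd6_all {K : ℕ} [NeZero K] (hK : 5 ≤ K) (f : Fin K → ℝ) :
    ∏ j, f j = (∏ j ∈ inr K, f j) * (f 1 * f (-1)) := by
  classical
  have h1 : (univ : Finset (Fin K)) = inr K ∪ {1, -1} := by
    ext j
    simp only [mem_univ, inr, mem_union, mem_filter, true_and, mem_insert, mem_singleton, true_iff]
    tauto
  have h2 : Disjoint (inr K) {1, -1} := by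
    rw [Finset.disjoint_left]
    intro j hj
    simp only [inr, mem_filter, mem_univ, true_and] at hj
    simp only [mem_insert, mem_singleton]
    tauto
  rw [h1, Finset.prod_union h2, Finset.prod_pair (pd6_one_ne hK)]

theorem pd6_dt (a b : ℤ × ℤ) : (dt a b).natAbs ≤ nr a * nr b := by
  unfold dt nr
  have h1 : (a.1 * b.2 - a.2 * b.1).natAbs ≤ (a.1 * b.2).natAbs + (a.2 * b.1).natAbs :=
    Int.natAbs_sub_le _ _
  rw [Int.natAbs_mul, Int.natAbs_mul] at h1
  nlinarith [Nat.zero_le (a.1.natAbs * b.1.natAbs), Nat.zero_le (a.2.natAbs * b.2.natAbs)]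

theorem pd6_size {K : ℕ} [NeZero K] {q : Par K} (hq : q.Ok) {x : ℝ} (hx : 1 ≤ x) {P0 : ℕ}
    {u : PolyK K} (h : IsPoly q x P0 u) (j : Fin K) : (dn u j : ℝ) ≤ x ^ (2 : ℝ) := by
  have hnr : ∀ i, (nr (u i) : ℝ) ≤ x ^ (1 : ℝ) := by
    intro i
    refine (h.hi i).trans (Real.rpow_le_rpow_of_exponent_le hx ?_)
    have h1 : q.e i + q.ε ≤ ∑ j, (q.e j + q.ε) :=
      Finset.single_le_sum (f := fun j => q.e j + q.ε)
        (fun j _ => add_nonneg (hq.he j) hq.ε0.le) (mem_univ i)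
    have := hq.hs
    have := hq.δ1
    have := hq.ε0
    linarith
  have h2 : (dn u j : ℝ) ≤ (nr (u j) : ℝ) * nr (u (j + 1)) := by
    unfold dn dl
    exact_mod_cast pd6_dt (u j) (u (j + 1))
  have hx0 : 0 < x := by linarith
  rw [show (2 : ℝ) = 1 + 1 by norm_num, Real.rpow_add hx0]
  exact h2.trans (mul_le_mul (hnr _) (hnr _) (Nat.cast_nonneg _) (by positivity))

/-- pure algebra -/
theorem pd6_alg (G Tu Bu Tv Bv a b c d g g' u1 v1 u2 v2 : ℝ) :
    G * (Tu / Bu * (Tv / Bv)) * ((a * b * g / (u1 * v1)) * (c * d * g' / (u2 * v2))) =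
      ((Tu * (a * c)) * (Tv * (b * d))) *
        (G * g * g' / (Bu * (u1 * u2) * (Bv * (v1 * v2)))) := by
  have e1 : G * (Tu / Bu * (Tv / Bv)) * ((a * b * g / (u1 * v1)) * (c * d * g' / (u2 * v2))) =
      (G * (Tu * Tv) * ((a * b * g) * (c * d * g'))) / ((Bu * Bv) * ((u1 * v1) * (u2 * v2))) := by
    rw [div_mul_div_comm Tu Bu Tv Bv, div_mul_div_comm (a * b * g), mul_div_assoc' G,
      div_mul_div_comm]
  have e2 : ((Tu * (a * c)) * (Tv * (b * d))) *
        (G * g * g' / (Bu * (u1 * u2) * (Bv * (v1 * v2)))) =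
      (((Tu * (a * c)) * (Tv * (b * d))) * (G * g * g')) /
        (Bu * (u1 * u2) * (Bv * (v1 * v2))) := by
    rw [mul_div_assoc']
  rw [e1, e2]
  congr 1 <;> ring

theorem pd6_main {K : ℕ} [NeZero K] (hK : 5 ≤ K) (W : Wts K) (hW : W.Ok) (P : ℕ) (u v : PolyK K)
    (hu : ∀ j, Squarefree (dn u j)) (hv : ∀ j, Squarefree (dn v j)) :
    ThB W P u v ≤ ((∏ j, ((dn u j).divisors.card : ℝ)) * ∏ j, ((dn v j).divisors.card : ℝ)) *
      ((Gc u v : ℝ) * Nat.gcd (dn u 1) (dn v 1) *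
      Nat.gcd (dn u (-1)) (dn v (-1)) / (DD u * DD v)) := by
  classical
  have hs1 : 0 < W.s1 := by
    unfold Wts.s1; have := hW.be0 1; have := hW.al0 1; linarith
  have hs0 : 0 < W.s0 := by
    unfold Wts.s0; have := hW.be0 0; have := hW.al0 (-1); linarith
  have hwu := pd6_wi W hW P u hu
  have hwv := pd6_wi W hW P v hv
  have a1 := hW.al0 1
  have a2 := hW.al1 1
  have b1 := hW.be0 1
  have b2 := hW.be1 1
  have a1' := hW.al0 (-1)
  have a2' := hW.al1 (-1)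
  have b1' := hW.be0 0
  have b2' := hW.be1 0
  have t1 : 0 ≤ W.al 1 ^ 2 / W.s1 := div_nonneg (sq_nonneg _) hs1.le
  have t2 : W.al 1 ^ 2 / W.s1 ≤ 1 := by
    rw [div_le_one hs1]; unfold Wts.s1; nlinarith
  have t3 : 0 ≤ W.al 1 * W.be 1 / W.s1 := div_nonneg (mul_nonneg a1 b1.le) hs1.le
  have t4 : W.al 1 * W.be 1 / W.s1 ≤ 1 := by
    rw [div_le_one hs1]; unfold Wts.s1; nlinarith
  have t1' : 0 ≤ W.al (-1) ^ 2 / W.s0 := div_nonneg (sq_nonneg _) hs0.le
  have t2' : W.al (-1) ^ 2 / W.s0 ≤ 1 := by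
    rw [div_le_one hs0]; unfold Wts.s0; nlinarith
  have t3' : 0 ≤ W.al (-1) * W.be 0 / W.s0 := div_nonneg (mul_nonneg a1' b1'.le) hs0.le
  have t4' : W.al (-1) * W.be 0 / W.s0 ≤ 1 := by
    rw [div_le_one hs0]; unfold Wts.s0; nlinarith
  have hS1 := pd6_wsp P t1 t2 t3 t4 (hu 1) (hv 1)
  have hS2 := pd6_wsp P t1' t2' t3' t4' (hu (-1)) (hv (-1))
  have hG := pd6_Gc (Gc u v) (pd6_Gc_ne u v)
  have hstep : ThB W P u v ≤ (Gc u v : ℝ) *
      ((∏ j ∈ inr K, (((dn u j).divisors.card : ℝ) / dn u j)) *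
        ∏ j ∈ inr K, (((dn v j).divisors.card : ℝ) / dn v j)) *
      ((((dn u 1).divisors.card : ℝ) * (dn v 1).divisors.card * Nat.gcd (dn u 1) (dn v 1) /
          (dn u 1 * dn v 1)) *
        (((dn u (-1)).divisors.card : ℝ) * (dn v (-1)).divisors.card *
          Nat.gcd (dn u (-1)) (dn v (-1)) / (dn u (-1) * dn v (-1)))) := by
    unfold ThB
    have n1 : 0 ≤ ∏ p ∈ (Gc u v).primeFactors, (p : ℝ) / 2 :=
      Finset.prod_nonneg (fun p _ => by positivity)
    have n2 := pd6_wi_nonneg W hW P u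
    have n3 := pd6_wi_nonneg W hW P v
    have n4 := pd6_wsp_nonneg P t1 t3 (dn u 1) (dn v 1)
    have n5 := pd6_wsp_nonneg P t1' t3' (dn u (-1)) (dn v (-1))
    have m1 := mul_le_mul hwu hwv n3 (n2.trans hwu)
    have m2 := mul_le_mul hS1 hS2 n5 (n4.trans hS1)
    have m3 := mul_le_mul hG m1 (mul_nonneg n2 n3) (Nat.cast_nonneg _)
    exact mul_le_mul m3 m2 (mul_nonneg n4 n5) ((mul_nonneg n1 (mul_nonneg n2 n3)).trans m3)
  refine hstep.trans (le_of_eq ?_)
  have eU : (DD u : ℝ) = (∏ j ∈ inr K, (dn u j : ℝ)) * (dn u 1 * dn u (-1)) := by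
    unfold DD; push_cast; exact pd6_all hK (fun j => (dn u j : ℝ))
  have eV : (DD v : ℝ) = (∏ j ∈ inr K, (dn v j : ℝ)) * (dn v 1 * dn v (-1)) := by
    unfold DD; push_cast; exact pd6_all hK (fun j => (dn v j : ℝ))
  rw [Finset.prod_div_distrib, Finset.prod_div_distrib, eU, eV,
    pd6_all hK (fun j => ((dn u j).divisors.card : ℝ)),
    pd6_all hK (fun j => ((dn v j).divisors.card : ℝ))]
  exact pd6_alg _ _ _ _ _ _ _ _ _ _ _ _ _ _ _

theorem ThB_crude_pr {K : ℕ} [NeZero K] (hK : 5 ≤ K) (q : Par K) (hq : q.Ok) (W : Wts K) (hW : W.Ok)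
    {θ : ℝ} (hθ : 0 < θ) : ∃ x₀ : ℝ, 1 ≤ x₀ ∧ ∀ x ≥ x₀, ∀ P0 P : ℕ, 2 ≤ P0 → ∀ u v : PolyK K,
    IsPoly q x P0 u → IsPoly q x P0 v →
    ThB W P u v ≤ x ^ θ * ((Gc u v : ℝ) * Nat.gcd (dn u 1) (dn v 1) *
      Nat.gcd (dn u (-1)) (dn v (-1)) / (DD u * DD v)) := by
  classical
  have hK0 : (0 : ℝ) < K := by
    have : 0 < K := by omega
    exact_mod_cast this
  -- the divisor bound
  set ρ : ℝ := θ / (2 * K) with hρ
  have hρ0 : 0 < ρ := by positivity
  obtain ⟨C, hC0, hC⟩ := Pool.Agent.FG61.divisor_bound (ε := ρ / 4) (by positivity)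
  set x₀ : ℝ := max 1 (C ^ (2 / ρ)) with hx₀
  refine ⟨x₀, le_max_left _ _, fun x hx P0 P _ u v hu hv => ?_⟩
  have hx1 : 1 ≤ x := (le_max_left _ _).trans hx
  have hx0 : 0 < x := by linarith
  have hCx : C ≤ x ^ (ρ / 2) := by
    have h1 : C ^ (2 / ρ) ≤ x := (le_max_right _ _).trans hx
    have h2 : (C ^ (2 / ρ)) ^ (ρ / 2) ≤ x ^ (ρ / 2) :=
      Real.rpow_le_rpow (by positivity) h1 (by positivity)
    rw [← Real.rpow_mul hC0.le] at h2
    rwa [show 2 / ρ * (ρ / 2) = 1 by field_simp, Real.rpow_one] at h2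
  have key : ∀ w : PolyK K, IsPoly q x P0 w → ∀ j, ((dn w j).divisors.card : ℝ) ≤ x ^ ρ := by
    intro w hw j
    have h1 := hC (dn w j) (Nat.pos_of_ne_zero (hw.sq j).ne_zero)
    have h2 := pd6_size hq hx1 hw j
    have h3 : (dn w j : ℝ) ^ (ρ / 4) ≤ x ^ (ρ / 2) := by
      have h4 := Real.rpow_le_rpow (Nat.cast_nonneg (dn w j)) h2 (show 0 ≤ ρ / 4 by positivity)
      rwa [← Real.rpow_mul hx0.le, show (2 : ℝ) * (ρ / 4) = ρ / 2 by ring] at h4
    calc ((dn w j).divisors.card : ℝ) ≤ C * (dn w j : ℝ) ^ (ρ / 4) := h1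
      _ ≤ x ^ (ρ / 2) * x ^ (ρ / 2) := by
          apply mul_le_mul hCx h3 (by positivity) (by positivity)
      _ = x ^ ρ := by rw [← Real.rpow_add hx0]; congr 1; ring
  -- the product of the divisor functions
  have keyP : ∀ w : PolyK K, IsPoly q x P0 w →
      ∏ j, ((dn w j).divisors.card : ℝ) ≤ x ^ (θ / 2) := by
    intro w hw
    calc ∏ j, ((dn w j).divisors.card : ℝ) ≤ ∏ j : Fin K, x ^ ρ :=
          Finset.prod_le_prod (fun _ _ => Nat.cast_nonneg _) (fun j _ => key w hw j)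
      _ = x ^ (θ / 2) := by
          rw [Finset.prod_const, Finset.card_univ, Fintype.card_fin, ← Real.rpow_natCast,
            ← Real.rpow_mul hx0.le]
          congr 1
          rw [hρ]; field_simp
  have hPuv : (∏ j, ((dn u j).divisors.card : ℝ)) * (∏ j, ((dn v j).divisors.card : ℝ)) ≤
      x ^ θ := by
    rw [show θ = θ / 2 + θ / 2 by ring, Real.rpow_add hx0]
    exact mul_le_mul (keyP u hu) (keyP v hv)
      (Finset.prod_nonneg (fun _ _ => Nat.cast_nonneg _)) (Real.rpow_nonneg hx0.le _)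
  refine (pd6_main hK W hW P u v hu.sq hv.sq).trans (mul_le_mul_of_nonneg_right hPuv ?_)
  positivity

end Pool.Agent.PENK

namespace Pool.Agent.PENK

theorem ThB_crude : type_of% @ThB_crude_pr := @ThB_crude_pr

end Pool.Agent.PENK
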