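import Pool.Agent.Lib_helper18.PENK.Defs2

set_option autoImplicit false

namespace Pool.Agent.PENK

open Finset Pool.Agent.PENT

/-- the vectors of norm `m` -/
theorem pd7_card (V : Finset (ℤ × ℤ)) (m : ℕ) (hm : 1 ≤ m) :
    (V.filter (fun v => nr v = m)).card ≤ 6 * m := by
  classical
  have h1 : (V.filter (fun v => nr v = m)).card ≤
      ((Icc (-(m : ℤ)) m) ×ˢ ({true, false} : Finset Bool)).card := by
    refine Finset.card_le_card_of_injOn (fun v => (v.1, decide (0 ≤ v.2))) ?_ ?_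
    · intro v hv
      have hv' : nr v = m := (Finset.mem_filter.mp (Finset.mem_coe.mp hv)).2
      unfold nr at hv'
      rw [Finset.mem_coe, Finset.mem_product, Finset.mem_Icc]
      refine ⟨⟨?_, ?_⟩, ?_⟩
      · show -(m : ℤ) ≤ v.1
        omega
      · show v.1 ≤ (m : ℤ)
        omega
      · show decide (0 ≤ v.2) ∈ ({true, false} : Finset Bool)
        cases decide (0 ≤ v.2) <;> simp
    · intro v hv w hw hvw
      have hv' : nr v = m := (Finset.mem_filter.mp (Finset.mem_coe.mp hv)).2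
      have hw' : nr w = m := (Finset.mem_filter.mp (Finset.mem_coe.mp hw)).2
      unfold nr at hv' hw'
      have hvw' : (v.1, decide (0 ≤ v.2)) = (w.1, decide (0 ≤ w.2)) := hvw
      have e1 : v.1 = w.1 := (Prod.ext_iff.mp hvw').1
      have e2 : decide (0 ≤ v.2) = decide (0 ≤ w.2) := (Prod.ext_iff.mp hvw').2
      have e3 : (0 ≤ v.2) ↔ (0 ≤ w.2) := by
        constructor
        · intro h
          rw [decide_eq_true h] at e2
          exact of_decide_eq_true e2.symm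
        · intro h
          rw [decide_eq_true h] at e2
          exact of_decide_eq_true e2
      have e4 : v.2 = w.2 := by
        rw [e1] at hv'
        by_cases h : 0 ≤ v.2
        · have h' := e3.mp h
          omega
        · have h' : ¬ 0 ≤ w.2 := fun h'' => h (e3.mpr h'')
          omega
      exact Prod.ext e1 e4
  rw [Finset.card_product, Int.card_Icc] at h1
  have h2 : ({true, false} : Finset Bool).card = 2 := rfl
  rw [h2] at h1
  have h3 : ((m : ℤ) + 1 - -(m : ℤ)).toNat = 2 * m + 1 := by omega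
  rw [h3] at h1
  omega

/-- the sum of `1 / nr ^ 2` -/
theorem pd7_sum (V : Finset (ℤ × ℤ)) (N : ℕ) (h1 : ∀ v ∈ V, 1 ≤ nr v) (h2 : ∀ v ∈ V, nr v ≤ N) :
    ∑ v ∈ V, 1 / (nr v : ℝ) ^ 2 ≤ 6 * (1 + Real.log N) := by
  classical
  have e : ∑ v ∈ V, 1 / (nr v : ℝ) ^ 2 =
      ∑ m ∈ Icc 1 N, ∑ v ∈ V.filter (fun v => nr v = m), 1 / (nr v : ℝ) ^ 2 := by
    rw [Finset.sum_fiberwise_of_maps_to]
    intro v hv
    exact Finset.mem_Icc.mpr ⟨h1 v hv, h2 v hv⟩
  rw [e]
  have h3 : ∀ m ∈ Icc 1 N, ∑ v ∈ V.filter (fun v => nr v = m), 1 / (nr v : ℝ) ^ 2 ≤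
      6 * (1 / (m : ℝ)) := by
    intro m hm
    have hm1 : 1 ≤ m := (Finset.mem_Icc.mp hm).1
    have hm0 : (0 : ℝ) < m := by exact_mod_cast hm1
    have e2 : ∑ v ∈ V.filter (fun v => nr v = m), 1 / (nr v : ℝ) ^ 2 =
        ∑ v ∈ V.filter (fun v => nr v = m), 1 / (m : ℝ) ^ 2 := by
      refine Finset.sum_congr rfl fun v hv => ?_
      rw [(Finset.mem_filter.mp hv).2]
    rw [e2, Finset.sum_const, nsmul_eq_mul]
    have h4 : ((V.filter (fun v => nr v = m)).card : ℝ) ≤ 6 * m := by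
      exact_mod_cast pd7_card V m hm1
    calc ((V.filter (fun v => nr v = m)).card : ℝ) * (1 / (m : ℝ) ^ 2)
        ≤ (6 * m) * (1 / (m : ℝ) ^ 2) := mul_le_mul_of_nonneg_right h4 (by positivity)
      _ = 6 * (1 / (m : ℝ)) := by field_simp
  refine (Finset.sum_le_sum h3).trans ?_
  rw [← Finset.mul_sum]
  refine mul_le_mul_of_nonneg_left ?_ (by norm_num)
  have h5 := harmonic_le_one_add_log N
  rw [harmonic_eq_sum_Icc] at h5
  push_cast at h5
  refine le_trans (le_of_eq ?_) h5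
  refine Finset.sum_congr rfl fun m _ => ?_
  rw [one_div]

/-- BLOCK PD7 -/
theorem sum_DD_pr {K : ℕ} [NeZero K] (hK : 5 ≤ K) (q : Par K) (hq : q.Ok) : ∃ C x₀ : ℝ, 0 ≤ C ∧
    2 ≤ x₀ ∧ ∀ x ≥ x₀, ∀ P0 : ℕ, ∀ S : Finset (PolyK K), (∀ u ∈ S, IsPoly q x P0 u ∧ Sep q u) →
    ∑ u ∈ S, 1 / (DD u : ℝ) ≤ C * Real.log x ^ K := by
  classical
  refine ⟨(12 / q.c3) ^ K, 3, by have := hq.c30; positivity, by norm_num, ?_⟩
  intro x hx P0 S hS
  have hx3 : (3 : ℝ) ≤ x := hx
  have hx0 : (0 : ℝ) < x := by linarith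
  have hx1 : (1 : ℝ) ≤ x := by linarith
  have hc3 := hq.c30
  have hlog : 1 ≤ Real.log x := by
    rw [Real.le_log_iff_exp_le hx0]
    have := Real.exp_one_lt_d9
    linarith
  obtain ⟨N, hN⟩ : ∃ N : ℕ, N = ⌊x⌋₊ := ⟨_, rfl⟩
  have hNx : (N : ℝ) ≤ x := by rw [hN]; exact Nat.floor_le hx0.le
  have hN0 : 1 ≤ N := by
    rw [hN]
    refine Nat.le_floor ?_
    rw [Nat.cast_one]
    exact hx1
  -- the vectors
  obtain ⟨V, hV⟩ : ∃ V : Finset (ℤ × ℤ), V = ((Icc (-(N : ℤ)) N) ×ˢ (Icc (-(N : ℤ)) N)).filter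
    (fun v => 1 ≤ nr v ∧ nr v ≤ N) := ⟨_, rfl⟩
  have hmemV : ∀ v : ℤ × ℤ, 1 ≤ nr v → nr v ≤ N → v ∈ V := by
    intro v h1 h2
    rw [hV, Finset.mem_filter, Finset.mem_product, Finset.mem_Icc, Finset.mem_Icc]
    refine ⟨?_, h1, h2⟩
    unfold nr at h2
    omega
  have he : ∀ j, q.e j + q.ε / 50 ≤ 1 := by
    intro j
    have h1 : q.e j + q.ε ≤ ∑ j, (q.e j + q.ε) :=
      Finset.single_le_sum (f := fun j => q.e j + q.ε)
        (fun i _ => add_nonneg (hq.he i) hq.ε0.le) (Finset.mem_univ j)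
    have h2 := hq.hs
    have h3 := hq.δ1
    have h4 := hq.ε0
    linarith
  have hnr1 : ∀ u ∈ S, ∀ j, 1 ≤ nr (u j) := by
    intro u hu j
    have h1 := (hS u hu).1.lo j
    have h2 : (1 : ℝ) ≤ x ^ q.e j := Real.one_le_rpow hx1 (hq.he j)
    have h3 : (1 : ℝ) ≤ (nr (u j) : ℝ) := h2.trans h1
    exact_mod_cast h3
  have hnrN : ∀ u ∈ S, ∀ j, nr (u j) ≤ N := by
    intro u hu j
    have h1 := (hS u hu).1.hi j
    have h2 : x ^ (q.e j + q.ε / 50) ≤ x ^ (1 : ℝ) := Real.rpow_le_rpow_of_exponent_le hx1 (he j)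
    rw [Real.rpow_one] at h2
    rw [hN]
    exact Nat.le_floor (h1.trans h2)
  have hsub : S ⊆ Fintype.piFinset (fun _ : Fin K => V) := by
    intro u hu
    rw [Fintype.mem_piFinset]
    intro j
    exact hmemV (u j) (hnr1 u hu j) (hnrN u hu j)
  -- the product
  have hjj : ∀ j : Fin K, j ≠ j + 1 := by
    intro j h
    have h1 : (1 : Fin K) = 0 := by
      have h2 : j + 0 = j + 1 := by rw [add_zero]; exact h
      exact (add_left_cancel h2).symm
    have h3 : ((1 : Fin K) : ℕ) = ((0 : Fin K) : ℕ) := by rw [h1]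
    rw [Fin.val_one', Fin.val_zero, Nat.mod_eq_of_lt (by omega)] at h3
    exact one_ne_zero h3
  have hterm : ∀ u ∈ S, 1 / (DD u : ℝ) ≤ (1 / q.c3) ^ K * ∏ j, 1 / (nr (u j) : ℝ) ^ 2 := by
    intro u hu
    have hpos : ∀ j, (0 : ℝ) < nr (u j) := by
      intro j
      exact_mod_cast hnr1 u hu j
    have h1 : ∀ j ∈ (univ : Finset (Fin K)), q.c3 * nr (u j) * nr (u (j + 1)) ≤ (dn u j : ℝ) := by
      intro j _
      have h2 := (hS u hu).2 j (j + 1) (hjj j)
      have h3 : (dn u j : ℝ) = |(dt (u j) (u (j + 1)) : ℝ)| := by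
        unfold dn dl
        rw [Nat.cast_natAbs, Int.cast_abs]
      rw [h3]
      exact h2
    have h2 : ∏ j : Fin K, (q.c3 * nr (u j) * nr (u (j + 1))) ≤ ∏ j : Fin K, (dn u j : ℝ) :=
      Finset.prod_le_prod (fun j _ => by have := hpos j; have := hpos (j + 1); positivity) h1
    have h3 : ∏ j : Fin K, (q.c3 * nr (u j) * nr (u (j + 1))) =
        q.c3 ^ K * ∏ j : Fin K, (nr (u j) : ℝ) ^ 2 := by
      rw [Finset.prod_mul_distrib, Finset.prod_mul_distrib, Finset.prod_const, Finset.card_univ,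
        Fintype.card_fin]
      have h4 : ∏ j : Fin K, (nr (u (j + 1)) : ℝ) = ∏ j : Fin K, (nr (u j) : ℝ) :=
        Fintype.prod_equiv (Equiv.addRight (1 : Fin K)) _ _ (fun j => rfl)
      rw [h4, Finset.prod_pow]
      ring
    have h5 : (DD u : ℝ) = ∏ j : Fin K, (dn u j : ℝ) := by
      unfold DD
      push_cast
      rfl
    have h6 : (0 : ℝ) < q.c3 ^ K * ∏ j : Fin K, (nr (u j) : ℝ) ^ 2 :=
      mul_pos (pow_pos hc3 K) (Finset.prod_pos fun j _ => pow_pos (hpos j) 2)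
    rw [h5]
    refine (one_div_le_one_div_of_le h6 (h3 ▸ h2)).trans (le_of_eq ?_)
    rw [Finset.prod_div_distrib, Finset.prod_const_one, one_div_pow, one_div_mul_one_div]
  calc ∑ u ∈ S, 1 / (DD u : ℝ)
      ≤ ∑ u ∈ S, (1 / q.c3) ^ K * ∏ j, 1 / (nr (u j) : ℝ) ^ 2 := Finset.sum_le_sum hterm
    _ ≤ ∑ u ∈ Fintype.piFinset (fun _ : Fin K => V),
          (1 / q.c3) ^ K * ∏ j, 1 / (nr (u j) : ℝ) ^ 2 := by
        refine Finset.sum_le_sum_of_subset_of_nonneg hsub fun u _ _ => ?_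
        exact mul_nonneg (by positivity) (Finset.prod_nonneg fun j _ => by positivity)
    _ = (1 / q.c3) ^ K * ∏ _j : Fin K, ∑ v ∈ V, 1 / (nr v : ℝ) ^ 2 := by
        rw [← Finset.mul_sum, Finset.prod_univ_sum]
    _ ≤ (1 / q.c3) ^ K * ∏ _j : Fin K, (12 * Real.log x) := by
        refine mul_le_mul_of_nonneg_left ?_ (by positivity)
        refine Finset.prod_le_prod (fun j _ => Finset.sum_nonneg fun v _ => by positivity) ?_
        intro j _
        refine (pd7_sum V N ?_ ?_).trans ?_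
        · intro v hv
          rw [hV] at hv
          exact (Finset.mem_filter.mp hv).2.1
        · intro v hv
          rw [hV] at hv
          exact (Finset.mem_filter.mp hv).2.2
        · have h1 : Real.log N ≤ Real.log x :=
            Real.log_le_log (by exact_mod_cast hN0) hNx
          linarith
    _ = (12 / q.c3) ^ K * Real.log x ^ K := by
        rw [Finset.prod_const, Finset.card_univ, Fintype.card_fin, ← mul_pow, ← mul_pow]
        congr 1
        ring

end Pool.Agent.PENK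

namespace Pool.Agent.PENK

theorem sum_DD : type_of% @sum_DD_pr := @sum_DD_pr

end Pool.Agent.PENK
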