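import Pool.Agent.Lib_helper18.PENK.Defs2
import Pool.Agent.Lib_helper18.PENKF.DefsW
import Pool.Agent.Lib_helper18.PENKF.PD6
import Pool.Agent.Lib_helper18.PENKF.PD7
import Pool.Agent.Lib_helper18.PENKF.PD14
import Pool.Agent.Lib_helper18.PENKF.PD15
import Pool.Agent.Lib_helper18.PENKF.PD17
import Pool.Agent.Lib_helper18.PENKF.PD18
import Pool.Agent.Lib_helper18.PENKF.PD19
import Pool.Agent.Lib_helper18.PENKF.PD20

set_option autoImplicit false

namespace Pool.Agent.PENK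

open Finset Pool.Agent.PENT

/-- summation over the fibres of the first coordinate -/
theorem pd21_fib {α : Type} [DecidableEq α] (A : Finset (α × α)) (G : α → α → ℝ) (w : α → ℝ)
    (hw : ∀ u, 0 ≤ w u) (B : ℝ)
    (h : ∀ u ∈ A.image Prod.fst, ∀ S : Finset α, (∀ v ∈ S, (u, v) ∈ A) → ∑ v ∈ S, G u v ≤ B) :
    ∑ s ∈ A, w s.1 * G s.1 s.2 ≤ B * ∑ u ∈ A.image Prod.fst, w u := by
  classical
  have e : ∑ s ∈ A, w s.1 * G s.1 s.2 =
      ∑ u ∈ A.image Prod.fst, ∑ s ∈ A.filter (fun s => s.1 = u), w s.1 * G s.1 s.2 := by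
    rw [Finset.sum_fiberwise_of_maps_to]
    intro s hs
    exact Finset.mem_image_of_mem _ hs
  rw [e, Finset.mul_sum]
  refine Finset.sum_le_sum fun u hu => ?_
  have e2 : ∑ s ∈ A.filter (fun s => s.1 = u), w s.1 * G s.1 s.2 =
      w u * ∑ v ∈ (A.filter (fun s => s.1 = u)).image Prod.snd, G u v := by
    rw [Finset.sum_image, Finset.mul_sum]
    · refine Finset.sum_congr rfl fun s hs => ?_
      rw [(Finset.mem_filter.mp hs).2]
    · intro s hs t ht hst
      have h1 := (Finset.mem_filter.mp (Finset.mem_coe.mp hs)).2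
      have h2 := (Finset.mem_filter.mp (Finset.mem_coe.mp ht)).2
      exact Prod.ext (h1.trans h2.symm) hst
  rw [e2, mul_comm B]
  refine mul_le_mul_of_nonneg_left ?_ (hw u)
  refine h u hu _ ?_
  intro v hv
  obtain ⟨s, hs, hsv⟩ := Finset.mem_image.mp hv
  obtain ⟨h1, h2⟩ := Finset.mem_filter.mp hs
  have : s = (u, v) := Prod.ext h2 hsv
  rw [← this]
  exact h1

/-- BLOCK PD21 -/
theorem cls1_pr (q : Par 5) (hq : q.Ok) (hg : q.Gap) (W : Wts 5) (hW : W.Ok) : ∃ x₀ : ℝ, 1 ≤ x₀ ∧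
    ∀ x ≥ x₀, ∀ P0 P : ℕ, 2 ≤ P0 → ∀ A : Finset (PolyK 5 × PolyK 5),
    (∀ s ∈ A, PairOk q x P0 s ∧ x ^ (q.ε / 8) < (Gc s.1 s.2 : ℝ) ∧ ¬ SameD s.1 s.2) →
    ∑ s ∈ A, ThB W P s.1 s.2 ≤ x ^ (-(q.ε / 20)) := by
  classical
  have hε := hq.ε0
  obtain ⟨xa, hxa1, ha⟩ := ThB_crude (le_refl 5) q hq W hW (θ := q.ε / 100) (by positivity)
  obtain ⟨C, xb, hC, hxb, hb⟩ := sum_DD (le_refl 5) q hq
  obtain ⟨xc, hxc, hc⟩ := b1_sum q hq hg
  obtain ⟨xd, hxd, hd⟩ := b2_sum q hq hg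
  obtain ⟨xe, hxe, he⟩ := b3_e q hq hg
  obtain ⟨xf, hxf, hf⟩ := b3_f q hq hg
  obtain ⟨M, hM⟩ : ∃ M : ℝ, M = 6 * C / (q.ε / 1000) ^ 5 + 2 := ⟨_, rfl⟩
  have hM0 : 0 < M := by
    rw [hM]
    positivity
  have hexp : 0 < 7 * q.ε / 200 := by positivity
  refine ⟨max 1 (max xa (max xb (max xc (max xd (max xe (max xf
    (M ^ (1 / (7 * q.ε / 200))))))))), le_max_left _ _, ?_⟩
  intro x hx P0 P hP0 A hA
  have hx1 : 1 ≤ x := (le_max_left _ _).trans hx
  have hx2 := (le_max_right _ _).trans hx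
  have hxa : xa ≤ x := (le_max_left _ _).trans hx2
  have hx3 := (le_max_right _ _).trans hx2
  have hxb' : xb ≤ x := (le_max_left _ _).trans hx3
  have hx4 := (le_max_right _ _).trans hx3
  have hxc' : xc ≤ x := (le_max_left _ _).trans hx4
  have hx5 := (le_max_right _ _).trans hx4
  have hxd' : xd ≤ x := (le_max_left _ _).trans hx5
  have hx6 := (le_max_right _ _).trans hx5
  have hxe' : xe ≤ x := (le_max_left _ _).trans hx6
  have hx7 := (le_max_right _ _).trans hx6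
  have hxf' : xf ≤ x := (le_max_left _ _).trans hx7
  have hxM : M ^ (1 / (7 * q.ε / 200)) ≤ x := (le_max_right _ _).trans hx7
  have hx0 : 0 < x := by linarith
  have hMx : M ≤ x ^ (7 * q.ε / 200) := by
    have h1 := Real.rpow_le_rpow (by positivity) hxM hexp.le
    rw [← Real.rpow_mul hM0.le, one_div_mul_cancel hexp.ne', Real.rpow_one] at h1
    exact h1
  -- the summand
  obtain ⟨G, hG⟩ : ∃ G : PolyK 5 → PolyK 5 → ℝ, G = fun u v =>
      (Gc u v : ℝ) * Nat.gcd (dn u 1) (dn v 1) * Nat.gcd (dn u 4) (dn v 4) / DD v := ⟨_, rfl⟩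
  obtain ⟨F, hF⟩ : ∃ F : PolyK 5 × PolyK 5 → ℝ, F = fun s => 1 / (DD s.1 : ℝ) * G s.1 s.2 :=
    ⟨_, rfl⟩
  have hG0 : ∀ u v, 0 ≤ G u v := by
    intro u v
    rw [hG]
    positivity
  have hF0 : ∀ s, 0 ≤ F s := by
    intro s
    rw [hF]
    exact mul_nonneg (by positivity) (hG0 _ _)
  have hthb : ∑ s ∈ A, ThB W P s.1 s.2 ≤ x ^ (q.ε / 100) * ∑ s ∈ A, F s := by
    rw [Finset.mul_sum]
    refine Finset.sum_le_sum fun s hs => ?_
    refine (ha x hxa P0 P hP0 s.1 s.2 (hA s hs).1.p1 (hA s hs).1.p2).trans (le_of_eq ?_)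
    rw [hF, hG]
    have h4 : (-1 : Fin 5) = 4 := by decide
    rw [h4]
    show _ = x ^ (q.ε / 100) * (1 / (DD s.1 : ℝ) * ((Gc s.1 s.2 : ℝ) *
      Nat.gcd (dn s.1 1) (dn s.2 1) * Nat.gcd (dn s.1 4) (dn s.2 4) / DD s.2))
    rw [div_mul_div_comm, one_mul]
  -- the polygons `u`
  have hsum : ∀ A' ⊆ A, ∑ u ∈ A'.image Prod.fst, 1 / (DD u : ℝ) ≤ C * Real.log x ^ 5 := by
    intro A' hA'
    refine hb x hxb' P0 _ ?_
    intro u hu
    obtain ⟨s, hs, rfl⟩ := Finset.mem_image.mp hu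
    exact ⟨(hA s (hA' hs)).1.p1, (hA s (hA' hs)).1.s1⟩
  have hL0 : 0 ≤ C * Real.log x ^ 5 := mul_nonneg hC (pow_nonneg (Real.log_nonneg hx1) 5)
  have hxp : ∀ a : ℝ, 0 < x ^ a := fun a => Real.rpow_pos_of_pos hx0 a
  -- generic
  have hgen : ∀ A' ⊆ A, (∀ u ∈ A'.image Prod.fst, ∀ S : Finset (PolyK 5),
      (∀ v ∈ S, (u, v) ∈ A') → ∑ v ∈ S, G u v ≤ x ^ (-(q.ε / 10))) →
      ∑ s ∈ A', F s ≤ x ^ (-(q.ε / 10)) * (C * Real.log x ^ 5) := by
    intro A' hA' h
    have h1 := pd21_fib A' G (fun u => 1 / (DD u : ℝ)) (fun u => by positivity) _ h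
    have h2 : ∑ s ∈ A', F s = ∑ s ∈ A', (fun u => 1 / (DD u : ℝ)) s.1 * G s.1 s.2 := by
      rw [hF]
    rw [h2]
    exact h1.trans (mul_le_mul_of_nonneg_left (hsum A' hA') (hxp _).le)
  -- the parts
  obtain ⟨P1, hP1⟩ : ∃ P1 : PolyK 5 × PolyK 5 → Prop, P1 = fun s => cv s.2 3 ≠ cv s.1 3 := ⟨_, rfl⟩
  obtain ⟨P2, hP2⟩ : ∃ P2 : Fin 5 → PolyK 5 × PolyK 5 → Prop, P2 = fun k s =>
      cv s.2 3 = cv s.1 3 ∧ x ^ (q.ε / 8) * gk s.1 s.2 k < (dn s.2 k : ℝ) := ⟨_, rfl⟩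
  obtain ⟨P3, hP3⟩ : ∃ P3 : PolyK 5 × PolyK 5 → Prop, P3 = fun s => B3S q x P0 s ∧
      dl s.1 0 * dl s.1 3 * dl s.2 4 ≠ dl s.2 0 * dl s.2 3 * dl s.1 4 := ⟨_, rfl⟩
  obtain ⟨P4, hP4⟩ : ∃ P4 : PolyK 5 × PolyK 5 → Prop, P4 = fun s => B3S q x P0 s ∧
      dl s.1 0 * dl s.1 2 * dl s.2 1 ≠ dl s.2 0 * dl s.2 2 * dl s.1 1 := ⟨_, rfl⟩
  have hsplit : ∑ s ∈ A, F s ≤ ∑ s ∈ A.filter P1, F s + ∑ k, ∑ s ∈ A.filter (P2 k), F s +
      ∑ s ∈ A.filter P3, F s + ∑ s ∈ A.filter P4, F s := by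
    have h1 : ∀ s ∈ A, F s ≤ (if P1 s then F s else 0) + (∑ k, if P2 k s then F s else 0) +
        (if P3 s then F s else 0) + (if P4 s then F s else 0) := by
      intro s hs
      have n1 : 0 ≤ (if P1 s then F s else 0) := by
        split_ifs
        · exact hF0 s
        · exact le_refl 0
      have n2 : ∀ k ∈ (univ : Finset (Fin 5)), 0 ≤ (if P2 k s then F s else 0) := by
        intro k _
        split_ifs
        · exact hF0 s
        · exact le_refl 0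
      have n3 : 0 ≤ (if P3 s then F s else 0) := by
        split_ifs
        · exact hF0 s
        · exact le_refl 0
      have n4 : 0 ≤ (if P4 s then F s else 0) := by
        split_ifs
        · exact hF0 s
        · exact le_refl 0
      have n2' := Finset.sum_nonneg n2
      by_cases c1 : P1 s
      · rw [if_pos c1] at n1 ⊢
        linarith
      by_cases c2 : ∃ k, P2 k s
      · obtain ⟨k, hk⟩ := c2
        have h2 := Finset.single_le_sum n2 (Finset.mem_univ k)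
        rw [if_pos hk] at h2
        linarith
      have hcv : cv s.2 3 = cv s.1 3 := by
        by_contra hne
        apply c1
        rw [hP1]
        exact hne
      have hB3 : B3S q x P0 s := by
        refine ⟨(hA s hs).1.p1, (hA s hs).1.p2, (hA s hs).1.s1, (hA s hs).1.s2, hcv, ?_⟩
        intro k
        by_contra hlt
        apply c2
        refine ⟨k, ?_⟩
        rw [hP2]
        exact ⟨hcv, not_le.mp hlt⟩
      by_cases c3 : P3 s
      · rw [if_pos c3] at n3 ⊢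
        linarith
      by_cases c4 : P4 s
      · rw [if_pos c4] at n4 ⊢
        linarith
      exfalso
      apply (hA s hs).2.2
      refine b3_same hq (hA s hs).1.p1 (hA s hs).1.p2 hcv ?_ ?_
      · by_contra hne
        apply c3
        rw [hP3]
        exact ⟨hB3, hne⟩
      · by_contra hne
        apply c4
        rw [hP4]
        exact ⟨hB3, hne⟩
    refine (Finset.sum_le_sum h1).trans (le_of_eq ?_)
    rw [Finset.sum_add_distrib, Finset.sum_add_distrib, Finset.sum_add_distrib, Finset.sum_comm,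
      Finset.sum_filter, Finset.sum_filter, Finset.sum_filter]
    congr 3
    refine Finset.sum_congr rfl fun k _ => ?_
    rw [Finset.sum_filter]
  have hp1 : ∑ s ∈ A.filter P1, F s ≤ x ^ (-(q.ε / 10)) * (C * Real.log x ^ 5) := by
    refine hgen _ (Finset.filter_subset _ _) ?_
    intro u hu S hS
    obtain ⟨s, hs, rfl⟩ := Finset.mem_image.mp hu
    obtain ⟨hsA, _⟩ := Finset.mem_filter.mp hs
    rw [hG]
    refine hc x hxc' P0 s.1 (hA s hsA).1.p1 (hA s hsA).1.s1 S ?_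
    intro v hv
    obtain ⟨h1, h2⟩ := Finset.mem_filter.mp (hS v hv)
    rw [hP1] at h2
    exact ⟨(hA _ h1).1.p2, (hA _ h1).1.s2, (hA _ h1).2.1, h2⟩
  have hp2 : ∀ k, ∑ s ∈ A.filter (P2 k), F s ≤ x ^ (-(q.ε / 10)) * (C * Real.log x ^ 5) := by
    intro k
    refine hgen _ (Finset.filter_subset _ _) ?_
    intro u hu S hS
    obtain ⟨s, hs, rfl⟩ := Finset.mem_image.mp hu
    obtain ⟨hsA, _⟩ := Finset.mem_filter.mp hs
    rw [hG]
    refine hd x hxd' P0 s.1 (hA s hsA).1.p1 (hA s hsA).1.s1 S k ?_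
    intro v hv
    obtain ⟨h1, h2⟩ := Finset.mem_filter.mp (hS v hv)
    rw [hP2] at h2
    exact ⟨(hA _ h1).1.p2, (hA _ h1).1.s2, h2.1, h2.2⟩
  -- the summand of the third part
  have hF3 : ∀ s, B3S q x P0 s → F s ≤ 1 / (DD s.1 : ℝ) := by
    intro s hs
    have hpos : ∀ k, 0 < dn s.2 k := fun k => Nat.pos_of_ne_zero (hs.p2.sq k).ne_zero
    have h1 : G s.1 s.2 ≤ 1 := by
      rw [hG]
      show (Gc s.1 s.2 : ℝ) * Nat.gcd (dn s.1 1) (dn s.2 1) * Nat.gcd (dn s.1 4) (dn s.2 4) /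
        DD s.2 ≤ 1
      have h2 : Gc s.1 s.2 * Nat.gcd (dn s.1 1) (dn s.2 1) * Nat.gcd (dn s.1 4) (dn s.2 4) ≤
          DD s.2 := by
        rw [gk_prod hs.p1 hs.p2 hs.he]
        unfold DD
        refine Finset.prod_le_prod' fun k _ => ?_
        refine Nat.le_of_dvd (hpos k) ?_
        unfold gk
        by_cases k1 : k = 1
        · rw [if_pos k1, k1]
          exact Nat.gcd_dvd_right _ _
        · rw [if_neg k1]
          by_cases k4 : k = 4
          · rw [if_pos k4, k4]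
            exact Nat.gcd_dvd_right _ _
          · rw [if_neg k4]
            exact Nat.gcd_dvd_left _ _
      have h3 : (0 : ℝ) < DD s.2 := by
        have : 0 < DD s.2 := by
          unfold DD
          exact Finset.prod_pos fun k _ => hpos k
        exact_mod_cast this
      rw [div_le_one h3]
      exact_mod_cast h2
    rw [hF]
    show 1 / (DD s.1 : ℝ) * G s.1 s.2 ≤ 1 / (DD s.1 : ℝ)
    exact mul_le_of_le_one_right (by positivity) h1
  have hp3 : ∑ s ∈ A.filter P3, F s ≤ x ^ (-q.ε) := by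
    refine le_trans (Finset.sum_le_sum fun s hs => ?_) (he x hxe' P0 (A.filter P3) ?_)
    · have h2 := (Finset.mem_filter.mp hs).2
      rw [hP3] at h2
      exact hF3 s h2.1
    · intro s hs
      have h2 := (Finset.mem_filter.mp hs).2
      rw [hP3] at h2
      exact h2
  have hp4 : ∑ s ∈ A.filter P4, F s ≤ x ^ (-q.ε) := by
    refine le_trans (Finset.sum_le_sum fun s hs => ?_) (hf x hxf' P0 (A.filter P4) ?_)
    · have h2 := (Finset.mem_filter.mp hs).2
      rw [hP4] at h2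
      exact hF3 s h2.1
    · intro s hs
      have h2 := (Finset.mem_filter.mp hs).2
      rw [hP4] at h2
      exact h2
  have hp2' : ∑ k, ∑ s ∈ A.filter (P2 k), F s ≤
      5 * (x ^ (-(q.ε / 10)) * (C * Real.log x ^ 5)) := by
    refine (Finset.sum_le_sum fun k _ => hp2 k).trans (le_of_eq ?_)
    rw [Finset.sum_const, Finset.card_univ, Fintype.card_fin, nsmul_eq_mul]
    norm_num
  -- the logarithm
  have hlog : Real.log x ^ 5 ≤ x ^ (q.ε / 200) / (q.ε / 1000) ^ 5 := by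
    have h1 : Real.log x ≤ x ^ (q.ε / 1000) / (q.ε / 1000) :=
      Real.log_le_rpow_div hx0.le (by positivity)
    have h2 := pow_le_pow_left₀ (Real.log_nonneg hx1) h1 5
    have h3 : (x ^ (q.ε / 1000)) ^ 5 = x ^ (q.ε / 200) := by
      rw [← Real.rpow_natCast, ← Real.rpow_mul hx0.le]
      congr 1
      push_cast
      ring
    rw [div_pow, h3] at h2
    exact h2
  have htot : ∑ s ∈ A, F s ≤ M * x ^ (q.ε / 200 - q.ε / 10) := by
    have h1 : x ^ (-(q.ε / 10)) * (C * Real.log x ^ 5) ≤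
        C / (q.ε / 1000) ^ 5 * x ^ (q.ε / 200 - q.ε / 10) := by
      have h2 : x ^ (q.ε / 200 - q.ε / 10) = x ^ (q.ε / 200) * x ^ (-(q.ε / 10)) := by
        rw [← Real.rpow_add hx0]
        congr 1
      rw [h2]
      calc x ^ (-(q.ε / 10)) * (C * Real.log x ^ 5)
          ≤ x ^ (-(q.ε / 10)) * (C * (x ^ (q.ε / 200) / (q.ε / 1000) ^ 5)) :=
            mul_le_mul_of_nonneg_left (mul_le_mul_of_nonneg_left hlog hC) (hxp _).le
        _ = C / (q.ε / 1000) ^ 5 * (x ^ (q.ε / 200) * x ^ (-(q.ε / 10))) := by ring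
    have h3 : x ^ (-q.ε) ≤ x ^ (q.ε / 200 - q.ε / 10) :=
      Real.rpow_le_rpow_of_exponent_le hx1 (by linarith)
    rw [hM]
    have h4 : (6 * C / (q.ε / 1000) ^ 5 + 2) * x ^ (q.ε / 200 - q.ε / 10) =
        6 * (C / (q.ε / 1000) ^ 5 * x ^ (q.ε / 200 - q.ε / 10)) +
          2 * x ^ (q.ε / 200 - q.ε / 10) := by ring
    rw [h4]
    linarith
  calc ∑ s ∈ A, ThB W P s.1 s.2 ≤ x ^ (q.ε / 100) * ∑ s ∈ A, F s := hthb
    _ ≤ x ^ (q.ε / 100) * (M * x ^ (q.ε / 200 - q.ε / 10)) :=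
        mul_le_mul_of_nonneg_left htot (hxp _).le
    _ ≤ x ^ (q.ε / 100) * (x ^ (7 * q.ε / 200) * x ^ (q.ε / 200 - q.ε / 10)) :=
        mul_le_mul_of_nonneg_left (mul_le_mul_of_nonneg_right hMx (hxp _).le) (hxp _).le
    _ = x ^ (-(q.ε / 20)) := by
        rw [← Real.rpow_add hx0, ← Real.rpow_add hx0]
        congr 1
        ring

end Pool.Agent.PENK

namespace Pool.Agent.PENK

theorem cls1 : type_of% @cls1_pr := @cls1_pr

end Pool.Agent.PENK
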