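import Pool.Agent.Lib_helper18.PENK.Defs2
import Pool.Agent.Lib_helper18.PENKF.DefsW
import Pool.Agent.Lib_helper18.PENKF.PF10

/-! PENK (MP_892e4c_nt), block PF11 (helper53) -/

set_option autoImplicit false

namespace Pool.Agent.PENK

open Finset Pool.Agent.PENT

theorem pf11_ich {V : Type} (s : Finset V) (q : V → Prop) [DecidablePred q] :
    ∑ x ∈ s, ich (q x) = ((s.filter q).card : ℝ) := by
  rw [card_filter]
  push_cast
  refine sum_congr rfl fun x _ => ?_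
  rw [ich]
  by_cases h : q x <;> simp [h]

theorem pf11_neg (p : ℕ) (a b : ℤ × ℤ) (δ : ℤ) : (p : ℤ) ∣ dt b a - -δ ↔ (p : ℤ) ∣ dt a b - δ := by
  have : dt b a - -δ = -(dt a b - δ) := by simp only [dt]; ring
  rw [this, dvd_neg]

theorem pf11_ne {p : ℕ} {a b : ℤ × ℤ} {δ : ℤ} (hδ : ¬ (p : ℤ) ∣ δ) (h : (p : ℤ) ∣ dt a b - δ) :
    ¬ ((p : ℤ) ∣ a.1 ∧ (p : ℤ) ∣ a.2) ∧ ¬ ((p : ℤ) ∣ b.1 ∧ (p : ℤ) ∣ b.2) := by
  have key : ¬ (p : ℤ) ∣ dt a b := by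
    intro h1
    apply hδ
    have : δ = dt a b - (dt a b - δ) := by ring
    rw [this]
    exact dvd_sub h1 h
  constructor
  · rintro ⟨h1, h2⟩
    exact key (dvd_sub (h1.mul_right _) (h2.mul_right _))
  · rintro ⟨h1, h2⟩
    exact key (dvd_sub (h2.mul_left _) (h1.mul_left _))

theorem pf11_mem {δ : ℤ} {p : ℕ} {v : (ℤ × ℤ) × (ℤ × ℤ)} (h : v ∈ L2 δ p) :
    v.1 ∈ L1 p ∧ v.2 ∈ L1 p ∧ (p : ℤ) ∣ dt v.1 v.2 - δ := by
  rw [L2, mem_filter, mem_product] at h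
  exact ⟨h.1.1, h.1.2, h.2⟩

/-- the number of vectors on the line of a nonzero vector -/
theorem pf11_line {p : ℕ} (hp : p.Prime) {a : ℤ × ℤ} (ha : ¬ ((p : ℤ) ∣ a.1 ∧ (p : ℤ) ∣ a.2)) :
    ((L1 p).filter (fun b => (p : ℤ) ∣ dt a b)).card = p ∧
      ((L1 p).filter (fun b => (p : ℤ) ∣ dt b a)).card = p := by
  have h := fib_card hp ha 0
  constructor
  · simpa using h
  · have e : (L1 p).filter (fun b => (p : ℤ) ∣ dt b a) =
        (L1 p).filter (fun b => (p : ℤ) ∣ dt a b - 0) := by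
      ext b
      rw [mem_filter, mem_filter]
      have : dt b a = -(dt a b - 0) := by simp only [dt]; ring
      rw [this, dvd_neg]
    rw [e, h]

theorem pf11_zero {p : ℕ} {b : ℤ × ℤ} (hb : b ∈ L1 p) (h : (p : ℤ) ∣ b.1 ∧ (p : ℤ) ∣ b.2) :
    b = (0, 0) := by
  rw [L1, mem_product, mem_Ico, mem_Ico] at hb
  have h1 := Int.eq_zero_of_dvd_of_nonneg_of_lt hb.1.1 hb.1.2 h.1
  have h2 := Int.eq_zero_of_dvd_of_nonneg_of_lt hb.2.1 hb.2.2 h.2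
  exact Prod.ext h1 h2

theorem pf11_cnt {p : ℕ} (hp : p.Prime) {δ : ℤ} (hδ : ¬ (p : ℤ) ∣ δ) {a : ℤ × ℤ}
    (ha : ¬ ((p : ℤ) ∣ a.1 ∧ (p : ℤ) ∣ a.2)) :
    ((L2 δ p).filter (fun w => (p : ℤ) ∣ dt w.2 a)).card = (p - 1) * p := by
  classical
  have e1 : (L2 δ p).filter (fun w => (p : ℤ) ∣ dt w.2 a) =
      (((L1 p).filter (fun b => (p : ℤ) ∣ dt b a)).erase (0, 0)).biUnion (fun b =>
        ((L1 p).filter (fun c => (p : ℤ) ∣ dt b c - -δ)).image (fun c => (c, b))) := by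
    ext ⟨c, b⟩
    simp only [mem_filter, mem_biUnion, mem_image, L2, mem_product, mem_erase]
    constructor
    · rintro ⟨⟨⟨h1, h2⟩, h3⟩, h4⟩
      refine ⟨b, ⟨?_, h2, h4⟩, c, ⟨h1, (pf11_neg p c b δ).2 h3⟩, rfl⟩
      rintro rfl
      exact (pf11_ne hδ h3).2 ⟨dvd_zero _, dvd_zero _⟩
    · rintro ⟨b', ⟨h1, h2, h3⟩, c', ⟨h4, h5⟩, h6⟩
      obtain ⟨rfl, rfl⟩ := Prod.mk.inj h6
      exact ⟨⟨⟨h4, h2⟩, (pf11_neg p _ _ δ).1 h5⟩, h3⟩
  rw [e1, card_biUnion]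
  · have h0 : ((0:ℤ), (0:ℤ)) ∈ (L1 p).filter (fun b => (p : ℤ) ∣ dt b a) := by
      simp only [mem_filter, L1, mem_product, mem_Ico]
      have : (0:ℤ) < p := by exact_mod_cast hp.pos
      refine ⟨⟨⟨le_rfl, this⟩, le_rfl, this⟩, ?_⟩
      simp [dt]
    rw [sum_congr rfl (g := fun _ => p), sum_const, smul_eq_mul, card_erase_of_mem h0,
      (pf11_line hp ha).2]
    intro b hb
    rw [mem_erase, mem_filter] at hb
    rw [card_image_of_injective _ (fun x y h => (Prod.mk.inj h).1)]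
    refine fib_card hp ?_ (-δ)
    intro h
    exact hb.1 (pf11_zero hb.2.1 h)
  · intro b _ b' _ hbb
    rw [Function.onFun, disjoint_left]
    intro x hx hx'
    obtain ⟨c, -, rfl⟩ := mem_image.1 hx
    obtain ⟨c', -, h⟩ := mem_image.1 hx'
    exact hbb (Prod.mk.inj h).2.symm

theorem pf11_L1 (p : ℕ) : (L1 p).card = p * p := by
  rw [L1, card_product, Int.card_Ico]
  simp

theorem pf11_card (δ1 δ4 : ℤ) (p : ℕ) :
    ((Law5 δ1 δ4 p).card : ℝ) = (L2 δ1 p).card * ((L2 δ4 p).card * ((p : ℝ) * p)) := by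
  have h := Law5_sum δ1 δ4 p (fun _ => 1)
  simp only [sum_const, nsmul_eq_mul, mul_one, pf11_L1] at h
  rw [h]
  push_cast
  ring

theorem pf11_pos {p : ℕ} (hp : p.Prime) {δ : ℤ} (hδ : ¬ (p : ℤ) ∣ δ) :
    ((L2 δ p).card : ℝ) = p * ((p : ℝ) ^ 2 - 1) := by
  have h := L2_card hp hδ
  exact_mod_cast h

/-- BLOCK PF11 (uses PF10): the interior edges -/
theorem law_a_pr : ∃ C : ℝ, 0 ≤ C ∧ ∀ p : ℕ, p.Prime → 2 < p → ∀ δ1 δ4 : ℤ, ¬ (p : ℤ) ∣ δ1 →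
    ¬ (p : ℤ) ∣ δ4 → ∀ j ∈ inr 5,
    1 / (p : ℝ) - C / (p : ℝ) ^ 2 ≤ mL (Law5 δ1 δ4 p) (fun u => ich ((p : ℤ) ∣ dl u j)) ∧
      mL (Law5 δ1 δ4 p) (fun u => ich ((p : ℤ) ∣ dl u j)) ≤ C / p := by
  refine ⟨1, zero_le_one, fun p hp h2 δ1 δ4 h1 h4 j hj => ?_⟩
  have hpR : (2:ℝ) < p := by exact_mod_cast h2
  have hp0 : (0:ℝ) < p := by linarith
  have c1 := pf11_pos hp h1
  have c4 := pf11_pos hp h4
  have hq : (0:ℝ) < p * ((p : ℝ) ^ 2 - 1) := by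
    apply mul_pos hp0
    nlinarith
  have hsmall : 1 / (p : ℝ) - 1 / (p : ℝ) ^ 2 ≤ 1 / p := by
    have : 0 ≤ 1 / (p : ℝ) ^ 2 := by positivity
    linarith
  have hj' : j = 0 ∨ j = 2 ∨ j = 3 := by
    rw [inr, mem_filter] at hj
    have h1 := hj.2.1
    have h2 := hj.2.2
    revert h1 h2
    fin_cases j <;> decide
  rcases hj' with rfl | rfl | rfl
  · -- edge 0
    have e : mL (Law5 δ1 δ4 p) (fun u => ich ((p : ℤ) ∣ dl u 0)) = 1 / ((p : ℝ) + 1) := by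
      rw [mL, Law5_sum, pf11_card, c1, c4]
      have s1 : ∀ v ∈ L2 δ1 p, ∑ w ∈ L2 δ4 p, ∑ c ∈ L1 p,
          ich ((p : ℤ) ∣ dl ![w.2, v.1, v.2, c, w.1] 0) = (p : ℝ) * p * ((p - 1) * p) := by
        intro v hv
        have s2 : ∀ w ∈ L2 δ4 p, ∑ c ∈ L1 p, ich ((p : ℤ) ∣ dl ![w.2, v.1, v.2, c, w.1] 0) =
            (p : ℝ) * p * ich ((p : ℤ) ∣ dt w.2 v.1) := by
          intro w _
          change ∑ c ∈ L1 p, ich ((p : ℤ) ∣ dt w.2 v.1) = _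
          rw [sum_const, nsmul_eq_mul, pf11_L1]
          push_cast
          ring
        rw [sum_congr rfl s2, ← mul_sum, pf11_ich, pf11_cnt hp h4 (pf11_ne h1 (pf11_mem hv).2.2).1]
        rw [Nat.cast_mul, Nat.cast_sub hp.one_le]
        simp
      rw [sum_congr rfl s1, sum_const, nsmul_eq_mul, c1]
      have hp1 : (p : ℝ) - 1 ≠ 0 := by linarith
      have hp2 : (p : ℝ) + 1 ≠ 0 := by linarith
      have hf : (p : ℝ) ^ 2 - 1 = (p - 1) * (p + 1) := by ring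
      rw [hf]
      field_simp
    rw [e]
    constructor
    · rw [div_sub_div _ _ hp0.ne' (by positivity), div_le_div_iff₀ (by positivity) (by positivity)]
      nlinarith [mul_pos hp0 hp0, mul_pos (mul_pos hp0 hp0) hp0]
    · exact one_div_le_one_div_of_le hp0 (by linarith)
  · -- edge 2
    have e : mL (Law5 δ1 δ4 p) (fun u => ich ((p : ℤ) ∣ dl u 2)) = 1 / (p : ℝ) := by
      rw [mL, Law5_sum, pf11_card]
      have s1 : ∀ v ∈ L2 δ1 p, ∑ w ∈ L2 δ4 p, ∑ c ∈ L1 p,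
          ich ((p : ℤ) ∣ dl ![w.2, v.1, v.2, c, w.1] 2) = ((L2 δ4 p).card : ℝ) * p := by
        intro v hv
        have s2 : ∀ w ∈ L2 δ4 p, ∑ c ∈ L1 p, ich ((p : ℤ) ∣ dl ![w.2, v.1, v.2, c, w.1] 2) =
            (p : ℝ) := by
          intro w _
          change ∑ c ∈ L1 p, ich ((p : ℤ) ∣ dt v.2 c) = _
          rw [pf11_ich, (pf11_line hp (pf11_ne h1 (pf11_mem hv).2.2).2).1]
        rw [sum_congr rfl s2, sum_const, nsmul_eq_mul]
      rw [sum_congr rfl s1, sum_const, nsmul_eq_mul, c1, c4]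
      have hf := hq.ne'
      have hf2 : (p : ℝ) ^ 2 - 1 ≠ 0 := by nlinarith
      field_simp
    rw [e]
    exact ⟨hsmall, le_rfl⟩
  · -- edge 3
    have e : mL (Law5 δ1 δ4 p) (fun u => ich ((p : ℤ) ∣ dl u 3)) = 1 / (p : ℝ) := by
      rw [mL, Law5_sum, pf11_card]
      have s1 : ∀ v ∈ L2 δ1 p, ∑ w ∈ L2 δ4 p, ∑ c ∈ L1 p,
          ich ((p : ℤ) ∣ dl ![w.2, v.1, v.2, c, w.1] 3) = ((L2 δ4 p).card : ℝ) * p := by
        intro v _
        have s2 : ∀ w ∈ L2 δ4 p, ∑ c ∈ L1 p, ich ((p : ℤ) ∣ dl ![w.2, v.1, v.2, c, w.1] 3) =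
            (p : ℝ) := by
          intro w hw
          change ∑ c ∈ L1 p, ich ((p : ℤ) ∣ dt c w.1) = _
          rw [pf11_ich, (pf11_line hp (pf11_ne h4 (pf11_mem hw).2.2).1).2]
        rw [sum_congr rfl s2, sum_const, nsmul_eq_mul]
      rw [sum_congr rfl s1, sum_const, nsmul_eq_mul, c1, c4]
      have hf := hq.ne'
      have hf2 : (p : ℝ) ^ 2 - 1 ≠ 0 := by nlinarith
      field_simp
    rw [e]
    exact ⟨hsmall, le_rfl⟩

end Pool.Agent.PENK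

namespace Pool.Agent.PENK

theorem law_a : type_of% @law_a_pr := @law_a_pr

end Pool.Agent.PENK
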