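import Pool.Agent.Lib_helper18.PENK.Defs2
import Pool.Agent.Lib_helper18.PENKF.DefsW
import Pool.Agent.Lib_helper18.PENKF.PF10

set_option autoImplicit false

namespace Pool.Agent.PENK

open Finset Pool.Agent.PENT

theorem pf12_ich_nonneg (a : Prop) : 0 ≤ ich a := by
  unfold ich
  split_ifs <;> norm_num

theorem pf12_ich_le (a : Prop) : ich a ≤ 1 := by
  unfold ich
  split_ifs <;> norm_num

theorem pf12_ich_and (a b : Prop) : ich (a ∧ b) = ich a * ich b := by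
  unfold ich
  by_cases ha : a <;> by_cases hb : b <;> simp [ha, hb]

theorem pf12_ich_congr {a b : Prop} (h : a ↔ b) : ich a = ich b := by
  rw [propext h]

theorem pf12_ich_sum (s : Finset (ℤ × ℤ)) (P : ℤ × ℤ → Prop) [DecidablePred P] :
    ∑ x ∈ s, ich (P x) = ((s.filter P).card : ℝ) := by
  classical
  rw [Finset.card_filter]
  push_cast
  refine Finset.sum_congr rfl fun x _ => ?_
  unfold ich
  by_cases h : P x <;> simp [h]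

/-- fibres have at most `p` elements -/
theorem pf12_fib {p : ℕ} (hp : p.Prime) (a : ℤ × ℤ) {δ : ℤ} (hδ : ¬ (p : ℤ) ∣ δ) :
    ∑ b ∈ L1 p, ich ((p : ℤ) ∣ dt a b - δ) ≤ p := by
  rw [pf12_ich_sum]
  by_cases ha : (p : ℤ) ∣ a.1 ∧ (p : ℤ) ∣ a.2
  · have : (L1 p).filter (fun b => (p : ℤ) ∣ dt a b - δ) = ∅ := by
      rw [Finset.filter_eq_empty_iff]
      intro b _ hb
      apply hδ
      have h1 : (p : ℤ) ∣ dt a b := by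
        unfold dt
        exact dvd_sub (ha.1.mul_right _) (ha.2.mul_right _)
      have h2 := dvd_sub h1 hb
      simpa using h2
    rw [this]
    simp
  · rw [fib_card hp ha δ]

/-- the line of `a` has `p` elements -/
theorem pf12_lin {p : ℕ} (hp : p.Prime) {a : ℤ × ℤ} (ha : ¬ ((p : ℤ) ∣ a.1 ∧ (p : ℤ) ∣ a.2)) :
    ∑ b ∈ L1 p, ich ((p : ℤ) ∣ dt a b) = p := by
  have h := fib_card hp ha 0
  have h2 : ∑ b ∈ L1 p, ich ((p : ℤ) ∣ dt a b) = ∑ b ∈ L1 p, ich ((p : ℤ) ∣ dt a b - 0) := by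
    refine Finset.sum_congr rfl fun b _ => ?_
    rw [sub_zero]
  rw [h2, pf12_ich_sum, h]

theorem pf12_swap (a b : ℤ × ℤ) : dt b a = -dt a b := by
  unfold dt
  ring

theorem pf12_lin' {p : ℕ} (hp : p.Prime) {a : ℤ × ℤ} (ha : ¬ ((p : ℤ) ∣ a.1 ∧ (p : ℤ) ∣ a.2)) :
    ∑ b ∈ L1 p, ich ((p : ℤ) ∣ dt b a) = p := by
  rw [← pf12_lin hp ha]
  refine Finset.sum_congr rfl fun b _ => pf12_ich_congr ?_
  rw [pf12_swap a b, dvd_neg]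

/-- both vectors of a pair are nonzero -/
theorem pf12_nz {p : ℕ} {δ : ℤ} (hδ : ¬ (p : ℤ) ∣ δ) {v : (ℤ × ℤ) × (ℤ × ℤ)}
    (hv : v ∈ L2 δ p) : ¬ ((p : ℤ) ∣ v.1.1 ∧ (p : ℤ) ∣ v.1.2) ∧
      ¬ ((p : ℤ) ∣ v.2.1 ∧ (p : ℤ) ∣ v.2.2) := by
  unfold L2 at hv
  rw [Finset.mem_filter] at hv
  obtain ⟨_, h⟩ := hv
  unfold dt at h
  constructor
  · rintro ⟨h1, h2⟩
    apply hδ
    have h3 : (p : ℤ) ∣ v.1.1 * v.2.2 - v.1.2 * v.2.1 :=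
      dvd_sub (h1.mul_right _) (h2.mul_right _)
    have h4 := dvd_sub h3 h
    simpa using h4
  · rintro ⟨h1, h2⟩
    apply hδ
    have h3 : (p : ℤ) ∣ v.1.1 * v.2.2 - v.1.2 * v.2.1 :=
      dvd_sub (h2.mul_left _) (h1.mul_left _)
    have h4 := dvd_sub h3 h
    simpa using h4

/-- sums over `L2` -/
theorem pf12_L2sum (δ : ℤ) (p : ℕ) (f : (ℤ × ℤ) × (ℤ × ℤ) → ℝ) :
    ∑ v ∈ L2 δ p, f v = ∑ x ∈ L1 p, ∑ y ∈ L1 p, ich ((p : ℤ) ∣ dt x y - δ) * f (x, y) := by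
  unfold L2
  rw [Finset.sum_filter, Finset.sum_product]
  refine Finset.sum_congr rfl fun x _ => Finset.sum_congr rfl fun y _ => ?_
  unfold ich
  by_cases h : (p : ℤ) ∣ dt x y - δ <;> simp [h]

theorem pf12_line1 {p : ℕ} (hp : p.Prime) {a : ℤ × ℤ} (ha : ¬ ((p : ℤ) ∣ a.1 ∧ (p : ℤ) ∣ a.2))
    {δ : ℤ} (hδ : ¬ (p : ℤ) ∣ δ) :
    ∑ w ∈ L2 δ p, ich ((p : ℤ) ∣ dt a w.1) ≤ (p : ℝ) ^ 2 := by
  rw [pf12_L2sum]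
  calc ∑ x ∈ L1 p, ∑ y ∈ L1 p, ich ((p : ℤ) ∣ dt x y - δ) * ich ((p : ℤ) ∣ dt a x)
      = ∑ x ∈ L1 p, (∑ y ∈ L1 p, ich ((p : ℤ) ∣ dt x y - δ)) * ich ((p : ℤ) ∣ dt a x) := by
        refine Finset.sum_congr rfl fun x _ => ?_
        rw [Finset.sum_mul]
    _ ≤ ∑ x ∈ L1 p, (p : ℝ) * ich ((p : ℤ) ∣ dt a x) :=
        Finset.sum_le_sum fun x _ =>
          mul_le_mul_of_nonneg_right (pf12_fib hp x hδ) (pf12_ich_nonneg _)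
    _ = (p : ℝ) ^ 2 := by
        rw [← Finset.mul_sum, pf12_lin hp ha]
        ring

theorem pf12_line2 {p : ℕ} (hp : p.Prime) {a : ℤ × ℤ} (ha : ¬ ((p : ℤ) ∣ a.1 ∧ (p : ℤ) ∣ a.2))
    {δ : ℤ} (hδ : ¬ (p : ℤ) ∣ δ) :
    ∑ w ∈ L2 δ p, ich ((p : ℤ) ∣ dt a w.2) ≤ (p : ℝ) ^ 2 := by
  rw [pf12_L2sum, Finset.sum_comm]
  have hδ' : ¬ (p : ℤ) ∣ -δ := by rwa [dvd_neg]
  calc ∑ y ∈ L1 p, ∑ x ∈ L1 p, ich ((p : ℤ) ∣ dt x y - δ) * ich ((p : ℤ) ∣ dt a y)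
      = ∑ y ∈ L1 p, (∑ x ∈ L1 p, ich ((p : ℤ) ∣ dt y x - -δ)) * ich ((p : ℤ) ∣ dt a y) := by
        refine Finset.sum_congr rfl fun y _ => ?_
        rw [Finset.sum_mul]
        refine Finset.sum_congr rfl fun x _ => ?_
        have h : ich ((p : ℤ) ∣ dt x y - δ) = ich ((p : ℤ) ∣ dt y x - -δ) := by
          apply pf12_ich_congr
          rw [pf12_swap x y, ← dvd_neg]
          have : -(dt x y - δ) = -dt x y - -δ := by ring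
          rw [this]
        rw [h]
    _ ≤ ∑ y ∈ L1 p, (p : ℝ) * ich ((p : ℤ) ∣ dt a y) :=
        Finset.sum_le_sum fun y _ =>
          mul_le_mul_of_nonneg_right (pf12_fib hp y hδ') (pf12_ich_nonneg _)
    _ = (p : ℝ) ^ 2 := by
        rw [← Finset.mul_sum, pf12_lin hp ha]
        ring

theorem pf12_line1' {p : ℕ} (hp : p.Prime) {a : ℤ × ℤ} (ha : ¬ ((p : ℤ) ∣ a.1 ∧ (p : ℤ) ∣ a.2))
    {δ : ℤ} (hδ : ¬ (p : ℤ) ∣ δ) :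
    ∑ w ∈ L2 δ p, ich ((p : ℤ) ∣ dt w.1 a) ≤ (p : ℝ) ^ 2 := by
  refine le_trans (le_of_eq ?_) (pf12_line1 hp ha hδ)
  refine Finset.sum_congr rfl fun w _ => pf12_ich_congr ?_
  rw [pf12_swap a w.1, dvd_neg]

theorem pf12_line2' {p : ℕ} (hp : p.Prime) {a : ℤ × ℤ} (ha : ¬ ((p : ℤ) ∣ a.1 ∧ (p : ℤ) ∣ a.2))
    {δ : ℤ} (hδ : ¬ (p : ℤ) ∣ δ) :
    ∑ w ∈ L2 δ p, ich ((p : ℤ) ∣ dt w.2 a) ≤ (p : ℝ) ^ 2 := by
  refine le_trans (le_of_eq ?_) (pf12_line2 hp ha hδ)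
  refine Finset.sum_congr rfl fun w _ => pf12_ich_congr ?_
  rw [pf12_swap a w.2, dvd_neg]

theorem pf12_L1card (p : ℕ) : ((L1 p).card : ℝ) = (p : ℝ) ^ 2 := by
  unfold L1
  rw [Finset.card_product, Int.card_Ico]
  simp
  ring

theorem pf12_L2card {p : ℕ} (hp : p.Prime) {δ : ℤ} (hδ : ¬ (p : ℤ) ∣ δ) :
    ((L2 δ p).card : ℝ) = p * ((p : ℝ) ^ 2 - 1) := by
  have h := L2_card hp hδ
  exact_mod_cast congrArg (Int.cast : ℤ → ℝ) h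

theorem pf12_card {p : ℕ} (hp : p.Prime) {δ1 δ4 : ℤ} (h1 : ¬ (p : ℤ) ∣ δ1)
    (h4 : ¬ (p : ℤ) ∣ δ4) : ((Law5 δ1 δ4 p).card : ℝ) =
      (p * ((p : ℝ) ^ 2 - 1)) ^ 2 * (p : ℝ) ^ 2 := by
  have h := Law5_sum δ1 δ4 p (fun _ => 1)
  simp only [Finset.sum_const, nsmul_eq_mul, mul_one] at h
  rw [h, pf12_L1card, pf12_L2card hp h1, pf12_L2card hp h4]
  ring

theorem pf12_mem : ∀ i : Fin 5, i ∈ inr 5 → i = 0 ∨ i = 2 ∨ i = 3 := by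
  unfold inr
  decide

theorem pf12_L1zero {p : ℕ} {c : ℤ × ℤ} (hc : c ∈ L1 p)
    (h : (p : ℤ) ∣ c.1 ∧ (p : ℤ) ∣ c.2) : c = (0, 0) := by
  unfold L1 at hc
  rw [Finset.mem_product, Finset.mem_Ico, Finset.mem_Ico] at hc
  have h1 : c.1 = 0 := Int.eq_zero_of_dvd_of_nonneg_of_lt hc.1.1 hc.1.2 h.1
  have h2 : c.2 = 0 := Int.eq_zero_of_dvd_of_nonneg_of_lt hc.2.1 hc.2.2 h.2
  exact Prod.ext h1 h2

/-- edges `0` and `2` -/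
theorem pf12_02 {p : ℕ} (hp : p.Prime) {δ1 δ4 : ℤ} (h1 : ¬ (p : ℤ) ∣ δ1)
    (h4 : ¬ (p : ℤ) ∣ δ4) :
    ∑ u ∈ Law5 δ1 δ4 p, ich ((p : ℤ) ∣ dl u 0 ∧ (p : ℤ) ∣ dl u 2) ≤
      (p * ((p : ℝ) ^ 2 - 1)) * (p : ℝ) ^ 3 := by
  rw [Law5_sum]
  have hterm : ∀ v ∈ L2 δ1 p, ∑ w ∈ L2 δ4 p, ∑ c ∈ L1 p,
      ich ((p : ℤ) ∣ dl (K := 5) ![w.2, v.1, v.2, c, w.1] 0 ∧
        (p : ℤ) ∣ dl (K := 5) ![w.2, v.1, v.2, c, w.1] 2) ≤ (p : ℝ) ^ 3 := by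
    intro v hv
    obtain ⟨hv1, hv2⟩ := pf12_nz h1 hv
    have e : ∀ w ∈ L2 δ4 p, ∑ c ∈ L1 p,
        ich ((p : ℤ) ∣ dl (K := 5) ![w.2, v.1, v.2, c, w.1] 0 ∧
          (p : ℤ) ∣ dl (K := 5) ![w.2, v.1, v.2, c, w.1] 2) =
        ich ((p : ℤ) ∣ dt w.2 v.1) * p := by
      intro w _
      rw [← pf12_lin hp hv2, Finset.mul_sum]
      refine Finset.sum_congr rfl fun c _ => ?_
      rw [pf12_ich_and]
      rfl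
    rw [Finset.sum_congr rfl e, ← Finset.sum_mul]
    calc (∑ w ∈ L2 δ4 p, ich ((p : ℤ) ∣ dt w.2 v.1)) * p ≤ (p : ℝ) ^ 2 * p :=
          mul_le_mul_of_nonneg_right (pf12_line2' hp hv1 h4) (Nat.cast_nonneg _)
      _ = (p : ℝ) ^ 3 := by ring
  refine (Finset.sum_le_sum hterm).trans (le_of_eq ?_)
  rw [Finset.sum_const, nsmul_eq_mul, pf12_L2card hp h1]

/-- edges `0` and `3` -/
theorem pf12_03 {p : ℕ} (hp : p.Prime) {δ1 δ4 : ℤ} (h1 : ¬ (p : ℤ) ∣ δ1)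
    (h4 : ¬ (p : ℤ) ∣ δ4) :
    ∑ u ∈ Law5 δ1 δ4 p, ich ((p : ℤ) ∣ dl u 0 ∧ (p : ℤ) ∣ dl u 3) ≤
      (p * ((p : ℝ) ^ 2 - 1)) * (p : ℝ) ^ 3 := by
  rw [Law5_sum, Finset.sum_comm]
  have hterm : ∀ w ∈ L2 δ4 p, ∑ v ∈ L2 δ1 p, ∑ c ∈ L1 p,
      ich ((p : ℤ) ∣ dl (K := 5) ![w.2, v.1, v.2, c, w.1] 0 ∧
        (p : ℤ) ∣ dl (K := 5) ![w.2, v.1, v.2, c, w.1] 3) ≤ (p : ℝ) ^ 3 := by
    intro w hw
    obtain ⟨hw1, hw2⟩ := pf12_nz h4 hw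
    have e : ∀ v ∈ L2 δ1 p, ∑ c ∈ L1 p,
        ich ((p : ℤ) ∣ dl (K := 5) ![w.2, v.1, v.2, c, w.1] 0 ∧
          (p : ℤ) ∣ dl (K := 5) ![w.2, v.1, v.2, c, w.1] 3) =
        ich ((p : ℤ) ∣ dt w.2 v.1) * p := by
      intro v _
      rw [← pf12_lin' hp hw1, Finset.mul_sum]
      refine Finset.sum_congr rfl fun c _ => ?_
      rw [pf12_ich_and]
      rfl
    rw [Finset.sum_congr rfl e, ← Finset.sum_mul]
    calc (∑ v ∈ L2 δ1 p, ich ((p : ℤ) ∣ dt w.2 v.1)) * p ≤ (p : ℝ) ^ 2 * p :=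
          mul_le_mul_of_nonneg_right (pf12_line1 hp hw2 h1) (Nat.cast_nonneg _)
      _ = (p : ℝ) ^ 3 := by ring
  refine (Finset.sum_le_sum hterm).trans (le_of_eq ?_)
  rw [Finset.sum_const, nsmul_eq_mul, pf12_L2card hp h4]

/-- edges `2` and `3` -/
theorem pf12_23 {p : ℕ} (hp : p.Prime) {δ1 δ4 : ℤ} (h1 : ¬ (p : ℤ) ∣ δ1)
    (h4 : ¬ (p : ℤ) ∣ δ4) :
    ∑ u ∈ Law5 δ1 δ4 p, ich ((p : ℤ) ∣ dl u 2 ∧ (p : ℤ) ∣ dl u 3) ≤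
      (p : ℝ) ^ 6 + (p * ((p : ℝ) ^ 2 - 1)) ^ 2 := by
  rw [Law5_sum]
  have e : ∑ v ∈ L2 δ1 p, ∑ w ∈ L2 δ4 p, ∑ c ∈ L1 p,
      ich ((p : ℤ) ∣ dl (K := 5) ![w.2, v.1, v.2, c, w.1] 2 ∧
        (p : ℤ) ∣ dl (K := 5) ![w.2, v.1, v.2, c, w.1] 3) =
      ∑ c ∈ L1 p, (∑ v ∈ L2 δ1 p, ich ((p : ℤ) ∣ dt v.2 c)) *
        ∑ w ∈ L2 δ4 p, ich ((p : ℤ) ∣ dt c w.1) := by
    have e1 : ∀ v ∈ L2 δ1 p, ∑ w ∈ L2 δ4 p, ∑ c ∈ L1 p,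
        ich ((p : ℤ) ∣ dl (K := 5) ![w.2, v.1, v.2, c, w.1] 2 ∧
          (p : ℤ) ∣ dl (K := 5) ![w.2, v.1, v.2, c, w.1] 3) =
        ∑ c ∈ L1 p, ∑ w ∈ L2 δ4 p, ich ((p : ℤ) ∣ dt v.2 c) * ich ((p : ℤ) ∣ dt c w.1) := by
      intro v _
      rw [Finset.sum_comm]
      refine Finset.sum_congr rfl fun c _ => Finset.sum_congr rfl fun w _ => ?_
      rw [pf12_ich_and]
      rfl
    rw [Finset.sum_congr rfl e1, Finset.sum_comm]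
    refine Finset.sum_congr rfl fun c _ => ?_
    rw [Finset.sum_mul_sum]
  rw [e]
  have hN1 := pf12_L2card hp h1
  have hN4 := pf12_L2card hp h4
  have hNpos : (0 : ℝ) ≤ p * ((p : ℝ) ^ 2 - 1) := by
    rw [← hN1]
    exact Nat.cast_nonneg _
  have hterm : ∀ c ∈ L1 p, (∑ v ∈ L2 δ1 p, ich ((p : ℤ) ∣ dt v.2 c)) *
        ∑ w ∈ L2 δ4 p, ich ((p : ℤ) ∣ dt c w.1) ≤
      (p : ℝ) ^ 4 + if c = (0, 0) then (p * ((p : ℝ) ^ 2 - 1)) ^ 2 else 0 := by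
    intro c hc
    by_cases h0 : (p : ℤ) ∣ c.1 ∧ (p : ℤ) ∣ c.2
    · have hc0 := pf12_L1zero hc h0
      rw [if_pos hc0]
      have a1 : ∑ v ∈ L2 δ1 p, ich ((p : ℤ) ∣ dt v.2 c) ≤ p * ((p : ℝ) ^ 2 - 1) := by
        rw [← hN1]
        calc ∑ v ∈ L2 δ1 p, ich ((p : ℤ) ∣ dt v.2 c) ≤ ∑ v ∈ L2 δ1 p, (1 : ℝ) :=
              Finset.sum_le_sum fun v _ => pf12_ich_le _
          _ = _ := by simp
      have a2 : ∑ w ∈ L2 δ4 p, ich ((p : ℤ) ∣ dt c w.1) ≤ p * ((p : ℝ) ^ 2 - 1) := by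
        rw [← hN4]
        calc ∑ w ∈ L2 δ4 p, ich ((p : ℤ) ∣ dt c w.1) ≤ ∑ w ∈ L2 δ4 p, (1 : ℝ) :=
              Finset.sum_le_sum fun v _ => pf12_ich_le _
          _ = _ := by simp
      have a3 : 0 ≤ ∑ w ∈ L2 δ4 p, ich ((p : ℤ) ∣ dt c w.1) :=
        Finset.sum_nonneg fun w _ => pf12_ich_nonneg _
      have a4 := mul_le_mul a1 a2 a3 hNpos
      have a5 : (0 : ℝ) ≤ (p : ℝ) ^ 4 := by positivity
      nlinarith [a4, a5]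
    · have a1 := pf12_line2' hp h0 h1
      have a2 := pf12_line1 hp h0 h4
      have a3 : 0 ≤ ∑ w ∈ L2 δ4 p, ich ((p : ℤ) ∣ dt c w.1) :=
        Finset.sum_nonneg fun w _ => pf12_ich_nonneg _
      have a4 := mul_le_mul a1 a2 a3 (by positivity)
      have a5 : (0 : ℝ) ≤ if c = (0, 0) then (p * ((p : ℝ) ^ 2 - 1)) ^ 2 else 0 := by
        split_ifs
        · positivity
        · exact le_rfl
      calc (∑ v ∈ L2 δ1 p, ich ((p : ℤ) ∣ dt v.2 c)) *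
          ∑ w ∈ L2 δ4 p, ich ((p : ℤ) ∣ dt c w.1) ≤ (p : ℝ) ^ 2 * (p : ℝ) ^ 2 := a4
        _ = (p : ℝ) ^ 4 := by ring
        _ ≤ _ := by linarith
  refine (Finset.sum_le_sum hterm).trans ?_
  rw [Finset.sum_add_distrib, Finset.sum_const, nsmul_eq_mul, pf12_L1card, Finset.sum_ite_eq']
  have : (if ((0 : ℤ), (0 : ℤ)) ∈ L1 p then (p * ((p : ℝ) ^ 2 - 1)) ^ 2 else 0) ≤
      (p * ((p : ℝ) ^ 2 - 1)) ^ 2 := by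
    split_ifs
    · exact le_rfl
    · positivity
  have h6 : (p : ℝ) ^ 2 * (p : ℝ) ^ 4 = (p : ℝ) ^ 6 := by ring
  rw [h6]
  linarith

/-- BLOCK PF12 (uses PF10): two interior edges -/
theorem law_b_pr : ∃ C : ℝ, 0 ≤ C ∧ ∀ p : ℕ, p.Prime → 2 < p → ∀ δ1 δ4 : ℤ, ¬ (p : ℤ) ∣ δ1 →
    ¬ (p : ℤ) ∣ δ4 → ∀ i ∈ inr 5, ∀ j ∈ inr 5, i ≠ j →
    mL (Law5 δ1 δ4 p) (fun u => ich ((p : ℤ) ∣ dl u i ∧ (p : ℤ) ∣ dl u j)) ≤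
      C / (p : ℝ) ^ 2 := by
  refine ⟨3, by norm_num, ?_⟩
  intro p hp h2 δ1 δ4 h1 h4
  have hp3 : (3 : ℝ) ≤ p := by exact_mod_cast h2
  have hN : 8 / 9 * (p : ℝ) ^ 3 ≤ p * ((p : ℝ) ^ 2 - 1) := by
    nlinarith [mul_nonneg (by linarith : (0 : ℝ) ≤ p) (by nlinarith : (0 : ℝ) ≤ (p : ℝ) ^ 2 - 9)]
  have hp3pos : (0 : ℝ) < (p : ℝ) ^ 3 := by positivity
  set N : ℝ := p * ((p : ℝ) ^ 2 - 1) with hNdef
  have hNpos : 0 < N := by linarith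
  -- the bound for the three pairs
  have key : ∀ i j : Fin 5, (i = 0 ∧ j = 2) ∨ (i = 0 ∧ j = 3) ∨ (i = 2 ∧ j = 3) →
      ∑ u ∈ Law5 δ1 δ4 p, ich ((p : ℤ) ∣ dl u i ∧ (p : ℤ) ∣ dl u j) ≤ 3 * N ^ 2 := by
    intro i j hij
    rcases hij with ⟨rfl, rfl⟩ | ⟨rfl, rfl⟩ | ⟨rfl, rfl⟩
    · refine (pf12_02 hp h1 h4).trans ?_
      rw [← hNdef]
      nlinarith
    · refine (pf12_03 hp h1 h4).trans ?_
      rw [← hNdef]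
      nlinarith
    · refine (pf12_23 hp h1 h4).trans ?_
      rw [← hNdef]
      have : (p : ℝ) ^ 6 = (p : ℝ) ^ 3 * (p : ℝ) ^ 3 := by ring
      rw [this]
      nlinarith
  have key2 : ∀ i j : Fin 5, ((i = 0 ∧ j = 2) ∨ (i = 0 ∧ j = 3) ∨ (i = 2 ∧ j = 3)) ∨
      ((j = 0 ∧ i = 2) ∨ (j = 0 ∧ i = 3) ∨ (j = 2 ∧ i = 3)) →
      ∑ u ∈ Law5 δ1 δ4 p, ich ((p : ℤ) ∣ dl u i ∧ (p : ℤ) ∣ dl u j) ≤ 3 * N ^ 2 := by
    intro i j hij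
    rcases hij with hij | hij
    · exact key i j hij
    · refine le_trans (le_of_eq ?_) (key j i hij)
      exact Finset.sum_congr rfl fun u _ => pf12_ich_congr and_comm
  intro i hi j hj hij
  have hS : ∑ u ∈ Law5 δ1 δ4 p, ich ((p : ℤ) ∣ dl u i ∧ (p : ℤ) ∣ dl u j) ≤ 3 * N ^ 2 := by
    apply key2
    rcases pf12_mem i hi with h | h | h <;> rcases pf12_mem j hj with h' | h' | h' <;>
      subst h <;> subst h' <;> simp at hij ⊢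
  unfold mL
  rw [pf12_card hp h1 h4, ← hNdef, div_le_div_iff₀ (by positivity) (by positivity)]
  calc (∑ u ∈ Law5 δ1 δ4 p, ich ((p : ℤ) ∣ dl u i ∧ (p : ℤ) ∣ dl u j)) * (p : ℝ) ^ 2
      ≤ 3 * N ^ 2 * (p : ℝ) ^ 2 := mul_le_mul_of_nonneg_right hS (by positivity)
    _ = 3 * (N ^ 2 * (p : ℝ) ^ 2) := by ring

end Pool.Agent.PENK

namespace Pool.Agent.PENK

theorem law_b : type_of% @law_b_pr := @law_b_pr

end Pool.Agent.PENK
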