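import Pool.Agent.Lib_helper18.PENK.Defs2
import Pool.Agent.Lib_helper18.PENKF.DefsW
import Pool.Agent.Lib_helper18.PENKF.PF10

/-! Block PF13 (project PENT, part PENK) -/

set_option autoImplicit false

namespace Pool.Agent.PENK

open Finset Pool.Agent.PENT

theorem pf13_ich {V : Type} (s : Finset V) (P Q : V → Prop) [DecidablePred Q]
    (h : ∀ c ∈ s, P c → Q c) : ∑ c ∈ s, ich (P c) ≤ ((s.filter Q).card : ℝ) := by
  classical
  rw [Finset.card_filter]
  push_cast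
  refine Finset.sum_le_sum fun c hc => ?_
  unfold ich
  by_cases h1 : P c
  · rw [if_pos h1, if_pos (h c hc h1)]
  · rw [if_neg h1]
    split_ifs <;> norm_num

theorem pf13_ne {p : ℕ} {δ : ℤ} (hδ : ¬ (p : ℤ) ∣ δ) {a b : ℤ × ℤ} (h : (p : ℤ) ∣ dt a b - δ) :
    ¬ ((p : ℤ) ∣ a.1 ∧ (p : ℤ) ∣ a.2) ∧ ¬ ((p : ℤ) ∣ b.1 ∧ (p : ℤ) ∣ b.2) := by
  constructor
  · rintro ⟨h1, h2⟩
    apply hδ
    have e : δ = dt a b - (dt a b - δ) := by ring
    rw [e]
    apply dvd_sub _ h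
    unfold dt
    exact dvd_sub (Dvd.dvd.mul_right h1 _) (Dvd.dvd.mul_right h2 _)
  · rintro ⟨h1, h2⟩
    apply hδ
    have e : δ = dt a b - (dt a b - δ) := by ring
    rw [e]
    apply dvd_sub _ h
    unfold dt
    exact dvd_sub (Dvd.dvd.mul_left h2 _) (Dvd.dvd.mul_left h1 _)

/-- `b` with `det (b, a) = δ` -/
theorem pf13_fib {p : ℕ} (hp : p.Prime) {a : ℤ × ℤ} (ha : ¬ ((p : ℤ) ∣ a.1 ∧ (p : ℤ) ∣ a.2))
    (δ : ℤ) : ((L1 p).filter (fun b => (p : ℤ) ∣ dt b a - δ)).card = p := by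
  have h : (L1 p).filter (fun b => (p : ℤ) ∣ dt b a - δ) =
      (L1 p).filter (fun b => (p : ℤ) ∣ dt a b - (-δ)) := by
    refine Finset.filter_congr fun b _ => ?_
    have e : dt b a - δ = -(dt a b - -δ) := by unfold dt; ring
    rw [e, dvd_neg]
  rw [h]
  exact fib_card hp ha (-δ)

theorem pf13_fst {p : ℕ} (hp : p.Prime) {δ : ℤ} (hδ : ¬ (p : ℤ) ∣ δ) {a : ℤ × ℤ}
    (ha : ¬ ((p : ℤ) ∣ a.1 ∧ (p : ℤ) ∣ a.2)) (δ' : ℤ) :
    ((L2 δ p).filter (fun v => (p : ℤ) ∣ dt a v.1 - δ')).card ≤ p * p := by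
  classical
  have h1 : (L2 δ p).filter (fun v => (p : ℤ) ∣ dt a v.1 - δ') ⊆
      ((L1 p).filter (fun b => (p : ℤ) ∣ dt a b - δ')).biUnion
        (fun b => ((L1 p).filter (fun c => (p : ℤ) ∣ dt b c - δ)).image (fun c => (b, c))) := by
    intro v hv
    unfold L2 at hv
    rw [mem_filter, mem_filter, mem_product] at hv
    rw [mem_biUnion]
    exact ⟨v.1, mem_filter.2 ⟨hv.1.1.1, hv.2⟩, mem_image.2 ⟨v.2, mem_filter.2 ⟨hv.1.1.2, hv.1.2⟩,
      rfl⟩⟩
  refine le_trans (Finset.card_le_card h1) (le_trans Finset.card_biUnion_le ?_)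
  calc ∑ b ∈ (L1 p).filter (fun b => (p : ℤ) ∣ dt a b - δ'),
        (((L1 p).filter (fun c => (p : ℤ) ∣ dt b c - δ)).image (fun c => (b, c))).card
      ≤ ∑ b ∈ (L1 p).filter (fun b => (p : ℤ) ∣ dt a b - δ'), p := by
        refine Finset.sum_le_sum fun b _ => ?_
        refine le_trans Finset.card_image_le ?_
        rcases Finset.eq_empty_or_nonempty ((L1 p).filter (fun c => (p : ℤ) ∣ dt b c - δ)) with
          h0 | ⟨c, hc⟩
        · rw [h0]; simp
        · have hb := (pf13_ne hδ (mem_filter.1 hc).2).1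
          exact (fib_card hp hb δ).le
    _ = p * p := by
        rw [Finset.sum_const, fib_card hp ha δ', smul_eq_mul]

theorem pf13_snd {p : ℕ} (hp : p.Prime) {δ : ℤ} (hδ : ¬ (p : ℤ) ∣ δ) {a : ℤ × ℤ}
    (ha : ¬ ((p : ℤ) ∣ a.1 ∧ (p : ℤ) ∣ a.2)) (δ' : ℤ) :
    ((L2 δ p).filter (fun v => (p : ℤ) ∣ dt a v.2 - δ')).card ≤ p * p := by
  classical
  have h1 : (L2 δ p).filter (fun v => (p : ℤ) ∣ dt a v.2 - δ') ⊆
      ((L1 p).filter (fun b => (p : ℤ) ∣ dt a b - δ')).biUnion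
        (fun b => ((L1 p).filter (fun c => (p : ℤ) ∣ dt c b - δ)).image (fun c => (c, b))) := by
    intro v hv
    unfold L2 at hv
    rw [mem_filter, mem_filter, mem_product] at hv
    rw [mem_biUnion]
    exact ⟨v.2, mem_filter.2 ⟨hv.1.1.2, hv.2⟩, mem_image.2 ⟨v.1, mem_filter.2 ⟨hv.1.1.1, hv.1.2⟩,
      rfl⟩⟩
  refine le_trans (Finset.card_le_card h1) (le_trans Finset.card_biUnion_le ?_)
  calc ∑ b ∈ (L1 p).filter (fun b => (p : ℤ) ∣ dt a b - δ'),
        (((L1 p).filter (fun c => (p : ℤ) ∣ dt c b - δ)).image (fun c => (c, b))).card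
      ≤ ∑ b ∈ (L1 p).filter (fun b => (p : ℤ) ∣ dt a b - δ'), p := by
        refine Finset.sum_le_sum fun b _ => ?_
        refine le_trans Finset.card_image_le ?_
        rcases Finset.eq_empty_or_nonempty ((L1 p).filter (fun c => (p : ℤ) ∣ dt c b - δ)) with
          h0 | ⟨c, hc⟩
        · rw [h0]; simp
        · have hb := (pf13_ne hδ (mem_filter.1 hc).2).2
          exact (pf13_fib hp hb δ).le
    _ = p * p := by
        rw [Finset.sum_const, fib_card hp ha δ', smul_eq_mul]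

/-- solving `v X = t` modulo `p` -/
theorem pf13_solve {p : ℕ} (hp : p.Prime) {v : ℤ} (hv : ¬ (p : ℤ) ∣ v) (t : ℤ) :
    ∃ s : ℤ, ∀ X : ℤ, (p : ℤ) ∣ v * X - t → (p : ℤ) ∣ X - s := by
  have hc : IsCoprime (p : ℤ) v := by
    rw [Int.isCoprime_iff_gcd_eq_one, Int.gcd_eq_natAbs, Int.natAbs_natCast]
    exact (Nat.Prime.coprime_iff_not_dvd hp).2 (fun h => hv (Int.natCast_dvd.2 h))
  obtain ⟨x, y, hxy⟩ := hc
  refine ⟨y * t, fun X hX => ?_⟩
  have e : X - y * t = y * (v * X - t) + (p : ℤ) * (x * X) := by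
    linear_combination (-X) * hxy
  rw [e]
  exact dvd_add (Dvd.dvd.mul_left hX _) (dvd_mul_right _ _)

theorem pf13_bad0 {u : PolyK 5} {p : ℕ} (h : ¬ (p : ℤ) ∣ bad u) : ¬ (p : ℤ) ∣ dl u 0 := by
  intro h0
  apply h
  have h1 : (p : ℤ) ∣ ((dn u 0 : ℕ) : ℤ) := by
    unfold dn
    rw [Int.natCast_dvd_natCast]
    exact Int.natCast_dvd.1 h0
  have h2 : dn u 0 ∣ bad u := by
    unfold bad
    apply Finset.dvd_prod_of_mem
    unfold inr
    rw [mem_filter]
    exact ⟨mem_univ _, by decide, by decide⟩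
  exact dvd_trans h1 (Int.natCast_dvd_natCast.2 h2)

theorem law_c_pr : ∃ C : ℝ, 0 ≤ C ∧ ∀ p : ℕ, p.Prime → 2 < p → ∀ δ1 δ4 : ℤ, ¬ (p : ℤ) ∣ δ1 →
    ¬ (p : ℤ) ∣ δ4 → ∀ k ∈ ivr 5, ∀ v : ℤ × ℤ, ¬ ((p : ℤ) ∣ v.1 ∧ (p : ℤ) ∣ v.2) →
    mL (Law5 δ1 δ4 p) (fun u => ich (¬ (p : ℤ) ∣ bad u ∧ (p : ℤ) ∣ dt (cv u k) v)) ≤ C / p := by
  classical
  refine ⟨2, by norm_num, ?_⟩
  intro p hp h2 δ1 δ4 hδ1 hδ4 k hk v hv
  have hp0 : (0 : ℝ) < p := by exact_mod_cast hp.pos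
  have hp3 : (3 : ℝ) ≤ p := by exact_mod_cast h2
  obtain ⟨N, hN⟩ : ∃ N : ℝ, N = (p : ℝ) * ((p : ℝ) ^ 2 - 1) := ⟨_, rfl⟩
  have hN0 : 0 < N := by
    rw [hN]
    apply mul_pos hp0
    nlinarith
  have cL2 : ∀ δ : ℤ, ¬ (p : ℤ) ∣ δ → ((L2 δ p).card : ℝ) = N := by
    intro δ hδ
    have h := L2_card hp hδ
    rw [hN]
    exact_mod_cast h
  have cL1 : ((L1 p).card : ℝ) = (p : ℝ) ^ 2 := by
    unfold L1
    rw [Finset.card_product, Int.card_Ico]
    push_cast
    simp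
    ring
  have hcard : ((Law5 δ1 δ4 p).card : ℝ) = N * (N * (p : ℝ) ^ 2) := by
    have h1 := Law5_sum δ1 δ4 p (fun _ => (1 : ℝ))
    simp only [Finset.sum_const, nsmul_eq_mul, mul_one] at h1
    rw [h1, cL2 δ1 hδ1, cL2 δ4 hδ4, cL1]
  have key : ∑ u ∈ Law5 δ1 δ4 p, ich (¬ (p : ℤ) ∣ bad u ∧ (p : ℤ) ∣ dt (cv u k) v) ≤
      N * ((p : ℝ) * p) * (p : ℝ) ^ 2 := by
    rw [Law5_sum]
    have hk' : k = 2 ∨ k = 3 ∨ k = 4 := by
      unfold ivr at hk
      rw [mem_filter] at hk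
      obtain ⟨-, hk0, hk1⟩ := hk
      fin_cases k
      · exact absurd rfl hk0
      · exact absurd rfl hk1
      · exact Or.inl rfl
      · exact Or.inr (Or.inl rfl)
      · exact Or.inr (Or.inr rfl)
    rcases hk' with rfl | rfl | rfl
    · -- `k = 2`
      have hb : ∀ x ∈ L2 δ1 p, ∑ w ∈ L2 δ4 p, ∑ c ∈ L1 p,
          ich (¬ (p : ℤ) ∣ bad ![w.2, x.1, x.2, c, w.1] ∧
            (p : ℤ) ∣ dt (cv ![w.2, x.1, x.2, c, w.1] 2) v) ≤ (p : ℝ) ^ 2 * ((p : ℝ) * p) := by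
        intro x hx
        have hx' := (mem_filter.1 hx).2
        rw [Finset.sum_comm]
        have hc : ∀ c ∈ L1 p, ∑ w ∈ L2 δ4 p,
            ich (¬ (p : ℤ) ∣ bad ![w.2, x.1, x.2, c, w.1] ∧
              (p : ℤ) ∣ dt (cv ![w.2, x.1, x.2, c, w.1] 2) v) ≤ (p : ℝ) * p := by
          intro c _
          have hid : ∀ w : (ℤ × ℤ) × (ℤ × ℤ), (p : ℤ) ∣ dt (cv ![w.2, x.1, x.2, c, w.1] 2) v →
              (p : ℤ) ∣ v.1 * dt x.2 w.2 - v.2 * δ1 := by
            intro w hw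
            have e : v.1 * dt x.2 w.2 - v.2 * δ1 = dt (cv ![w.2, x.1, x.2, c, w.1] 2) v +
                v.2 * (dt x.1 x.2 - δ1) := by
              show v.1 * dt x.2 w.2 - v.2 * δ1 = dt (dt x.2 x.1, dt w.2 x.2) v +
                v.2 * (dt x.1 x.2 - δ1)
              unfold dt
              ring
            rw [e]
            exact dvd_add hw (Dvd.dvd.mul_left hx' _)
          by_cases hv1 : (p : ℤ) ∣ v.1
          · have hv2 : ¬ (p : ℤ) ∣ v.2 := fun h => hv ⟨hv1, h⟩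
            refine le_trans (pf13_ich _ _ (fun _ => False) ?_) ?_
            · rintro w _ ⟨-, hw⟩
              have h1 := hid w hw
              have h3 : (p : ℤ) ∣ v.2 * δ1 := by
                have e : v.2 * δ1 = v.1 * dt x.2 w.2 - (v.1 * dt x.2 w.2 - v.2 * δ1) := by ring
                rw [e]
                exact dvd_sub (Dvd.dvd.mul_right hv1 _) h1
              rcases (Nat.prime_iff_prime_int.1 hp).dvd_or_dvd h3 with h4 | h4
              · exact hv2 h4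
              · exact hδ1 h4
            · simp only [Finset.filter_false, Finset.card_empty, Nat.cast_zero]
              positivity
          · obtain ⟨s, hs⟩ := pf13_solve hp hv1 (v.2 * δ1)
            refine le_trans (pf13_ich _ _ (fun w => (p : ℤ) ∣ dt x.2 w.2 - s) ?_) ?_
            · rintro w _ ⟨-, hw⟩
              exact hs _ (hid w hw)
            · have h1 := pf13_snd hp hδ4 (pf13_ne hδ1 hx').2 s
              exact_mod_cast h1
        calc ∑ c ∈ L1 p, ∑ w ∈ L2 δ4 p,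
            ich (¬ (p : ℤ) ∣ bad ![w.2, x.1, x.2, c, w.1] ∧
              (p : ℤ) ∣ dt (cv ![w.2, x.1, x.2, c, w.1] 2) v)
            ≤ ∑ c ∈ L1 p, (p : ℝ) * p := Finset.sum_le_sum hc
          _ = (p : ℝ) ^ 2 * ((p : ℝ) * p) := by rw [Finset.sum_const, nsmul_eq_mul, cL1]
      refine le_trans (Finset.sum_le_sum hb) ?_
      rw [Finset.sum_const, nsmul_eq_mul, cL2 δ1 hδ1]
      apply le_of_eq
      ring
    · -- `k = 3`
      have hb : ∀ x ∈ L2 δ1 p, ∀ w ∈ L2 δ4 p, ∑ c ∈ L1 p,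
          ich (¬ (p : ℤ) ∣ bad ![w.2, x.1, x.2, c, w.1] ∧
            (p : ℤ) ∣ dt (cv ![w.2, x.1, x.2, c, w.1] 3) v) ≤ (p : ℝ) := by
        intro x _ w _
        obtain ⟨W, hW⟩ : ∃ W : ℤ × ℤ, W = (v.2 * x.1.1 + v.1 * w.2.1, v.2 * x.1.2 + v.1 * w.2.2) :=
          ⟨_, rfl⟩
        by_cases hW0 : (p : ℤ) ∣ W.1 ∧ (p : ℤ) ∣ W.2
        · refine le_trans (pf13_ich _ _ (fun _ => False) ?_) ?_
          · rintro c _ ⟨hbad, -⟩
            have h0 : ¬ (p : ℤ) ∣ dt w.2 x.1 := pf13_bad0 hbad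
            have h1 : (p : ℤ) ∣ v.1 * dt w.2 x.1 := by
              have e : v.1 * dt w.2 x.1 = W.1 * x.1.2 - W.2 * x.1.1 := by
                rw [hW]
                unfold dt
                ring
              rw [e]
              exact dvd_sub (Dvd.dvd.mul_right hW0.1 _) (Dvd.dvd.mul_right hW0.2 _)
            have h3 : (p : ℤ) ∣ v.2 * dt w.2 x.1 := by
              have e : v.2 * dt w.2 x.1 = w.2.1 * W.2 - w.2.2 * W.1 := by
                rw [hW]
                unfold dt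
                ring
              rw [e]
              exact dvd_sub (Dvd.dvd.mul_left hW0.2 _) (Dvd.dvd.mul_left hW0.1 _)
            apply hv
            constructor
            · rcases (Nat.prime_iff_prime_int.1 hp).dvd_or_dvd h1 with h4 | h4
              · exact h4
              · exact absurd h4 h0
            · rcases (Nat.prime_iff_prime_int.1 hp).dvd_or_dvd h3 with h4 | h4
              · exact h4
              · exact absurd h4 h0
          · simp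
        · refine le_trans (pf13_ich _ _ (fun c => (p : ℤ) ∣ dt c W - 0) ?_) ?_
          · rintro c _ ⟨-, hc⟩
            have e : dt c W - 0 = dt (cv ![w.2, x.1, x.2, c, w.1] 3) v := by
              show dt c W - 0 = dt (dt c x.1, dt w.2 c) v
              rw [hW]
              unfold dt
              ring
            rw [e]
            exact hc
          · rw [pf13_fib hp hW0 0]
      have hb2 : ∀ x ∈ L2 δ1 p, ∑ w ∈ L2 δ4 p, ∑ c ∈ L1 p,
          ich (¬ (p : ℤ) ∣ bad ![w.2, x.1, x.2, c, w.1] ∧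
            (p : ℤ) ∣ dt (cv ![w.2, x.1, x.2, c, w.1] 3) v) ≤ N * p := by
        intro x hx
        refine le_trans (Finset.sum_le_sum (hb x hx)) ?_
        rw [Finset.sum_const, nsmul_eq_mul, cL2 δ4 hδ4]
      refine le_trans (Finset.sum_le_sum hb2) ?_
      rw [Finset.sum_const, nsmul_eq_mul, cL2 δ1 hδ1]
      have e1 : N * ((p : ℝ) * p) * (p : ℝ) ^ 2 - N * (N * p) = N * (p : ℝ) ^ 2 := by
        rw [hN]; ring
      have e2 : 0 ≤ N * (p : ℝ) ^ 2 := by positivity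
      linarith
    · -- `k = 4`
      rw [Finset.sum_comm]
      have hb : ∀ w ∈ L2 δ4 p, ∑ x ∈ L2 δ1 p, ∑ c ∈ L1 p,
          ich (¬ (p : ℤ) ∣ bad ![w.2, x.1, x.2, c, w.1] ∧
            (p : ℤ) ∣ dt (cv ![w.2, x.1, x.2, c, w.1] 4) v) ≤ (p : ℝ) ^ 2 * ((p : ℝ) * p) := by
        intro w hw
        have hw' := (mem_filter.1 hw).2
        rw [Finset.sum_comm]
        have hc : ∀ c ∈ L1 p, ∑ x ∈ L2 δ1 p,
            ich (¬ (p : ℤ) ∣ bad ![w.2, x.1, x.2, c, w.1] ∧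
              (p : ℤ) ∣ dt (cv ![w.2, x.1, x.2, c, w.1] 4) v) ≤ (p : ℝ) * p := by
          intro c _
          have hid : ∀ x : (ℤ × ℤ) × (ℤ × ℤ), (p : ℤ) ∣ dt (cv ![w.2, x.1, x.2, c, w.1] 4) v →
              (p : ℤ) ∣ v.2 * dt w.1 x.1 - (-(v.1 * δ4)) := by
            intro x hx
            have e : v.2 * dt w.1 x.1 - (-(v.1 * δ4)) = dt (cv ![w.2, x.1, x.2, c, w.1] 4) v -
                v.1 * (dt w.1 w.2 - δ4) := by
              show v.2 * dt w.1 x.1 - (-(v.1 * δ4)) = dt (dt w.1 x.1, dt w.2 w.1) v -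
                v.1 * (dt w.1 w.2 - δ4)
              unfold dt
              ring
            rw [e]
            exact dvd_sub hx (Dvd.dvd.mul_left hw' _)
          by_cases hv2 : (p : ℤ) ∣ v.2
          · have hv1 : ¬ (p : ℤ) ∣ v.1 := fun h => hv ⟨h, hv2⟩
            refine le_trans (pf13_ich _ _ (fun _ => False) ?_) ?_
            · rintro x _ ⟨-, hx⟩
              have h1 := hid x hx
              have h3 : (p : ℤ) ∣ v.1 * δ4 := by
                have e : v.1 * δ4 = (v.2 * dt w.1 x.1 - (-(v.1 * δ4))) - v.2 * dt w.1 x.1 := by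
                  ring
                rw [e]
                exact dvd_sub h1 (Dvd.dvd.mul_right hv2 _)
              rcases (Nat.prime_iff_prime_int.1 hp).dvd_or_dvd h3 with h4 | h4
              · exact hv1 h4
              · exact hδ4 h4
            · simp only [Finset.filter_false, Finset.card_empty, Nat.cast_zero]
              positivity
          · obtain ⟨s, hs⟩ := pf13_solve hp hv2 (-(v.1 * δ4))
            refine le_trans (pf13_ich _ _ (fun x => (p : ℤ) ∣ dt w.1 x.1 - s) ?_) ?_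
            · rintro x _ ⟨-, hx⟩
              exact hs _ (hid x hx)
            · have h1 := pf13_fst hp hδ1 (pf13_ne hδ4 hw').1 s
              exact_mod_cast h1
        calc ∑ c ∈ L1 p, ∑ x ∈ L2 δ1 p,
            ich (¬ (p : ℤ) ∣ bad ![w.2, x.1, x.2, c, w.1] ∧
              (p : ℤ) ∣ dt (cv ![w.2, x.1, x.2, c, w.1] 4) v)
            ≤ ∑ c ∈ L1 p, (p : ℝ) * p := Finset.sum_le_sum hc
          _ = (p : ℝ) ^ 2 * ((p : ℝ) * p) := by rw [Finset.sum_const, nsmul_eq_mul, cL1]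
      refine le_trans (Finset.sum_le_sum hb) ?_
      rw [Finset.sum_const, nsmul_eq_mul, cL2 δ4 hδ4]
      apply le_of_eq
      ring
  unfold mL
  rw [hcard, div_le_div_iff₀ (by positivity) hp0]
  have e1 : (∑ u ∈ Law5 δ1 δ4 p, ich (¬ (p : ℤ) ∣ bad u ∧ (p : ℤ) ∣ dt (cv u k) v)) * p ≤
      N * ((p : ℝ) * p) * (p : ℝ) ^ 2 * p := mul_le_mul_of_nonneg_right key hp0.le
  have e2 : N * ((p : ℝ) * p) * (p : ℝ) ^ 2 * p ≤ 2 * (N * (N * (p : ℝ) ^ 2)) := by
    have e3 : 2 * (N * (N * (p : ℝ) ^ 2)) - N * ((p : ℝ) * p) * (p : ℝ) ^ 2 * p =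
        N * (p : ℝ) ^ 3 * ((p : ℝ) ^ 2 - 2) := by
      rw [hN]; ring
    have e4 : 0 ≤ N * (p : ℝ) ^ 3 * ((p : ℝ) ^ 2 - 2) := by
      apply mul_nonneg (by positivity)
      nlinarith
    linarith
  linarith

end Pool.Agent.PENK

namespace Pool.Agent.PENK

theorem law_c : type_of% @law_c_pr := @law_c_pr

end Pool.Agent.PENK
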