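import Pool.Agent.Lib_helper18.PENK.Defs2
import Pool.Agent.Lib_helper18.PENKF.DefsW
import Pool.Agent.Lib_helper18.PENKF.PF10

set_option autoImplicit false

namespace Pool.Agent.PENK

open Finset Pool.Agent.PENT

theorem pf14_ich_nonneg (a : Prop) : 0 ≤ ich a := by
  unfold ich
  split_ifs <;> norm_num

theorem pf14_ich_le (a : Prop) : ich a ≤ 1 := by
  unfold ich
  split_ifs <;> norm_num

theorem pf14_ich_and (a b : Prop) : ich (a ∧ b) = ich a * ich b := by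
  unfold ich
  by_cases ha : a <;> by_cases hb : b <;> simp [ha, hb]

theorem pf14_ich_congr {a b : Prop} (h : a ↔ b) : ich a = ich b := by
  rw [propext h]

theorem pf14_ich_sum (s : Finset (ℤ × ℤ)) (P : ℤ × ℤ → Prop) [DecidablePred P] :
    ∑ x ∈ s, ich (P x) = ((s.filter P).card : ℝ) := by
  classical
  rw [Finset.card_filter]
  push_cast
  refine Finset.sum_congr rfl fun x _ => ?_
  unfold ich
  by_cases h : P x <;> simp [h]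

/-- fibres have at most `p` elements -/
theorem pf14_fib {p : ℕ} (hp : p.Prime) (a : ℤ × ℤ) {δ : ℤ} (hδ : ¬ (p : ℤ) ∣ δ) :
    ∑ b ∈ L1 p, ich ((p : ℤ) ∣ dt a b - δ) ≤ p := by
  rw [pf14_ich_sum]
  by_cases ha : (p : ℤ) ∣ a.1 ∧ (p : ℤ) ∣ a.2
  · have : (L1 p).filter (fun b => (p : ℤ) ∣ dt a b - δ) = ∅ := by
      rw [Finset.filter_eq_empty_iff]
      intro b _ hb
      apply hδ
      have h1 : (p : ℤ) ∣ dt a b := by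
        unfold dt
        exact dvd_sub (ha.1.mul_right _) (ha.2.mul_right _)
      have h2 := dvd_sub h1 hb
      simpa using h2
    rw [this]
    simp
  · rw [fib_card hp ha δ]

/-- the line of `a` has `p` elements -/
theorem pf14_lin {p : ℕ} (hp : p.Prime) {a : ℤ × ℤ} (ha : ¬ ((p : ℤ) ∣ a.1 ∧ (p : ℤ) ∣ a.2)) :
    ∑ b ∈ L1 p, ich ((p : ℤ) ∣ dt a b) = p := by
  have h := fib_card hp ha 0
  have h2 : ∑ b ∈ L1 p, ich ((p : ℤ) ∣ dt a b) = ∑ b ∈ L1 p, ich ((p : ℤ) ∣ dt a b - 0) := by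
    refine Finset.sum_congr rfl fun b _ => ?_
    rw [sub_zero]
  rw [h2, pf14_ich_sum, h]

theorem pf14_swap (a b : ℤ × ℤ) : dt b a = -dt a b := by
  unfold dt
  ring

theorem pf14_lin' {p : ℕ} (hp : p.Prime) {a : ℤ × ℤ} (ha : ¬ ((p : ℤ) ∣ a.1 ∧ (p : ℤ) ∣ a.2)) :
    ∑ b ∈ L1 p, ich ((p : ℤ) ∣ dt b a) = p := by
  rw [← pf14_lin hp ha]
  refine Finset.sum_congr rfl fun b _ => pf14_ich_congr ?_
  rw [pf14_swap a b, dvd_neg]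

/-- both vectors of a pair are nonzero -/
theorem pf14_nz {p : ℕ} {δ : ℤ} (hδ : ¬ (p : ℤ) ∣ δ) {v : (ℤ × ℤ) × (ℤ × ℤ)}
    (hv : v ∈ L2 δ p) : ¬ ((p : ℤ) ∣ v.1.1 ∧ (p : ℤ) ∣ v.1.2) ∧
      ¬ ((p : ℤ) ∣ v.2.1 ∧ (p : ℤ) ∣ v.2.2) := by
  unfold L2 at hv
  rw [Finset.mem_filter] at hv
  obtain ⟨_, h⟩ := hv
  unfold dt at h
  constructor
  · rintro ⟨h1, h2⟩
    apply hδ
    have h3 : (p : ℤ) ∣ v.1.1 * v.2.2 - v.1.2 * v.2.1 :=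
      dvd_sub (h1.mul_right _) (h2.mul_right _)
    have h4 := dvd_sub h3 h
    simpa using h4
  · rintro ⟨h1, h2⟩
    apply hδ
    have h3 : (p : ℤ) ∣ v.1.1 * v.2.2 - v.1.2 * v.2.1 :=
      dvd_sub (h2.mul_left _) (h1.mul_left _)
    have h4 := dvd_sub h3 h
    simpa using h4

/-- sums over `L2` -/
theorem pf14_L2sum (δ : ℤ) (p : ℕ) (f : (ℤ × ℤ) × (ℤ × ℤ) → ℝ) :
    ∑ v ∈ L2 δ p, f v = ∑ x ∈ L1 p, ∑ y ∈ L1 p, ich ((p : ℤ) ∣ dt x y - δ) * f (x, y) := by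
  unfold L2
  rw [Finset.sum_filter, Finset.sum_product]
  refine Finset.sum_congr rfl fun x _ => Finset.sum_congr rfl fun y _ => ?_
  unfold ich
  by_cases h : (p : ℤ) ∣ dt x y - δ <;> simp [h]

theorem pf14_line1 {p : ℕ} (hp : p.Prime) {a : ℤ × ℤ} (ha : ¬ ((p : ℤ) ∣ a.1 ∧ (p : ℤ) ∣ a.2))
    {δ : ℤ} (hδ : ¬ (p : ℤ) ∣ δ) :
    ∑ w ∈ L2 δ p, ich ((p : ℤ) ∣ dt a w.1) ≤ (p : ℝ) ^ 2 := by
  rw [pf14_L2sum]
  calc ∑ x ∈ L1 p, ∑ y ∈ L1 p, ich ((p : ℤ) ∣ dt x y - δ) * ich ((p : ℤ) ∣ dt a x)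
      = ∑ x ∈ L1 p, (∑ y ∈ L1 p, ich ((p : ℤ) ∣ dt x y - δ)) * ich ((p : ℤ) ∣ dt a x) := by
        refine Finset.sum_congr rfl fun x _ => ?_
        rw [Finset.sum_mul]
    _ ≤ ∑ x ∈ L1 p, (p : ℝ) * ich ((p : ℤ) ∣ dt a x) :=
        Finset.sum_le_sum fun x _ =>
          mul_le_mul_of_nonneg_right (pf14_fib hp x hδ) (pf14_ich_nonneg _)
    _ = (p : ℝ) ^ 2 := by
        rw [← Finset.mul_sum, pf14_lin hp ha]
        ring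

theorem pf14_line2 {p : ℕ} (hp : p.Prime) {a : ℤ × ℤ} (ha : ¬ ((p : ℤ) ∣ a.1 ∧ (p : ℤ) ∣ a.2))
    {δ : ℤ} (hδ : ¬ (p : ℤ) ∣ δ) :
    ∑ w ∈ L2 δ p, ich ((p : ℤ) ∣ dt a w.2) ≤ (p : ℝ) ^ 2 := by
  rw [pf14_L2sum, Finset.sum_comm]
  have hδ' : ¬ (p : ℤ) ∣ -δ := by rwa [dvd_neg]
  calc ∑ y ∈ L1 p, ∑ x ∈ L1 p, ich ((p : ℤ) ∣ dt x y - δ) * ich ((p : ℤ) ∣ dt a y)
      = ∑ y ∈ L1 p, (∑ x ∈ L1 p, ich ((p : ℤ) ∣ dt y x - -δ)) * ich ((p : ℤ) ∣ dt a y) := by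
        refine Finset.sum_congr rfl fun y _ => ?_
        rw [Finset.sum_mul]
        refine Finset.sum_congr rfl fun x _ => ?_
        have h : ich ((p : ℤ) ∣ dt x y - δ) = ich ((p : ℤ) ∣ dt y x - -δ) := by
          apply pf14_ich_congr
          rw [pf14_swap x y, ← dvd_neg]
          have : -(dt x y - δ) = -dt x y - -δ := by ring
          rw [this]
        rw [h]
    _ ≤ ∑ y ∈ L1 p, (p : ℝ) * ich ((p : ℤ) ∣ dt a y) :=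
        Finset.sum_le_sum fun y _ =>
          mul_le_mul_of_nonneg_right (pf14_fib hp y hδ') (pf14_ich_nonneg _)
    _ = (p : ℝ) ^ 2 := by
        rw [← Finset.mul_sum, pf14_lin hp ha]
        ring

theorem pf14_line1' {p : ℕ} (hp : p.Prime) {a : ℤ × ℤ} (ha : ¬ ((p : ℤ) ∣ a.1 ∧ (p : ℤ) ∣ a.2))
    {δ : ℤ} (hδ : ¬ (p : ℤ) ∣ δ) :
    ∑ w ∈ L2 δ p, ich ((p : ℤ) ∣ dt w.1 a) ≤ (p : ℝ) ^ 2 := by
  refine le_trans (le_of_eq ?_) (pf14_line1 hp ha hδ)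
  refine Finset.sum_congr rfl fun w _ => pf14_ich_congr ?_
  rw [pf14_swap a w.1, dvd_neg]

theorem pf14_line2' {p : ℕ} (hp : p.Prime) {a : ℤ × ℤ} (ha : ¬ ((p : ℤ) ∣ a.1 ∧ (p : ℤ) ∣ a.2))
    {δ : ℤ} (hδ : ¬ (p : ℤ) ∣ δ) :
    ∑ w ∈ L2 δ p, ich ((p : ℤ) ∣ dt w.2 a) ≤ (p : ℝ) ^ 2 := by
  refine le_trans (le_of_eq ?_) (pf14_line2 hp ha hδ)
  refine Finset.sum_congr rfl fun w _ => pf14_ich_congr ?_
  rw [pf14_swap a w.2, dvd_neg]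

theorem pf14_L1card (p : ℕ) : ((L1 p).card : ℝ) = (p : ℝ) ^ 2 := by
  unfold L1
  rw [Finset.card_product, Int.card_Ico]
  simp
  ring

theorem pf14_L2card {p : ℕ} (hp : p.Prime) {δ : ℤ} (hδ : ¬ (p : ℤ) ∣ δ) :
    ((L2 δ p).card : ℝ) = p * ((p : ℝ) ^ 2 - 1) := by
  have h := L2_card hp hδ
  exact_mod_cast congrArg (Int.cast : ℤ → ℝ) h

theorem pf14_card {p : ℕ} (hp : p.Prime) {δ1 δ4 : ℤ} (h1 : ¬ (p : ℤ) ∣ δ1)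
    (h4 : ¬ (p : ℤ) ∣ δ4) : ((Law5 δ1 δ4 p).card : ℝ) =
      (p * ((p : ℝ) ^ 2 - 1)) ^ 2 * (p : ℝ) ^ 2 := by
  have h := Law5_sum δ1 δ4 p (fun _ => 1)
  simp only [Finset.sum_const, nsmul_eq_mul, mul_one] at h
  rw [h, pf14_L1card, pf14_L2card hp h1, pf14_L2card hp h4]
  ring

theorem pf14_mem : ∀ i : Fin 5, i ∈ ivr 5 → i = 2 ∨ i = 3 ∨ i = 4 := by
  unfold ivr
  decide

theorem pf14_mono {a b : Prop} (h : a → b) : ich a ≤ ich b := by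
  unfold ich
  by_cases ha : a
  · have hb := h ha
    simp [ha, hb]
  · simp only [ha, if_false]
    split_ifs <;> norm_num

/-- vertices `2` and `3` -/
theorem pf14_23 {p : ℕ} (hp : p.Prime) {δ1 δ4 : ℤ} (h1 : ¬ (p : ℤ) ∣ δ1)
    (h4 : ¬ (p : ℤ) ∣ δ4) :
    ∑ u ∈ Law5 δ1 δ4 p, ich ((p : ℤ) ∣ dt (u 2) (u 3)) ≤
      (p * ((p : ℝ) ^ 2 - 1)) * ((p * ((p : ℝ) ^ 2 - 1)) * p) := by
  rw [Law5_sum]
  have hterm : ∀ v ∈ L2 δ1 p, ∑ w ∈ L2 δ4 p, ∑ c ∈ L1 p,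
      ich ((p : ℤ) ∣ dt ((![w.2, v.1, v.2, c, w.1] : PolyK 5) 2)
        ((![w.2, v.1, v.2, c, w.1] : PolyK 5) 3)) ≤ (p * ((p : ℝ) ^ 2 - 1)) * p := by
    intro v hv
    obtain ⟨hv1, hv2⟩ := pf14_nz h1 hv
    have e : ∀ w ∈ L2 δ4 p, ∑ c ∈ L1 p,
      ich ((p : ℤ) ∣ dt ((![w.2, v.1, v.2, c, w.1] : PolyK 5) 2)
        ((![w.2, v.1, v.2, c, w.1] : PolyK 5) 3)) = (p : ℝ) := by
      intro w _
      rw [← pf14_lin hp hv2]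
      rfl
    rw [Finset.sum_congr rfl e, Finset.sum_const, nsmul_eq_mul, pf14_L2card hp h4]
  refine (Finset.sum_le_sum hterm).trans (le_of_eq ?_)
  rw [Finset.sum_const, nsmul_eq_mul, pf14_L2card hp h1]

/-- vertices `3` and `4` -/
theorem pf14_34 {p : ℕ} (hp : p.Prime) {δ1 δ4 : ℤ} (h1 : ¬ (p : ℤ) ∣ δ1)
    (h4 : ¬ (p : ℤ) ∣ δ4) :
    ∑ u ∈ Law5 δ1 δ4 p, ich ((p : ℤ) ∣ dt (u 3) (u 4)) ≤
      (p * ((p : ℝ) ^ 2 - 1)) * ((p * ((p : ℝ) ^ 2 - 1)) * p) := by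
  rw [Law5_sum]
  have hterm : ∀ v ∈ L2 δ1 p, ∑ w ∈ L2 δ4 p, ∑ c ∈ L1 p,
      ich ((p : ℤ) ∣ dt ((![w.2, v.1, v.2, c, w.1] : PolyK 5) 3)
        ((![w.2, v.1, v.2, c, w.1] : PolyK 5) 4)) ≤ (p * ((p : ℝ) ^ 2 - 1)) * p := by
    intro v hv
    have e : ∀ w ∈ L2 δ4 p, ∑ c ∈ L1 p,
      ich ((p : ℤ) ∣ dt ((![w.2, v.1, v.2, c, w.1] : PolyK 5) 3)
        ((![w.2, v.1, v.2, c, w.1] : PolyK 5) 4)) = (p : ℝ) := by
      intro w hw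
      obtain ⟨hw1, hw2⟩ := pf14_nz h4 hw
      rw [← pf14_lin' hp hw1]
      rfl
    rw [Finset.sum_congr rfl e, Finset.sum_const, nsmul_eq_mul, pf14_L2card hp h4]
  refine (Finset.sum_le_sum hterm).trans (le_of_eq ?_)
  rw [Finset.sum_const, nsmul_eq_mul, pf14_L2card hp h1]

/-- vertices `2` and `4` -/
theorem pf14_24 {p : ℕ} (hp : p.Prime) {δ1 δ4 : ℤ} (h1 : ¬ (p : ℤ) ∣ δ1)
    (h4 : ¬ (p : ℤ) ∣ δ4) :
    ∑ u ∈ Law5 δ1 δ4 p, ich ((p : ℤ) ∣ dt (u 2) (u 4)) ≤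
      (p * ((p : ℝ) ^ 2 - 1)) * (p : ℝ) ^ 4 := by
  rw [Law5_sum]
  have hterm : ∀ v ∈ L2 δ1 p, ∑ w ∈ L2 δ4 p, ∑ c ∈ L1 p,
      ich ((p : ℤ) ∣ dt ((![w.2, v.1, v.2, c, w.1] : PolyK 5) 2)
        ((![w.2, v.1, v.2, c, w.1] : PolyK 5) 4)) ≤ (p : ℝ) ^ 4 := by
    intro v hv
    obtain ⟨hv1, hv2⟩ := pf14_nz h1 hv
    have e : ∀ w ∈ L2 δ4 p, ∑ c ∈ L1 p,
      ich ((p : ℤ) ∣ dt ((![w.2, v.1, v.2, c, w.1] : PolyK 5) 2)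
        ((![w.2, v.1, v.2, c, w.1] : PolyK 5) 4)) = (p : ℝ) ^ 2 * ich ((p : ℤ) ∣ dt v.2 w.1) := by
      intro w _
      rw [← pf14_L1card p, ← nsmul_eq_mul, ← Finset.sum_const]
      rfl
    rw [Finset.sum_congr rfl e, ← Finset.mul_sum]
    calc (p : ℝ) ^ 2 * ∑ w ∈ L2 δ4 p, ich ((p : ℤ) ∣ dt v.2 w.1) ≤ (p : ℝ) ^ 2 * (p : ℝ) ^ 2 :=
          mul_le_mul_of_nonneg_left (pf14_line1 hp hv2 h4) (by positivity)
      _ = (p : ℝ) ^ 4 := by ring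
  refine (Finset.sum_le_sum hterm).trans (le_of_eq ?_)
  rw [Finset.sum_const, nsmul_eq_mul, pf14_L2card hp h1]

/-- the frame identity -/
theorem pf14_frame (u : PolyK 5) (i j : Fin 5) :
    dt (cv u i) (cv u j) = dl u 0 * dt (u i) (u j) := by
  have h : dl u 0 = dt (u 0) (u 1) := rfl
  rw [h]
  simp only [cv, dt]
  ring

/-- a prime which does not divide `bad` does not divide `dl_0` -/
theorem pf14_bad {p : ℕ} {u : PolyK 5} (h : ¬ (p : ℤ) ∣ bad u) : ¬ (p : ℤ) ∣ dl u 0 := by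
  intro h0
  apply h
  have hm : (0 : Fin 5) ∈ inr 5 := by
    unfold inr
    decide
  have h1 : dn u 0 ∣ bad u := Finset.dvd_prod_of_mem (dn u) hm
  have h2 : (p : ℤ) ∣ (dn u 0 : ℤ) := by
    unfold dn
    exact (Int.dvd_natAbs).2 h0
  exact h2.trans (Int.natCast_dvd_natCast.2 h1)

/-- BLOCK PF14 (uses PF10): `c_i`, `c_j` parallel (`p ∤ dl_0`: `u_i, u_j` parallel) -/
theorem law_d_pr : ∃ C : ℝ, 0 ≤ C ∧ ∀ p : ℕ, p.Prime → 2 < p → ∀ δ1 δ4 : ℤ, ¬ (p : ℤ) ∣ δ1 →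
    ¬ (p : ℤ) ∣ δ4 → ∀ i ∈ ivr 5, ∀ j ∈ ivr 5, i ≠ j →
    mL (Law5 δ1 δ4 p) (fun u => ich (¬ (p : ℤ) ∣ bad u ∧ (p : ℤ) ∣ dt (cv u i) (cv u j))) ≤
      C / p := by
  refine ⟨3, by norm_num, ?_⟩
  intro p hp h2 δ1 δ4 h1 h4
  have hp3 : (3 : ℝ) ≤ p := by exact_mod_cast h2
  have hN : 8 / 9 * (p : ℝ) ^ 3 ≤ p * ((p : ℝ) ^ 2 - 1) := by
    nlinarith [mul_nonneg (by linarith : (0 : ℝ) ≤ p) (by nlinarith : (0 : ℝ) ≤ (p : ℝ) ^ 2 - 9)]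
  have hp3pos : (0 : ℝ) < (p : ℝ) ^ 3 := by positivity
  have hp0 : (0 : ℝ) < p := by linarith
  set N : ℝ := p * ((p : ℝ) ^ 2 - 1) with hNdef
  have hNpos : 0 < N := by linarith
  have key : ∀ i j : Fin 5, (i = 2 ∧ j = 3) ∨ (i = 3 ∧ j = 4) ∨ (i = 2 ∧ j = 4) →
      ∑ u ∈ Law5 δ1 δ4 p, ich ((p : ℤ) ∣ dt (u i) (u j)) ≤ 3 * N ^ 2 * p := by
    intro i j hij
    have hNN : 0 ≤ N ^ 2 * p := by positivity
    rcases hij with ⟨rfl, rfl⟩ | ⟨rfl, rfl⟩ | ⟨rfl, rfl⟩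
    · refine (pf14_23 hp h1 h4).trans ?_
      rw [← hNdef]
      nlinarith
    · refine (pf14_34 hp h1 h4).trans ?_
      rw [← hNdef]
      nlinarith
    · refine (pf14_24 hp h1 h4).trans ?_
      rw [← hNdef]
      have e4 : (p : ℝ) ^ 4 = (p : ℝ) ^ 3 * p := by ring
      rw [e4]
      have h5 : (p : ℝ) ^ 3 ≤ 3 * N := by linarith
      calc N * ((p : ℝ) ^ 3 * p) = (p : ℝ) ^ 3 * (N * p) := by ring
        _ ≤ 3 * N * (N * p) := mul_le_mul_of_nonneg_right h5 (by positivity)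
        _ = 3 * N ^ 2 * p := by ring
  have key2 : ∀ i j : Fin 5, ((i = 2 ∧ j = 3) ∨ (i = 3 ∧ j = 4) ∨ (i = 2 ∧ j = 4)) ∨
      ((j = 2 ∧ i = 3) ∨ (j = 3 ∧ i = 4) ∨ (j = 2 ∧ i = 4)) →
      ∑ u ∈ Law5 δ1 δ4 p, ich ((p : ℤ) ∣ dt (u i) (u j)) ≤ 3 * N ^ 2 * p := by
    intro i j hij
    rcases hij with hij | hij
    · exact key i j hij
    · refine le_trans (le_of_eq ?_) (key j i hij)
      refine Finset.sum_congr rfl fun u _ => pf14_ich_congr ?_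
      rw [pf14_swap (u j) (u i), dvd_neg]
  intro i hi j hj hij
  have hS : ∑ u ∈ Law5 δ1 δ4 p, ich ((p : ℤ) ∣ dt (u i) (u j)) ≤ 3 * N ^ 2 * p := by
    apply key2
    rcases pf14_mem i hi with h | h | h <;> rcases pf14_mem j hj with h' | h' | h' <;>
      subst h <;> subst h' <;> simp at hij ⊢
  have hS2 : ∑ u ∈ Law5 δ1 δ4 p, ich (¬ (p : ℤ) ∣ bad u ∧ (p : ℤ) ∣ dt (cv u i) (cv u j)) ≤
      3 * N ^ 2 * p := by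
    refine le_trans (Finset.sum_le_sum fun u _ => pf14_mono ?_) hS
    rintro ⟨hb, hd⟩
    rw [pf14_frame] at hd
    have hpz : Prime (p : ℤ) := Nat.prime_iff_prime_int.1 hp
    exact (hpz.dvd_or_dvd hd).resolve_left (pf14_bad hb)
  unfold mL
  rw [pf14_card hp h1 h4, ← hNdef, div_le_div_iff₀ (by positivity) hp0]
  calc (∑ u ∈ Law5 δ1 δ4 p, ich (¬ (p : ℤ) ∣ bad u ∧ (p : ℤ) ∣ dt (cv u i) (cv u j))) * p
      ≤ 3 * N ^ 2 * p * p := mul_le_mul_of_nonneg_right hS2 hp0.le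
    _ = 3 * (N ^ 2 * (p : ℝ) ^ 2) := by ring

end Pool.Agent.PENK

namespace Pool.Agent.PENK

theorem law_d : type_of% @law_d_pr := @law_d_pr

end Pool.Agent.PENK
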