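import Pool.Agent.Lib_helper18.PENK.Defs2
import Pool.Agent.Lib_helper18.PENKF.DefsW
import Pool.Agent.Lib_helper18.PENKF.PF10
import Pool.Agent.Lib_helper18.PENKF.PF11
import Pool.Agent.Lib_helper18.PENKF.PF12
import Pool.Agent.Lib_helper18.PENKF.PF13
import Pool.Agent.Lib_helper18.PENKF.PF14

/-! PENK (MP_892e4c_nt), block PF15 (helper67) -/

set_option autoImplicit false

namespace Pool.Agent.PENK

open Finset Pool.Agent.PENT

theorem pf15_ne {p : ℕ} (hp : p.Prime) {δ1 δ4 : ℤ} (h1 : ¬ (p : ℤ) ∣ δ1) (h4 : ¬ (p : ℤ) ∣ δ4) :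
    (Law5 δ1 δ4 p).Nonempty := by
  have hc : ∀ δ : ℤ, ¬ (p : ℤ) ∣ δ → (L2 δ p).card ≠ 0 := by
    intro δ hδ h0
    have h := L2_card hp hδ
    rw [h0] at h
    have hp2 : (2 : ℤ) ≤ p := by exact_mod_cast hp.two_le
    have : (0 : ℤ) < p * (p ^ 2 - 1) := by
      apply mul_pos (by linarith)
      nlinarith
    simp only [Nat.cast_zero] at h
    omega
  have hL1 : (L1 p).card ≠ 0 := by
    rw [L1, card_product, Int.card_Ico]
    have := hp.pos
    simp only [sub_zero, Int.toNat_natCast]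
    positivity
  rw [nonempty_iff_ne_empty]
  intro h0
  have h := Law5_sum δ1 δ4 p (fun _ => 1)
  rw [h0, sum_empty] at h
  simp only [sum_const, nsmul_eq_mul, mul_one] at h
  have h3 : ((L2 δ1 p).card : ℝ) * (((L2 δ4 p).card : ℝ) * ((L1 p).card : ℝ)) ≠ 0 :=
    mul_ne_zero (by exact_mod_cast hc δ1 h1)
      (mul_ne_zero (by exact_mod_cast hc δ4 h4) (by exact_mod_cast hL1))
  exact h3 h.symm

/-- BLOCK PF15 (uses PF10 - PF14) -/
theorem law_locF_pr : ∃ C : ℝ, 0 ≤ C ∧ ∀ p : ℕ, p.Prime → 2 < p → ∀ δ1 δ4 : ℤ, ¬ (p : ℤ) ∣ δ1 →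
    ¬ (p : ℤ) ∣ δ4 → LocF ∅ p (Law5 δ1 δ4 p) C := by
  obtain ⟨Ca, hCa, ha⟩ := law_a
  obtain ⟨Cb, hCb, hb⟩ := law_b
  obtain ⟨Cc, hCc, hc⟩ := law_c
  obtain ⟨Cd, hCd, hd⟩ := law_d
  refine ⟨Ca + Cb + Cc + Cd, by positivity, ?_⟩
  intro p hp h2 δ1 δ4 h1 h4
  have hp0 : (0 : ℝ) < p := by exact_mod_cast hp.pos
  have mono : ∀ c : ℝ, c ≤ Ca + Cb + Cc + Cd → c / (p : ℝ) ≤ (Ca + Cb + Cc + Cd) / p := by
    intro c h
    gcongr
  have mono2 : ∀ c : ℝ, c ≤ Ca + Cb + Cc + Cd →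
      c / (p : ℝ) ^ 2 ≤ (Ca + Cb + Cc + Cd) / (p : ℝ) ^ 2 := by
    intro c h
    gcongr
  refine ⟨pf15_ne hp h1 h4, ?_, ?_, ?_, ?_, ?_, ?_, ?_, ?_⟩
  · intro j hj
    have hj' : j ∈ inr 5 := (mem_sdiff.mp hj).1
    have := (ha p hp h2 δ1 δ4 h1 h4 j hj').1
    have := mono2 Ca (by linarith)
    linarith
  · intro j hj
    have hj' : j ∈ inr 5 := (mem_sdiff.mp hj).1
    exact ((ha p hp h2 δ1 δ4 h1 h4 j hj').2).trans (mono Ca (by linarith))
  · intro i hi j hj hij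
    exact (hb p hp h2 δ1 δ4 h1 h4 i (mem_sdiff.mp hi).1 j (mem_sdiff.mp hj).1 hij).trans
      (mono2 Cb (by linarith))
  · intro k hk v hv
    exact (hc p hp h2 δ1 δ4 h1 h4 k hk v hv).trans (mono Cc (by linarith))
  · intro i hi j hj hij
    exact (hd p hp h2 δ1 δ4 h1 h4 i hi j hj hij).trans (mono Cd (by linarith))
  · intro u hu h
    have h' := ((mem_filter.mp hu).2).1
    exact h1 (by
      have : δ1 = dl u 1 - (dl u 1 - δ1) := by ring
      rw [this]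
      exact dvd_sub h h')
  · intro u hu h
    have h' := ((mem_filter.mp hu).2).2
    have e : (-1 : Fin 5) = 4 := by decide
    rw [e] at h
    exact h4 (by
      have : δ4 = dl u 4 - (dl u 4 - δ4) := by ring
      rw [this]
      exact dvd_sub h h')
  · intro u _ j hj
    exact absurd hj (notMem_empty j)

end Pool.Agent.PENK

namespace Pool.Agent.PENK

theorem law_locF : type_of% @law_locF_pr := @law_locF_pr

end Pool.Agent.PENK
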