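import Pool.Agent.Lib_helper18.PENK.Defs2
import Pool.Agent.Lib_helper18.PENKF.DefsW
import Pool.Agent.Lib_helper18.PENKF.PF2
import Pool.Agent.Lib_helper18.PENKF.PF5
import Pool.Agent.Lib_helper18.PENKF.PF6

/-! PENK block PF7 (helper83) -/

set_option autoImplicit false

namespace Pool.Agent.PENK

open Finset Pool.Agent.PENT

theorem pf7_sum_Ico (p : ℕ) (F : ℤ → ℝ) :
    ∑ s ∈ Ico (0 : ℤ) p, F s = ∑ a ∈ range p, F (a : ℤ) := by
  symm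
  apply Finset.sum_nbij' (fun a : ℕ => (a : ℤ)) (fun s : ℤ => s.toNat)
  · intro a ha
    rw [Finset.mem_range] at ha
    rw [Finset.mem_Ico]
    omega
  · intro s hs
    rw [Finset.mem_Ico] at hs
    rw [Finset.mem_range]
    omega
  · intro a _
    simp
  · intro s hs
    rw [Finset.mem_Ico] at hs
    exact Int.toNat_of_nonneg hs.1
  · intro a _
    rfl

theorem pf7_mG_L1 (p : ℕ) (h : ℤ × ℤ → ℝ) :
    mG (L1 p) h = av p (fun s t => h (s, t)) := by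
  unfold mG av L1
  rw [Finset.card_product, Int.card_Ico, sub_zero, Int.toNat_natCast, Finset.sum_product,
    pf7_sum_Ico]
  push_cast
  rw [pow_two]
  congr 1
  apply Finset.sum_congr rfl
  intro a _
  exact pf7_sum_Ico p (fun t => h ((a : ℤ), t))

theorem pf7_sq_card (A : ℕ) : ((sq A).card : ℝ) = (2 * (A : ℝ) + 1) ^ 2 := by
  unfold sq
  rw [Finset.card_product, Int.card_Icc]
  have : ((A : ℤ) + 1 - -(A : ℤ)).toNat = 2 * A + 1 := by omega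
  rw [this]
  push_cast
  ring

/-- the square -/
theorem pf7_sq (A : ℕ) (T : Finset ℕ) (h : ℕ → ℤ × ℤ → ℝ)
    (hT : ∀ p ∈ T, p.Prime) (hper : ∀ p ∈ T, ∀ v w, cg1 p v w → h p v = h p w)
    (h01 : ∀ p ∈ T, ∀ v, 0 ≤ h p v ∧ h p v ≤ 1) :
    |∑ a ∈ sq A, ∏ p ∈ T, h p a - (sq A).card * ∏ p ∈ T, mG (L1 p) (h p)| ≤
      2 * ((∏ p ∈ T, p : ℕ) : ℝ) * (2 * A + 1) + ((∏ p ∈ T, p : ℕ) : ℝ) ^ 2 := by
  set Q : ℕ := ∏ p ∈ T, p with hQ
  have hQ0 : 0 < Q := Finset.prod_pos (fun p hp => (hT p hp).pos)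
  have h1 := av_prod (q := 1) one_pos (f := fun _ _ => 1) (fun _ _ _ _ _ _ => rfl) T
    (fun p => p) (fun p s t => h p (s, t)) (fun p hp => (hT p hp).pos)
    (fun p _ => Nat.coprime_one_left p)
    (fun p hp p' hp' hne => (Nat.coprime_primes (hT p hp) (hT p' hp')).2 hne)
    (fun p hp s t s' t' hs ht => hper p hp _ _ ⟨hs, ht⟩)
  obtain ⟨h2, h3⟩ := h1
  have h4 := box_av (m := 1 * ∏ p ∈ T, p) (by rw [one_mul]; exact hQ0) h2
    (fun s t => by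
      rw [one_mul]
      exact ⟨Finset.prod_nonneg (fun p hp => (h01 p hp _).1),
        Finset.prod_le_one (fun p hp => (h01 p hp _).1) (fun p hp => (h01 p hp _).2)⟩)
    (-(A : ℤ) - 1) A (-(A : ℤ) - 1) A (by omega) (by omega)
  rw [h3] at h4
  have e1 : Finset.Ioc (-(A : ℤ) - 1) A = Finset.Icc (-(A : ℤ)) A := by
    ext s
    rw [Finset.mem_Ioc, Finset.mem_Icc]
    omega
  have e2 : av 1 (fun _ _ => (1 : ℝ)) = 1 := by
    unfold av
    simp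
  rw [e1, e2, one_mul] at h4
  have e3 : ∑ a ∈ sq A, ∏ p ∈ T, h p a =
      ∑ s ∈ Finset.Icc (-(A : ℤ)) A, ∑ t ∈ Finset.Icc (-(A : ℤ)) A, 1 * ∏ p ∈ T, h p (s, t) := by
    unfold sq
    rw [Finset.sum_product]
    simp only [one_mul]
  rw [e3, pf7_sq_card, Finset.prod_congr rfl (fun p _ => pf7_mG_L1 p (h p))]
  have e4 : (((A : ℤ) - (-(A : ℤ) - 1) : ℤ) : ℝ) = 2 * (A : ℝ) + 1 := by
    push_cast
    ring
  rw [e4, one_mul] at h4
  have e5 : (2 * (A : ℝ) + 1) ^ 2 = (2 * (A : ℝ) + 1) * (2 * (A : ℝ) + 1) := by ring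
  rw [e5]
  refine h4.trans (le_of_eq ?_)
  ring

/-- the estimate of the pairs -/
theorem pf7_pair {ε : ℝ} (hε : 0 < ε) : ∃ x₀ : ℝ, 1 ≤ x₀ ∧ ∀ x ≥ x₀, ∀ (m n : ℕ) (e e' : ℝ),
    4 * ε ≤ e → 4 * ε ≤ e' → 4 * ε ≤ |e - e'| → x ^ e / 2 ≤ (2 : ℝ) ^ m →
    (2 : ℝ) ^ m ≤ x ^ (e + ε / 50) → x ^ e' / 2 ≤ (2 : ℝ) ^ n →
    (2 : ℝ) ^ n ≤ x ^ (e' + ε / 50) → ∀ (δ : ℤ) (S : Finset ℕ),
    (∀ p ∈ S, p.Prime ∧ ¬ (p : ℤ) ∣ δ) →
    EquiG (OP (2 ^ (min m n + 1)) (4 * 2 ^ (max m n - min m n))) (pP δ) cg2 (L2 δ) S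
      (x ^ ε) (x ^ (-ε) / 3) := by
  obtain ⟨C, hC, hpair⟩ := pair_equi
  obtain ⟨A₀, hA₀, hcard, _⟩ := pr_card
  set M : ℝ := 3456 * C + A₀ + 2 with hM
  have hM1 : 1 ≤ M := by
    rw [hM]
    have : (0 : ℝ) ≤ A₀ := Nat.cast_nonneg _
    nlinarith
  refine ⟨M ^ (2 / ε), Real.one_le_rpow hM1 (by positivity), ?_⟩
  intro x hx m n e e' he he' hee hm1 hm2 hn1 hn2 δ S hS
  have hx1 : 1 ≤ x := (Real.one_le_rpow hM1 (by positivity)).trans hx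
  have hx0 : 0 < x := by linarith
  have hxM : M ≤ x ^ (ε / 2) := by
    have h1 : (M ^ (2 / ε)) ^ (ε / 2) ≤ x ^ (ε / 2) :=
      Real.rpow_le_rpow (by positivity) hx (by positivity)
    rw [← Real.rpow_mul (by linarith), show 2 / ε * (ε / 2) = 1 by field_simp,
      Real.rpow_one] at h1
    exact h1
  set A : ℕ := 2 ^ (min m n + 1) with hA
  set k : ℕ := 4 * 2 ^ (max m n - min m n) with hk
  have hA1 : 1 ≤ A := Nat.one_le_two_pow
  -- sizes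
  have hAx : x ^ (4 * ε) ≤ (A : ℝ) := by
    have h1 : x ^ (4 * ε) / 2 ≤ (2 : ℝ) ^ (min m n) := by
      rcases min_choice m n with h | h <;> rw [h]
      · refine le_trans ?_ hm1
        have := Real.rpow_le_rpow_of_exponent_le hx1 he
        linarith
      · refine le_trans ?_ hn1
        have := Real.rpow_le_rpow_of_exponent_le hx1 he'
        linarith
    rw [hA]
    push_cast
    rw [pow_succ]
    linarith
  have hkx : x ^ (3 * ε) ≤ (2 : ℝ) ^ (max m n - min m n) * 2 := by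
    have key : ∀ (a b : ℕ) (f f' : ℝ), 4 * ε ≤ f - f' → x ^ f / 2 ≤ (2 : ℝ) ^ a →
        (2 : ℝ) ^ b ≤ x ^ (f' + ε / 50) → x ^ (3 * ε) * 2 ^ b ≤ 2 ^ a * 2 := by
      intro a b f f' hf h1 h2
      calc x ^ (3 * ε) * 2 ^ b ≤ x ^ (3 * ε) * x ^ (f' + ε / 50) :=
            mul_le_mul_of_nonneg_left h2 (by positivity)
        _ = x ^ (3 * ε + (f' + ε / 50)) := (Real.rpow_add hx0 _ _).symm
        _ ≤ x ^ f := Real.rpow_le_rpow_of_exponent_le hx1 (by linarith)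
        _ ≤ 2 ^ a * 2 := by linarith
    have hmM : (2 : ℝ) ^ (max m n - min m n) * 2 ^ (min m n) = 2 ^ (max m n) := by
      rw [← pow_add]
      congr 1
      have := min_le_max (a := m) (b := n)
      omega
    have h2 : x ^ (3 * ε) * 2 ^ (min m n) ≤ 2 ^ (max m n) * 2 := by
      rcases le_abs.1 hee with h | h
      · have h3 := key m n e e' h hm1 hn2
        calc x ^ (3 * ε) * 2 ^ (min m n) ≤ x ^ (3 * ε) * 2 ^ n :=
              mul_le_mul_of_nonneg_left (pow_le_pow_right₀ one_le_two (min_le_right _ _))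
                (by positivity)
          _ ≤ 2 ^ m * 2 := h3
          _ ≤ 2 ^ (max m n) * 2 := by
              have := pow_le_pow_right₀ (one_le_two : (1 : ℝ) ≤ 2) (le_max_left m n)
              linarith
      · have h3 := key n m e' e (by linarith) hn1 hm2
        calc x ^ (3 * ε) * 2 ^ (min m n) ≤ x ^ (3 * ε) * 2 ^ m :=
              mul_le_mul_of_nonneg_left (pow_le_pow_right₀ one_le_two (min_le_left _ _))
                (by positivity)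
          _ ≤ 2 ^ n * 2 := h3
          _ ≤ 2 ^ (max m n) * 2 := by
              have := pow_le_pow_right₀ (one_le_two : (1 : ℝ) ≤ 2) (le_max_right m n)
              linarith
    rw [← hmM] at h2
    have h4 : (0 : ℝ) < 2 ^ (min m n) := by positivity
    have h5 : x ^ (3 * ε) * 2 ^ (min m n) ≤
        (2 ^ (max m n - min m n) * 2) * 2 ^ (min m n) := by linarith
    exact le_of_mul_le_mul_right h5 h4
  -- powers of x
  have x1 : 1 ≤ x ^ (ε / 2) := Real.one_le_rpow hx1 (by positivity)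
  have hA0 : (0 : ℝ) < A := by exact_mod_cast hA1
  have hAA : (A₀ : ℝ) ≤ A := by
    have h1 : x ^ (ε / 2) ≤ x ^ (4 * ε) :=
      Real.rpow_le_rpow_of_exponent_le hx1 (by linarith)
    have h2 : (A₀ : ℝ) ≤ M := by
      rw [hM]
      nlinarith
    linarith
  have hpr := hcard A (by exact_mod_cast hAA)
  have hlog : 1 + Real.log A ≤ 9 * (A : ℝ) ^ (1 / 8 : ℝ) := by
    have h1 := Real.log_le_rpow_div hA0.le (show (0 : ℝ) < 1 / 8 by norm_num)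
    have h2 : 1 ≤ (A : ℝ) ^ (1 / 8 : ℝ) :=
      Real.one_le_rpow (by exact_mod_cast hA1) (by norm_num)
    have h3 : (A : ℝ) ^ (1 / 8 : ℝ) / (1 / 8) = 8 * (A : ℝ) ^ (1 / 8 : ℝ) := by ring
    rw [h3] at h1
    linarith
  have hmain : 384 * C * x ^ (3 * ε) * (1 + Real.log A) ≤ A := by
    have h1 : (A : ℝ) = A ^ (7 / 8 : ℝ) * A ^ (1 / 8 : ℝ) := by
      rw [← Real.rpow_add hA0]
      norm_num
    have h2 : x ^ (3 * ε) * x ^ (ε / 2) ≤ (A : ℝ) ^ (7 / 8 : ℝ) := by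
      rw [← Real.rpow_add hx0]
      calc x ^ (3 * ε + ε / 2) = (x ^ (4 * ε)) ^ (7 / 8 : ℝ) := by
            rw [← Real.rpow_mul hx0.le]
            congr 1
            ring
        _ ≤ (A : ℝ) ^ (7 / 8 : ℝ) := Real.rpow_le_rpow (by positivity) hAx (by norm_num)
    have h3 : 3456 * C ≤ x ^ (ε / 2) := by
      refine le_trans ?_ hxM
      rw [hM]
      have : (0 : ℝ) ≤ A₀ := Nat.cast_nonneg _
      linarith
    have h0 : (0 : ℝ) ≤ x ^ (3 * ε) := by positivity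
    have h8 : (0 : ℝ) ≤ (A : ℝ) ^ (1 / 8 : ℝ) := by positivity
    calc 384 * C * x ^ (3 * ε) * (1 + Real.log A)
        ≤ 384 * C * x ^ (3 * ε) * (9 * (A : ℝ) ^ (1 / 8 : ℝ)) :=
          mul_le_mul_of_nonneg_left hlog (by positivity)
      _ = (x ^ (3 * ε) * (3456 * C)) * (A : ℝ) ^ (1 / 8 : ℝ) := by ring
      _ ≤ (x ^ (3 * ε) * x ^ (ε / 2)) * (A : ℝ) ^ (1 / 8 : ℝ) :=
          mul_le_mul_of_nonneg_right (mul_le_mul_of_nonneg_left h3 h0) h8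
      _ ≤ (A : ℝ) ^ (7 / 8 : ℝ) * A ^ (1 / 8 : ℝ) := mul_le_mul_of_nonneg_right h2 h8
      _ = A := h1.symm
  intro T hTS hTQ h hper h01
  have hT : ∀ p ∈ T, p.Prime ∧ ¬ (p : ℤ) ∣ δ := fun p hp => hS p (hTS hp)
  refine (hpair A k δ T h hA1 hT hper h01).trans ?_
  set Q : ℝ := ((∏ p ∈ T, p : ℕ) : ℝ) with hQ
  have hQ0 : 0 ≤ Q := Nat.cast_nonneg _
  have hoc : ((OP A k).card : ℝ) = (pr A).card * (2 * (k : ℝ) + 1) := by
    unfold OP
    rw [Finset.card_product, Int.card_Icc]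
    have : ((k : ℤ) + 1 - -(k : ℤ)).toNat = 2 * k + 1 := by omega
    rw [this]
    push_cast
    ring
  rw [hoc]
  have hN0 : (0 : ℝ) ≤ ((pr A).card : ℝ) := Nat.cast_nonneg _
  have hk1 : (0 : ℝ) < 2 * (k : ℝ) + 1 := by positivity
  have hQ2 : Q ^ 2 ≤ x ^ (2 * ε) := by
    calc Q ^ 2 ≤ (x ^ ε) ^ 2 := pow_le_pow_left₀ hQ0 hTQ 2
      _ = x ^ (2 * ε) := by
          rw [← Real.rpow_natCast, ← Real.rpow_mul hx0.le]
          congr 1
          push_cast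
          ring
  have hxe : x ^ (-ε) * x ^ (3 * ε) = x ^ (2 * ε) := by
    rw [← Real.rpow_add hx0]
    congr 1
    ring
  have hlog0 : 0 ≤ 1 + Real.log A := by
    have := Real.log_nonneg (show (1 : ℝ) ≤ A by exact_mod_cast hA1)
    linarith
  have t1 : C * Q ^ 2 * A * (1 + Real.log A) * (2 * k + 1) ≤
      x ^ (-ε) / 6 * (((pr A).card : ℝ) * (2 * (k : ℝ) + 1)) := by
    have h0 : (0 : ℝ) ≤ x ^ (-ε) := by positivity
    calc C * Q ^ 2 * A * (1 + Real.log A) * (2 * k + 1)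
        ≤ C * x ^ (2 * ε) * A * (1 + Real.log A) * (2 * k + 1) := by
          apply mul_le_mul_of_nonneg_right _ hk1.le
          apply mul_le_mul_of_nonneg_right _ hlog0
          apply mul_le_mul_of_nonneg_right _ hA0.le
          exact mul_le_mul_of_nonneg_left hQ2 hC
      _ = x ^ (-ε) / 6 * ((A * (384 * C * x ^ (3 * ε) * (1 + Real.log A)) / 64) *
            (2 * (k : ℝ) + 1)) := by
          rw [← hxe]
          ring
      _ ≤ x ^ (-ε) / 6 * ((A * A / 64) * (2 * (k : ℝ) + 1)) := by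
          apply mul_le_mul_of_nonneg_left _ (by positivity)
          apply mul_le_mul_of_nonneg_right _ hk1.le
          apply div_le_div_of_nonneg_right _ (by norm_num)
          exact mul_le_mul_of_nonneg_left hmain hA0.le
      _ ≤ x ^ (-ε) / 6 * (((pr A).card : ℝ) * (2 * (k : ℝ) + 1)) := by
          apply mul_le_mul_of_nonneg_left _ (by positivity)
          apply mul_le_mul_of_nonneg_right _ hk1.le
          refine le_trans (le_of_eq ?_) hpr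
          ring
  have t2 : Q * (pr A).card ≤ x ^ (-ε) / 6 * (((pr A).card : ℝ) * (2 * (k : ℝ) + 1)) := by
    have h1 : 6 * x ^ (2 * ε) ≤ 2 * (k : ℝ) + 1 := by
      have h2 : (k : ℝ) = 4 * 2 ^ (max m n - min m n) := by
        rw [hk]
        push_cast
        ring
      have h3 : (2 : ℝ) ≤ x ^ ε := by
        have h4 : x ^ (ε / 2) ≤ x ^ ε := Real.rpow_le_rpow_of_exponent_le hx1 (by linarith)
        have h5 : (2 : ℝ) ≤ M := by
          rw [hM]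
          have : (0 : ℝ) ≤ A₀ := Nat.cast_nonneg _
          nlinarith
        linarith
      have h6 : x ^ (3 * ε) = x ^ (2 * ε) * x ^ ε := by
        rw [← Real.rpow_add hx0]
        congr 1
        ring
      have h7 : (0 : ℝ) ≤ x ^ (2 * ε) := by positivity
      rw [h2]
      nlinarith
    have h8 : Q ≤ x ^ (-ε) / 6 * (2 * (k : ℝ) + 1) := by
      have h9 : x ^ ε = x ^ (-ε) * x ^ (2 * ε) := by
        rw [← Real.rpow_add hx0]
        congr 1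
        ring
      calc Q ≤ x ^ ε := hTQ
        _ = x ^ (-ε) / 6 * (6 * x ^ (2 * ε)) := by rw [h9]; ring
        _ ≤ x ^ (-ε) / 6 * (2 * (k : ℝ) + 1) :=
            mul_le_mul_of_nonneg_left h1 (by positivity)
    calc Q * (pr A).card ≤ (x ^ (-ε) / 6 * (2 * (k : ℝ) + 1)) * (pr A).card :=
          mul_le_mul_of_nonneg_right h8 hN0
      _ = _ := by ring
  calc _ ≤ x ^ (-ε) / 6 * (((pr A).card : ℝ) * (2 * (k : ℝ) + 1)) +
        x ^ (-ε) / 6 * (((pr A).card : ℝ) * (2 * (k : ℝ) + 1)) := add_le_add t1 t2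
    _ = _ := by ring

/-- the estimate of the third vertex -/
theorem pf7_third {ε : ℝ} (hε : 0 < ε) : ∃ x₀ : ℝ, 1 ≤ x₀ ∧ ∀ x ≥ x₀, ∀ (m : ℕ) (e : ℝ),
    4 * ε ≤ e → x ^ e / 2 ≤ (2 : ℝ) ^ m → ∀ (S : Finset ℕ), (∀ p ∈ S, p.Prime) →
    EquiG (sq (2 ^ (m + 1))) (fun v => v) cg1 L1 S (x ^ ε) (x ^ (-ε) / 3) := by
  refine ⟨12 ^ (1 / ε), Real.one_le_rpow (by norm_num) (by positivity), ?_⟩
  intro x hx m e he hm S hS
  have hx1 : 1 ≤ x := (Real.one_le_rpow (by norm_num) (by positivity)).trans hx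
  have hx0 : 0 < x := by linarith
  have hx12 : (12 : ℝ) ≤ x ^ ε := by
    have h1 : ((12 : ℝ) ^ (1 / ε)) ^ ε ≤ x ^ ε := Real.rpow_le_rpow (by positivity) hx hε.le
    rw [← Real.rpow_mul (by norm_num), show 1 / ε * ε = 1 by field_simp, Real.rpow_one] at h1
    exact h1
  intro T hTS hTQ h hper h01
  refine (pf7_sq (2 ^ (m + 1)) T h (fun p hp => hS p (hTS hp)) hper h01).trans ?_
  rw [pf7_sq_card]
  set Q : ℝ := ((∏ p ∈ T, p : ℕ) : ℝ) with hQ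
  have hQ0 : 0 ≤ Q := Nat.cast_nonneg _
  set N : ℝ := 2 * ((2 ^ (m + 1) : ℕ) : ℝ) + 1 with hN
  have hNx : x ^ (4 * ε) ≤ N := by
    have h1 := Real.rpow_le_rpow_of_exponent_le hx1 he
    have h2 : (0 : ℝ) ≤ 2 ^ m := by positivity
    rw [hN]
    push_cast
    rw [pow_succ]
    linarith
  set y : ℝ := x ^ ε with hy
  have y4 : x ^ (4 * ε) = y ^ 4 := by
    rw [hy, ← Real.rpow_natCast, ← Real.rpow_mul hx0.le]
    congr 1
    push_cast
    ring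
  have yi : x ^ (-ε) = y⁻¹ := by rw [hy, Real.rpow_neg hx0.le]
  have hy0 : 0 < y := by linarith
  rw [y4] at hNx
  rw [yi]
  have hN0 : 0 < N := lt_of_lt_of_le (by positivity) hNx
  have hN3 : y ^ 3 ≤ N := by
    have : y ^ 3 ≤ y ^ 4 := pow_le_pow_right₀ (by linarith) (by norm_num)
    linarith
  have e1 : 2 * Q * N + Q ^ 2 ≤ 2 * y * N + y ^ 2 := by
    have h1 : Q * N ≤ y * N := mul_le_mul_of_nonneg_right hTQ hN0.le
    have h2 : Q ^ 2 ≤ y ^ 2 := pow_le_pow_left₀ hQ0 hTQ 2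
    linarith
  refine e1.trans ?_
  rw [show y⁻¹ / 3 * N ^ 2 = N ^ 2 / (3 * y) by field_simp, le_div_iff₀ (by positivity)]
  -- 6 y² N + 3 y³ ≤ N²
  have h2 : 6 * y ^ 2 + 3 ≤ N := by
    have h3 : 6 * y ^ 2 + 3 ≤ y ^ 3 := by nlinarith [sq_nonneg y]
    linarith
  have h3 : (6 * y ^ 2 + 3) * N ≤ N * N := mul_le_mul_of_nonneg_right h2 hN0.le
  nlinarith

/-- the sum over the law -/
theorem pf7_law (f1 f4 : Bool) (δ1 δ4 : ℤ) (p : ℕ) (h : PolyK 5 → ℝ) :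
    ∑ u ∈ Law5 δ1 δ4 p, h u =
      ∑ v ∈ (L2 (sgb f1 δ1) p ×ˢ L2 (sgb f4 δ4) p) ×ˢ L1 p, h (asm5 f1 f4 v) := by
  symm
  have neg : ∀ (a b : ℤ × ℤ) (δ : ℤ), ((p : ℤ) ∣ dt a b - -δ) ↔ ((p : ℤ) ∣ dt b a - δ) := by
    intro a b δ
    have : dt a b - -δ = -(dt b a - δ) := by unfold dt; ring
    rw [this, dvd_neg]
  have mem : ∀ u : PolyK 5, u ∈ Law5 δ1 δ4 p ↔ (u 0 ∈ L1 p ∧ u 1 ∈ L1 p ∧ u 2 ∈ L1 p ∧
      u 3 ∈ L1 p ∧ u 4 ∈ L1 p) ∧ (p : ℤ) ∣ dt (u 1) (u 2) - δ1 ∧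
      (p : ℤ) ∣ dt (u 4) (u 0) - δ4 := by
    intro u
    unfold Law5
    rw [Finset.mem_filter, Fintype.mem_piFinset, Fin.forall_fin_succ, Fin.forall_fin_succ,
      Fin.forall_fin_succ, Fin.forall_fin_succ, Fin.forall_fin_one]
    exact Iff.rfl
  apply Finset.sum_nbij' (asm5 f1 f4)
    (fun u => ((if f1 then (u 1, u 2) else (u 2, u 1), if f4 then (u 4, u 0) else (u 0, u 4)),
      u 3))
  · intro v hv
    rw [Finset.mem_product, Finset.mem_product] at hv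
    obtain ⟨⟨h1, h2⟩, h3⟩ := hv
    unfold L2 at h1 h2
    rw [Finset.mem_filter, Finset.mem_product] at h1 h2
    rw [mem]
    cases f1 <;> cases f4 <;> simp only [sgb, Bool.false_eq_true, if_false, if_true] at h1 h2
    · rw [neg] at h1 h2
      exact ⟨⟨h2.1.1, h1.1.2, h1.1.1, h3, h2.1.2⟩, h1.2, h2.2⟩
    · rw [neg] at h1
      exact ⟨⟨h2.1.2, h1.1.2, h1.1.1, h3, h2.1.1⟩, h1.2, h2.2⟩
    · rw [neg] at h2
      exact ⟨⟨h2.1.1, h1.1.1, h1.1.2, h3, h2.1.2⟩, h1.2, h2.2⟩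
    · exact ⟨⟨h2.1.2, h1.1.1, h1.1.2, h3, h2.1.1⟩, h1.2, h2.2⟩
  · intro u hu
    rw [mem] at hu
    obtain ⟨⟨a0, a1, a2, a3, a4⟩, b1, b4⟩ := hu
    rw [Finset.mem_product, Finset.mem_product]
    unfold L2
    rw [Finset.mem_filter, Finset.mem_product, Finset.mem_filter, Finset.mem_product]
    cases f1 <;> cases f4 <;> simp only [sgb, Bool.false_eq_true, if_false, if_true]
    · exact ⟨⟨⟨⟨a2, a1⟩, (neg _ _ _).2 b1⟩, ⟨⟨a0, a4⟩, (neg _ _ _).2 b4⟩⟩, a3⟩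
    · exact ⟨⟨⟨⟨a2, a1⟩, (neg _ _ _).2 b1⟩, ⟨⟨a4, a0⟩, b4⟩⟩, a3⟩
    · exact ⟨⟨⟨⟨a1, a2⟩, b1⟩, ⟨⟨a0, a4⟩, (neg _ _ _).2 b4⟩⟩, a3⟩
    · exact ⟨⟨⟨⟨a1, a2⟩, b1⟩, ⟨⟨a4, a0⟩, b4⟩⟩, a3⟩
  · rintro ⟨⟨⟨a, b⟩, ⟨c, d⟩⟩, e⟩ _
    cases f1 <;> cases f4 <;> rfl
  · intro u _
    funext j
    fin_cases j <;> cases f1 <;> cases f4 <;> rfl
  · intro v _
    rfl

/-- BLOCK PF7 (uses PF2, PF5, PF6, helper8's `av_prod`, `box_av` for `u_3`): the pentagons. The sizes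
are at least `x ^ (4 ε) / 2` and `2 ^ |i_1 - i_2|, 2 ^ |i_4 - i_0| ≥ x ^ (3.9 ε) / 2` by the gaps, so the
relative errors are `O(x ^ (-1.9 ε) log x)`. The product of the laws `L2 (±δ1) p`, `L2 (±δ4) p`, `L1 p`
corresponds to `Law5 δ1 δ4 p` under `asm5` (a bijection; `det (b, a) = - det (a, b)`). -/
theorem pent_equi_pr (q : Par 5) (hq : q.Ok) (hg : q.Gap) : ∃ x₀ : ℝ, 1 ≤ x₀ ∧ ∀ x ≥ x₀,
    ∀ i : Fin 5 → ℕ, SizOk q x i → ∀ δ1 δ4 : ℤ, ∀ S : Finset ℕ,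
    (∀ p ∈ S, p.Prime ∧ ¬ (p : ℤ) ∣ δ1 ∧ ¬ (p : ℤ) ∣ δ4) →
    EquiF (O5 i) (pol5 i δ1 δ4) (Law5 δ1 δ4) S (x ^ q.ε) (x ^ (-q.ε)) := by
  obtain ⟨x₁, hx₁, h₁⟩ := pf7_pair hq.ε0
  obtain ⟨x₂, hx₂, h₂⟩ := pf7_third hq.ε0
  refine ⟨max x₁ x₂, hx₁.trans (le_max_left _ _), ?_⟩
  intro x hx i hi δ1 δ4 S hS
  have hxa : x ≥ x₁ := (le_max_left _ _).trans hx
  have hxb : x ≥ x₂ := (le_max_right _ _).trans hx
  have hx0 : 0 < x := by linarith
  set f1 : Bool := decide (i 1 < i 2) with hf1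
  set f4 : Bool := decide (i 4 < i 0) with hf4
  have nd : ∀ (f : Bool) (δ : ℤ) (p : ℕ), ¬ (p : ℤ) ∣ δ → ¬ (p : ℤ) ∣ sgb f δ := by
    intro f δ p hp
    cases f
    · simpa [sgb] using hp
    · simpa [sgb] using hp
  have g1 : 4 * q.ε ≤ |q.e 1 - q.e 2| := hg.hg 1
  have g4 : 4 * q.ε ≤ |q.e 4 - q.e 0| := hg.hg 4
  have P1 := h₁ x hxa (i 1) (i 2) (q.e 1) (q.e 2) (hg.he 1) (hg.he 2) g1 (hi 1).1 (hi 1).2
    (hi 2).1 (hi 2).2 (sgb f1 δ1) S (fun p hp => ⟨(hS p hp).1, nd _ _ _ (hS p hp).2.1⟩)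
  have P4 := h₁ x hxa (i 4) (i 0) (q.e 4) (q.e 0) (hg.he 4) (hg.he 0) g4 (hi 4).1 (hi 4).2
    (hi 0).1 (hi 0).2 (sgb f4 δ4) S (fun p hp => ⟨(hS p hp).1, nd _ _ _ (hS p hp).2.2⟩)
  have P3 := h₂ x hxb (i 3) (q.e 3) (hg.he 3) (hi 3).1 S (fun p hp => (hS p hp).1)
  have c1 : ∀ (p : ℕ) (v : ℤ × ℤ), cg1 p v v := fun p v => by
    unfold cg1
    simp
  have c2 : ∀ (p : ℕ) (v : (ℤ × ℤ) × (ℤ × ℤ)), cg2 p v v := fun p v => ⟨c1 _ _, c1 _ _⟩
  have hη : (0 : ℝ) ≤ x ^ (-q.ε) / 3 := by positivity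
  have R1 := equi_prod c2 c2 hη hη P1 P4
  have R2 := equi_prod (fun p v => ⟨c2 _ _, c2 _ _⟩) c1 (add_nonneg hη hη) hη R1 P3
  intro T hTS hTQ h hper h01
  have R3 := R2 T hTS hTQ (fun p v => h p (asm5 f1 f4 v)) (by
    rintro p hp v w ⟨⟨⟨a1, a2⟩, ⟨a3, a4⟩⟩, a5⟩
    apply hper p hp
    intro j
    fin_cases j <;> cases f1 <;> cases f4 <;> first | exact a1 | exact a2 | exact a3 | exact a4 |
      exact a5)
    (fun p hp v => h01 p hp _)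
  have e1 : ∀ p, mL (Law5 δ1 δ4 p) (h p) =
      mG ((L2 (sgb f1 δ1) p ×ˢ L2 (sgb f4 δ4) p) ×ˢ L1 p) (fun v => h p (asm5 f1 f4 v)) := by
    intro p
    unfold mL mG
    rw [pf7_law f1 f4 δ1 δ4 p (h p)]
    congr 1
    have := pf7_law f1 f4 δ1 δ4 p (fun _ => 1)
    rw [Finset.sum_const, Finset.sum_const, nsmul_eq_mul, nsmul_eq_mul, mul_one, mul_one] at this
    exact this
  rw [Finset.prod_congr rfl (fun p _ => e1 p)]
  have e2 : x ^ (-q.ε) = x ^ (-q.ε) / 3 + x ^ (-q.ε) / 3 + x ^ (-q.ε) / 3 := by ring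
  rw [e2]
  exact R3

end Pool.Agent.PENK

namespace Pool.Agent.PENK

theorem pent_equi : type_of% @pent_equi_pr := @pent_equi_pr

end Pool.Agent.PENK
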