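import Pool.Agent.Lib_helper18.PENK.Defs2
import Pool.Agent.Lib_helper18.PENKF.DefsW
import Pool.Agent.Lib_helper18.PENKF.PF2

/-! Block PF9 -/

set_option autoImplicit false

namespace Pool.Agent.PENK

open Finset Pool.Agent.PENT

theorem pf9_pr_zero : (pr 0).card = 0 := by
  rw [Finset.card_eq_zero]
  ext a
  simp only [pr, sq, mem_filter, mem_product, mem_Icc, notMem_empty, iff_false]
  rintro ⟨⟨⟨h1, h2⟩, h3, h4⟩, h5⟩
  have e1 : a.1 = 0 := by push_cast at h1 h2; omega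
  have e2 : a.2 = 0 := by push_cast at h3 h4; omega
  rw [e1, e2] at h5
  simp at h5

theorem pf9_OP (m n : ℕ) (hmn : m ≤ n) :
    ((OP (2 ^ (m + 1)) (4 * 2 ^ (n - m))).card : ℝ) ≤ 324 * (2 ^ m * 2 ^ n) := by
  obtain ⟨A₀, _, _, hub⟩ := pr_card
  have h1 := hub (2 ^ (m + 1)) Nat.one_le_two_pow
  unfold OP
  rw [card_product, Int.card_Icc]
  obtain ⟨k, rfl⟩ : ∃ k, n = m + k := ⟨n - m, by omega⟩
  have e1 : m + k - m = k := by omega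
  rw [e1]
  have e2 : ((((4 * 2 ^ k : ℕ) : ℤ) + 1 - -((4 * 2 ^ k : ℕ) : ℤ)).toNat : ℕ) = 8 * 2 ^ k + 1 := by
    have : (((4 * 2 ^ k : ℕ) : ℤ) + 1 - -((4 * 2 ^ k : ℕ) : ℤ)) = ((8 * 2 ^ k + 1 : ℕ) : ℤ) := by
      push_cast; ring
    rw [this, Int.toNat_natCast]
  rw [e2]
  push_cast
  have hk : (1 : ℝ) ≤ 2 ^ k := one_le_pow₀ (by norm_num)
  have hm : (0 : ℝ) ≤ 2 ^ m := by positivity
  have h3 : (8 * 2 ^ k + 1 : ℝ) ≤ 9 * 2 ^ k := by linarith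
  have h1' : ((pr (2 ^ (m + 1))).card : ℝ) ≤ 36 * (2 ^ m * 2 ^ m) := by
    refine h1.trans (le_of_eq ?_)
    push_cast
    ring
  calc ((pr (2 ^ (m + 1))).card : ℝ) * (8 * 2 ^ k + 1)
      ≤ (36 * (2 ^ m * 2 ^ m)) * (9 * 2 ^ k) := by
        apply mul_le_mul h1' h3 (by positivity) (by positivity)
    _ = 324 * (2 ^ m * 2 ^ (m + k)) := by rw [pow_add]; ring

theorem pf9_sq (m : ℕ) : ((sq (2 ^ (m + 1))).card : ℝ) ≤ 25 * (2 ^ m) ^ 2 := by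
  unfold sq
  rw [card_product, Int.card_Icc]
  have e2 : ((((2 ^ (m + 1) : ℕ) : ℤ) + 1 - -((2 ^ (m + 1) : ℕ) : ℤ)).toNat : ℕ)
      = 4 * 2 ^ m + 1 := by
    have : (((2 ^ (m + 1) : ℕ) : ℤ) + 1 - -((2 ^ (m + 1) : ℕ) : ℤ)) = ((4 * 2 ^ m + 1 : ℕ) : ℤ) := by
      push_cast; ring
    rw [this, Int.toNat_natCast]
  rw [e2]
  push_cast
  have hm : (1 : ℝ) ≤ 2 ^ m := one_le_pow₀ (by norm_num)
  nlinarith

theorem O5_card_pr (i : Fin 5 → ℕ) : ((O5 i).card : ℝ) ≤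
    10 ^ 8 * ((2 : ℝ) ^ i 0 * 2 ^ i 1 * 2 ^ i 2 * 2 ^ i 4 * (2 ^ i 3) ^ 2) := by
  unfold O5
  rw [card_product, card_product]
  push_cast
  have h1 := pf9_OP (min (i 1) (i 2)) (max (i 1) (i 2)) min_le_max
  have h2 := pf9_OP (min (i 4) (i 0)) (max (i 4) (i 0)) min_le_max
  have h3 := pf9_sq (i 3)
  have e1 : (2 : ℝ) ^ min (i 1) (i 2) * 2 ^ max (i 1) (i 2) = 2 ^ i 1 * 2 ^ i 2 := by
    rw [← pow_add, ← pow_add, min_add_max]
  have e2 : (2 : ℝ) ^ min (i 4) (i 0) * 2 ^ max (i 4) (i 0) = 2 ^ i 4 * 2 ^ i 0 := by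
    rw [← pow_add, ← pow_add, min_add_max]
  rw [e1] at h1
  rw [e2] at h2
  calc _ ≤ ((324 * (2 ^ i 1 * 2 ^ i 2)) * (324 * (2 ^ i 4 * 2 ^ i 0))) * (25 * (2 ^ i 3) ^ 2) := by
        apply mul_le_mul _ h3 (by positivity) (by positivity)
        exact mul_le_mul h1 h2 (by positivity) (by positivity)
    _ = 2624400 * ((2 : ℝ) ^ i 0 * 2 ^ i 1 * 2 ^ i 2 * 2 ^ i 4 * (2 ^ i 3) ^ 2) := by ring
    _ ≤ _ := by
        apply mul_le_mul_of_nonneg_right (by norm_num) (by positivity)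

end Pool.Agent.PENK

namespace Pool.Agent.PENK

theorem O5_card : type_of% @O5_card_pr := @O5_card_pr

end Pool.Agent.PENK
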