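import Pool.Agent.Lib_helper18.PENKF.DefsW

/-! Block PH1: the weights of the pentagon theorem -/

set_option autoImplicit false

namespace Pool.Agent.PENK

open Finset Pool.Agent.PENT

theorem W5_ok_pr : W5.Ok := by
  constructor
  · intro j; simp [W5]
  · intro j; show (1 / 4 : ℝ) ≤ 1 / 2; norm_num
  · intro j; show (0 : ℝ) < 1 / 4; norm_num
  · intro j; show (1 / 4 : ℝ) ≤ 1; norm_num
  · intro j; simp [W5]
  · intro j; show (1 / 2 : ℝ) ≤ 1; norm_num

theorem ph1_inr : inr 5 \ (∅ : Finset (Fin 5)) = {0, 2, 3} := by decide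

theorem ph1_ivr : ivr 5 = {2, 3, 4} := by decide

/-- the density of the second sieve for the pentagon: `6`, `14`, `31/2` -/
theorem bden5_pr (P0 p : ℕ) : bden ∅ W5 P0 p =
    if p % 4 = 3 then 6 else if p ≤ P0 then 14 else 31 / 2 := by
  unfold bden
  by_cases h1 : p % 4 = 3
  · rw [if_pos h1, if_pos h1, ph1_inr]
    have : (({0, 2, 3} : Finset (Fin 5)).card) = 3 := by decide
    rw [this]; norm_num
  rw [if_neg h1, if_neg h1]
  by_cases h2 : p ≤ P0
  · rw [if_pos h2, if_pos h2, ph1_inr, ph1_ivr]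
    have : (({0, 2, 3} : Finset (Fin 5)).card) = 3 := by decide
    have h4 : (({2, 3, 4} : Finset (Fin 5)).card) = 3 := by decide
    have e3 : ∀ j, W5.bo j = 1 / 2 := fun _ => rfl
    simp only [e3, Finset.sum_const, this, h4]
    norm_num
  · rw [if_neg h2, if_neg h2, ph1_inr, ph1_ivr]
    unfold Wts.s0 Wts.s1
    have h3 : (({0, 2, 3} : Finset (Fin 5)).card) = 3 := by decide
    have h4 : (({2, 3, 4} : Finset (Fin 5)).card) = 3 := by decide
    have e1 : ∀ j, W5.al j = 1 / 4 := fun _ => rfl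
    have e2 : ∀ j, W5.be j = 1 / 4 := fun _ => rfl
    simp only [e1, e2, Finset.sum_const, h3, h4]
    norm_num

end Pool.Agent.PENK

namespace Pool.Agent.PENK

theorem W5_ok : type_of% @W5_ok_pr := @W5_ok_pr

theorem bden5 : type_of% @bden5_pr := @bden5_pr

end Pool.Agent.PENK
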