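import Mathlib
import Pool.Agent.Lib_helper18.PENKF.DefsW

set_option autoImplicit false

namespace Pool.Agent.PENK

open Finset Pool.Agent.PENT

theorem ph6_dt_le (a b : ℤ × ℤ) : |(dt a b : ℝ)| ≤ (nr a : ℝ) * nr b := by
  have h1 : (dt a b : ℝ) = (a.1 : ℝ) * b.2 - (a.2 : ℝ) * b.1 := by
    unfold dt
    push_cast
    ring
  have hn : ∀ v : ℤ × ℤ, (nr v : ℝ) = |(v.1 : ℝ)| + |(v.2 : ℝ)| := by
    intro v
    unfold nr
    push_cast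
    rw [Nat.cast_natAbs, Nat.cast_natAbs]
    push_cast
    rfl
  rw [h1, hn, hn]
  have h2 : |(a.1 : ℝ) * b.2 - (a.2 : ℝ) * b.1| ≤ |(a.1 : ℝ) * b.2| + |(a.2 : ℝ) * b.1| :=
    abs_sub _ _
  rw [abs_mul, abs_mul] at h2
  have h3 := abs_nonneg (a.1 : ℝ)
  have h4 := abs_nonneg (a.2 : ℝ)
  have h5 := abs_nonneg (b.1 : ℝ)
  have h6 := abs_nonneg (b.2 : ℝ)
  nlinarith [mul_nonneg h3 h5, mul_nonneg h4 h6]

theorem ph6_dn {K : ℕ} [NeZero K] (u : PolyK K) (j : Fin K) :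
    (dn u j : ℝ) = |(dt (u j) (u (j + 1)) : ℝ)| := by
  unfold dn dl
  rw [Nat.cast_natAbs]
  push_cast
  rfl

/-- the size of an entry -/
theorem ph6_size (q : Par 5) (hq : q.Ok) {x : ℝ} (hx : 2 ≤ x) {P0 : ℕ} {u : PolyK 5}
    (hu : IsPoly q x P0 u) {i : Fin 5 → ℕ} (hs : Siz i u) (j : Fin 5) :
    i j ≤ ⌊2 * Real.log x⌋₊ := by
  have hx1 : (1 : ℝ) ≤ x := by linarith
  have he : q.e j + q.ε / 50 ≤ 1 := by
    have h1 : q.e j + q.ε ≤ ∑ j, (q.e j + q.ε) :=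
      Finset.single_le_sum (f := fun j => q.e j + q.ε)
        (fun k _ => add_nonneg (hq.he k) (le_of_lt hq.ε0)) (Finset.mem_univ j)
    have h2 := hq.hs
    have h3 := hq.δ1
    have h4 := hq.ε0
    linarith
  have h1 : ((2 : ℝ)) ^ (i j) ≤ x := by
    have h2 : ((2 : ℝ)) ^ (i j) ≤ (nr (u j) : ℝ) := by
      exact_mod_cast (hs j).1
    have h3 := hu.hi j
    have h4 : x ^ (q.e j + q.ε / 50) ≤ x ^ (1 : ℝ) := Real.rpow_le_rpow_of_exponent_le hx1 he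
    rw [Real.rpow_one] at h4
    linarith
  have h5 : (i j : ℝ) * Real.log 2 ≤ Real.log x := by
    rw [← Real.log_pow]
    exact Real.log_le_log (by positivity) h1
  have h6 := Real.log_two_gt_d9
  apply Nat.le_floor
  have h7 : (0 : ℝ) ≤ (i j : ℝ) := Nat.cast_nonneg _
  nlinarith

/-- the special edges -/
theorem ph6_edge (q : Par 5) (hq : q.Ok) {L : ℕ} (hL : 1 ≤ q.c3 * 2 ^ L) {u v : PolyK 5}
    (su : Sep q u) {i k : Fin 5 → ℕ} (hi : Siz i u) (hk : Siz k v)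
    (j : Fin 5) (hd : dn u j = dn v j) : i j + i (j + 1) ≤ k j + k (j + 1) + L + 2 := by
  have hne : j ≠ j + 1 := by
    fin_cases j <;> decide
  have h1 := su j (j + 1) hne
  have h2 := ph6_dt_le (v j) (v (j + 1))
  have h3 : |(dt (u j) (u (j + 1)) : ℝ)| = |(dt (v j) (v (j + 1)) : ℝ)| := by
    rw [← ph6_dn, ← ph6_dn, hd]
  rw [h3] at h1
  have h4 : q.c3 * nr (u j) * nr (u (j + 1)) ≤ (nr (v j) : ℝ) * nr (v (j + 1)) := le_trans h1 h2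
  have hc := hq.c30
  have a1 : ((2 : ℝ)) ^ (i j) ≤ (nr (u j) : ℝ) := by exact_mod_cast (hi j).1
  have a2 : ((2 : ℝ)) ^ (i (j + 1)) ≤ (nr (u (j + 1)) : ℝ) := by exact_mod_cast (hi (j + 1)).1
  have b1 : (nr (v j) : ℝ) < ((2 : ℝ)) ^ (k j + 1) := by exact_mod_cast (hk j).2
  have b2 : (nr (v (j + 1)) : ℝ) < ((2 : ℝ)) ^ (k (j + 1) + 1) := by exact_mod_cast (hk (j + 1)).2
  have c1 : q.c3 * ((2 : ℝ) ^ (i j) * 2 ^ (i (j + 1))) ≤ q.c3 * nr (u j) * nr (u (j + 1)) := by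
    rw [mul_assoc]
    exact mul_le_mul_of_nonneg_left (mul_le_mul a1 a2 (by positivity) (by positivity)) hc.le
  have c2 : (nr (v j) : ℝ) * nr (v (j + 1)) < (2 : ℝ) ^ (k j + 1) * 2 ^ (k (j + 1) + 1) :=
    mul_lt_mul'' b1 b2 (by positivity) (by positivity)
  have c3 : q.c3 * ((2 : ℝ) ^ (i j) * 2 ^ (i (j + 1))) < (2 : ℝ) ^ (k j + 1) * 2 ^ (k (j + 1) + 1) :=
    by linarith
  have c4 : (2 : ℝ) ^ (i j + i (j + 1)) < (2 : ℝ) ^ (k j + k (j + 1) + L + 2) := by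
    have e1 : (2 : ℝ) ^ (k j + k (j + 1) + L + 2) =
        2 ^ L * ((2 : ℝ) ^ (k j + 1) * 2 ^ (k (j + 1) + 1)) := by ring
    rw [e1, pow_add]
    have e2 : (0 : ℝ) < 2 ^ L := by positivity
    have e3 : (0 : ℝ) < (2 : ℝ) ^ (i j) * 2 ^ (i (j + 1)) := by positivity
    have e4 : 2 ^ L * (q.c3 * ((2 : ℝ) ^ (i j) * 2 ^ (i (j + 1)))) <
        2 ^ L * ((2 : ℝ) ^ (k j + 1) * 2 ^ (k (j + 1) + 1)) := mul_lt_mul_of_pos_left c3 e2
    have e5 : 1 * ((2 : ℝ) ^ (i j) * 2 ^ (i (j + 1))) ≤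
        (q.c3 * 2 ^ L) * ((2 : ℝ) ^ (i j) * 2 ^ (i (j + 1))) := mul_le_mul_of_nonneg_right hL e3.le
    nlinarith
  exact le_of_lt ((pow_lt_pow_iff_right₀ (by norm_num : (1 : ℝ) < 2)).mp c4)

/-- the compatibility -/
theorem ph6_comp {C : ℝ} {M : ℕ} (hM : C ≤ 2 ^ M) (hC : 0 ≤ C) {u v : PolyK 5}
    {i k : Fin 5 → ℕ} (hi : Siz i u) (hk : Siz k v)
    (h : (nr (u 0) : ℝ) * nr (v 1) ≤ C * (nr (u 1) * nr (v 0))) :
    i 0 + k 1 ≤ i 1 + k 0 + M + 2 := by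
  have a1 : ((2 : ℝ)) ^ (i 0) ≤ (nr (u 0) : ℝ) := by exact_mod_cast (hi 0).1
  have a2 : ((2 : ℝ)) ^ (k 1) ≤ (nr (v 1) : ℝ) := by exact_mod_cast (hk 1).1
  have b1 : (nr (u 1) : ℝ) < ((2 : ℝ)) ^ (i 1 + 1) := by exact_mod_cast (hi 1).2
  have b2 : (nr (v 0) : ℝ) < ((2 : ℝ)) ^ (k 0 + 1) := by exact_mod_cast (hk 0).2
  have c1 : (2 : ℝ) ^ (i 0) * 2 ^ (k 1) ≤ (nr (u 0) : ℝ) * nr (v 1) :=
    mul_le_mul a1 a2 (by positivity) (by positivity)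
  have c2 : (nr (u 1) : ℝ) * nr (v 0) < (2 : ℝ) ^ (i 1 + 1) * 2 ^ (k 0 + 1) :=
    mul_lt_mul'' b1 b2 (by positivity) (by positivity)
  have c4 : C * (nr (u 1) * nr (v 0)) ≤ 2 ^ M * ((2 : ℝ) ^ (i 1 + 1) * 2 ^ (k 0 + 1)) :=
    mul_le_mul hM c2.le (by positivity) (by positivity)
  have c5 : (2 : ℝ) ^ (i 0 + k 1) ≤ (2 : ℝ) ^ (i 1 + k 0 + M + 2) := by
    have e1 : (2 : ℝ) ^ (i 1 + k 0 + M + 2) =
        2 ^ M * ((2 : ℝ) ^ (i 1 + 1) * 2 ^ (k 0 + 1)) := by ring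
    rw [e1, pow_add]
    linarith
  exact (pow_le_pow_iff_right₀ (by norm_num : (1 : ℝ) < 2)).mp c5

/-- the invariants of a pair of sizes -/
def ph6_F (t : (Fin 5 → ℕ) × (Fin 5 → ℕ)) : (Fin 5 → ℕ) × (Fin 5 → ℤ) :=
  (![t.1 1, t.1 4, t.1 3, t.2 1, t.2 3],
    ![(t.1 1 : ℤ) + t.1 2, (t.1 4 : ℤ) + t.1 0, (t.2 1 : ℤ) + t.2 2, (t.2 4 : ℤ) + t.2 0,
      (t.1 0 : ℤ) + t.2 1 - t.1 1 - t.2 0])

theorem ph6_inj : Function.Injective ph6_F := by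
  intro t t' h
  have h1 := congrArg Prod.fst h
  have h2 := congrArg Prod.snd h
  have f0 : t.1 1 = t'.1 1 := congrFun h1 0
  have f1 : t.1 4 = t'.1 4 := congrFun h1 1
  have f2 : t.1 3 = t'.1 3 := congrFun h1 2
  have f3 : t.2 1 = t'.2 1 := congrFun h1 3
  have f4 : t.2 3 = t'.2 3 := congrFun h1 4
  have g0 : (t.1 1 : ℤ) + t.1 2 = (t'.1 1 : ℤ) + t'.1 2 := congrFun h2 0
  have g1 : (t.1 4 : ℤ) + t.1 0 = (t'.1 4 : ℤ) + t'.1 0 := congrFun h2 1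
  have g2 : (t.2 1 : ℤ) + t.2 2 = (t'.2 1 : ℤ) + t'.2 2 := congrFun h2 2
  have g3 : (t.2 4 : ℤ) + t.2 0 = (t'.2 4 : ℤ) + t'.2 0 := congrFun h2 3
  have g4 : (t.1 0 : ℤ) + t.2 1 - t.1 1 - t.2 0 = (t'.1 0 : ℤ) + t'.2 1 - t'.1 1 - t'.2 0 :=
    congrFun h2 4
  have k1 : t.1 = t'.1 := by
    funext j
    fin_cases j
    · show t.1 0 = t'.1 0
      omega
    · exact f0
    · show t.1 2 = t'.1 2
      omega
    · exact f2
    · exact f1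
  have k2 : t.2 = t'.2 := by
    funext j
    fin_cases j
    · show t.2 0 = t'.2 0
      omega
    · exact f3
    · show t.2 2 = t'.2 2
      omega
    · exact f4
    · show t.2 4 = t'.2 4
      omega
  exact Prod.ext k1 k2

theorem ph6_card (N K : ℕ) (b : Fin 5 → ℤ) :
    ((Fintype.piFinset (fun _ : Fin 5 => range (N + 1))) ×ˢ
      (Fintype.piFinset (fun j : Fin 5 => Icc (b j - K) (b j + K)))).card =
        (N + 1) ^ 5 * (2 * K + 1) ^ 5 := by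
  rw [Finset.card_product, Fintype.card_piFinset, Fintype.card_piFinset]
  have h : ∀ j : Fin 5, (Icc (b j - K) (b j + K)).card = 2 * K + 1 := by
    intro j
    rw [Int.card_Icc]
    omega
  simp only [h, Finset.card_range, Finset.prod_const, Finset.card_univ, Fintype.card_fin]

/-- BLOCK PH6: the number of cells for given special determinants: `2 ^ (i 1 + i 2) ~ a1`,
`2 ^ (i 4 + i 0) ~ a4`, `2 ^ (i' 1 + i' 2) ~ a1'`, `2 ^ (i' 4 + i' 0) ~ a4'`, and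
`i 0 + i' 1 - i 1 - i' 0 = O(1)` by `Compat`; free: `i 1, i 4, i 3, i' 1, i' 3 ≤ 2 log x`. -/
theorem cells_count_pr (q : Par 5) (hq : q.Ok) : ∃ C x₀ : ℝ, 0 ≤ C ∧ 2 ≤ x₀ ∧ ∀ x ≥ x₀,
    ∀ (P0 a1 a4 a1' a4' : ℕ) (S : Finset ((Fin 5 → ℕ) × (Fin 5 → ℕ))),
    (∀ t ∈ S, ∃ s, PairOk q x P0 s ∧ Siz t.1 s.1 ∧ Siz t.2 s.2 ∧ dn s.1 1 = a1 ∧ dn s.1 4 = a4 ∧
      dn s.2 1 = a1' ∧ dn s.2 4 = a4') → (S.card : ℝ) ≤ C * Real.log x ^ 5 := by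
  obtain ⟨L, hL⟩ : ∃ L : ℕ, 1 ≤ q.c3 * 2 ^ L := by
    obtain ⟨L, hL⟩ := pow_unbounded_of_one_lt (1 / q.c3) (by norm_num : (1 : ℝ) < 2)
    refine ⟨L, ?_⟩
    have h1 := hq.c30
    rw [div_lt_iff₀ h1] at hL
    linarith
  obtain ⟨M, hM⟩ : ∃ M : ℕ, q.C4 ^ 2 ≤ 2 ^ M := by
    obtain ⟨M, hM⟩ := pow_unbounded_of_one_lt (q.C4 ^ 2) (by norm_num : (1 : ℝ) < 2)
    exact ⟨M, hM.le⟩
  obtain ⟨K, hK⟩ : ∃ K : ℕ, K = 2 * (L + M + 2) := ⟨_, rfl⟩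
  refine ⟨4 ^ 5 * (2 * K + 1) ^ 5, 2, by positivity, le_refl _, ?_⟩
  intro x hx P0 a1 a4 a1' a4' S hS
  obtain ⟨N, hN⟩ : ∃ N : ℕ, N = ⌊2 * Real.log x⌋₊ := ⟨_, rfl⟩
  have hlog : (1 : ℝ) / 2 ≤ Real.log x := by
    have h1 := Real.log_two_gt_d9
    have h2 : Real.log 2 ≤ Real.log x := Real.log_le_log (by norm_num) hx
    linarith
  have hN1 : ((N : ℝ) + 1) ≤ 4 * Real.log x := by
    have h1 : (N : ℝ) ≤ 2 * Real.log x := by
      rw [hN]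
      exact Nat.floor_le (by linarith)
    linarith
  rcases S.eq_empty_or_nonempty with hSe | ⟨t0, ht0⟩
  · rw [hSe]
    simp only [Finset.card_empty, Nat.cast_zero]
    have h1 : (0 : ℝ) ≤ Real.log x := by linarith
    positivity
  obtain ⟨s0, p0, z0, z0', d1, d4, d1', d4'⟩ := hS t0 ht0
  have hcard : S.card ≤ ((Fintype.piFinset (fun _ : Fin 5 => range (N + 1))) ×ˢ
      (Fintype.piFinset (fun j : Fin 5 => Icc ((ph6_F t0).2 j - K) ((ph6_F t0).2 j + K)))).card := by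
    apply Finset.card_le_card_of_injOn ph6_F
    · intro t ht
      obtain ⟨s, p, z, z', e1, e4, e1', e4'⟩ := hS t ht
      rw [Finset.mem_coe, Finset.mem_product]
      constructor
      · rw [Fintype.mem_piFinset]
        intro j
        rw [Finset.mem_range, Nat.lt_succ_iff, hN]
        fin_cases j
        · exact ph6_size q hq hx p.p1 z 1
        · exact ph6_size q hq hx p.p1 z 4
        · exact ph6_size q hq hx p.p1 z 3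
        · exact ph6_size q hq hx p.p2 z' 1
        · exact ph6_size q hq hx p.p2 z' 3
      · rw [Fintype.mem_piFinset]
        have A1 : t.1 1 + t.1 2 ≤ t0.1 1 + t0.1 2 + L + 2 :=
          ph6_edge q hq hL p.s1 z z0 1 (e1.trans d1.symm)
        have A2 : t0.1 1 + t0.1 2 ≤ t.1 1 + t.1 2 + L + 2 :=
          ph6_edge q hq hL p0.s1 z0 z 1 (d1.trans e1.symm)
        have A3 : t.1 4 + t.1 0 ≤ t0.1 4 + t0.1 0 + L + 2 :=
          ph6_edge q hq hL p.s1 z z0 4 (e4.trans d4.symm)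
        have A4 : t0.1 4 + t0.1 0 ≤ t.1 4 + t.1 0 + L + 2 :=
          ph6_edge q hq hL p0.s1 z0 z 4 (d4.trans e4.symm)
        have A5 : t.2 1 + t.2 2 ≤ t0.2 1 + t0.2 2 + L + 2 :=
          ph6_edge q hq hL p.s2 z' z0' 1 (e1'.trans d1'.symm)
        have A6 : t0.2 1 + t0.2 2 ≤ t.2 1 + t.2 2 + L + 2 :=
          ph6_edge q hq hL p0.s2 z0' z' 1 (d1'.trans e1'.symm)
        have A7 : t.2 4 + t.2 0 ≤ t0.2 4 + t0.2 0 + L + 2 :=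
          ph6_edge q hq hL p.s2 z' z0' 4 (e4'.trans d4'.symm)
        have A8 : t0.2 4 + t0.2 0 ≤ t.2 4 + t.2 0 + L + 2 :=
          ph6_edge q hq hL p0.s2 z0' z' 4 (d4'.trans e4'.symm)
        have B1 : t.1 0 + t.2 1 ≤ t.1 1 + t.2 0 + M + 2 :=
          ph6_comp hM (sq_nonneg _) z z' p.cp.1
        have B2 : t.2 0 + t.1 1 ≤ t.2 1 + t.1 0 + M + 2 :=
          ph6_comp hM (sq_nonneg _) z' z p.cp.2
        have B3 : t0.1 0 + t0.2 1 ≤ t0.1 1 + t0.2 0 + M + 2 :=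
          ph6_comp hM (sq_nonneg _) z0 z0' p0.cp.1
        have B4 : t0.2 0 + t0.1 1 ≤ t0.2 1 + t0.1 0 + M + 2 :=
          ph6_comp hM (sq_nonneg _) z0' z0 p0.cp.2
        intro j
        rw [Finset.mem_Icc]
        fin_cases j
        · show (t0.1 1 : ℤ) + t0.1 2 - K ≤ (t.1 1 : ℤ) + t.1 2 ∧
            (t.1 1 : ℤ) + t.1 2 ≤ (t0.1 1 : ℤ) + t0.1 2 + K
          omega
        · show (t0.1 4 : ℤ) + t0.1 0 - K ≤ (t.1 4 : ℤ) + t.1 0 ∧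
            (t.1 4 : ℤ) + t.1 0 ≤ (t0.1 4 : ℤ) + t0.1 0 + K
          omega
        · show (t0.2 1 : ℤ) + t0.2 2 - K ≤ (t.2 1 : ℤ) + t.2 2 ∧
            (t.2 1 : ℤ) + t.2 2 ≤ (t0.2 1 : ℤ) + t0.2 2 + K
          omega
        · show (t0.2 4 : ℤ) + t0.2 0 - K ≤ (t.2 4 : ℤ) + t.2 0 ∧
            (t.2 4 : ℤ) + t.2 0 ≤ (t0.2 4 : ℤ) + t0.2 0 + K
          omega
        · show (t0.1 0 : ℤ) + t0.2 1 - t0.1 1 - t0.2 0 - K ≤
              (t.1 0 : ℤ) + t.2 1 - t.1 1 - t.2 0 ∧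
            (t.1 0 : ℤ) + t.2 1 - t.1 1 - t.2 0 ≤
              (t0.1 0 : ℤ) + t0.2 1 - t0.1 1 - t0.2 0 + K
          omega
    · exact ph6_inj.injOn
  rw [ph6_card] at hcard
  have h1 : (S.card : ℝ) ≤ ((N : ℝ) + 1) ^ 5 * (2 * K + 1) ^ 5 := by exact_mod_cast hcard
  have h2 : ((N : ℝ) + 1) ^ 5 ≤ (4 * Real.log x) ^ 5 := by
    apply pow_le_pow_left₀ (by positivity) hN1
  have h3 : ((N : ℝ) + 1) ^ 5 * (2 * K + 1) ^ 5 ≤ (4 * Real.log x) ^ 5 * (2 * K + 1) ^ 5 :=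
    mul_le_mul_of_nonneg_right h2 (by positivity)
  have h4 : (4 * Real.log x) ^ 5 * (2 * (K : ℝ) + 1) ^ 5 =
      4 ^ 5 * (2 * K + 1) ^ 5 * Real.log x ^ 5 := by ring
  linarith

end Pool.Agent.PENK

namespace Pool.Agent.PENK

theorem cells_count : type_of% @cells_count_pr := @cells_count_pr

end Pool.Agent.PENK
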