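import Pool.Agent.Lib_helper18.PENKF.DefsW
import Pool.Agent.Lib_helper18.PENKF.PF10

set_option autoImplicit false

namespace Pool.Agent.PENK

open Finset Pool.Agent.PENT

theorem ph8_ich (a : Prop) : 0 ≤ ich a ∧ ich a ≤ 1 := by
  unfold ich
  split_ifs <;> norm_num

theorem ph8_ich_mono {a b : Prop} (h : a → b) : ich a ≤ ich b := by
  unfold ich
  by_cases ha : a
  · rw [if_pos ha, if_pos (h ha)]
  · rw [if_neg ha]
    split_ifs <;> norm_num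

theorem ph8_ich_and (a b : Prop) : ich (a ∧ b) = ich a * ich b := by
  unfold ich
  by_cases ha : a <;> by_cases hb : b <;> simp [ha, hb]

theorem ph8_sum_ich {α : Type} (S : Finset α) (Q : α → Prop) [DecidablePred Q] :
    ∑ b ∈ S, ich (Q b) = ((S.filter Q).card : ℝ) := by
  rw [Finset.card_filter]
  push_cast
  refine Finset.sum_congr rfl fun b _ => ?_
  unfold ich
  by_cases h : Q b
  · rw [if_pos h, if_pos h]
  · rw [if_neg h, if_neg h]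

theorem ph8_neg (a b : ℤ × ℤ) : dt a b = -dt b a := by
  unfold dt
  ring

theorem ph8_fib2 {p : ℕ} (hp : p.Prime) {a : ℤ × ℤ} (ha : ¬ ((p : ℤ) ∣ a.1 ∧ (p : ℤ) ∣ a.2))
    (δ : ℤ) : ((L1 p).filter (fun b => (p : ℤ) ∣ dt b a - δ)).card = p := by
  have h := fib_card hp ha (-δ)
  have e : (L1 p).filter (fun b => (p : ℤ) ∣ dt b a - δ) =
      (L1 p).filter (fun b => (p : ℤ) ∣ dt a b - -δ) := by
    refine Finset.filter_congr fun b _ => ?_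
    rw [ph8_neg b a, ← dvd_neg]
    have e : -(-dt a b - δ) = dt a b - -δ := by ring
    rw [e]
  rw [e, h]

theorem ph8_zero {p : ℕ} {δ : ℤ} (hδ : ¬ (p : ℤ) ∣ δ) {a b : ℤ × ℤ}
    (ha : (p : ℤ) ∣ dt a b - δ) : ¬ ((p : ℤ) ∣ a.1 ∧ (p : ℤ) ∣ a.2) ∧
      ¬ ((p : ℤ) ∣ b.1 ∧ (p : ℤ) ∣ b.2) := by
  have hd : ¬ (p : ℤ) ∣ dt a b := by
    intro h
    apply hδ
    have := dvd_sub h ha
    rwa [sub_sub_cancel] at this
  constructor
  · rintro ⟨h1, h2⟩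
    apply hd
    unfold dt
    exact dvd_sub (dvd_mul_of_dvd_left h1 _) (dvd_mul_of_dvd_left h2 _)
  · rintro ⟨h1, h2⟩
    apply hd
    unfold dt
    exact dvd_sub (dvd_mul_of_dvd_right h2 _) (dvd_mul_of_dvd_right h1 _)

theorem ph8_snd {p : ℕ} (hp : p.Prime) {δ : ℤ} (hδ : ¬ (p : ℤ) ∣ δ) (F : ℤ × ℤ → ℝ)
    (hF : ∀ b, 0 ≤ F b) : ∑ w ∈ L2 δ p, F w.2 ≤ p * ∑ b ∈ L1 p, F b := by
  rw [L2, Finset.sum_filter, Finset.sum_product_right, Finset.mul_sum]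
  refine Finset.sum_le_sum fun b _ => ?_
  rw [← Finset.sum_filter]
  show ∑ _a ∈ (L1 p).filter (fun a => (p : ℤ) ∣ dt a b - δ), F b ≤ p * F b
  rw [Finset.sum_const, nsmul_eq_mul]
  refine mul_le_mul_of_nonneg_right ?_ (hF b)
  by_cases hb : (p : ℤ) ∣ b.1 ∧ (p : ℤ) ∣ b.2
  · rw [Finset.filter_false_of_mem fun a _ h => (ph8_zero hδ h).2 hb]
    simp
  · rw [ph8_fib2 hp hb δ]

theorem ph8_fst {p : ℕ} (hp : p.Prime) {δ : ℤ} (hδ : ¬ (p : ℤ) ∣ δ) (F : ℤ × ℤ → ℝ)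
    (hF : ∀ b, 0 ≤ F b) : ∑ w ∈ L2 δ p, F w.1 ≤ p * ∑ b ∈ L1 p, F b := by
  rw [L2, Finset.sum_filter, Finset.sum_product, Finset.mul_sum]
  refine Finset.sum_le_sum fun a _ => ?_
  rw [← Finset.sum_filter]
  show ∑ _b ∈ (L1 p).filter (fun b => (p : ℤ) ∣ dt a b - δ), F a ≤ p * F a
  rw [Finset.sum_const, nsmul_eq_mul]
  refine mul_le_mul_of_nonneg_right ?_ (hF a)
  by_cases ha : (p : ℤ) ∣ a.1 ∧ (p : ℤ) ∣ a.2
  · rw [Finset.filter_false_of_mem fun b _ h => (ph8_zero hδ h).1 ha]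
    simp
  · rw [fib_card hp ha δ]

/-- an inverse modulo `p` -/
theorem ph8_inv {p : ℕ} (hp : p.Prime) {m : ℤ} (hm : ¬ (p : ℤ) ∣ m) :
    ∃ r : ℤ, (p : ℤ) ∣ r * m - 1 := by
  have hpz : Prime (p : ℤ) := Nat.prime_iff_prime_int.1 hp
  have hc : IsCoprime (p : ℤ) m := (Int.prime_iff_natAbs_prime.2 (by simpa using hp)).coprime_iff_not_dvd.2 hm
  obtain ⟨s, r, h⟩ := hc
  refine ⟨r, -s, ?_⟩
  linear_combination h

/-- the number of `b` with `m det (b, a) = c` -/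
theorem ph8_line {p : ℕ} (hp : p.Prime) {a : ℤ × ℤ} (ha : ¬ ((p : ℤ) ∣ a.1 ∧ (p : ℤ) ∣ a.2))
    {m : ℤ} (hm : ¬ (p : ℤ) ∣ m) (c : ℤ) :
    ∑ b ∈ L1 p, ich ((p : ℤ) ∣ m * dt b a - c) ≤ p := by
  obtain ⟨r, hr⟩ := ph8_inv hp hm
  have h1 : ∀ b ∈ L1 p, ich ((p : ℤ) ∣ m * dt b a - c) ≤ ich ((p : ℤ) ∣ dt b a - r * c) := by
    intro b _
    refine ph8_ich_mono fun h => ?_
    have h2 := dvd_sub (dvd_mul_of_dvd_right h r) (dvd_mul_of_dvd_left hr (dt b a))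
    have e : r * (m * dt b a - c) - (r * m - 1) * dt b a = dt b a - r * c := by ring
    rwa [e] at h2
  refine (Finset.sum_le_sum h1).trans ?_
  rw [ph8_sum_ich, ph8_fib2 hp ha (r * c)]

/-- two solutions of the conditions of the first case agree -/
theorem ph8_one {p : ℕ} (hp : p.Prime) {δ : ℤ} (hδ : ¬ (p : ℤ) ∣ δ) {a b : ℤ × ℤ}
    (hab : (p : ℤ) ∣ dt a b - δ) {m : ℤ} (hm : ¬ (p : ℤ) ∣ m) (c : ℤ) :
    ∑ z ∈ L1 p, ich ((p : ℤ) ∣ dt z a ∧ (p : ℤ) ∣ m * dt z b - c) ≤ 1 := by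
  have hpz : Prime (p : ℤ) := Nat.prime_iff_prime_int.1 hp
  have hd : ¬ (p : ℤ) ∣ dt a b := by
    intro h
    apply hδ
    have := dvd_sub h hab
    rwa [sub_sub_cancel] at this
  rw [ph8_sum_ich]
  have h1 : ((L1 p).filter (fun z => (p : ℤ) ∣ dt z a ∧ (p : ℤ) ∣ m * dt z b - c)).card ≤ 1 := by
    refine Finset.card_le_one.2 fun z hz y hy => ?_
    rw [Finset.mem_filter, L1, Finset.mem_product, Finset.mem_Ico, Finset.mem_Ico] at hz hy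
    have k1 : (p : ℤ) ∣ dt z a - dt y a := dvd_sub hz.2.1 hy.2.1
    have k2 : (p : ℤ) ∣ m * (dt z b - dt y b) := by
      have := dvd_sub hz.2.2 hy.2.2
      have e : m * dt z b - c - (m * dt y b - c) = m * (dt z b - dt y b) := by ring
      rwa [e] at this
    have k3 : (p : ℤ) ∣ dt z b - dt y b := (hpz.dvd_or_dvd k2).resolve_left hm
    have e1 : dt a b * (z.1 - y.1) = (dt z b - dt y b) * a.1 - (dt z a - dt y a) * b.1 := by
      unfold dt; ring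
    have e2 : dt a b * (z.2 - y.2) = (dt z b - dt y b) * a.2 - (dt z a - dt y a) * b.2 := by
      unfold dt; ring
    have q1 : (p : ℤ) ∣ z.1 - y.1 := by
      refine (hpz.dvd_or_dvd (?_ : (p : ℤ) ∣ dt a b * (z.1 - y.1))).resolve_left hd
      rw [e1]
      exact dvd_sub (dvd_mul_of_dvd_left k3 _) (dvd_mul_of_dvd_left k1 _)
    have q2 : (p : ℤ) ∣ z.2 - y.2 := by
      refine (hpz.dvd_or_dvd (?_ : (p : ℤ) ∣ dt a b * (z.2 - y.2))).resolve_left hd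
      rw [e2]
      exact dvd_sub (dvd_mul_of_dvd_left k3 _) (dvd_mul_of_dvd_left k1 _)
    have r1 := Int.eq_zero_of_abs_lt_dvd q1 (by rw [abs_lt]; constructor <;> omega)
    have r2 := Int.eq_zero_of_abs_lt_dvd q2 (by rw [abs_lt]; constructor <;> omega)
    exact Prod.ext (by omega) (by omega)
  exact_mod_cast h1

theorem ph8_L1card (p : ℕ) : ((L1 p).card : ℝ) = (p : ℝ) ^ 2 := by
  rw [L1, Finset.card_product, Int.card_Ico]
  simp only [sub_zero, Int.toNat_natCast]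
  push_cast
  ring

theorem ph8_L2card {p : ℕ} (hp : p.Prime) {δ : ℤ} (hδ : ¬ (p : ℤ) ∣ δ) :
    ((L2 δ p).card : ℝ) = p * ((p : ℝ) ^ 2 - 1) := by
  have h := L2_card hp hδ
  have h2 := congrArg (fun z : ℤ => (z : ℝ)) h
  push_cast at h2
  exact h2

/-- the conclusion from the bounds for the sums -/
theorem ph8_fin {p : ℕ} (hp : p.Prime) {δ1 δ4 : ℤ} (h1 : ¬ (p : ℤ) ∣ δ1) (h4 : ¬ (p : ℤ) ∣ δ4)
    (f : PolyK 5 → ℝ) (hf : ∑ u ∈ Law5 δ1 δ4 p, f u ≤ p * ((p : ℝ) ^ 2 - 1) * (p : ℝ) ^ 3) :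
    mL (Law5 δ1 δ4 p) f ≤ 2 / (p : ℝ) ^ 2 := by
  have hp2 : (2 : ℝ) ≤ p := by exact_mod_cast hp.two_le
  have hc : ((Law5 δ1 δ4 p).card : ℝ) =
      (p * ((p : ℝ) ^ 2 - 1)) * ((p * ((p : ℝ) ^ 2 - 1)) * (p : ℝ) ^ 2) := by
    have h := Law5_sum δ1 δ4 p (fun _ => 1)
    simp only [Finset.sum_const, nsmul_eq_mul, mul_one] at h
    rw [h, ph8_L2card hp h1, ph8_L2card hp h4, ph8_L1card]
  have hs : (3 : ℝ) ≤ (p : ℝ) ^ 2 - 1 := by nlinarith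
  have hpp : (0 : ℝ) < p := by linarith
  unfold mL
  rw [hc, div_le_div_iff₀ (by positivity) (by positivity)]
  have k1 : (∑ u ∈ Law5 δ1 δ4 p, f u) * (p : ℝ) ^ 2 ≤
      p * ((p : ℝ) ^ 2 - 1) * (p : ℝ) ^ 3 * (p : ℝ) ^ 2 :=
    mul_le_mul_of_nonneg_right hf (by positivity)
  refine k1.trans ?_
  have e : 2 * (p * ((p : ℝ) ^ 2 - 1) * (p * ((p : ℝ) ^ 2 - 1) * (p : ℝ) ^ 2)) -
      p * ((p : ℝ) ^ 2 - 1) * (p : ℝ) ^ 3 * (p : ℝ) ^ 2 =
      (p : ℝ) ^ 4 * ((p : ℝ) ^ 2 - 1) * ((p : ℝ) ^ 2 - 2) := by ring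
  have e2 : 0 ≤ (p : ℝ) ^ 4 * ((p : ℝ) ^ 2 - 1) * ((p : ℝ) ^ 2 - 2) :=
    mul_nonneg (mul_nonneg (by positivity) (by linarith)) (by linarith)
  linarith

theorem law_G_pr : ∀ p : ℕ, p.Prime → 2 < p → ∀ δ1 δ4 : ℤ, ¬ (p : ℤ) ∣ δ1 → ¬ (p : ℤ) ∣ δ4 →
    ∀ L : ℤ × ℤ, ¬ ((p : ℤ) ∣ L.1 ∧ (p : ℤ) ∣ L.2) →
    mL (Law5 δ1 δ4 p) (fun u => ich ((p : ℤ) ∣ dl u 0 ∧ (p : ℤ) ∣ dt L (cv u 2))) ≤
        2 / (p : ℝ) ^ 2 ∧
      mL (Law5 δ1 δ4 p) (fun u => ich ((p : ℤ) ∣ dl u 2 ∧ (p : ℤ) ∣ dt L (cv u 2))) ≤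
        2 / (p : ℝ) ^ 2 ∧
      mL (Law5 δ1 δ4 p) (fun u => ich ((p : ℤ) ∣ dl u 3 ∧ (p : ℤ) ∣ dt L (cv u 4))) ≤
        2 / (p : ℝ) ^ 2 := by
  intro p hp _ δ1 δ4 h1 h4 L hL
  have hpz : Prime (p : ℤ) := Nat.prime_iff_prime_int.1 hp
  have hp2 : (2 : ℝ) ≤ p := by exact_mod_cast hp.two_le
  have hpp : (0 : ℝ) < p := by linarith
  have mem2 : ∀ {δ : ℤ} {v : (ℤ × ℤ) × (ℤ × ℤ)}, v ∈ L2 δ p → (p : ℤ) ∣ dt v.1 v.2 - δ := by
    intro δ v hv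
    rw [L2, Finset.mem_filter] at hv
    exact hv.2
  -- the second condition for `cv u 2`
  have eq2 : ∀ v w : (ℤ × ℤ) × (ℤ × ℤ), ∀ c : ℤ × ℤ,
      dt L (cv (![w.2, v.1, v.2, c, w.1] : PolyK 5) 2) =
        L.1 * dt w.2 v.2 - L.2 * dt v.2 v.1 := fun _ _ _ => rfl
  have eq4 : ∀ v w : (ℤ × ℤ) × (ℤ × ℤ), ∀ c : ℤ × ℤ,
      dt L (cv (![w.2, v.1, v.2, c, w.1] : PolyK 5) 4) =
        L.1 * dt w.2 w.1 - L.2 * dt w.1 v.1 := fun _ _ _ => rfl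
  have no1 : ∀ {v : (ℤ × ℤ) × (ℤ × ℤ)}, v ∈ L2 δ1 p → (p : ℤ) ∣ L.1 → ∀ z : ℤ × ℤ,
      ¬ (p : ℤ) ∣ L.1 * dt z v.2 - L.2 * dt v.2 v.1 := by
    intro v hv hL1 z h
    have hL2 : ¬ (p : ℤ) ∣ L.2 := fun h2 => hL ⟨hL1, h2⟩
    have k : (p : ℤ) ∣ L.2 * dt v.2 v.1 := by
      have := dvd_sub (dvd_mul_of_dvd_left hL1 (dt z v.2)) h
      rwa [sub_sub_cancel] at this
    have k2 := (hpz.dvd_or_dvd k).resolve_left hL2
    rw [ph8_neg, dvd_neg] at k2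
    apply h1
    have := dvd_sub k2 (mem2 hv)
    rwa [sub_sub_cancel] at this
  refine ⟨ph8_fin hp h1 h4 _ ?_, ph8_fin hp h1 h4 _ ?_, ph8_fin hp h1 h4 _ ?_⟩
  · rw [Law5_sum]
    have key : ∀ v ∈ L2 δ1 p, ∑ w ∈ L2 δ4 p, ∑ c ∈ L1 p,
        ich ((p : ℤ) ∣ dl (![w.2, v.1, v.2, c, w.1] : PolyK 5) 0 ∧
          (p : ℤ) ∣ dt L (cv (![w.2, v.1, v.2, c, w.1] : PolyK 5) 2)) ≤ (p : ℝ) ^ 3 := by
      intro v hv
      have e : ∀ w ∈ L2 δ4 p, ∑ c ∈ L1 p,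
          ich ((p : ℤ) ∣ dl (![w.2, v.1, v.2, c, w.1] : PolyK 5) 0 ∧
            (p : ℤ) ∣ dt L (cv (![w.2, v.1, v.2, c, w.1] : PolyK 5) 2)) =
          (p : ℝ) ^ 2 * ich ((p : ℤ) ∣ dt w.2 v.1 ∧
            (p : ℤ) ∣ L.1 * dt w.2 v.2 - L.2 * dt v.2 v.1) := by
        intro w _
        rw [← ph8_L1card, ← nsmul_eq_mul, ← Finset.sum_const]
        exact Finset.sum_congr rfl fun c _ => rfl
      rw [Finset.sum_congr rfl e, ← Finset.mul_sum]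
      have k := ph8_snd hp h4 (fun z => ich ((p : ℤ) ∣ dt z v.1 ∧
        (p : ℤ) ∣ L.1 * dt z v.2 - L.2 * dt v.2 v.1)) fun _ => (ph8_ich _).1
      have k2 : ∑ z ∈ L1 p, ich ((p : ℤ) ∣ dt z v.1 ∧
          (p : ℤ) ∣ L.1 * dt z v.2 - L.2 * dt v.2 v.1) ≤ 1 := by
        by_cases hL1 : (p : ℤ) ∣ L.1
        · rw [Finset.sum_eq_zero]
          · norm_num
          · intro z _
            unfold ich
            rw [if_neg fun h => no1 hv hL1 z h.2]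
        · exact ph8_one hp h1 (mem2 hv) hL1 _
      have k3 := mul_le_mul_of_nonneg_left k2 hpp.le
      have k4 := mul_le_mul_of_nonneg_left (k.trans k3) (show 0 ≤ (p : ℝ) ^ 2 by positivity)
      refine k4.trans (le_of_eq ?_)
      ring
    refine (Finset.sum_le_sum key).trans (le_of_eq ?_)
    rw [Finset.sum_const, nsmul_eq_mul, ph8_L2card hp h1]
  · rw [Law5_sum]
    have key : ∀ v ∈ L2 δ1 p, ∑ w ∈ L2 δ4 p, ∑ c ∈ L1 p,
        ich ((p : ℤ) ∣ dl (![w.2, v.1, v.2, c, w.1] : PolyK 5) 2 ∧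
          (p : ℤ) ∣ dt L (cv (![w.2, v.1, v.2, c, w.1] : PolyK 5) 2)) ≤ (p : ℝ) ^ 3 := by
      intro v hv
      have hv2 := (ph8_zero h1 (mem2 hv)).2
      have e : ∀ w ∈ L2 δ4 p, ∑ c ∈ L1 p,
          ich ((p : ℤ) ∣ dl (![w.2, v.1, v.2, c, w.1] : PolyK 5) 2 ∧
            (p : ℤ) ∣ dt L (cv (![w.2, v.1, v.2, c, w.1] : PolyK 5) 2)) ≤
          (p : ℝ) * ich ((p : ℤ) ∣ L.1 * dt w.2 v.2 - L.2 * dt v.2 v.1) := by
        intro w _
        have e0 : ∀ c ∈ L1 p, ich ((p : ℤ) ∣ dl (![w.2, v.1, v.2, c, w.1] : PolyK 5) 2 ∧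
            (p : ℤ) ∣ dt L (cv (![w.2, v.1, v.2, c, w.1] : PolyK 5) 2)) =
            ich ((p : ℤ) ∣ dt v.2 c) * ich ((p : ℤ) ∣ L.1 * dt w.2 v.2 - L.2 * dt v.2 v.1) :=
          fun c _ => ph8_ich_and _ _
        rw [Finset.sum_congr rfl e0, ← Finset.sum_mul]
        refine mul_le_mul_of_nonneg_right ?_ (ph8_ich _).1
        have k := ph8_line hp hv2 (m := 1) (by
          intro h
          exact hp.one_lt.ne' (by exact_mod_cast Int.eq_one_of_dvd_one (by positivity) h)) 0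
        refine le_trans (Finset.sum_le_sum fun c _ => ph8_ich_mono fun h => ?_) k
        rw [one_mul, sub_zero, ph8_neg, dvd_neg]
        exact h
      refine (Finset.sum_le_sum e).trans ?_
      rw [← Finset.mul_sum]
      have k := ph8_snd hp h4 (fun z => ich ((p : ℤ) ∣ L.1 * dt z v.2 - L.2 * dt v.2 v.1))
        fun _ => (ph8_ich _).1
      have k2 : ∑ z ∈ L1 p, ich ((p : ℤ) ∣ L.1 * dt z v.2 - L.2 * dt v.2 v.1) ≤ p := by
        by_cases hL1 : (p : ℤ) ∣ L.1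
        · rw [Finset.sum_eq_zero]
          · exact hpp.le
          · intro z _
            unfold ich
            rw [if_neg (no1 hv hL1 z)]
        · exact ph8_line hp hv2 hL1 _
      have k3 := mul_le_mul_of_nonneg_left k2 hpp.le
      have k4 := mul_le_mul_of_nonneg_left (k.trans k3) hpp.le
      refine k4.trans (le_of_eq ?_)
      ring
    refine (Finset.sum_le_sum key).trans (le_of_eq ?_)
    rw [Finset.sum_const, nsmul_eq_mul, ph8_L2card hp h1]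
  · rw [Law5_sum, Finset.sum_comm]
    have key : ∀ w ∈ L2 δ4 p, ∑ v ∈ L2 δ1 p, ∑ c ∈ L1 p,
        ich ((p : ℤ) ∣ dl (![w.2, v.1, v.2, c, w.1] : PolyK 5) 3 ∧
          (p : ℤ) ∣ dt L (cv (![w.2, v.1, v.2, c, w.1] : PolyK 5) 4)) ≤ (p : ℝ) ^ 3 := by
      intro w hw
      have hw1 := (ph8_zero h4 (mem2 hw)).1
      have e : ∀ v ∈ L2 δ1 p, ∑ c ∈ L1 p,
          ich ((p : ℤ) ∣ dl (![w.2, v.1, v.2, c, w.1] : PolyK 5) 3 ∧
            (p : ℤ) ∣ dt L (cv (![w.2, v.1, v.2, c, w.1] : PolyK 5) 4)) ≤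
          (p : ℝ) * ich ((p : ℤ) ∣ L.2 * dt v.1 w.1 - L.1 * dt w.1 w.2) := by
        intro v _
        have e0 : ∀ c ∈ L1 p, ich ((p : ℤ) ∣ dl (![w.2, v.1, v.2, c, w.1] : PolyK 5) 3 ∧
            (p : ℤ) ∣ dt L (cv (![w.2, v.1, v.2, c, w.1] : PolyK 5) 4)) =
            ich ((p : ℤ) ∣ dt c w.1) * ich ((p : ℤ) ∣ L.2 * dt v.1 w.1 - L.1 * dt w.1 w.2) := by
          intro c _
          rw [eq4, ph8_ich_and]
          have e1 : L.1 * dt w.2 w.1 - L.2 * dt w.1 v.1 =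
              L.2 * dt v.1 w.1 - L.1 * dt w.1 w.2 := by unfold dt; ring
          rw [e1]
          rfl
        rw [Finset.sum_congr rfl e0, ← Finset.sum_mul]
        refine mul_le_mul_of_nonneg_right ?_ (ph8_ich _).1
        have k := ph8_line hp hw1 (m := 1) (by
          intro h
          exact hp.one_lt.ne' (by exact_mod_cast Int.eq_one_of_dvd_one (by positivity) h)) 0
        refine le_trans (Finset.sum_le_sum fun c _ => ph8_ich_mono fun h => ?_) k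
        rw [one_mul, sub_zero]
        exact h
      refine (Finset.sum_le_sum e).trans ?_
      rw [← Finset.mul_sum]
      have k := ph8_fst hp h1 (fun z => ich ((p : ℤ) ∣ L.2 * dt z w.1 - L.1 * dt w.1 w.2))
        fun _ => (ph8_ich _).1
      have k2 : ∑ z ∈ L1 p, ich ((p : ℤ) ∣ L.2 * dt z w.1 - L.1 * dt w.1 w.2) ≤ p := by
        by_cases hL2 : (p : ℤ) ∣ L.2
        · rw [Finset.sum_eq_zero]
          · exact hpp.le
          · intro z _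
            unfold ich
            rw [if_neg]
            intro h
            have hL1 : ¬ (p : ℤ) ∣ L.1 := fun h2 => hL ⟨h2, hL2⟩
            have k : (p : ℤ) ∣ L.1 * dt w.1 w.2 := by
              have := dvd_sub (dvd_mul_of_dvd_left hL2 (dt z w.1)) h
              rwa [sub_sub_cancel] at this
            have k2 := (hpz.dvd_or_dvd k).resolve_left hL1
            apply h4
            have := dvd_sub k2 (mem2 hw)
            rwa [sub_sub_cancel] at this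
        · exact ph8_line hp hw1 hL2 _
      have k3 := mul_le_mul_of_nonneg_left k2 hpp.le
      have k4 := mul_le_mul_of_nonneg_left (k.trans k3) hpp.le
      refine k4.trans (le_of_eq ?_)
      ring
    refine (Finset.sum_le_sum key).trans (le_of_eq ?_)
    rw [Finset.sum_const, nsmul_eq_mul, ph8_L2card hp h4]

end Pool.Agent.PENK

namespace Pool.Agent.PENK

theorem law_G : type_of% @law_G_pr := @law_G_pr

end Pool.Agent.PENK
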