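import Pool.Agent.Lib_helper18.PENKF.DefsW
import Pool.Agent.Lib_helper18.PENKF.PB2
import Pool.Agent.Lib_helper18.PENKF.PB3
import Pool.Agent.Lib_helper18.PENKF.PF7
import Pool.Agent.Lib_helper18.PENKF.PF8
import Pool.Agent.Lib_helper18.PENKF.PF9
import Pool.Agent.Lib_helper18.PENKF.PH8

set_option autoImplicit false

namespace Pool.Agent.PENK

open Finset Pool.Agent.PENT

/-- the event at `p` -/
def ph9_ev (p : ℕ) (L : ℤ × ℤ) (v : PolyK 5) : Prop :=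
  ((p : ℤ) ∣ dl v 0 ∧ (p : ℤ) ∣ dt L (cv v 2)) ∨ ((p : ℤ) ∣ dl v 2 ∧ (p : ℤ) ∣ dt L (cv v 2)) ∨
    ((p : ℤ) ∣ dl v 3 ∧ (p : ℤ) ∣ dt L (cv v 4))

theorem ph9_dt {p : ℤ} {a a' b b' : ℤ × ℤ} (h1 : p ∣ a.1 - a'.1) (h2 : p ∣ a.2 - a'.2)
    (h3 : p ∣ b.1 - b'.1) (h4 : p ∣ b.2 - b'.2) : p ∣ dt a b - dt a' b' := by
  have h : dt a b - dt a' b' = (a.1 - a'.1) * b.2 + a'.1 * (b.2 - b'.2) -
      (a.2 - a'.2) * b.1 - a'.2 * (b.1 - b'.1) := by
    unfold dt; ring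
  rw [h]
  exact ((((h1.mul_right _).add (h4.mul_left _)).sub (h2.mul_right _)).sub (h3.mul_left _))

theorem ph9_per (p : ℕ) (L : ℤ × ℤ) : PerP p (fun v : PolyK 5 => ich (ph9_ev p L v)) := by
  intro v v' h
  have hdt : ∀ i j : Fin 5, (p : ℤ) ∣ dt (v i) (v j) - dt (v' i) (v' j) := fun i j =>
    ph9_dt (h i).1 (h i).2 (h j).1 (h j).2
  have hdl : ∀ j : Fin 5, (p : ℤ) ∣ dl v j ↔ (p : ℤ) ∣ dl v' j := fun j =>
    (dvd_iff_dvd_of_dvd_sub (hdt j (j + 1)))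
  have hcv : ∀ k : Fin 5, (p : ℤ) ∣ dt L (cv v k) ↔ (p : ℤ) ∣ dt L (cv v' k) := fun k =>
    dvd_iff_dvd_of_dvd_sub (ph9_dt (by simp) (by simp) (hdt k 1) (hdt 0 k))
  have : ph9_ev p L v ↔ ph9_ev p L v' := by
    unfold ph9_ev
    rw [hdl 0, hdl 2, hdl 3, hcv 2, hcv 4]
  show ich (ph9_ev p L v) = ich (ph9_ev p L v')
  rw [propext this]

theorem ph9_ich01 (a : Prop) : 0 ≤ ich a ∧ ich a ≤ 1 := by
  unfold ich
  split_ifs <;> norm_num

theorem ph9_ich_or (a b : Prop) : ich (a ∨ b) ≤ ich a + ich b := by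
  unfold ich
  by_cases ha : a <;> by_cases hb : b <;> simp [ha, hb]

theorem ph9_mean {p : ℕ} (hp : p.Prime) (hp2 : 2 < p) {δ1 δ4 : ℤ} (h1 : ¬ (p : ℤ) ∣ δ1)
    (h4 : ¬ (p : ℤ) ∣ δ4) {L : ℤ × ℤ} (hL : ¬ ((p : ℤ) ∣ L.1 ∧ (p : ℤ) ∣ L.2)) :
    mL (Law5 δ1 δ4 p) (fun v => ich (ph9_ev p L v)) ≤ 6 / (p : ℝ) ^ 2 := by
  obtain ⟨a0, a2, a3⟩ := law_G p hp hp2 δ1 δ4 h1 h4 L hL
  have hle : mL (Law5 δ1 δ4 p) (fun v => ich (ph9_ev p L v)) ≤
      mL (Law5 δ1 δ4 p) (fun u => ich ((p : ℤ) ∣ dl u 0 ∧ (p : ℤ) ∣ dt L (cv u 2))) +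
      (mL (Law5 δ1 δ4 p) (fun u => ich ((p : ℤ) ∣ dl u 2 ∧ (p : ℤ) ∣ dt L (cv u 2))) +
      mL (Law5 δ1 δ4 p) (fun u => ich ((p : ℤ) ∣ dl u 3 ∧ (p : ℤ) ∣ dt L (cv u 4)))) := by
    unfold mL
    rw [← add_div, ← add_div]
    apply div_le_div_of_nonneg_right _ (by positivity)
    rw [← Finset.sum_add_distrib, ← Finset.sum_add_distrib]
    apply Finset.sum_le_sum
    intro v _
    exact le_trans (ph9_ich_or _ _) (add_le_add le_rfl (ph9_ich_or _ _))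
  have : (6 : ℝ) / (p : ℝ) ^ 2 = 2 / (p : ℝ) ^ 2 + (2 / (p : ℝ) ^ 2 + 2 / (p : ℝ) ^ 2) := by ring
  linarith

theorem ph9_par {p : ℤ} (hp : Prime p) {a b c : ℤ × ℤ} (hb : ¬ (p ∣ b.1 ∧ p ∣ b.2))
    (h1 : p ∣ dt a b) (h2 : p ∣ dt b c) : p ∣ dt a c := by
  have e1 : b.1 * dt a c = dt a b * c.1 + dt b c * a.1 := by unfold dt; ring
  have e2 : b.2 * dt a c = dt a b * c.2 + dt b c * a.2 := by unfold dt; ring
  have d1 : p ∣ b.1 * dt a c := by
    rw [e1]; exact (h1.mul_right _).add (h2.mul_right _)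
  have d2 : p ∣ b.2 * dt a c := by
    rw [e2]; exact (h1.mul_right _).add (h2.mul_right _)
  rcases hp.dvd_or_dvd d1 with h | h
  · rcases hp.dvd_or_dvd d2 with h' | h'
    · exact absurd ⟨h, h'⟩ hb
    · exact h'
  · exact h

theorem ph9_inr : inr 5 = {0, 2, 3} := by decide

theorem ph9_bad (u : PolyK 5) : bad u = dn u 0 * (dn u 2 * dn u 3) := by
  unfold bad
  rw [ph9_inr]
  rw [Finset.prod_insert (by decide), Finset.prod_insert (by decide), Finset.prod_singleton]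

theorem ph9_DD {u : PolyK 5} {p : ℕ} (h : p ∣ bad u) : p ∣ DD u := by
  unfold DD
  refine h.trans ?_
  unfold bad
  exact Finset.prod_dvd_prod_of_subset _ _ _ (Finset.subset_univ _)

theorem ph9_event {q : Par 5} {x : ℝ} {P0 : ℕ} {u v : PolyK 5} (hv : IsPoly q x P0 v)
    {p : ℕ} (hp : p.Prime) (hbv : p ∣ bad v) (hs : SameL u v p) : ph9_ev p (Lv u p) v := by
  have hpi : Prime (p : ℤ) := Nat.prime_iff_prime_int.mp hp
  have hne := Lv_ne (le_refl 5) hv hp (ph9_DD hbv)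
  have hs' : (p : ℤ) ∣ dt (Lv u p) (Lv v p) := hs
  rw [ph9_bad] at hbv
  have m2 : (2 : Fin 5) ∈ inr 5 := by decide
  have m3 : (3 : Fin 5) ∈ inr 5 := by decide
  have k2 : (2 : Fin 5) ∈ ivr 5 := by decide
  rcases (Nat.Prime.dvd_mul hp).mp hbv with h | h
  · left
    refine ⟨Int.natCast_dvd.mpr h, ?_⟩
    exact ph9_par hpi hne hs' (Lv_par0 (le_refl 5) hv hp h 2 k2).1
  · rcases (Nat.Prime.dvd_mul hp).mp h with h | h
    · right; left
      refine ⟨Int.natCast_dvd.mpr h, ?_⟩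
      exact ph9_par hpi hne hs' (Lv_par (le_refl 5) hv hp m2 (by decide) h).1
    · right; right
      refine ⟨Int.natCast_dvd.mpr h, ?_⟩
      exact ph9_par hpi hne hs' (Lv_par (le_refl 5) hv hp m3 (by decide) h).2

theorem ph9_count (q : Par 5) (hq : q.Ok) {x : ℝ} {P0 : ℕ} (i : Fin 5 → ℕ) (δ1 δ4 : ℤ)
    (B : Finset (PolyK 5)) (T : Finset ℕ) (h : ℕ → PolyK 5 → ℝ)
    (hB : ∀ v ∈ B, IsPoly q x P0 v ∧ Siz i v ∧ dl v 1 = δ1 ∧ dl v 4 = δ4)
    (h0 : ∀ p v, 0 ≤ h p v) (h1 : ∀ v ∈ B, ∀ p ∈ T, h p v = 1) :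
    (B.card : ℝ) ≤ ∑ o ∈ O5 i, ∏ p ∈ T, h p (pol5 i δ1 δ4 o) := by
  classical
  have hex : ∀ v ∈ B, ∃ o ∈ O5 i, pol5 i δ1 δ4 o = v := by
    intro v hv
    obtain ⟨a, b, c, d⟩ := hB v hv
    have := pent_mem q hq a b
    rw [c, d] at this
    exact this
  choose! g hg1 hg2 using hex
  have hinj : Set.InjOn g B := by
    intro a ha b hb hab
    rw [← hg2 a ha, ← hg2 b hb, hab]
  have e1 : (B.card : ℝ) = ∑ v ∈ B, ∏ p ∈ T, h p (pol5 i δ1 δ4 (g v)) := by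
    rw [Finset.card_eq_sum_ones]
    push_cast
    apply Finset.sum_congr rfl
    intro v hv
    rw [hg2 v hv, Finset.prod_eq_one (fun p hp => h1 v hv p hp)]
  rw [e1, ← Finset.sum_image (f := fun o => ∏ p ∈ T, h p (pol5 i δ1 δ4 o))
    (fun a ha b hb hab => hinj ha hb hab)]
  apply Finset.sum_le_sum_of_subset_of_nonneg
  · intro o ho
    rw [Finset.mem_image] at ho
    obtain ⟨v, hv, rfl⟩ := ho
    exact hg1 v hv
  · intro o _ _
    exact Finset.prod_nonneg (fun p _ => h0 _ _)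

theorem ph9_dn_le (u : PolyK 5) (j : Fin 5) : dn u j ≤ nr (u j) * nr (u (j + 1)) := by
  have h : ∀ a b : ℤ × ℤ, (dt a b).natAbs ≤ nr a * nr b := by
    intro a b
    unfold dt nr
    have h1 : (a.1 * b.2 - a.2 * b.1).natAbs ≤ (a.1 * b.2).natAbs + (a.2 * b.1).natAbs :=
      Int.natAbs_sub_le _ _
    rw [Int.natAbs_mul, Int.natAbs_mul] at h1
    nlinarith [Nat.zero_le (a.1.natAbs * b.1.natAbs), Nat.zero_le (a.2.natAbs * b.2.natAbs)]
  exact h _ _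

theorem ph9_bad_le (q : Par 5) (hq : q.Ok) {x : ℝ} (hx : 1 ≤ x) {P0 : ℕ} {u : PolyK 5}
    (hu : IsPoly q x P0 u) : (bad u : ℝ) ≤ x := by
  have hx0 : 0 < x := by linarith
  have hs := hq.hs
  have he := hq.he
  have hε := hq.ε0
  have hδ := hq.δ1
  have hd : ∀ j : Fin 5, (dn u j : ℝ) ≤ x ^ (q.e j + q.ε / 50) * x ^ (q.e (j + 1) + q.ε / 50) := by
    intro j
    have h1 : (dn u j : ℝ) ≤ (nr (u j) : ℝ) * (nr (u (j + 1)) : ℝ) := by
      exact_mod_cast ph9_dn_le u j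
    exact h1.trans (mul_le_mul (hu.hi j) (hu.hi (j + 1)) (by positivity) (by positivity))
  rw [ph9_bad]
  push_cast
  have e01 : (0 : Fin 5) + 1 = 1 := by decide
  have e23 : (2 : Fin 5) + 1 = 3 := by decide
  have e34 : (3 : Fin 5) + 1 = 4 := by decide
  have d0 := hd 0
  have d2 := hd 2
  have d3 := hd 3
  rw [e01] at d0
  rw [e23] at d2
  rw [e34] at d3
  rw [← Real.rpow_add hx0] at d0 d2 d3
  have hs' : q.e 0 + q.e 1 + q.e 2 + q.e 3 + q.e 4 + 5 * q.ε ≤ q.δ / 50 := by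
    have : ∑ j, (q.e j + q.ε) = q.e 0 + q.e 1 + q.e 2 + q.e 3 + q.e 4 + 5 * q.ε := by
      rw [Fin.sum_univ_five]; ring
    linarith
  calc (dn u 0 : ℝ) * ((dn u 2 : ℝ) * (dn u 3 : ℝ)) ≤
      x ^ (q.e 0 + q.ε / 50 + (q.e 1 + q.ε / 50)) * (x ^ (q.e 2 + q.ε / 50 + (q.e 3 + q.ε / 50)) *
        x ^ (q.e 3 + q.ε / 50 + (q.e 4 + q.ε / 50))) := by
        apply mul_le_mul d0 _ (by positivity) (by positivity)
        exact mul_le_mul d2 d3 (by positivity) (by positivity)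
    _ = x ^ (q.e 0 + q.ε / 50 + (q.e 1 + q.ε / 50) + (q.e 2 + q.ε / 50 + (q.e 3 + q.ε / 50) +
        (q.e 3 + q.ε / 50 + (q.e 4 + q.ε / 50)))) := by
        rw [← Real.rpow_add hx0, ← Real.rpow_add hx0]
    _ ≤ x ^ (1 : ℝ) := by
        apply Real.rpow_le_rpow_of_exponent_le hx
        have h0 := he 0
        have h1 := he 1
        have h2 := he 2
        have h3 := he 3
        have h4 := he 4
        linarith
    _ = x := Real.rpow_one x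

theorem ph9_omega {n : ℕ} {x : ℝ} (hn : 0 < n) (hnx : (n : ℝ) ≤ x) :
    (n.primeFactors.card : ℝ) ≤ 2 * Real.log x := by
  have h1 : 2 ^ n.primeFactors.card ≤ n := by
    calc 2 ^ n.primeFactors.card = ∏ p ∈ n.primeFactors, 2 := by
          rw [Finset.prod_const]
      _ ≤ ∏ p ∈ n.primeFactors, p := by
          apply Finset.prod_le_prod'
          intro p hp
          exact (Nat.prime_of_mem_primeFactors hp).two_le
      _ ≤ n := Nat.le_of_dvd hn (Nat.prod_primeFactors_dvd n)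
  have h2 : ((2 : ℝ) ^ n.primeFactors.card) ≤ x := by
    refine le_trans ?_ hnx
    exact_mod_cast h1
  have h3 := Real.log_le_log (by positivity) h2
  rw [Real.log_pow] at h3
  have h4 : (1 : ℝ) / 2 ≤ Real.log 2 := by
    have := Real.log_two_gt_d9
    linarith
  have h5 : (0 : ℝ) ≤ (n.primeFactors.card : ℝ) := by positivity
  nlinarith

/-- the sum over nonempty sets of primes -/
theorem ph9_sets (W : Finset ℕ) (P : Finset (Finset ℕ)) (hP : ∀ T ∈ P, T ⊆ W ∧ T.Nonempty)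
    {L : ℝ} (hL : 2 ≤ L) (hW : ∀ p ∈ W, L ^ 60 ≤ (p : ℝ)) (hc : (W.card : ℝ) ≤ 2 * L) :
    ∑ T ∈ P, ∏ p ∈ T, (6 / (p : ℝ)) ≤ 24 / L ^ 59 := by
  classical
  have hL0 : 0 < L := by linarith
  have h1 : ∑ T ∈ P, ∏ p ∈ T, (6 / (p : ℝ)) ≤
      ∑ T ∈ W.powerset.erase ∅, ∏ p ∈ T, (6 / (p : ℝ)) := by
    apply Finset.sum_le_sum_of_subset_of_nonneg
    · intro T hT
      obtain ⟨h, h'⟩ := hP T hT
      rw [Finset.mem_erase, Finset.mem_powerset]
      exact ⟨h'.ne_empty, h⟩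
    · intro T _ _
      exact Finset.prod_nonneg (fun p _ => by positivity)
  have h2 : ∑ T ∈ W.powerset.erase ∅, ∏ p ∈ T, (6 / (p : ℝ)) =
      ∏ p ∈ W, (1 + 6 / (p : ℝ)) - 1 := by
    rw [Finset.prod_one_add]
    rw [← Finset.add_sum_erase W.powerset _ (Finset.empty_mem_powerset W)]
    rw [Finset.prod_empty]
    ring
  have h3 : ∏ p ∈ W, (1 + 6 / (p : ℝ)) ≤ Real.exp (12 / L ^ 59) := by
    calc ∏ p ∈ W, (1 + 6 / (p : ℝ)) ≤ ∏ p ∈ W, Real.exp (6 / (L ^ 60)) := by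
          apply Finset.prod_le_prod
          · intro p _
            positivity
          · intro p hp
            have h4 : 6 / (p : ℝ) ≤ 6 / L ^ 60 :=
              div_le_div_of_nonneg_left (by norm_num) (by positivity) (hW p hp)
            have h5 := Real.add_one_le_exp (6 / L ^ 60)
            linarith
      _ = Real.exp (W.card * (6 / L ^ 60)) := by
          rw [Finset.prod_const, ← Real.exp_nat_mul]
      _ ≤ Real.exp (12 / L ^ 59) := by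
          apply Real.exp_le_exp.mpr
          calc (W.card : ℝ) * (6 / L ^ 60) ≤ 2 * L * (6 / L ^ 60) :=
                mul_le_mul_of_nonneg_right hc (by positivity)
            _ = 12 / L ^ 59 := by
                field_simp
                ring
  have h6 : (12 : ℝ) / L ^ 59 ≤ 1 := by
    rw [div_le_one (by positivity)]
    calc (12 : ℝ) ≤ 2 ^ 59 := by norm_num
      _ ≤ L ^ 59 := pow_le_pow_left₀ (by norm_num) hL 59
  have h7 := Real.abs_exp_sub_one_le (x := 12 / L ^ 59) (by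
    rw [abs_of_nonneg (by positivity)]; exact h6)
  rw [abs_of_nonneg (by
    have := Real.add_one_le_exp (12 / L ^ 59)
    have h8 : (0 : ℝ) ≤ 12 / L ^ 59 := by positivity
    linarith), abs_of_nonneg (by positivity : (0 : ℝ) ≤ 12 / L ^ 59)] at h7
  have h9 : (24 : ℝ) / L ^ 59 = 2 * (12 / L ^ 59) := by ring
  rw [h9]
  linarith

theorem ph9_Gc {u v : PolyK 5} (_hb : 0 < bad u) : Gc u v = ∏ p ∈ (Gc u v).primeFactors, p ∧
    ∀ p ∈ (Gc u v).primeFactors, p.Prime ∧ p ∣ bad u ∧ p ∣ bad v ∧ SameL u v p := by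
  classical
  have h1 : (Gc u v).primeFactors =
      (Nat.gcd (bad u) (bad v)).primeFactors.filter (SameL u v) := by
    unfold Gc
    rw [Nat.primeFactors_prod]
    · intro p hp
      exact Nat.prime_of_mem_primeFactors (Finset.mem_filter.mp hp).1
  constructor
  · rw [h1]
    unfold Gc
    rfl
  · intro p hp
    rw [h1, Finset.mem_filter] at hp
    obtain ⟨hp1, hp2⟩ := hp
    have hd := Nat.dvd_of_mem_primeFactors hp1
    exact ⟨Nat.prime_of_mem_primeFactors hp1, hd.trans (Nat.gcd_dvd_left _ _),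
      hd.trans (Nat.gcd_dvd_right _ _), hp2⟩

theorem ph9_pos {q : Par 5} {x : ℝ} {P0 : ℕ} {u : PolyK 5} (hu : IsPoly q x P0 u) :
    0 < bad u := by
  have h : ∀ j, 0 < dn u j := fun j => Nat.pos_of_ne_zero (hu.sq j).ne_zero
  rw [ph9_bad]
  exact Nat.mul_pos (h 0) (Nat.mul_pos (h 2) (h 3))

/-- lower bound for `bad` in a cell -/
theorem ph9_bad_ge {q : Par 5} (hq : q.Ok) {i : Fin 5 → ℕ} {v : PolyK 5} (hs : Sep q v)
    (hi : Siz i v) : q.c3 ^ 3 * ((2 : ℝ) ^ i 0 * 2 ^ i 1 * 2 ^ i 2 * 2 ^ i 4 * (2 ^ i 3) ^ 2) ≤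
      bad v := by
  have hc := hq.c30
  have hd : ∀ j k : Fin 5, j ≠ k → k = j + 1 →
      q.c3 * 2 ^ i j * 2 ^ i k ≤ (dn v j : ℝ) := by
    intro j k hjk hk
    have h1 := hs j k hjk
    have h2 : (dn v j : ℝ) = |(dt (v j) (v k) : ℝ)| := by
      unfold dn dl
      rw [hk, Nat.cast_natAbs, Int.cast_abs]
    rw [h2]
    refine le_trans ?_ h1
    have h3 : (2 : ℝ) ^ i j ≤ nr (v j) := by exact_mod_cast (hi j).1
    have h4 : (2 : ℝ) ^ i k ≤ nr (v k) := by exact_mod_cast (hi k).1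
    apply mul_le_mul _ h4 (by positivity) (by positivity)
    exact mul_le_mul_of_nonneg_left h3 hc.le
  have d0 := hd 0 1 (by decide) (by decide)
  have d2 := hd 2 3 (by decide) (by decide)
  have d3 := hd 3 4 (by decide) (by decide)
  rw [ph9_bad]
  push_cast
  calc q.c3 ^ 3 * ((2 : ℝ) ^ i 0 * 2 ^ i 1 * 2 ^ i 2 * 2 ^ i 4 * (2 ^ i 3) ^ 2) =
      (q.c3 * 2 ^ i 0 * 2 ^ i 1) * ((q.c3 * 2 ^ i 2 * 2 ^ i 3) * (q.c3 * 2 ^ i 3 * 2 ^ i 4)) := by
        ring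
    _ ≤ (dn v 0 : ℝ) * ((dn v 2 : ℝ) * (dn v 3 : ℝ)) := by
        apply mul_le_mul d0 _ (by positivity) (by positivity)
        exact mul_le_mul d2 d3 (by positivity) (by positivity)

theorem ph9_sizok {q : Par 5} {x : ℝ} {P0 : ℕ} {v : PolyK 5} (hv : IsPoly q x P0 v)
    {i : Fin 5 → ℕ} (hi : Siz i v) : SizOk q x i := by
  intro j
  obtain ⟨h1, h2⟩ := hi j
  have h1' : (2 : ℝ) ^ i j ≤ nr (v j) := by exact_mod_cast h1
  have h2' : (nr (v j) : ℝ) < 2 ^ (i j + 1) := by exact_mod_cast h2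
  refine ⟨?_, h1'.trans (hv.hi j)⟩
  have := hv.lo j
  rw [pow_succ] at h2'
  linarith

/-- the bound for one value of `G` -/
theorem ph9_fix (q : Par 5) (hq : q.Ok) {x : ℝ} (hx : 1 ≤ x) {P0 : ℕ} (hP0 : 2 ≤ P0)
    {u : PolyK 5} (hu : IsPoly q x P0 u) (i : Fin 5 → ℕ) (δ1 δ4 : ℤ)
    (hE : ∀ S : Finset ℕ, (∀ p ∈ S, p.Prime ∧ ¬ (p : ℤ) ∣ δ1 ∧ ¬ (p : ℤ) ∣ δ4) →
      EquiF (O5 i) (pol5 i δ1 δ4) (Law5 δ1 δ4) S (x ^ q.ε) (x ^ (-q.ε)))
    (A : Finset (PolyK 5)) (G : ℕ) (hGx : (G : ℝ) ≤ x ^ q.ε) (hAne : A.Nonempty)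
    (hA : ∀ v ∈ A, IsPoly q x P0 v ∧ Siz i v ∧ dl v 1 = δ1 ∧ dl v 4 = δ4 ∧ Gc u v = G) :
    (A.card : ℝ) ≤ (O5 i).card * (∏ p ∈ G.primeFactors, 6 / (p : ℝ) ^ 2 + x ^ (-q.ε)) := by
  classical
  obtain ⟨v0, hv0⟩ := hAne
  obtain ⟨a1, a2, a3, a4, a5⟩ := hA v0 hv0
  have hb := ph9_pos hu
  obtain ⟨g1, g2⟩ := ph9_Gc (v := v0) hb
  rw [a5] at g1 g2
  set T := G.primeFactors with hT
  have hTp : ∀ p ∈ T, p.Prime ∧ ¬ (p : ℤ) ∣ δ1 ∧ ¬ (p : ℤ) ∣ δ4 := by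
    intro p hp
    obtain ⟨b1, b2, b3, b4⟩ := g2 p hp
    rw [ph9_bad] at b3
    have key : ∀ k : Fin 5, k ≠ 0 → k ≠ 2 → k ≠ 3 → ¬ (p : ℤ) ∣ dl v0 k := by
      intro k k0 k2 k3 hk
      have hk' : p ∣ dn v0 k := Int.natCast_dvd.mp hk
      rcases (Nat.Prime.dvd_mul b1).mp b3 with h | h
      · exact Nat.not_coprime_of_dvd_of_dvd b1.one_lt hk' h (a1.co k 0 k0)
      · rcases (Nat.Prime.dvd_mul b1).mp h with h | h
        · exact Nat.not_coprime_of_dvd_of_dvd b1.one_lt hk' h (a1.co k 2 k2)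
        · exact Nat.not_coprime_of_dvd_of_dvd b1.one_lt hk' h (a1.co k 3 k3)
    refine ⟨b1, ?_, ?_⟩
    · rw [← a3]; exact key 1 (by decide) (by decide) (by decide)
    · rw [← a4]; exact key 4 (by decide) (by decide) (by decide)
  have hcount := ph9_count q hq (x := x) (P0 := P0) i δ1 δ4 A T
    (fun p v => ich (ph9_ev p (Lv u p) v))
    (fun v hv => ⟨(hA v hv).1, (hA v hv).2.1, (hA v hv).2.2.1, (hA v hv).2.2.2.1⟩)
    (fun p v => (ph9_ich01 _).1)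
    (by
      intro v hv p hp
      obtain ⟨c1, c2, c3, c4, c5⟩ := hA v hv
      obtain ⟨_, g2'⟩ := ph9_Gc (v := v) hb
      rw [c5] at g2'
      obtain ⟨b1, b2, b3, b4⟩ := g2' p hp
      have hev := ph9_event c1 b1 b3 b4
      show ich (ph9_ev p (Lv u p) v) = 1
      unfold ich
      rw [if_pos hev])
  have hprod : ((∏ p ∈ T, p : ℕ) : ℝ) ≤ x ^ q.ε := by
    rw [← g1]
    exact hGx
  have hequi := hE T hTp T (Finset.Subset.refl T) hprod
    (fun p v => ich (ph9_ev p (Lv u p) v)) (fun p _ => ph9_per p (Lv u p))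
    (fun p _ v => ph9_ich01 _)
  have hmean : ∏ p ∈ T, mL (Law5 δ1 δ4 p) (fun v => ich (ph9_ev p (Lv u p) v)) ≤
      ∏ p ∈ T, 6 / (p : ℝ) ^ 2 := by
    apply Finset.prod_le_prod
    · intro p _
      unfold mL
      apply div_nonneg _ (Nat.cast_nonneg _)
      exact Finset.sum_nonneg (fun v _ => (ph9_ich01 _).1)
    · intro p hp
      obtain ⟨b1, b2, b3, b4⟩ := g2 p hp
      obtain ⟨_, t1, t4⟩ := hTp p hp
      have hgt : 2 < p := by
        rw [ph9_bad] at b2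
        have : P0 < p := by
          rcases (Nat.Prime.dvd_mul b1).mp b2 with h | h
          · exact hu.ro 0 p b1 h
          · rcases (Nat.Prime.dvd_mul b1).mp h with h | h
            · exact hu.ro 2 p b1 h
            · exact hu.ro 3 p b1 h
        omega
      exact ph9_mean b1 hgt t1 t4 (Lv_ne (le_refl 5) hu b1 (ph9_DD b2))
  have h1 := (abs_le.mp hequi).2
  have hO : (0 : ℝ) ≤ (O5 i).card := Nat.cast_nonneg _
  have h2 := mul_le_mul_of_nonneg_left hmean hO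
  calc (A.card : ℝ) ≤ ∑ o ∈ O5 i, ∏ p ∈ T, ich (ph9_ev p (Lv u p) (pol5 i δ1 δ4 o)) := hcount
    _ ≤ (O5 i).card * ∏ p ∈ T, mL (Law5 δ1 δ4 p) (fun v => ich (ph9_ev p (Lv u p) v)) +
        x ^ (-q.ε) * (O5 i).card := by linarith
    _ ≤ (O5 i).card * (∏ p ∈ T, 6 / (p : ℝ) ^ 2 + x ^ (-q.ε)) := by
        rw [mul_add, mul_comm (x ^ (-q.ε))]
        linarith

theorem ph9_x0 (c ε : ℝ) (hc : 0 < c) (hε : 0 < ε) : ∃ x₀ : ℝ, 2 ≤ x₀ ∧ ∀ x ≥ x₀,
    2 ≤ Real.log x ∧ c * (24 / Real.log x ^ 59 + x ^ (ε / 8) * (x ^ (ε / 8) * x ^ (-ε))) ≤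
      Real.log x ^ (-58 : ℝ) := by
  have hl := isLittleO_log_rpow_rpow_atTop (58 : ℝ) (show 0 < 3 * ε / 4 by positivity)
  have h1 : ∀ᶠ x : ℝ in Filter.atTop, ‖Real.log x ^ (58 : ℝ)‖ ≤ 1 / (2 * c) * ‖x ^ (3 * ε / 4)‖ :=
    hl.def (by positivity)
  have h2 : ∀ᶠ x : ℝ in Filter.atTop, max 2 (48 * c) ≤ Real.log x :=
    Real.tendsto_log_atTop.eventually_ge_atTop _
  obtain ⟨x₀, hx₀⟩ := Filter.eventually_atTop.mp (h1.and h2)
  refine ⟨max x₀ 2, le_max_right _ _, fun x hx => ?_⟩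
  obtain ⟨e1, e2⟩ := hx₀ x (le_trans (le_max_left _ _) hx)
  have hx2 : 2 ≤ x := le_trans (le_max_right _ _) hx
  have hx0 : 0 < x := by linarith
  have hL2 : 2 ≤ Real.log x := le_trans (le_max_left _ _) e2
  have hLc : 48 * c ≤ Real.log x := le_trans (le_max_right _ _) e2
  refine ⟨hL2, ?_⟩
  set L := Real.log x with hL
  have hL0 : 0 < L := by linarith
  have hLr : L ^ (58 : ℝ) = L ^ 58 := by
    have h := Real.rpow_natCast L 58
    exact_mod_cast h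
  have hneg : L ^ (-58 : ℝ) = 1 / L ^ 58 := by
    rw [Real.rpow_neg hL0.le, hLr, one_div]
  rw [hLr, Real.norm_of_nonneg (by positivity), Real.norm_of_nonneg (by positivity)] at e1
  have hxx : x ^ (ε / 8) * (x ^ (ε / 8) * x ^ (-ε)) = 1 / x ^ (3 * ε / 4) := by
    rw [← Real.rpow_add hx0, ← Real.rpow_add hx0, one_div, ← Real.rpow_neg hx0.le]
    congr 1
    ring
  rw [hxx, hneg]
  have hxp : 0 < x ^ (3 * ε / 4) := by positivity
  have i1 : c * (24 / L ^ 59) ≤ 1 / 2 * (1 / L ^ 58) := by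
    have : c * (24 / L ^ 59) = (48 * c) * (1 / L ^ 59) / 2 := by ring
    rw [this]
    have h3 : (48 * c) * (1 / L ^ 59) ≤ L * (1 / L ^ 59) :=
      mul_le_mul_of_nonneg_right hLc (by positivity)
    have h4 : L * (1 / L ^ 59) = 1 / L ^ 58 := by
      have h5 : L ^ 59 = L ^ 58 * L := pow_succ L 58
      have h6 : (0 : ℝ) < L ^ 58 := pow_pos hL0 58
      rw [h5]
      field_simp
    linarith
  have i2 : c * (1 / x ^ (3 * ε / 4)) ≤ 1 / 2 * (1 / L ^ 58) := by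
    have h5 : 2 * c * L ^ 58 ≤ x ^ (3 * ε / 4) := by
      have h6 := mul_le_mul_of_nonneg_left e1 (show 0 ≤ 2 * c by positivity)
      have h7 : 2 * c * (1 / (2 * c) * x ^ (3 * ε / 4)) = x ^ (3 * ε / 4) := by
        field_simp
      linarith
    rw [mul_one_div, div_le_iff₀ hxp]
    have h8 : 1 / 2 * (1 / L ^ 58) * x ^ (3 * ε / 4) ≥
        1 / 2 * (1 / L ^ 58) * (2 * c * L ^ 58) :=
      mul_le_mul_of_nonneg_left h5 (by positivity)
    have h9 : 1 / 2 * (1 / L ^ 58) * (2 * c * L ^ 58) = c := by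
      field_simp
    linarith
  rw [mul_add]
  linarith

theorem cell2_pr (q : Par 5) (hq : q.Ok) (hg : q.Gap) : ∃ x₀ : ℝ, 2 ≤ x₀ ∧ ∀ x ≥ x₀, ∀ P0 : ℕ,
    Real.log x ^ 60 ≤ P0 → ∀ u : PolyK 5, IsPoly q x P0 u → Sep q u →
    ∀ (i' : Fin 5 → ℕ) (δ1' δ4' : ℤ) (A : Finset (PolyK 5)),
    (∀ v ∈ A, IsPoly q x P0 v ∧ Sep q v ∧ Siz i' v ∧ dl v 1 = δ1' ∧ dl v 4 = δ4' ∧
      1 < Gc u v ∧ (Gc u v : ℝ) ≤ x ^ (q.ε / 8)) →
    ∑ v ∈ A, (Gc u v : ℝ) / bad v ≤ Real.log x ^ (-58 : ℝ) := by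
  classical
  obtain ⟨x₁, hx₁, hE⟩ := pent_equi q hq hg
  have hc := hq.c30
  have hε := hq.ε0
  obtain ⟨x₂, hx₂, hfin⟩ := ph9_x0 (10 ^ 8 / q.c3 ^ 3) q.ε (by positivity) hε
  refine ⟨max x₁ x₂, le_trans hx₂ (le_max_right _ _), ?_⟩
  intro x hx P0 hP0 u hu hsu i' δ1' δ4' A hA
  have hxx₁ : x ≥ x₁ := le_trans (le_max_left _ _) hx
  have hxx₂ : x ≥ x₂ := le_trans (le_max_right _ _) hx
  have hx2 : 2 ≤ x := le_trans hx₂ hxx₂
  have hx0 : 0 < x := by linarith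
  have hx1 : 1 ≤ x := by linarith
  obtain ⟨hL2, hfin⟩ := hfin x hxx₂
  set L := Real.log x with hL
  have hL0 : 0 < L := by linarith
  rcases A.eq_empty_or_nonempty with hAe | ⟨w, hw⟩
  · rw [hAe, Finset.sum_empty]
    positivity
  have hsz : SizOk q x i' := ph9_sizok (hA w hw).1 (hA w hw).2.2.1
  have hE' := hE x hxx₁ i' hsz δ1' δ4'
  have hP02 : 2 ≤ P0 := by
    have h1 : (2 : ℝ) ≤ L ^ 60 := by
      calc (2 : ℝ) ≤ 2 ^ 60 := by norm_num
        _ ≤ L ^ 60 := pow_le_pow_left₀ (by norm_num) hL2 60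
    exact_mod_cast le_trans h1 hP0
  set B : ℝ := (2 : ℝ) ^ i' 0 * 2 ^ i' 1 * 2 ^ i' 2 * 2 ^ i' 4 * (2 ^ i' 3) ^ 2 with hB
  have hB0 : 0 < B := by positivity
  have hcard : ((O5 i').card : ℝ) ≤ 10 ^ 8 * B := O5_card i'
  have hbu := ph9_pos hu
  set S := A.image (fun v => Gc u v) with hS
  have hSfacts : ∀ G ∈ S, 1 < G ∧ (G : ℝ) ≤ x ^ (q.ε / 8) ∧ G = ∏ p ∈ G.primeFactors, p ∧
      G.primeFactors ⊆ (bad u).primeFactors := by
    intro G hG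
    rw [hS, Finset.mem_image] at hG
    obtain ⟨v, hv, rfl⟩ := hG
    obtain ⟨_, _, _, _, _, h6, h7⟩ := hA v hv
    obtain ⟨g1, g2⟩ := ph9_Gc (v := v) hbu
    refine ⟨h6, h7, g1, ?_⟩
    intro p hp
    obtain ⟨b1, b2, _, _⟩ := g2 p hp
    exact Nat.mem_primeFactors.mpr ⟨b1, b2, hbu.ne'⟩
  -- the sum over the fibres
  have hsum1 : ∑ v ∈ A, (Gc u v : ℝ) / bad v =
      ∑ G ∈ S, ∑ v ∈ A.filter (fun v => Gc u v = G), (Gc u v : ℝ) / bad v := by
    rw [Finset.sum_fiberwise_of_maps_to (fun v hv => Finset.mem_image_of_mem _ hv)]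
  have hfib : ∀ G ∈ S, ∑ v ∈ A.filter (fun v => Gc u v = G), (Gc u v : ℝ) / bad v ≤
      10 ^ 8 / q.c3 ^ 3 * (∏ p ∈ G.primeFactors, (6 / (p : ℝ)) + G * x ^ (-q.ε)) := by
    intro G hG
    obtain ⟨s1, s2, s3, s4⟩ := hSfacts G hG
    have hG0 : (0 : ℝ) < G := by
      have : 0 < G := by omega
      exact_mod_cast this
    have hne : (A.filter (fun v => Gc u v = G)).Nonempty := by
      rw [hS, Finset.mem_image] at hG
      obtain ⟨v, hv, hvG⟩ := hG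
      exact ⟨v, Finset.mem_filter.mpr ⟨hv, hvG⟩⟩
    have hxe : x ^ (q.ε / 8) ≤ x ^ q.ε :=
      Real.rpow_le_rpow_of_exponent_le hx1 (by linarith)
    have hfix := ph9_fix q hq hx1 hP02 hu i' δ1' δ4' hE' (A.filter (fun v => Gc u v = G)) G
      (s2.trans hxe) hne (by
        intro v hv
        obtain ⟨hv1, hv2⟩ := Finset.mem_filter.mp hv
        obtain ⟨h1, h2, h3, h4, h5, _, _⟩ := hA v hv1
        exact ⟨h1, h3, h4, h5, hv2⟩)
    have hterm : ∀ v ∈ A.filter (fun v => Gc u v = G), (Gc u v : ℝ) / bad v ≤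
        G / (q.c3 ^ 3 * B) := by
      intro v hv
      obtain ⟨hv1, hv2⟩ := Finset.mem_filter.mp hv
      obtain ⟨h1, h2, h3, h4, h5, _, _⟩ := hA v hv1
      rw [hv2]
      exact div_le_div_of_nonneg_left hG0.le (by positivity) (ph9_bad_ge hq h2 h3)
    have hprodG : (G : ℝ) * ∏ p ∈ G.primeFactors, 6 / (p : ℝ) ^ 2 =
        ∏ p ∈ G.primeFactors, (6 / (p : ℝ)) := by
      have hGr : (G : ℝ) = ∏ p ∈ G.primeFactors, (p : ℝ) := by
        conv_lhs => rw [s3]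
        push_cast
        rfl
      conv_lhs => rw [hGr]
      rw [← Finset.prod_mul_distrib]
      apply Finset.prod_congr rfl
      intro p hp
      have hp0 : (p : ℝ) ≠ 0 := by
        have := (Nat.prime_of_mem_primeFactors hp).pos
        positivity
      field_simp
    have hprod0 : 0 ≤ ∏ p ∈ G.primeFactors, 6 / (p : ℝ) ^ 2 + x ^ (-q.ε) := by
      have : 0 ≤ ∏ p ∈ G.primeFactors, 6 / (p : ℝ) ^ 2 :=
        Finset.prod_nonneg (fun p _ => by positivity)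
      have h' : 0 < x ^ (-q.ε) := by positivity
      linarith
    calc ∑ v ∈ A.filter (fun v => Gc u v = G), (Gc u v : ℝ) / bad v ≤
        ∑ v ∈ A.filter (fun v => Gc u v = G), (G : ℝ) / (q.c3 ^ 3 * B) :=
          Finset.sum_le_sum hterm
      _ = (A.filter (fun v => Gc u v = G)).card * (G / (q.c3 ^ 3 * B)) := by
          rw [Finset.sum_const, nsmul_eq_mul]
      _ ≤ ((O5 i').card * (∏ p ∈ G.primeFactors, 6 / (p : ℝ) ^ 2 + x ^ (-q.ε))) *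
          (G / (q.c3 ^ 3 * B)) := mul_le_mul_of_nonneg_right hfix (by positivity)
      _ ≤ ((10 ^ 8 * B) * (∏ p ∈ G.primeFactors, 6 / (p : ℝ) ^ 2 + x ^ (-q.ε))) *
          (G / (q.c3 ^ 3 * B)) := by
          apply mul_le_mul_of_nonneg_right _ (by positivity)
          exact mul_le_mul_of_nonneg_right hcard hprod0
      _ = 10 ^ 8 / q.c3 ^ 3 * (G * ∏ p ∈ G.primeFactors, 6 / (p : ℝ) ^ 2 + G * x ^ (-q.ε)) := by
          field_simp
      _ = 10 ^ 8 / q.c3 ^ 3 * (∏ p ∈ G.primeFactors, (6 / (p : ℝ)) + G * x ^ (-q.ε)) := by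
          rw [hprodG]
  -- the sum over G
  have hsets : ∑ G ∈ S, ∏ p ∈ G.primeFactors, (6 / (p : ℝ)) ≤ 24 / L ^ 59 := by
    have hinj : Set.InjOn (fun G : ℕ => G.primeFactors) (S : Set ℕ) := by
      intro a ha b hb hab
      have h1 := (hSfacts a ha).2.2.1
      have h2 := (hSfacts b hb).2.2.1
      simp only at hab
      rw [h1, h2, hab]
    rw [← Finset.sum_image (f := fun T : Finset ℕ => ∏ p ∈ T, (6 / (p : ℝ)))
      (fun a ha b hb hab => hinj ha hb hab)]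
    apply ph9_sets (bad u).primeFactors _ _ hL2
    · intro p hp
      obtain ⟨b1, b2, _⟩ := Nat.mem_primeFactors.mp hp
      have : P0 < p := by
        rw [ph9_bad] at b2
        rcases (Nat.Prime.dvd_mul b1).mp b2 with h | h
        · exact hu.ro 0 p b1 h
        · rcases (Nat.Prime.dvd_mul b1).mp h with h | h
          · exact hu.ro 2 p b1 h
          · exact hu.ro 3 p b1 h
      have h' : (P0 : ℝ) ≤ p := by exact_mod_cast this.le
      exact hP0.trans h'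
    · exact ph9_omega hbu (ph9_bad_le q hq hx1 hu)
    · intro T hT
      rw [Finset.mem_image] at hT
      obtain ⟨G, hG, rfl⟩ := hT
      obtain ⟨s1, s2, s3, s4⟩ := hSfacts G hG
      refine ⟨s4, ?_⟩
      rw [Finset.nonempty_iff_ne_empty]
      intro h0
      rw [h0, Finset.prod_empty] at s3
      omega
  have hScard : (S.card : ℝ) ≤ x ^ (q.ε / 8) := by
    have hsub : S ⊆ Finset.Icc 1 ⌊x ^ (q.ε / 8)⌋₊ := by
      intro G hG
      obtain ⟨s1, s2, _, _⟩ := hSfacts G hG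
      rw [Finset.mem_Icc]
      exact ⟨s1.le, Nat.le_floor s2⟩
    have h1 := Finset.card_le_card hsub
    rw [Nat.card_Icc, Nat.add_sub_cancel] at h1
    calc (S.card : ℝ) ≤ (⌊x ^ (q.ε / 8)⌋₊ : ℝ) := by exact_mod_cast h1
      _ ≤ x ^ (q.ε / 8) := Nat.floor_le (by positivity)
  have hsumG : ∑ G ∈ S, (G : ℝ) * x ^ (-q.ε) ≤ x ^ (q.ε / 8) * (x ^ (q.ε / 8) * x ^ (-q.ε)) := by
    calc ∑ G ∈ S, (G : ℝ) * x ^ (-q.ε) ≤ ∑ G ∈ S, x ^ (q.ε / 8) * x ^ (-q.ε) := by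
          apply Finset.sum_le_sum
          intro G hG
          exact mul_le_mul_of_nonneg_right (hSfacts G hG).2.1 (by positivity)
      _ = S.card * (x ^ (q.ε / 8) * x ^ (-q.ε)) := by
          rw [Finset.sum_const, nsmul_eq_mul]
      _ ≤ x ^ (q.ε / 8) * (x ^ (q.ε / 8) * x ^ (-q.ε)) :=
          mul_le_mul_of_nonneg_right hScard (by positivity)
  rw [hsum1]
  calc ∑ G ∈ S, ∑ v ∈ A.filter (fun v => Gc u v = G), (Gc u v : ℝ) / bad v ≤
      ∑ G ∈ S, 10 ^ 8 / q.c3 ^ 3 * (∏ p ∈ G.primeFactors, (6 / (p : ℝ)) + G * x ^ (-q.ε)) :=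
        Finset.sum_le_sum hfib
    _ = 10 ^ 8 / q.c3 ^ 3 * (∑ G ∈ S, ∏ p ∈ G.primeFactors, (6 / (p : ℝ)) +
        ∑ G ∈ S, (G : ℝ) * x ^ (-q.ε)) := by
        rw [← Finset.mul_sum, Finset.sum_add_distrib]
    _ ≤ 10 ^ 8 / q.c3 ^ 3 * (24 / L ^ 59 + x ^ (q.ε / 8) * (x ^ (q.ε / 8) * x ^ (-q.ε))) := by
        apply mul_le_mul_of_nonneg_left _ (by positivity)
        exact add_le_add hsets hsumG
    _ ≤ L ^ (-58 : ℝ) := hfin

end Pool.Agent.PENK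

namespace Pool.Agent.PENK

theorem cell2 : type_of% @cell2_pr := @cell2_pr

end Pool.Agent.PENK
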