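import Pool.Agent.Lib_helper18.PENK.Defs

/-! PENK block PR2 (helper83) -/

set_option autoImplicit false

namespace Pool.Agent.PENK

open Finset Pool.Agent.PENT

variable {K : ℕ} [NeZero K]

theorem pr2_dt (v w : ℤ × ℤ) : (dt v w).natAbs ≤ nr v * nr w := by
  unfold dt nr
  calc (v.1 * w.2 - v.2 * w.1).natAbs ≤ (v.1 * w.2).natAbs + (v.2 * w.1).natAbs :=
        Int.natAbs_sub_le _ _
    _ = v.1.natAbs * w.2.natAbs + v.2.natAbs * w.1.natAbs := by
        rw [Int.natAbs_mul, Int.natAbs_mul]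
    _ ≤ v.1.natAbs * w.2.natAbs + v.2.natAbs * w.1.natAbs +
          (v.1.natAbs * w.1.natAbs + v.2.natAbs * w.2.natAbs) := Nat.le_add_right _ _
    _ = (v.1.natAbs + v.2.natAbs) * (w.1.natAbs + w.2.natAbs) := by ring

theorem pr2_sum_le {q : Par K} (hq : q.Ok) (j : Fin K) : q.e j + q.ε ≤ q.δ / 50 := by
  refine le_trans ?_ hq.hs
  exact Finset.single_le_sum (f := fun j => q.e j + q.ε)
    (fun i _ => add_nonneg (hq.he i) hq.ε0.le) (Finset.mem_univ j)

theorem pr2_lo {q : Par K} (hq : q.Ok) {x : ℝ} (hx : 1 ≤ x) {P0 : ℕ} {u : PolyK K}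
    (h : IsPoly q x P0 u) (j : Fin K) : (1 : ℝ) ≤ (nr (u j) : ℝ) :=
  (Real.one_le_rpow hx (hq.he j)).trans (h.lo j)

theorem pr2_hi {q : Par K} (hq : q.Ok) {x : ℝ} (hx : 1 ≤ x) {P0 : ℕ} {u : PolyK K}
    (h : IsPoly q x P0 u) (j : Fin K) : (nr (u j) : ℝ) ≤ x ^ (q.δ / 50) := by
  refine (h.hi j).trans (Real.rpow_le_rpow_of_exponent_le hx ?_)
  have := pr2_sum_le hq j
  have := hq.ε0
  linarith

/-- BLOCK PR2. The good bases lie in boundedly many boxes (`G₀ = x nr(u 0) / (2 C4 nr(u 1))`,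
`2 ^ m ≥ 4 C4²`; `nr(u 0) / nr(u 1)` lies between `x ^ (-δ/40)` and `x ^ (δ/40)`). -/
theorem over_cover_pr {q : Par K} (hq : q.Ok) : ∃ (m : ℕ) (x₀ : ℝ), 1 ≤ x₀ ∧ ∀ x ≥ x₀, ∀ P0 : ℕ,
    ∀ u : PolyK K, IsPoly q x P0 u → ∃ G : ℝ, (∀ i < m, x ^ (1 - q.δ) ≤ 2 ^ i * G ∧
      2 ^ i * G ≤ x ^ (1 + q.δ)) ∧
      ∀ R, Over q x R u → ∃ i < m, 2 ^ i * G < (R.1 : ℝ) ∧ (R.1 : ℝ) ≤ 2 * (2 ^ i * G) := by
  have hC4 := hq.C41
  have hC0 : 0 < q.C4 := by linarith
  have hδ := hq.δ0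
  obtain ⟨m, hm⟩ := pow_unbounded_of_one_lt (2 * q.C4 ^ 2) (one_lt_two : (1 : ℝ) < 2)
  have hm1 : (1 : ℝ) ≤ 2 ^ m := one_le_pow₀ one_le_two
  set A : ℝ := 2 ^ m * (2 * q.C4) with hA
  have hA0 : 0 < A := by positivity
  have hA1 : 1 ≤ A := by
    rw [hA]
    nlinarith
  refine ⟨m, A ^ (2 / q.δ), Real.one_le_rpow hA1 (by positivity), ?_⟩
  intro x hx P0 u hu
  have hx1 : 1 ≤ x := (Real.one_le_rpow hA1 (by positivity)).trans hx
  have hx0 : 0 < x := by linarith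
  have hxA : A ≤ x ^ (q.δ / 2) := by
    have h1 : (A ^ (2 / q.δ)) ^ (q.δ / 2) ≤ x ^ (q.δ / 2) :=
      Real.rpow_le_rpow (by positivity) hx (by positivity)
    rw [← Real.rpow_mul hA0.le, show 2 / q.δ * (q.δ / 2) = 1 by field_simp, Real.rpow_one] at h1
    exact h1
  have l0 := pr2_lo hq hx1 hu 0
  have l1 := pr2_lo hq hx1 hu 1
  have u0 := pr2_hi hq hx1 hu 0
  have u1 := pr2_hi hq hx1 hu 1
  have p0 : (0 : ℝ) < nr (u 0) := by linarith
  have p1 : (0 : ℝ) < nr (u 1) := by linarith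
  set G : ℝ := x * nr (u 0) / (2 * q.C4 * nr (u 1)) with hG
  have hG0 : 0 < G := by positivity
  have hxd : x ^ (q.δ / 2) * x ^ (q.δ / 50) ≤ x ^ q.δ := by
    rw [← Real.rpow_add hx0]
    apply Real.rpow_le_rpow_of_exponent_le hx1
    linarith
  have hGlow : x ^ (1 - q.δ) ≤ G := by
    rw [hG, le_div_iff₀ (by positivity)]
    have h1 : x ^ (1 - q.δ) * x ^ q.δ = x := by
      rw [← Real.rpow_add hx0]
      simp
    have h2 : 2 * q.C4 ≤ x ^ (q.δ / 2) := by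
      refine le_trans ?_ hxA
      rw [hA]
      nlinarith
    calc x ^ (1 - q.δ) * (2 * q.C4 * nr (u 1)) ≤ x ^ (1 - q.δ) *
          (x ^ (q.δ / 2) * x ^ (q.δ / 50)) := by
          apply mul_le_mul_of_nonneg_left _ (by positivity)
          exact mul_le_mul h2 u1 p1.le (by positivity)
      _ ≤ x ^ (1 - q.δ) * x ^ q.δ := mul_le_mul_of_nonneg_left hxd (by positivity)
      _ = x := h1
      _ ≤ x * nr (u 0) := by nlinarith
  have hGupp : 2 ^ m * G ≤ x ^ (1 + q.δ) := by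
    have h1 : G ≤ x * x ^ (q.δ / 50) := by
      rw [hG, div_le_iff₀ (by positivity)]
      have h2 : (1 : ℝ) ≤ 2 * q.C4 * nr (u 1) := by nlinarith
      calc x * nr (u 0) ≤ x * x ^ (q.δ / 50) := mul_le_mul_of_nonneg_left u0 hx0.le
        _ = x * x ^ (q.δ / 50) * 1 := (mul_one _).symm
        _ ≤ x * x ^ (q.δ / 50) * (2 * q.C4 * nr (u 1)) :=
            mul_le_mul_of_nonneg_left h2 (by positivity)
    have h3 : (2 : ℝ) ^ m ≤ x ^ (q.δ / 2) := by
      refine le_trans ?_ hxA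
      rw [hA]
      nlinarith
    calc 2 ^ m * G ≤ x ^ (q.δ / 2) * (x * x ^ (q.δ / 50)) :=
          mul_le_mul h3 h1 hG0.le (by positivity)
      _ = x * (x ^ (q.δ / 2) * x ^ (q.δ / 50)) := by ring
      _ ≤ x * x ^ q.δ := mul_le_mul_of_nonneg_left hxd hx0.le
      _ = x ^ (1 + q.δ) := by rw [Real.rpow_add hx0, Real.rpow_one]
  refine ⟨G, ?_, ?_⟩
  · intro i hi
    have h1 : (1 : ℝ) ≤ 2 ^ i := one_le_pow₀ one_le_two
    have h2 : (2 : ℝ) ^ i ≤ 2 ^ m := pow_le_pow_right₀ one_le_two hi.le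
    constructor
    · refine hGlow.trans ?_
      nlinarith
    · refine le_trans ?_ hGupp
      exact mul_le_mul_of_nonneg_right h2 hG0.le
  · intro R hR
    have g1 : 2 * G ≤ (R.1 : ℝ) := by
      rw [hG]
      have h1 : 2 * (x * nr (u 0) / (2 * q.C4 * nr (u 1))) =
          (x * nr (u 0)) / (q.C4 * nr (u 1)) := by
        field_simp
      rw [h1, div_le_iff₀ (by positivity)]
      have := hR.g1
      linarith
    have g2 : (R.1 : ℝ) ≤ 2 ^ m * G := by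
      have h1 : (R.1 : ℝ) ≤ 2 * q.C4 ^ 2 * G := by
        have h2 : 2 * q.C4 ^ 2 * G = q.C4 * x * nr (u 0) / nr (u 1) := by
          rw [hG]
          field_simp
        rw [h2, le_div_iff₀ p1]
        exact hR.g2
      exact h1.trans (mul_le_mul_of_nonneg_right hm.le hG0.le)
    -- the first `i` with `R.1 ≤ 2 ^ (i+1) G`
    have hex : ∃ k : ℕ, (R.1 : ℝ) ≤ 2 ^ k * G := ⟨m, g2⟩
    classical
    set k := Nat.find hex with hk
    have hk1 : (R.1 : ℝ) ≤ 2 ^ k * G := Nat.find_spec hex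
    have hk2 : k ≤ m := Nat.find_min' hex g2
    have hk0 : k ≠ 0 := by
      intro h0
      rw [h0, pow_zero, one_mul] at hk1
      linarith
    obtain ⟨i, hi⟩ := Nat.exists_eq_succ_of_ne_zero hk0
    refine ⟨i, by omega, ?_, ?_⟩
    · have := Nat.find_min hex (m := i) (by omega)
      exact not_le.1 this
    · rw [hi, pow_succ] at hk1
      linarith

/-- `0 < D(u) ≤ x ^ (δ/20)` -/
theorem DD_le_pr {q : Par K} (hq : q.Ok) : ∃ x₀ : ℝ, 1 ≤ x₀ ∧ ∀ x ≥ x₀, ∀ P0 : ℕ,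
    ∀ u : PolyK K, IsPoly q x P0 u → 0 < DD u ∧ (DD u : ℝ) ≤ x ^ (q.δ / 20) := by
  refine ⟨1, le_rfl, ?_⟩
  intro x hx P0 u hu
  have hx0 : 0 < x := by linarith
  constructor
  · unfold DD
    exact Finset.prod_pos (fun j _ => Nat.pos_of_ne_zero (hu.sq j).ne_zero)
  · have h1 : DD u ≤ (∏ j, nr (u j)) ^ 2 := by
      calc DD u ≤ ∏ j, (nr (u j) * nr (u (j + 1))) := by
            unfold DD
            exact Finset.prod_le_prod' (fun j _ => pr2_dt _ _)
        _ = (∏ j, nr (u j)) * ∏ j, nr (u (j + 1)) := Finset.prod_mul_distrib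
        _ = (∏ j, nr (u j)) * ∏ j, nr (u j) := by
            congr 1
            exact Fintype.prod_equiv (Equiv.addRight (1 : Fin K)) _ _ (fun j => rfl)
        _ = (∏ j, nr (u j)) ^ 2 := (sq _).symm
    have h2 : ((∏ j, nr (u j) : ℕ) : ℝ) ≤ x ^ (q.δ / 50) := by
      rw [Nat.cast_prod]
      calc ∏ j, (nr (u j) : ℝ) ≤ ∏ j, x ^ (q.e j + q.ε) := by
            apply Finset.prod_le_prod (fun j _ => Nat.cast_nonneg _)
            intro j _
            refine (hu.hi j).trans (Real.rpow_le_rpow_of_exponent_le hx ?_)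
            have := hq.ε0
            linarith
        _ = x ^ ∑ j, (q.e j + q.ε) := (Real.rpow_sum_of_pos hx0 _ _).symm
        _ ≤ x ^ (q.δ / 50) := Real.rpow_le_rpow_of_exponent_le hx hq.hs
    calc (DD u : ℝ) ≤ ((∏ j, nr (u j) : ℕ) : ℝ) ^ 2 := by exact_mod_cast h1
      _ ≤ (x ^ (q.δ / 50)) ^ 2 := pow_le_pow_left₀ (Nat.cast_nonneg _) h2 2
      _ = x ^ (q.δ / 25) := by
          rw [← Real.rpow_natCast, ← Real.rpow_mul hx0.le]
          congr 1
          push_cast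
          ring
      _ ≤ x ^ (q.δ / 20) := by
          apply Real.rpow_le_rpow_of_exponent_le hx
          have := hq.δ0
          linarith

end Pool.Agent.PENK

namespace Pool.Agent.PENK

theorem over_cover : type_of% @over_cover_pr := @over_cover_pr

theorem DD_le : type_of% @DD_le_pr := @DD_le_pr

end Pool.Agent.PENK
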