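import Mathlib
import Pool.Agent.Lib_helper18.PENKF.DefsW
import Pool.Agent.Lib_helper18.PENKF.PF8
import Pool.Agent.Lib_helper18.PENKF.PF9
import Pool.Agent.Lib_helper18.PENKF.PH1
import Pool.Agent.Lib_helper18.PENKF.PH3
import Pool.Agent.Lib_helper18.PENKF.PH6
import Pool.Agent.Lib_helper18.PENKF.PH9
import Pool.Agent.Lib_helper18.PENKF.PA6
import Pool.Agent.Lib_helper18.PENKF.PG5
import Pool.Agent.Lib_helper18.PENKF.PR2

set_option autoImplicit false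

namespace Pool.Agent.PENK

open Finset Pool.Agent.PENT

theorem ph10_dl (q : Par 5) (hq : q.Ok) {x : ℝ} {P0 : ℕ} {u : PolyK 5} (h : IsPoly q x P0 u)
    (j : Fin 5) : dl u j = q.σ j (j + 1) * (dn u j : ℤ) := by
  have hj : j ≠ j + 1 := by fin_cases j <;> decide
  have h1 := h.sg j (j + 1) hj
  unfold dn dl
  rcases hq.hσ j (j + 1) with h2 | h2
  · rw [h2] at h1 ⊢
    rw [one_mul] at h1 ⊢
    rw [Int.natCast_natAbs, abs_of_pos h1]
  · rw [h2] at h1 ⊢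
    rw [Int.natCast_natAbs, abs_of_neg (by linarith)]
    ring

theorem ph10_abs (q : Par 5) (hq : q.Ok) (i j : Fin 5) (a : ℕ) :
    (q.σ i j * (a : ℤ)).natAbs = a := by
  rcases hq.hσ i j with h2 | h2 <;> rw [h2] <;> simp

theorem ph10_mem (q : Par 5) (hq : q.Ok) : ∃ x₀ : ℝ, 2 ≤ x₀ ∧ ∀ x ≥ x₀, ∀ P0 : ℕ, ∀ u : PolyK 5,
    IsPoly q x P0 u → One4 u → ∀ j, dn u j ∈ DP0 P0 ⌊x⌋₊ := by
  classical
  obtain ⟨x₀, hx₀, H⟩ := DD_le (K := 5) hq
  refine ⟨max 2 x₀, le_max_left _ _, fun x hx P0 u hu h4 j => ?_⟩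
  have hx1 : x₀ ≤ x := le_trans (le_max_right _ _) hx
  have hx2 : (2 : ℝ) ≤ x := le_trans (le_max_left _ _) hx
  obtain ⟨h1, h2⟩ := H x hx1 P0 u hu
  have hdv : dn u j ∣ DD u := Finset.dvd_prod_of_mem _ (Finset.mem_univ j)
  have hpos : 0 < dn u j := Nat.pos_of_dvd_of_pos hdv h1
  have hle : dn u j ≤ DD u := Nat.le_of_dvd h1 hdv
  have hle2 : (dn u j : ℝ) ≤ x := by
    have h3 : (dn u j : ℝ) ≤ DD u := by exact_mod_cast hle
    have h4 : x ^ (q.δ / 20) ≤ x ^ (1 : ℝ) := by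
      apply Real.rpow_le_rpow_of_exponent_le (by linarith)
      have := hq.δ1
      linarith
    rw [Real.rpow_one] at h4
    linarith
  unfold DP0
  rw [Finset.mem_filter, Finset.mem_Icc]
  refine ⟨⟨hpos, Nat.le_floor hle2⟩, hu.sq j, fun p hp hpd => ⟨hu.ro j p hp hpd, h4 p hp (hpd.trans hdv)⟩⟩

theorem ph10_siz {q : Par 5} {x : ℝ} (hx : 0 < x) {P0 : ℕ} {u : PolyK 5} (h : IsPoly q x P0 u) :
    Siz (fun j => Nat.log 2 (nr (u j))) u := by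
  intro j
  have h1 : nr (u j) ≠ 0 := by
    intro h0
    have h2 := h.lo j
    rw [h0] at h2
    have h3 : 0 < x ^ q.e j := Real.rpow_pos_of_pos hx _
    simp at h2
    linarith
  exact ⟨Nat.pow_log_le_self 2 h1, Nat.lt_pow_succ_log_self (by norm_num) _⟩

theorem ph10_wsp_nn (P d d' : ℕ) : 0 ≤ wsp P (1 / 8) (1 / 8) d d' := by
  unfold wsp
  apply Finset.prod_nonneg
  intro p _
  have h1 : 0 ≤ lw P p (1 / 8) := by
    unfold lw
    split_ifs <;> norm_num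
  split_ifs <;> positivity


theorem ph10_G : ∃ C : ℝ, 0 ≤ C ∧ ∀ x : ℝ, ∀ P0 P : ℕ, 2 ≤ P → (P : ℝ) ≤ x →
    ∏ p ∈ (prs P0 P).filter (fun p => p % 4 = 1), (1 + 3 / 4 / (p : ℝ)) ≤ C * Real.log x := by
  obtain ⟨C, hC⟩ := Pool.Agent.LEV.mertens_two
  refine ⟨Real.exp C, (Real.exp_pos _).le, fun x P0 P hP hPx => ?_⟩
  have hP2 : (2 : ℝ) ≤ P := by exact_mod_cast hP
  have h1 := hC P hP2
  rw [Nat.floor_natCast] at h1
  have h2 := (abs_le.1 h1).2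
  have hlogP : 0 < Real.log P := Real.log_pos (by linarith)
  have h3 : ∏ p ∈ (prs P0 P).filter (fun p => p % 4 = 1), (1 + 3 / 4 / (p : ℝ)) ≤
      ∏ p ∈ (prs P0 P).filter (fun p => p % 4 = 1), Real.exp (1 / (p : ℝ)) := by
    apply Finset.prod_le_prod
    · intro p _; positivity
    · intro p _
      have h4 : 3 / 4 / (p : ℝ) ≤ 1 / (p : ℝ) := by
        apply div_le_div_of_nonneg_right _ (Nat.cast_nonneg p)
        norm_num
      have h5 := Real.add_one_le_exp (1 / (p : ℝ))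
      linarith
  rw [← Real.exp_sum] at h3
  have h6 : ∑ p ∈ (prs P0 P).filter (fun p => p % 4 = 1), 1 / (p : ℝ) ≤
      ∑ p ∈ (Finset.Icc 1 P).filter Nat.Prime, 1 / (p : ℝ) := by
    apply Finset.sum_le_sum_of_subset_of_nonneg
    · intro p hp
      rw [Finset.mem_filter] at hp
      have hp1 := hp.1
      unfold prs at hp1
      rw [Finset.mem_filter, Finset.mem_Ioc] at hp1
      rw [Finset.mem_filter, Finset.mem_Icc]
      exact ⟨⟨hp1.2.one_lt.le, hp1.1.2⟩, hp1.2⟩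
    · intro p _ _; positivity
  have h7 : Real.exp (∑ p ∈ (prs P0 P).filter (fun p => p % 4 = 1), 1 / (p : ℝ)) ≤
      Real.exp (C + Real.log (Real.log P)) := Real.exp_le_exp.2 (by linarith)
  rw [Real.exp_add, Real.exp_log hlogP] at h7
  have h8 : Real.log P ≤ Real.log x := Real.log_le_log (by linarith) hPx
  have h9 : Real.exp C * Real.log P ≤ Real.exp C * Real.log x :=
    mul_le_mul_of_nonneg_left h8 (Real.exp_pos _).le
  linarith

theorem ph10_inr : inr 5 = {0, 2, 3} := by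
  unfold inr
  decide

theorem ph10_m1 : (-1 : Fin 5) = 4 := by decide

theorem ph10_dnlow {q : Par 5} (hq : q.Ok) {u : PolyK 5} (hs : Sep q u) {i : Fin 5 → ℕ}
    (hi : Siz i u) (j : Fin 5) : q.c3 * (2 ^ i j * 2 ^ i (j + 1)) ≤ (dn u j : ℝ) := by
  have hj : j ≠ j + 1 := by fin_cases j <;> decide
  have h1 := hs j (j + 1) hj
  have h2 : (dn u j : ℝ) = |(dt (u j) (u (j + 1)) : ℝ)| := by
    unfold dn dl
    rw [Nat.cast_natAbs]
    push_cast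
    rfl
  rw [h2]
  refine le_trans ?_ h1
  have h3 : (2 : ℝ) ^ i j ≤ (nr (u j) : ℝ) := by exact_mod_cast (hi j).1
  have h4 : (2 : ℝ) ^ i (j + 1) ≤ (nr (u (j + 1)) : ℝ) := by exact_mod_cast (hi (j + 1)).1
  have h5 := hq.c30
  calc q.c3 * (2 ^ i j * 2 ^ i (j + 1)) ≤ q.c3 * ((nr (u j) : ℝ) * nr (u (j + 1))) := by
        apply mul_le_mul_of_nonneg_left _ h5.le
        exact mul_le_mul h3 h4 (by positivity) (by positivity)
    _ = q.c3 * nr (u j) * nr (u (j + 1)) := by ring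

theorem ph10_badlow {q : Par 5} (hq : q.Ok) {u : PolyK 5} (hs : Sep q u) {i : Fin 5 → ℕ}
    (hi : Siz i u) : q.c3 ^ 3 * ((2 : ℝ) ^ i 0 * 2 ^ i 1 * 2 ^ i 2 * 2 ^ i 4 * (2 ^ i 3) ^ 2) ≤
      (bad u : ℝ) := by
  have h0 := ph10_dnlow hq hs hi 0
  have h2 := ph10_dnlow hq hs hi 2
  have h3 := ph10_dnlow hq hs hi 3
  have hc := hq.c30
  have e0 : (0 : Fin 5) + 1 = 1 := by decide
  have e2 : (2 : Fin 5) + 1 = 3 := by decide
  have e3 : (3 : Fin 5) + 1 = 4 := by decide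
  rw [e0] at h0
  rw [e2] at h2
  rw [e3] at h3
  have hb : (bad u : ℝ) = (dn u 0 : ℝ) * ((dn u 2 : ℝ) * (dn u 3 : ℝ)) := by
    unfold bad
    rw [ph10_inr]
    rw [Finset.prod_insert (by decide), Finset.prod_insert (by decide), Finset.prod_singleton]
    push_cast
    ring
  rw [hb]
  calc q.c3 ^ 3 * ((2 : ℝ) ^ i 0 * 2 ^ i 1 * 2 ^ i 2 * 2 ^ i 4 * (2 ^ i 3) ^ 2)
      = (q.c3 * (2 ^ i 0 * 2 ^ i 1)) * ((q.c3 * (2 ^ i 2 * 2 ^ i 3)) *
          (q.c3 * (2 ^ i 3 * 2 ^ i 4))) := by ring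
    _ ≤ (dn u 0 : ℝ) * ((dn u 2 : ℝ) * (dn u 3 : ℝ)) := by
        apply mul_le_mul h0 _ (by positivity) (by positivity)
        exact mul_le_mul h2 h3 (by positivity) (by positivity)

/-- the sum of `1 / bad` in one cell -/
theorem ph10_cell {q : Par 5} (hq : q.Ok) {x : ℝ} {P0 : ℕ} {i : Fin 5 → ℕ} {δ1 δ4 : ℤ}
    (U : Finset (PolyK 5)) (hU : ∀ u ∈ U, IsPoly q x P0 u ∧ Sep q u ∧ Siz i u ∧ dl u 1 = δ1 ∧
      dl u 4 = δ4) : ∑ u ∈ U, 1 / (bad u : ℝ) ≤ 10 ^ 8 / q.c3 ^ 3 := by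
  classical
  have hc := hq.c30
  set M : ℝ := (2 : ℝ) ^ i 0 * 2 ^ i 1 * 2 ^ i 2 * 2 ^ i 4 * (2 ^ i 3) ^ 2 with hM
  have hM0 : 0 < M := by positivity
  have hcard : (U.card : ℝ) ≤ 10 ^ 8 * M := by
    have h1 : U ⊆ (O5 i).image (pol5 i δ1 δ4) := by
      intro u hu
      obtain ⟨h1, _, h3, h4, h5⟩ := hU u hu
      obtain ⟨o, ho, hou⟩ := pent_mem q hq h1 h3
      rw [h4, h5] at hou
      rw [Finset.mem_image]
      exact ⟨o, ho, hou⟩
    have h2 : U.card ≤ (O5 i).card := le_trans (Finset.card_le_card h1) Finset.card_image_le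
    have h3 : (U.card : ℝ) ≤ ((O5 i).card : ℝ) := by exact_mod_cast h2
    exact le_trans h3 (O5_card i)
  have hterm : ∀ u ∈ U, 1 / (bad u : ℝ) ≤ 1 / (q.c3 ^ 3 * M) := by
    intro u hu
    obtain ⟨_, h2, h3, _, _⟩ := hU u hu
    apply one_div_le_one_div_of_le (by positivity)
    exact ph10_badlow hq h2 h3
  calc ∑ u ∈ U, 1 / (bad u : ℝ) ≤ ∑ u ∈ U, 1 / (q.c3 ^ 3 * M) := Finset.sum_le_sum hterm
    _ = (U.card : ℝ) * (1 / (q.c3 ^ 3 * M)) := by rw [Finset.sum_const, nsmul_eq_mul]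
    _ ≤ (10 ^ 8 * M) * (1 / (q.c3 ^ 3 * M)) :=
        mul_le_mul_of_nonneg_right hcard (by positivity)
    _ = 10 ^ 8 / q.c3 ^ 3 := by field_simp

theorem ph10_gc (n : ℕ) (hn : n ≠ 0) : ∏ p ∈ n.primeFactors, ((p : ℝ) / 2) ≤ n := by
  have h1 : ∏ p ∈ n.primeFactors, ((p : ℝ) / 2) ≤ ∏ p ∈ n.primeFactors, (p : ℝ) := by
    apply Finset.prod_le_prod
    · intro p _; positivity
    · intro p _
      have : (0 : ℝ) ≤ p := Nat.cast_nonneg p
      linarith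
  have h2 : ∏ p ∈ n.primeFactors, p ≤ n :=
    Nat.le_of_dvd (Nat.pos_of_ne_zero hn) (Nat.prod_primeFactors_dvd n)
  have h3 : ((∏ p ∈ n.primeFactors, p : ℕ) : ℝ) ≤ n := by exact_mod_cast h2
  push_cast at h3
  linarith

theorem ph10_ThB (P : ℕ) (u v : PolyK 5) : ThB W5 P u v =
    (∏ p ∈ (Gc u v).primeFactors, (p : ℝ) / 2) * (wi W5 P u * wi W5 P v) *
      (wsp P (1 / 8) (1 / 8) (dn u 1) (dn v 1) * wsp P (1 / 8) (1 / 8) (dn u 4) (dn v 4)) := by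
  unfold ThB Wts.s1 Wts.s0 W5
  rw [ph10_m1]
  norm_num

/-- the sum over one cell of pairs -/
theorem ph10_pairs {q : Par 5} (hq : q.Ok) {x : ℝ} (hx : 1 ≤ x) {P0 : ℕ} {i i' : Fin 5 → ℕ}
    {δ1 δ4 δ1' δ4' : ℤ} {E : ℝ} (hE : 0 ≤ E)
    (hcell : ∀ u : PolyK 5, IsPoly q x P0 u → Sep q u →
      ∀ (A : Finset (PolyK 5)),
      (∀ v ∈ A, IsPoly q x P0 v ∧ Sep q v ∧ Siz i' v ∧ dl v 1 = δ1' ∧ dl v 4 = δ4' ∧
        1 < Gc u v ∧ (Gc u v : ℝ) ≤ x ^ (q.ε / 8)) →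
      ∑ v ∈ A, (Gc u v : ℝ) / bad v ≤ E)
    (B : Finset (PolyK 5 × PolyK 5))
    (hB : ∀ s ∈ B, PairOk q x P0 s ∧ 1 < Gc s.1 s.2 ∧ (Gc s.1 s.2 : ℝ) ≤ x ^ (q.ε / 8) ∧
      Siz i s.1 ∧ Siz i' s.2 ∧ dl s.1 1 = δ1 ∧ dl s.1 4 = δ4 ∧ dl s.2 1 = δ1' ∧
      dl s.2 4 = δ4') :
    ∑ s ∈ B, (Gc s.1 s.2 : ℝ) / ((bad s.1 : ℝ) * bad s.2) ≤ 10 ^ 8 / q.c3 ^ 3 * E := by
  classical
  have hc := hq.c30
  rw [← Finset.sum_fiberwise_of_maps_to (g := Prod.fst) (t := B.image Prod.fst)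
      (fun s hs => Finset.mem_image_of_mem _ hs)]
  have hin : ∀ u ∈ B.image Prod.fst, ∑ s ∈ B.filter (fun s => s.1 = u),
      (Gc s.1 s.2 : ℝ) / ((bad s.1 : ℝ) * bad s.2) ≤ 1 / (bad u : ℝ) * E := by
    intro u hu
    rw [Finset.mem_image] at hu
    obtain ⟨s0, hs0, rfl⟩ := hu
    obtain ⟨h0, _⟩ := hB s0 hs0
    have h1 := hcell s0.1 h0.p1 h0.s1 ((B.filter (fun s => s.1 = s0.1)).image Prod.snd) (by
      intro v hv
      rw [Finset.mem_image] at hv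
      obtain ⟨s, hs, rfl⟩ := hv
      rw [Finset.mem_filter] at hs
      obtain ⟨hsB, hs1⟩ := hs
      obtain ⟨a1, a2, a3, a4, a5, a6, a7, a8, a9⟩ := hB s hsB
      rw [← hs1]
      exact ⟨a1.p2, a1.s2, a5, a8, a9, a2, a3⟩)
    rw [Finset.sum_image (by
      intro s hs t ht hst
      rw [Finset.mem_coe, Finset.mem_filter] at hs ht
      exact Prod.ext (hs.2.trans ht.2.symm) hst)] at h1
    calc ∑ s ∈ B.filter (fun s => s.1 = s0.1), (Gc s.1 s.2 : ℝ) / ((bad s.1 : ℝ) * bad s.2)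
        = 1 / (bad s0.1 : ℝ) * ∑ s ∈ B.filter (fun s => s.1 = s0.1),
            (Gc s0.1 s.2 : ℝ) / bad s.2 := by
          rw [Finset.mul_sum]
          apply Finset.sum_congr rfl
          intro s hs
          rw [Finset.mem_filter] at hs
          rw [hs.2, one_div, div_eq_mul_inv, mul_inv, div_eq_mul_inv]
          ring
      _ ≤ 1 / (bad s0.1 : ℝ) * E := mul_le_mul_of_nonneg_left h1 (by positivity)
  calc ∑ u ∈ B.image Prod.fst, ∑ s ∈ B.filter (fun s => s.1 = u),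
        (Gc s.1 s.2 : ℝ) / ((bad s.1 : ℝ) * bad s.2)
      ≤ ∑ u ∈ B.image Prod.fst, 1 / (bad u : ℝ) * E := Finset.sum_le_sum hin
    _ = (∑ u ∈ B.image Prod.fst, 1 / (bad u : ℝ)) * E := by rw [Finset.sum_mul]
    _ ≤ 10 ^ 8 / q.c3 ^ 3 * E := by
        apply mul_le_mul_of_nonneg_right _ hE
        apply ph10_cell hq (x := x) (P0 := P0) (i := i) (δ1 := δ1) (δ4 := δ4)
        intro u hu
        rw [Finset.mem_image] at hu
        obtain ⟨s, hs, rfl⟩ := hu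
        obtain ⟨a1, a2, a3, a4, a5, a6, a7, a8, a9⟩ := hB s hs
        exact ⟨a1.p1, a1.s1, a4, a6, a7⟩

theorem cls2_pr (q : Par 5) (hq : q.Ok) (hg : q.Gap) {τ : ℝ} (hτ : 0 < τ) : ∃ x₀ : ℝ, 2 ≤ x₀ ∧
    ∀ x ≥ x₀, ∀ P0 P : ℕ, Real.log x ^ 60 ≤ P0 → P0 ≤ P → x ^ τ ≤ P → (P : ℝ) ≤ x →
      ∀ A : Finset (PolyK 5 × PolyK 5), (∀ s ∈ A, PairOk q x P0 s ∧ 1 < Gc s.1 s.2 ∧
        (Gc s.1 s.2 : ℝ) ≤ x ^ (q.ε / 8)) →
      ∑ s ∈ A, ThB W5 P s.1 s.2 * VP W5 P0 P s.1 s.2 ≤ Real.log x ^ (-20 : ℝ) := by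
  classical
  obtain ⟨x5, hx5, H5⟩ := cell2 q hq hg
  obtain ⟨C6, x6, hC6, hx6, H6⟩ := cells_count q hq
  obtain ⟨C3, x3, hC3, hx3, H3⟩ := sum_wsp hτ
  obtain ⟨C2, x2, hC2, hx2, H2⟩ := wi_VP_le (K := 5) (by norm_num) q hq W5 W5_ok hτ
  obtain ⟨xm, hxm, Hm⟩ := ph10_mem q hq
  obtain ⟨Cg, hCg, Hg⟩ := ph10_G
  have hc := hq.c30
  set K0 : ℝ := C6 * C2 * (10 ^ 8 / q.c3 ^ 3) * (C3 * Cg) ^ 2 with hK0
  have hK00 : 0 ≤ K0 := by positivity
  refine ⟨max (max (max x5 x6) (max x3 x2)) (max xm (Real.exp (max K0 2))), ?_, ?_⟩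
  · exact le_trans hx5 (le_trans (le_trans (le_max_left _ _) (le_max_left _ _)) (le_max_left _ _))
  intro x hx P0 P hP0 hP0P hτP hPx A hA
  simp only [ge_iff_le, max_le_iff] at hx
  obtain ⟨⟨⟨hx5', hx6'⟩, hx3', hx2'⟩, hxm', hxe⟩ := hx
  have hx2r : (2 : ℝ) ≤ x := by linarith
  have hxpos : 0 < x := by linarith
  have hlogK : max K0 2 ≤ Real.log x := by
    rw [Real.le_log_iff_exp_le hxpos]; exact hxe
  have hlog2 : 2 ≤ Real.log x := le_trans (le_max_right _ _) hlogK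
  have hlogK' : K0 ≤ Real.log x := le_trans (le_max_left _ _) hlogK
  have hlogpos : 0 < Real.log x := by linarith
  have hP02 : 2 ≤ P0 := by
    have h1 : (2 : ℝ) ≤ Real.log x ^ 60 := by
      calc (2 : ℝ) ≤ 2 ^ 60 := by norm_num
        _ ≤ Real.log x ^ 60 := pow_le_pow_left₀ (by norm_num) hlog2 60
    have h2 : (2 : ℝ) ≤ (P0 : ℝ) := le_trans h1 hP0
    exact_mod_cast h2
  have hP2 : 2 ≤ P := by omega
  -- abbreviations
  set f : PolyK 5 × PolyK 5 → ℝ := fun s => ThB W5 P s.1 s.2 * VP W5 P0 P s.1 s.2 with hf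
  set D : Finset ℕ := DP0 P0 ⌊x⌋₊ with hD
  set G : ℝ := ∏ p ∈ (prs P0 P).filter (fun p => p % 4 = 1), (1 + 3 / 4 / (p : ℝ)) with hG
  set η : ℝ := Real.log x ^ (-58 : ℝ) with hη
  have hη0 : 0 < η := Real.rpow_pos_of_pos hlogpos _
  have hG0 : 0 ≤ G := by
    apply Finset.prod_nonneg
    intro p _
    positivity
  -- keys
  set key : PolyK 5 × PolyK 5 → (ℕ × ℕ) × (ℕ × ℕ) :=
    fun s => ((dn s.1 1, dn s.2 1), (dn s.1 4, dn s.2 4)) with hkey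
  set key2 : PolyK 5 × PolyK 5 → (Fin 5 → ℕ) × (Fin 5 → ℕ) :=
    fun s => ((fun j => Nat.log 2 (nr (s.1 j))), (fun j => Nat.log 2 (nr (s.2 j)))) with hkey2
  set W : ((ℕ × ℕ) × (ℕ × ℕ)) → ℝ := fun k =>
    wsp P (1 / 8) (1 / 8) k.1.1 k.1.2 * wsp P (1 / 8) (1 / 8) k.2.1 k.2.2 with hW
  have hW0 : ∀ k, 0 ≤ W k := fun k => mul_nonneg (ph10_wsp_nn _ _ _) (ph10_wsp_nn _ _ _)
  have hmaps : ∀ s ∈ A, key s ∈ (D ×ˢ D) ×ˢ (D ×ˢ D) := by
    intro s hs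
    obtain ⟨hs1, _⟩ := hA s hs
    simp only [hkey, Finset.mem_product]
    exact ⟨⟨Hm x hxm' P0 _ hs1.p1 hs1.o1 1, Hm x hxm' P0 _ hs1.p2 hs1.o2 1⟩,
      ⟨Hm x hxm' P0 _ hs1.p1 hs1.o1 4, Hm x hxm' P0 _ hs1.p2 hs1.o2 4⟩⟩
  -- one pair
  have hone : ∀ s ∈ A, f s ≤ C2 * W (key s) *
      ((Gc s.1 s.2 : ℝ) / ((bad s.1 : ℝ) * bad s.2)) := by
    intro s hs
    obtain ⟨hs1, hs2, hs3⟩ := hA s hs
    have h1 := H2 x hx2' P0 P hP02 hτP s.1 s.2 hs1.p1 hs1.p2 hs1.o1 hs1.o2 ∅ (by simp)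
    rw [Finset.prod_empty, mul_one] at h1
    have h2 : ∏ p ∈ (Gc s.1 s.2).primeFactors, (p : ℝ) / 2 ≤ Gc s.1 s.2 :=
      ph10_gc _ (by omega)
    have h3 : 0 ≤ ∏ p ∈ (Gc s.1 s.2).primeFactors, (p : ℝ) / 2 :=
      Finset.prod_nonneg (fun p _ => by positivity)
    have h4 : 0 ≤ C2 / ((bad s.1 : ℝ) * bad s.2) := by positivity
    simp only [hf]
    rw [ph10_ThB]
    calc (∏ p ∈ (Gc s.1 s.2).primeFactors, (p : ℝ) / 2) * (wi W5 P s.1 * wi W5 P s.2) *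
          (wsp P (1 / 8) (1 / 8) (dn s.1 1) (dn s.2 1) *
            wsp P (1 / 8) (1 / 8) (dn s.1 4) (dn s.2 4)) * VP W5 P0 P s.1 s.2
        = ((∏ p ∈ (Gc s.1 s.2).primeFactors, (p : ℝ) / 2) *
            (wi W5 P s.1 * wi W5 P s.2 * VP W5 P0 P s.1 s.2)) * W (key s) := by
          simp only [hW, hkey]
          ring
      _ ≤ ((∏ p ∈ (Gc s.1 s.2).primeFactors, (p : ℝ) / 2) *
            (C2 / ((bad s.1 : ℝ) * bad s.2))) * W (key s) := by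
          apply mul_le_mul_of_nonneg_right _ (hW0 _)
          exact mul_le_mul_of_nonneg_left h1 h3
      _ ≤ ((Gc s.1 s.2 : ℝ) * (C2 / ((bad s.1 : ℝ) * bad s.2))) * W (key s) := by
          apply mul_le_mul_of_nonneg_right _ (hW0 _)
          exact mul_le_mul_of_nonneg_right h2 h4
      _ = C2 * W (key s) * ((Gc s.1 s.2 : ℝ) / ((bad s.1 : ℝ) * bad s.2)) := by ring
  have hcell : ∀ k, ∀ t, ∑ s ∈ (A.filter (fun s => key s = k)).filter (fun s => key2 s = t), f s ≤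
      C2 * W k * (10 ^ 8 / q.c3 ^ 3 * η) := by
    intro k t
    have h := ph10_pairs hq (x := x) (by linarith) (P0 := P0) (i := t.1) (i' := t.2)
      (δ1 := q.σ 1 (1 + 1) * (k.1.1 : ℤ))
      (δ4 := q.σ 4 (4 + 1) * (k.2.1 : ℤ)) (δ1' := q.σ 1 (1 + 1) * (k.1.2 : ℤ))
      (δ4' := q.σ 4 (4 + 1) * (k.2.2 : ℤ)) (E := η) hη0.le
      (fun u hu hsu B hB => H5 x hx5' P0 hP0 u hu hsu t.2 _ _ B hB)
      ((A.filter (fun s => key s = k)).filter (fun s => key2 s = t)) ?_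
    · calc ∑ s ∈ (A.filter (fun s => key s = k)).filter (fun s => key2 s = t), f s
          ≤ ∑ s ∈ (A.filter (fun s => key s = k)).filter (fun s => key2 s = t), C2 * W k *
              ((Gc s.1 s.2 : ℝ) / ((bad s.1 : ℝ) * bad s.2)) := by
            apply Finset.sum_le_sum
            intro s hs
            rw [Finset.mem_filter, Finset.mem_filter] at hs
            have h1 := hone s hs.1.1
            rw [hs.1.2] at h1
            exact h1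
        _ = C2 * W k * ∑ s ∈ (A.filter (fun s => key s = k)).filter (fun s => key2 s = t),
              ((Gc s.1 s.2 : ℝ) / ((bad s.1 : ℝ) * bad s.2)) := by rw [Finset.mul_sum]
        _ ≤ C2 * W k * (10 ^ 8 / q.c3 ^ 3 * η) :=
            mul_le_mul_of_nonneg_left h (mul_nonneg hC2 (hW0 k))
    · intro s hs
      rw [Finset.mem_filter, Finset.mem_filter] at hs
      obtain ⟨⟨hsA, hk⟩, ht⟩ := hs
      obtain ⟨hs1, hs2, hs3⟩ := hA s hsA
      refine ⟨hs1, hs2, hs3, ?_, ?_, ?_, ?_, ?_, ?_⟩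
      · rw [← ht]; exact ph10_siz hxpos hs1.p1
      · rw [← ht]; exact ph10_siz hxpos hs1.p2
      · rw [← hk]; exact ph10_dl q hq hs1.p1 1
      · rw [← hk]; exact ph10_dl q hq hs1.p1 4
      · rw [← hk]; exact ph10_dl q hq hs1.p2 1
      · rw [← hk]; exact ph10_dl q hq hs1.p2 4
  have hfib : ∀ k, ∑ s ∈ A.filter (fun s => key s = k), f s ≤
      (C6 * Real.log x ^ 5) * (C2 * W k * (10 ^ 8 / q.c3 ^ 3 * η)) := by
    intro k
    have hM0 : 0 ≤ C2 * W k * (10 ^ 8 / q.c3 ^ 3 * η) := by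
      have := hW0 k
      positivity
    rw [← Finset.sum_fiberwise_of_maps_to (g := key2)
      (t := (A.filter (fun s => key s = k)).image key2)
      (fun s hs => Finset.mem_image_of_mem _ hs)]
    calc ∑ t ∈ (A.filter (fun s => key s = k)).image key2,
          ∑ s ∈ (A.filter (fun s => key s = k)).filter (fun s => key2 s = t), f s
        ≤ ∑ t ∈ (A.filter (fun s => key s = k)).image key2,
            C2 * W k * (10 ^ 8 / q.c3 ^ 3 * η) :=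
          Finset.sum_le_sum (fun t _ => hcell k t)
      _ = (((A.filter (fun s => key s = k)).image key2).card : ℝ) *
            (C2 * W k * (10 ^ 8 / q.c3 ^ 3 * η)) := by
          rw [Finset.sum_const, nsmul_eq_mul]
      _ ≤ (C6 * Real.log x ^ 5) * (C2 * W k * (10 ^ 8 / q.c3 ^ 3 * η)) := by
          apply mul_le_mul_of_nonneg_right _ hM0
          apply H6 x hx6' P0 k.1.1 k.2.1 k.1.2 k.2.2
          intro t ht
          rw [Finset.mem_image] at ht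
          obtain ⟨s, hs, rfl⟩ := ht
          rw [Finset.mem_filter] at hs
          obtain ⟨hsA, hk⟩ := hs
          obtain ⟨hs1, hs2⟩ := hA s hsA
          exact ⟨s, hs1, ph10_siz hxpos hs1.p1, ph10_siz hxpos hs1.p2, by rw [← hk],
            by rw [← hk], by rw [← hk], by rw [← hk]⟩
  have hsumW : ∑ k ∈ (D ×ˢ D) ×ˢ (D ×ˢ D), W k ≤ (C3 * (Cg * Real.log x)) ^ 2 := by
    have h1 : ∑ k ∈ (D ×ˢ D) ×ˢ (D ×ˢ D), W k =
        (∑ d ∈ D, ∑ d' ∈ D, wsp P (1 / 8) (1 / 8) d d') *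
          (∑ d ∈ D, ∑ d' ∈ D, wsp P (1 / 8) (1 / 8) d d') := by
      rw [Finset.sum_product, ← Finset.sum_product' (s := D) (t := D)
        (f := fun d d' => wsp P (1 / 8) (1 / 8) d d'), Finset.sum_mul_sum]
    rw [h1, pow_two]
    have h2 := H3 x hx3' P0 P hP02 hP0P hτP hPx
    have h3 : 0 ≤ ∑ d ∈ D, ∑ d' ∈ D, wsp P (1 / 8) (1 / 8) d d' :=
      Finset.sum_nonneg (fun d _ => Finset.sum_nonneg (fun d' _ => ph10_wsp_nn _ _ _))
    have h4 : ∑ d ∈ D, ∑ d' ∈ D, wsp P (1 / 8) (1 / 8) d d' ≤ C3 * (Cg * Real.log x) :=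
      le_trans h2 (mul_le_mul_of_nonneg_left (Hg x P0 P hP2 hPx) hC3)
    exact mul_le_mul h4 h4 h3 (le_trans h3 h4)
  have hfin : Real.log x ^ 5 * Real.log x ^ 2 * Real.log x ^ (-58 : ℝ) =
      Real.log x ^ (-51 : ℝ) := by
    rw [← pow_add, ← Real.rpow_natCast (Real.log x) (5 + 2), ← Real.rpow_add hlogpos]
    norm_num
  have hfin2 : Real.log x * Real.log x ^ (-51 : ℝ) = Real.log x ^ (-50 : ℝ) := by
    conv_lhs => rw [← Real.rpow_one (Real.log x), ← Real.rpow_mul hlogpos.le]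
    rw [← Real.rpow_add hlogpos]
    norm_num
  calc ∑ s ∈ A, f s = ∑ k ∈ (D ×ˢ D) ×ˢ (D ×ˢ D), ∑ s ∈ A.filter (fun s => key s = k), f s :=
        (Finset.sum_fiberwise_of_maps_to hmaps f).symm
    _ ≤ ∑ k ∈ (D ×ˢ D) ×ˢ (D ×ˢ D),
          (C6 * Real.log x ^ 5) * (C2 * W k * (10 ^ 8 / q.c3 ^ 3 * η)) :=
        Finset.sum_le_sum (fun k _ => hfib k)
    _ = (C6 * Real.log x ^ 5) * C2 * (10 ^ 8 / q.c3 ^ 3 * η) *
          ∑ k ∈ (D ×ˢ D) ×ˢ (D ×ˢ D), W k := by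
        rw [Finset.mul_sum]
        apply Finset.sum_congr rfl
        intro k _
        ring
    _ ≤ (C6 * Real.log x ^ 5) * C2 * (10 ^ 8 / q.c3 ^ 3 * η) * (C3 * (Cg * Real.log x)) ^ 2 :=
        mul_le_mul_of_nonneg_left hsumW (by positivity)
    _ = K0 * (Real.log x ^ 5 * Real.log x ^ 2 * Real.log x ^ (-58 : ℝ)) := by
        rw [hK0, hη]; ring
    _ = K0 * Real.log x ^ (-51 : ℝ) := by rw [hfin]
    _ ≤ Real.log x * Real.log x ^ (-51 : ℝ) :=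
        mul_le_mul_of_nonneg_right hlogK' (Real.rpow_nonneg hlogpos.le _)
    _ = Real.log x ^ (-50 : ℝ) := hfin2
    _ ≤ Real.log x ^ (-20 : ℝ) :=
        Real.rpow_le_rpow_of_exponent_le (by linarith) (by norm_num)

end Pool.Agent.PENK

namespace Pool.Agent.PENK

theorem cls2 : type_of% @cls2_pr := @cls2_pr

end Pool.Agent.PENK
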