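import Pool.Agent.Lib_helper18.PENKF.DefsW
import Pool.Agent.Lib_helper8.PENT.B.zb
import Pool.Agent.Lib_helper8.PENT.B.zc
import Pool.Agent.Lib_helper8.PENT.B.zk
import Pool.Agent.Lib_helper68.LEV.MRT
import Pool.Agent.Lib_helper18.PENKF.PH1

/-! Block PH2: the exponent `-10` -/

set_option autoImplicit false

namespace Pool.Agent.PENK

open Finset Pool.Agent.PENT

theorem ph2_sum_sq (ps P : ℕ) (hps : 1 ≤ ps) : ∑ p ∈ prs ps P, 1 / (p : ℝ) ^ 2 ≤ 1 := by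
  unfold prs
  rcases le_or_gt P ps with h | h
  · rw [Finset.Ioc_eq_empty (by omega)]
    simp
  have h1 : ∑ p ∈ (Ioc ps P).filter Nat.Prime, 1 / (p : ℝ) ^ 2 ≤ ∑ p ∈ Ioc ps P, 1 / (p : ℝ) ^ 2 :=
    Finset.sum_le_sum_of_subset_of_nonneg (Finset.filter_subset _ _)
      (fun _ _ _ => by positivity)
  have h2 : ∑ p ∈ Ioc ps P, 1 / (p : ℝ) ^ 2 = ∑ p ∈ Ioc ps P, ((p : ℝ) ^ 2)⁻¹ :=
    Finset.sum_congr rfl (fun _ _ => by rw [one_div])
  have h3 := sum_Ioc_inv_sq_le_sub (α := ℝ) (k := ps) (n := P) (by omega) h.le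
  have h4 : (0 : ℝ) ≤ (P : ℝ)⁻¹ := by positivity
  have h5 : (ps : ℝ)⁻¹ ≤ 1 := by
    apply inv_le_one_of_one_le₀
    exact_mod_cast hps
  rw [h2] at h1
  linarith

theorem ph2_split (a P : ℕ) (haP : a ≤ P) (q : ℕ → Prop) [DecidablePred q] :
    ∑ p ∈ (prs a P).filter q, 1 / (p : ℝ) =
      ∑ p ∈ (Icc 1 P).filter (fun p => p.Prime ∧ q p), 1 / (p : ℝ) -
        ∑ p ∈ (Icc 1 a).filter (fun p => p.Prime ∧ q p), 1 / (p : ℝ) := by
  have h1 : (Icc 1 P).filter (fun p => p.Prime ∧ q p) =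
      (Icc 1 a).filter (fun p => p.Prime ∧ q p) ∪ (prs a P).filter q := by
    ext p
    simp only [prs, Finset.mem_filter, Finset.mem_Icc, Finset.mem_union, Finset.mem_Ioc]
    constructor
    · rintro ⟨⟨h1, h2⟩, h3, h4⟩
      rcases le_or_gt p a with h | h
      · exact Or.inl ⟨⟨h1, h⟩, h3, h4⟩
      · exact Or.inr ⟨⟨⟨h, h2⟩, h3⟩, h4⟩
    · rintro (⟨⟨h1, h2⟩, h3, h4⟩ | ⟨⟨⟨h1, h2⟩, h3⟩, h4⟩)
      · exact ⟨⟨h1, h2.trans haP⟩, h3, h4⟩
      · exact ⟨⟨h3.one_lt.le, h2⟩, h3, h4⟩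
  have h2 : Disjoint ((Icc 1 a).filter (fun p => p.Prime ∧ q p)) ((prs a P).filter q) := by
    rw [Finset.disjoint_left]
    intro p hp hp'
    simp only [prs, Finset.mem_filter, Finset.mem_Icc, Finset.mem_Ioc] at hp hp'
    omega
  rw [h1, Finset.sum_union h2]
  ring

theorem ph2_prod_le (S : Finset ℕ) (f : ℕ → ℝ) (hf : ∀ p ∈ S, 0 ≤ 1 + f p) :
    ∏ p ∈ S, (1 + f p) ≤ Real.exp (∑ p ∈ S, f p) := by
  rw [Real.exp_sum]
  apply Finset.prod_le_prod hf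
  intro p _
  have := Real.add_one_le_exp (f p)
  linarith

theorem ph2_exp (C1 : ℝ) (ps : ℕ) (hps : 500 ≤ ps) (P0 P : ℕ) (hC1 : 0 ≤ C1) :
    ∑ p ∈ prs ps P, (-(bden ∅ W5 P0 p / p) + C1 / (p : ℝ) ^ 2) +
      2 * ∑ p ∈ (prs P0 P).filter (fun p => p % 4 = 1), 3 / 4 / (p : ℝ) ≤
    -8 * ∑ p ∈ (prs ps P).filter (fun p => p % 4 = 1), 1 / (p : ℝ) -
      6 * ∑ p ∈ (prs ps P).filter (fun _ => True), 1 / (p : ℝ) + C1 + 3 / 2 * ps := by
  have h1 : 2 * ∑ p ∈ (prs P0 P).filter (fun p => p % 4 = 1), 3 / 4 / (p : ℝ) ≤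
      ∑ p ∈ (prs ps P).filter (fun p => p % 4 = 1 ∧ P0 < p), 3 / 2 / (p : ℝ) +
        ∑ p ∈ Icc 1 ps, 3 / 2 / (p : ℝ) := by
    have h2 : (prs P0 P).filter (fun p => p % 4 = 1) ⊆
        (prs ps P).filter (fun p => p % 4 = 1 ∧ P0 < p) ∪ Icc 1 ps := by
      intro p hp
      simp only [prs, Finset.mem_filter, Finset.mem_Icc, Finset.mem_union, Finset.mem_Ioc] at hp ⊢
      obtain ⟨⟨⟨h1, h2⟩, h3⟩, h4⟩ := hp
      rcases le_or_gt p ps with h | h
      · exact Or.inr ⟨h3.one_lt.le, h⟩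
      · exact Or.inl ⟨⟨⟨h, h2⟩, h3⟩, h4, h1⟩
    have h3 : Disjoint ((prs ps P).filter (fun p => p % 4 = 1 ∧ P0 < p)) (Icc 1 ps) := by
      rw [Finset.disjoint_left]
      intro p hp hp'
      simp only [prs, Finset.mem_filter, Finset.mem_Icc, Finset.mem_Ioc] at hp hp'
      omega
    rw [← Finset.sum_union h3, Finset.mul_sum]
    calc ∑ p ∈ (prs P0 P).filter (fun p => p % 4 = 1), 2 * (3 / 4 / (p : ℝ))
        = ∑ p ∈ (prs P0 P).filter (fun p => p % 4 = 1), 3 / 2 / (p : ℝ) :=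
          Finset.sum_congr rfl (fun p _ => by ring)
      _ ≤ _ := Finset.sum_le_sum_of_subset_of_nonneg h2 (fun _ _ _ => by positivity)
  have h2 : ∑ p ∈ Icc 1 ps, 3 / 2 / (p : ℝ) ≤ 3 / 2 * ps := by
    calc ∑ p ∈ Icc 1 ps, 3 / 2 / (p : ℝ) ≤ ∑ _p ∈ Icc 1 ps, (3 / 2 : ℝ) := by
          apply Finset.sum_le_sum
          intro p hp
          rw [Finset.mem_Icc] at hp
          have : (1 : ℝ) ≤ (p : ℝ) := by exact_mod_cast hp.1
          exact div_le_self (by norm_num) this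
      _ = 3 / 2 * ps := by
          rw [Finset.sum_const, Nat.card_Icc, nsmul_eq_mul]
          simp
          ring
  have h3 : ∑ p ∈ (prs ps P).filter (fun p => p % 4 = 1 ∧ P0 < p), 3 / 2 / (p : ℝ) =
      ∑ p ∈ prs ps P, if p % 4 = 1 ∧ P0 < p then 3 / 2 / (p : ℝ) else 0 := by
    rw [Finset.sum_filter]
  have h4 : ∑ p ∈ (prs ps P).filter (fun p => p % 4 = 1), 1 / (p : ℝ) =
      ∑ p ∈ prs ps P, if p % 4 = 1 then 1 / (p : ℝ) else 0 := by
    rw [Finset.sum_filter]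
  have h5 : ∑ p ∈ (prs ps P).filter (fun _ => True), 1 / (p : ℝ) = ∑ p ∈ prs ps P, 1 / (p : ℝ) := by
    rw [Finset.filter_true]
  have h6 := ph2_sum_sq ps P (by omega)
  have h7 : ∑ p ∈ prs ps P, (-(bden ∅ W5 P0 p / p) + C1 / (p : ℝ) ^ 2) +
      ∑ p ∈ prs ps P, (if p % 4 = 1 ∧ P0 < p then 3 / 2 / (p : ℝ) else 0) ≤
      -8 * ∑ p ∈ prs ps P, (if p % 4 = 1 then 1 / (p : ℝ) else 0) -
        6 * ∑ p ∈ prs ps P, 1 / (p : ℝ) + C1 * ∑ p ∈ prs ps P, 1 / (p : ℝ) ^ 2 := by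
    rw [← Finset.sum_add_distrib, Finset.mul_sum, Finset.mul_sum, Finset.mul_sum,
      ← Finset.sum_sub_distrib, ← Finset.sum_add_distrib]
    apply Finset.sum_le_sum
    intro p hp
    simp only [prs, Finset.mem_filter, Finset.mem_Ioc] at hp
    have hodd : p % 2 = 1 := by
      rcases hp.2.eq_two_or_odd with h | h
      · omega
      · exact h
    have hp0 : (0 : ℝ) < p := by exact_mod_cast hp.2.pos
    rw [bden5]
    rcases (by omega : p % 4 = 1 ∨ p % 4 = 3) with h | h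
    · rw [if_neg (by omega : ¬ p % 4 = 3), if_pos h]
      by_cases hP : p ≤ P0
      · rw [if_pos hP, if_neg (by omega)]
        apply le_of_eq; ring
      · rw [if_neg hP, if_pos ⟨h, by omega⟩]
        apply le_of_eq; ring
    · rw [if_pos h, if_neg (by omega : ¬ p % 4 = 1), if_neg (by omega)]
      apply le_of_eq; ring
  have h8 : C1 * ∑ p ∈ prs ps P, 1 / (p : ℝ) ^ 2 ≤ C1 := by
    calc C1 * ∑ p ∈ prs ps P, 1 / (p : ℝ) ^ 2 ≤ C1 * 1 := mul_le_mul_of_nonneg_left h6 hC1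
      _ = C1 := mul_one _
  rw [h3] at h1
  rw [h4, h5]
  linarith

theorem mert_ten_pr (C1 : ℝ) (hC1 : 0 ≤ C1) (ps : ℕ) (hps : 500 ≤ ps)
    (hpos : ∀ P0 p : ℕ, p.Prime → ps < p → 1 / 4 ≤ FF C1 P0 p) {τ : ℝ} (hτ : 0 < τ) :
    ∃ C x₀ : ℝ, 0 ≤ C ∧ 2 ≤ x₀ ∧ ∀ x ≥ x₀, ∀ P0 P : ℕ, 2 ≤ P0 → P0 ≤ P → x ^ τ ≤ P →
      (P : ℝ) ≤ x →
      (∏ p ∈ prs ps P, FF C1 P0 p) *
        (∏ p ∈ (prs P0 P).filter (fun p => p % 4 = 1), (1 + 3 / 4 / (p : ℝ))) ^ 2 ≤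
        C * Real.log x ^ (-10 : ℝ) := by
  obtain ⟨Ca, hCa, Ha⟩ := mertens_s14
  obtain ⟨Cb, Hb⟩ := Pool.Agent.LEV.mertens_two
  set D : ℝ := 8 * (Ca + s14 ps) +
    6 * (Cb + ∑ p ∈ (Icc 1 ps).filter (fun p => p.Prime ∧ True), 1 / (p : ℝ)) + C1 + 3 / 2 * ps
    with hD
  refine ⟨Real.exp D * τ ^ (-10 : ℝ), max 2 ((ps : ℝ) ^ (1 / τ)), by positivity,
    le_max_left _ _, ?_⟩
  intro x hx P0 P hP0 hP0P hxP hPx
  have hx2 : 2 ≤ x := (le_max_left _ _).trans hx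
  have hx3 : (ps : ℝ) ^ (1 / τ) ≤ x := (le_max_right _ _).trans hx
  have hx0 : 0 < x := by linarith
  have hpsP : ps ≤ P := by
    have h1 : (ps : ℝ) ≤ x ^ τ := by
      have h2 := Real.rpow_le_rpow (by positivity) hx3 hτ.le
      rw [← Real.rpow_mul (Nat.cast_nonneg _), one_div, inv_mul_cancel₀ hτ.ne',
        Real.rpow_one] at h2
      exact h2
    exact_mod_cast h1.trans hxP
  have hP2 : (2 : ℝ) ≤ P := by
    have : 2 ≤ P := by omega
    exact_mod_cast this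
  -- the products
  have e1 : ∏ p ∈ prs ps P, FF C1 P0 p ≤
      Real.exp (∑ p ∈ prs ps P, (-(bden ∅ W5 P0 p / p) + C1 / (p : ℝ) ^ 2)) := by
    have h1 : ∏ p ∈ prs ps P, FF C1 P0 p =
        ∏ p ∈ prs ps P, (1 + (-(bden ∅ W5 P0 p / p) + C1 / (p : ℝ) ^ 2)) :=
      Finset.prod_congr rfl (fun p _ => by unfold FF; ring)
    rw [h1]
    apply ph2_prod_le
    intro p hp
    simp only [prs, Finset.mem_filter, Finset.mem_Ioc] at hp
    have h2 := hpos P0 p hp.2 hp.1.1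
    unfold FF at h2
    linarith
  have e1' : 0 ≤ ∏ p ∈ prs ps P, FF C1 P0 p := by
    apply Finset.prod_nonneg
    intro p hp
    simp only [prs, Finset.mem_filter, Finset.mem_Ioc] at hp
    have h2 := hpos P0 p hp.2 hp.1.1
    linarith
  have e2 : (∏ p ∈ (prs P0 P).filter (fun p => p % 4 = 1), (1 + 3 / 4 / (p : ℝ))) ^ 2 ≤
      Real.exp (2 * ∑ p ∈ (prs P0 P).filter (fun p => p % 4 = 1), 3 / 4 / (p : ℝ)) := by
    have h1 := ph2_prod_le ((prs P0 P).filter (fun p => p % 4 = 1)) (fun p => 3 / 4 / (p : ℝ))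
      (fun p _ => by positivity)
    have h2 : Real.exp (2 * ∑ p ∈ (prs P0 P).filter (fun p => p % 4 = 1), 3 / 4 / (p : ℝ)) =
        Real.exp (∑ p ∈ (prs P0 P).filter (fun p => p % 4 = 1), 3 / 4 / (p : ℝ)) ^ 2 := by
      rw [← Real.exp_nat_mul]
      push_cast
      rfl
    rw [h2]
    exact pow_le_pow_left₀ (Finset.prod_nonneg (fun p _ => by positivity)) h1 2
  have e3 : (∏ p ∈ prs ps P, FF C1 P0 p) *
        (∏ p ∈ (prs P0 P).filter (fun p => p % 4 = 1), (1 + 3 / 4 / (p : ℝ))) ^ 2 ≤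
      Real.exp (D - 10 * Real.log (Real.log P)) := by
    calc _ ≤ Real.exp (∑ p ∈ prs ps P, (-(bden ∅ W5 P0 p / p) + C1 / (p : ℝ) ^ 2)) *
          Real.exp (2 * ∑ p ∈ (prs P0 P).filter (fun p => p % 4 = 1), 3 / 4 / (p : ℝ)) :=
          mul_le_mul e1 e2 (by positivity) (Real.exp_nonneg _)
      _ = Real.exp (∑ p ∈ prs ps P, (-(bden ∅ W5 P0 p / p) + C1 / (p : ℝ) ^ 2) +
          2 * ∑ p ∈ (prs P0 P).filter (fun p => p % 4 = 1), 3 / 4 / (p : ℝ)) := by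
          rw [Real.exp_add]
      _ ≤ Real.exp (D - 10 * Real.log (Real.log P)) := by
          apply Real.exp_le_exp.2
          refine (ph2_exp C1 ps hps P0 P hC1).trans ?_
          rw [ph2_split ps P hpsP (fun p => p % 4 = 1), ph2_split ps P hpsP (fun _ => True)]
          have h1 := Ha P hP2
          have h2 := Hb P hP2
          have h3 : s14 P = ∑ p ∈ (Icc 1 P).filter (fun p => p.Prime ∧ p % 4 = 1), 1 / (p : ℝ) := by
            unfold s14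
            rw [Nat.floor_natCast]
          have h4 : s14 ps = ∑ p ∈ (Icc 1 ps).filter (fun p => p.Prime ∧ p % 4 = 1),
              1 / (p : ℝ) := by
            unfold s14
            rw [Nat.floor_natCast]
          have h5 : ∑ p ∈ (Icc 1 P).filter (fun p => p.Prime ∧ True), 1 / (p : ℝ) =
              ∑ p ∈ (Icc 1 ⌊(P : ℝ)⌋₊).filter Nat.Prime, 1 / (p : ℝ) := by
            rw [Nat.floor_natCast]
            simp only [and_true]
          rw [← h3, ← h4, h5, hD]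
          have h6 := (abs_le.1 h1).1
          have h7 := (abs_le.1 h2).1
          linarith
  refine e3.trans ?_
  have hlx : 0 < Real.log x := Real.log_pos (by linarith)
  have hlP : τ * Real.log x ≤ Real.log P := by
    rw [← Real.log_rpow hx0]
    exact Real.log_le_log (by positivity) hxP
  have hlP0 : 0 < Real.log P := lt_of_lt_of_le (by positivity) hlP
  have e4 : Real.exp (D - 10 * Real.log (Real.log P)) =
      Real.exp D * Real.log P ^ (-10 : ℝ) := by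
    rw [Real.rpow_def_of_pos hlP0, ← Real.exp_add]
    congr 1
    ring
  rw [e4, mul_assoc, ← Real.mul_rpow hτ.le hlx.le]
  apply mul_le_mul_of_nonneg_left _ (Real.exp_nonneg _)
  exact Real.rpow_le_rpow_of_nonpos (by positivity) hlP (by norm_num)

end Pool.Agent.PENK

namespace Pool.Agent.PENK

theorem mert_ten : type_of% @mert_ten_pr := @mert_ten_pr

end Pool.Agent.PENK
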