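import Pool.Agent.Lib_helper18.PENKF.DefsW
import Pool.Agent.Lib_helper18.PENKF.PH1

/-! Block PH4: the primes dividing `E` do not matter -/

set_option autoImplicit false

namespace Pool.Agent.PENK

open Finset Pool.Agent.PENT

theorem ph4_FF_ge (C1 : ℝ) (hC1 : 0 ≤ C1) (P0 p : ℕ) (hp : 0 < p) :
    1 - 16 / (p : ℝ) ≤ FF C1 P0 p := by
  unfold FF
  rw [bden5]
  have hp0 : (0 : ℝ) < p := by exact_mod_cast hp
  have h1 : 0 ≤ C1 / (p : ℝ) ^ 2 := by positivity
  have h2 : (if p % 4 = 3 then (6 : ℝ) else if p ≤ P0 then 14 else 31 / 2) ≤ 16 := by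
    split_ifs <;> norm_num
  have h3 : (if p % 4 = 3 then (6 : ℝ) else if p ≤ P0 then 14 else 31 / 2) / (p : ℝ) ≤
      16 / (p : ℝ) := div_le_div_of_nonneg_right h2 hp0.le
  linarith

theorem ph4_card (E : ℕ) (hE : 1 ≤ E) (T : Finset ℕ) (hT : ∀ p ∈ T, p.Prime ∧ p ∣ E) :
    2 ^ T.card ≤ E := by
  have h1 : T ⊆ E.primeFactors := by
    intro p hp
    rw [Nat.mem_primeFactors]
    exact ⟨(hT p hp).1, (hT p hp).2, by omega⟩
  have h2 : ∏ p ∈ T, p ∣ E :=
    (Finset.prod_dvd_prod_of_subset _ _ _ h1).trans (Nat.prod_primeFactors_dvd _)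
  calc 2 ^ T.card = ∏ _p ∈ T, 2 := by rw [Finset.prod_const]
    _ ≤ ∏ p ∈ T, p := Finset.prod_le_prod' (fun p hp => (hT p hp).1.two_le)
    _ ≤ E := Nat.le_of_dvd (by omega) h2

theorem FF_restore_pr (C1 : ℝ) (hC1 : 0 ≤ C1) (ps : ℕ) (hps : 500 ≤ ps)
    (hpos : ∀ P0 p : ℕ, p.Prime → ps < p → 1 / 4 ≤ FF C1 P0 p) : ∃ x₀ : ℝ, 2 ≤ x₀ ∧ ∀ x ≥ x₀,
    ∀ P0 P E : ℕ, Real.log x ^ 60 ≤ P0 → 1 ≤ E → (E : ℝ) ≤ x →
    (∀ p : ℕ, p.Prime → p ∣ E → P0 < p) →
    ∏ p ∈ (prs ps P).filter (fun p => ¬ p ∣ E), FF C1 P0 p ≤ 2 * ∏ p ∈ prs ps P, FF C1 P0 p := by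
  refine ⟨Real.exp 2, ?_, ?_⟩
  · have := Real.add_one_le_exp (2 : ℝ)
    linarith
  intro x hx P0 P E hP0 hE hEx hdiv
  have hx0 : 0 < x := (Real.exp_pos 2).trans_le hx
  have hL : 2 ≤ Real.log x := by
    rw [← Real.log_exp 2]
    exact Real.log_le_log (Real.exp_pos 2) hx
  set L : ℝ := Real.log x with hLd
  have hL0 : 0 < L := by linarith
  set T := (prs ps P).filter (fun p => p ∣ E) with hT
  have hmem : ∀ p ∈ prs ps P, p.Prime ∧ ps < p := by
    intro p hp
    simp only [prs, Finset.mem_filter, Finset.mem_Ioc] at hp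
    exact ⟨hp.2, hp.1.1⟩
  have hcard := ph4_card E hE T (by
    intro p hp
    rw [hT, Finset.mem_filter] at hp
    exact ⟨(hmem p hp.1).1, hp.2⟩)
  have hcard2 : (T.card : ℝ) ≤ 2 * L := by
    have h1 : ((2 : ℝ)) ^ T.card ≤ x := by
      have : ((2 ^ T.card : ℕ) : ℝ) ≤ (E : ℝ) := by exact_mod_cast hcard
      push_cast at this
      linarith
    have h2 := Real.log_le_log (by positivity) h1
    rw [Real.log_pow, ← hLd] at h2
    have h3 : (0.5 : ℝ) < Real.log 2 := by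
      have := Real.log_two_gt_d9
      linarith
    have h4 : (0 : ℝ) ≤ (T.card : ℝ) := Nat.cast_nonneg _
    nlinarith
  have hhalf : (1 / 2 : ℝ) ≤ ∏ p ∈ T, FF C1 P0 p := by
    have h59 : (64 : ℝ) ≤ L ^ 59 := by
      calc (64 : ℝ) = 2 ^ 6 := by norm_num
        _ ≤ 2 ^ 59 := by norm_num
        _ ≤ L ^ 59 := pow_le_pow_left₀ (by norm_num) hL 59
    have h60 : (0 : ℝ) < L ^ 60 := by positivity
    have h1 : ∏ _p ∈ T, (1 + (-(16 / L ^ 60))) ≤ ∏ p ∈ T, FF C1 P0 p := by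
      apply Finset.prod_le_prod
      · intro p _
        have h2 : 16 / L ^ 60 ≤ 1 := by
          rw [div_le_one h60]
          calc (16 : ℝ) ≤ 64 := by norm_num
            _ ≤ L ^ 59 := h59
            _ ≤ L ^ 60 := pow_le_pow_right₀ (by linarith) (by norm_num)
        linarith
      · intro p hp
        rw [hT, Finset.mem_filter] at hp
        have h2 := hdiv p (hmem p hp.1).1 hp.2
        have h3 : L ^ 60 ≤ (p : ℝ) := hP0.trans (by exact_mod_cast h2.le)
        have h4 := ph4_FF_ge C1 hC1 P0 p (hmem p hp.1).1.pos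
        have h5 : 16 / (p : ℝ) ≤ 16 / L ^ 60 :=
          div_le_div_of_nonneg_left (by norm_num) h60 h3
        linarith
    rw [Finset.prod_const] at h1
    have h2 := one_add_mul_le_pow (a := -(16 / L ^ 60)) (by
      have : 16 / L ^ 60 ≤ 1 := by
        rw [div_le_one h60]
        calc (16 : ℝ) ≤ 64 := by norm_num
          _ ≤ L ^ 59 := h59
          _ ≤ L ^ 60 := pow_le_pow_right₀ (by linarith) (by norm_num)
      linarith) T.card
    have h3 : (T.card : ℝ) * (16 / L ^ 60) ≤ 1 / 2 := by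
      calc (T.card : ℝ) * (16 / L ^ 60) ≤ 2 * L * (16 / L ^ 60) :=
            mul_le_mul_of_nonneg_right hcard2 (by positivity)
        _ = 32 / L ^ 59 := by
            field_simp
            ring
        _ ≤ 1 / 2 := by
            rw [div_le_div_iff₀ (by positivity) (by norm_num)]
            linarith
    linarith
  have hsplit := Finset.prod_filter_mul_prod_filter_not (prs ps P) (fun p => p ∣ E)
    (fun p => FF C1 P0 p)
  rw [← hsplit, ← hT]
  have hnn : 0 ≤ ∏ p ∈ (prs ps P).filter (fun p => ¬ p ∣ E), FF C1 P0 p := by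
    apply Finset.prod_nonneg
    intro p hp
    rw [Finset.mem_filter] at hp
    have := hpos P0 p (hmem p hp.1).1 (hmem p hp.1).2
    linarith
  nlinarith

end Pool.Agent.PENK

namespace Pool.Agent.PENK

theorem FF_restore : type_of% @FF_restore_pr := @FF_restore_pr

end Pool.Agent.PENK
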