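import Pool.Agent.Lib_helper18.PENKF.DefsW
import Pool.Agent.Lib_helper18.PENKF.PG4
import Pool.Agent.Lib_helper18.PENKF.PG5
import Pool.Agent.Lib_helper18.PENKF.PF7
import Pool.Agent.Lib_helper18.PENKF.PF8
import Pool.Agent.Lib_helper18.PENKF.PF9
import Pool.Agent.Lib_helper18.PENKF.PF15
import Pool.Agent.Lib_helper18.PENKF.PH1
import Pool.Agent.Lib_helper18.PENKF.PH4

/-! Block `PH5` (project PENK, part 4), helper42. -/

set_option autoImplicit false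

namespace Pool.Agent.PENK

open Finset Pool.Agent.PENT

theorem ph5_siz {i i' : Fin 5 → ℕ} {u : PolyK 5} (h : Siz i u) (h' : Siz i' u) : i = i' := by
  funext j
  have e1 : Nat.log 2 (nr (u j)) = i j := Nat.log_eq_of_pow_le_of_lt_pow (h j).1 (h j).2
  have e2 : Nat.log 2 (nr (u j)) = i' j := Nat.log_eq_of_pow_le_of_lt_pow (h' j).1 (h' j).2
  omega

theorem ph5_phi_nonneg (P0 : ℕ) (u u' : PolyK 5) (p : ℕ) (R : Bas) :
    0 ≤ phi W5 P0 u u' p R := by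
  have hi : ∀ (a : ℤ) (α : ℝ), 0 ≤ α → 0 ≤ ind p a α := by
    intro a α h
    unfold ind
    split_ifs
    · exact h
    · norm_num
  have g0 : 0 ≤ W5.g0 P0 p := by
    unfold Wts.g0 Wts.s0 W5
    split_ifs <;> norm_num
  have g1 : 0 ≤ W5.g1 P0 p := by
    unfold Wts.g1 Wts.s1 W5
    split_ifs <;> norm_num
  have gi : ∀ k, 0 ≤ W5.gi P0 p k := by
    intro k
    unfold Wts.gi W5
    split_ifs <;> norm_num
  unfold phi
  exact mul_nonneg (mul_nonneg (hi _ _ g0) (hi _ _ g1))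
    (mul_nonneg (Finset.prod_nonneg fun k _ => hi _ _ (gi k))
      (Finset.prod_nonneg fun k _ => hi _ _ (gi k)))

theorem ph5_vv_le (P0 : ℕ) (u u' : PolyK 5) (p : ℕ) : vv W5 P0 u u' p ≤ 1 := by
  unfold vv mV
  apply div_le_one_of_le₀ _ (Nat.cast_nonneg _)
  calc ∑ r ∈ VV p, (1 - phi W5 P0 u u' p r) ≤ ∑ r ∈ VV p, (1 : ℝ) :=
        Finset.sum_le_sum fun r _ => by linarith [ph5_phi_nonneg P0 u u' p r]
    _ = ((VV p).card : ℝ) := by simp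

theorem ph5_Phi_nonneg (P0 : ℕ) (u u' : PolyK 5) (p : ℕ) : 0 ≤ Phi W5 P0 u u' p := by
  have h4 : ∀ j, W5.al j = 1 / 4 := fun j => rfl
  have hn : ∀ v : PolyK 5, 0 ≤ ∏ j ∈ inr 5, if p ∣ dn v j then 2 * W5.al j else 1 := by
    intro v
    refine Finset.prod_nonneg fun j _ => ?_
    rw [h4]
    split_ifs <;> norm_num
  unfold Phi
  split_ifs
  · exact le_refl _
  · exact mul_nonneg (hn u) (hn u')
  · linarith [ph5_vv_le P0 u u' p]

theorem ph5_wsp_nonneg (P d d' : ℕ) : 0 ≤ wsp P (1 / 8) (1 / 8) d d' := by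
  unfold wsp
  refine Finset.prod_nonneg fun p _ => ?_
  have hl : 0 ≤ lw P p (1 / 8) := by
    unfold lw
    split_ifs <;> norm_num
  split_ifs <;> positivity

/-- the size of the cell -/
noncomputable def ph5_M (i : Fin 5 → ℕ) : ℝ :=
  (2 : ℝ) ^ i 0 * 2 ^ i 1 * 2 ^ i 2 * 2 ^ i 4 * (2 ^ i 3) ^ 2

theorem ph5_M_pos (i : Fin 5 → ℕ) : 0 < ph5_M i := by
  unfold ph5_M
  positivity

theorem ph5_dn (q : Par 5) (hc : 0 < q.c3) {u : PolyK 5} (hs : Sep q u) {i : Fin 5 → ℕ}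
    (hi : Siz i u) (j : Fin 5) (hj : j ≠ j + 1) :
    q.c3 * ((2 : ℝ) ^ i j * 2 ^ i (j + 1)) ≤ (dn u j : ℝ) := by
  have h1 := hs j (j + 1) hj
  have h2 : ((2 : ℝ) ^ i j) ≤ nr (u j) := by exact_mod_cast (hi j).1
  have h3 : ((2 : ℝ) ^ i (j + 1)) ≤ nr (u (j + 1)) := by exact_mod_cast (hi (j + 1)).1
  have h4 : (dn u j : ℝ) = |(dt (u j) (u (j + 1)) : ℝ)| := by
    unfold dn dl
    rw [Nat.cast_natAbs, Int.cast_abs]
  rw [h4]
  refine le_trans ?_ h1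
  rw [mul_assoc]
  exact mul_le_mul_of_nonneg_left (mul_le_mul h2 h3 (by positivity) (by positivity)) hc.le

theorem ph5_bad (q : Par 5) (hc : 0 < q.c3) {u : PolyK 5} (hs : Sep q u) {i : Fin 5 → ℕ}
    (hi : Siz i u) : q.c3 ^ 3 * ph5_M i ≤ (bad u : ℝ) := by
  have e : inr 5 = {0, 2, 3} := by decide
  have hb : (bad u : ℝ) = (dn u 0 : ℝ) * ((dn u 2 : ℝ) * (dn u 3 : ℝ)) := by
    unfold bad
    rw [e, Finset.prod_insert (by decide), Finset.prod_insert (by decide),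
      Finset.prod_singleton]
    push_cast
    ring
  have h0 := ph5_dn q hc hs hi 0 (by decide)
  have h2 := ph5_dn q hc hs hi 2 (by decide)
  have h3 := ph5_dn q hc hs hi 3 (by decide)
  have e0 : (0 + 1 : Fin 5) = 1 := by decide
  have e2 : (2 + 1 : Fin 5) = 3 := by decide
  have e3 : (3 + 1 : Fin 5) = 4 := by decide
  rw [e0] at h0
  rw [e2] at h2
  rw [e3] at h3
  rw [hb]
  have hm := mul_le_mul h0 (mul_le_mul h2 h3 (by positivity) (by positivity)) (by positivity)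
    (by positivity)
  refine le_trans (le_of_eq ?_) hm
  unfold ph5_M
  ring

theorem ph5_dt_le (v w : ℤ × ℤ) : (dt v w).natAbs ≤ nr v * nr w := by
  unfold dt nr
  calc (v.1 * w.2 - v.2 * w.1).natAbs ≤ (v.1 * w.2).natAbs + (v.2 * w.1).natAbs :=
        Int.natAbs_sub_le _ _
    _ = v.1.natAbs * w.2.natAbs + v.2.natAbs * w.1.natAbs := by
        rw [Int.natAbs_mul, Int.natAbs_mul]
    _ ≤ (v.1.natAbs + v.2.natAbs) * (w.1.natAbs + w.2.natAbs) := by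
        nlinarith [Nat.zero_le (v.1.natAbs * w.1.natAbs), Nat.zero_le (v.2.natAbs * w.2.natAbs)]

theorem ph5_E (q : Par 5) (hq : q.Ok) {x : ℝ} (hx : 1 ≤ x) {P0 : ℕ} {u : PolyK 5}
    (hu : IsPoly q x P0 u) : ((dn u 1 : ℝ) * dn u 4) ≤ x ^ (1 / 2 : ℝ) := by
  have h1 : ((dn u 1 : ℕ) : ℝ) ≤ nr (u 1) * nr (u 2) := by
    have := ph5_dt_le (u 1) (u 2)
    exact_mod_cast this
  have h4 : ((dn u 4 : ℕ) : ℝ) ≤ nr (u 4) * nr (u 0) := by
    have := ph5_dt_le (u 4) (u 0)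
    exact_mod_cast this
  have hx0 : 0 < x := by linarith
  calc ((dn u 1 : ℝ) * dn u 4) ≤ (nr (u 1) * nr (u 2)) * (nr (u 4) * nr (u 0)) :=
        mul_le_mul h1 h4 (by positivity) (by positivity)
    _ ≤ (x ^ (q.e 1 + q.ε / 50) * x ^ (q.e 2 + q.ε / 50)) *
        (x ^ (q.e 4 + q.ε / 50) * x ^ (q.e 0 + q.ε / 50)) :=
        mul_le_mul (mul_le_mul (hu.hi 1) (hu.hi 2) (by positivity) (by positivity))
          (mul_le_mul (hu.hi 4) (hu.hi 0) (by positivity) (by positivity)) (by positivity)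
          (by positivity)
    _ = x ^ ((q.e 1 + q.ε / 50 + (q.e 2 + q.ε / 50)) + (q.e 4 + q.ε / 50 + (q.e 0 + q.ε / 50))) := by
        rw [← Real.rpow_add hx0, ← Real.rpow_add hx0, ← Real.rpow_add hx0]
    _ ≤ x ^ (1 / 2 : ℝ) := by
        apply Real.rpow_le_rpow_of_exponent_le hx
        have hs := hq.hs
        rw [Fin.sum_univ_five] at hs
        have := hq.he 3
        have := hq.ε0
        have := hq.δ1
        linarith

theorem ph5_ne {q : Par 5} {x : ℝ} {P0 : ℕ} {u : PolyK 5} (hu : IsPoly q x P0 u) (j : Fin 5)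
    (hj : j ≠ j + 1) : dl u j ≠ 0 := by
  intro h0
  have h1 := hu.sg j (j + 1) hj
  have h2 : dt (u j) (u (j + 1)) = 0 := h0
  rw [h2, mul_zero] at h1
  exact lt_irrefl _ h1

theorem ph5_sum (f : PolyK 5 × PolyK 5 → ℝ) (hf : ∀ s, 0 ≤ f s) (A : Finset (PolyK 5 × PolyK 5))
    (O O' : Finset I5) (pol pol' : I5 → PolyK 5)
    (h : ∀ s ∈ A, ∃ o ∈ O, ∃ o' ∈ O', pol o = s.1 ∧ pol' o' = s.2) :
    ∑ s ∈ A, f s ≤ ∑ o ∈ O, ∑ o' ∈ O', f (pol o, pol' o') := by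
  classical
  choose! g hgO hrest using h
  choose! g' hgO' hp hp' using hrest
  have hinj : Set.InjOn (fun s => (g s, g' s)) (A : Set (PolyK 5 × PolyK 5)) := by
    intro s hs t ht hst
    simp only [Prod.mk.injEq] at hst
    have h1 := hp s hs
    have h2 := hp t ht
    have h3 := hp' s hs
    have h4 := hp' t ht
    rw [hst.1] at h1
    rw [hst.2] at h3
    exact Prod.ext (h1.symm.trans h2) (h3.symm.trans h4)
  have e1 : ∑ s ∈ A, f s = ∑ t ∈ A.image (fun s => (g s, g' s)), f (pol t.1, pol' t.2) := by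
    rw [Finset.sum_image hinj]
    refine Finset.sum_congr rfl fun s hs => ?_
    simp only [hp s hs, hp' s hs]
  rw [e1, ← Finset.sum_product' O O' (fun o o' => f (pol o, pol' o'))]
  refine Finset.sum_le_sum_of_subset_of_nonneg ?_ (fun t _ _ => hf _)
  intro t ht
  obtain ⟨s, hs, rfl⟩ := Finset.mem_image.1 ht
  exact Finset.mem_product.2 ⟨hgO s hs, hgO' s hs⟩

theorem ph5_equi {K : ℕ} {ι : Type} {O : Finset ι} {pol : ι → PolyK K}
    {L : ℕ → Finset (PolyK K)} {S : Finset ℕ} {Q Q' η : ℝ} (h : EquiF O pol L S Q η)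
    (hQ : Q' ≤ Q) : EquiF O pol L S Q' η := fun T hT hTQ => h T hT (hTQ.trans hQ)

theorem ph5_ThB {P : ℕ} {u u' : PolyK 5} (hG : Gc u u' = 1) {δ1 δ4 δ1' δ4' : ℤ}
    (h1 : dl u 1 = δ1) (h4 : dl u 4 = δ4) (h1' : dl u' 1 = δ1') (h4' : dl u' 4 = δ4') :
    ThB W5 P u u' = (wi W5 P u * wi W5 P u') *
      (wsp P (1 / 8) (1 / 8) δ1.natAbs δ1'.natAbs * wsp P (1 / 8) (1 / 8) δ4.natAbs δ4'.natAbs) := by
  unfold ThB
  have c1 : W5.al 1 ^ 2 / W5.s1 = 1 / 8 := by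
    unfold Wts.s1 W5; norm_num
  have c2 : W5.al 1 * W5.be 1 / W5.s1 = 1 / 8 := by
    unfold Wts.s1 W5; norm_num
  have c3 : W5.al (-1) ^ 2 / W5.s0 = 1 / 8 := by
    unfold Wts.s0 W5; norm_num
  have c4 : W5.al (-1) * W5.be 0 / W5.s0 = 1 / 8 := by
    unfold Wts.s0 W5; norm_num
  have hm1 : (-1 : Fin 5) = 4 := by decide
  have d1 : dn u 1 = δ1.natAbs := by unfold dn; rw [h1]
  have d4 : dn u 4 = δ4.natAbs := by unfold dn; rw [h4]
  have d1' : dn u' 1 = δ1'.natAbs := by unfold dn; rw [h1']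
  have d4' : dn u' 4 = δ4'.natAbs := by unfold dn; rw [h4']
  rw [hG, Nat.primeFactors_one, Finset.prod_empty, one_mul, c1, c2, c3, c4, hm1, d1, d4, d1', d4']

theorem ph5_lin (a b c e : ℝ) (h1 : a ≤ 2 * b) (h2 : c ≤ 4 * e) :
    2 * a + c ≤ 4 * (b + e) := by linarith

theorem ph5_ring (a b : ℝ) : 10 ^ 8 * a * (10 ^ 8 * b) = 10 ^ 16 * (a * b) := by ring

theorem ph5_fin (Cw c M w F : ℝ) (hc : c ≠ 0) (hM : M ≠ 0) :
    (Cw / (c ^ 6 * M) * w) * ((10 ^ 16 * M) * (4 * F)) = 4 * Cw * 10 ^ 16 / c ^ 6 * w * F := by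
  field_simp

theorem cell3_pr (q : Par 5) (hq : q.Ok) (hg : q.Gap) : ∃ (ps : ℕ) (C1 τ₀ : ℝ), 500 ≤ ps ∧ 0 ≤ C1 ∧
    0 < τ₀ ∧ (∀ P0 p : ℕ, p.Prime → ps < p → 1 / 4 ≤ FF C1 P0 p) ∧
    ∀ τ : ℝ, 0 < τ → ∃ C x₀ : ℝ, 0 ≤ C ∧ 2 ≤ x₀ ∧ ∀ x ≥ x₀, ∀ P0 P : ℕ,
      Real.log x ^ 60 ≤ P0 → P0 ≤ P → x ^ τ ≤ P → (P : ℝ) ≤ x ^ τ₀ →
      ∀ (i i' : Fin 5 → ℕ) (δ1 δ4 δ1' δ4' : ℤ) (A : Finset (PolyK 5 × PolyK 5)),
      (∀ s ∈ A, PairOk q x P0 s ∧ Gc s.1 s.2 = 1 ∧ Siz i s.1 ∧ Siz i' s.2 ∧ dl s.1 1 = δ1 ∧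
        dl s.1 4 = δ4 ∧ dl s.2 1 = δ1' ∧ dl s.2 4 = δ4') →
      ∑ s ∈ A, ThB W5 P s.1 s.2 * VP W5 P0 P s.1 s.2 ≤
        C * (wsp P (1 / 8) (1 / 8) δ1.natAbs δ1'.natAbs *
          wsp P (1 / 8) (1 / 8) δ4.natAbs δ4'.natAbs) *
            (∏ p ∈ prs ps P, FF C1 P0 p + x ^ (-(q.ε / 2))) := by
  classical
  obtain ⟨C0, hC0, hloc⟩ := law_locF
  obtain ⟨ps, k, C1, hps, hC1, hsv⟩ := c3_sieve (K := 5) (le_refl 5) W5 W5_ok ∅ C0 hC0
  have hps' : 500 ≤ ps := by omega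
  have hpos : ∀ P0 p : ℕ, p.Prime → ps < p → 1 / 4 ≤ FF C1 P0 p := by
    intro P0 p hp hpp
    have h1 : ∀ r ∈ ({p} : Finset ℕ), LocF ∅ r (Law5 1 1 r) C0 ∧ LocF ∅ r (Law5 1 1 r) C0 := by
      intro r hr
      rw [Finset.mem_singleton] at hr
      subst hr
      have h2 : ¬ ((r : ℕ) : ℤ) ∣ 1 := by
        intro h
        have h3 : r ∣ 1 := by exact_mod_cast h
        have := hp.one_lt
        have := Nat.le_of_dvd one_pos h3
        omega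
      exact ⟨hloc r hp (by omega) 1 1 h2 h2, hloc r hp (by omega) 1 1 h2 h2⟩
    have h3 : EquiF (∅ : Finset Unit) (fun _ => (fun _ => ((0 : ℤ), (0 : ℤ)) : PolyK 5))
        (Law5 1 1) {p} ((p : ℝ) ^ k) 0 := by
      intro T hT hQ h _ _
      simp
    exact (hsv Unit Unit ∅ _ ∅ _ (Law5 1 1) (Law5 1 1) {p} P0 p 0 hp.one_lt.le (le_refl 0)
      zero_le_one (by
        intro r hr
        rw [Finset.mem_singleton] at hr
        subst hr
        exact ⟨hp, hpp, le_refl _⟩) h1 h3 h3).2 p (Finset.mem_singleton_self p)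
  have hε := hq.ε0
  have hc3 := hq.c30
  refine ⟨ps, C1, q.ε / (4 * ((k : ℝ) + 1)), hps', hC1, by positivity, hpos, ?_⟩
  intro τ hτ
  obtain ⟨Cw, xw, hCw, hxw, hw⟩ := wi_VP_le (K := 5) (le_refl 5) q hq W5 W5_ok hτ
  obtain ⟨xe, hxe, he⟩ := pent_equi q hq hg
  obtain ⟨xr, hxr, hr⟩ := FF_restore C1 hC1 ps hps' hpos
  refine ⟨4 * Cw * 10 ^ 16 / q.c3 ^ 6, max (max xw xe) (max xr 8), by positivity,
    le_trans (by norm_num) ((le_max_right xr 8).trans (le_max_right _ _)), ?_⟩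
  intro x hx P0 P hP0 hP0P hτP hPτ i i' δ1 δ4 δ1' δ4' A hA
  have hx8 : (8 : ℝ) ≤ x := ((le_max_right xr 8).trans (le_max_right _ _)).trans hx
  have hxr' : xr ≤ x := ((le_max_left xr 8).trans (le_max_right _ _)).trans hx
  have hxw' : xw ≤ x := ((le_max_left xw xe).trans (le_max_left _ _)).trans hx
  have hxe' : xe ≤ x := ((le_max_right xw xe).trans (le_max_left _ _)).trans hx
  have hx1 : (1 : ℝ) ≤ x := by linarith
  have hx0 : (0 : ℝ) < x := by linarith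
  have hlog : 2 ≤ Real.log x := by
    have h1 : Real.log 8 ≤ Real.log x := Real.log_le_log (by norm_num) hx8
    have h2 : Real.log 8 = 3 * Real.log 2 := by
      have : (8 : ℝ) = 2 ^ 3 := by norm_num
      rw [this, Real.log_pow]
      norm_num
    have h3 := Real.log_two_gt_d9
    rw [h2] at h1
    linarith
  have hP02 : 2 ≤ P0 := by
    have h1 : Real.log x ≤ Real.log x ^ 60 := le_self_pow₀ (by linarith) (by norm_num)
    have h2 : (2 : ℝ) ≤ P0 := by linarith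
    exact_mod_cast h2
  have hP1 : 1 ≤ P := by omega
  have hFF0 : 0 ≤ ∏ p ∈ prs ps P, FF C1 P0 p := by
    refine Finset.prod_nonneg fun p hp => ?_
    unfold prs at hp
    rw [Finset.mem_filter, Finset.mem_Ioc] at hp
    have := hpos P0 p hp.2 hp.1.1
    linarith
  set w1 : ℝ := wsp P (1 / 8) (1 / 8) δ1.natAbs δ1'.natAbs with hw1
  set w4 : ℝ := wsp P (1 / 8) (1 / 8) δ4.natAbs δ4'.natAbs with hw4
  have hw1n : 0 ≤ w1 := ph5_wsp_nonneg _ _ _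
  have hw4n : 0 ≤ w4 := ph5_wsp_nonneg _ _ _
  have hxe0 : 0 ≤ x ^ (-(q.ε / 2)) := by positivity
  rcases A.eq_empty_or_nonempty with hAe | ⟨s0, hs0⟩
  · rw [hAe, Finset.sum_empty]
    have : 0 ≤ ∏ p ∈ prs ps P, FF C1 P0 p + x ^ (-(q.ε / 2)) := by linarith
    positivity
  obtain ⟨hk0, hG0, hi0, hi0', e1, e4, e1', e4'⟩ := hA s0 hs0
  -- the sizes
  have hSi : SizOk q x i := by
    obtain ⟨j, hj1, hj2⟩ := siz_ok q hq hx1 hk0.p1
    rw [ph5_siz hi0 hj1]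
    exact hj2
  have hSi' : SizOk q x i' := by
    obtain ⟨j, hj1, hj2⟩ := siz_ok q hq hx1 hk0.p2
    rw [ph5_siz hi0' hj1]
    exact hj2
  -- the set of primes
  set E : ℕ := δ1.natAbs * δ4.natAbs * δ1'.natAbs * δ4'.natAbs with hE
  set S : Finset ℕ := (prs ps P).filter (fun p => ¬ p ∣ E) with hS
  have hSm : ∀ p ∈ S, p.Prime ∧ ps < p ∧ p ≤ P ∧ ¬ p ∣ E := by
    intro p hp
    rw [hS] at hp
    unfold prs at hp
    rw [Finset.mem_filter, Finset.mem_filter, Finset.mem_Ioc] at hp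
    exact ⟨hp.1.2, hp.1.1.1, hp.1.1.2, hp.2⟩
  have hnd : ∀ p ∈ S, ¬ (p : ℤ) ∣ δ1 ∧ ¬ (p : ℤ) ∣ δ4 ∧ ¬ (p : ℤ) ∣ δ1' ∧ ¬ (p : ℤ) ∣ δ4' := by
    intro p hp
    have h1 := (hSm p hp).2.2.2
    refine ⟨fun h => h1 ?_, fun h => h1 ?_, fun h => h1 ?_, fun h => h1 ?_⟩
    · exact Dvd.dvd.mul_right (Dvd.dvd.mul_right (Dvd.dvd.mul_right (Int.natCast_dvd.1 h) _) _) _
    · exact Dvd.dvd.mul_right (Dvd.dvd.mul_right (Dvd.dvd.mul_left (Int.natCast_dvd.1 h) _) _) _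
    · exact Dvd.dvd.mul_right (Dvd.dvd.mul_left (Int.natCast_dvd.1 h) _) _
    · exact Dvd.dvd.mul_left (Int.natCast_dvd.1 h) _
  -- the bound for one pair
  have key : ∀ s ∈ A, ThB W5 P s.1 s.2 * VP W5 P0 P s.1 s.2 ≤
      (Cw / (q.c3 ^ 6 * (ph5_M i * ph5_M i')) * (w1 * w4)) * ∏ p ∈ S, Phi W5 P0 s.1 s.2 p := by
    intro s hs
    obtain ⟨hk, hG, hi, hi', f1, f4, f1', f4'⟩ := hA s hs
    have hm1 : (-1 : Fin 5) = 4 := by decide
    have hb := hw x hxw' P0 P hP02 hτP s.1 s.2 hk.p1 hk.p2 hk.o1 hk.o2 S (by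
      intro p hp
      obtain ⟨g1, g2, g3, g4⟩ := hSm p hp
      refine ⟨g1, by omega, g3, ?_⟩
      rw [hm1]
      have d1 : dn s.1 1 = δ1.natAbs := by unfold dn; rw [f1]
      have d4 : dn s.1 4 = δ4.natAbs := by unfold dn; rw [f4]
      have d1' : dn s.2 1 = δ1'.natAbs := by unfold dn; rw [f1']
      have d4' : dn s.2 4 = δ4'.natAbs := by unfold dn; rw [f4']
      rw [d1, d4, d1', d4']
      exact g4)
    have hPhi : 0 ≤ ∏ p ∈ S, Phi W5 P0 s.1 s.2 p :=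
      Finset.prod_nonneg fun p _ => ph5_Phi_nonneg P0 s.1 s.2 p
    have hb1 := ph5_bad q hc3 hk.s1 hi
    have hb2 := ph5_bad q hc3 hk.s2 hi'
    have hM := ph5_M_pos i
    have hM' := ph5_M_pos i'
    have hbb : q.c3 ^ 6 * (ph5_M i * ph5_M i') ≤ (bad s.1 : ℝ) * bad s.2 := by
      have := mul_le_mul hb1 hb2 (by positivity) (le_trans (by positivity) hb1)
      refine le_trans (le_of_eq ?_) this
      ring
    have hb3 : wi W5 P s.1 * wi W5 P s.2 * VP W5 P0 P s.1 s.2 ≤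
        Cw / (q.c3 ^ 6 * (ph5_M i * ph5_M i')) * ∏ p ∈ S, Phi W5 P0 s.1 s.2 p := by
      refine hb.trans (mul_le_mul_of_nonneg_right ?_ hPhi)
      exact div_le_div_of_nonneg_left hCw (by positivity) hbb
    rw [ph5_ThB hG f1 f4 f1' f4']
    calc wi W5 P s.1 * wi W5 P s.2 * (w1 * w4) * VP W5 P0 P s.1 s.2 =
          (wi W5 P s.1 * wi W5 P s.2 * VP W5 P0 P s.1 s.2) * (w1 * w4) := by ring
      _ ≤ (Cw / (q.c3 ^ 6 * (ph5_M i * ph5_M i')) * ∏ p ∈ S, Phi W5 P0 s.1 s.2 p) * (w1 * w4) :=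
          mul_le_mul_of_nonneg_right hb3 (by positivity)
      _ = _ := by ring
  -- the sum over the families
  have hsum : ∑ s ∈ A, ∏ p ∈ S, Phi W5 P0 s.1 s.2 p ≤
      ∑ o ∈ O5 i, ∑ o' ∈ O5 i', ∏ p ∈ S, Phi W5 P0 (pol5 i δ1 δ4 o) (pol5 i' δ1' δ4' o') p := by
    refine ph5_sum (fun s => ∏ p ∈ S, Phi W5 P0 s.1 s.2 p)
      (fun s => Finset.prod_nonneg fun p _ => ph5_Phi_nonneg P0 s.1 s.2 p) A (O5 i) (O5 i')
      (pol5 i δ1 δ4) (pol5 i' δ1' δ4') ?_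
    intro s hs
    obtain ⟨hk, hG, hi, hi', f1, f4, f1', f4'⟩ := hA s hs
    obtain ⟨o, ho, ho'⟩ := pent_mem q hq hk.p1 hi
    obtain ⟨o2, ho2, ho2'⟩ := pent_mem q hq hk.p2 hi'
    rw [f1, f4] at ho'
    rw [f1', f4'] at ho2'
    exact ⟨o, ho, o2, ho2, ho', ho2'⟩
  -- the sieve
  have hPk : (P : ℝ) ^ k ≤ x ^ (q.ε / 4) := by
    have h1 : (P : ℝ) ^ k ≤ (x ^ (q.ε / (4 * ((k : ℝ) + 1)))) ^ k :=
      pow_le_pow_left₀ (by positivity) hPτ k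
    refine h1.trans ?_
    rw [← Real.rpow_natCast, ← Real.rpow_mul hx0.le]
    apply Real.rpow_le_rpow_of_exponent_le hx1
    rw [div_mul_eq_mul_div, div_le_div_iff₀ (by positivity) (by norm_num)]
    nlinarith
  have hPk' : (P : ℝ) ^ k ≤ x ^ q.ε :=
    hPk.trans (Real.rpow_le_rpow_of_exponent_le hx1 (by linarith))
  have hη0 : 0 ≤ x ^ (-q.ε) := by positivity
  have hη1 : x ^ (-q.ε) ≤ 1 := Real.rpow_le_one_of_one_le_of_nonpos hx1 (by linarith)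
  have hsieve := (hsv I5 I5 (O5 i) (pol5 i δ1 δ4) (O5 i') (pol5 i' δ1' δ4') (Law5 δ1 δ4)
    (Law5 δ1' δ4') S P0 P (x ^ (-q.ε)) hP1 hη0 hη1 (fun p hp => by
      obtain ⟨g1, g2, g3, g4⟩ := hSm p hp
      exact ⟨g1, g2, g3⟩) (fun p hp => by
      obtain ⟨g1, g2, g3, g4⟩ := hSm p hp
      obtain ⟨n1, n4, n1', n4'⟩ := hnd p hp
      exact ⟨hloc p g1 (by omega) δ1 δ4 n1 n4, hloc p g1 (by omega) δ1' δ4' n1' n4'⟩)
    (ph5_equi (he x hxe' i hSi δ1 δ4 S (fun p hp =>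
      ⟨(hSm p hp).1, (hnd p hp).1, (hnd p hp).2.1⟩)) hPk')
    (ph5_equi (he x hxe' i' hSi' δ1' δ4' S (fun p hp =>
      ⟨(hSm p hp).1, (hnd p hp).2.2.1, (hnd p hp).2.2.2⟩)) hPk')).1
  -- the primes dividing `E`
  have hEpos : 1 ≤ E := by
    have n1 : δ1.natAbs ≠ 0 := by
      rw [← e1]; exact Int.natAbs_ne_zero.2 (ph5_ne hk0.p1 1 (by decide))
    have n4 : δ4.natAbs ≠ 0 := by
      rw [← e4]; exact Int.natAbs_ne_zero.2 (ph5_ne hk0.p1 4 (by decide))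
    have n1' : δ1'.natAbs ≠ 0 := by
      rw [← e1']; exact Int.natAbs_ne_zero.2 (ph5_ne hk0.p2 1 (by decide))
    have n4' : δ4'.natAbs ≠ 0 := by
      rw [← e4']; exact Int.natAbs_ne_zero.2 (ph5_ne hk0.p2 4 (by decide))
    rw [hE]
    exact Nat.one_le_iff_ne_zero.2 (Nat.mul_ne_zero (Nat.mul_ne_zero (Nat.mul_ne_zero n1 n4) n1') n4')
  have hEx : (E : ℝ) ≤ x := by
    have h1 := ph5_E q hq hx1 hk0.p1
    have h2 := ph5_E q hq hx1 hk0.p2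
    have d1 : dn s0.1 1 = δ1.natAbs := by unfold dn; rw [e1]
    have d4 : dn s0.1 4 = δ4.natAbs := by unfold dn; rw [e4]
    have d1' : dn s0.2 1 = δ1'.natAbs := by unfold dn; rw [e1']
    have d4' : dn s0.2 4 = δ4'.natAbs := by unfold dn; rw [e4']
    rw [d1, d4] at h1
    rw [d1', d4'] at h2
    have h3 := mul_le_mul h1 h2 (by positivity) (by positivity)
    rw [← Real.rpow_add hx0] at h3
    have h4 : (1 / 2 + 1 / 2 : ℝ) = 1 := by norm_num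
    rw [h4, Real.rpow_one] at h3
    refine le_trans (le_of_eq ?_) h3
    rw [hE]
    push_cast
    ring
  have hEp : ∀ p : ℕ, p.Prime → p ∣ E → P0 < p := by
    intro p hp hpE
    have d1 : dn s0.1 1 = δ1.natAbs := by unfold dn; rw [e1]
    have d4 : dn s0.1 4 = δ4.natAbs := by unfold dn; rw [e4]
    have d1' : dn s0.2 1 = δ1'.natAbs := by unfold dn; rw [e1']
    have d4' : dn s0.2 4 = δ4'.natAbs := by unfold dn; rw [e4']
    rw [hE] at hpE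
    rcases hp.dvd_mul.1 hpE with h | h
    · rcases hp.dvd_mul.1 h with h | h
      · rcases hp.dvd_mul.1 h with h | h
        · exact hk0.p1.ro 1 p hp (d1 ▸ h)
        · exact hk0.p1.ro 4 p hp (d4 ▸ h)
      · exact hk0.p2.ro 1 p hp (d1' ▸ h)
    · exact hk0.p2.ro 4 p hp (d4' ▸ h)
  have hrest := hr x hxr' P0 P E hP0 hEpos hEx hEp
  have hFF : ∏ p ∈ S, (1 - bden ∅ W5 P0 p / p + C1 / (p : ℝ) ^ 2) ≤
      2 * ∏ p ∈ prs ps P, FF C1 P0 p := hrest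
  -- the error
  have herr : (P : ℝ) ^ k * (2 * x ^ (-q.ε)) ≤ 4 * x ^ (-(q.ε / 2)) := by
    have h1 : (P : ℝ) ^ k * (2 * x ^ (-q.ε)) ≤ x ^ (q.ε / 4) * (2 * x ^ (-q.ε)) :=
      mul_le_mul_of_nonneg_right hPk (by positivity)
    have h2 : x ^ (q.ε / 4) * (2 * x ^ (-q.ε)) = 2 * x ^ (q.ε / 4 + -q.ε) := by
      rw [Real.rpow_add hx0]; ring
    have h3 : x ^ (q.ε / 4 + -q.ε) ≤ x ^ (-(q.ε / 2)) :=
      Real.rpow_le_rpow_of_exponent_le hx1 (by linarith)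
    rw [h2] at h1
    linarith
  have hO := O5_card i
  have hO' := O5_card i'
  have hM := ph5_M_pos i
  have hM' := ph5_M_pos i'
  have hD : 0 ≤ Cw / (q.c3 ^ 6 * (ph5_M i * ph5_M i')) * (w1 * w4) := by positivity
  have hOO : ((O5 i).card : ℝ) * ((O5 i').card : ℝ) ≤ 10 ^ 16 * (ph5_M i * ph5_M i') := by
    have h1 : ((O5 i).card : ℝ) ≤ 10 ^ 8 * ph5_M i := hO
    have h2 : ((O5 i').card : ℝ) ≤ 10 ^ 8 * ph5_M i' := hO'
    have h3 := mul_le_mul h1 h2 (Nat.cast_nonneg _) (mul_nonneg (by norm_num) hM.le)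
    exact h3.trans (le_of_eq (ph5_ring _ _))
  calc ∑ s ∈ A, ThB W5 P s.1 s.2 * VP W5 P0 P s.1 s.2
      ≤ ∑ s ∈ A, (Cw / (q.c3 ^ 6 * (ph5_M i * ph5_M i')) * (w1 * w4)) *
          ∏ p ∈ S, Phi W5 P0 s.1 s.2 p := Finset.sum_le_sum key
    _ = (Cw / (q.c3 ^ 6 * (ph5_M i * ph5_M i')) * (w1 * w4)) *
          ∑ s ∈ A, ∏ p ∈ S, Phi W5 P0 s.1 s.2 p := by rw [Finset.mul_sum]
    _ ≤ (Cw / (q.c3 ^ 6 * (ph5_M i * ph5_M i')) * (w1 * w4)) *
          (((O5 i).card : ℝ) * (O5 i').card * (2 * ∏ p ∈ S, (1 - bden ∅ W5 P0 p / p +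
            C1 / (p : ℝ) ^ 2) + (P : ℝ) ^ k * (2 * x ^ (-q.ε)))) :=
        mul_le_mul_of_nonneg_left (hsum.trans hsieve) hD
    _ ≤ (Cw / (q.c3 ^ 6 * (ph5_M i * ph5_M i')) * (w1 * w4)) *
          ((10 ^ 16 * (ph5_M i * ph5_M i')) * (4 * (∏ p ∈ prs ps P, FF C1 P0 p +
            x ^ (-(q.ε / 2))))) := by
        apply mul_le_mul_of_nonneg_left _ hD
        have h1 : 2 * ∏ p ∈ S, (1 - bden ∅ W5 P0 p / p + C1 / (p : ℝ) ^ 2) +
            (P : ℝ) ^ k * (2 * x ^ (-q.ε)) ≤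
            4 * (∏ p ∈ prs ps P, FF C1 P0 p + x ^ (-(q.ε / 2))) := ph5_lin _ _ _ _ hFF herr
        calc ((O5 i).card : ℝ) * (O5 i').card * (2 * ∏ p ∈ S, (1 - bden ∅ W5 P0 p / p +
            C1 / (p : ℝ) ^ 2) + (P : ℝ) ^ k * (2 * x ^ (-q.ε)))
            ≤ ((O5 i).card : ℝ) * (O5 i').card * (4 * (∏ p ∈ prs ps P, FF C1 P0 p +
                x ^ (-(q.ε / 2)))) :=
              mul_le_mul_of_nonneg_left h1 (mul_nonneg (Nat.cast_nonneg _) (Nat.cast_nonneg _))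
          _ ≤ _ := mul_le_mul_of_nonneg_right hOO
              (mul_nonneg (by norm_num) (add_nonneg hFF0 hxe0))
    _ = _ := ph5_fin Cw q.c3 (ph5_M i * ph5_M i') (w1 * w4) _ hc3.ne' (mul_pos hM hM').ne'

end Pool.Agent.PENK

namespace Pool.Agent.PENK

theorem cell3 : type_of% @cell3_pr := @cell3_pr

end Pool.Agent.PENK
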