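import Mathlib
import Pool.Agent.Lib_helper18.PENKF.DefsW
import Pool.Agent.Lib_helper18.PENKF.PF8
import Pool.Agent.Lib_helper18.PENKF.PH2
import Pool.Agent.Lib_helper18.PENKF.PH3
import Pool.Agent.Lib_helper18.PENKF.PH5
import Pool.Agent.Lib_helper18.PENKF.PH6
import Pool.Agent.Lib_helper18.PENKF.PR2

set_option autoImplicit false

namespace Pool.Agent.PENK

open Finset Pool.Agent.PENT

theorem ph7_dl (q : Par 5) (hq : q.Ok) {x : ℝ} {P0 : ℕ} {u : PolyK 5} (h : IsPoly q x P0 u)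
    (j : Fin 5) : dl u j = q.σ j (j + 1) * (dn u j : ℤ) := by
  have hj : j ≠ j + 1 := by fin_cases j <;> decide
  have h1 := h.sg j (j + 1) hj
  unfold dn dl
  rcases hq.hσ j (j + 1) with h2 | h2
  · rw [h2] at h1 ⊢
    rw [one_mul] at h1 ⊢
    rw [Int.natCast_natAbs, abs_of_pos h1]
  · rw [h2] at h1 ⊢
    rw [Int.natCast_natAbs, abs_of_neg (by linarith)]
    ring

theorem ph7_abs (q : Par 5) (hq : q.Ok) (i j : Fin 5) (a : ℕ) :
    (q.σ i j * (a : ℤ)).natAbs = a := by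
  rcases hq.hσ i j with h2 | h2 <;> rw [h2] <;> simp

theorem ph7_mem (q : Par 5) (hq : q.Ok) : ∃ x₀ : ℝ, 2 ≤ x₀ ∧ ∀ x ≥ x₀, ∀ P0 : ℕ, ∀ u : PolyK 5,
    IsPoly q x P0 u → One4 u → ∀ j, dn u j ∈ DP0 P0 ⌊x⌋₊ := by
  classical
  obtain ⟨x₀, hx₀, H⟩ := DD_le (K := 5) hq
  refine ⟨max 2 x₀, le_max_left _ _, fun x hx P0 u hu h4 j => ?_⟩
  have hx1 : x₀ ≤ x := le_trans (le_max_right _ _) hx
  have hx2 : (2 : ℝ) ≤ x := le_trans (le_max_left _ _) hx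
  obtain ⟨h1, h2⟩ := H x hx1 P0 u hu
  have hdv : dn u j ∣ DD u := Finset.dvd_prod_of_mem _ (Finset.mem_univ j)
  have hpos : 0 < dn u j := Nat.pos_of_dvd_of_pos hdv h1
  have hle : dn u j ≤ DD u := Nat.le_of_dvd h1 hdv
  have hle2 : (dn u j : ℝ) ≤ x := by
    have h3 : (dn u j : ℝ) ≤ DD u := by exact_mod_cast hle
    have h4 : x ^ (q.δ / 20) ≤ x ^ (1 : ℝ) := by
      apply Real.rpow_le_rpow_of_exponent_le (by linarith)
      have := hq.δ1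
      linarith
    rw [Real.rpow_one] at h4
    linarith
  unfold DP0
  rw [Finset.mem_filter, Finset.mem_Icc]
  refine ⟨⟨hpos, Nat.le_floor hle2⟩, hu.sq j, fun p hp hpd => ⟨hu.ro j p hp hpd, h4 p hp (hpd.trans hdv)⟩⟩

theorem ph7_siz {q : Par 5} {x : ℝ} (hx : 0 < x) {P0 : ℕ} {u : PolyK 5} (h : IsPoly q x P0 u) :
    Siz (fun j => Nat.log 2 (nr (u j))) u := by
  intro j
  have h1 : nr (u j) ≠ 0 := by
    intro h0
    have h2 := h.lo j
    rw [h0] at h2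
    have h3 : 0 < x ^ q.e j := Real.rpow_pos_of_pos hx _
    simp at h2
    linarith
  exact ⟨Nat.pow_log_le_self 2 h1, Nat.lt_pow_succ_log_self (by norm_num) _⟩

theorem ph7_wsp_nn (P d d' : ℕ) : 0 ≤ wsp P (1 / 8) (1 / 8) d d' := by
  unfold wsp
  apply Finset.prod_nonneg
  intro p _
  have h1 : 0 ≤ lw P p (1 / 8) := by
    unfold lw
    split_ifs <;> norm_num
  split_ifs <;> positivity

theorem ph7_G (P0 P : ℕ) (hP : 1 ≤ P) :
    ∏ p ∈ (prs P0 P).filter (fun p => p % 4 = 1), (1 + 3 / 4 / (p : ℝ)) ≤ 2 * P := by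
  have h1 : ∀ n : ℕ, ∏ p ∈ Ioc 0 n, (1 + 1 / (p : ℝ)) = n + 1 := by
    intro n
    induction n with
    | zero => simp
    | succ n ih =>
      rw [Finset.prod_Ioc_succ_top (by omega), ih]
      have : ((n : ℝ) + 1) ≠ 0 := by positivity
      push_cast
      field_simp
  have h2 : ∏ p ∈ (prs P0 P).filter (fun p => p % 4 = 1), (1 + 3 / 4 / (p : ℝ)) ≤
      ∏ p ∈ (prs P0 P).filter (fun p => p % 4 = 1), (1 + 1 / (p : ℝ)) := by
    apply Finset.prod_le_prod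
    · intro p _; positivity
    · intro p _
      have : 3 / 4 / (p : ℝ) ≤ 1 / (p : ℝ) := by
        apply div_le_div_of_nonneg_right _ (Nat.cast_nonneg p)
        norm_num
      linarith
  have h3 : ∏ p ∈ (prs P0 P).filter (fun p => p % 4 = 1), (1 + 1 / (p : ℝ)) ≤
      ∏ p ∈ Ioc 0 P, (1 + 1 / (p : ℝ)) := by
    apply Finset.prod_le_prod_of_subset_of_one_le
    · intro p hp
      rw [Finset.mem_filter] at hp
      have hp1 := hp.1
      unfold prs at hp1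
      rw [Finset.mem_filter, Finset.mem_Ioc] at hp1
      rw [Finset.mem_Ioc]
      exact ⟨hp1.2.pos, hp1.1.2⟩
    · intro p _; positivity
    · intro p _ _
      have : (0 : ℝ) ≤ 1 / (p : ℝ) := by positivity
      linarith
  rw [h1 P] at h3
  have h4 : (1 : ℝ) ≤ P := by exact_mod_cast hP
  linarith

theorem ph7_small {e : ℝ} (he : 0 < e) : ∃ x₀ : ℝ, 2 ≤ x₀ ∧ ∀ x ≥ x₀,
    4 * x ^ (-(3 * e / 8)) ≤ Real.log x ^ (-10 : ℝ) := by
  have h1 := (isLittleO_log_rpow_rpow_atTop (10 : ℝ) (show 0 < 3 * e / 8 by positivity)).bound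
    (show (0 : ℝ) < 1 / 4 by norm_num)
  obtain ⟨x₀, h2⟩ := Filter.eventually_atTop.1 h1
  refine ⟨max 2 x₀, le_max_left _ _, fun x hx => ?_⟩
  have h3 := h2 x (le_trans (le_max_right _ _) hx)
  have hx2 : (2 : ℝ) ≤ x := le_trans (le_max_left _ _) hx
  have hlog : 0 < Real.log x := Real.log_pos (by linarith)
  have hp1 : 0 < Real.log x ^ (10 : ℝ) := Real.rpow_pos_of_pos hlog _
  have hp2 : 0 < x ^ (3 * e / 8) := Real.rpow_pos_of_pos (by linarith) _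
  rw [Real.norm_of_nonneg hp1.le, Real.norm_of_nonneg hp2.le] at h3
  rw [Real.rpow_neg (by linarith), Real.rpow_neg hlog.le, ← div_eq_mul_inv, div_le_iff₀ hp2]
  rw [← div_eq_inv_mul, le_div_iff₀ hp1]
  linarith

theorem cls3_pr (q : Par 5) (hq : q.Ok) (hg : q.Gap) : ∃ τ₀ : ℝ, 0 < τ₀ ∧ ∀ τ : ℝ, 0 < τ →
    ∃ C x₀ : ℝ, 0 ≤ C ∧ 2 ≤ x₀ ∧ ∀ x ≥ x₀, ∀ P0 P : ℕ,
      Real.log x ^ 60 ≤ P0 → P0 ≤ P → x ^ τ ≤ P → (P : ℝ) ≤ x ^ τ₀ →
      ∀ A : Finset (PolyK 5 × PolyK 5), (∀ s ∈ A, PairOk q x P0 s ∧ Gc s.1 s.2 = 1) →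
      ∑ s ∈ A, ThB W5 P s.1 s.2 * VP W5 P0 P s.1 s.2 ≤ C * Real.log x ^ (-5 : ℝ) := by
  classical
  obtain ⟨ps, C1, τ1, hps, hC1, hτ1, hFF, Hcell⟩ := cell3 q hq hg
  have hε := hq.ε0
  refine ⟨min (min τ1 (q.ε / 16)) 1, by positivity, fun τ hτ => ?_⟩
  obtain ⟨C5, x5, hC5, hx5, H5⟩ := Hcell τ hτ
  obtain ⟨C6, x6, hC6, hx6, H6⟩ := cells_count q hq
  obtain ⟨C3, x3, hC3, hx3, H3⟩ := sum_wsp hτ
  obtain ⟨C2, x2, hC2, hx2, H2⟩ := mert_ten C1 hC1 ps hps hFF hτ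
  obtain ⟨xm, hxm, Hm⟩ := ph7_mem q hq
  obtain ⟨xs, hxs, Hs⟩ := ph7_small hε
  refine ⟨C6 * C5 * C3 ^ 2 * (C2 + 1), max (max (max x5 x6) (max x3 x2)) (max (max xm xs) (Real.exp 2)),
    by positivity, ?_, ?_⟩
  · exact le_trans hx5 (le_trans (le_trans (le_max_left _ _) (le_max_left _ _)) (le_max_left _ _))
  intro x hx P0 P hP0 hP0P hτP hPτ A hA
  simp only [ge_iff_le, max_le_iff] at hx
  obtain ⟨⟨⟨hx5', hx6'⟩, hx3', hx2'⟩, ⟨hxm', hxs'⟩, hxe⟩ := hx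
  have hx2r : (2 : ℝ) ≤ x := by linarith
  have hxpos : 0 < x := by linarith
  have hlog2 : 2 ≤ Real.log x := by
    rw [Real.le_log_iff_exp_le hxpos]; exact hxe
  have hlogpos : 0 < Real.log x := by linarith
  have hP02 : 2 ≤ P0 := by
    have h1 : (2 : ℝ) ≤ Real.log x ^ 60 := by
      calc (2 : ℝ) ≤ 2 ^ 60 := by norm_num
        _ ≤ Real.log x ^ 60 := pow_le_pow_left₀ (by norm_num) hlog2 60
    have h2 : (2 : ℝ) ≤ (P0 : ℝ) := le_trans h1 hP0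
    exact_mod_cast h2
  have hP1 : 1 ≤ P := by omega
  have hPτ1 : (P : ℝ) ≤ x ^ τ1 := by
    refine le_trans hPτ (Real.rpow_le_rpow_of_exponent_le (by linarith) ?_)
    exact le_trans (min_le_left _ _) (min_le_left _ _)
  have hPe : (P : ℝ) ≤ x ^ (q.ε / 16) := by
    refine le_trans hPτ (Real.rpow_le_rpow_of_exponent_le (by linarith) ?_)
    exact le_trans (min_le_left _ _) (min_le_right _ _)
  have hPx : (P : ℝ) ≤ x := by
    have h1 : x ^ (min (min τ1 (q.ε / 16)) 1) ≤ x ^ (1 : ℝ) :=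
      Real.rpow_le_rpow_of_exponent_le (by linarith) (min_le_right _ _)
    rw [Real.rpow_one] at h1
    linarith
  -- abbreviations
  set f : PolyK 5 × PolyK 5 → ℝ := fun s => ThB W5 P s.1 s.2 * VP W5 P0 P s.1 s.2 with hf
  set D : Finset ℕ := DP0 P0 ⌊x⌋₊ with hD
  set F : ℝ := ∏ p ∈ prs ps P, FF C1 P0 p with hF
  set G : ℝ := ∏ p ∈ (prs P0 P).filter (fun p => p % 4 = 1), (1 + 3 / 4 / (p : ℝ)) with hG
  set η : ℝ := x ^ (-(q.ε / 2)) with hη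
  have hη0 : 0 < η := Real.rpow_pos_of_pos hxpos _
  have hF0 : 0 ≤ F := by
    apply Finset.prod_nonneg
    intro p hp
    unfold prs at hp
    rw [Finset.mem_filter, Finset.mem_Ioc] at hp
    have := hFF P0 p hp.2 hp.1.1
    linarith
  have hG0 : 0 ≤ G := by
    apply Finset.prod_nonneg
    intro p _
    positivity
  -- keys
  set key : PolyK 5 × PolyK 5 → (ℕ × ℕ) × (ℕ × ℕ) :=
    fun s => ((dn s.1 1, dn s.2 1), (dn s.1 4, dn s.2 4)) with hkey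
  set key2 : PolyK 5 × PolyK 5 → (Fin 5 → ℕ) × (Fin 5 → ℕ) :=
    fun s => ((fun j => Nat.log 2 (nr (s.1 j))), (fun j => Nat.log 2 (nr (s.2 j)))) with hkey2
  set W : ((ℕ × ℕ) × (ℕ × ℕ)) → ℝ := fun k =>
    wsp P (1 / 8) (1 / 8) k.1.1 k.1.2 * wsp P (1 / 8) (1 / 8) k.2.1 k.2.2 with hW
  have hW0 : ∀ k, 0 ≤ W k := fun k => mul_nonneg (ph7_wsp_nn _ _ _) (ph7_wsp_nn _ _ _)
  have hmaps : ∀ s ∈ A, key s ∈ (D ×ˢ D) ×ˢ (D ×ˢ D) := by
    intro s hs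
    obtain ⟨hs1, _⟩ := hA s hs
    simp only [hkey, Finset.mem_product]
    exact ⟨⟨Hm x hxm' P0 _ hs1.p1 hs1.o1 1, Hm x hxm' P0 _ hs1.p2 hs1.o2 1⟩,
      ⟨Hm x hxm' P0 _ hs1.p1 hs1.o1 4, Hm x hxm' P0 _ hs1.p2 hs1.o2 4⟩⟩
  have hcell : ∀ k, ∀ t, ∑ s ∈ (A.filter (fun s => key s = k)).filter (fun s => key2 s = t), f s ≤
      C5 * W k * (F + η) := by
    intro k t
    have h := H5 x hx5' P0 P hP0 hP0P hτP hPτ1 t.1 t.2 (q.σ 1 (1 + 1) * (k.1.1 : ℤ))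
      (q.σ 4 (4 + 1) * (k.2.1 : ℤ)) (q.σ 1 (1 + 1) * (k.1.2 : ℤ)) (q.σ 4 (4 + 1) * (k.2.2 : ℤ))
      ((A.filter (fun s => key s = k)).filter (fun s => key2 s = t)) ?_
    · rw [ph7_abs q hq, ph7_abs q hq, ph7_abs q hq, ph7_abs q hq] at h
      exact h
    · intro s hs
      rw [Finset.mem_filter, Finset.mem_filter] at hs
      obtain ⟨⟨hsA, hk⟩, ht⟩ := hs
      obtain ⟨hs1, hs2⟩ := hA s hsA
      refine ⟨hs1, hs2, ?_, ?_, ?_, ?_, ?_, ?_⟩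
      · rw [← ht]; exact ph7_siz hxpos hs1.p1
      · rw [← ht]; exact ph7_siz hxpos hs1.p2
      · rw [← hk]; exact ph7_dl q hq hs1.p1 1
      · rw [← hk]; exact ph7_dl q hq hs1.p1 4
      · rw [← hk]; exact ph7_dl q hq hs1.p2 1
      · rw [← hk]; exact ph7_dl q hq hs1.p2 4
  have hfib : ∀ k, ∑ s ∈ A.filter (fun s => key s = k), f s ≤
      (C6 * Real.log x ^ 5) * (C5 * W k * (F + η)) := by
    intro k
    have hM0 : 0 ≤ C5 * W k * (F + η) := by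
      have := hW0 k
      positivity
    rw [← Finset.sum_fiberwise_of_maps_to (g := key2)
      (t := (A.filter (fun s => key s = k)).image key2)
      (fun s hs => Finset.mem_image_of_mem _ hs)]
    calc ∑ t ∈ (A.filter (fun s => key s = k)).image key2,
          ∑ s ∈ (A.filter (fun s => key s = k)).filter (fun s => key2 s = t), f s
        ≤ ∑ t ∈ (A.filter (fun s => key s = k)).image key2, C5 * W k * (F + η) :=
          Finset.sum_le_sum (fun t _ => hcell k t)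
      _ = (((A.filter (fun s => key s = k)).image key2).card : ℝ) * (C5 * W k * (F + η)) := by
          rw [Finset.sum_const, nsmul_eq_mul]
      _ ≤ (C6 * Real.log x ^ 5) * (C5 * W k * (F + η)) := by
          apply mul_le_mul_of_nonneg_right _ hM0
          apply H6 x hx6' P0 k.1.1 k.2.1 k.1.2 k.2.2
          intro t ht
          rw [Finset.mem_image] at ht
          obtain ⟨s, hs, rfl⟩ := ht
          rw [Finset.mem_filter] at hs
          obtain ⟨hsA, hk⟩ := hs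
          obtain ⟨hs1, hs2⟩ := hA s hsA
          exact ⟨s, hs1, ph7_siz hxpos hs1.p1, ph7_siz hxpos hs1.p2, by rw [← hk], by rw [← hk],
            by rw [← hk], by rw [← hk]⟩
  have hsumW : ∑ k ∈ (D ×ˢ D) ×ˢ (D ×ˢ D), W k ≤ (C3 * G) ^ 2 := by
    have h1 : ∑ k ∈ (D ×ˢ D) ×ˢ (D ×ˢ D), W k =
        (∑ d ∈ D, ∑ d' ∈ D, wsp P (1 / 8) (1 / 8) d d') *
          (∑ d ∈ D, ∑ d' ∈ D, wsp P (1 / 8) (1 / 8) d d') := by
      rw [Finset.sum_product, ← Finset.sum_product' (s := D) (t := D)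
        (f := fun d d' => wsp P (1 / 8) (1 / 8) d d'), Finset.sum_mul_sum]
    rw [h1, pow_two]
    have h2 := H3 x hx3' P0 P hP02 hP0P hτP hPx
    have h3 : 0 ≤ ∑ d ∈ D, ∑ d' ∈ D, wsp P (1 / 8) (1 / 8) d d' :=
      Finset.sum_nonneg (fun d _ => Finset.sum_nonneg (fun d' _ => ph7_wsp_nn _ _ _))
    exact mul_le_mul h2 h2 h3 (le_trans h3 h2)
  have hFG : F * G ^ 2 ≤ C2 * Real.log x ^ (-10 : ℝ) := H2 x hx2' P0 P hP02 hP0P hτP hPx
  have hηG : η * G ^ 2 ≤ Real.log x ^ (-10 : ℝ) := by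
    have h1 : G ≤ 2 * x ^ (q.ε / 16) := le_trans (ph7_G P0 P hP1) (by linarith)
    have h2 : G ^ 2 ≤ (2 * x ^ (q.ε / 16)) ^ 2 := pow_le_pow_left₀ hG0 h1 2
    have h3 : (2 * x ^ (q.ε / 16)) ^ 2 = 4 * x ^ (q.ε / 8) := by
      rw [mul_pow, ← Real.rpow_natCast (x ^ (q.ε / 16)) 2, ← Real.rpow_mul hxpos.le]
      norm_num
      congr 1
      ring
    rw [h3] at h2
    calc η * G ^ 2 ≤ η * (4 * x ^ (q.ε / 8)) := mul_le_mul_of_nonneg_left h2 hη0.le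
      _ = 4 * (x ^ (-(q.ε / 2)) * x ^ (q.ε / 8)) := by rw [hη]; ring
      _ = 4 * x ^ (-(3 * q.ε / 8)) := by
          rw [← Real.rpow_add hxpos]
          congr 2
          ring
      _ ≤ Real.log x ^ (-10 : ℝ) := Hs x hxs'
  have hfin : Real.log x ^ 5 * Real.log x ^ (-10 : ℝ) = Real.log x ^ (-5 : ℝ) := by
    rw [← Real.rpow_natCast (Real.log x) 5, ← Real.rpow_add hlogpos]
    norm_num
  calc ∑ s ∈ A, f s = ∑ k ∈ (D ×ˢ D) ×ˢ (D ×ˢ D), ∑ s ∈ A.filter (fun s => key s = k), f s :=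
        (Finset.sum_fiberwise_of_maps_to hmaps f).symm
    _ ≤ ∑ k ∈ (D ×ˢ D) ×ˢ (D ×ˢ D), (C6 * Real.log x ^ 5) * (C5 * W k * (F + η)) :=
        Finset.sum_le_sum (fun k _ => hfib k)
    _ = (C6 * Real.log x ^ 5) * C5 * (F + η) * ∑ k ∈ (D ×ˢ D) ×ˢ (D ×ˢ D), W k := by
        rw [Finset.mul_sum]
        apply Finset.sum_congr rfl
        intro k _
        ring
    _ ≤ (C6 * Real.log x ^ 5) * C5 * (F + η) * (C3 * G) ^ 2 :=
        mul_le_mul_of_nonneg_left hsumW (by positivity)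
    _ = C6 * C5 * C3 ^ 2 * Real.log x ^ 5 * (F * G ^ 2 + η * G ^ 2) := by ring
    _ ≤ C6 * C5 * C3 ^ 2 * Real.log x ^ 5 *
        (C2 * Real.log x ^ (-10 : ℝ) + Real.log x ^ (-10 : ℝ)) :=
        mul_le_mul_of_nonneg_left (by linarith) (by positivity)
    _ = C6 * C5 * C3 ^ 2 * (C2 + 1) * (Real.log x ^ 5 * Real.log x ^ (-10 : ℝ)) := by ring
    _ = C6 * C5 * C3 ^ 2 * (C2 + 1) * Real.log x ^ (-5 : ℝ) := by rw [hfin]

end Pool.Agent.PENK

namespace Pool.Agent.PENK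

theorem cls3 : type_of% @cls3_pr := @cls3_pr

end Pool.Agent.PENK
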