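import Pool.Agent.Lib_helper18.PENK.Defs
import Pool.Agent.Lib_helper18.PENKF.DefsW
import Pool.Agent.Lib_helper18.PENKF.PA4
import Pool.Agent.Lib_helper18.PENKF.PB2

set_option autoImplicit false

namespace Pool.Agent.PENK

open Finset Pool.Agent.PENT

variable {K : ℕ} [NeZero K]

theorem pr1_big {q : Par K} {x : ℝ} {P0 : ℕ} {u : PolyK K} (h : IsPoly q x P0 u) {p : ℕ}
    (hp : p.Prime) (hpu : p ∣ DD u) : P0 < p := by
  unfold DD at hpu
  obtain ⟨j, -, hj⟩ := (Prime.dvd_finsetProd_iff hp.prime _).mp hpu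
  exact h.ro j p hp hj

theorem pr1_ich_congr {a b : Prop} (h : a ↔ b) : ich a = ich b := by
  have : a = b := propext h
  rw [this]

theorem pr1_Rf_per {p : ℕ} (c : ℤ × ℤ) {r r' : Bas} (h1 : (p : ℤ) ∣ r.1 - r'.1)
    (h2 : (p : ℤ) ∣ r.2.1 - r'.2.1) (h3 : (p : ℤ) ∣ r.2.2 - r'.2.2) :
    ((p : ℤ) ∣ Rf r c ↔ (p : ℤ) ∣ Rf r' c) := by
  have h4 : (p : ℤ) ∣ Rf r c - Rf r' c := by
    have e : Rf r c - Rf r' c = (r.1 - r'.1) * c.1 ^ 2 + (r.2.1 - r'.2.1) * (2 * c.1 * c.2) +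
        (r.2.2 - r'.2.2) * c.2 ^ 2 := by
      unfold Rf qf; ring
    rw [e]
    exact dvd_add (dvd_add (Dvd.dvd.mul_right h1 _) (Dvd.dvd.mul_right h2 _))
      (Dvd.dvd.mul_right h3 _)
  constructor
  · intro h
    have := dvd_sub h h4
    simpa using this
  · intro h
    have := dvd_add h4 h
    simpa using this

/-- BLOCK PR1 (uses PA4, PB2). -/
theorem mV_hgood_pr (hK : 5 ≤ K) {q : Par K} {x : ℝ} {P0 : ℕ} (hP0 : 2 ≤ P0) {u u' : PolyK K}
    (h : IsPoly q x P0 u) (h' : IsPoly q x P0 u') (h4 : One4 u) (h4' : One4 u') {p : ℕ}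
    (hp : p.Prime) (hpd : p ∣ DD u * DD u') : mV p (hgood u u' p) = pip u u' p := by
  classical
  have hor : p ∣ DD u ∨ p ∣ DD u' := (Nat.Prime.dvd_mul hp).mp hpd
  have h2 : 2 < p := by
    rcases hor with h0 | h0
    · exact lt_of_le_of_lt hP0 (pr1_big h hp h0)
    · exact lt_of_le_of_lt hP0 (pr1_big h' hp h0)
  have hm : p % 4 = 1 := by
    rcases hor with h0 | h0
    · exact h4 p hp h0
    · exact h4' p hp h0
  by_cases hu : p ∣ DD u
  · by_cases hu' : p ∣ DD u'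
    · by_cases hs : SameL u u' p
      · have e1 : hgood u u' p = fun R => ich ((p : ℤ) ∣ Rf R (Lv u p)) := by
          funext R
          unfold hgood
          refine pr1_ich_congr ⟨fun hh => hh.1 hu, fun hh => ⟨fun _ => hh, fun _ => ?_⟩⟩
          exact Rf_par hp R (Lv u p) (Lv u' p) (Lv_ne hK h hp hu) hs hh
        rw [e1, mV_one hp h2 _ (Lv_ne hK h hp hu), if_pos hm]
        unfold pip
        rw [if_neg (fun hh => hh.2.2 hs)]
      · have e1 : hgood u u' p = fun R => ich ((p : ℤ) ∣ Rf R (Lv u p) ∧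
            (p : ℤ) ∣ Rf R (Lv u' p)) := by
          funext R
          unfold hgood
          exact pr1_ich_congr ⟨fun hh => ⟨hh.1 hu, hh.2 hu'⟩, fun hh => ⟨fun _ => hh.1,
            fun _ => hh.2⟩⟩
        rw [e1, mV_two hp h2 _ _ hs, if_pos hm]
        unfold pip
        rw [if_pos ⟨hu, hu', hs⟩]
    · have e1 : hgood u u' p = fun R => ich ((p : ℤ) ∣ Rf R (Lv u p)) := by
        funext R
        unfold hgood
        exact pr1_ich_congr ⟨fun hh => hh.1 hu, fun hh => ⟨fun _ => hh, fun h0 => absurd h0 hu'⟩⟩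
      rw [e1, mV_one hp h2 _ (Lv_ne hK h hp hu), if_pos hm]
      unfold pip
      rw [if_neg (fun hh => hu' hh.2.1)]
  · have hu' : p ∣ DD u' := by tauto
    have e1 : hgood u u' p = fun R => ich ((p : ℤ) ∣ Rf R (Lv u' p)) := by
      funext R
      unfold hgood
      exact pr1_ich_congr ⟨fun hh => hh.2 hu', fun hh => ⟨fun h0 => absurd h0 hu, fun _ => hh⟩⟩
    rw [e1, mV_one hp h2 _ (Lv_ne hK h' hp hu'), if_pos hm]
    unfold pip
    rw [if_neg (fun hh => hu hh.1)]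

theorem hgood_per_pr (u u' : PolyK K) (p : ℕ) : PerV p (hgood u u' p) := by
  intro r r' h1 h2 h3
  unfold hgood
  refine pr1_ich_congr ?_
  rw [pr1_Rf_per (Lv u p) h1 h2 h3, pr1_Rf_per (Lv u' p) h1 h2 h3]

end Pool.Agent.PENK

namespace Pool.Agent.PENK

theorem mV_hgood : type_of% @mV_hgood_pr := @mV_hgood_pr

theorem hgood_per : type_of% @hgood_per_pr := @hgood_per_pr

end Pool.Agent.PENK
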