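import Pool.Agent.Lib_helper18.PENK.Defs
import Pool.Agent.Lib_helper18.PENKF.DefsW
import Pool.Agent.Lib_helper18.PENKF.PA4
import Pool.Agent.Lib_helper18.PENKF.PA5
import Pool.Agent.Lib_helper18.PENKF.PA6
import Pool.Agent.Lib_helper18.PENKF.PB4
import Pool.Agent.Lib_helper18.PENKF.PR1
import Pool.Agent.Lib_helper18.PENKF.PR2

set_option autoImplicit false

namespace Pool.Agent.PENK

open Finset Pool.Agent.PENT

variable {K : ℕ} [NeZero K]

theorem pr3_hgood_mem (u u' : PolyK K) (p : ℕ) (R : Bas) :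
    0 ≤ hgood u u' p R ∧ hgood u u' p R ≤ 1 := by
  unfold hgood ich
  split_ifs <;> norm_num

theorem pr3_hgood_over (hK : 5 ≤ K) {q : Par K} {x : ℝ} {P0 : ℕ} {u u' : PolyK K}
    (h : IsPoly q x P0 u) (h' : IsPoly q x P0 u') {R : Bas} (hR : Over q x R u)
    (hR' : Over q x R u') {p : ℕ} (hp : p.Prime) : hgood u u' p R = 1 := by
  unfold hgood ich
  rw [if_pos]
  exact ⟨fun hd => over_Lv hK h hR hp hd, fun hd => over_Lv hK h' hR' hp hd⟩

theorem pr3_big {q : Par K} {x : ℝ} {P0 : ℕ} {u : PolyK K}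
    (h : IsPoly q x P0 u) {p : ℕ} (hp : p.Prime) (hpu : p ∣ DD u) : P0 < p := by
  unfold DD at hpu
  obtain ⟨j, _, hj⟩ := (Prime.dvd_finsetProd_iff hp.prime _).1 hpu
  exact h.ro j p hp hj

/-- the sum over one box -/
theorem pr3_box (hK : 5 ≤ K) {q : Par K} (W : Wts K) (hW : W.Ok) {k : ℕ}
    (hk : ∀ (F : Finset Bas) (w : Bas → ℝ) (y : Bas → ℕ → ℝ) (S : Finset ℕ) (Y : ℕ) (g : ℕ → ℝ)
      (X R : ℝ), 1 ≤ Y → (∀ o ∈ F, 0 ≤ w o) →
      (∀ o ∈ F, ∀ p ∈ S, 0 ≤ y o p ∧ y o p ≤ 1) → (∀ p ∈ S, p.Prime ∧ p ≤ Y) →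
      (∀ p ∈ S, 0 ≤ g p ∧ g p ≤ 1 - 1 / (2 : ℝ) ∧ g p ≤ (4 * K - 4 : ℝ) / p) → 0 ≤ X → 0 ≤ R →
      (∀ T ⊆ S, ∏ p ∈ T, p ≤ Y ^ k →
        |∑ o ∈ F, w o * ∏ p ∈ T, y o p - X * ∏ p ∈ T, g p| ≤ R) →
      ∑ o ∈ F, w o * ∏ p ∈ S, (1 - y o p) ≤
        2 * (X * ∏ p ∈ S, (1 - g p)) + (Y : ℝ) ^ k * R)
    {x δ : ℝ} (hx : 1 ≤ x) {P0 P : ℕ} (hP0 : 2 ≤ P0) (hP : 1 ≤ P) {u u' : PolyK K}
    (h : IsPoly q x P0 u) (h' : IsPoly q x P0 u') (h4 : One4 u) (h4' : One4 u')
    (hDD : ((DD u * DD u' : ℕ) : ℝ) * (P : ℝ) ^ k ≤ x ^ δ) (hpos : 0 < DD u * DD u')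
    (O : Finset Bas) (f : Bas → Bas)
    (hO : ∀ (T : Finset ℕ) (h : ℕ → Bas → ℝ), (∀ p ∈ T, p.Prime ∧ 2 < p) →
      ((∏ p ∈ T, p : ℕ) : ℝ) ≤ x ^ δ → (∀ p ∈ T, PerV p (h p)) →
      (∀ p ∈ T, ∀ r, 0 ≤ h p r ∧ h p r ≤ 1) →
      |∑ o ∈ O, ∏ p ∈ T, h p (f o) - O.card * ∏ p ∈ T, mV p (h p)| ≤ x ^ (1 - δ))
    (S : Finset Bas) (hS : ∀ R ∈ S, Over q x R u ∧ Over q x R u') (hf : ∀ R ∈ S, ∃ o ∈ O, f o = R) :
    ∑ R ∈ S, ∏ p ∈ (prs 2 P).filter (fun p => ¬ p ∣ DD u * DD u'), phi W P0 u u' p R ≤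
      2 * ((O.card : ℝ) * pit u u' * VP W P0 P u u') + (P : ℝ) ^ k * x ^ (1 - δ) := by
  classical
  set PS : Finset ℕ := (prs (100 * K) P).filter (fun p => ¬ p ∣ DD u * DD u') with hPS
  set D : Finset ℕ := (DD u * DD u').primeFactors with hD
  have hPSp : ∀ p ∈ PS, p.Prime ∧ 100 * K < p ∧ p ≤ P ∧ ¬ p ∣ DD u * DD u' := by
    intro p hp
    rw [hPS, mem_filter] at hp
    unfold prs at hp
    rw [mem_filter, mem_Ioc] at hp
    exact ⟨hp.1.2, hp.1.1.1, hp.1.1.2, hp.2⟩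
  have hDp : ∀ p ∈ D, p.Prime ∧ 2 < p ∧ p ∣ DD u * DD u' := by
    intro p hp
    have hp1 := Nat.prime_of_mem_primeFactors hp
    have hp2 := Nat.dvd_of_mem_primeFactors hp
    refine ⟨hp1, ?_, hp2⟩
    rcases hp1.dvd_mul.1 hp2 with h1 | h1
    · exact lt_of_le_of_lt hP0 (pr3_big h hp1 h1)
    · exact lt_of_le_of_lt hP0 (pr3_big h' hp1 h1)
  have hdis : ∀ T ⊆ PS, Disjoint D T := by
    intro T hT
    rw [Finset.disjoint_left]
    intro p hp hpT
    exact (hPSp p (hT hpT)).2.2.2 (hDp p hp).2.2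
  have hK0 : (5 : ℝ) ≤ K := by exact_mod_cast hK
  -- the sieve
  have hsv := hk O (fun o => ∏ p ∈ D, hgood u u' p (f o)) (fun o p => 1 - phi W P0 u u' p (f o)) PS
    P (fun p => vv W P0 u u' p) ((O.card : ℝ) * pit u u') (x ^ (1 - δ)) hP
    (fun o _ => Finset.prod_nonneg (fun p _ => (pr3_hgood_mem u u' p (f o)).1))
    (fun o _ p _ => by
      have := phi_mem W hW P0 u u' p (f o)
      constructor <;> linarith [this.1, this.2])
    (fun p hp => ⟨(hPSp p hp).1, (hPSp p hp).2.2.1⟩)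
    (fun p hp => by
      have hp' := hPSp p hp
      have h2 : 2 < p := by
        have : 100 * 5 ≤ 100 * K := by omega
        omega
      have hv := vv_bounds hK W hW P0 u u' hp'.1 h2 hp'.2.2.2
      have hpK : (100 * K : ℝ) < p := by exact_mod_cast hp'.2.1
      have hp0 : (0 : ℝ) < p := by linarith
      refine ⟨hv.1, hv.2.trans ?_, hv.2.trans ?_⟩
      · rw [div_le_iff₀ (by linarith)]
        linarith
      · apply div_le_div_of_nonneg_left (by linarith) hp0 (by linarith))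
    (by
      apply mul_nonneg (Nat.cast_nonneg _)
      unfold pit
      apply Finset.prod_nonneg
      intro p _
      unfold pip
      split_ifs <;> positivity)
    (by positivity)
    (by
      intro T hT hTP
      have e1 := hO (D ∪ T) (fun p => if p ∈ T then (fun R => 1 - phi W P0 u u' p R)
        else hgood u u' p)
        (fun p hp => by
          rcases Finset.mem_union.1 hp with h1 | h1
          · exact ⟨(hDp p h1).1, (hDp p h1).2.1⟩
          · have := hPSp p (hT h1)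
            exact ⟨this.1, by omega⟩)
        (by
          rw [Finset.prod_union (hdis T hT)]
          push_cast
          have h1 : ((∏ p ∈ D, p : ℕ) : ℝ) ≤ ((DD u * DD u' : ℕ) : ℝ) := by
            exact_mod_cast Nat.le_of_dvd hpos (Nat.prod_primeFactors_dvd _)
          have h2 : ((∏ p ∈ T, p : ℕ) : ℝ) ≤ (P : ℝ) ^ k := by exact_mod_cast hTP
          push_cast at h1 h2
          refine le_trans (mul_le_mul h1 h2 ?_ ?_) (by push_cast at hDD; exact hDD)
          · exact Finset.prod_nonneg (fun p _ => Nat.cast_nonneg _)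
          · positivity)
        (fun p _ => by
          split_ifs
          · intro r r' h1 h2 h3
            have := phi_per W P0 u u' p r r' h1 h2 h3
            simp only [this]
          · exact hgood_per u u' p)
        (fun p _ r => by
          split_ifs
          · have := phi_mem W hW P0 u u' p r
            constructor <;> linarith [this.1, this.2]
          · exact pr3_hgood_mem u u' p r)
      have e2 : ∀ o : Bas, (∏ p ∈ D ∪ T, (if p ∈ T then (fun R => 1 - phi W P0 u u' p R)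
          else hgood u u' p) (f o)) = (∏ p ∈ D, hgood u u' p (f o)) *
            ∏ p ∈ T, (1 - phi W P0 u u' p (f o)) := by
        intro o
        rw [Finset.prod_union (hdis T hT)]
        refine congrArg₂ (· * ·) ?_ ?_
        · apply Finset.prod_congr rfl
          intro p hp
          rw [if_neg (Finset.disjoint_left.1 (hdis T hT) hp)]
        · apply Finset.prod_congr rfl
          intro p hp
          rw [if_pos hp]
      have e3 : (∏ p ∈ D ∪ T, mV p (if p ∈ T then (fun R => 1 - phi W P0 u u' p R)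
          else hgood u u' p)) = pit u u' * ∏ p ∈ T, vv W P0 u u' p := by
        rw [Finset.prod_union (hdis T hT)]
        refine congrArg₂ (· * ·) ?_ ?_
        · unfold pit
          apply Finset.prod_congr rfl
          intro p hp
          rw [if_neg (Finset.disjoint_left.1 (hdis T hT) hp)]
          exact mV_hgood hK hP0 h h' h4 h4' (hDp p hp).1 (hDp p hp).2.2
        · apply Finset.prod_congr rfl
          intro p hp
          rw [if_pos hp]
          rfl
      simp only [e2, e3] at e1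
      rw [mul_assoc]
      exact e1)
  -- the sum over S
  have hsum : ∑ R ∈ S, ∏ p ∈ (prs 2 P).filter (fun p => ¬ p ∣ DD u * DD u'), phi W P0 u u' p R ≤
      ∑ o ∈ O, (∏ p ∈ D, hgood u u' p (f o)) * ∏ p ∈ PS, (1 - (1 - phi W P0 u u' p (f o))) := by
    choose! e he1 he2 using hf
    have h1 : ∑ R ∈ S, ∏ p ∈ (prs 2 P).filter (fun p => ¬ p ∣ DD u * DD u'),
        phi W P0 u u' p R ≤ ∑ R ∈ S, (∏ p ∈ D, hgood u u' p (f (e R))) *
          ∏ p ∈ PS, (1 - (1 - phi W P0 u u' p (f (e R)))) := by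
      apply Finset.sum_le_sum
      intro R hR
      rw [he2 R hR, Finset.prod_congr rfl (fun p hp =>
        pr3_hgood_over hK h h' (hS R hR).1 (hS R hR).2 (hDp p hp).1), Finset.prod_const_one, one_mul]
      have hsub : PS ⊆ (prs 2 P).filter (fun p => ¬ p ∣ DD u * DD u') := by
        intro p hp
        have := hPSp p hp
        rw [mem_filter]
        unfold prs
        rw [mem_filter, mem_Ioc]
        exact ⟨⟨⟨by omega, this.2.2.1⟩, this.1⟩, this.2.2.2⟩
      have h2 : ∏ p ∈ PS, (1 - (1 - phi W P0 u u' p R)) = ∏ p ∈ PS, phi W P0 u u' p R := by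
        apply Finset.prod_congr rfl
        intro p _
        ring
      rw [h2, ← Finset.prod_sdiff hsub]
      have h3 : ∏ p ∈ ((prs 2 P).filter (fun p => ¬ p ∣ DD u * DD u')) \ PS,
          phi W P0 u u' p R ≤ 1 :=
        Finset.prod_le_one (fun p _ => (phi_mem W hW P0 u u' p R).1)
          (fun p _ => (phi_mem W hW P0 u u' p R).2)
      have h4 : 0 ≤ ∏ p ∈ PS, phi W P0 u u' p R :=
        Finset.prod_nonneg (fun p _ => (phi_mem W hW P0 u u' p R).1)
      nlinarith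
    refine h1.trans ?_
    have hinj : Set.InjOn e (S : Set Bas) := by
      intro R hR R' hR' hee
      rw [← he2 R hR, ← he2 R' hR', hee]
    rw [← Finset.sum_image (f := fun o => (∏ p ∈ D, hgood u u' p (f o)) *
      ∏ p ∈ PS, (1 - (1 - phi W P0 u u' p (f o)))) hinj]
    apply Finset.sum_le_sum_of_subset_of_nonneg
    · intro o ho
      obtain ⟨R, hR, rfl⟩ := Finset.mem_image.1 ho
      exact he1 R hR
    · intro o _ _
      apply mul_nonneg (Finset.prod_nonneg (fun p _ => (pr3_hgood_mem u u' p (f o)).1))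
      apply Finset.prod_nonneg
      intro p _
      have := (phi_mem W hW P0 u u' p (f o)).1
      linarith
  refine hsum.trans (hsv.trans (le_of_eq ?_))
  unfold VP
  rfl

theorem rsum_pr (hK : 5 ≤ K) (q : Par K) (hq : q.Ok) (W : Wts K) (hW : W.Ok) (hE : EQQ q.δ) :
    ∃ τ₀ : ℝ, 0 < τ₀ ∧ ∃ C x₀ : ℝ, 0 ≤ C ∧ 1 ≤ x₀ ∧ ∀ x ≥ x₀, ∀ P0 P : ℕ, 2 ≤ P0 → 1 ≤ P →
      (P : ℝ) ≤ x ^ τ₀ → ∀ u u' : PolyK K, IsPoly q x P0 u → IsPoly q x P0 u' → One4 u →
      One4 u' → ∀ S : Finset Bas, (∀ R ∈ S, Over q x R u ∧ Over q x R u') →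
      ∑ R ∈ S, ∏ p ∈ (prs 2 P).filter (fun p => ¬ p ∣ DD u * DD u'), phi W P0 u u' p R ≤
        C * x * (pit u u' * VP W P0 P u u') + x ^ (1 - q.δ / 2) := by
  classical
  have hK0 : (5 : ℝ) ≤ K := by exact_mod_cast hK
  obtain ⟨k, hk⟩ := brun_primes (4 * K - 4 : ℝ) 2 (by linarith) (by norm_num)
  obtain ⟨m, x₁, hx₁, hm⟩ := over_cover hq
  obtain ⟨x₂, hx₂, hDD⟩ := DD_le hq
  obtain ⟨CE, x₃, hCE, hx₃, hE'⟩ := hE q.C4 hq.C41
  have hδ := hq.δ0
  obtain ⟨x₄, hx₄⟩ : ∃ x₄ : ℝ, ∀ x ≥ x₄, (m : ℝ) ≤ x ^ (q.δ / 4) :=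
    Filter.eventually_atTop.1 ((tendsto_rpow_atTop (by linarith : 0 < q.δ / 4)).eventually
      (Filter.eventually_ge_atTop (m : ℝ)))
  refine ⟨q.δ / (4 * (k + 1)), by positivity, m * (2 * CE), max (max x₁ x₂) (max x₃ x₄),
    by positivity, le_max_of_le_left (le_max_of_le_left hx₁), ?_⟩
  intro x hx P0 P hP0 hP hPx u u' h h' h4 h4' S hS
  have hxx₁ : x₁ ≤ x := ((le_max_left _ _).trans (le_max_left _ _)).trans hx
  have hxx₂ : x₂ ≤ x := ((le_max_right _ _).trans (le_max_left _ _)).trans hx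
  have hxx₃ : x₃ ≤ x := ((le_max_left _ _).trans (le_max_right _ _)).trans hx
  have hxx₄ : x₄ ≤ x := ((le_max_right _ _).trans (le_max_right _ _)).trans hx
  have hx1 : 1 ≤ x := hx₁.trans hxx₁
  have hx0 : 0 < x := by linarith
  obtain ⟨G, hG, hcov⟩ := hm x hxx₁ P0 u h
  have hPk : (P : ℝ) ^ k ≤ x ^ (q.δ / 4) := by
    calc (P : ℝ) ^ k ≤ (x ^ (q.δ / (4 * (k + 1)))) ^ k := by
          apply pow_le_pow_left₀ (Nat.cast_nonneg _) hPx
      _ = x ^ (q.δ / (4 * (k + 1)) * k) := by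
          rw [← Real.rpow_natCast, ← Real.rpow_mul hx0.le]
      _ ≤ x ^ (q.δ / 4) := by
          apply Real.rpow_le_rpow_of_exponent_le hx1
          have hk0 : (0 : ℝ) < k + 1 := by positivity
          have : q.δ / (4 * (k + 1)) * k = q.δ / 4 * (k / (k + 1)) := by field_simp
          rw [this]
          have h1 : (k : ℝ) / (k + 1) ≤ 1 := by
            rw [div_le_one hk0]; linarith
          nlinarith
  have hd := hDD x hxx₂ P0 u h
  have hd' := hDD x hxx₂ P0 u' h'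
  have hDP : ((DD u * DD u' : ℕ) : ℝ) * (P : ℝ) ^ k ≤ x ^ q.δ := by
    push_cast
    have h1 : (DD u : ℝ) * DD u' ≤ x ^ (q.δ / 20) * x ^ (q.δ / 20) :=
      mul_le_mul hd.2 hd'.2 (Nat.cast_nonneg _) (by positivity)
    have h2 : (DD u : ℝ) * DD u' * (P : ℝ) ^ k ≤ x ^ (q.δ / 20) * x ^ (q.δ / 20) * x ^ (q.δ / 4) :=
      mul_le_mul h1 hPk (by positivity) (by positivity)
    refine h2.trans ?_
    rw [← Real.rpow_add hx0, ← Real.rpow_add hx0]
    apply Real.rpow_le_rpow_of_exponent_le hx1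
    linarith
  have hpos : 0 < DD u * DD u' := Nat.mul_pos hd.1 hd'.1
  have hpit : 0 ≤ pit u u' := by
    unfold pit
    apply Finset.prod_nonneg
    intro p _
    unfold pip
    split_ifs <;> positivity
  have hVP : 0 ≤ VP W P0 P u u' := by
    unfold VP
    apply Finset.prod_nonneg
    intro p hp
    unfold prs at hp
    rw [mem_filter, mem_filter, mem_Ioc] at hp
    have h2 : 2 < p := by omega
    have hv := vv_bounds hK W hW P0 u u' hp.1.2 h2 hp.2
    have hpK : (100 * K : ℝ) < p := by exact_mod_cast hp.1.1.1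
    have h3 : (4 * K - 4 : ℝ) / (p + 1) ≤ 1 := by
      rw [div_le_one (by linarith)]
      linarith
    linarith [hv.2]
  -- one box
  have hbox : ∀ i ∈ Finset.range m,
      ∑ R ∈ S.filter (fun R => 2 ^ i * G < (R.1 : ℝ) ∧ (R.1 : ℝ) ≤ 2 * (2 ^ i * G)),
        ∏ p ∈ (prs 2 P).filter (fun p => ¬ p ∣ DD u * DD u'), phi W P0 u u' p R ≤
      2 * (CE * x * pit u u' * VP W P0 P u u') + x ^ (q.δ / 4) * x ^ (1 - q.δ) := by
    intro i hi
    rw [Finset.mem_range] at hi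
    obtain ⟨O, f, hO1, hO2, hO3⟩ := hE' x hxx₃ (2 ^ i * G) (hG i hi).1 (hG i hi).2
    have hb := pr3_box hK W hW (k := k)
      (fun F w y S Y g X R a b c d e f g' h => (hk Bas F w y S Y g X R a b c d e f g' h).2)
      hx1 hP0 hP h h' h4 h4' hDP hpos O f hO3
      (S.filter (fun R => 2 ^ i * G < (R.1 : ℝ) ∧ (R.1 : ℝ) ≤ 2 * (2 ^ i * G)))
      (fun R hR => hS R (Finset.mem_filter.1 hR).1)
      (fun R hR => by
        rw [Finset.mem_filter] at hR
        have hov := hS R hR.1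
        exact hO1 R hov.1.disc hR.2.1 hR.2.2 hov.1.n1)
    refine hb.trans (add_le_add ?_ ?_)
    · have h1 : (O.card : ℝ) * (pit u u' * VP W P0 P u u') ≤
          CE * x * (pit u u' * VP W P0 P u u') :=
        mul_le_mul_of_nonneg_right hO2 (mul_nonneg hpit hVP)
      nlinarith
    · exact mul_le_mul_of_nonneg_right hPk (by positivity)
  -- all boxes
  have hall : ∑ R ∈ S, ∏ p ∈ (prs 2 P).filter (fun p => ¬ p ∣ DD u * DD u'),
      phi W P0 u u' p R ≤ ∑ i ∈ Finset.range m,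
        ∑ R ∈ S.filter (fun R => 2 ^ i * G < (R.1 : ℝ) ∧ (R.1 : ℝ) ≤ 2 * (2 ^ i * G)),
          ∏ p ∈ (prs 2 P).filter (fun p => ¬ p ∣ DD u * DD u'), phi W P0 u u' p R := by
    have hnn : ∀ R, 0 ≤ ∏ p ∈ (prs 2 P).filter (fun p => ¬ p ∣ DD u * DD u'),
        phi W P0 u u' p R := fun R =>
      Finset.prod_nonneg (fun p _ => (phi_mem W hW P0 u u' p R).1)
    simp only [Finset.sum_filter]
    rw [Finset.sum_comm]
    apply Finset.sum_le_sum
    intro R hR
    obtain ⟨i, hi, hi1⟩ := hcov R (hS R hR).1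
    calc _ = (if 2 ^ i * G < (R.1 : ℝ) ∧ (R.1 : ℝ) ≤ 2 * (2 ^ i * G) then
          ∏ p ∈ (prs 2 P).filter (fun p => ¬ p ∣ DD u * DD u'), phi W P0 u u' p R else 0) := by
          rw [if_pos hi1]
      _ ≤ _ := by
          apply Finset.single_le_sum (f := fun i => if 2 ^ i * G < (R.1 : ℝ) ∧
            (R.1 : ℝ) ≤ 2 * (2 ^ i * G) then
            ∏ p ∈ (prs 2 P).filter (fun p => ¬ p ∣ DD u * DD u'), phi W P0 u u' p R else 0)
          · intro j _
            split_ifs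
            · exact hnn R
            · exact le_rfl
          · exact Finset.mem_range.2 hi
  refine hall.trans ((Finset.sum_le_sum hbox).trans ?_)
  rw [Finset.sum_const, Finset.card_range, nsmul_eq_mul, mul_add]
  apply add_le_add
  · apply le_of_eq
    ring
  · calc (m : ℝ) * (x ^ (q.δ / 4) * x ^ (1 - q.δ)) ≤
          x ^ (q.δ / 4) * (x ^ (q.δ / 4) * x ^ (1 - q.δ)) :=
          mul_le_mul_of_nonneg_right (hx₄ x hxx₄) (by positivity)
      _ = x ^ (1 - q.δ / 2) := by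
          rw [← Real.rpow_add hx0, ← Real.rpow_add hx0]
          congr 1
          ring

end Pool.Agent.PENK

namespace Pool.Agent.PENK

theorem rsum : type_of% @rsum_pr := @rsum_pr

end Pool.Agent.PENK
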