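import Pool.Agent.Lib_helper18.PENK.Defs
import Pool.Agent.Lib_helper18.PENKF.DefsW
import Pool.Agent.Lib_helper18.PENKF.PR3
import Pool.Agent.Lib_helper18.PENKF.PB4
import Pool.Agent.Lib_helper18.PENKF.PB6
import Pool.Agent.Lib_helper18.PENKF.PR2

/-! Block `PR4` (project PENK; helper54): the sum over all triples. -/

set_option autoImplicit false

namespace Pool.Agent.PENK

open Finset Pool.Agent.PENT

variable {K : ℕ} [NeZero K]

theorem pr4_lw {P p : ℕ} {α : ℝ} (h0 : 0 ≤ α) (h1 : α ≤ 1) : 0 ≤ lw P p α ∧ lw P p α ≤ 1 := by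
  unfold lw
  split_ifs
  · exact ⟨h0, h1⟩
  · exact ⟨zero_le_one, le_rfl⟩

theorem pr4_lw_gt {P p : ℕ} {α : ℝ} (h : P < p) : lw P p α = 1 := by
  unfold lw
  rw [if_neg (by omega)]

theorem pr4_thi (W : Wts K) (hW : W.Ok) (P : ℕ) (u : PolyK K) (p : ℕ) :
    0 ≤ thi W P u p ∧ thi W P u p ≤ 1 := by
  unfold thi
  have h : ∀ j ∈ inr K, 0 ≤ (if p ∣ dn u j then lw P p (W.al j) else 1) ∧
      (if p ∣ dn u j then lw P p (W.al j) else 1) ≤ 1 := by
    intro j _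
    have h1 := pr4_lw (P := P) (p := p) (hW.al0 j) (by linarith [hW.al1 j] : W.al j ≤ 1)
    split_ifs
    · exact h1
    · exact ⟨zero_le_one, le_rfl⟩
  exact ⟨Finset.prod_nonneg fun j hj => (h j hj).1,
    Finset.prod_le_one (fun j hj => (h j hj).1) fun j hj => (h j hj).2⟩

theorem pr4_thi_gt (W : Wts K) (P : ℕ) (u : PolyK K) {p : ℕ} (hp : P < p) : thi W P u p = 1 := by
  unfold thi
  apply Finset.prod_eq_one
  intro j _
  rw [pr4_lw_gt hp]
  split_ifs <;> rfl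

theorem pr4_ths {P p : ℕ} {both one : ℝ} (a b : Prop) [Decidable a] [Decidable b]
    (h0 : 0 ≤ both) (h1 : both ≤ 1) (h2 : 0 ≤ one) (h3 : one ≤ 1) :
    0 ≤ ths P p both one a b ∧ ths P p both one a b ≤ 1 := by
  unfold ths
  split_ifs
  · exact pr4_lw h0 h1
  · exact pr4_lw h2 h3
  · exact ⟨zero_le_one, le_rfl⟩

theorem pr4_ths_gt {P p : ℕ} {both one : ℝ} (a b : Prop) [Decidable a] [Decidable b] (hp : P < p) :
    ths P p both one a b = 1 := by
  unfold ths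
  rw [pr4_lw_gt hp, pr4_lw_gt hp]
  split_ifs <;> rfl

theorem pr4_frac {a b : ℝ} (ha : 0 ≤ a) (ha1 : a ≤ 1 / 2) (hb : 0 < b) :
    (0 ≤ a ^ 2 / (b + a) ∧ a ^ 2 / (b + a) ≤ 1) ∧ 0 ≤ a * b / (b + a) ∧ a * b / (b + a) ≤ 1 := by
  have hab : 0 < b + a := by linarith
  refine ⟨⟨by positivity, ?_⟩, by positivity, ?_⟩
  · rw [div_le_one hab]
    nlinarith
  · rw [div_le_one hab]
    nlinarith

theorem pr4_th (W : Wts K) (hW : W.Ok) (P : ℕ) (u u' : PolyK K) (p : ℕ) :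
    0 ≤ th W P u u' p ∧ th W P u u' p ≤ 1 := by
  unfold th
  have h1 := pr4_thi W hW P u p
  have h2 := pr4_thi W hW P u' p
  obtain ⟨⟨h3, h4⟩, h5, h6⟩ := pr4_frac (hW.al0 1) (hW.al1 1) (hW.be0 1)
  obtain ⟨⟨h7, h8⟩, h9, h10⟩ := pr4_frac (hW.al0 (-1)) (hW.al1 (-1)) (hW.be0 0)
  have h11 := pr4_ths (P := P) (p := p) (both := W.al 1 ^ 2 / W.s1)
    (one := W.al 1 * W.be 1 / W.s1) (p ∣ dn u 1) (p ∣ dn u' 1) h3 h4 h5 h6
  have h12 := pr4_ths (P := P) (p := p) (both := W.al (-1) ^ 2 / W.s0)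
    (one := W.al (-1) * W.be 0 / W.s0) (p ∣ dn u (-1)) (p ∣ dn u' (-1)) h7 h8 h9 h10
  have k1 : 0 ≤ thi W P u p * thi W P u' p := mul_nonneg h1.1 h2.1
  have k2 : thi W P u p * thi W P u' p ≤ 1 := mul_le_one₀ h1.2 h2.1 h2.2
  refine ⟨mul_nonneg k1 (mul_nonneg h11.1 h12.1), ?_⟩
  exact mul_le_one₀ k2 (mul_nonneg h11.1 h12.1) (mul_le_one₀ h11.2 h12.1 h12.2)

theorem pr4_th_gt (W : Wts K) (P : ℕ) (u u' : PolyK K) {p : ℕ} (hp : P < p) :
    th W P u u' p = 1 := by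
  unfold th
  rw [pr4_thi_gt W P u hp, pr4_thi_gt W P u' hp, pr4_ths_gt _ _ hp, pr4_ths_gt _ _ hp]
  norm_num

/-- the prime factors of `D(u)` are larger than `P0` -/
theorem pr4_rough {q : Par K} {x : ℝ} {P0 : ℕ} {u : PolyK K} (h : IsPoly q x P0 u) {p : ℕ}
    (hp : p.Prime) (hpu : p ∣ DD u) : P0 < p := by
  unfold DD at hpu
  obtain ⟨j, -, hj⟩ := (Prime.dvd_finsetProd_iff hp.prime _).1 hpu
  exact h.ro j p hp hj

theorem pr4_DD_ne {q : Par K} {x : ℝ} {P0 : ℕ} {u : PolyK K} (h : IsPoly q x P0 u) : DD u ≠ 0 := by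
  unfold DD
  rw [Finset.prod_ne_zero_iff]
  intro j _
  exact (h.sq j).ne_zero

/-- the decomposition of the weight -/
theorem pr4_Wt (W : Wts K) {q : Par K} {x : ℝ} {P0 P : ℕ} (hP0 : 2 ≤ P0) {u u' : PolyK K}
    (h : IsPoly q x P0 u) (h' : IsPoly q x P0 u') (R : Bas) :
    Wt W P0 P u u' R = (∏ p ∈ (DD u * DD u').primeFactors, th W P u u' p) *
      ∏ p ∈ (prs 2 P).filter (fun p => ¬ p ∣ DD u * DD u'), phi W P0 u u' p R := by
  unfold Wt
  rw [← Finset.prod_filter_mul_prod_filter_not (prs 2 P) (fun p => p ∣ DD u * DD u')]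
  congr 1
  · have hsub : (prs 2 P).filter (fun p => p ∣ DD u * DD u') ⊆ (DD u * DD u').primeFactors := by
      intro p hp
      rw [Finset.mem_filter] at hp
      unfold prs at hp
      rw [Finset.mem_filter] at hp
      rw [Nat.mem_primeFactors]
      exact ⟨hp.1.2, hp.2, mul_ne_zero (pr4_DD_ne h) (pr4_DD_ne h')⟩
    rw [← Finset.prod_subset hsub]
    · apply Finset.prod_congr rfl
      intro p hp
      rw [if_pos (Finset.mem_filter.1 hp).2]
    · intro p hp hpn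
      rw [Nat.mem_primeFactors] at hp
      apply pr4_th_gt
      by_contra hcon
      push Not at hcon
      apply hpn
      rw [Finset.mem_filter]
      unfold prs
      rw [Finset.mem_filter, Finset.mem_Ioc]
      have h2 : P0 < p := by
        rcases (Nat.Prime.dvd_mul hp.1).1 hp.2.1 with h1 | h1
        · exact pr4_rough h hp.1 h1
        · exact pr4_rough h' hp.1 h1
      exact ⟨⟨⟨by omega, hcon⟩, hp.1⟩, hp.2.1⟩
  · apply Finset.prod_congr rfl
    intro p hp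
    rw [if_neg (Finset.mem_filter.1 hp).2]

theorem pr4_TH (W : Wts K) (P : ℕ) (u u' : PolyK K) :
    TH W P u u' = (∏ p ∈ (DD u * DD u').primeFactors, th W P u u' p) * pit u u' := by
  unfold TH pit
  rw [Finset.prod_mul_distrib, mul_comm]

theorem pr4_vv_le (W : Wts K) (hW : W.Ok) (P0 : ℕ) (u u' : PolyK K) (p : ℕ) :
    vv W P0 u u' p ≤ 1 := by
  unfold vv mV
  have h1 : ∑ r ∈ VV p, (1 - phi W P0 u u' p r) ≤ (VV p).card := by
    calc ∑ r ∈ VV p, (1 - phi W P0 u u' p r) ≤ ∑ _r ∈ VV p, (1 : ℝ) :=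
          Finset.sum_le_sum fun r _ => by linarith [(phi_mem W hW P0 u u' p r).1]
      _ = (VV p).card := by simp
  exact div_le_one_of_le₀ h1 (Nat.cast_nonneg _)

theorem pr4_VP (W : Wts K) (hW : W.Ok) (P0 P : ℕ) (u u' : PolyK K) : 0 ≤ VP W P0 P u u' := by
  unfold VP
  exact Finset.prod_nonneg fun p _ => by linarith [pr4_vv_le W hW P0 u u' p]

/-- the number of polygons -/
theorem pr4_count {q : Par K} (hq : q.Ok) {x : ℝ} (hx : 1 ≤ x) (hx2 : (9 : ℝ) ^ K ≤ x ^ (17 * q.δ / 200))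
    {P0 : ℕ} (T : Finset (PolyK K)) (hT : ∀ u ∈ T, IsPoly q x P0 u) :
    (T.card : ℝ) ≤ x ^ (q.δ / 8) := by
  have hx0 : 0 < x := by linarith
  let M : Fin K → ℕ := fun j => ⌊x ^ (q.e j + q.ε / 50)⌋₊
  let B : Finset (PolyK K) := Fintype.piFinset fun j =>
    (Icc (-(M j : ℤ)) (M j)) ×ˢ (Icc (-(M j : ℤ)) (M j))
  have hsub : T ⊆ B := by
    intro u hu
    rw [Fintype.mem_piFinset]
    intro j
    have h1 : nr (u j) ≤ M j := Nat.le_floor ((hT u hu).hi j)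
    unfold nr at h1
    rw [Finset.mem_product, Finset.mem_Icc, Finset.mem_Icc]
    omega
  have hcard : (B.card : ℝ) = ∏ j, ((2 * (M j : ℝ) + 1) ^ 2) := by
    rw [Fintype.card_piFinset]
    push_cast
    refine Finset.prod_congr rfl fun j _ => ?_
    rw [Finset.card_product, Int.card_Icc]
    have h2 : ((M j : ℤ) + 1 - -(M j : ℤ)).toNat = 2 * M j + 1 := by omega
    rw [h2]
    push_cast
    ring
  have h1 : (T.card : ℝ) ≤ B.card := by exact_mod_cast Finset.card_le_card hsub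
  rw [hcard] at h1
  have h2 : ∏ j, ((2 * (M j : ℝ) + 1) ^ 2) ≤ ∏ j : Fin K, (9 * (x ^ (q.e j + q.ε)) ^ 2) := by
    apply Finset.prod_le_prod
    · intro j _
      positivity
    · intro j _
      have h3 : (M j : ℝ) ≤ x ^ (q.e j + q.ε / 50) :=
        Nat.floor_le (Real.rpow_nonneg hx0.le _)
      have h4 : x ^ (q.e j + q.ε / 50) ≤ x ^ (q.e j + q.ε) :=
        Real.rpow_le_rpow_of_exponent_le hx (by linarith [hq.ε0])
      have h5 : 1 ≤ x ^ (q.e j + q.ε) := Real.one_le_rpow hx (by linarith [hq.ε0, hq.he j])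
      have h6 : (0 : ℝ) ≤ M j := Nat.cast_nonneg _
      have h7 : 2 * (M j : ℝ) + 1 ≤ 3 * x ^ (q.e j + q.ε) := by linarith
      calc (2 * (M j : ℝ) + 1) ^ 2 ≤ (3 * x ^ (q.e j + q.ε)) ^ 2 :=
            pow_le_pow_left₀ (by positivity) h7 2
        _ = 9 * (x ^ (q.e j + q.ε)) ^ 2 := by ring
  have h3 : ∏ j : Fin K, (9 * (x ^ (q.e j + q.ε)) ^ 2) = 9 ^ K * (x ^ (∑ j, (q.e j + q.ε))) ^ 2 := by
    rw [Finset.prod_mul_distrib, Finset.prod_const, Finset.card_univ, Fintype.card_fin,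
      Finset.prod_pow, Real.rpow_sum_of_pos hx0]
  have h4 : x ^ (∑ j, (q.e j + q.ε)) ≤ x ^ (q.δ / 50) :=
    Real.rpow_le_rpow_of_exponent_le hx hq.hs
  have h5 : (x ^ (∑ j, (q.e j + q.ε))) ^ 2 ≤ x ^ (q.δ / 25) := by
    calc (x ^ (∑ j, (q.e j + q.ε))) ^ 2 ≤ (x ^ (q.δ / 50)) ^ 2 :=
          pow_le_pow_left₀ (Real.rpow_nonneg hx0.le _) h4 2
      _ = x ^ (q.δ / 25) := by
          rw [← Real.rpow_natCast, ← Real.rpow_mul hx0.le]
          congr 1
          push_cast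
          ring
  calc (T.card : ℝ) ≤ 9 ^ K * (x ^ (∑ j, (q.e j + q.ε))) ^ 2 := by
        rw [← h3]
        exact h1.trans h2
    _ ≤ x ^ (17 * q.δ / 200) * x ^ (q.δ / 25) := by
        apply mul_le_mul hx2 h5 (by positivity) (Real.rpow_nonneg hx0.le _)
    _ = x ^ (q.δ / 8) := by
        rw [← Real.rpow_add hx0]
        congr 1
        ring

/-- BLOCK PR4 (uses `rsum`, PB4, PB5, PB6): the sum over all triples. The polygons of `IsPoly` are at
most `x ^ (δ/8)` in number (`nr (u j) ≤ x ^ (e_j + ε)`), for the error term; `Wt = Θ-part * ∏ phi`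
and `pit * ∏ th = TH`; the pairs `s.2` with a triple satisfy `One4` by `over_one4`. -/
theorem triples_pr (hK : 5 ≤ K) (q : Par K) (hq : q.Ok) (W : Wts K) (hW : W.Ok) (hE : EQQ q.δ) :
    ∃ τ₀ : ℝ, 0 < τ₀ ∧ ∃ C x₀ : ℝ, 0 ≤ C ∧ 1 ≤ x₀ ∧ ∀ x ≥ x₀, ∀ P0 P : ℕ, 2 ≤ P0 → 1 ≤ P →
      (P : ℝ) ≤ x ^ τ₀ → ∀ (S : Finset (Bas × PolyK K × PolyK K)),
      (∀ s ∈ S, IsPoly q x P0 s.2.1 ∧ IsPoly q x P0 s.2.2 ∧ Over q x s.1 s.2.1 ∧
        Over q x s.1 s.2.2) →
      ∑ s ∈ S, Wt W P0 P s.2.1 s.2.2 s.1 ≤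
        C * x * ∑ s ∈ S.image (fun s => s.2), ThB W P s.1 s.2 * VP W P0 P s.1 s.2 +
          x ^ (1 - q.δ / 4) := by
  obtain ⟨τ₀, hτ₀, C, x₀, hC, hx₀, H⟩ := rsum hK q hq W hW hE
  have hlim : ∀ᶠ x : ℝ in Filter.atTop, (9 : ℝ) ^ K ≤ x ^ (17 * q.δ / 200) :=
    (tendsto_rpow_atTop (by linarith [hq.δ0])).eventually_ge_atTop _
  obtain ⟨x₁, hx₁⟩ := Filter.eventually_atTop.1 hlim
  refine ⟨τ₀, hτ₀, C, max x₀ x₁, hC, hx₀.trans (le_max_left _ _), ?_⟩
  intro x hx P0 P hP0 hP1 hP S hS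
  have hxx₀ : x₀ ≤ x := (le_max_left _ _).trans hx
  have hxx₁ : x₁ ≤ x := (le_max_right _ _).trans hx
  have hx1 : 1 ≤ x := hx₀.trans hxx₀
  have hx0 : 0 < x := by linarith
  set I := S.image (fun s => s.2) with hI
  -- the pairs
  have hpair : ∀ v ∈ I, ∑ s ∈ S.filter (fun s => s.2 = v), Wt W P0 P s.2.1 s.2.2 s.1 ≤
      C * x * (ThB W P v.1 v.2 * VP W P0 P v.1 v.2) + x ^ (1 - q.δ / 2) := by
    rintro ⟨u, u'⟩ hv
    obtain ⟨s₀, hs₀, hs₀v⟩ := Finset.mem_image.1 hv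
    obtain ⟨h1, h2, h3, h4⟩ := hS s₀ hs₀
    have hs1 : s₀.2.1 = u := congrArg Prod.fst hs₀v
    have hs2 : s₀.2.2 = u' := congrArg Prod.snd hs₀v
    rw [hs1] at h1 h3
    rw [hs2] at h2 h4
    have ho : One4 u := over_one4 hK hP0 h1 h3
    have ho' : One4 u' := over_one4 hK hP0 h2 h4
    set A : Finset Bas := (S.filter (fun s => s.2 = (u, u'))).image (fun s => s.1) with hA
    have hAo : ∀ R ∈ A, Over q x R u ∧ Over q x R u' := by
      intro R hR
      obtain ⟨s, hs, rfl⟩ := Finset.mem_image.1 hR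
      obtain ⟨hs, hsv⟩ := Finset.mem_filter.1 hs
      obtain ⟨-, -, k3, k4⟩ := hS s hs
      have e1 : s.2.1 = u := congrArg Prod.fst hsv
      have e2 : s.2.2 = u' := congrArg Prod.snd hsv
      rw [e1] at k3
      rw [e2] at k4
      exact ⟨k3, k4⟩
    have hsum : ∑ s ∈ S.filter (fun s => s.2 = (u, u')), Wt W P0 P s.2.1 s.2.2 s.1 =
        ∑ R ∈ A, Wt W P0 P u u' R := by
      rw [hA, Finset.sum_image]
      · apply Finset.sum_congr rfl
        intro s hs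
        have hsv := (Finset.mem_filter.1 hs).2
        have e1 : s.2.1 = u := congrArg Prod.fst hsv
        have e2 : s.2.2 = u' := congrArg Prod.snd hsv
        rw [e1, e2]
      · intro s hs t ht hst
        have hsv := (Finset.mem_filter.1 hs).2
        have htv := (Finset.mem_filter.1 ht).2
        exact Prod.ext hst (hsv.trans htv.symm)
    set Θ := ∏ p ∈ (DD u * DD u').primeFactors, th W P u u' p with hΘ
    have hΘ0 : 0 ≤ Θ := Finset.prod_nonneg fun p _ => (pr4_th W hW P u u' p).1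
    have hΘ1 : Θ ≤ 1 := Finset.prod_le_one (fun p _ => (pr4_th W hW P u u' p).1)
      fun p _ => (pr4_th W hW P u u' p).2
    rw [hsum, Finset.sum_congr rfl fun R _ => pr4_Wt W hP0 h1 h2 R, ← Finset.mul_sum]
    have hr := H x hxx₀ P0 P hP0 hP1 hP u u' h1 h2 ho ho' A hAo
    have hVP := pr4_VP W hW P0 P u u'
    have hTH : Θ * pit u u' ≤ ThB W P u u' := by
      rw [← pr4_TH]
      exact TH_le_ThB hK W hW P h1 h2
    have hxδ : 0 ≤ x ^ (1 - q.δ / 2) := Real.rpow_nonneg hx0.le _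
    calc Θ * ∑ R ∈ A, ∏ p ∈ (prs 2 P).filter (fun p => ¬ p ∣ DD u * DD u'), phi W P0 u u' p R
        ≤ Θ * (C * x * (pit u u' * VP W P0 P u u') + x ^ (1 - q.δ / 2)) :=
          mul_le_mul_of_nonneg_left hr hΘ0
      _ = C * x * ((Θ * pit u u') * VP W P0 P u u') + Θ * x ^ (1 - q.δ / 2) := by ring
      _ ≤ C * x * (ThB W P u u' * VP W P0 P u u') + 1 * x ^ (1 - q.δ / 2) := by
          apply add_le_add
          · apply mul_le_mul_of_nonneg_left _ (mul_nonneg hC hx0.le)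
            exact mul_le_mul_of_nonneg_right hTH hVP
          · exact mul_le_mul_of_nonneg_right hΘ1 hxδ
      _ = C * x * (ThB W P u u' * VP W P0 P u u') + x ^ (1 - q.δ / 2) := by rw [one_mul]
  -- the number of the pairs
  have hcard : (I.card : ℝ) ≤ x ^ (q.δ / 4) := by
    have k1 : I ⊆ (S.image (fun s => s.2.1)) ×ˢ (S.image (fun s => s.2.2)) := by
      intro v hv
      obtain ⟨s, hs, rfl⟩ := Finset.mem_image.1 hv
      rw [Finset.mem_product]
      exact ⟨Finset.mem_image.2 ⟨s, hs, rfl⟩, Finset.mem_image.2 ⟨s, hs, rfl⟩⟩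
    have k2 := Finset.card_le_card k1
    rw [Finset.card_product] at k2
    have k3 := pr4_count hq hx1 (hx₁ x hxx₁) (P0 := P0) (S.image (fun s => s.2.1)) (by
      intro u hu
      obtain ⟨s, hs, rfl⟩ := Finset.mem_image.1 hu
      exact (hS s hs).1)
    have k4 := pr4_count hq hx1 (hx₁ x hxx₁) (P0 := P0) (S.image (fun s => s.2.2)) (by
      intro u hu
      obtain ⟨s, hs, rfl⟩ := Finset.mem_image.1 hu
      exact (hS s hs).2.1)
    calc (I.card : ℝ) ≤ ((S.image (fun s => s.2.1)).card : ℝ) * (S.image (fun s => s.2.2)).card := by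
          exact_mod_cast k2
      _ ≤ x ^ (q.δ / 8) * x ^ (q.δ / 8) :=
          mul_le_mul k3 k4 (Nat.cast_nonneg _) (Real.rpow_nonneg hx0.le _)
      _ = x ^ (q.δ / 4) := by
          rw [← Real.rpow_add hx0]
          congr 1
          ring
  rw [← Finset.sum_fiberwise_of_maps_to (t := I) (g := fun s => s.2)
    (fun s hs => Finset.mem_image_of_mem _ hs)]
  calc ∑ v ∈ I, ∑ s ∈ S.filter (fun s => s.2 = v), Wt W P0 P s.2.1 s.2.2 s.1
      ≤ ∑ v ∈ I, (C * x * (ThB W P v.1 v.2 * VP W P0 P v.1 v.2) + x ^ (1 - q.δ / 2)) :=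
        Finset.sum_le_sum hpair
    _ = C * x * ∑ v ∈ I, ThB W P v.1 v.2 * VP W P0 P v.1 v.2 + I.card * x ^ (1 - q.δ / 2) := by
        rw [Finset.sum_add_distrib, ← Finset.mul_sum, Finset.sum_const, nsmul_eq_mul]
    _ ≤ C * x * ∑ v ∈ I, ThB W P v.1 v.2 * VP W P0 P v.1 v.2 +
          x ^ (q.δ / 4) * x ^ (1 - q.δ / 2) := by
        gcongr
    _ = C * x * ∑ v ∈ I, ThB W P v.1 v.2 * VP W P0 P v.1 v.2 + x ^ (1 - q.δ / 4) := by
        rw [← Real.rpow_add hx0]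
        congr 2
        ring

end Pool.Agent.PENK

namespace Pool.Agent.PENK

theorem triples : type_of% @triples_pr := @triples_pr

end Pool.Agent.PENK
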