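import Pool.Agent.Lib_helper18.PENKF.DefsW
import Pool.Agent.Lib_helper18.PENKF.PR4
import Pool.Agent.Lib_helper18.PENKF.PB4
import Pool.Agent.Lib_helper18.PENKF.PB5
import Pool.Agent.Lib_helper18.PENKF.PA6
import Pool.Agent.Lib_helper18.PENKF.PH1
import Pool.Agent.Lib_helper18.PENKF.PH7
import Pool.Agent.Lib_helper18.PENKF.PH10
import Pool.Agent.Lib_helper18.PENKF.PD21

set_option autoImplicit false

namespace Pool.Agent.PENK

open Finset Pool.Agent.PENT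

/-- a triple gives a pair -/
theorem ph11_pair {q : Par 5} (hq : q.Ok) {x : ℝ} (hx : 0 < x) {P0 : ℕ} (hP0 : 2 ≤ P0)
    {s : Bas × PolyK 5 × PolyK 5} (h : TripOk q x P0 s) : PairOk q x P0 s.2 where
  p1 := h.p1
  p2 := h.p2
  s1 := h.s1
  s2 := h.s2
  o1 := over_one4 le_rfl hP0 h.p1 h.o1
  o2 := over_one4 le_rfl hP0 h.p2 h.o2
  cp := compat_of_over hq hx h.o1 h.o2

theorem ph11_VP (P0 P : ℕ) (u v : PolyK 5) : 0 ≤ VP W5 P0 P u v ∧ VP W5 P0 P u v ≤ 1 := by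
  have key : ∀ p ∈ (prs (100 * 5) P).filter (fun p => ¬ p ∣ DD u * DD v),
      0 ≤ 1 - vv W5 P0 u v p ∧ 1 - vv W5 P0 u v p ≤ 1 := by
    intro p hp
    obtain ⟨h1, h2⟩ := mem_filter.mp hp
    obtain ⟨h3, h4⟩ := mem_filter.mp h1
    have h5 := (mem_Ioc.mp h3).1
    have h6 := vv_bounds (K := 5) le_rfl W5 W5_ok P0 u v h4 (by omega) h2
    have h7 : ((4 : ℝ) * (5 : ℕ) - 4) / ((p : ℝ) + 1) ≤ 1 := by
      rw [div_le_one (by positivity)]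
      have : (500 : ℝ) < p := by exact_mod_cast (by omega : 500 < p)
      push_cast
      linarith
    constructor
    · linarith [h6.2]
    · linarith [h6.1]
  unfold VP
  exact ⟨prod_nonneg (fun p hp => (key p hp).1), prod_le_one (fun p hp => (key p hp).1)
    (fun p hp => (key p hp).2)⟩

theorem ph11_lw (P p : ℕ) {α : ℝ} (h : 0 ≤ α) : 0 ≤ lw P p α := by
  unfold lw; split_ifs
  · exact h
  · norm_num

theorem ph11_wi (P : ℕ) (u : PolyK 5) : 0 ≤ wi W5 P u := by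
  unfold wi
  refine prod_nonneg (fun j _ => prod_nonneg (fun p _ => ?_))
  have := ph11_lw P p (W5_ok.al0 j)
  positivity

theorem ph11_wsp (P : ℕ) {a b : ℝ} (ha : 0 ≤ a) (hb : 0 ≤ b) (d d' : ℕ) : 0 ≤ wsp P a b d d' := by
  unfold wsp
  refine prod_nonneg (fun p _ => ?_)
  have h1 := ph11_lw P p ha
  have h2 := ph11_lw P p hb
  split_ifs <;> positivity

theorem ph11_ThB (P : ℕ) (u v : PolyK 5) : 0 ≤ ThB W5 P u v := by
  have a0 := W5_ok.al0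
  have b0 := fun j => (W5_ok.be0 j).le
  have s0 : 0 ≤ W5.s0 := add_nonneg (b0 _) (a0 _)
  have s1 : 0 ≤ W5.s1 := add_nonneg (b0 _) (a0 _)
  unfold ThB
  refine mul_nonneg (mul_nonneg (prod_nonneg (fun p _ => by positivity))
    (mul_nonneg (ph11_wi P u) (ph11_wi P v))) (mul_nonneg ?_ ?_)
  · exact ph11_wsp P (div_nonneg (sq_nonneg _) s1) (div_nonneg (mul_nonneg (a0 _) (b0 _)) s1) _ _
  · exact ph11_wsp P (div_nonneg (sq_nonneg _) s0) (div_nonneg (mul_nonneg (a0 _) (b0 _)) s0) _ _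

/-- `x ^ (-a) ≤ (log x) ^ (-b)` for large `x` -/
theorem ph11_log {a b : ℝ} (ha : 0 < a) : ∃ x₀ : ℝ, 3 ≤ x₀ ∧ ∀ x ≥ x₀,
    x ^ (-a) ≤ Real.log x ^ (-b) := by
  have h := isLittleO_log_rpow_rpow_atTop b ha
  have h2 := h.bound (show (0 : ℝ) < 1 by norm_num)
  obtain ⟨x₁, hx₁⟩ := Filter.eventually_atTop.mp h2
  refine ⟨max x₁ 3, le_max_right _ _, fun x hx => ?_⟩
  have h3 : 3 ≤ x := (le_max_right _ _).trans hx
  have h4 := hx₁ x ((le_max_left _ _).trans hx)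
  have h0 : 0 < Real.log x := Real.log_pos (by linarith)
  rw [one_mul, Real.norm_of_nonneg (Real.rpow_nonneg h0.le _),
    Real.norm_of_nonneg (Real.rpow_nonneg (by linarith) _)] at h4
  rw [Real.rpow_neg (by linarith), Real.rpow_neg h0.le]
  exact inv_anti₀ (Real.rpow_pos_of_pos h0 _) h4

/-- the logarithm is large -/
theorem ph11_big (B : ℝ) : ∃ x₀ : ℝ, 3 ≤ x₀ ∧ ∀ x ≥ x₀, B ≤ Real.log x := by
  have h2 := Real.tendsto_log_atTop.eventually_ge_atTop B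
  obtain ⟨x₁, hx₁⟩ := Filter.eventually_atTop.mp h2
  exact ⟨max x₁ 3, le_max_right _ _, fun x hx => hx₁ x ((le_max_left _ _).trans hx)⟩

/-- numerical summary -/
theorem ph11_sum {C L : ℝ} (hC : 0 ≤ C) (hL : 2 ≤ L) (hL' : 2 * C ≤ L) :
    C * L ^ (-20 : ℝ) + L ^ (-7 : ℝ) ≤ L ^ (-6 : ℝ) := by
  have h0 : 0 < L := by linarith
  have e1 : L ^ (-6 : ℝ) = L ^ (-7 : ℝ) * L := by
    nth_rewrite 3 [← Real.rpow_one L]
    rw [← Real.rpow_add h0]; norm_num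
  have e2 : L ^ (-20 : ℝ) ≤ L ^ (-7 : ℝ) :=
    Real.rpow_le_rpow_of_exponent_le (by linarith) (by norm_num)
  have p7 : 0 < L ^ (-7 : ℝ) := Real.rpow_pos_of_pos h0 _
  rw [e1]
  have : C * L ^ (-20 : ℝ) ≤ (L / 2) * L ^ (-7 : ℝ) := by
    calc C * L ^ (-20 : ℝ) ≤ C * L ^ (-7 : ℝ) := by gcongr
      _ ≤ (L / 2) * L ^ (-7 : ℝ) := by
        apply mul_le_mul_of_nonneg_right _ p7.le
        linarith
  nlinarith

/-- the sum over the triples -/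
theorem ph11_tri (q : Par 5) (hq : q.Ok) (hE : EQQ q.δ) : ∃ τ₀ : ℝ, 0 < τ₀ ∧ τ₀ ≤ 1 ∧
    ∃ C x₀ : ℝ, 0 ≤ C ∧ 3 ≤ x₀ ∧ ∀ x ≥ x₀, ∀ P0 P : ℕ, 2 ≤ P0 → 1 ≤ P →
      (P : ℝ) ≤ x ^ τ₀ → ∀ (S : Finset (Bas × PolyK 5 × PolyK 5)) (B : ℝ),
      (∀ s ∈ S, TripOk q x P0 s) →
      ((∀ s ∈ S.image (fun s => s.2), PairOk q x P0 s) →
        ∑ s ∈ S.image (fun s => s.2), ThB W5 P s.1 s.2 * VP W5 P0 P s.1 s.2 ≤ B) →
      ∑ s ∈ S, Wt W5 P0 P s.2.1 s.2.2 s.1 ≤ x * (C * B + x ^ (-(q.δ / 4))) := by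
  obtain ⟨τ, hτ, C, x₀, hC, hx₀, H⟩ := triples (K := 5) le_rfl q hq W5 W5_ok hE
  refine ⟨min τ 1, lt_min hτ one_pos, min_le_right _ _, C, max x₀ 3, hC, le_max_right _ _, ?_⟩
  intro x hx P0 P hP0 hP hPx S B hS hB
  have hx3 : 3 ≤ x := (le_max_right _ _).trans hx
  have hx0 : 0 < x := by linarith
  have h1 : (P : ℝ) ≤ x ^ τ := hPx.trans
    (Real.rpow_le_rpow_of_exponent_le (by linarith) (min_le_left _ _))
  have h2 := H x ((le_max_left _ _).trans hx) P0 P hP0 hP h1 S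
    (fun s hs => ⟨(hS s hs).p1, (hS s hs).p2, (hS s hs).o1, (hS s hs).o2⟩)
  have h3 := hB (by
    intro s hs
    obtain ⟨t, ht, rfl⟩ := mem_image.mp hs
    exact ph11_pair hq hx0 hP0 (hS t ht))
  refine h2.trans ?_
  have e : x ^ (1 - q.δ / 4) = x * x ^ (-(q.δ / 4)) := by
    rw [sub_eq_add_neg, Real.rpow_add hx0, Real.rpow_one]
  rw [e]
  have : C * x * ∑ s ∈ S.image (fun s => s.2), ThB W5 P s.1 s.2 * VP W5 P0 P s.1 s.2 ≤
      C * x * B := mul_le_mul_of_nonneg_left h3 (mul_nonneg hC hx0.le)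
  nlinarith

/-- the size of `P0` -/
theorem ph11_P0 {x : ℝ} (hx : 2 ≤ Real.log x) {P0 : ℕ} (h : Real.log x ^ 60 ≤ P0) : 2 ≤ P0 := by
  have : (2 : ℝ) ≤ P0 := by
    calc (2 : ℝ) ≤ 2 ^ 60 := by norm_num
      _ ≤ Real.log x ^ 60 := by gcongr
      _ ≤ P0 := h
  exact_mod_cast this

/-- BLOCK PH11 (uses PR4, PB4, PB5, PH1, PH7, PH10, PD21): the three final statements. -/
theorem gen5_pr (q : Par 5) (hq : q.Ok) (hg : q.Gap) (hE : EQQ q.δ) : ∃ τ₀ : ℝ, 0 < τ₀ ∧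
    ∀ τ : ℝ, 0 < τ → ∃ C x₀ : ℝ, 0 ≤ C ∧ 2 ≤ x₀ ∧ ∀ x ≥ x₀, ∀ P0 P : ℕ,
      Real.log x ^ 60 ≤ P0 → P0 ≤ P → x ^ τ ≤ P → (P : ℝ) ≤ x ^ τ₀ →
      ∀ S : Finset (Bas × PolyK 5 × PolyK 5), (∀ s ∈ S, TripOk q x P0 s ∧
        Gc s.2.1 s.2.2 = 1) →
      ∑ s ∈ S, Wt W5 P0 P s.2.1 s.2.2 s.1 ≤ C * x * Real.log x ^ (-5 : ℝ) := by
  obtain ⟨τ1, hτ1, hτ1', C1, x1, hC1, hx1, H1⟩ := ph11_tri q hq hE
  obtain ⟨τ2, hτ2, H2⟩ := cls3 q hq hg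
  refine ⟨min τ1 τ2, lt_min hτ1 hτ2, fun τ hτ => ?_⟩
  obtain ⟨C2, x2, hC2, hx2, H2⟩ := H2 τ hτ
  obtain ⟨x3, hx3, H3⟩ := ph11_log (a := q.δ / 4) (b := 5) (by have := hq.δ0; positivity)
  obtain ⟨x4, hx4, H4⟩ := ph11_big 2
  refine ⟨C1 * C2 + 1, max (max x1 x2) (max x3 x4), by positivity, ?_, ?_⟩
  · exact (by linarith : (2 : ℝ) ≤ x1).trans ((le_max_left _ _).trans (le_max_left _ _))
  intro x hx P0 P hP0 hP hPx hPx' S hS
  have y1 : x1 ≤ x := ((le_max_left _ _).trans (le_max_left _ _)).trans hx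
  have y2 : x2 ≤ x := ((le_max_right _ _).trans (le_max_left _ _)).trans hx
  have y3 : x3 ≤ x := ((le_max_left _ _).trans (le_max_right _ _)).trans hx
  have y4 : x4 ≤ x := ((le_max_right _ _).trans (le_max_right _ _)).trans hx
  have hx1' : 1 ≤ x := by linarith
  have P2 : 2 ≤ P0 := ph11_P0 (H4 x y4) hP0
  have q1 : (P : ℝ) ≤ x ^ τ1 := hPx'.trans
    (Real.rpow_le_rpow_of_exponent_le hx1' (min_le_left _ _))
  have q2 : (P : ℝ) ≤ x ^ τ2 := hPx'.trans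
    (Real.rpow_le_rpow_of_exponent_le hx1' (min_le_right _ _))
  have K := H1 x y1 P0 P P2 (by omega) q1 S (C2 * Real.log x ^ (-5 : ℝ))
    (fun s hs => (hS s hs).1) (fun hp => H2 x y2 P0 P hP0 hP hPx q2 _ (fun s hs => by
      refine ⟨hp s hs, ?_⟩
      obtain ⟨t, ht, rfl⟩ := mem_image.mp hs
      exact (hS t ht).2))
  refine K.trans ?_
  have := H3 x y3
  have hx0 : 0 ≤ x := by linarith
  calc x * (C1 * (C2 * Real.log x ^ (-5 : ℝ)) + x ^ (-(q.δ / 4))) ≤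
      x * (C1 * (C2 * Real.log x ^ (-5 : ℝ)) + Real.log x ^ (-5 : ℝ)) := by gcongr
    _ = (C1 * C2 + 1) * x * Real.log x ^ (-5 : ℝ) := by ring

theorem small5_pr (q : Par 5) (hq : q.Ok) (hg : q.Gap) (hE : EQQ q.δ) : ∃ τ₀ : ℝ, 0 < τ₀ ∧
    ∀ τ : ℝ, 0 < τ → ∃ x₀ : ℝ, 2 ≤ x₀ ∧ ∀ x ≥ x₀, ∀ P0 P : ℕ,
      Real.log x ^ 60 ≤ P0 → P0 ≤ P → x ^ τ ≤ P → (P : ℝ) ≤ x ^ τ₀ →
      ∀ S : Finset (Bas × PolyK 5 × PolyK 5), (∀ s ∈ S, TripOk q x P0 s ∧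
        1 < Gc s.2.1 s.2.2 ∧ (Gc s.2.1 s.2.2 : ℝ) ≤ x ^ (q.ε / 8)) →
      ∑ s ∈ S, Wt W5 P0 P s.2.1 s.2.2 s.1 ≤ x * Real.log x ^ (-6 : ℝ) := by
  obtain ⟨τ1, hτ1, hτ1', C1, x1, hC1, hx1, H1⟩ := ph11_tri q hq hE
  refine ⟨τ1, hτ1, fun τ hτ => ?_⟩
  obtain ⟨x2, hx2, H2⟩ := cls2 q hq hg hτ
  obtain ⟨x3, hx3, H3⟩ := ph11_log (a := q.δ / 4) (b := 7) (by have := hq.δ0; positivity)
  obtain ⟨x4, hx4, H4⟩ := ph11_big (max 2 (2 * C1))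
  refine ⟨max (max x1 x2) (max x3 x4), ?_, ?_⟩
  · exact (by linarith : (2 : ℝ) ≤ x1).trans ((le_max_left _ _).trans (le_max_left _ _))
  intro x hx P0 P hP0 hP hPx hPx' S hS
  have y1 : x1 ≤ x := ((le_max_left _ _).trans (le_max_left _ _)).trans hx
  have y2 : x2 ≤ x := ((le_max_right _ _).trans (le_max_left _ _)).trans hx
  have y3 : x3 ≤ x := ((le_max_left _ _).trans (le_max_right _ _)).trans hx
  have y4 : x4 ≤ x := ((le_max_right _ _).trans (le_max_right _ _)).trans hx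
  have hx1' : 1 ≤ x := by linarith
  have L2 : 2 ≤ Real.log x := (le_max_left _ _).trans (H4 x y4)
  have L2' : 2 * C1 ≤ Real.log x := (le_max_right _ _).trans (H4 x y4)
  have P2 : 2 ≤ P0 := ph11_P0 L2 hP0
  have q2 : (P : ℝ) ≤ x := by
    have := hPx'.trans (Real.rpow_le_rpow_of_exponent_le hx1' hτ1')
    rwa [Real.rpow_one] at this
  have K := H1 x y1 P0 P P2 (by omega) hPx' S (Real.log x ^ (-20 : ℝ))
    (fun s hs => (hS s hs).1) (fun hp => H2 x y2 P0 P hP0 hP hPx q2 _ (fun s hs => by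
      refine ⟨hp s hs, ?_⟩
      obtain ⟨t, ht, rfl⟩ := mem_image.mp hs
      exact (hS t ht).2))
  refine K.trans ?_
  have h3 := H3 x y3
  have hx0 : 0 ≤ x := by linarith
  have h5 := ph11_sum hC1 L2 L2'
  exact mul_le_mul_of_nonneg_left (by linarith) hx0

theorem large5_pr (q : Par 5) (hq : q.Ok) (hg : q.Gap) (hE : EQQ q.δ) : ∃ τ₀ : ℝ, 0 < τ₀ ∧
    ∃ x₀ : ℝ, 2 ≤ x₀ ∧ ∀ x ≥ x₀, ∀ P0 P : ℕ, 2 ≤ P0 → 1 ≤ P → (P : ℝ) ≤ x ^ τ₀ →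
      ∀ S : Finset (Bas × PolyK 5 × PolyK 5), (∀ s ∈ S, TripOk q x P0 s ∧
        x ^ (q.ε / 8) < (Gc s.2.1 s.2.2 : ℝ) ∧ ¬ SameD s.2.1 s.2.2) →
      ∑ s ∈ S, Wt W5 P0 P s.2.1 s.2.2 s.1 ≤ x * Real.log x ^ (-6 : ℝ) := by
  obtain ⟨τ1, hτ1, hτ1', C1, x1, hC1, hx1, H1⟩ := ph11_tri q hq hE
  obtain ⟨x2, hx2, H2⟩ := cls1 q hq hg W5 W5_ok
  obtain ⟨x3, hx3, H3⟩ := ph11_log (a := q.δ / 4) (b := 7) (by have := hq.δ0; positivity)
  obtain ⟨x5, hx5, H5⟩ := ph11_log (a := q.ε / 20) (b := 20) (by have := hq.ε0; positivity)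
  obtain ⟨x4, hx4, H4⟩ := ph11_big (max 2 (2 * C1))
  refine ⟨τ1, hτ1, max (max (max x1 x2) (max x3 x4)) x5, ?_, ?_⟩
  · exact (by linarith : (2 : ℝ) ≤ x5).trans (le_max_right _ _)
  intro x hx P0 P hP0 hP hPx S hS
  have y5 : x5 ≤ x := (le_max_right _ _).trans hx
  have hx' := (le_max_left _ _).trans hx
  have y1 : x1 ≤ x := ((le_max_left _ _).trans (le_max_left _ _)).trans hx'
  have y2 : x2 ≤ x := ((le_max_right _ _).trans (le_max_left _ _)).trans hx'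
  have y3 : x3 ≤ x := ((le_max_left _ _).trans (le_max_right _ _)).trans hx'
  have y4 : x4 ≤ x := ((le_max_right _ _).trans (le_max_right _ _)).trans hx'
  have hx1' : 1 ≤ x := by linarith
  have L2 : 2 ≤ Real.log x := (le_max_left _ _).trans (H4 x y4)
  have L2' : 2 * C1 ≤ Real.log x := (le_max_right _ _).trans (H4 x y4)
  have K := H1 x y1 P0 P hP0 hP hPx S (x ^ (-(q.ε / 20)))
    (fun s hs => (hS s hs).1) (fun hp => by
      refine le_trans (sum_le_sum (fun s _ => ?_)) (H2 x y2 P0 P hP0 _ (fun s hs => ?_))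
      · exact mul_le_of_le_one_right (ph11_ThB P s.1 s.2) (ph11_VP P0 P s.1 s.2).2
      · refine ⟨hp s hs, ?_⟩
        obtain ⟨t, ht, rfl⟩ := mem_image.mp hs
        exact (hS t ht).2)
  refine K.trans ?_
  have h3 := H3 x y3
  have h5 := H5 x y5
  have hx0 : 0 ≤ x := by linarith
  have h6 := ph11_sum hC1 L2 L2'
  have h7 : C1 * x ^ (-(q.ε / 20)) ≤ C1 * Real.log x ^ (-20 : ℝ) :=
    mul_le_mul_of_nonneg_left h5 hC1
  exact mul_le_mul_of_nonneg_left (by linarith) hx0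

end Pool.Agent.PENK

namespace Pool.Agent.PENK

theorem gen5 : type_of% @gen5_pr := @gen5_pr

theorem small5 : type_of% @small5_pr := @small5_pr

theorem large5 : type_of% @large5_pr := @large5_pr

end Pool.Agent.PENK
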