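import Mathlib
import Pool.Agent.Lib_helper18.PENKF.DefsW

set_option autoImplicit false

namespace Pool.Agent.PENL

open Finset Pool.Agent.PENT

/-- BLOCK PL1: the parameters -/
theorem qq_ok_pr {p : Pool.Agent.PENT.Par} {δ : ℝ} (hδ : 0 < δ) (hδ1 : δ ≤ 1 / 10)
    (hp : p.Ok (δ / 400)) : (qq p δ).Ok ∧ (qq p δ).Gap := by
  have hep := hp.ep0
  have he4 := hp.e4
  have hek := hp.ek
  have hc0 := hp.c10
  have hc1 := hp.c11
  refine ⟨⟨hp.ep0, hδ, hδ1, ?_, ?_, hp.c10, hp.c11, ?_, hp.sg1⟩, ⟨hp.e4, hp.gap⟩⟩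
  · intro j
    have h1 := he4 j
    show 0 ≤ p.e j
    linarith
  · show ∑ j, (p.e j + p.ep) ≤ δ / 50
    have h1 : ∀ j ∈ (univ : Finset (Fin 5)), p.e j + p.ep ≤ δ / 250 := by
      intro j _
      have h2 := he4 j
      have h3 := hek j
      linarith
    have h4 := Finset.sum_le_card_nsmul univ (fun j => p.e j + p.ep) (δ / 250) h1
    rw [Finset.card_univ, Fintype.card_fin, nsmul_eq_mul] at h4
    have h5 : ((5 : ℕ) : ℝ) * (δ / 250) = δ / 50 := by
      push_cast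
      ring
    rw [h5] at h4
    exact h4
  · show 1 ≤ 1000 / p.c1
    rw [le_div_iff₀ hc0]
    linarith

end Pool.Agent.PENL

namespace Pool.Agent.PENL

theorem qq_ok : type_of% @qq_ok_pr := @qq_ok_pr

end Pool.Agent.PENL
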