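import Pool.Agent.Lib_helper18.PENKF.DefsW
import Pool.Agent.Lib_helper97.PENT.TopB

/-! PENK (MP_892e4c_nt), block PL2 (helper67) -/

set_option autoImplicit false

namespace Pool.Agent.PENL

open Finset Pool.Agent.PENT

theorem pl2_nr {p : Pool.Agent.PENT.Par} {X : ℕ} {τ : Pol 5} (h : p.TS X τ) (j : Fin 5) :
    ((Pool.Agent.PENK.nr (τ.u j) : ℕ) : ℤ) = nm (τ.u j) := by
  have h1 := h.gp.pos1 j
  have h2 := h.gp.pos2 j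
  unfold Pool.Agent.PENK.nr nm
  push_cast
  rw [abs_of_pos h1, abs_of_pos h2]

theorem pl2_nrR {p : Pool.Agent.PENT.Par} {X : ℕ} {τ : Pol 5} (h : p.TS X τ) (j : Fin 5) :
    (Pool.Agent.PENK.nr (τ.u j) : ℝ) = (nm (τ.u j) : ℝ) := by
  exact_mod_cast congrArg (Int.cast : ℤ → ℝ) (pl2_nr h j)

theorem pl2_nmpos {p : Pool.Agent.PENT.Par} {X : ℕ} {τ : Pol 5} (h : p.TS X τ) (j : Fin 5) :
    (0 : ℝ) < (nm (τ.u j) : ℝ) := by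
  have h1 := h.gp.pos1 j
  have h2 := h.gp.pos2 j
  have : (0 : ℤ) < nm (τ.u j) := by unfold nm; omega
  exact_mod_cast this

/-- BLOCK PL2: the polygons: `nr = nm` (positive coordinates), `dn u j = |d_j|`, `DP` gives squarefree, primes
`> ⌊PP X⌋₊` (and `1 mod 4`). (helper67: the part without `Sep`, which needs the signs.) -/
theorem isPoly_of0_pr {p : Pool.Agent.PENT.Par} {δ : ℝ} {X : ℕ} {τ : Pol 5} (h : p.TS X τ)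
    (hc : 0 < p.c1) :
    Pool.Agent.PENK.IsPoly (qq p δ) X ⌊PP X⌋₊ τ.u ∧ Pool.Agent.PENK.One4 τ.u := by
  refine ⟨⟨?_, ?_, ?_, ?_, ?_, ?_, ?_⟩, ?_⟩
  · intro j
    rw [pl2_nrR h j]
    exact h.gp.low j
  · intro j
    rw [pl2_nrR h j]
    exact h.gp.upp j
  · intro i j hij
    have h1 := h.gp.sep i j hij
    have h2 : (0 : ℝ) < p.c1 * ((nm (τ.u i) : ℝ) * (nm (τ.u j) : ℝ)) :=
      mul_pos hc (mul_pos (pl2_nmpos h i) (pl2_nmpos h j))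
    have h3 : (0 : ℝ) < (p.sg i j : ℝ) * (dt (τ.u i) (τ.u j) : ℝ) := lt_of_lt_of_le h2 h1
    show 0 < p.sg i j * dt (τ.u i) (τ.u j)
    exact_mod_cast h3
  · intro j
    exact (h.gp.dp j).1
  · intro j q hq hqd
    have h1 := ((h.gp.dp j).2 q hq hqd).2
    exact (Nat.floor_lt' hq.ne_zero).mpr h1
  · intro i j hij
    exact Int.isCoprime_iff_gcd_eq_one.mp (h.gp.cop i j hij)
  · intro j k h1 h2
    exact Int.isCoprime_iff_gcd_eq_one.mp (h.gp.nice j k h1 h2)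
  · intro q hq hqd
    unfold Pool.Agent.PENK.DD at hqd
    obtain ⟨j, _, hj⟩ := (hq.prime.dvd_finsetProd_iff _).mp hqd
    exact ((h.gp.dp j).2 q hq hj).1

/-- BLOCK PL2 (helper67: with the hypothesis `hs` on the signs, which is needed for `Sep`) -/
theorem isPoly_of_pr {p : Pool.Agent.PENT.Par} {δ : ℝ} {X : ℕ} {τ : Pol 5} (h : p.TS X τ)
    (hc : 0 < p.c1) (hs : ∀ i j, p.sg i j = 1 ∨ p.sg i j = -1) :
    Pool.Agent.PENK.IsPoly (qq p δ) X ⌊PP X⌋₊ τ.u ∧ Pool.Agent.PENK.Sep (qq p δ) τ.u ∧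
      Pool.Agent.PENK.One4 τ.u := by
  obtain ⟨h1, h2⟩ := isPoly_of0_pr (δ := δ) h hc
  refine ⟨h1, ?_, h2⟩
  intro i j hij
  have h3 := h.gp.sep i j hij
  rw [pl2_nrR h i, pl2_nrR h j]
  show p.c1 * (nm (τ.u i) : ℝ) * (nm (τ.u j) : ℝ) ≤ |(dt (τ.u i) (τ.u j) : ℝ)|
  calc p.c1 * (nm (τ.u i) : ℝ) * (nm (τ.u j) : ℝ)
      = p.c1 * ((nm (τ.u i) : ℝ) * (nm (τ.u j) : ℝ)) := by ring
    _ ≤ (p.sg i j : ℝ) * (dt (τ.u i) (τ.u j) : ℝ) := h3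
    _ ≤ |(p.sg i j : ℝ) * (dt (τ.u i) (τ.u j) : ℝ)| := le_abs_self _
    _ = |(dt (τ.u i) (τ.u j) : ℝ)| := by
        rw [abs_mul]
        rcases hs i j with h4 | h4 <;> rw [h4] <;> simp

/-- the inner forms: `R(c_k) = |d_0| Q(u_k)` -/
theorem RR_cv_pr {p : Pool.Agent.PENT.Par} {X : ℕ} {τ : Pol 5} (h : p.TS X τ) (k : Fin 5) :
    Pool.Agent.PENK.Rf (RR τ) (Pool.Agent.PENK.cv τ.u k) = |τ.d 0| * τ.q k := by
  have hg := h.good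
  have hne : |τ.d 0| ≠ 0 := abs_ne_zero.mpr (hg.ne 0)
  have e1 : |τ.d 0| * (τ.q 0 / |τ.d 0|) = τ.q 0 :=
    Int.mul_ediv_cancel' ((abs_dvd _ _).mpr (hg.d1 0))
  have e2 : |τ.d 0| * (τ.q 1 / |τ.d 0|) = τ.q 1 :=
    Int.mul_ediv_cancel' ((abs_dvd _ _).mpr (hg.d2 0))
  have e3 : |τ.d 0| * (bf τ.a τ.b τ.c (τ.u 0) (τ.u 1) / |τ.d 0|) =
      bf τ.a τ.b τ.c (τ.u 0) (τ.u 1) := by
    apply Int.mul_ediv_cancel'
    rw [abs_dvd]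
    exact ⟨_, (hg.bf_eq 0).trans (mul_comm _ _)⟩
  have e4 : |τ.d 0| * |τ.d 0| = τ.d 0 * τ.d 0 := abs_mul_abs_self _
  apply mul_left_cancel₀ hne
  have key : τ.q 0 * dt (τ.u k) (τ.u 1) ^ 2 +
      2 * bf τ.a τ.b τ.c (τ.u 0) (τ.u 1) * dt (τ.u k) (τ.u 1) * dt (τ.u 0) (τ.u k) +
      τ.q 1 * dt (τ.u 0) (τ.u k) ^ 2 = τ.d 0 * τ.d 0 * τ.q k := by
    have h1 : τ.d 0 = dt (τ.u 0) (τ.u 1) := rfl
    rw [h1]
    unfold Pol.q qf bf dt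
    ring
  show |τ.d 0| * qf (τ.q 0 / |τ.d 0|) (bf τ.a τ.b τ.c (τ.u 0) (τ.u 1) / |τ.d 0|)
    (τ.q 1 / |τ.d 0|) (dt (τ.u k) (τ.u 1), dt (τ.u 0) (τ.u k)) = _
  rw [← mul_assoc, e4, ← key]
  unfold qf
  simp only
  linear_combination dt (τ.u k) (τ.u 1) ^ 2 * e1 + dt (τ.u 0) (τ.u k) ^ 2 * e2 +
    2 * dt (τ.u k) (τ.u 1) * dt (τ.u 0) (τ.u k) * e3

end Pool.Agent.PENL

namespace Pool.Agent.PENL

theorem isPoly_of : type_of% @isPoly_of_pr := @isPoly_of_pr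

theorem RR_cv : type_of% @RR_cv_pr := @RR_cv_pr

end Pool.Agent.PENL
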