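import Pool.Agent.Lib_helper18.PENKF.DefsW
import Pool.Agent.Lib_helper18.PENKF.PL2

set_option autoImplicit false

namespace Pool.Agent.PENL

open Finset Pool.Agent.PENT

theorem pl3_abc {p : Pool.Agent.PENT.Par} {X : ℕ} {τ : Pol 5} (h : p.TS X τ) :
    0 < τ.a ∧ 0 < τ.b ∧ 0 < τ.c := by
  have ha : 0 < τ.a := lt_of_le_of_lt (Int.natCast_nonneg X) h.ha1
  have hb : 0 < τ.b := lt_of_le_of_lt (Int.natCast_nonneg X) h.hb1
  refine ⟨ha, hb, ?_⟩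
  have hd := h.good.disc
  by_contra hc
  push Not at hc
  nlinarith [mul_nonneg ha.le (neg_nonneg.2 hc), sq_nonneg τ.b]

theorem pl3_q {p : Pool.Agent.PENT.Par} {X : ℕ} {τ : Pol 5} (h : p.TS X τ) (j : Fin 5) :
    0 < τ.q j := by
  obtain ⟨ha, hb, hc⟩ := pl3_abc h
  have h1 := h.gp.pos1 j
  have h2 := h.gp.pos2 j
  unfold Pol.q qf
  positivity

theorem pl3_bf {p : Pool.Agent.PENT.Par} {X : ℕ} {τ : Pol 5} (h : p.TS X τ) :
    0 < bf τ.a τ.b τ.c (τ.u 0) (τ.u 1) := by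
  obtain ⟨ha, hb, hc⟩ := pl3_abc h
  have h1 := h.gp.pos1 0
  have h2 := h.gp.pos2 0
  have h3 := h.gp.pos1 1
  have h4 := h.gp.pos2 1
  unfold bf
  positivity

theorem pl3_nr {p : Pool.Agent.PENT.Par} {X : ℕ} {τ : Pol 5} (h : p.TS X τ) (j : Fin 5) :
    (Pool.Agent.PENK.nr (τ.u j) : ℤ) = nm (τ.u j) := by
  have h1 := h.gp.pos1 j
  have h2 := h.gp.pos2 j
  unfold Pool.Agent.PENK.nr nm
  omega

theorem pl3_D {τ : Pol 5} (hg : τ.Good) : 0 < |τ.d 0| := abs_pos.2 (hg.ne 0)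

theorem pl3_g {τ : Pol 5} (hg : τ.Good) : (RR τ).1 * |τ.d 0| = τ.q 0 :=
  Int.ediv_mul_cancel ((abs_dvd _ _).2 (hg.d1 0))

theorem pl3_g' {τ : Pol 5} (hg : τ.Good) : (RR τ).2.2 * |τ.d 0| = τ.q 1 :=
  Int.ediv_mul_cancel ((abs_dvd _ _).2 (hg.d2 0))

theorem pl3_dvd {τ : Pol 5} (hg : τ.Good) : τ.d 0 ∣ bf τ.a τ.b τ.c (τ.u 0) (τ.u 1) := by
  have h1 := hg.bf_eq 0
  exact ⟨_, h1.trans (mul_comm _ _)⟩

theorem pl3_n {τ : Pol 5} (hg : τ.Good) :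
    (RR τ).2.1 * |τ.d 0| = bf τ.a τ.b τ.c (τ.u 0) (τ.u 1) :=
  Int.ediv_mul_cancel ((abs_dvd _ _).2 (pl3_dvd hg))

theorem pl3_nn {τ : Pol 5} : (|(RR τ).2.1| : ℤ) = (τ.n 0 : ℤ) := by
  have e : (τ.n 0 : ℤ) = |bf τ.a τ.b τ.c (τ.u 0) (τ.u 1) / τ.d 0| := by
    unfold Pol.n
    rw [Int.natCast_natAbs]
    rfl
  rw [e]
  unfold RR
  simp only
  rcases abs_choice (τ.d 0) with h1 | h1 <;> rw [h1]
  rw [Int.ediv_neg, abs_neg]

theorem pl3_q_lower {p : Pool.Agent.PENT.Par} {X : ℕ} {τ : Pol 5} (h : p.TS X τ) (j : Fin 5) :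
    (X : ℤ) * nm (τ.u j) ^ 2 ≤ 2 * τ.q j := by
  obtain ⟨ha, hb, hc⟩ := pl3_abc h
  have h1 := h.gp.pos1 j
  have h2 := h.gp.pos2 j
  have hd := h.good.disc
  have e1 := h.ha1
  have e2 := h.ha2
  have e3 := h.hb1
  have e4 := h.hb2
  have hX : (0 : ℤ) ≤ X := Int.natCast_nonneg X
  have hc2 : (X : ℤ) ≤ 2 * τ.c := by
    by_contra hlt
    push Not at hlt
    have : τ.a * (2 * τ.c) ≤ 2 * X * X := by
      calc τ.a * (2 * τ.c) ≤ τ.a * X := mul_le_mul_of_nonneg_left hlt.le ha.le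
        _ ≤ 2 * X * X := mul_le_mul_of_nonneg_right e2 hX
    nlinarith
  unfold Pol.q qf nm
  have t1 : (X : ℤ) * (τ.u j).1 ^ 2 ≤ τ.a * (τ.u j).1 ^ 2 :=
    mul_le_mul_of_nonneg_right e1.le (sq_nonneg _)
  have t2 : (X : ℤ) * ((τ.u j).1 * (τ.u j).2) ≤ τ.b * ((τ.u j).1 * (τ.u j).2) :=
    mul_le_mul_of_nonneg_right e3.le (mul_pos h1 h2).le
  have t3 : (X : ℤ) * (τ.u j).2 ^ 2 ≤ 2 * τ.c * (τ.u j).2 ^ 2 :=
    mul_le_mul_of_nonneg_right hc2 (sq_nonneg _)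
  have t4 : 0 ≤ (X : ℤ) * (τ.u j).1 ^ 2 := mul_nonneg hX (sq_nonneg _)
  have t5 : 0 ≤ (X : ℤ) * ((τ.u j).1 * (τ.u j).2) := mul_nonneg hX (mul_pos h1 h2).le
  nlinarith

theorem pl3_q_upper {p : Pool.Agent.PENT.Par} {X : ℕ} (hX1 : 1 ≤ X) {τ : Pol 5} (h : p.TS X τ)
    (j : Fin 5) : τ.q j ≤ 5 * X * nm (τ.u j) ^ 2 := by
  obtain ⟨ha, hb, hc⟩ := pl3_abc h
  have h1 := h.gp.pos1 j
  have h2 := h.gp.pos2 j
  have hd := h.good.disc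
  have e1 := h.ha1
  have e2 := h.ha2
  have e3 := h.hb1
  have e4 := h.hb2
  have hX : (1 : ℤ) ≤ X := by exact_mod_cast hX1
  have hc2 : τ.c ≤ 5 * X := by
    by_contra hlt
    push Not at hlt
    have t1 : (X : ℤ) * (5 * X) ≤ τ.a * τ.c := mul_le_mul e1.le hlt.le (by positivity) ha.le
    have t2 : τ.b ^ 2 ≤ (2 * X) ^ 2 := pow_le_pow_left₀ hb.le e4 2
    have t3 : (X : ℤ) * 1 ≤ X * X := mul_le_mul_of_nonneg_left hX (by positivity)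
    have t4 : τ.a * τ.c = τ.b ^ 2 + 1 := by linarith
    have t5 : (X : ℤ) * (5 * X) < τ.a * τ.c :=
      mul_lt_mul e1 hlt.le (by positivity) ha.le
    nlinarith
  unfold Pol.q qf nm
  have t1 : τ.a * (τ.u j).1 ^ 2 ≤ 2 * X * (τ.u j).1 ^ 2 :=
    mul_le_mul_of_nonneg_right e2 (sq_nonneg _)
  have t2 : τ.b * ((τ.u j).1 * (τ.u j).2) ≤ 2 * X * ((τ.u j).1 * (τ.u j).2) :=
    mul_le_mul_of_nonneg_right e4 (mul_pos h1 h2).le
  have t3 : τ.c * (τ.u j).2 ^ 2 ≤ 5 * X * (τ.u j).2 ^ 2 :=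
    mul_le_mul_of_nonneg_right hc2 (sq_nonneg _)
  have t4 : 0 ≤ (X : ℤ) * (τ.u j).1 ^ 2 := mul_nonneg (by positivity) (sq_nonneg _)
  have t5 : 0 ≤ (X : ℤ) * ((τ.u j).1 * (τ.u j).2) := mul_nonneg (by positivity) (mul_pos h1 h2).le
  nlinarith

theorem pl3_d_upper {p : Pool.Agent.PENT.Par} {X : ℕ} {τ : Pol 5} (h : p.TS X τ) :
    |τ.d 0| ≤ nm (τ.u 0) * nm (τ.u 1) := by
  have h1 := h.gp.pos1 0
  have h2 := h.gp.pos2 0
  have h3 := h.gp.pos1 1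
  have h4 := h.gp.pos2 1
  have e : τ.d 0 = dt (τ.u 0) (τ.u 1) := rfl
  rw [e]
  unfold dt nm
  rw [abs_le]
  constructor <;> nlinarith [mul_pos h1 h3, mul_pos h1 h4, mul_pos h2 h3, mul_pos h2 h4]

theorem pl3_d_lower {p : Pool.Agent.PENT.Par} {κ : ℝ} (hκ : p.Ok κ) {X : ℕ} {τ : Pol 5}
    (h : p.TS X τ) :
    p.c1 * ((nm (τ.u 0) : ℝ) * (nm (τ.u 1) : ℝ)) ≤ ((|τ.d 0| : ℤ) : ℝ) := by
  have h1 := h.gp.sep 0 1 (by decide)
  have e : τ.d 0 = dt (τ.u 0) (τ.u 1) := rfl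
  rw [e]
  push_cast
  refine h1.trans ?_
  rcases hκ.sg1 0 1 with h2 | h2 <;> rw [h2]
  · push_cast
    rw [one_mul]
    exact le_abs_self _
  · push_cast
    rw [neg_mul, one_mul]
    exact neg_le_abs _

/-- BLOCK PL3 -/
theorem over_of_pr {p : Pool.Agent.PENT.Par} {δ κ : ℝ} (hκ : p.Ok κ) {X : ℕ} (hX : 1 ≤ X)
    {τ : Pol 5} (h : p.TS X τ) : Pool.Agent.PENK.Over (qq p δ) X (RR τ) τ.u := by
  have hg := h.good
  have hD := pl3_D hg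
  have eg := pl3_g hg
  have eg' := pl3_g' hg
  have en := pl3_n hg
  have hc1 := hκ.c10
  have hc2 := hκ.c11
  have hgpos : 0 < (RR τ).1 := by
    have := pl3_q h 0
    rw [← eg] at this
    exact (mul_pos_iff_of_pos_right hD).1 this
  -- real versions
  have hN0 : ((Pool.Agent.PENK.nr (τ.u 0) : ℕ) : ℝ) = (nm (τ.u 0) : ℝ) := by
    exact_mod_cast pl3_nr h 0
  have hN1 : ((Pool.Agent.PENK.nr (τ.u 1) : ℕ) : ℝ) = (nm (τ.u 1) : ℝ) := by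
    exact_mod_cast pl3_nr h 1
  have p0 : (0 : ℝ) < (nm (τ.u 0) : ℝ) := by
    have : 0 < nm (τ.u 0) := add_pos (h.gp.pos1 0) (h.gp.pos2 0)
    exact_mod_cast this
  have p1 : (0 : ℝ) < (nm (τ.u 1) : ℝ) := by
    have : 0 < nm (τ.u 1) := add_pos (h.gp.pos1 1) (h.gp.pos2 1)
    exact_mod_cast this
  have hXr : (1 : ℝ) ≤ X := by exact_mod_cast hX
  have rg : ((RR τ).1 : ℝ) * ((|τ.d 0| : ℤ) : ℝ) = (τ.q 0 : ℝ) := by exact_mod_cast eg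
  have rgp : (0 : ℝ) < ((RR τ).1 : ℝ) := by exact_mod_cast hgpos
  have rl : (X : ℝ) * (nm (τ.u 0) : ℝ) ^ 2 ≤ 2 * (τ.q 0 : ℝ) := by
    exact_mod_cast pl3_q_lower h 0
  have ru : (τ.q 0 : ℝ) ≤ 5 * X * (nm (τ.u 0) : ℝ) ^ 2 := by
    exact_mod_cast pl3_q_upper hX h 0
  have rdu : ((|τ.d 0| : ℤ) : ℝ) ≤ (nm (τ.u 0) : ℝ) * (nm (τ.u 1) : ℝ) := by
    exact_mod_cast pl3_d_upper h
  have rdl := pl3_d_lower hκ h
  have hC4 : (qq p δ).C4 = 1000 / p.c1 := rfl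
  have hC : (1000 : ℝ) ≤ 1000 / p.c1 := by
    rw [le_div_iff₀ hc1]
    nlinarith
  refine ⟨?_, hgpos, ?_, ?_, ?_, ?_, ?_, ?_, ?_⟩
  · -- disc
    have h1 := qf_mul_qf hg.disc (τ.u 0) (τ.u 1)
    have e0 : τ.q 0 = qf τ.a τ.b τ.c (τ.u 0) := rfl
    have e1 : τ.q 1 = qf τ.a τ.b τ.c (τ.u 1) := rfl
    have e2 : τ.d 0 = dt (τ.u 0) (τ.u 1) := rfl
    rw [← e0, ← e1, ← e2, ← eg, ← eg', ← en, ← sq_abs (τ.d 0)] at h1
    have hD2 : |τ.d 0| ^ 2 ≠ 0 := (pow_pos hD 2).ne'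
    have h2 : |τ.d 0| ^ 2 * ((RR τ).1 * (RR τ).2.2 - (RR τ).2.1 ^ 2) = |τ.d 0| ^ 2 * 1 := by
      linear_combination h1
    exact mul_left_cancel₀ hD2 h2
  · -- dm
    have e1 : Pool.Agent.PENK.dl τ.u (-1) = τ.d 4 := rfl
    rw [e1]
    have h1 : τ.d 4 ∣ τ.q 0 := hg.d2 4
    have h2 : IsCoprime (τ.d 4) (|τ.d 0|) := by
      have := h.gp.cop 4 0 (by decide)
      rcases abs_choice (τ.d 0) with h3 | h3 <;> rw [h3]
      · exact this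
      · exact this.neg_right
    rw [← eg] at h1
    exact h2.dvd_of_dvd_mul_right h1
  · -- d1
    have e1 : Pool.Agent.PENK.dl τ.u 1 = τ.d 1 := rfl
    rw [e1]
    have h1 : τ.d 1 ∣ τ.q 1 := hg.d1 1
    have h2 : IsCoprime (τ.d 1) (|τ.d 0|) := by
      have := h.gp.cop 1 0 (by decide)
      rcases abs_choice (τ.d 0) with h3 | h3 <;> rw [h3]
      · exact this
      · exact this.neg_right
    rw [← eg'] at h1
    exact h2.dvd_of_dvd_mul_right h1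
  · -- d0
    rw [RR_cv h 2]
    have e1 : Pool.Agent.PENK.dl τ.u 0 = τ.d 0 := rfl
    rw [e1]
    exact Dvd.dvd.mul_right ((dvd_abs _ _).2 (dvd_refl _)) _
  · -- dj
    intro j _ _
    rw [RR_cv h j]
    have e1 : Pool.Agent.PENK.dl τ.u j = τ.d j := rfl
    rw [e1]
    exact Dvd.dvd.mul_left (hg.d1 j) _
  · -- g1
    rw [hC4, hN0, hN1]
    have t1 : (X : ℝ) * (nm (τ.u 0) : ℝ) ^ 2 ≤
        2 * (((RR τ).1 : ℝ) * ((nm (τ.u 0) : ℝ) * (nm (τ.u 1) : ℝ))) := by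
      calc (X : ℝ) * (nm (τ.u 0) : ℝ) ^ 2 ≤ 2 * (τ.q 0 : ℝ) := rl
        _ = 2 * (((RR τ).1 : ℝ) * ((|τ.d 0| : ℤ) : ℝ)) := by rw [rg]
        _ ≤ _ := by
          apply mul_le_mul_of_nonneg_left _ (by norm_num)
          exact mul_le_mul_of_nonneg_left rdu rgp.le
    have t2 : (X : ℝ) * (nm (τ.u 0) : ℝ) ≤ 2 * (((RR τ).1 : ℝ) * (nm (τ.u 1) : ℝ)) := by
      refine le_of_mul_le_mul_right ?_ p0
      calc (X : ℝ) * (nm (τ.u 0) : ℝ) * (nm (τ.u 0) : ℝ) = X * (nm (τ.u 0) : ℝ) ^ 2 := by ring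
        _ ≤ _ := t1
        _ = _ := by ring
    have t3 : 0 < ((RR τ).1 : ℝ) * (nm (τ.u 1) : ℝ) := mul_pos rgp p1
    calc (X : ℝ) * (nm (τ.u 0) : ℝ) ≤ 2 * (((RR τ).1 : ℝ) * (nm (τ.u 1) : ℝ)) := t2
      _ ≤ (1000 / p.c1) * (((RR τ).1 : ℝ) * (nm (τ.u 1) : ℝ)) :=
          mul_le_mul_of_nonneg_right (by linarith) t3.le
      _ = _ := by ring
  · -- g2
    rw [hC4, hN0, hN1]
    have t1 : p.c1 * ((nm (τ.u 0) : ℝ) * (nm (τ.u 1) : ℝ)) * ((RR τ).1 : ℝ) ≤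
        5 * X * (nm (τ.u 0) : ℝ) ^ 2 := by
      calc _ ≤ ((|τ.d 0| : ℤ) : ℝ) * ((RR τ).1 : ℝ) := mul_le_mul_of_nonneg_right rdl rgp.le
        _ = (τ.q 0 : ℝ) := by rw [← rg]; ring
        _ ≤ _ := ru
    have t2 : p.c1 * (((RR τ).1 : ℝ) * (nm (τ.u 1) : ℝ)) ≤ 5 * X * (nm (τ.u 0) : ℝ) := by
      refine le_of_mul_le_mul_right ?_ p0
      calc _ = p.c1 * ((nm (τ.u 0) : ℝ) * (nm (τ.u 1) : ℝ)) * ((RR τ).1 : ℝ) := by ring
        _ ≤ _ := t1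
        _ = _ := by ring
    have t3 : ((RR τ).1 : ℝ) * (nm (τ.u 1) : ℝ) ≤ (5 * X * (nm (τ.u 0) : ℝ)) / p.c1 := by
      rw [le_div_iff₀ hc1]
      linarith
    refine t3.trans ?_
    rw [div_mul_eq_mul_div, div_mul_eq_mul_div]
    apply div_le_div_of_nonneg_right _ hc1.le
    have : 0 ≤ (X : ℝ) * (nm (τ.u 0) : ℝ) := mul_nonneg (by linarith) p0.le
    nlinarith
  · -- n1
    rw [hC4]
    have h1 := (n_bound hX hκ h 0).2
    have h2 : (|((RR τ).2.1 : ℝ)|) = (τ.n 0 : ℝ) := by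
      have := pl3_nn (τ := τ)
      exact_mod_cast this
    rw [h2]
    refine h1.trans ?_
    apply mul_le_mul_of_nonneg_right _ (by linarith)
    apply div_le_div_of_nonneg_right (by norm_num) hc1.le

/-- the base forms of helper97 (natural numbers) determine `RR` -/
theorem RR_eq_pr {p : Pool.Agent.PENT.Par} {X : ℕ} {τ τ' : Pol 5} (h : p.TS X τ) (h' : p.TS X τ')
    (hc : 0 < p.c1) (hb : τ'.base = τ.base) : RR τ' = RR τ := by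
  have key : ∀ {σ : Pol 5}, p.TS X σ → RR σ = (((σ.base.1 : ℕ) : ℤ), ((σ.base.2.1 : ℕ) : ℤ),
      ((σ.base.2.2 : ℕ) : ℤ)) := by
    intro σ hσ
    have q0 := pl3_q hσ 0
    have q1 := pl3_q hσ 1
    have b0 := pl3_bf hσ
    have hD := pl3_D hσ.good
    have e1 : σ.base.1 = (σ.q 0).natAbs / (σ.d 0).natAbs := rfl
    have e2 : σ.base.2.1 = σ.n 0 := rfl
    have e3 : σ.base.2.2 = (σ.q 1).natAbs / (σ.d 0).natAbs := rfl
    have f1 : (RR σ).1 = ((σ.base.1 : ℕ) : ℤ) := by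
      rw [e1, Int.natCast_div, Int.natCast_natAbs, Int.natCast_natAbs, abs_of_pos q0]
      rfl
    have f3 : (RR σ).2.2 = ((σ.base.2.2 : ℕ) : ℤ) := by
      rw [e3, Int.natCast_div, Int.natCast_natAbs, Int.natCast_natAbs, abs_of_pos q1]
      rfl
    have f2 : (RR σ).2.1 = ((σ.base.2.1 : ℕ) : ℤ) := by
      rw [e2, ← pl3_nn, abs_of_nonneg]
      exact Int.ediv_nonneg b0.le hD.le
    exact Prod.ext f1 (Prod.ext f2 f3)
  rw [key h', key h, hb]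

/-- `RR` and the vectors determine the pentagon (`d_0 ≠ 0`) -/
theorem RR_inj_pr {p : Pool.Agent.PENT.Par} {X : ℕ} {τ τ' : Pol 5} (h : p.TS X τ) (h' : p.TS X τ')
    (hR : RR τ' = RR τ) (hu : τ'.u = τ.u) : τ' = τ := by
  have hg := h.good
  have hg' := h'.good
  have eg := pl3_g hg
  have eg' := pl3_g' hg
  have en := pl3_n hg
  have fg := pl3_g hg'
  have fg' := pl3_g' hg'
  have fn := pl3_n hg'
  have hd : τ'.d 0 = τ.d 0 := by unfold Pol.d; rw [hu]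
  rw [hR, hd] at fg fg' fn
  rw [eg] at fg
  rw [eg'] at fg'
  rw [en] at fn
  unfold Pol.q qf at fg fg'
  unfold bf at fn
  rw [hu] at fg fg' fn
  have hne : dt (τ.u 0) (τ.u 1) ≠ 0 := hg.ne 0
  have hne2 : dt (τ.u 0) (τ.u 1) ^ 2 ≠ 0 := pow_ne_zero 2 hne
  have ea : τ'.a = τ.a := by
    apply mul_left_cancel₀ hne2
    unfold dt
    linear_combination (-(τ.u 1).2 ^ 2) * fg + 2 * (τ.u 1).2 * (τ.u 0).2 * fn - (τ.u 0).2 ^ 2 * fg'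
  have ec : τ'.c = τ.c := by
    apply mul_left_cancel₀ hne2
    unfold dt
    linear_combination (-(τ.u 1).1 ^ 2) * fg + 2 * (τ.u 1).1 * (τ.u 0).1 * fn - (τ.u 0).1 ^ 2 * fg'
  have eb : τ'.b = τ.b := by
    apply mul_left_cancel₀ hne2
    unfold dt
    linear_combination ((τ.u 1).1 * (τ.u 1).2) * fg -
      ((τ.u 1).1 * (τ.u 0).2 + (τ.u 1).2 * (τ.u 0).1) * fn + ((τ.u 0).1 * (τ.u 0).2) * fg'
  cases τ
  cases τ'
  simp only at ea eb ec hu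
  subst ea eb ec hu
  rfl

end Pool.Agent.PENL

namespace Pool.Agent.PENL

theorem over_of : type_of% @over_of_pr := @over_of_pr

theorem RR_eq : type_of% @RR_eq_pr := @RR_eq_pr

theorem RR_inj : type_of% @RR_inj_pr := @RR_inj_pr

end Pool.Agent.PENL
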