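import Pool.Agent.Lib_helper18.PENKF.DefsW
import Pool.Agent.Lib_helper18.PENKF.PL2
import Pool.Agent.Lib_helper18.PENKF.PL3

/-! Block `PL4` (project PENK, part 4), helper42. -/

set_option autoImplicit false

namespace Pool.Agent.PENL

open Finset Pool.Agent.PENT

/-! ### elementary facts -/

theorem pl4_cm (g : ℕ → ℝ) {m N : ℕ} (hm : m ≠ 0) (hN : m ≤ N) :
    cm g m = ∏ l ∈ (Ioc 0 N).filter Nat.Prime, g l ^ (m.factorization l) := by
  unfold cm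
  refine Finsupp.prod_of_support_subset _ ?_ _ (fun l _ => pow_zero _)
  intro l hl
  rw [Nat.support_factorization, Nat.mem_primeFactors] at hl
  rw [Finset.mem_filter, Finset.mem_Ioc]
  exact ⟨⟨hl.1.pos, (Nat.le_of_dvd (Nat.pos_of_ne_zero hm) hl.2.1).trans hN⟩, hl.1⟩

theorem pl4_sub (j : Fin 5) : j - 1 ≠ j := by
  revert j; decide

theorem pl4_q {p : Pool.Agent.PENT.Par} {X : ℕ} {τ : Pol 5} (h : p.TS X τ) (j : Fin 5) :
    (τ.q j).natAbs = τ.y j * ((τ.d (j - 1)).natAbs * (τ.d j).natAbs) := by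
  have h1 : τ.d (j - 1) ∣ τ.q j := by
    have := h.good.d2 (j - 1)
    rwa [sub_add_cancel] at this
  have h2 : τ.d j ∣ τ.q j := h.good.d1 j
  have h3 : Nat.Coprime (τ.d (j - 1)).natAbs (τ.d j).natAbs :=
    Int.isCoprime_iff_gcd_eq_one.1 (h.gp.cop (j - 1) j (pl4_sub j))
  have h4 : (τ.d (j - 1)).natAbs * (τ.d j).natAbs ∣ (τ.q j).natAbs :=
    h3.mul_dvd_of_dvd_of_dvd (Int.natAbs_dvd_natAbs.2 h1) (Int.natAbs_dvd_natAbs.2 h2)
  unfold Pol.y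
  exact (Nat.div_mul_cancel h4).symm

theorem pl4_qne {p : Pool.Agent.PENT.Par} {X : ℕ} {τ : Pol 5} (h : p.TS X τ) (j : Fin 5) :
    τ.q j ≠ 0 := by
  intro h0
  have h1 := h.good.edge j
  rw [h0, zero_mul] at h1
  have h2 := h.good.ne j
  have h3 : (0 : ℤ) < ((τ.n j : ℤ) ^ 2 + 1) * τ.d j ^ 2 := by positivity
  omega

theorem pl4_dne {p : Pool.Agent.PENT.Par} {X : ℕ} {τ : Pol 5} (h : p.TS X τ) (j : Fin 5) :
    (τ.d j).natAbs ≠ 0 := Int.natAbs_ne_zero.2 (h.good.ne j)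

theorem pl4_yne {p : Pool.Agent.PENT.Par} {X : ℕ} {τ : Pol 5} (h : p.TS X τ) (j : Fin 5) :
    τ.y j ≠ 0 := by
  intro h0
  have h1 := pl4_q h j
  rw [h0, zero_mul] at h1
  exact pl4_qne h j (Int.natAbs_eq_zero.1 h1)

theorem pl4_g {p : Pool.Agent.PENT.Par} {X : ℕ} {τ : Pol 5} (h : p.TS X τ) :
    τ.base.1 = τ.y 0 * (τ.d 4).natAbs := by
  have h1 := pl4_q h 0
  have h2 : (0 - 1 : Fin 5) = 4 := by decide
  rw [h2] at h1
  have h3 : τ.base.1 = (τ.q 0).natAbs / (τ.d 0).natAbs := rfl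
  rw [h3, h1, ← mul_assoc]
  exact Nat.mul_div_cancel _ (Nat.pos_of_ne_zero (pl4_dne h 0))

theorem pl4_g' {p : Pool.Agent.PENT.Par} {X : ℕ} {τ : Pol 5} (h : p.TS X τ) :
    τ.base.2.2 = τ.y 1 * (τ.d 1).natAbs := by
  have h1 := pl4_q h 1
  have h2 : (1 - 1 : Fin 5) = 0 := by decide
  rw [h2] at h1
  have h3 : τ.base.2.2 = (τ.q 1).natAbs / (τ.d 0).natAbs := rfl
  rw [h3, h1, mul_comm (τ.d 0).natAbs, ← mul_assoc]
  exact Nat.mul_div_cancel _ (Nat.pos_of_ne_zero (pl4_dne h 0))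

theorem pl4_n {p : Pool.Agent.PENT.Par} {X : ℕ} {τ : Pol 5} (h : p.TS X τ) :
    τ.base.2.1 ^ 2 + 1 = τ.base.1 * τ.base.2.2 := by
  have h0 : τ.base.2.1 = τ.n 0 := rfl
  have h1 := h.good.edge 0
  have h2 := congrArg Int.natAbs h1
  rw [Int.natAbs_mul, Int.natAbs_mul, Int.natAbs_pow] at h2
  have h3 : (((τ.n 0 : ℤ) ^ 2 + 1)).natAbs = τ.n 0 ^ 2 + 1 := by
    have : (((τ.n 0 : ℤ) ^ 2 + 1)) = ((τ.n 0 ^ 2 + 1 : ℕ) : ℤ) := by push_cast; ring
    rw [this, Int.natAbs_natCast]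
  rw [h3, zero_add] at h2
  have d0 : (τ.d 0).natAbs ∣ (τ.q 0).natAbs := Int.natAbs_dvd_natAbs.2 (h.good.d1 0)
  have d1 : (τ.d 0).natAbs ∣ (τ.q 1).natAbs := Int.natAbs_dvd_natAbs.2 (h.good.d2 0)
  have e0 : (τ.q 0).natAbs = τ.base.1 * (τ.d 0).natAbs := (Nat.div_mul_cancel d0).symm
  have e1 : (τ.q 1).natAbs = τ.base.2.2 * (τ.d 0).natAbs := (Nat.div_mul_cancel d1).symm
  rw [e0, e1] at h2
  rw [h0]
  have h4 : 0 < (τ.d 0).natAbs ^ 2 := by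
    have := pl4_dne h 0
    positivity
  apply Nat.eq_of_mul_eq_mul_right h4
  rw [h2]
  ring

theorem pl4_RR1 {p : Pool.Agent.PENT.Par} {X : ℕ} {τ : Pol 5} (h : p.TS X τ) {l : ℕ}
    (hl : (l : ℤ) ∣ (RR τ).1) : l ∣ τ.base.1 := by
  have h1 : |τ.d 0| ∣ τ.q 0 := (abs_dvd _ _).2 (h.good.d1 0)
  have h2 : ((RR τ).1).natAbs = τ.base.1 := by
    have h3 : (RR τ).1 = τ.q 0 / |τ.d 0| := rfl
    have h4 : τ.base.1 = (τ.q 0).natAbs / (τ.d 0).natAbs := rfl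
    rw [h3, h4, Int.natAbs_ediv_of_dvd h1, Int.natAbs_abs]
  rw [← h2]
  exact Int.natCast_dvd.1 hl

theorem pl4_RR3 {p : Pool.Agent.PENT.Par} {X : ℕ} {τ : Pol 5} (h : p.TS X τ) {l : ℕ}
    (hl : (l : ℤ) ∣ (RR τ).2.2) : l ∣ τ.base.2.2 := by
  have h1 : |τ.d 0| ∣ τ.q 1 := (abs_dvd _ _).2 (h.good.d2 0)
  have h2 : ((RR τ).2.2).natAbs = τ.base.2.2 := by
    have h3 : (RR τ).2.2 = τ.q 1 / |τ.d 0| := rfl
    have h4 : τ.base.2.2 = (τ.q 1).natAbs / (τ.d 0).natAbs := rfl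
    rw [h3, h4, Int.natAbs_ediv_of_dvd h1, Int.natAbs_abs]
  rw [← h2]
  exact Int.natCast_dvd.1 hl

/-! ### the local inequalities -/

theorem pl4_pow_ind (l : ℕ) (x : ℤ) (t : ℝ) (n : ℕ) (h0 : 0 ≤ t) (h1 : t ≤ 1)
    (hn : (l : ℤ) ∣ x → n ≠ 0) : t ^ n ≤ Pool.Agent.PENK.ind l x t := by
  unfold Pool.Agent.PENK.ind
  split_ifs with h
  · exact pow_le_of_le_one h0 h1 (hn h)
  · exact pow_le_one₀ h0 h1

theorem pl4_pow_ite (P : Prop) [Decidable P] (t : ℝ) (n : ℕ) (h0 : 0 ≤ t) (h1 : t ≤ 1)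
    (hn : P → n ≠ 0) : t ^ n ≤ if P then t else 1 := by
  split_ifs with h
  · exact pow_le_of_le_one h0 h1 (hn h)
  · exact pow_le_one₀ h0 h1

theorem pl4_out (a b : ℝ) (α α' η η' : Fin 5 → ℕ) (a0 : 0 ≤ a) (a1 : a ≤ 1) (b0 : 0 ≤ b)
    (b1 : b ≤ 1) :
    (∏ j, (a ^ α j * b ^ η j)) * (∏ j, (a ^ α' j * b ^ η' j)) ≤ 1 := by
  have h1 : ∏ j, (a ^ α j * b ^ η j) ≤ 1 := Finset.prod_le_one (fun j _ => by positivity)
    (fun j _ => mul_le_one₀ (pow_le_one₀ a0 a1) (by positivity) (pow_le_one₀ b0 b1))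
  have h2 : ∏ j, (a ^ α' j * b ^ η' j) ≤ 1 := Finset.prod_le_one (fun j _ => by positivity)
    (fun j _ => mul_le_one₀ (pow_le_one₀ a0 a1) (by positivity) (pow_le_one₀ b0 b1))
  exact mul_le_one₀ h1 (Finset.prod_nonneg (fun j _ => by positivity)) h2

theorem pl4_A (b : ℝ) (η η' : Fin 5 → ℕ) (h0 : η' 0 = η 0) (h1 : η' 1 = η 1) :
    (∏ j : Fin 5, ((1 / 4 : ℝ) ^ (0 : ℕ) * b ^ η j)) *
      (∏ j : Fin 5, ((1 / 4 : ℝ) ^ (0 : ℕ) * b ^ η' j)) /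
      (1 / 2 : ℝ) ^ (η 0 + η 1) =
    (b ^ 2 / (1 / 2)) ^ η 0 * (b ^ 2 / (1 / 2)) ^ η 1 *
      ((b ^ η 2 * b ^ η 3 * b ^ η 4) * (b ^ η' 2 * b ^ η' 3 * b ^ η' 4)) := by
  have k : ∀ n : ℕ, (b ^ 2 / (1 / 2)) ^ n = b ^ n * b ^ n / (1 / 2 : ℝ) ^ n := by
    intro n
    rw [div_pow, ← mul_pow, ← sq]
  have e0 : ((1 / 2 : ℝ) ^ η 0) ≠ 0 := by positivity
  have e1 : ((1 / 2 : ℝ) ^ η 1) ≠ 0 := by positivity
  rw [Fin.prod_univ_five, Fin.prod_univ_five, h0, h1, pow_add, k, k]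
  simp only [pow_zero, one_mul]
  rw [div_mul_div_comm, div_mul_eq_mul_div]
  congr 1
  ring

theorem pl4_B (α α' η η' : Fin 5 → ℕ) (e0 e1 : ℕ) (h0 : η 0 + α 4 = e0) (h0' : η' 0 + α' 4 = e0)
    (h1 : η 1 + α 1 = e1) (h1' : η' 1 + α' 1 = e1) :
    (∏ j : Fin 5, ((1 / 4 : ℝ) ^ α j * (1 / 4 : ℝ) ^ η j)) *
      (∏ j : Fin 5, ((1 / 4 : ℝ) ^ α' j * (1 / 4 : ℝ) ^ η' j)) / (1 / 2 : ℝ) ^ (e0 + e1) =
    ((1 / 4 : ℝ) ^ α 0 * (1 / 4 : ℝ) ^ α 2 * (1 / 4 : ℝ) ^ α 3) *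
      ((1 / 4 : ℝ) ^ α' 0 * (1 / 4 : ℝ) ^ α' 2 * (1 / 4 : ℝ) ^ α' 3) *
      ((1 / 8 : ℝ) ^ e1 * (1 / 8 : ℝ) ^ e0) *
      (((1 / 4 : ℝ) ^ η 2 * (1 / 4 : ℝ) ^ η 3 * (1 / 4 : ℝ) ^ η 4) *
        ((1 / 4 : ℝ) ^ η' 2 * (1 / 4 : ℝ) ^ η' 3 * (1 / 4 : ℝ) ^ η' 4)) := by
  have k : ∀ e : ℕ, (1 / 4 : ℝ) ^ e * (1 / 4 : ℝ) ^ e = (1 / 8 : ℝ) ^ e * (1 / 2 : ℝ) ^ e := by
    intro e
    rw [← mul_pow, ← mul_pow]
    norm_num
  have k0 := k e0
  have k1 := k e1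
  have a0 : (1 / 4 : ℝ) ^ e0 = (1 / 4 : ℝ) ^ η 0 * (1 / 4 : ℝ) ^ α 4 := by rw [← h0, pow_add]
  have a0' : (1 / 4 : ℝ) ^ e0 = (1 / 4 : ℝ) ^ η' 0 * (1 / 4 : ℝ) ^ α' 4 := by rw [← h0', pow_add]
  have a1 : (1 / 4 : ℝ) ^ e1 = (1 / 4 : ℝ) ^ η 1 * (1 / 4 : ℝ) ^ α 1 := by rw [← h1, pow_add]
  have a1' : (1 / 4 : ℝ) ^ e1 = (1 / 4 : ℝ) ^ η' 1 * (1 / 4 : ℝ) ^ α' 1 := by rw [← h1', pow_add]
  rw [Fin.prod_univ_five, Fin.prod_univ_five, pow_add, div_eq_iff (by positivity)]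
  have b0 : ((1 / 4 : ℝ) ^ η 0 * (1 / 4 : ℝ) ^ α 4) * ((1 / 4 : ℝ) ^ η' 0 * (1 / 4 : ℝ) ^ α' 4) =
      (1 / 8 : ℝ) ^ e0 * (1 / 2 : ℝ) ^ e0 := by rw [← a0, ← a0', k0]
  have b1 : ((1 / 4 : ℝ) ^ η 1 * (1 / 4 : ℝ) ^ α 1) * ((1 / 4 : ℝ) ^ η' 1 * (1 / 4 : ℝ) ^ α' 1) =
      (1 / 8 : ℝ) ^ e1 * (1 / 2 : ℝ) ^ e1 := by rw [← a1, ← a1', k1]
  calc _ = (((1 / 4 : ℝ) ^ η 0 * (1 / 4 : ℝ) ^ α 4) * ((1 / 4 : ℝ) ^ η' 0 * (1 / 4 : ℝ) ^ α' 4)) *
        (((1 / 4 : ℝ) ^ η 1 * (1 / 4 : ℝ) ^ α 1) * ((1 / 4 : ℝ) ^ η' 1 * (1 / 4 : ℝ) ^ α' 1)) *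
        (((1 / 4 : ℝ) ^ α 0 * (1 / 4 : ℝ) ^ α 2 * (1 / 4 : ℝ) ^ α 3) *
      ((1 / 4 : ℝ) ^ α' 0 * (1 / 4 : ℝ) ^ α' 2 * (1 / 4 : ℝ) ^ α' 3) *
      (((1 / 4 : ℝ) ^ η 2 * (1 / 4 : ℝ) ^ η 3 * (1 / 4 : ℝ) ^ η 4) *
        ((1 / 4 : ℝ) ^ η' 2 * (1 / 4 : ℝ) ^ η' 3 * (1 / 4 : ℝ) ^ η' 4))) := by ring
    _ = _ := by rw [b0, b1]; ring

theorem pl4_inr : Pool.Agent.PENK.inr 5 = {0, 2, 3} := by decide

theorem pl4_ivr : Pool.Agent.PENK.ivr 5 = {2, 3, 4} := by decide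

/-- the exponents -/
theorem pl4_exp {p : Pool.Agent.PENT.Par} {X : ℕ} {τ : Pol 5} (h : p.TS X τ) (l : ℕ) :
    (τ.base.2.1 ^ 2 + 1).factorization l = (τ.base.1).factorization l +
        (τ.base.2.2).factorization l ∧
      (τ.base.1).factorization l = (τ.y 0).factorization l + ((τ.d 4).natAbs).factorization l ∧
      (τ.base.2.2).factorization l = (τ.y 1).factorization l +
        ((τ.d 1).natAbs).factorization l := by
  have hg : τ.base.1 ≠ 0 := by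
    rw [pl4_g h]; exact Nat.mul_ne_zero (pl4_yne h 0) (pl4_dne h 4)
  have hg' : τ.base.2.2 ≠ 0 := by
    rw [pl4_g' h]; exact Nat.mul_ne_zero (pl4_yne h 1) (pl4_dne h 1)
  refine ⟨?_, ?_, ?_⟩
  · rw [pl4_n h, Nat.factorization_mul hg hg', Finsupp.add_apply]
  · rw [pl4_g h, Nat.factorization_mul (pl4_yne h 0) (pl4_dne h 4), Finsupp.add_apply]
  · rw [pl4_g' h, Nat.factorization_mul (pl4_yne h 1) (pl4_dne h 1), Finsupp.add_apply]

theorem pl4_fne {m l : ℕ} (hl : l.Prime) (hm : m ≠ 0) (h : l ∣ m) : m.factorization l ≠ 0 :=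
  (hl.factorization_pos_of_dvd hm h).ne'

/-- an inner form divisible by `l` -/
theorem pl4_inner {p : Pool.Agent.PENT.Par} {X : ℕ} {τ : Pol 5} (h : p.TS X τ) {l : ℕ}
    (hl : l.Prime) (hd : ∀ j, ¬ l ∣ (τ.d j).natAbs) (k : Fin 5)
    (hk : (l : ℤ) ∣ Pool.Agent.PENK.Rf (RR τ) (Pool.Agent.PENK.cv τ.u k)) :
    (τ.y k).factorization l ≠ 0 := by
  rw [RR_cv h k] at hk
  have h1 : l ∣ (τ.q k).natAbs := by
    have h2 := Int.natCast_dvd.1 hk
    rw [Int.natAbs_mul, Int.natAbs_abs] at h2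
    rcases hl.dvd_mul.1 h2 with h3 | h3
    · exact absurd h3 (hd 0)
    · exact h3
  rw [pl4_q h k] at h1
  rcases hl.dvd_mul.1 h1 with h3 | h3
  · exact pl4_fne hl (pl4_yne h k) h3
  · rcases hl.dvd_mul.1 h3 with h4 | h4
    · exact absurd h4 (hd _)
    · exact absurd h4 (hd _)

theorem pl4_mul3 {a b c a' b' c' : ℝ} (ha : a ≤ a') (hb : b ≤ b') (hc : c ≤ c') (a0 : 0 ≤ a)
    (b0 : 0 ≤ b) (c0 : 0 ≤ c) : a * b * c ≤ a' * (b' * c') := by
  rw [mul_assoc]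
  exact mul_le_mul ha (mul_le_mul hb hc c0 (b0.trans hb)) (by positivity) (a0.trans ha)

open Classical in
/-- the local inequality at the primes `2 < l ≤ P` -/
theorem pl4_loc {p : Pool.Agent.PENT.Par} {κ : ℝ} (hκ : p.Ok κ) {X : ℕ}
    {τ τ' : Pol 5} (h : p.TS X τ) (h' : p.TS X τ') (hb : τ'.base = τ.base) {l : ℕ}
    (hl : l.Prime) (hl2 : 2 < l) (hlP : l ≤ ⌊p.Y X⌋₊) :
    (∏ j, (wd (p.Y X) l ^ ((τ.d j).natAbs).factorization l *
        wy (PP X) (p.Y X) l ^ (τ.y j).factorization l)) *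
      (∏ j, (wd (p.Y X) l ^ ((τ'.d j).natAbs).factorization l *
        wy (PP X) (p.Y X) l ^ (τ'.y j).factorization l)) /
      wn (p.Y X) l ^ (τ.base.2.1 ^ 2 + 1).factorization l ≤
    if l ∣ Pool.Agent.PENK.DD τ.u * Pool.Agent.PENK.DD τ'.u then
      Pool.Agent.PENK.th Pool.Agent.PENK.W5 ⌊p.Y X⌋₊ τ.u τ'.u l else
      Pool.Agent.PENK.phi Pool.Agent.PENK.W5 ⌊PP X⌋₊ τ.u τ'.u l (RR τ) := by
  have hY0 : 0 ≤ p.Y X := by unfold Par.Y; positivity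
  have hlY : (l : ℝ) ≤ p.Y X := (Nat.le_floor_iff hY0).1 hlP
  have hPP0 : 0 ≤ PP X := by unfold PP; positivity
  have hl2' : l ≠ 2 := by omega
  have ewd : wd (p.Y X) l = 1 / 4 := by unfold wd; rw [if_pos hlY]
  have ewn : wn (p.Y X) l = 1 / 2 := by unfold wn; rw [if_neg hl2', if_pos hlY]
  obtain ⟨x1, x2, x3⟩ := pl4_exp h l
  obtain ⟨x1', x2', x3'⟩ := pl4_exp h' l
  rw [hb] at x1' x2' x3'
  have hRR : RR τ' = RR τ := RR_eq h h' hκ.c10 hb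
  split_ifs with hdd
  · -- the primes dividing `D D'`
    have hj : (∃ j, l ∣ (τ.d j).natAbs) ∨ ∃ j, l ∣ (τ'.d j).natAbs := by
      rcases hl.dvd_mul.1 hdd with h1 | h1
      · left
        obtain ⟨j, _, hj⟩ := (Prime.dvd_finsetProd_iff hl.prime _).1 h1
        exact ⟨j, hj⟩
      · right
        obtain ⟨j, _, hj⟩ := (Prime.dvd_finsetProd_iff hl.prime _).1 h1
        exact ⟨j, hj⟩
    have hlPP : PP X < (l : ℝ) := by
      rcases hj with ⟨j, hj⟩ | ⟨j, hj⟩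
      · exact ((h.gp.dp j).2 l hl hj).2
      · exact ((h'.gp.dp j).2 l hl hj).2
    have ewy : wy (PP X) (p.Y X) l = 1 / 4 := by
      unfold wy; rw [if_neg hl2', if_neg (not_le.2 hlPP), if_pos hlY]
    rw [ewd, ewy, ewn, x1, pl4_B _ _ _ _ _ _ x2.symm x2'.symm x3.symm x3'.symm]
    unfold Pool.Agent.PENK.th Pool.Agent.PENK.thi Pool.Agent.PENK.ths
    rw [pl4_inr]
    have hm1 : (-1 : Fin 5) = 4 := by decide
    have elw : ∀ α : ℝ, Pool.Agent.PENK.lw ⌊p.Y X⌋₊ l α = α := by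
      intro α
      unfold Pool.Agent.PENK.lw
      rw [if_pos hlP]
    have c1 : Pool.Agent.PENK.W5.al 1 ^ 2 / Pool.Agent.PENK.W5.s1 = 1 / 8 := by
      unfold Pool.Agent.PENK.Wts.s1 Pool.Agent.PENK.W5; norm_num
    have c2 : Pool.Agent.PENK.W5.al 1 * Pool.Agent.PENK.W5.be 1 / Pool.Agent.PENK.W5.s1 = 1 / 8 := by
      unfold Pool.Agent.PENK.Wts.s1 Pool.Agent.PENK.W5; norm_num
    have c3 : Pool.Agent.PENK.W5.al (-1) ^ 2 / Pool.Agent.PENK.W5.s0 = 1 / 8 := by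
      unfold Pool.Agent.PENK.Wts.s0 Pool.Agent.PENK.W5; norm_num
    have c4 : Pool.Agent.PENK.W5.al (-1) * Pool.Agent.PENK.W5.be 0 / Pool.Agent.PENK.W5.s0 =
        1 / 8 := by
      unfold Pool.Agent.PENK.Wts.s0 Pool.Agent.PENK.W5; norm_num
    have c5 : ∀ j, Pool.Agent.PENK.W5.al j = 1 / 4 := fun j => rfl
    rw [c1, c2, c3, c4]
    simp only [elw, hm1, c5]
    rw [Finset.prod_insert (by decide), Finset.prod_insert (by decide), Finset.prod_singleton,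
      Finset.prod_insert (by decide), Finset.prod_insert (by decide), Finset.prod_singleton]
    have q0 : (0 : ℝ) ≤ 1 / 4 := by norm_num
    have q1 : (1 / 4 : ℝ) ≤ 1 := by norm_num
    have r0 : (0 : ℝ) ≤ 1 / 8 := by norm_num
    have r1 : (1 / 8 : ℝ) ≤ 1 := by norm_num
    have A : ∀ j, (1 / 4 : ℝ) ^ ((τ.d j).natAbs).factorization l ≤
        if l ∣ Pool.Agent.PENK.dn τ.u j then 1 / 4 else 1 := fun j =>
      pl4_pow_ite _ _ _ q0 q1 (fun hh => pl4_fne hl (pl4_dne h j) hh)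
    have A' : ∀ j, (1 / 4 : ℝ) ^ ((τ'.d j).natAbs).factorization l ≤
        if l ∣ Pool.Agent.PENK.dn τ'.u j then 1 / 4 else 1 := fun j =>
      pl4_pow_ite _ _ _ q0 q1 (fun hh => pl4_fne hl (pl4_dne h' j) hh)
    have B1 : (1 / 8 : ℝ) ^ (τ.base.2.2).factorization l ≤
        if l ∣ Pool.Agent.PENK.dn τ.u 1 ∧ l ∣ Pool.Agent.PENK.dn τ'.u 1 then 1 / 8 else
          if l ∣ Pool.Agent.PENK.dn τ.u 1 ∨ l ∣ Pool.Agent.PENK.dn τ'.u 1 then 1 / 8 else 1 := by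
      by_cases hor : l ∣ Pool.Agent.PENK.dn τ.u 1 ∨ l ∣ Pool.Agent.PENK.dn τ'.u 1
      · have hne : (τ.base.2.2).factorization l ≠ 0 := by
          rcases hor with hh | hh
          · rw [x3]
            have := pl4_fne hl (pl4_dne h 1) hh
            omega
          · rw [x3']
            have := pl4_fne hl (pl4_dne h' 1) hh
            omega
        have := pow_le_of_le_one r0 r1 hne
        split_ifs <;> exact this
      · rw [if_neg hor]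
        have := pow_le_one₀ r0 r1 (n := (τ.base.2.2).factorization l)
        split_ifs with hand
        · exact absurd (Or.inl hand.1) hor
        · exact this
    have B0 : (1 / 8 : ℝ) ^ (τ.base.1).factorization l ≤
        if l ∣ Pool.Agent.PENK.dn τ.u 4 ∧ l ∣ Pool.Agent.PENK.dn τ'.u 4 then 1 / 8 else
          if l ∣ Pool.Agent.PENK.dn τ.u 4 ∨ l ∣ Pool.Agent.PENK.dn τ'.u 4 then 1 / 8 else 1 := by
      by_cases hor : l ∣ Pool.Agent.PENK.dn τ.u 4 ∨ l ∣ Pool.Agent.PENK.dn τ'.u 4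
      · have hne : (τ.base.1).factorization l ≠ 0 := by
          rcases hor with hh | hh
          · rw [x2]
            have := pl4_fne hl (pl4_dne h 4) hh
            omega
          · rw [x2']
            have := pl4_fne hl (pl4_dne h' 4) hh
            omega
        have := pow_le_of_le_one r0 r1 hne
        split_ifs <;> exact this
      · rw [if_neg hor]
        have := pow_le_one₀ r0 r1 (n := (τ.base.1).factorization l)
        split_ifs with hand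
        · exact absurd (Or.inl hand.1) hor
        · exact this
    have C : ((1 / 4 : ℝ) ^ (τ.y 2).factorization l * (1 / 4 : ℝ) ^ (τ.y 3).factorization l *
        (1 / 4 : ℝ) ^ (τ.y 4).factorization l) * ((1 / 4 : ℝ) ^ (τ'.y 2).factorization l *
        (1 / 4 : ℝ) ^ (τ'.y 3).factorization l * (1 / 4 : ℝ) ^ (τ'.y 4).factorization l) ≤ 1 := by
      have t : ∀ n : ℕ, (1 / 4 : ℝ) ^ n ≤ 1 := fun n => pow_le_one₀ q0 q1
      have t3 : ∀ a b c : ℕ, (1 / 4 : ℝ) ^ a * (1 / 4 : ℝ) ^ b * (1 / 4 : ℝ) ^ c ≤ 1 := by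
        intro a b c
        rw [← pow_add, ← pow_add]
        exact t _
      exact mul_le_one₀ (t3 _ _ _) (by positivity) (t3 _ _ _)
    have D := pl4_mul3 (A 0) (A 2) (A 3) (by positivity) (by positivity) (by positivity)
    have D' := pl4_mul3 (A' 0) (A' 2) (A' 3) (by positivity) (by positivity) (by positivity)
    have E := mul_le_mul D D' (by positivity) (le_trans (by positivity) D)
    have F := mul_le_mul B1 B0 (by positivity) (le_trans (by positivity) B1)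
    have G := mul_le_mul E F (by positivity) (le_trans (by positivity) E)
    have H := mul_le_mul G C (by positivity) (le_trans (by positivity) G)
    rw [mul_one] at H
    exact H
  · -- the other primes
    have hd : ∀ j, ¬ l ∣ (τ.d j).natAbs := by
      intro j hj
      apply hdd
      exact Dvd.dvd.mul_right (hj.trans (Finset.dvd_prod_of_mem (fun j =>
        Pool.Agent.PENK.dn τ.u j) (Finset.mem_univ j))) _
    have hd' : ∀ j, ¬ l ∣ (τ'.d j).natAbs := by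
      intro j hj
      apply hdd
      exact Dvd.dvd.mul_left (hj.trans (Finset.dvd_prod_of_mem (fun j =>
        Pool.Agent.PENK.dn τ'.u j) (Finset.mem_univ j))) _
    have z : ∀ j, ((τ.d j).natAbs).factorization l = 0 := fun j =>
      Nat.factorization_eq_zero_of_not_dvd (hd j)
    have z' : ∀ j, ((τ'.d j).natAbs).factorization l = 0 := fun j =>
      Nat.factorization_eq_zero_of_not_dvd (hd' j)
    rw [z 4, add_zero] at x2
    rw [z' 4, add_zero] at x2'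
    rw [z 1, add_zero] at x3
    rw [z' 1, add_zero] at x3'
    have e0 : (τ'.y 0).factorization l = (τ.y 0).factorization l := by omega
    have e1 : (τ'.y 1).factorization l = (τ.y 1).factorization l := by omega
    simp only [z, z']
    rw [ewd, ewn, x1, x2, x3, pl4_A _ (fun j => (τ.y j).factorization l)
      (fun j => (τ'.y j).factorization l) e0 e1]
    -- the value of `wy`
    have key : ∃ b : ℝ, wy (PP X) (p.Y X) l = b ∧ 0 ≤ b ∧ b ≤ 1 / 2 ∧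
        Pool.Agent.PENK.W5.g0 ⌊PP X⌋₊ l = b ^ 2 / (1 / 2) ∧
        Pool.Agent.PENK.W5.g1 ⌊PP X⌋₊ l = b ^ 2 / (1 / 2) ∧
        ∀ k, Pool.Agent.PENK.W5.gi ⌊PP X⌋₊ l k = b := by
      by_cases hlP0 : (l : ℝ) ≤ PP X
      · have hfl : l ≤ ⌊PP X⌋₊ := (Nat.le_floor_iff hPP0).2 hlP0
        refine ⟨1 / 2, ?_, by norm_num, le_refl _, ?_, ?_, ?_⟩
        · unfold wy; rw [if_neg hl2', if_pos hlP0]
        · unfold Pool.Agent.PENK.Wts.g0; rw [if_pos hfl]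
          unfold Pool.Agent.PENK.W5; norm_num
        · unfold Pool.Agent.PENK.Wts.g1; rw [if_pos hfl]
          unfold Pool.Agent.PENK.W5; norm_num
        · intro k
          unfold Pool.Agent.PENK.Wts.gi; rw [if_pos hfl]
          rfl
      · have hfl : ¬ l ≤ ⌊PP X⌋₊ := fun hh => hlP0 ((Nat.le_floor_iff hPP0).1 hh)
        refine ⟨1 / 4, ?_, by norm_num, by norm_num, ?_, ?_, ?_⟩
        · unfold wy; rw [if_neg hl2', if_neg hlP0, if_pos hlY]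
        · unfold Pool.Agent.PENK.Wts.g0; rw [if_neg hfl]
          unfold Pool.Agent.PENK.Wts.s0 Pool.Agent.PENK.W5; norm_num
        · unfold Pool.Agent.PENK.Wts.g1; rw [if_neg hfl]
          unfold Pool.Agent.PENK.Wts.s1 Pool.Agent.PENK.W5; norm_num
        · intro k
          unfold Pool.Agent.PENK.Wts.gi; rw [if_neg hfl]
          rfl
    obtain ⟨b, hb1, hb0, hb2, g0, g1, gi⟩ := key
    rw [hb1]
    unfold Pool.Agent.PENK.phi
    rw [pl4_ivr, g0, g1]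
    simp only [gi]
    rw [Finset.prod_insert (by decide), Finset.prod_insert (by decide), Finset.prod_singleton,
      Finset.prod_insert (by decide), Finset.prod_insert (by decide), Finset.prod_singleton]
    have hbb : b ≤ 1 := by linarith
    have u0 : 0 ≤ b ^ 2 / (1 / 2) := by positivity
    have u1 : b ^ 2 / (1 / 2) ≤ 1 := by nlinarith
    have A0 : (b ^ 2 / (1 / 2)) ^ (τ.y 0).factorization l ≤
        Pool.Agent.PENK.ind l (RR τ).1 (b ^ 2 / (1 / 2)) := by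
      apply pl4_pow_ind _ _ _ _ u0 u1
      intro hh
      rw [← x2]
      have hg := pl4_RR1 h hh
      apply pl4_fne hl _ hg
      rw [pl4_g h]; exact Nat.mul_ne_zero (pl4_yne h 0) (pl4_dne h 4)
    have A1 : (b ^ 2 / (1 / 2)) ^ (τ.y 1).factorization l ≤
        Pool.Agent.PENK.ind l (RR τ).2.2 (b ^ 2 / (1 / 2)) := by
      apply pl4_pow_ind _ _ _ _ u0 u1
      intro hh
      rw [← x3]
      have hg := pl4_RR3 h hh
      apply pl4_fne hl _ hg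
      rw [pl4_g' h]; exact Nat.mul_ne_zero (pl4_yne h 1) (pl4_dne h 1)
    have I : ∀ k, b ^ (τ.y k).factorization l ≤ Pool.Agent.PENK.ind l
        (Pool.Agent.PENK.Rf (RR τ) (Pool.Agent.PENK.cv τ.u k)) b := fun k =>
      pl4_pow_ind _ _ _ _ hb0 hbb (pl4_inner h hl hd k)
    have I' : ∀ k, b ^ (τ'.y k).factorization l ≤ Pool.Agent.PENK.ind l
        (Pool.Agent.PENK.Rf (RR τ) (Pool.Agent.PENK.cv τ'.u k)) b := fun k => by
      rw [← hRR]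
      exact pl4_pow_ind _ _ _ _ hb0 hbb (pl4_inner h' hl hd' k)
    have D := pl4_mul3 (I 2) (I 3) (I 4) (by positivity) (by positivity) (by positivity)
    have D' := pl4_mul3 (I' 2) (I' 3) (I' 4) (by positivity) (by positivity) (by positivity)
    have E := mul_le_mul D D' (by positivity) (le_trans (by positivity) D)
    have F := mul_le_mul A0 A1 (by positivity) (le_trans (by positivity) A0)
    have G := mul_le_mul F E (by positivity) (le_trans (by positivity) F)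
    exact G

theorem pl4_wd01 (Y : ℝ) (l : ℕ) : 0 ≤ wd Y l ∧ wd Y l ≤ 1 := by
  unfold wd
  split_ifs <;> norm_num

theorem pl4_wy01 (P Y : ℝ) (l : ℕ) : 0 ≤ wy P Y l ∧ wy P Y l ≤ 1 := by
  unfold wy
  split_ifs <;> norm_num

theorem pl4_wn0 (Y : ℝ) (l : ℕ) : 0 < wn Y l := by
  unfold wn
  split_ifs <;> norm_num

theorem pl4_w {p : Pool.Agent.PENT.Par} {X : ℕ} {τ : Pol 5} (h : p.TS X τ) {N : ℕ}
    (hd : ∀ j, (τ.d j).natAbs ≤ N) (hy : ∀ j, τ.y j ≤ N) :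
    p.w X τ = ∏ l ∈ (Ioc 0 N).filter Nat.Prime,
      ∏ j, (wd (p.Y X) l ^ ((τ.d j).natAbs).factorization l *
        wy (PP X) (p.Y X) l ^ (τ.y j).factorization l) := by
  rw [Finset.prod_comm]
  unfold Par.w
  refine Finset.prod_congr rfl fun j _ => ?_
  rw [pl4_cm _ (pl4_dne h j) (hd j), pl4_cm _ (pl4_yne h j) (hy j), ← Finset.prod_mul_distrib]

theorem wt_le_pr {p : Pool.Agent.PENT.Par} {κ : ℝ} (hκ : p.Ok κ) {X : ℕ} (hX : 1 ≤ X)
    {τ τ' : Pol 5} (h : p.TS X τ) (h' : p.TS X τ') (hb : τ'.base = τ.base) :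
    p.w X τ * p.w X τ' / p.nu X τ.base ≤
      Pool.Agent.PENK.Wt Pool.Agent.PENK.W5 ⌊PP X⌋₊ ⌊p.Y X⌋₊ τ.u τ'.u (RR τ) := by
  classical
  set N : ℕ := (∑ j, (τ.d j).natAbs + ∑ j, τ.y j) + (∑ j, (τ'.d j).natAbs + ∑ j, τ'.y j) +
    ((τ.base.2.1 ^ 2 + 1) + ⌊p.Y X⌋₊) with hN
  have hle : ∀ (f : Fin 5 → ℕ) (j : Fin 5), f j ≤ ∑ j, f j := fun f j =>
    Finset.single_le_sum (fun _ _ => Nat.zero_le _) (Finset.mem_univ j)
  have n1 : ∀ j, (τ.d j).natAbs ≤ N := fun j => by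
    have := hle (fun j => (τ.d j).natAbs) j
    omega
  have n2 : ∀ j, τ.y j ≤ N := fun j => by
    have := hle (fun j => τ.y j) j
    omega
  have n3 : ∀ j, (τ'.d j).natAbs ≤ N := fun j => by
    have := hle (fun j => (τ'.d j).natAbs) j
    omega
  have n4 : ∀ j, τ'.y j ≤ N := fun j => by
    have := hle (fun j => τ'.y j) j
    omega
  have n5 : τ.base.2.1 ^ 2 + 1 ≤ N := by omega
  have n6 : ⌊p.Y X⌋₊ ≤ N := by omega
  have hnu : p.nu X τ.base = ∏ l ∈ (Ioc 0 N).filter Nat.Prime,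
      wn (p.Y X) l ^ (τ.base.2.1 ^ 2 + 1).factorization l := by
    unfold Par.nu
    exact pl4_cm _ (Nat.succ_ne_zero _) n5
  rw [pl4_w h n1 n2, pl4_w h' n3 n4, hnu, ← Finset.prod_mul_distrib, ← Finset.prod_div_distrib]
  have hsub : Pool.Agent.PENK.prs 2 ⌊p.Y X⌋₊ ⊆ (Ioc 0 N).filter Nat.Prime := by
    intro l hl
    unfold Pool.Agent.PENK.prs at hl
    rw [Finset.mem_filter, Finset.mem_Ioc] at hl ⊢
    exact ⟨⟨by omega, by omega⟩, hl.2⟩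
  have hnn : ∀ l, 0 ≤ (∏ j, (wd (p.Y X) l ^ ((τ.d j).natAbs).factorization l *
        wy (PP X) (p.Y X) l ^ (τ.y j).factorization l)) *
      (∏ j, (wd (p.Y X) l ^ ((τ'.d j).natAbs).factorization l *
        wy (PP X) (p.Y X) l ^ (τ'.y j).factorization l)) /
      wn (p.Y X) l ^ (τ.base.2.1 ^ 2 + 1).factorization l := by
    intro l
    have a := (pl4_wd01 (p.Y X) l).1
    have b := (pl4_wy01 (PP X) (p.Y X) l).1
    have c := pl4_wn0 (p.Y X) l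
    positivity
  rw [← Finset.prod_sdiff hsub]
  unfold Pool.Agent.PENK.Wt
  refine le_trans (mul_le_of_le_one_left (Finset.prod_nonneg fun l _ => hnn l)
    (Finset.prod_le_one (fun l _ => hnn l) ?_)) (Finset.prod_le_prod (fun l _ => hnn l) ?_)
  · -- the primes outside
    intro l hl
    rw [Finset.mem_sdiff, Finset.mem_filter] at hl
    have hY0 : 0 ≤ p.Y X := by unfold Par.Y; positivity
    have hwn : wn (p.Y X) l = 1 := by
      unfold wn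
      by_cases h2 : l = 2
      · rw [if_pos h2]
      · rw [if_neg h2, if_neg]
        intro hle
        apply hl.2
        unfold Pool.Agent.PENK.prs
        rw [Finset.mem_filter, Finset.mem_Ioc]
        have := hl.1.2.two_le
        exact ⟨⟨by omega, (Nat.le_floor_iff hY0).2 hle⟩, hl.1.2⟩
    rw [hwn, one_pow, div_one]
    exact pl4_out _ _ _ _ _ _ (pl4_wd01 _ l).1 (pl4_wd01 _ l).2 (pl4_wy01 _ _ l).1
      (pl4_wy01 _ _ l).2
  · intro l hl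
    unfold Pool.Agent.PENK.prs at hl
    rw [Finset.mem_filter, Finset.mem_Ioc] at hl
    have := pl4_loc hκ h h' hb hl.2 hl.1.1 hl.1.2
    convert this using 2

end Pool.Agent.PENL

namespace Pool.Agent.PENL

theorem wt_le : type_of% @wt_le_pr := @wt_le_pr

end Pool.Agent.PENL
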