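import Pool.Agent.Lib_helper18.PENKF.DefsW
import Pool.Agent.Lib_helper18.PENKF.PL2
import Pool.Agent.Lib_helper18.PENKF.PB2
import Pool.Agent.Lib_helper18.PENKF.PB3
import Pool.Agent.Lib_helper18.PENKF.PB5

set_option autoImplicit false

namespace Pool.Agent.PENL

open Finset Pool.Agent.PENT

theorem pl5_bad (τ : Pol 5) :
    Pool.Agent.PENK.bad τ.u = (τ.d 0 * τ.d 2 * τ.d 3).natAbs := by
  unfold Pool.Agent.PENK.bad
  have e : Pool.Agent.PENK.inr 5 = {0, 2, 3} := by decide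
  rw [e, Finset.prod_insert (by decide), Finset.prod_insert (by decide), Finset.prod_singleton,
    Int.natAbs_mul, Int.natAbs_mul, mul_assoc]
  rfl

theorem pl5_sqf {p : Pool.Agent.PENT.Par} {X : ℕ} {τ : Pol 5} (h : p.TS X τ) :
    Squarefree (Pool.Agent.PENK.bad τ.u) := by
  rw [pl5_bad, Int.natAbs_mul, Int.natAbs_mul]
  have s : ∀ j, Squarefree (τ.d j).natAbs := fun j => (h.gp.dp j).1
  have c : ∀ i j : Fin 5, i ≠ j → Nat.Coprime (τ.d i).natAbs (τ.d j).natAbs := fun i j hij =>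
    Int.isCoprime_iff_gcd_eq_one.1 (h.gp.cop i j hij)
  rw [Nat.squarefree_mul (Nat.Coprime.mul_left (c 0 3 (by decide)) (c 2 3 (by decide))),
    Nat.squarefree_mul (c 0 2 (by decide))]
  exact ⟨⟨s 0, s 2⟩, s 3⟩

/-- parallel lines modulo a prime -/
theorem pl5_par {p : ℕ} (hp : p.Prime) {L c d : ℤ × ℤ}
    (hL : ¬ ((p : ℤ) ∣ L.1 ∧ (p : ℤ) ∣ L.2)) (h1 : (p : ℤ) ∣ dt L c) (h2 : (p : ℤ) ∣ dt L d) :
    (p : ℤ) ∣ dt c d := by
  have hpp : Prime (p : ℤ) := Nat.prime_iff_prime_int.1 hp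
  by_contra hcon
  apply hL
  have e1 : dt c d * L.1 = dt L d * c.1 - dt L c * d.1 := by unfold dt; ring
  have e2 : dt c d * L.2 = dt L d * c.2 - dt L c * d.2 := by unfold dt; ring
  have f1 : (p : ℤ) ∣ dt c d * L.1 := by
    rw [e1]
    exact dvd_sub (Dvd.dvd.mul_right h2 _) (Dvd.dvd.mul_right h1 _)
  have f2 : (p : ℤ) ∣ dt c d * L.2 := by
    rw [e2]
    exact dvd_sub (Dvd.dvd.mul_right h2 _) (Dvd.dvd.mul_right h1 _)
  exact ⟨(hpp.dvd_or_dvd f1).resolve_left hcon, (hpp.dvd_or_dvd f2).resolve_left hcon⟩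

theorem pl5_swap {p : ℤ} {v w : ℤ × ℤ} (h : p ∣ dt v w) : p ∣ dt w v := by
  have e : dt w v = - dt v w := by unfold dt; ring
  rw [e]
  exact (dvd_neg).2 h

/-- the vector `c_3` lies on the line and is not zero -/
theorem pl5_c3 {q : Pool.Agent.PENT.Par} {X : ℕ} {τ : Pol 5} (h : q.TS X τ) (hc : 0 < q.c1)
    {p : ℕ} (hp : p.Prime) (hpb : p ∣ Pool.Agent.PENK.bad τ.u) :
    (p : ℤ) ∣ dt (Pool.Agent.PENK.Lv τ.u p) (Pool.Agent.PENK.cv τ.u 3) ∧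
      ¬ ((p : ℤ) ∣ (Pool.Agent.PENK.cv τ.u 3).1 ∧ (p : ℤ) ∣ (Pool.Agent.PENK.cv τ.u 3).2) := by
  have hpp : Prime (p : ℤ) := Nat.prime_iff_prime_int.1 hp
  have hP := (isPoly_of0_pr (δ := 0) h hc).1
  have hdvd : ∀ j : Fin 5, p ∣ Pool.Agent.PENK.dn τ.u j → (p : ℤ) ∣ dt (τ.u j) (τ.u (j + 1)) := by
    intro j hj
    exact Int.natCast_dvd.2 hj
  have hcases : p ∣ Pool.Agent.PENK.dn τ.u 0 ∨ p ∣ Pool.Agent.PENK.dn τ.u 2 ∨
      p ∣ Pool.Agent.PENK.dn τ.u 3 := by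
    unfold Pool.Agent.PENK.bad at hpb
    have e : Pool.Agent.PENK.inr 5 = {0, 2, 3} := by decide
    rw [e, Finset.prod_insert (by decide), Finset.prod_insert (by decide),
      Finset.prod_singleton] at hpb
    rcases hp.dvd_mul.1 hpb with h1 | h1
    · exact Or.inl h1
    · exact Or.inr (hp.dvd_mul.1 h1)
  have hun : ∀ {x y : ℤ}, IsCoprime x y → (p : ℤ) ∣ x → (p : ℤ) ∣ y → False := by
    intro x y hxy h1 h2
    exact hpp.not_unit (hxy.isUnit_of_dvd' h1 h2)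
  rcases hcases with h0 | h2 | h3
  · have h1 := Pool.Agent.PENK.Lv_par0 le_rfl hP hp h0 3 (by decide)
    exact ⟨h1.1, fun h4 => h1.2.1 h4.1⟩
  · have h1 := Pool.Agent.PENK.Lv_par le_rfl hP hp (j := 2) (by decide) (by decide) h2
    refine ⟨h1.2, fun h4 => ?_⟩
    have a1 : (p : ℤ) ∣ dt (τ.u 2) (τ.u 3) := hdvd 2 h2
    have a2 : (p : ℤ) ∣ dt (τ.u 3) (τ.u 1) := h4.1
    have e1 : dt (τ.u 2) (τ.u 1) * (τ.u 3).1 =
        dt (τ.u 2) (τ.u 3) * (τ.u 1).1 + dt (τ.u 3) (τ.u 1) * (τ.u 2).1 := by unfold dt; ring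
    have e2 : dt (τ.u 2) (τ.u 1) * (τ.u 3).2 =
        dt (τ.u 2) (τ.u 3) * (τ.u 1).2 + dt (τ.u 3) (τ.u 1) * (τ.u 2).2 := by unfold dt; ring
    have n1 : ¬ (p : ℤ) ∣ dt (τ.u 2) (τ.u 1) := fun h5 =>
      hun (h.gp.nice 2 1 (by decide) (by decide)) a1 h5
    have f1 : (p : ℤ) ∣ dt (τ.u 2) (τ.u 1) * (τ.u 3).1 := by
      rw [e1]
      exact dvd_add (Dvd.dvd.mul_right a1 _) (Dvd.dvd.mul_right a2 _)
    have f2 : (p : ℤ) ∣ dt (τ.u 2) (τ.u 1) * (τ.u 3).2 := by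
      rw [e2]
      exact dvd_add (Dvd.dvd.mul_right a1 _) (Dvd.dvd.mul_right a2 _)
    have g1 := (hpp.dvd_or_dvd f1).resolve_left n1
    have g2 := (hpp.dvd_or_dvd f2).resolve_left n1
    have a3 : (p : ℤ) ∣ dt (τ.u 3) (τ.u 4) := by
      unfold dt
      exact dvd_sub (Dvd.dvd.mul_right g1 _) (Dvd.dvd.mul_right g2 _)
    exact hun (h.gp.cop 2 3 (by decide)) a1 a3
  · have h1 := Pool.Agent.PENK.Lv_par le_rfl hP hp (j := 3) (by decide) (by decide) h3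
    refine ⟨h1.1, fun h4 => ?_⟩
    exact hun (h.gp.nice 3 1 (by decide) (by decide)) (hdvd 3 h3) h4.1

theorem pl5_DD {u : Pool.Agent.PENK.PolyK 5} {p : ℕ} (h : p ∣ Pool.Agent.PENK.bad u) :
    p ∣ Pool.Agent.PENK.DD u := by
  refine h.trans ?_
  unfold Pool.Agent.PENK.bad Pool.Agent.PENK.DD
  exact Finset.prod_dvd_prod_of_subset _ _ _ (Finset.subset_univ _)

/-- at the common primes the lines agree iff `c_3`, `c_3'` are parallel -/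
theorem pl5_same {q : Pool.Agent.PENT.Par} {X : ℕ} {τ τ' : Pol 5} (h : q.TS X τ) (h' : q.TS X τ')
    (hc : 0 < q.c1) {p : ℕ} (hp : p.Prime) (hpb : p ∣ Pool.Agent.PENK.bad τ.u)
    (hpb' : p ∣ Pool.Agent.PENK.bad τ'.u) :
    Pool.Agent.PENK.SameL τ.u τ'.u p ↔
      (p : ℤ) ∣ dt (Pool.Agent.PENK.cv τ.u 3) (Pool.Agent.PENK.cv τ'.u 3) := by
  obtain ⟨a1, a2⟩ := pl5_c3 h hc hp hpb
  obtain ⟨b1, b2⟩ := pl5_c3 h' hc hp hpb'
  have l1 := Pool.Agent.PENK.Lv_ne le_rfl ((isPoly_of0_pr (δ := 0) h hc).1) hp (pl5_DD hpb)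
  have l2 := Pool.Agent.PENK.Lv_ne le_rfl ((isPoly_of0_pr (δ := 0) h' hc).1) hp (pl5_DD hpb')
  unfold Pool.Agent.PENK.SameL
  constructor
  · intro h1
    -- c3 ∥ L ∥ L' ∥ c3'
    have h2 : (p : ℤ) ∣ dt (Pool.Agent.PENK.cv τ.u 3) (Pool.Agent.PENK.Lv τ'.u p) :=
      pl5_par hp l1 a1 h1
    exact pl5_par hp l2 (pl5_swap h2) b1
  · intro h1
    have h2 : (p : ℤ) ∣ dt (Pool.Agent.PENK.Lv τ.u p) (Pool.Agent.PENK.cv τ'.u 3) :=
      pl5_par hp a2 (pl5_swap a1) h1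
    exact pl5_par hp b2 (pl5_swap h2) (pl5_swap b1)

/-- BLOCK PL5 -/
theorem G_eq_pr {p : Pool.Agent.PENT.Par} {X : ℕ} {τ τ' : Pol 5} (h : p.TS X τ) (h' : p.TS X τ')
    (hc : 0 < p.c1) : Pool.Agent.PENK.Gc τ.u τ'.u = τ.G τ' := by
  classical
  have eG : τ.G τ' = Nat.gcd (Nat.gcd (Pool.Agent.PENK.bad τ.u) (Pool.Agent.PENK.bad τ'.u))
      (dt (Pool.Agent.PENK.cv τ.u 3) (Pool.Agent.PENK.cv τ'.u 3)).natAbs := by
    rw [pl5_bad, pl5_bad]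
    rfl
  set B := Nat.gcd (Pool.Agent.PENK.bad τ.u) (Pool.Agent.PENK.bad τ'.u) with hB
  set D := (dt (Pool.Agent.PENK.cv τ.u 3) (Pool.Agent.PENK.cv τ'.u 3)).natAbs with hD
  have sq1 := pl5_sqf h
  have sB : Squarefree B := sq1.squarefree_of_dvd (Nat.gcd_dvd_left _ _)
  have sG : Squarefree (Nat.gcd B D) := sB.squarefree_of_dvd (Nat.gcd_dvd_left _ _)
  have hB0 : B ≠ 0 := sB.ne_zero
  have hG0 : Nat.gcd B D ≠ 0 := sG.ne_zero
  rw [eG, ← Nat.prod_primeFactors_of_squarefree sG]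
  unfold Pool.Agent.PENK.Gc
  apply Finset.prod_congr _ (fun _ _ => rfl)
  ext l
  rw [Finset.mem_filter, Nat.mem_primeFactors_of_ne_zero hG0, ← hB,
    Nat.mem_primeFactors_of_ne_zero hB0]
  constructor
  · rintro ⟨⟨hl, hlB⟩, hs⟩
    refine ⟨hl, Nat.dvd_gcd hlB ?_⟩
    have h1 := (pl5_same h h' hc hl (hlB.trans (Nat.gcd_dvd_left _ _))
      (hlB.trans (Nat.gcd_dvd_right _ _))).1 hs
    exact Int.natCast_dvd.1 h1
  · rintro ⟨hl, hlG⟩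
    have hlB : l ∣ B := hlG.trans (Nat.gcd_dvd_left _ _)
    have hlD : l ∣ D := hlG.trans (Nat.gcd_dvd_right _ _)
    refine ⟨⟨hl, hlB⟩, ?_⟩
    exact (pl5_same h h' hc hl (hlB.trans (Nat.gcd_dvd_left _ _))
      (hlB.trans (Nat.gcd_dvd_right _ _))).2 (Int.natCast_dvd.2 hlD)

theorem same_of_pr {τ τ' : Pol 5} (h : Pool.Agent.PENK.SameD τ.u τ'.u) : τ.same τ' := by
  unfold Pol.same Pol.ch
  refine ⟨?_, ?_, ?_⟩ <;> exact Prod.ext (h _ _).symm (h _ _).symm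

end Pool.Agent.PENL

namespace Pool.Agent.PENL

theorem G_eq : type_of% @G_eq_pr := @G_eq_pr

theorem same_of : type_of% @same_of_pr := @same_of_pr

end Pool.Agent.PENL
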