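import Mathlib
import Pool.Agent.Lib_helper18.PENKF.DefsW
import Pool.Agent.Lib_helper18.PENKF.PL2
import Pool.Agent.Lib_helper18.PENKF.PL3
import Pool.Agent.Lib_helper18.PENKF.PL4

set_option autoImplicit false

namespace Pool.Agent.PENL

open Finset Pool.Agent.PENT

/-- the sum over the pairs as one sum -/
theorem pl6_sum {Tau B : Type} [DecidableEq B] (s : Finset Tau) (w : Tau → ℝ) (b : Tau → B)
    (ν : B → ℝ) (r : Tau → Tau → Prop) (Q : Finset (Tau × Tau))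
    (hQ : ∀ z : Tau × Tau, z ∈ Q ↔ z.1 ∈ s ∧ z.2 ∈ s ∧ b z.2 = b z.1 ∧ r z.1 z.2) :
    ∑ τ ∈ s, w τ * cls s w b ν r τ = ∑ z ∈ Q, w z.1 * w z.2 / ν (b z.1) := by
  classical
  have hQ' : Q = (s ×ˢ s).filter (fun z => b z.2 = b z.1 ∧ r z.1 z.2) := by
    ext z
    rw [hQ, Finset.mem_filter, Finset.mem_product]
    tauto
  rw [hQ', Finset.sum_filter, Finset.sum_product]
  refine Finset.sum_congr rfl fun τ _ => ?_
  unfold cls
  rw [Finset.sum_filter, Finset.sum_div, Finset.mul_sum]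
  refine Finset.sum_congr rfl fun τ' _ => ?_
  by_cases h : b τ' = b τ ∧ r τ τ'
  · rw [if_pos h, if_pos h]
    ring
  · rw [if_neg h, if_neg h]
    simp

theorem pairs_le_pr {p : Pool.Agent.PENT.Par} {δ κ : ℝ} (hκ : p.Ok κ) {X : ℕ} (hX : 1 ≤ X)
    (r : Pol 5 → Pol 5 → Prop) : ∃ S : Finset (Pool.Agent.PENK.Bas × Pool.Agent.PENK.PolyK 5 ×
      Pool.Agent.PENK.PolyK 5),
    (∀ s ∈ S, Pool.Agent.PENK.TripOk (qq p δ) X ⌊PP X⌋₊ s ∧ ∃ τ τ' : Pol 5, p.TS X τ ∧ p.TS X τ' ∧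
      τ.u = s.2.1 ∧ τ'.u = s.2.2 ∧ r τ τ') ∧
    p.pairs X r ≤ ∑ s ∈ S, Pool.Agent.PENK.Wt Pool.Agent.PENK.W5 ⌊PP X⌋₊ ⌊p.Y X⌋₊ s.2.1 s.2.2
      s.1 := by
  classical
  obtain ⟨Q, hQ⟩ : ∃ Q : Finset (Pol 5 × Pol 5), ∀ z : Pol 5 × Pol 5, z ∈ Q ↔
      z.1 ∈ p.T X ∧ z.2 ∈ p.T X ∧ z.2.base = z.1.base ∧ r z.1 z.2 := by
    refine ⟨((p.T X) ×ˢ (p.T X)).filter (fun z => z.2.base = z.1.base ∧ r z.1 z.2), fun z => ?_⟩
    rw [Finset.mem_filter, Finset.mem_product]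
    tauto
  have hc : 0 < p.c1 := hκ.c10
  have hinj : Set.InjOn (fun z : Pol 5 × Pol 5 => ((RR z.1, z.1.u, z.2.u) :
      Pool.Agent.PENK.Bas × Pool.Agent.PENK.PolyK 5 × Pool.Agent.PENK.PolyK 5)) (Q : Set _) := by
    intro z hz z' hz' he
    obtain ⟨h1, h2, h3, _⟩ := (hQ z).1 (Finset.mem_coe.1 hz)
    obtain ⟨k1, k2, k3, _⟩ := (hQ z').1 (Finset.mem_coe.1 hz')
    have t1 := mem_T.1 h1
    have t2 := mem_T.1 h2
    have s1 := mem_T.1 k1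
    have s2 := mem_T.1 k2
    simp only [Prod.mk.injEq] at he
    obtain ⟨e1, e2, e3⟩ := he
    have e4 := RR_eq t1 t2 hc h3
    have e5 := RR_eq s1 s2 hc k3
    refine Prod.ext ?_ ?_
    · exact RR_inj s1 t1 e1 e2
    · exact RR_inj s2 t2 (by rw [e4, e5, e1]) e3
  refine ⟨Q.image (fun z => (RR z.1, z.1.u, z.2.u)), ?_, ?_⟩
  · intro s hs
    obtain ⟨z, hz, rfl⟩ := Finset.mem_image.1 hs
    obtain ⟨h1, h2, h3, h4⟩ := (hQ z).1 hz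
    have t1 := mem_T.1 h1
    have t2 := mem_T.1 h2
    obtain ⟨a1, a2, _⟩ := isPoly_of (δ := δ) t1 hc hκ.sg1
    obtain ⟨b1, b2, _⟩ := isPoly_of (δ := δ) t2 hc hκ.sg1
    have e4 := RR_eq t1 t2 hc h3
    have o2 := over_of (δ := δ) hκ hX t2
    rw [e4] at o2
    exact ⟨⟨a1, b1, a2, b2, over_of hκ hX t1, o2⟩, z.1, z.2, t1, t2, rfl, rfl, h4⟩
  · rw [Finset.sum_image hinj]
    unfold Pool.Agent.PENT.Par.pairs
    rw [pl6_sum (p.T X) (p.w X) Pol.base (p.nu X) r Q hQ]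
    refine Finset.sum_le_sum fun z hz => ?_
    obtain ⟨h1, h2, h3, _⟩ := (hQ z).1 hz
    exact wt_le hκ hX (mem_T.1 h1) (mem_T.1 h2) h3

end Pool.Agent.PENL

namespace Pool.Agent.PENL

theorem pairs_le : type_of% @pairs_le_pr := @pairs_le_pr

end Pool.Agent.PENL
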