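import Pool.Agent.Lib_helper18.PENKF.DefsW
import Pool.Agent.Lib_helper18.PENKF.PE1
import Pool.Agent.Lib_helper18.PENKF.PH11
import Pool.Agent.Lib_helper18.PENKF.PL1
import Pool.Agent.Lib_helper18.PENKF.PL5
import Pool.Agent.Lib_helper18.PENKF.PL6
import Pool.Agent.Lib_helper18.PENKF.PL7

set_option autoImplicit false

namespace Pool.Agent.PENL

open Finset Pool.Agent.PENT

theorem pl8_at {p : Pool.Agent.PENT.Par} {κ : ℝ} (h : p.Ok κ) (t : ℝ) : (p.at' t).Ok κ :=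
  ⟨h.ep0, h.e4, h.gap, h.ek, h.c10, h.c11, h.sg1⟩

theorem pl8_pairs {p : Pool.Agent.PENT.Par} {δ κ t : ℝ} (hp : p.Ok κ) {X : ℕ} (hX : 1 ≤ X)
    (r : Pol 5 → Pol 5 → Prop) (B : ℝ)
    (Q : Pool.Agent.PENK.Bas × Pool.Agent.PENK.PolyK 5 × Pool.Agent.PENK.PolyK 5 → Prop)
    (hQ : ∀ τ τ' : Pol 5, (p.at' t).TS X τ → (p.at' t).TS X τ' → r τ τ' →
      ∀ R : Pool.Agent.PENK.Bas, Q (R, τ.u, τ'.u))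
    (h : ∀ S : Finset (Pool.Agent.PENK.Bas × Pool.Agent.PENK.PolyK 5 × Pool.Agent.PENK.PolyK 5),
      (∀ s ∈ S, Pool.Agent.PENK.TripOk (qq p δ) X ⌊PP X⌋₊ s ∧ Q s) →
      ∑ s ∈ S, Pool.Agent.PENK.Wt Pool.Agent.PENK.W5 ⌊PP X⌋₊ ⌊(X : ℝ) ^ t⌋₊ s.2.1 s.2.2 s.1 ≤ B) :
    (p.at' t).pairs X r ≤ B := by
  obtain ⟨S, hS, hle⟩ := pairs_le (p := p.at' t) (δ := δ) (pl8_at hp t) hX r
  refine hle.trans (h S ?_)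
  intro s hs
  obtain ⟨h1, τ, τ', hτ, hτ', e1, e2, hr⟩ := hS s hs
  refine ⟨h1, ?_⟩
  have h2 := hQ τ τ' hτ hτ' hr s.1
  rw [e1, e2] at h2
  exact h2

theorem pl8_log {X : ℕ} (hX : 8 ≤ X) : 2 ≤ Real.log X := by
  have h1 : Real.log 8 ≤ Real.log X :=
    Real.log_le_log (by norm_num) (by exact_mod_cast hX)
  have h2 : Real.log 8 = 3 * Real.log 2 := by
    rw [show (8 : ℝ) = 2 ^ 3 by norm_num, Real.log_pow]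
    norm_num
  have h3 := Real.log_two_gt_d9
  linarith

theorem pl8_tau {X : ℕ} (hX : 8 ≤ X) {t τ₀ : ℝ} (h : t ≤ τ₀)
    (hs : (⌊(X : ℝ) ^ t⌋₊ : ℝ) ≤ (X : ℝ) ^ t) : (⌊(X : ℝ) ^ t⌋₊ : ℝ) ≤ (X : ℝ) ^ τ₀ :=
  hs.trans (Real.rpow_le_rpow_of_exponent_le (by
    have : (8 : ℝ) ≤ X := by exact_mod_cast hX
    linarith) h)

theorem pl8_six {X : ℕ} (hX : 8 ≤ X) :
    (X : ℝ) * Real.log X ^ (-6 : ℝ) ≤ X * Real.log X ^ (-5 : ℝ) := by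
  have h1 := pl8_log hX
  refine mul_le_mul_of_nonneg_left ?_ (Nat.cast_nonneg X)
  exact Real.rpow_le_rpow_of_exponent_le (by linarith) (by norm_num)

/-- BLOCK PL8 -/
theorem off_gen_pr_pr : ∃ κ : ℝ, 0 < κ ∧ ∀ p : Pool.Agent.PENT.Par, p.Ok κ →
    ∃ t₁ : ℝ, 0 < t₁ ∧ ∀ t : ℝ, 0 < t → t ≤ t₁ → ∃ C : ℝ, ∃ X₀ : ℕ, ∀ X ≥ X₀,
      (p.at' t).pairs X (fun τ τ' => τ.G τ' = 1) ≤ C * X * Real.log X ^ (-5 : ℝ) := by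
  obtain ⟨δ, hδ0, hδ1, hE⟩ := Pool.Agent.PENK.eqq
  refine ⟨δ / 400, by positivity, ?_⟩
  intro p hp
  obtain ⟨hOk, hGap⟩ := qq_ok hδ0 hδ1 hp
  obtain ⟨τ₀, hτ0, H⟩ := Pool.Agent.PENK.gen5 (qq p δ) hOk hGap hE
  refine ⟨τ₀, hτ0, ?_⟩
  intro t ht htt
  obtain ⟨C, x₀, hC, hx0, H2⟩ := H (t / 2) (by positivity)
  obtain ⟨X₀, hX₀, hs⟩ := scales ht
  refine ⟨C, max 8 (max X₀ ⌈x₀⌉₊), ?_⟩
  intro X hX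
  have hX8 : 8 ≤ X := (le_max_left _ _).trans hX
  have hX1 : X₀ ≤ X := ((le_max_left _ _).trans (le_max_right _ _)).trans hX
  have hX2 : ⌈x₀⌉₊ ≤ X := ((le_max_right _ _).trans (le_max_right _ _)).trans hX
  have hX3 : x₀ ≤ (X : ℝ) := Nat.ceil_le.mp hX2
  obtain ⟨s1, s2, s3, s4⟩ := hs X hX1
  refine pl8_pairs (δ := δ) hp (by omega) _ _ (fun s => Pool.Agent.PENK.Gc s.2.1 s.2.2 = 1) ?_ ?_
  · intro τ τ' h h' hr R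
    show Pool.Agent.PENK.Gc τ.u τ'.u = 1
    rw [G_eq h h' hp.c10]
    exact hr
  · intro S hS
    exact H2 X hX3 ⌊PP X⌋₊ ⌊(X : ℝ) ^ t⌋₊ s1 s2 s3 (pl8_tau hX8 htt s4) S hS

theorem off_small_pr_pr : ∃ κ : ℝ, 0 < κ ∧ ∀ p : Pool.Agent.PENT.Par, p.Ok κ →
    ∃ t₁ : ℝ, 0 < t₁ ∧ ∀ t : ℝ, 0 < t → t ≤ t₁ → ∃ X₀ : ℕ, ∀ X ≥ X₀,
      (p.at' t).pairs X (fun τ τ' => 1 < τ.G τ' ∧ (τ.G τ' : ℝ) ≤ (X : ℝ) ^ (p.ep / 8)) ≤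
        X * Real.log X ^ (-5 : ℝ) := by
  obtain ⟨δ, hδ0, hδ1, hE⟩ := Pool.Agent.PENK.eqq
  refine ⟨δ / 400, by positivity, ?_⟩
  intro p hp
  obtain ⟨hOk, hGap⟩ := qq_ok hδ0 hδ1 hp
  obtain ⟨τ₀, hτ0, H⟩ := Pool.Agent.PENK.small5 (qq p δ) hOk hGap hE
  refine ⟨τ₀, hτ0, ?_⟩
  intro t ht htt
  obtain ⟨x₀, hx0, H2⟩ := H (t / 2) (by positivity)
  obtain ⟨X₀, hX₀, hs⟩ := scales ht
  refine ⟨max 8 (max X₀ ⌈x₀⌉₊), ?_⟩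
  intro X hX
  have hX8 : 8 ≤ X := (le_max_left _ _).trans hX
  have hX1 : X₀ ≤ X := ((le_max_left _ _).trans (le_max_right _ _)).trans hX
  have hX2 : ⌈x₀⌉₊ ≤ X := ((le_max_right _ _).trans (le_max_right _ _)).trans hX
  have hX3 : x₀ ≤ (X : ℝ) := Nat.ceil_le.mp hX2
  obtain ⟨s1, s2, s3, s4⟩ := hs X hX1
  refine (pl8_pairs (δ := δ) hp (by omega) _ _ (fun s => 1 < Pool.Agent.PENK.Gc s.2.1 s.2.2 ∧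
    (Pool.Agent.PENK.Gc s.2.1 s.2.2 : ℝ) ≤ (X : ℝ) ^ (p.ep / 8)) ?_ ?_).trans (pl8_six hX8)
  · intro τ τ' h h' hr R
    show 1 < Pool.Agent.PENK.Gc τ.u τ'.u ∧
      (Pool.Agent.PENK.Gc τ.u τ'.u : ℝ) ≤ (X : ℝ) ^ (p.ep / 8)
    rw [G_eq h h' hp.c10]
    exact hr
  · intro S hS
    exact H2 X hX3 ⌊PP X⌋₊ ⌊(X : ℝ) ^ t⌋₊ s1 s2 s3 (pl8_tau hX8 htt s4) S hS

theorem off_large_pr_pr : ∃ κ : ℝ, 0 < κ ∧ ∀ p : Pool.Agent.PENT.Par, p.Ok κ →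
    ∃ t₁ : ℝ, 0 < t₁ ∧ ∀ t : ℝ, 0 < t → t ≤ t₁ → ∃ X₀ : ℕ, ∀ X ≥ X₀,
      (p.at' t).pairs X (fun τ τ' => (X : ℝ) ^ (p.ep / 8) < (τ.G τ' : ℝ) ∧ ¬ τ.same τ') ≤
        X * Real.log X ^ (-5 : ℝ) := by
  obtain ⟨δ, hδ0, hδ1, hE⟩ := Pool.Agent.PENK.eqq
  refine ⟨δ / 400, by positivity, ?_⟩
  intro p hp
  obtain ⟨hOk, hGap⟩ := qq_ok hδ0 hδ1 hp
  obtain ⟨τ₀, hτ0, x₀, hx0, H2⟩ := Pool.Agent.PENK.large5 (qq p δ) hOk hGap hE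
  refine ⟨τ₀, hτ0, ?_⟩
  intro t ht htt
  obtain ⟨X₀, hX₀, hs⟩ := scales ht
  refine ⟨max 8 (max X₀ ⌈x₀⌉₊), ?_⟩
  intro X hX
  have hX8 : 8 ≤ X := (le_max_left _ _).trans hX
  have hX1 : X₀ ≤ X := ((le_max_left _ _).trans (le_max_right _ _)).trans hX
  have hX2 : ⌈x₀⌉₊ ≤ X := ((le_max_right _ _).trans (le_max_right _ _)).trans hX
  have hX3 : x₀ ≤ (X : ℝ) := Nat.ceil_le.mp hX2
  obtain ⟨s1, s2, s3, s4⟩ := hs X hX1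
  have hP2 : 2 ≤ ⌊PP X⌋₊ := by
    have h1 := pl8_log hX8
    have h2 : (2 : ℝ) ^ 60 ≤ Real.log X ^ 60 := pow_le_pow_left₀ (by norm_num) h1 60
    have h3 : (2 : ℝ) ≤ (⌊PP X⌋₊ : ℝ) := by
      refine le_trans ?_ (h2.trans s1)
      norm_num
    exact_mod_cast h3
  refine (pl8_pairs (δ := δ) hp (by omega) _ _ (fun s =>
    (X : ℝ) ^ (p.ep / 8) < (Pool.Agent.PENK.Gc s.2.1 s.2.2 : ℝ) ∧
      ¬ Pool.Agent.PENK.SameD s.2.1 s.2.2) ?_ ?_).trans (pl8_six hX8)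
  · intro τ τ' h h' hr R
    show (X : ℝ) ^ (p.ep / 8) < (Pool.Agent.PENK.Gc τ.u τ'.u : ℝ) ∧
      ¬ Pool.Agent.PENK.SameD τ.u τ'.u
    rw [G_eq h h' hp.c10]
    exact ⟨hr.1, fun hsame => hr.2 (same_of hsame)⟩
  · intro S hS
    exact H2 X hX3 ⌊PP X⌋₊ ⌊(X : ℝ) ^ t⌋₊ hP2 (by omega) (pl8_tau hX8 htt s4) S hS

end Pool.Agent.PENL

namespace Pool.Agent.PENL

theorem off_gen_pr : type_of% @off_gen_pr_pr := @off_gen_pr_pr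

theorem off_small_pr : type_of% @off_small_pr_pr := @off_small_pr_pr

theorem off_large_pr : type_of% @off_large_pr_pr := @off_large_pr_pr

end Pool.Agent.PENL
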