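import Pool.Agent.Lib_helper18.PENK11.Defs
import Pool.Agent.Lib_helper18.PENKF.DefsW
import Pool.Agent.Lib_helper18.PENKF.PF2
import Pool.Agent.Lib_helper18.PENKF.PF4
import Pool.Agent.Lib_helper18.PENKF.PF5

/-! PENK block QF1 (helper53) -/

set_option autoImplicit false

namespace Pool.Agent.PENK

open Finset Pool.Agent.PENT

/-- the estimate of the pairs -/
theorem qf1_pair {κ : ℝ} (hκ : 0 < κ) : ∃ x₀ : ℝ, 1 ≤ x₀ ∧ ∀ x ≥ x₀, ∀ (m n : ℕ),
    x ^ (4 * κ) ≤ (2 : ℝ) ^ (m + 1) → x ^ (4 * κ) ≤ (2 : ℝ) ^ (n + 1) →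
    ∀ (δ : ℤ) (S : Finset ℕ), (∀ p ∈ S, p.Prime ∧ ¬ (p : ℤ) ∣ δ) →
    EquiG (OP (2 ^ (m + 1)) (4 * 2 ^ n)) (pP δ) cg2 (L2 δ) S
      (x ^ κ) (x ^ (-(3 / 2 * κ))) := by
  obtain ⟨C, hC, hpair⟩ := pair_equi
  obtain ⟨A₀, hA₀, hcard, _⟩ := pr_card
  set M : ℝ := 2176 * C + A₀ + 2 with hM
  have hM1 : 1 ≤ M := by
    rw [hM]
    have : (0 : ℝ) ≤ A₀ := Nat.cast_nonneg _
    nlinarith
  refine ⟨M ^ (4 / κ), Real.one_le_rpow hM1 (by positivity), ?_⟩
  intro x hx m n hm hn δ S hS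
  have hx1 : 1 ≤ x := (Real.one_le_rpow hM1 (by positivity)).trans hx
  have hx0 : 0 < x := by linarith
  have hxM : M ≤ x ^ (κ / 4) := by
    have h1 : (M ^ (4 / κ)) ^ (κ / 4) ≤ x ^ (κ / 4) :=
      Real.rpow_le_rpow (by positivity) hx (by positivity)
    rw [← Real.rpow_mul (by linarith), show 4 / κ * (κ / 4) = 1 by field_simp,
      Real.rpow_one] at h1
    exact h1
  set A : ℕ := 2 ^ (m + 1) with hA
  set k : ℕ := 4 * 2 ^ n with hk
  have hA1 : 1 ≤ A := Nat.one_le_two_pow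
  have hAx : x ^ (4 * κ) ≤ (A : ℝ) := by
    rw [hA]
    push_cast
    exact hm
  have hkx : 2 * x ^ (4 * κ) ≤ (k : ℝ) := by
    rw [hk]
    push_cast
    rw [pow_succ] at hn
    linarith
  have x1 : 1 ≤ x ^ (κ / 4) := Real.one_le_rpow hx1 (by positivity)
  have hA0 : (0 : ℝ) < A := by exact_mod_cast hA1
  have hAA : (A₀ : ℝ) ≤ A := by
    have h1 : x ^ (κ / 4) ≤ x ^ (4 * κ) :=
      Real.rpow_le_rpow_of_exponent_le hx1 (by linarith)
    have h2 : (A₀ : ℝ) ≤ M := by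
      rw [hM]
      nlinarith
    linarith
  have hpr := hcard A (by exact_mod_cast hAA)
  have hlog : 1 + Real.log A ≤ 17 * (A : ℝ) ^ (1 / 16 : ℝ) := by
    have h1 := Real.log_le_rpow_div hA0.le (show (0 : ℝ) < 1 / 16 by norm_num)
    have h2 : 1 ≤ (A : ℝ) ^ (1 / 16 : ℝ) :=
      Real.one_le_rpow (by exact_mod_cast hA1) (by norm_num)
    have h3 : (A : ℝ) ^ (1 / 16 : ℝ) / (1 / 16) = 16 * (A : ℝ) ^ (1 / 16 : ℝ) := by ring
    rw [h3] at h1
    linarith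
  have hmain : 128 * C * x ^ (7 / 2 * κ) * (1 + Real.log A) ≤ A := by
    have h1 : (A : ℝ) = A ^ (15 / 16 : ℝ) * A ^ (1 / 16 : ℝ) := by
      rw [← Real.rpow_add hA0]
      norm_num
    have h2 : x ^ (7 / 2 * κ) * x ^ (κ / 4) ≤ (A : ℝ) ^ (15 / 16 : ℝ) := by
      rw [← Real.rpow_add hx0]
      calc x ^ (7 / 2 * κ + κ / 4) = (x ^ (4 * κ)) ^ (15 / 16 : ℝ) := by
            rw [← Real.rpow_mul hx0.le]
            congr 1
            ring
        _ ≤ (A : ℝ) ^ (15 / 16 : ℝ) := Real.rpow_le_rpow (by positivity) hAx (by norm_num)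
    have h3 : 2176 * C ≤ x ^ (κ / 4) := by
      refine le_trans ?_ hxM
      rw [hM]
      have : (0 : ℝ) ≤ A₀ := Nat.cast_nonneg _
      linarith
    have h0 : (0 : ℝ) ≤ x ^ (7 / 2 * κ) := by positivity
    have h8 : (0 : ℝ) ≤ (A : ℝ) ^ (1 / 16 : ℝ) := by positivity
    calc 128 * C * x ^ (7 / 2 * κ) * (1 + Real.log A)
        ≤ 128 * C * x ^ (7 / 2 * κ) * (17 * (A : ℝ) ^ (1 / 16 : ℝ)) :=
          mul_le_mul_of_nonneg_left hlog (by positivity)
      _ = (x ^ (7 / 2 * κ) * (2176 * C)) * (A : ℝ) ^ (1 / 16 : ℝ) := by ring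
      _ ≤ (x ^ (7 / 2 * κ) * x ^ (κ / 4)) * (A : ℝ) ^ (1 / 16 : ℝ) :=
          mul_le_mul_of_nonneg_right (mul_le_mul_of_nonneg_left h3 h0) h8
      _ ≤ (A : ℝ) ^ (15 / 16 : ℝ) * A ^ (1 / 16 : ℝ) := mul_le_mul_of_nonneg_right h2 h8
      _ = A := h1.symm
  intro T hTS hTQ h hper h01
  have hT : ∀ p ∈ T, p.Prime ∧ ¬ (p : ℤ) ∣ δ := fun p hp => hS p (hTS hp)
  refine (hpair A k δ T h hA1 hT hper h01).trans ?_
  set Q : ℝ := ((∏ p ∈ T, p : ℕ) : ℝ) with hQ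
  have hQ0 : 0 ≤ Q := Nat.cast_nonneg _
  have hoc : ((OP A k).card : ℝ) = (pr A).card * (2 * (k : ℝ) + 1) := by
    unfold OP
    rw [Finset.card_product, Int.card_Icc]
    have : ((k : ℤ) + 1 - -(k : ℤ)).toNat = 2 * k + 1 := by omega
    rw [this]
    push_cast
    ring
  rw [hoc]
  have hN0 : (0 : ℝ) ≤ ((pr A).card : ℝ) := Nat.cast_nonneg _
  have hk1 : (0 : ℝ) < 2 * (k : ℝ) + 1 := by positivity
  have hQ2 : Q ^ 2 ≤ x ^ (2 * κ) := by
    calc Q ^ 2 ≤ (x ^ κ) ^ 2 := pow_le_pow_left₀ hQ0 hTQ 2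
      _ = x ^ (2 * κ) := by
          rw [← Real.rpow_natCast, ← Real.rpow_mul hx0.le]
          congr 1
          push_cast
          ring
  have hxe : x ^ (-(3 / 2 * κ)) * x ^ (7 / 2 * κ) = x ^ (2 * κ) := by
    rw [← Real.rpow_add hx0]
    congr 1
    ring
  have hlog0 : 0 ≤ 1 + Real.log A := by
    have := Real.log_nonneg (show (1 : ℝ) ≤ A by exact_mod_cast hA1)
    linarith
  have t1 : C * Q ^ 2 * A * (1 + Real.log A) * (2 * k + 1) ≤
      x ^ (-(3 / 2 * κ)) / 2 * (((pr A).card : ℝ) * (2 * (k : ℝ) + 1)) := by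
    have h0 : (0 : ℝ) ≤ x ^ (-(3 / 2 * κ)) := by positivity
    calc C * Q ^ 2 * A * (1 + Real.log A) * (2 * k + 1)
        ≤ C * x ^ (2 * κ) * A * (1 + Real.log A) * (2 * k + 1) := by
          apply mul_le_mul_of_nonneg_right _ hk1.le
          apply mul_le_mul_of_nonneg_right _ hlog0
          apply mul_le_mul_of_nonneg_right _ hA0.le
          exact mul_le_mul_of_nonneg_left hQ2 hC
      _ = x ^ (-(3 / 2 * κ)) / 2 * ((A * (128 * C * x ^ (7 / 2 * κ) * (1 + Real.log A)) / 64) *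
            (2 * (k : ℝ) + 1)) := by
          rw [← hxe]
          ring
      _ ≤ x ^ (-(3 / 2 * κ)) / 2 * ((A * A / 64) * (2 * (k : ℝ) + 1)) := by
          apply mul_le_mul_of_nonneg_left _ (by positivity)
          apply mul_le_mul_of_nonneg_right _ hk1.le
          apply div_le_div_of_nonneg_right _ (by norm_num)
          exact mul_le_mul_of_nonneg_left hmain hA0.le
      _ ≤ x ^ (-(3 / 2 * κ)) / 2 * (((pr A).card : ℝ) * (2 * (k : ℝ) + 1)) := by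
          apply mul_le_mul_of_nonneg_left _ (by positivity)
          apply mul_le_mul_of_nonneg_right _ hk1.le
          refine le_trans (le_of_eq ?_) hpr
          ring
  have t2 : Q * (pr A).card ≤
      x ^ (-(3 / 2 * κ)) / 2 * (((pr A).card : ℝ) * (2 * (k : ℝ) + 1)) := by
    have h8 : Q ≤ x ^ (-(3 / 2 * κ)) / 2 * (2 * (k : ℝ) + 1) := by
      have h9 : x ^ (-(3 / 2 * κ)) * x ^ (4 * κ) = x ^ (5 / 2 * κ) := by
        rw [← Real.rpow_add hx0]
        congr 1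
        ring
      have h10 : x ^ κ ≤ x ^ (5 / 2 * κ) := Real.rpow_le_rpow_of_exponent_le hx1 (by linarith)
      have h0 : (0 : ℝ) ≤ x ^ (-(3 / 2 * κ)) := by positivity
      have h11 : x ^ (-(3 / 2 * κ)) * (2 * x ^ (4 * κ)) ≤ x ^ (-(3 / 2 * κ)) * k :=
        mul_le_mul_of_nonneg_left hkx h0
      have h12 : (0 : ℝ) ≤ x ^ (5 / 2 * κ) := by positivity
      calc Q ≤ x ^ κ := hTQ
        _ ≤ x ^ (5 / 2 * κ) := h10
        _ ≤ x ^ (-(3 / 2 * κ)) * k := by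
            have : x ^ (-(3 / 2 * κ)) * (2 * x ^ (4 * κ)) = 2 * x ^ (5 / 2 * κ) := by
              rw [← h9]; ring
            linarith
        _ ≤ x ^ (-(3 / 2 * κ)) / 2 * (2 * (k : ℝ) + 1) := by
            have : x ^ (-(3 / 2 * κ)) / 2 * (2 * (k : ℝ) + 1) =
              x ^ (-(3 / 2 * κ)) * k + x ^ (-(3 / 2 * κ)) / 2 := by ring
            rw [this]
            linarith
    calc Q * (pr A).card ≤ (x ^ (-(3 / 2 * κ)) / 2 * (2 * (k : ℝ) + 1)) * (pr A).card :=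
          mul_le_mul_of_nonneg_right h8 hN0
      _ = _ := by ring
  calc _ ≤ x ^ (-(3 / 2 * κ)) / 2 * (((pr A).card : ℝ) * (2 * (k : ℝ) + 1)) +
        x ^ (-(3 / 2 * κ)) / 2 * (((pr A).card : ℝ) * (2 * (k : ℝ) + 1)) := add_le_add t1 t2
    _ = _ := by ring

/-- the swapped law -/
theorem qf1_swap (δ : ℤ) (p : ℕ) (h : (ℤ × ℤ) × (ℤ × ℤ) → ℝ) :
    mG (L2 (-δ) p) (fun v => h (v.2, v.1)) = mG (L2 δ p) h := by
  have key : ∀ g : (ℤ × ℤ) × (ℤ × ℤ) → ℝ,
      ∑ v ∈ L2 (-δ) p, g (v.2, v.1) = ∑ v ∈ L2 δ p, g v := by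
    intro g
    have hm : ∀ (a b : ℤ × ℤ) (δ : ℤ), (a, b) ∈ L2 (-δ) p → (b, a) ∈ L2 δ p := by
      intro a b δ h
      unfold L2 at h ⊢
      rw [Finset.mem_filter, Finset.mem_product] at h ⊢
      refine ⟨⟨h.1.2, h.1.1⟩, ?_⟩
      have e : dt b a - δ = -(dt a b - -δ) := by unfold dt; ring
      show (p : ℤ) ∣ dt b a - δ
      rw [e, dvd_neg]
      exact h.2
    apply Finset.sum_nbij' (fun v => (v.2, v.1)) (fun v => (v.2, v.1))
    · rintro ⟨a, b⟩ hv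
      exact hm a b δ hv
    · rintro ⟨a, b⟩ hv
      exact hm a b (-δ) (by rw [neg_neg]; exact hv)
    · intro v _; rfl
    · intro v _; rfl
    · intro v _; rfl
  unfold mG
  rw [key h]
  congr 1
  have := key (fun _ => 1)
  rw [Finset.sum_const, Finset.sum_const, nsmul_eq_mul, nsmul_eq_mul, mul_one, mul_one] at this
  exact this

/-- an affine family of one parameter -/
theorem qf1_one {κ : ℝ} (hκ : 0 < κ) {x : ℝ} (hx : 1 ≤ x) (n : ℕ)
    (hn : x ^ (4 * κ) ≤ (2 : ℝ) ^ (n + 1)) (pol : ((ℤ × ℤ) × ℤ) → (ℤ × ℤ) × (ℤ × ℤ))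
    (f : ℤ → (ℤ × ℤ) × (ℤ × ℤ)) (hf : ∀ o, pol o = f o.2)
    (hc : ∀ (p : ℕ) (s t : ℤ), (p : ℤ) ∣ s - t → cg2 p (f s) (f t))
    (L : ℕ → Finset ((ℤ × ℤ) × (ℤ × ℤ))) (S : Finset ℕ) (hS : ∀ p ∈ S, p.Prime)
    (hL : ∀ p ∈ S, ∀ h : (ℤ × ℤ) × (ℤ × ℤ) → ℝ, (∀ v w, cg2 p v w → h v = h w) →
      mG (L p) h = (∑ t ∈ range p, h (f (t : ℤ))) / p) :
    EquiG ({((0 : ℤ), (0 : ℤ))} ×ˢ
      Icc (-((2 ^ (n + 1) : ℕ) : ℤ)) ((2 ^ (n + 1) : ℕ) : ℤ)) pol cg2 L S
      (x ^ κ) (x ^ (-(3 / 2 * κ))) := by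
  have hx0 : 0 < x := by linarith
  intro T hTS hTQ h hper h01
  have h1 := one_equi (2 ^ (n + 1)) T (fun p hp => hS p (hTS hp)) (fun p t => h p (f t))
    (fun p hp s t hst => hper p hp _ _ (hc p s t hst)) (fun p hp t => h01 p hp _)
  have e1 : ∑ o ∈ ({((0 : ℤ), (0 : ℤ))} ×ˢ
      Icc (-((2 ^ (n + 1) : ℕ) : ℤ)) ((2 ^ (n + 1) : ℕ) : ℤ)), ∏ p ∈ T, h p (pol o) =
      ∑ t ∈ Icc (-((2 ^ (n + 1) : ℕ) : ℤ)) ((2 ^ (n + 1) : ℕ) : ℤ), ∏ p ∈ T, h p (f t) := by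
    rw [Finset.sum_product, Finset.sum_singleton]
    apply Finset.sum_congr rfl
    intro t _
    apply Finset.prod_congr rfl
    intro p _
    rw [hf]
  have e2 : ((({((0 : ℤ), (0 : ℤ))} ×ˢ
      Icc (-((2 ^ (n + 1) : ℕ) : ℤ)) ((2 ^ (n + 1) : ℕ) : ℤ)) :
        Finset ((ℤ × ℤ) × ℤ)).card : ℝ) = 2 * ((2 ^ (n + 1) : ℕ) : ℝ) + 1 := by
    rw [Finset.card_product, Finset.card_singleton, Int.card_Icc]
    have : (((2 ^ (n + 1) : ℕ) : ℤ) + 1 - -((2 ^ (n + 1) : ℕ) : ℤ)).toNat =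
      2 * 2 ^ (n + 1) + 1 := by
      omega
    rw [this]
    push_cast
    ring
  rw [e1, e2, Finset.prod_congr rfl (fun p hp => hL p (hTS hp) (h p) (hper p hp))]
  refine h1.trans ?_
  refine hTQ.trans ?_
  have h9 : x ^ (-(3 / 2 * κ)) * x ^ (4 * κ) = x ^ (5 / 2 * κ) := by
    rw [← Real.rpow_add hx0]
    congr 1
    ring
  have h10 : x ^ κ ≤ x ^ (5 / 2 * κ) := Real.rpow_le_rpow_of_exponent_le hx (by linarith)
  refine h10.trans ?_
  rw [← h9]
  apply mul_le_mul_of_nonneg_left _ (by positivity)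
  push_cast
  have : (0 : ℝ) ≤ 2 ^ (n + 1) := by positivity
  linarith

theorem qf1_cast_Ico (p : ℕ) (F : ℤ → ℝ) :
    ∑ s ∈ Ico (0 : ℤ) p, F s = ∑ a ∈ range p, F (a : ℤ) := by
  symm
  apply Finset.sum_nbij' (fun a : ℕ => (a : ℤ)) (fun s : ℤ => s.toNat)
  · intro a ha
    rw [Finset.mem_range] at ha
    rw [Finset.mem_Ico]
    omega
  · intro s hs
    rw [Finset.mem_Ico] at hs
    rw [Finset.mem_range]
    omega
  · intro a _
    simp
  · intro s hs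
    rw [Finset.mem_Ico] at hs
    exact Int.toNat_of_nonneg hs.1
  · intro a _
    rfl

/-- the sum over a law which is the image of `t ∈ [0, p)` -/
theorem qf1_law {p : ℕ} (L : Finset ((ℤ × ℤ) × (ℤ × ℤ)))
    (g : ℤ → (ℤ × ℤ) × (ℤ × ℤ)) (g' : (ℤ × ℤ) × (ℤ × ℤ) → ℤ)
    (h1 : ∀ t ∈ Ico (0 : ℤ) p, g t ∈ L) (h2 : ∀ v ∈ L, g' v ∈ Ico (0 : ℤ) p)
    (h3 : ∀ t, g' (g t) = t) (h4 : ∀ v ∈ L, g (g' v) = v)
    (f : ℤ → (ℤ × ℤ) × (ℤ × ℤ)) (hfg : ∀ t, cg2 p (g t) (f t))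
    (h : (ℤ × ℤ) × (ℤ × ℤ) → ℝ) (hper : ∀ v w, cg2 p v w → h v = h w) :
    mG L h = (∑ t ∈ range p, h (f (t : ℤ))) / p := by
  have key : ∀ F : (ℤ × ℤ) × (ℤ × ℤ) → ℝ, ∑ v ∈ L, F v = ∑ t ∈ range p, F (g (t : ℤ)) := by
    intro F
    rw [← qf1_cast_Ico p (fun t => F (g t))]
    symm
    apply Finset.sum_nbij' g g' h1 h2
    · intro t _; exact h3 t
    · exact h4
    · intro t _; rfl
  unfold mG
  rw [key h]
  have := key (fun _ => 1)
  rw [Finset.sum_const, Finset.sum_const, nsmul_eq_mul, nsmul_eq_mul, mul_one, mul_one,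
    Finset.card_range] at this
  rw [this]
  congr 1
  apply Finset.sum_congr rfl
  intro t _
  exact hper _ _ (hfg _)

/-- BLOCK QF1 (uses PF2, PF4, PF5): one slot. Cases: `(none, none)` as in PF7 (`pair_equi`, sizes
`min ≥ x ^ (4κ) / 2`, `2 ^ |ia - ib| ≥ x ^ (4κ) / 2`); `(some (1,0), none)`: `b = (t, δ)`, `t` in an
interval of length `≥ x ^ (4κ)`: `one_equi`; the same for `(none, some (0,1))`; both fixed: `δ = -1`,
one element, `(0,1), (1,0)`. -/
theorem slot_equi_pr {κ : ℝ} (hκ : 0 < κ) (hκ1 : κ ≤ 1 / 10) : ∃ x₀ : ℝ, 1 ≤ x₀ ∧ ∀ x ≥ x₀,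
    ∀ (fa fb : Option (ℤ × ℤ)) (ia ib : ℕ) (δ : ℤ),
    (fa = none ∧ fb = none ∧ x ^ (4 * κ) ≤ (2 : ℝ) ^ (ia + 1) ∧ x ^ (4 * κ) ≤ (2 : ℝ) ^ (ib + 1) ∧
        x ^ (4 * κ) ≤ (2 : ℝ) ^ (max ia ib - min ia ib + 1) ∧ (2 : ℝ) ^ ia ≤ x ∧ (2 : ℝ) ^ ib ≤ x) ∨
      (fa = some (1, 0) ∧ fb = none ∧ x ^ (4 * κ) ≤ (2 : ℝ) ^ (ib + 1)) ∨
      (fa = none ∧ fb = some (0, 1) ∧ x ^ (4 * κ) ≤ (2 : ℝ) ^ (ia + 1)) ∨
      (fa = some (0, 1) ∧ fb = some (1, 0) ∧ δ = -1) →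
    ∀ S : Finset ℕ, (∀ p ∈ S, p.Prime ∧ 2 < p ∧ ¬ (p : ℤ) ∣ δ) →
    EquiG (OS fa fb ia ib) (pS fa fb ia ib δ) cg2 (LS fa fb δ) S (x ^ κ) (x ^ (-(3 / 2 * κ))) := by
  obtain ⟨x₁, hx₁, h₁⟩ := qf1_pair hκ
  refine ⟨x₁, hx₁, ?_⟩
  intro x hx fa fb ia ib δ hcase S hS
  have hx1 : 1 ≤ x := hx₁.trans hx
  have hx0 : 0 < x := by linarith
  have c1 : ∀ (p : ℕ) (v : ℤ × ℤ), cg1 p v v := fun p v => by
    unfold cg1
    simp
  rcases hcase with ⟨rfl, rfl, h1, h2, h3, h4, h5⟩ | ⟨rfl, rfl, h1⟩ | ⟨rfl, rfl, h1⟩ |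
    ⟨rfl, rfl, rfl⟩
  · -- free pair
    have hLS : ∀ p, LS none none δ p = L2 δ p := by
      intro p
      unfold LS
      apply Finset.filter_true_of_mem
      intro v _
      exact ⟨fun c hc => by simp at hc, fun c hc => by simp at hc⟩
    have hmin : x ^ (4 * κ) ≤ (2 : ℝ) ^ (min ia ib + 1) := by
      rcases min_choice ia ib with h | h <;> rw [h]
      · exact h1
      · exact h2
    by_cases hlt : ia < ib
    · intro T hTS hTQ h hper h01
      have := h₁ x hx (min ia ib) (max ia ib - min ia ib) hmin h3 δ S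
        (fun p hp => ⟨(hS p hp).1, (hS p hp).2.2⟩) T hTS hTQ h hper h01
      have e1 : ∀ o, pS none none ia ib δ o = pP δ o := by
        intro o
        simp [pS, hlt]
      simp only [e1, hLS]
      exact this
    · intro T hTS hTQ h hper h01
      have := h₁ x hx (min ia ib) (max ia ib - min ia ib) hmin h3 (-δ) S
        (fun p hp => ⟨(hS p hp).1, by rw [dvd_neg]; exact (hS p hp).2.2⟩) T hTS hTQ
        (fun p v => h p (v.2, v.1)) (fun p hp v w hvw => hper p hp _ _ ⟨hvw.2, hvw.1⟩)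
        (fun p hp v => h01 p hp _)
      have e1 : ∀ o, pS none none ia ib δ o = ((pP (-δ) o).2, (pP (-δ) o).1) := by
        intro o
        simp [pS, hlt]
      simp only [e1, hLS]
      rw [Finset.prod_congr rfl (fun p _ => (qf1_swap δ p (h p)).symm)]
      exact this
  · -- `a = (1,0)`
    refine qf1_one hκ hx1 ib h1 _ (fun t => ((1, 0), (t, δ))) (fun o => rfl) ?_ _ S
      (fun p hp => (hS p hp).1) ?_
    · intro p s t hst
      exact ⟨c1 _ _, hst, by simp⟩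
    · intro p hp h hper
      have hp2 := (hS p hp).2.1
      have hp0 : (p : ℤ) ≠ 0 := by
        have := (hS p hp).1.pos
        omega
      have hpp : (0 : ℤ) < p := by
        have := (hS p hp).1.pos
        omega
      refine qf1_law _ (fun t => ((1, 0), (t, δ % (p : ℤ)))) (fun v => v.2.1) ?_ ?_ ?_ ?_
        (fun t => ((1, 0), (t, δ))) ?_ h hper
      · intro t ht
        unfold LS L2 L1
        simp only [Finset.mem_filter, Finset.mem_product, Finset.mem_Ico] at ht ⊢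
        refine ⟨⟨⟨⟨⟨by omega, by omega⟩, ⟨by omega, by omega⟩⟩, ⟨⟨ht.1, ht.2⟩,
          ⟨Int.emod_nonneg _ hp0, Int.emod_lt_of_pos _ hpp⟩⟩⟩, ?_⟩, ?_, ?_⟩
        · unfold dt
          have := Int.dvd_sub_self_of_emod_eq (a := δ) (b := (p : ℤ)) rfl
          simp only
          have e : (1 : ℤ) * (δ % (p : ℤ)) - 0 * t - δ = δ % (p : ℤ) - δ := by ring
          rw [e]
          exact this
        · intro c hc
          simpa using hc
        · intro c hc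
          simp at hc
      · intro v hv
        unfold LS L2 L1 at hv
        simp only [Finset.mem_filter, Finset.mem_product, Finset.mem_Ico] at hv ⊢
        exact hv.1.1.2.1
      · intro t; rfl
      · intro v hv
        unfold LS L2 L1 at hv
        simp only [Finset.mem_filter, Finset.mem_product, Finset.mem_Ico] at hv
        obtain ⟨⟨⟨_, hv2⟩, hv3⟩, hv4, _⟩ := hv
        have hv5 := hv4 (1, 0) rfl
        obtain ⟨⟨a1, a2⟩, ⟨b1, b2⟩⟩ := v
        simp only [Prod.mk.injEq] at hv5 hv2 hv3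
        obtain ⟨rfl, rfl⟩ := hv5
        unfold dt at hv3
        simp only at hv3
        have e : (1 : ℤ) * b2 - 0 * b1 - δ = b2 - δ := by ring
        rw [e] at hv3
        have h6 : b2 % (p : ℤ) = δ % (p : ℤ) :=
          Int.emod_eq_emod_iff_emod_sub_eq_zero.2 (Int.emod_eq_zero_of_dvd hv3)
        have h7 : δ % (p : ℤ) = b2 := by
          rw [← h6]
          exact Int.emod_eq_of_lt hv2.2.1 hv2.2.2
        show ((1, 0), (b1, δ % (p : ℤ))) = ((1, 0), (b1, b2))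
        rw [h7]
      · intro t
        refine ⟨c1 _ _, by simp, ?_⟩
        have := Int.dvd_sub_self_of_emod_eq (a := δ) (b := (p : ℤ)) rfl
        exact this
  · -- `b = (0,1)`
    refine qf1_one hκ hx1 ia h1 _ (fun t => ((δ, t), (0, 1))) (fun o => rfl) ?_ _ S
      (fun p hp => (hS p hp).1) ?_
    · intro p s t hst
      exact ⟨⟨by simp, hst⟩, c1 _ _⟩
    · intro p hp h hper
      have hp2 := (hS p hp).2.1
      have hp0 : (p : ℤ) ≠ 0 := by
        have := (hS p hp).1.pos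
        omega
      have hpp : (0 : ℤ) < p := by
        have := (hS p hp).1.pos
        omega
      refine qf1_law _ (fun t => ((δ % (p : ℤ), t), (0, 1))) (fun v => v.1.2) ?_ ?_ ?_ ?_
        (fun t => ((δ, t), (0, 1))) ?_ h hper
      · intro t ht
        unfold LS L2 L1
        simp only [Finset.mem_filter, Finset.mem_product, Finset.mem_Ico] at ht ⊢
        refine ⟨⟨⟨⟨⟨Int.emod_nonneg _ hp0, Int.emod_lt_of_pos _ hpp⟩, ⟨ht.1, ht.2⟩⟩,
          ⟨by omega, by omega⟩, ⟨by omega, by omega⟩⟩, ?_⟩, ?_, ?_⟩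
        · unfold dt
          have := Int.dvd_sub_self_of_emod_eq (a := δ) (b := (p : ℤ)) rfl
          simp only
          have e : (δ % (p : ℤ)) * 1 - t * 0 - δ = δ % (p : ℤ) - δ := by ring
          rw [e]
          exact this
        · intro c hc
          simp at hc
        · intro c hc
          simpa using hc
      · intro v hv
        unfold LS L2 L1 at hv
        simp only [Finset.mem_filter, Finset.mem_product, Finset.mem_Ico] at hv ⊢
        exact hv.1.1.1.2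
      · intro t; rfl
      · intro v hv
        unfold LS L2 L1 at hv
        simp only [Finset.mem_filter, Finset.mem_product, Finset.mem_Ico] at hv
        obtain ⟨⟨⟨hv2, _⟩, hv3⟩, _, hv4⟩ := hv
        have hv5 := hv4 (0, 1) rfl
        obtain ⟨⟨a1, a2⟩, ⟨b1, b2⟩⟩ := v
        simp only [Prod.mk.injEq] at hv5 hv2 hv3
        obtain ⟨rfl, rfl⟩ := hv5
        unfold dt at hv3
        simp only at hv3
        have e : a1 * 1 - a2 * 0 - δ = a1 - δ := by ring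
        rw [e] at hv3
        have h6 : a1 % (p : ℤ) = δ % (p : ℤ) :=
          Int.emod_eq_emod_iff_emod_sub_eq_zero.2 (Int.emod_eq_zero_of_dvd hv3)
        have h7 : δ % (p : ℤ) = a1 := by
          rw [← h6]
          exact Int.emod_eq_of_lt hv2.1.1 hv2.1.2
        show ((δ % (p : ℤ), a2), (0, 1)) = ((a1, a2), (0, 1))
        rw [h7]
      · intro t
        refine ⟨⟨?_, by simp⟩, c1 _ _⟩
        have := Int.dvd_sub_self_of_emod_eq (a := δ) (b := (p : ℤ)) rfl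
        exact this
  · -- both fixed
    intro T hTS hTQ h hper h01
    have hLS : ∀ p ∈ T, LS (some (0, 1)) (some (1, 0)) (-1) p = {((0, 1), (1, 0))} := by
      intro p hp
      have hp2 := (hS p (hTS hp)).2.1
      ext ⟨a, b⟩
      unfold LS L2 L1
      simp only [Finset.mem_filter, Finset.mem_product, Finset.mem_Ico, Finset.mem_singleton,
        Prod.mk.injEq]
      constructor
      · rintro ⟨_, h1, h2⟩
        exact ⟨h1 _ rfl, h2 _ rfl⟩
      · rintro ⟨rfl, rfl⟩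
        refine ⟨⟨⟨⟨⟨by omega, by omega⟩, ⟨by omega, by omega⟩⟩, ⟨by omega, by omega⟩,
          ⟨by omega, by omega⟩⟩, ?_⟩, ?_, ?_⟩
        · unfold dt
          norm_num
        · intro c hc
          simpa using hc
        · intro c hc
          simpa using hc
    have e1 : ∑ o ∈ OS (some (0, 1)) (some (1, 0)) ia ib,
        ∏ p ∈ T, h p (pS (some (0, 1)) (some (1, 0)) ia ib (-1) o) =
        ∏ p ∈ T, h p ((0, 1), (1, 0)) := by
      show ∑ o ∈ ({((0, 0), 0)} : Finset ((ℤ × ℤ) × ℤ)), _ = _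
      rw [Finset.sum_singleton]
      rfl
    have e2 : ((OS (some (0, 1)) (some (1, 0)) ia ib).card : ℝ) = 1 := by
      show ((({((0, 0), 0)} : Finset ((ℤ × ℤ) × ℤ)).card : ℕ) : ℝ) = 1
      simp
    have e3 : ∀ p ∈ T, mG (LS (some (0, 1)) (some (1, 0)) (-1) p) (h p) =
        h p ((0, 1), (1, 0)) := by
      intro p hp
      rw [hLS p hp]
      unfold mG
      simp
    rw [e1, e2, Finset.prod_congr rfl e3, one_mul, sub_self, abs_zero]
    positivity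

end Pool.Agent.PENK

namespace Pool.Agent.PENK

theorem slot_equi : type_of% @slot_equi_pr := @slot_equi_pr

end Pool.Agent.PENK
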