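import Pool.Agent.Lib_helper18.PENKF.DefsQ
import Pool.Agent.Lib_helper18.PENKF.QF7
import Pool.Agent.Lib_helper18.PENKF.PF10

set_option autoImplicit false

namespace Pool.Agent.PENK

open Finset Pool.Agent.PENT

theorem qf8_neg (a b : ℤ × ℤ) : dt a b = -dt b a := by
  unfold dt
  ring

theorem qf8_ich_nonneg (a : Prop) : 0 ≤ ich a := by
  unfold ich
  split_ifs <;> norm_num

theorem qf8_fib2 {p : ℕ} (hp : p.Prime) {a : ℤ × ℤ} (ha : ¬ ((p : ℤ) ∣ a.1 ∧ (p : ℤ) ∣ a.2))
    (δ : ℤ) : ((L1 p).filter (fun b => (p : ℤ) ∣ dt b a - δ)).card = p := by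
  have h := fib_card hp ha (-δ)
  have e : (L1 p).filter (fun b => (p : ℤ) ∣ dt b a - δ) =
      (L1 p).filter (fun b => (p : ℤ) ∣ dt a b - -δ) := by
    refine Finset.filter_congr fun b _ => ?_
    rw [qf8_neg b a, ← dvd_neg]
    have e : -(-dt a b - δ) = dt a b - -δ := by ring
    rw [e]
  rw [e, h]

theorem qf8_L1 (p : ℕ) : (L1 p).card = p * p := by
  rw [L1, Finset.card_product, Int.card_Ico]
  simp

theorem qf8_eq {p : ℕ} {z y : ℤ × ℤ} (hz : z ∈ L1 p) (hy : y ∈ L1 p)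
    (q1 : (p : ℤ) ∣ z.1 - y.1) (q2 : (p : ℤ) ∣ z.2 - y.2) : z = y := by
  rw [L1, Finset.mem_product, Finset.mem_Ico, Finset.mem_Ico] at hz hy
  have r1 := Int.eq_zero_of_abs_lt_dvd q1 (by rw [abs_lt]; constructor <;> omega)
  have r2 := Int.eq_zero_of_abs_lt_dvd q2 (by rw [abs_lt]; constructor <;> omega)
  exact Prod.ext (by omega) (by omega)

/-- two linear conditions: at most one solution -/
theorem qf8_one {p : ℕ} (hp : p.Prime) {δ : ℤ} (hδ : ¬ (p : ℤ) ∣ δ) {w b : ℤ × ℤ} {c : ℤ}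
    (hw : ¬ ((p : ℤ) ∣ w.1 ∧ (p : ℤ) ∣ w.2)) (hc : c = 0 ∨ ¬ (p : ℤ) ∣ dt w b) :
    ((L1 p).filter (fun z => (p : ℤ) ∣ dt z b - δ ∧ (p : ℤ) ∣ dt z w - c)).card ≤ 1 := by
  have hpz : Prime (p : ℤ) := Nat.prime_iff_prime_int.1 hp
  by_cases hd : (p : ℤ) ∣ dt w b
  · have hc0 : c = 0 := hc.resolve_right (fun h => h hd)
    rw [Finset.filter_false_of_mem]
    · simp
    · rintro z _ ⟨h1, h2⟩
      rw [hc0, sub_zero] at h2
      have hzb : ¬ (p : ℤ) ∣ dt z b := by
        intro h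
        apply hδ
        have := dvd_sub h h1
        rwa [sub_sub_cancel] at this
      apply hw
      have e1 : dt z b * w.1 = dt w b * z.1 + dt z w * b.1 := by
        unfold dt; ring
      have e2 : dt z b * w.2 = dt w b * z.2 + dt z w * b.2 := by
        unfold dt; ring
      constructor
      · refine (hpz.dvd_or_dvd (?_ : (p : ℤ) ∣ dt z b * w.1)).resolve_left hzb
        rw [e1]
        exact dvd_add (dvd_mul_of_dvd_left hd _) (dvd_mul_of_dvd_left h2 _)
      · refine (hpz.dvd_or_dvd (?_ : (p : ℤ) ∣ dt z b * w.2)).resolve_left hzb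
        rw [e2]
        exact dvd_add (dvd_mul_of_dvd_left hd _) (dvd_mul_of_dvd_left h2 _)
  · refine Finset.card_le_one.2 fun z hz y hy => ?_
    rw [Finset.mem_filter] at hz hy
    have k1 : (p : ℤ) ∣ dt z b - dt y b := by
      have := dvd_sub hz.2.1 hy.2.1
      have e : dt z b - δ - (dt y b - δ) = dt z b - dt y b := by ring
      rwa [e] at this
    have k2 : (p : ℤ) ∣ dt z w - dt y w := by
      have := dvd_sub hz.2.2 hy.2.2
      have e : dt z w - c - (dt y w - c) = dt z w - dt y w := by ring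
      rwa [e] at this
    have e1 : dt w b * (z.1 - y.1) = (dt z b - dt y b) * w.1 - (dt z w - dt y w) * b.1 := by
      unfold dt; ring
    have e2 : dt w b * (z.2 - y.2) = (dt z b - dt y b) * w.2 - (dt z w - dt y w) * b.2 := by
      unfold dt; ring
    refine qf8_eq hz.1 hy.1 ?_ ?_
    · refine (hpz.dvd_or_dvd (?_ : (p : ℤ) ∣ dt w b * (z.1 - y.1))).resolve_left hd
      rw [e1]
      exact dvd_sub (dvd_mul_of_dvd_left k1 _) (dvd_mul_of_dvd_left k2 _)
    · refine (hpz.dvd_or_dvd (?_ : (p : ℤ) ∣ dt w b * (z.2 - y.2))).resolve_left hd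
      rw [e2]
      exact dvd_sub (dvd_mul_of_dvd_left k1 _) (dvd_mul_of_dvd_left k2 _)

/-- the slots, condition on the first vector -/
theorem qf8_ls1 {p : ℕ} (hp : p.Prime) {δ : ℤ} (hδ : ¬ (p : ℤ) ∣ δ) (fb : Option (ℤ × ℤ))
    (hfb : ∀ b, fb = some b → b ∈ L1 p ∧ ¬ ((p : ℤ) ∣ b.1 ∧ (p : ℤ) ∣ b.2)) {w : ℤ × ℤ} {c : ℤ}
    (hw : ¬ ((p : ℤ) ∣ w.1 ∧ (p : ℤ) ∣ w.2)) (hc : ∀ b, fb = some b → c = 0 ∨ ¬ (p : ℤ) ∣ dt w b) :
    p * ((LS none fb δ p).filter (fun v => (p : ℤ) ∣ dt v.1 w - c)).card ≤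
      2 * (LS none fb δ p).card := by
  have hp2 : 2 ≤ p := hp.two_le
  rcases fb with _ | b
  · have e : LS none none δ p = L2 δ p := by
      unfold LS
      refine Finset.filter_true_of_mem ?_
      intro v _
      exact ⟨fun c hc => by simp at hc, fun c hc => by simp at hc⟩
    rw [e]
    have h1 : ((L2 δ p).card : ℤ) = p * (p ^ 2 - 1) := L2_card hp hδ
    have h2 : ((L2 δ p).filter (fun v => (p : ℤ) ∣ dt v.1 w - c)).card ≤ p * p := by
      have h3 : (L2 δ p).filter (fun v => (p : ℤ) ∣ dt v.1 w - c) ⊆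
          ((L1 p).filter (fun a => (p : ℤ) ∣ dt a w - c)).biUnion
            (fun a => ((L1 p).filter (fun b => (p : ℤ) ∣ dt a b - δ)).image (fun b => (a, b))) := by
        intro v hv
        rw [Finset.mem_filter, L2, Finset.mem_filter, Finset.mem_product] at hv
        rw [Finset.mem_biUnion]
        refine ⟨v.1, Finset.mem_filter.2 ⟨hv.1.1.1, hv.2⟩, ?_⟩
        rw [Finset.mem_image]
        exact ⟨v.2, Finset.mem_filter.2 ⟨hv.1.1.2, hv.1.2⟩, rfl⟩
      refine (Finset.card_le_card h3).trans ?_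
      refine Finset.card_biUnion_le.trans ?_
      have h4 : ∀ a ∈ (L1 p).filter (fun a => (p : ℤ) ∣ dt a w - c),
          (((L1 p).filter (fun b => (p : ℤ) ∣ dt a b - δ)).image (fun b => (a, b))).card ≤ p := by
        intro a _
        refine Finset.card_image_le.trans ?_
        by_cases ha : (p : ℤ) ∣ a.1 ∧ (p : ℤ) ∣ a.2
        · rw [Finset.filter_false_of_mem]
          · simp
          · intro b _ h
            apply hδ
            have h5 : (p : ℤ) ∣ dt a b := by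
              unfold dt
              exact dvd_sub (dvd_mul_of_dvd_left ha.1 _) (dvd_mul_of_dvd_left ha.2 _)
            have := dvd_sub h5 h
            rwa [sub_sub_cancel] at this
        · rw [fib_card hp ha δ]
      refine (Finset.sum_le_sum h4).trans ?_
      rw [Finset.sum_const, qf8_fib2 hp hw c, smul_eq_mul]
    have h3 : (p : ℤ) * ((L2 δ p).filter (fun v => (p : ℤ) ∣ dt v.1 w - c)).card ≤
        2 * (L2 δ p).card := by
      rw [h1]
      have h4 : (((L2 δ p).filter (fun v => (p : ℤ) ∣ dt v.1 w - c)).card : ℤ) ≤ p * p := by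
        exact_mod_cast h2
      have h5 : (2 : ℤ) ≤ p := by exact_mod_cast hp2
      nlinarith [mul_nonneg (by linarith : (0 : ℤ) ≤ p) (sub_nonneg.2 h4),
        mul_nonneg (by linarith : (0 : ℤ) ≤ p) (mul_nonneg (sub_nonneg.2 h5) (sub_nonneg.2 h5))]
    exact_mod_cast h3
  · obtain ⟨hb1, hb0⟩ := hfb b rfl
    have k1 : ((LS none (some b) δ p).filter (fun v => (p : ℤ) ∣ dt v.1 w - c)).card ≤ 1 := by
      refine le_trans ?_ (qf8_one hp hδ hw (hc b rfl))
      refine Finset.card_le_card_of_injOn (fun v => v.1) ?_ ?_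
      · intro v hv
        have hv' := Finset.mem_coe.1 hv
        rw [Finset.mem_filter, LS, Finset.mem_filter, L2, Finset.mem_filter,
          Finset.mem_product] at hv'
        have e : v.2 = b := hv'.1.2.2 b rfl
        have h5 := hv'.1.1.2
        rw [e] at h5
        exact Finset.mem_coe.2 (Finset.mem_filter.2 ⟨hv'.1.1.1.1, h5, hv'.2⟩)
      · intro v hv v' hv' h
        have hv1 := Finset.mem_coe.1 hv
        have hv2 := Finset.mem_coe.1 hv'
        rw [Finset.mem_filter, LS, Finset.mem_filter] at hv1 hv2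
        refine Prod.ext h ?_
        rw [hv1.1.2.2 b rfl, hv2.1.2.2 b rfl]
    have k2 : p ≤ (LS none (some b) δ p).card := by
      have h5 := qf8_fib2 hp hb0 δ
      refine h5.symm.le.trans ?_
      refine Finset.card_le_card_of_injOn (fun a => (a, b)) ?_ ?_
      · intro a ha
        have ha' := Finset.mem_coe.1 ha
        rw [Finset.mem_filter] at ha'
        refine Finset.mem_coe.2 ?_
        rw [LS, Finset.mem_filter, L2, Finset.mem_filter, Finset.mem_product]
        refine ⟨⟨⟨ha'.1, hb1⟩, ha'.2⟩, fun c hc => by simp at hc, fun c hc => ?_⟩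
        simpa using hc
      · intro a _ a' _ h
        exact (Prod.ext_iff.1 h).1
    calc p * ((LS none (some b) δ p).filter (fun v => (p : ℤ) ∣ dt v.1 w - c)).card ≤ p * 1 :=
          Nat.mul_le_mul_left _ k1
      _ ≤ 2 * p := by omega
      _ ≤ _ := Nat.mul_le_mul_left _ k2

theorem qf8_swap (fa : Option (ℤ × ℤ)) (δ : ℤ) (p : ℕ) :
    LS fa none δ p = (LS none fa (-δ) p).image Prod.swap := by
  ext ⟨a, b⟩
  constructor
  · intro h
    rw [LS, Finset.mem_filter, L2, Finset.mem_filter, Finset.mem_product] at h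
    rw [Finset.mem_image]
    refine ⟨(b, a), ?_, rfl⟩
    rw [LS, Finset.mem_filter, L2, Finset.mem_filter, Finset.mem_product]
    refine ⟨⟨⟨h.1.1.2, h.1.1.1⟩, ?_⟩, fun c hc => by simp at hc, fun c hc => h.2.1 c hc⟩
    have h1 := h.1.2
    show (p : ℤ) ∣ dt b a - -δ
    rw [qf8_neg b a, ← dvd_neg]
    have e : -(-dt a b - -δ) = dt a b - δ := by ring
    rw [e]
    exact h1
  · intro h
    rw [Finset.mem_image] at h
    obtain ⟨⟨a', b'⟩, h1, h2⟩ := h
    have e1 : b' = a := (Prod.ext_iff.1 h2).1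
    have e2 : a' = b := (Prod.ext_iff.1 h2).2
    subst e1 e2
    rw [LS, Finset.mem_filter, L2, Finset.mem_filter, Finset.mem_product] at h1
    rw [LS, Finset.mem_filter, L2, Finset.mem_filter, Finset.mem_product]
    refine ⟨⟨⟨h1.1.1.2, h1.1.1.1⟩, ?_⟩, fun c hc => h1.2.2 c hc, fun c hc => by simp at hc⟩
    have h3 := h1.1.2
    show (p : ℤ) ∣ dt b' a' - δ
    rw [qf8_neg b' a', ← dvd_neg]
    have e : -(-dt a' b' - δ) = dt a' b' - -δ := by ring
    rw [e]
    exact h3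

theorem qf8_ls2 {p : ℕ} (hp : p.Prime) {δ : ℤ} (hδ : ¬ (p : ℤ) ∣ δ) (fa : Option (ℤ × ℤ))
    (hfa : ∀ b, fa = some b → b ∈ L1 p ∧ ¬ ((p : ℤ) ∣ b.1 ∧ (p : ℤ) ∣ b.2)) {w : ℤ × ℤ} {c : ℤ}
    (hw : ¬ ((p : ℤ) ∣ w.1 ∧ (p : ℤ) ∣ w.2)) (hc : ∀ b, fa = some b → c = 0 ∨ ¬ (p : ℤ) ∣ dt w b) :
    p * ((LS fa none δ p).filter (fun v => (p : ℤ) ∣ dt v.2 w - c)).card ≤
      2 * (LS fa none δ p).card := by
  have hδ' : ¬ (p : ℤ) ∣ -δ := fun h => hδ ((dvd_neg).1 h)
  have h := qf8_ls1 hp hδ' fa hfa hw hc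
  rw [qf8_swap, Finset.filter_image, Finset.card_image_of_injective _ Prod.swap_injective,
    Finset.card_image_of_injective _ Prod.swap_injective]
  exact h

/-- sums over fibres -/
theorem qf8_fibre {p : ℕ} (hp : p.Prime) (L : Finset (PolyK 11)) (B : Finset (Fin 11))
    (P : PolyK 11 → Prop) [DecidablePred P] (g : PolyK 11 → ℝ) (hg : ∀ u, 0 ≤ g u)
    (hgB : ∀ u v : PolyK 11, (∀ i, i ∉ B → u i = v i) → g u = g v)
    (H : ∀ u ∈ L, g u ≠ 0 → p * ((L.filter (fun v => ∀ i, i ∉ B → v i = u i)).filter P).card ≤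
      2 * (L.filter (fun v => ∀ i, i ∉ B → v i = u i)).card) :
    ∑ u ∈ L, g u * ich (P u) ≤ 2 / (p : ℝ) * ∑ u ∈ L, g u := by
  have hp0 : (0 : ℝ) < p := by exact_mod_cast hp.pos
  let π : PolyK 11 → PolyK 11 := fun u i => if i ∈ B then (0, 0) else u i
  have hπ : ∀ u v, π u = π v ↔ ∀ i, i ∉ B → u i = v i := by
    intro u v
    constructor
    · intro h i hi
      have := congrFun h i
      simpa [π, hi] using this
    · intro h
      funext i
      by_cases hi : i ∈ B
      · simp [π, hi]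
      · simp [π, hi, h i hi]
  rw [← Finset.sum_fiberwise_of_maps_to (s := L) (t := L.image π) (g := π)
      (fun u hu => Finset.mem_image_of_mem π hu) (fun u => g u * ich (P u)),
    ← Finset.sum_fiberwise_of_maps_to (s := L) (t := L.image π) (g := π)
      (fun u hu => Finset.mem_image_of_mem π hu) g, Finset.mul_sum]
  refine Finset.sum_le_sum fun b hb => ?_
  obtain ⟨u0, hu0, rfl⟩ := Finset.mem_image.1 hb
  have e : L.filter (fun v => π v = π u0) = L.filter (fun v => ∀ i, i ∉ B → v i = u0 i) :=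
    Finset.filter_congr fun v _ => hπ v u0
  rw [e]
  have e1 : ∑ u ∈ L.filter (fun v => ∀ i, i ∉ B → v i = u0 i), g u * ich (P u) =
      g u0 * (((L.filter (fun v => ∀ i, i ∉ B → v i = u0 i)).filter P).card : ℝ) := by
    rw [Finset.card_filter]
    push_cast
    rw [Finset.mul_sum]
    refine Finset.sum_congr rfl fun u hu => ?_
    rw [hgB u u0 (Finset.mem_filter.1 hu).2]
    unfold ich
    by_cases h : P u
    · rw [if_pos h, if_pos h]
    · rw [if_neg h, if_neg h]
  have e2 : ∑ u ∈ L.filter (fun v => ∀ i, i ∉ B → v i = u0 i), g u =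
      g u0 * ((L.filter (fun v => ∀ i, i ∉ B → v i = u0 i)).card : ℝ) := by
    rw [Finset.sum_congr rfl (fun u hu => hgB u u0 (Finset.mem_filter.1 hu).2), Finset.sum_const,
      nsmul_eq_mul, mul_comm]
  rw [e1, e2]
  by_cases h0 : g u0 = 0
  · rw [h0]
    simp
  · have h1 := H u0 hu0 h0
    have h2 : (p : ℝ) * (((L.filter (fun v => ∀ i, i ∉ B → v i = u0 i)).filter P).card : ℝ) ≤
        2 * ((L.filter (fun v => ∀ i, i ∉ B → v i = u0 i)).card : ℝ) := by
      exact_mod_cast h1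
    have h3 : (((L.filter (fun v => ∀ i, i ∉ B → v i = u0 i)).filter P).card : ℝ) ≤
        2 / (p : ℝ) * ((L.filter (fun v => ∀ i, i ∉ B → v i = u0 i)).card : ℝ) := by
      rw [div_mul_eq_mul_div, le_div_iff₀ hp0, mul_comm]
      exact h2
    calc g u0 * (((L.filter (fun v => ∀ i, i ∉ B → v i = u0 i)).filter P).card : ℝ) ≤
        g u0 * (2 / (p : ℝ) * ((L.filter (fun v => ∀ i, i ∉ B → v i = u0 i)).card : ℝ)) :=
          mul_le_mul_of_nonneg_left h3 (hg u0)
      _ = _ := by ring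

theorem qf8_fx {m j : Fin 11} {c : ℤ × ℤ} (h : fx m j = some c) : c = (0, 1) ∨ c = (1, 0) := by
  unfold fx at h
  split_ifs at h
  · left
    simpa using h.symm
  · right
    simpa using h.symm

/-- membership in the law -/
theorem qf8_mem {m : Fin 11} {δ1 δ2 : ℤ} {p : ℕ} {u : PolyK 11} : u ∈ Law11 m δ1 δ2 p ↔
    (∀ i, u i ∈ L1 p) ∧ (∀ j c, fx m j = some c → u j = c) ∧ (p : ℤ) ∣ dt (u 1) (u 2) - δ1 ∧
      (p : ℤ) ∣ dt (u 10) (u 0) - δ2 := by
  rw [Law11, Finset.mem_filter, Fintype.mem_piFinset]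
  have e1 : (1 : Fin 11) + 1 = 2 := by decide
  have e2 : (10 : Fin 11) + 1 = 0 := by decide
  unfold dl
  rw [e1, e2]

/-- a single vertex -/
theorem qf8_single {m : Fin 11} {δ1 δ2 : ℤ} {p : ℕ} (hp : p.Prime) {j : Fin 11}
    (hj : fx m j = none) (h0 : j ≠ 0) (h1 : j ≠ 1) (h2 : j ≠ 2) (h10 : j ≠ 10) {u : PolyK 11}
    (hu : u ∈ Law11 m δ1 δ2 p) {w : ℤ × ℤ} {c : ℤ} (hw : ¬ ((p : ℤ) ∣ w.1 ∧ (p : ℤ) ∣ w.2)) :
    p * (((Law11 m δ1 δ2 p).filter (fun v => ∀ i, i ∉ ({j} : Finset (Fin 11)) → v i = u i)).filter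
      (fun v => (p : ℤ) ∣ dt (v j) w - c)).card ≤
      2 * ((Law11 m δ1 δ2 p).filter (fun v => ∀ i, i ∉ ({j} : Finset (Fin 11)) → v i = u i)).card := by
  have k1 : (((Law11 m δ1 δ2 p).filter
      (fun v => ∀ i, i ∉ ({j} : Finset (Fin 11)) → v i = u i)).filter
      (fun v => (p : ℤ) ∣ dt (v j) w - c)).card ≤ p := by
    refine le_trans ?_ (qf8_fib2 hp hw c).le
    refine Finset.card_le_card_of_injOn (fun v => v j) ?_ ?_
    · intro v hv
      have hv' := Finset.mem_coe.1 hv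
      rw [Finset.mem_filter, Finset.mem_filter, qf8_mem] at hv'
      exact Finset.mem_coe.2 (Finset.mem_filter.2 ⟨hv'.1.1.1 j, hv'.2⟩)
    · intro v hv v' hv' h
      have hv1 := Finset.mem_coe.1 hv
      have hv2 := Finset.mem_coe.1 hv'
      rw [Finset.mem_filter, Finset.mem_filter] at hv1 hv2
      funext i
      by_cases hi : i = j
      · rw [hi]; exact h
      · have hi' : i ∉ ({j} : Finset (Fin 11)) := by
          rw [Finset.mem_singleton]; exact hi
        rw [hv1.1.2 i hi', hv2.1.2 i hi']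
  have k2 : p * p ≤ ((Law11 m δ1 δ2 p).filter
      (fun v => ∀ i, i ∉ ({j} : Finset (Fin 11)) → v i = u i)).card := by
    refine (qf8_L1 p).symm.le.trans ?_
    refine Finset.card_le_card_of_injOn (fun a => Function.update u j a) ?_ ?_
    · intro a ha
      have ha' := Finset.mem_coe.1 ha
      rw [qf8_mem] at hu
      refine Finset.mem_coe.2 (Finset.mem_filter.2 ⟨?_, ?_⟩)
      · show Function.update u j a ∈ Law11 m δ1 δ2 p
        rw [qf8_mem]
        refine ⟨fun i => ?_, fun i b hb => ?_, ?_, ?_⟩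
        · by_cases hi : i = j
          · rw [hi, Function.update_self]; exact ha'
          · rw [Function.update_of_ne hi]; exact hu.1 i
        · have hi : i ≠ j := by
            rintro rfl
            rw [hj] at hb
            simp at hb
          rw [Function.update_of_ne hi]
          exact hu.2.1 i b hb
        · rw [Function.update_of_ne h1.symm, Function.update_of_ne h2.symm]
          exact hu.2.2.1
        · rw [Function.update_of_ne h10.symm, Function.update_of_ne h0.symm]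
          exact hu.2.2.2
      · intro i hi
        rw [Finset.mem_singleton] at hi
        exact Function.update_of_ne hi _ _
    · intro a _ a' _ h
      have := congrFun h j
      simpa using this
  calc _ ≤ p * p := Nat.mul_le_mul_left _ k1
    _ ≤ 2 * (p * p) := by omega
    _ ≤ _ := Nat.mul_le_mul_left _ k2

/-- a pair: the fibre is a slot -/
theorem qf8_pair {m : Fin 11} {δ1 δ2 : ℤ} {p : ℕ} {i i' : Fin 11} {δ : ℤ}
    (hi : (i = 1 ∧ i' = 2 ∧ δ = δ1) ∨ (i = 10 ∧ i' = 0 ∧ δ = δ2)) {u : PolyK 11}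
    (hu : u ∈ Law11 m δ1 δ2 p) (Q : (ℤ × ℤ) × (ℤ × ℤ) → Prop) [DecidablePred Q] :
    (((Law11 m δ1 δ2 p).filter (fun v => ∀ k, k ∉ ({i, i'} : Finset (Fin 11)) → v k = u k)).filter
      (fun v => Q (v i, v i'))).card ≤ ((LS (fx m i) (fx m i') δ p).filter Q).card ∧
    (LS (fx m i) (fx m i') δ p).card ≤ ((Law11 m δ1 δ2 p).filter
      (fun v => ∀ k, k ∉ ({i, i'} : Finset (Fin 11)) → v k = u k)).card := by
  have hne : i ≠ i' := by
    rcases hi with ⟨h1, h2, -⟩ | ⟨h1, h2, -⟩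
    · rw [h1, h2]; decide
    · rw [h1, h2]; decide
  constructor
  · refine Finset.card_le_card_of_injOn (fun v => (v i, v i')) ?_ ?_
    · intro v hv
      have hv' := Finset.mem_coe.1 hv
      rw [Finset.mem_filter, Finset.mem_filter, qf8_mem] at hv'
      refine Finset.mem_coe.2 (Finset.mem_filter.2 ⟨?_, hv'.2⟩)
      rw [LS, Finset.mem_filter, L2, Finset.mem_filter, Finset.mem_product]
      refine ⟨⟨⟨hv'.1.1.1 i, hv'.1.1.1 i'⟩, ?_⟩, hv'.1.1.2.1 i, hv'.1.1.2.1 i'⟩
      rcases hi with ⟨h1, h2, h3⟩ | ⟨h1, h2, h3⟩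
      · rw [h1, h2, h3]; exact hv'.1.1.2.2.1
      · rw [h1, h2, h3]; exact hv'.1.1.2.2.2
    · intro v hv v' hv' h
      have hv1 := Finset.mem_coe.1 hv
      have hv2 := Finset.mem_coe.1 hv'
      rw [Finset.mem_filter, Finset.mem_filter] at hv1 hv2
      funext k
      by_cases hk : k = i
      · rw [hk]; exact (Prod.ext_iff.1 h).1
      · by_cases hk' : k = i'
        · rw [hk']; exact (Prod.ext_iff.1 h).2
        · have hk2 : k ∉ ({i, i'} : Finset (Fin 11)) := by
            rw [Finset.mem_insert, Finset.mem_singleton]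
            rintro (h | h)
            · exact hk h
            · exact hk' h
          rw [hv1.1.2 k hk2, hv2.1.2 k hk2]
  · refine Finset.card_le_card_of_injOn
      (fun a => Function.update (Function.update u i a.1) i' a.2) ?_ ?_
    · intro a ha
      have ha' := Finset.mem_coe.1 ha
      rw [LS, Finset.mem_filter, L2, Finset.mem_filter, Finset.mem_product] at ha'
      rw [qf8_mem] at hu
      have ei : Function.update (Function.update u i a.1) i' a.2 i = a.1 := by
        rw [Function.update_of_ne hne, Function.update_self]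
      have ei' : Function.update (Function.update u i a.1) i' a.2 i' = a.2 := by
        rw [Function.update_self]
      have ek : ∀ k, k ≠ i → k ≠ i' →
          Function.update (Function.update u i a.1) i' a.2 k = u k := by
        intro k h1 h2
        rw [Function.update_of_ne h2, Function.update_of_ne h1]
      refine Finset.mem_coe.2 (Finset.mem_filter.2 ⟨?_, ?_⟩)
      · show Function.update (Function.update u i a.1) i' a.2 ∈ Law11 m δ1 δ2 p
        rw [qf8_mem]
        refine ⟨fun k => ?_, fun k b hb => ?_, ?_, ?_⟩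
        · by_cases hk : k = i
          · rw [hk]; show Function.update (Function.update u i a.1) i' a.2 i ∈ L1 p
            rw [ei]; exact ha'.1.1.1
          · by_cases hk' : k = i'
            · rw [hk']; show Function.update (Function.update u i a.1) i' a.2 i' ∈ L1 p
              rw [ei']; exact ha'.1.1.2
            · show Function.update (Function.update u i a.1) i' a.2 k ∈ L1 p
              rw [ek k hk hk']; exact hu.1 k
        · by_cases hk : k = i
          · rw [hk] at hb ⊢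
            show Function.update (Function.update u i a.1) i' a.2 i = b
            rw [ei]; exact ha'.2.1 b hb
          · by_cases hk' : k = i'
            · rw [hk'] at hb ⊢
              show Function.update (Function.update u i a.1) i' a.2 i' = b
              rw [ei']; exact ha'.2.2 b hb
            · show Function.update (Function.update u i a.1) i' a.2 k = b
              rw [ek k hk hk']; exact hu.2.1 k b hb
        · rcases hi with ⟨h1, h2, h3⟩ | ⟨h1, h2, h3⟩
          · have e1 := ei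
            have e2 := ei'
            rw [h1, h2] at e1 e2
            rw [h1, h2]
            show (p : ℤ) ∣ dt (Function.update (Function.update u 1 a.1) 2 a.2 1)
              (Function.update (Function.update u 1 a.1) 2 a.2 2) - δ1
            rw [e1, e2, ← h3]
            exact ha'.1.2
          · show (p : ℤ) ∣ dt (Function.update (Function.update u i a.1) i' a.2 1)
              (Function.update (Function.update u i a.1) i' a.2 2) - δ1
            rw [ek 1 (by rw [h1]; decide) (by rw [h2]; decide),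
              ek 2 (by rw [h1]; decide) (by rw [h2]; decide)]
            exact hu.2.2.1
        · rcases hi with ⟨h1, h2, h3⟩ | ⟨h1, h2, h3⟩
          · show (p : ℤ) ∣ dt (Function.update (Function.update u i a.1) i' a.2 10)
              (Function.update (Function.update u i a.1) i' a.2 0) - δ2
            rw [ek 10 (by rw [h1]; decide) (by rw [h2]; decide),
              ek 0 (by rw [h1]; decide) (by rw [h2]; decide)]
            exact hu.2.2.2
          · have e1 := ei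
            have e2 := ei'
            rw [h1, h2] at e1 e2
            rw [h1, h2]
            show (p : ℤ) ∣ dt (Function.update (Function.update u 10 a.1) 0 a.2 10)
              (Function.update (Function.update u 10 a.1) 0 a.2 0) - δ2
            rw [e1, e2, ← h3]
            exact ha'.1.2
      · intro k hk
        rw [Finset.mem_insert, Finset.mem_singleton, not_or] at hk
        exact ek k hk.1 hk.2
    · intro a _ a' _ h
      have e1 := congrFun h i
      have e2 := congrFun h i'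
      simp only [Function.update_self, Function.update_of_ne hne] at e1 e2
      exact Prod.ext e1 e2

theorem qf8_fxL {m j : Fin 11} {p : ℕ} (hp : p.Prime) {b : ℤ × ℤ} (h : fx m j = some b) :
    b ∈ L1 p ∧ ¬ ((p : ℤ) ∣ b.1 ∧ (p : ℤ) ∣ b.2) := by
  have h2 : (1 : ℤ) < p := by exact_mod_cast hp.one_lt
  have h1 : ¬ (p : ℤ) ∣ 1 := by
    intro h
    have := Int.le_of_dvd one_pos h
    omega
  rcases qf8_fx h with rfl | rfl
  · refine ⟨?_, fun h => h1 h.2⟩
    rw [L1, Finset.mem_product, Finset.mem_Ico, Finset.mem_Ico]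
    exact ⟨⟨le_refl _, by show (0 : ℤ) < p; omega⟩, ⟨by norm_num, h2⟩⟩
  · refine ⟨?_, fun h => h1 h.1⟩
    rw [L1, Finset.mem_product, Finset.mem_Ico, Finset.mem_Ico]
    exact ⟨⟨by norm_num, h2⟩, ⟨le_refl _, by show (0 : ℤ) < p; omega⟩⟩

/-- the general form -/
theorem qf8_gen {p : ℕ} (hp : p.Prime) {m : Fin 11} {δ1 δ2 : ℤ}
    (h1 : ¬ (p : ℤ) ∣ δ1) (h2' : ¬ (p : ℤ) ∣ δ2) (j : Fin 11) (hj : fx m j = none)
    (w : PolyK 11 → ℤ × ℤ) (c : PolyK 11 → ℤ) (g : PolyK 11 → ℝ)
    (hw : ∀ u v : PolyK 11, (∀ i, i ∉ blk j → u i = v i) → w u = w v ∧ c u = c v ∧ g u = g v)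
    (hg : ∀ u, 0 ≤ g u)
    (hf : ∀ u ∈ Law11 m δ1 δ2 p, g u ≠ 0 → ∀ i ∈ blk j, fx m i ≠ none →
      c u = 0 ∨ ¬ (p : ℤ) ∣ dt (w u) (u i)) :
    mL (Law11 m δ1 δ2 p) (fun u => g u * ich (¬ ((p : ℤ) ∣ (w u).1 ∧ (p : ℤ) ∣ (w u).2) ∧
      (p : ℤ) ∣ dt (u j) (w u) - c u)) ≤ 2 / (p : ℝ) * mL (Law11 m δ1 δ2 p) g := by
  unfold mL
  rw [← mul_div_assoc]
  refine div_le_div_of_nonneg_right ?_ (Nat.cast_nonneg _)
  refine qf8_fibre hp (Law11 m δ1 δ2 p) (blk j) (fun u => ¬ ((p : ℤ) ∣ (w u).1 ∧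
    (p : ℤ) ∣ (w u).2) ∧ (p : ℤ) ∣ dt (u j) (w u) - c u) g hg (fun u v h => (hw u v h).2.2) ?_
  intro u hu hgu
  by_cases hwu : (p : ℤ) ∣ (w u).1 ∧ (p : ℤ) ∣ (w u).2
  · rw [Finset.filter_false_of_mem]
    · simp
    · rintro v hv ⟨h3, -⟩
      rw [(hw v u (Finset.mem_filter.1 hv).2).1] at h3
      exact h3 hwu
  have e : ((Law11 m δ1 δ2 p).filter (fun v => ∀ i, i ∉ blk j → v i = u i)).filter
      (fun u => ¬ ((p : ℤ) ∣ (w u).1 ∧ (p : ℤ) ∣ (w u).2) ∧ (p : ℤ) ∣ dt (u j) (w u) - c u) =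
      ((Law11 m δ1 δ2 p).filter (fun v => ∀ i, i ∉ blk j → v i = u i)).filter
      (fun v => (p : ℤ) ∣ dt (v j) (w u) - c u) := by
    refine Finset.filter_congr fun v hv => ?_
    obtain ⟨e1, e2, -⟩ := hw v u (Finset.mem_filter.1 hv).2
    rw [e1, e2]
    exact ⟨fun h => h.2, fun h => ⟨hwu, h⟩⟩
  rw [e]
  have hfix := (qf8_mem.1 hu).2.1
  by_cases j0 : j = 0
  · have eb : blk j = {10, 0} := by rw [j0]; decide
    rw [eb]
    obtain ⟨k1, k2⟩ := qf8_pair (m := m) (i := 10) (i' := 0) (δ := δ2)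
      (Or.inr ⟨rfl, rfl, rfl⟩) hu (fun v => (p : ℤ) ∣ dt v.2 (w u) - c u)
    rw [j0] at hj ⊢
    rw [hj] at k1 k2
    have k3 := qf8_ls2 hp h2' (fx m 10) (fun b hb => qf8_fxL hp hb) (c := c u) hwu (fun b hb => by
      have k4 := hf u hu hgu 10 (by rw [j0]; decide) (by rw [hb]; simp)
      rwa [hfix 10 b hb] at k4)
    exact (Nat.mul_le_mul_left _ k1).trans (k3.trans (Nat.mul_le_mul_left _ k2))
  by_cases j10 : j = 10
  · have eb : blk j = {10, 0} := by rw [j10]; decide
    rw [eb]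
    obtain ⟨k1, k2⟩ := qf8_pair (m := m) (i := 10) (i' := 0) (δ := δ2)
      (Or.inr ⟨rfl, rfl, rfl⟩) hu (fun v => (p : ℤ) ∣ dt v.1 (w u) - c u)
    rw [j10] at hj ⊢
    rw [hj] at k1 k2
    have k3 := qf8_ls1 hp h2' (fx m 0) (fun b hb => qf8_fxL hp hb) (c := c u) hwu (fun b hb => by
      have k4 := hf u hu hgu 0 (by rw [j10]; decide) (by rw [hb]; simp)
      rwa [hfix 0 b hb] at k4)
    exact (Nat.mul_le_mul_left _ k1).trans (k3.trans (Nat.mul_le_mul_left _ k2))
  by_cases j1 : j = 1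
  · have eb : blk j = {1, 2} := by rw [j1]; decide
    rw [eb]
    obtain ⟨k1, k2⟩ := qf8_pair (m := m) (i := 1) (i' := 2) (δ := δ1)
      (Or.inl ⟨rfl, rfl, rfl⟩) hu (fun v => (p : ℤ) ∣ dt v.1 (w u) - c u)
    rw [j1] at hj ⊢
    rw [hj] at k1 k2
    have k3 := qf8_ls1 hp h1 (fx m 2) (fun b hb => qf8_fxL hp hb) (c := c u) hwu (fun b hb => by
      have k4 := hf u hu hgu 2 (by rw [j1]; decide) (by rw [hb]; simp)
      rwa [hfix 2 b hb] at k4)
    exact (Nat.mul_le_mul_left _ k1).trans (k3.trans (Nat.mul_le_mul_left _ k2))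
  by_cases j2 : j = 2
  · have eb : blk j = {1, 2} := by rw [j2]; decide
    rw [eb]
    obtain ⟨k1, k2⟩ := qf8_pair (m := m) (i := 1) (i' := 2) (δ := δ1)
      (Or.inl ⟨rfl, rfl, rfl⟩) hu (fun v => (p : ℤ) ∣ dt v.2 (w u) - c u)
    rw [j2] at hj ⊢
    rw [hj] at k1 k2
    have k3 := qf8_ls2 hp h1 (fx m 1) (fun b hb => qf8_fxL hp hb) (c := c u) hwu (fun b hb => by
      have k4 := hf u hu hgu 1 (by rw [j2]; decide) (by rw [hb]; simp)
      rwa [hfix 1 b hb] at k4)
    exact (Nat.mul_le_mul_left _ k1).trans (k3.trans (Nat.mul_le_mul_left _ k2))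
  have eb : blk j = {j} := by
    unfold blk
    rw [if_neg (by rintro (h | h); exacts [j1 h, j2 h]), if_neg (by rintro (h | h); exacts [j10 h, j0 h])]
  rw [eb]
  exact qf8_single hp hj j0 j1 j2 j10 hu hwu

theorem par_le_pr {p : ℕ} (hp : p.Prime) (h2 : 2 < p) {m : Fin 11} {δ1 δ2 : ℤ} (hd : dOk m δ1 δ2)
    (h1 : ¬ (p : ℤ) ∣ δ1) (h2' : ¬ (p : ℤ) ∣ δ2) (j : Fin 11) (hj : fx m j = none)
    (w : PolyK 11 → ℤ × ℤ) (g : PolyK 11 → ℝ)
    (hw : ∀ u v : PolyK 11, (∀ i, i ∉ blk j → u i = v i) → w u = w v ∧ g u = g v)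
    (hg : ∀ u, 0 ≤ g u) :
    mL (Law11 m δ1 δ2 p) (fun u => g u * ich (¬ ((p : ℤ) ∣ (w u).1 ∧ (p : ℤ) ∣ (w u).2) ∧
      (p : ℤ) ∣ dt (u j) (w u))) ≤ 2 / (p : ℝ) * mL (Law11 m δ1 δ2 p) g := by
  have h := qf8_gen hp h1 h2' j hj w (fun _ => 0) g
    (fun u v huv => ⟨(hw u v huv).1, rfl, (hw u v huv).2⟩) hg (fun _ _ _ _ _ _ => Or.inl rfl)
  simp only [sub_zero] at h
  exact h

theorem aff_le_pr {p : ℕ} (hp : p.Prime) (h2 : 2 < p) {m : Fin 11} {δ1 δ2 : ℤ} (hd : dOk m δ1 δ2)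
    (h1 : ¬ (p : ℤ) ∣ δ1) (h2' : ¬ (p : ℤ) ∣ δ2) (j : Fin 11) (hj : fx m j = none)
    (w : PolyK 11 → ℤ × ℤ) (c : PolyK 11 → ℤ) (g : PolyK 11 → ℝ)
    (hw : ∀ u v : PolyK 11, (∀ i, i ∉ blk j → u i = v i) → w u = w v ∧ c u = c v ∧ g u = g v)
    (hg : ∀ u, 0 ≤ g u)
    (hf : ∀ u ∈ Law11 m δ1 δ2 p, g u ≠ 0 → ∀ i ∈ blk j, fx m i ≠ none →
      ¬ (p : ℤ) ∣ dt (w u) (u i)) :
    mL (Law11 m δ1 δ2 p) (fun u => g u * ich (¬ ((p : ℤ) ∣ (w u).1 ∧ (p : ℤ) ∣ (w u).2) ∧
      (p : ℤ) ∣ dt (u j) (w u) - c u)) ≤ 2 / (p : ℝ) * mL (Law11 m δ1 δ2 p) g :=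
  qf8_gen hp h1 h2' j hj w c g hw hg (fun u hu hgu i hi hfi => Or.inr (hf u hu hgu i hi hfi))

end Pool.Agent.PENK

namespace Pool.Agent.PENK

theorem par_le : type_of% @par_le_pr := @par_le_pr

theorem aff_le : type_of% @aff_le_pr := @aff_le_pr

end Pool.Agent.PENK
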