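import Pool.Agent.Lib_helper18.PENK11.Defs
import Pool.Agent.Lib_helper18.PENKF.DefsQ
import Pool.Agent.Lib_helper18.PENKF.QF7
import Pool.Agent.Lib_helper18.PENKF.PF10

/-! PENK block QF9 (helper83) -/

set_option autoImplicit false

namespace Pool.Agent.PENK

open Finset Pool.Agent.PENT

/-- averaging over a block of coordinates -/
theorem qf9_avg {X Y : Type} (Λ : Finset X) (V : Finset Y) (put : X → Y → X) (get : X → Y)
    (h1 : ∀ u ∈ Λ, ∀ v ∈ V, put u v ∈ Λ) (h2 : ∀ u ∈ Λ, get u ∈ V)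
    (h3 : ∀ u v, put (put u v) (get u) = u) (h4 : ∀ u v, get (put u v) = v) (G : X → ℝ) :
    ∑ u ∈ Λ, ∑ v ∈ V, G (put u v) = V.card * ∑ u ∈ Λ, G u := by
  have e1 : (V.card : ℝ) * ∑ u ∈ Λ, G u = ∑ x ∈ Λ ×ˢ V, G x.1 := by
    rw [Finset.sum_product, Finset.mul_sum]
    apply Finset.sum_congr rfl
    intro u _
    show (V.card : ℝ) * G u = ∑ _y ∈ V, G u
    rw [Finset.sum_const, nsmul_eq_mul]
  rw [e1, ← Finset.sum_product' (f := fun u v => G (put u v))]
  apply Finset.sum_nbij' (fun x => (put x.1 x.2, get x.1)) (fun x => (put x.1 x.2, get x.1))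
  · intro x hx
    rw [Finset.mem_product] at hx ⊢
    exact ⟨h1 _ hx.1 _ hx.2, h2 _ hx.1⟩
  · intro x hx
    rw [Finset.mem_product] at hx ⊢
    exact ⟨h1 _ hx.1 _ hx.2, h2 _ hx.1⟩
  · rintro ⟨u, v⟩ _
    simp only [h3, h4]
  · rintro ⟨u, v⟩ _
    simp only [h3, h4]
  · rintro ⟨u, v⟩ _
    rfl

theorem qf9_ge_gen {Y : Type} {p : ℕ} (Λ : Finset (PolyK 11)) (V : Finset Y)
    (put : PolyK 11 → Y → PolyK 11) (get : PolyK 11 → Y)
    (h1 : ∀ u ∈ Λ, ∀ v ∈ V, put u v ∈ Λ) (h2 : ∀ u ∈ Λ, get u ∈ V)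
    (h3 : ∀ u v, put (put u v) (get u) = u) (h4 : ∀ u v, get (put u v) = v)
    (hV : 0 < V.card) (j : Fin 11) (w : PolyK 11 → ℤ × ℤ) (hw : ∀ u v, w (put u v) = w u)
    (hc : ∀ (u : PolyK 11) (W : ℤ × ℤ), ¬ ((p : ℤ) ∣ W.1 ∧ (p : ℤ) ∣ W.2) →
      (V.card : ℝ) / ((p : ℝ) + 1) ≤ ∑ v ∈ V, ich ((p : ℤ) ∣ dt (put u v j) W)) :
    1 / ((p : ℝ) + 1) * mL Λ (fun u => ich (¬ ((p : ℤ) ∣ (w u).1 ∧ (p : ℤ) ∣ (w u).2))) ≤
      mL Λ (fun u => ich ((p : ℤ) ∣ dt (u j) (w u))) := by
  unfold mL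
  rw [← mul_div_assoc]
  apply div_le_div_of_nonneg_right _ (Nat.cast_nonneg _)
  have hV' : (0 : ℝ) < V.card := by exact_mod_cast hV
  have e1 := qf9_avg Λ V put get h1 h2 h3 h4 (fun u => ich ((p : ℤ) ∣ dt (u j) (w u)))
  have e2 : ∑ u ∈ Λ, (V.card : ℝ) / ((p : ℝ) + 1) *
      ich (¬ ((p : ℤ) ∣ (w u).1 ∧ (p : ℤ) ∣ (w u).2)) ≤
      ∑ u ∈ Λ, ∑ v ∈ V, ich ((p : ℤ) ∣ dt (put u v j) (w (put u v))) := by
    apply Finset.sum_le_sum
    intro u _
    simp only [hw]
    by_cases h : (p : ℤ) ∣ (w u).1 ∧ (p : ℤ) ∣ (w u).2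
    · have : ich (¬ ((p : ℤ) ∣ (w u).1 ∧ (p : ℤ) ∣ (w u).2)) = 0 := by
        unfold ich
        rw [if_neg (not_not.2 h)]
      rw [this, mul_zero]
      apply Finset.sum_nonneg
      intro v _
      unfold ich
      split_ifs <;> norm_num
    · have : ich (¬ ((p : ℤ) ∣ (w u).1 ∧ (p : ℤ) ∣ (w u).2)) = 1 := by
        unfold ich
        rw [if_pos h]
      rw [this, mul_one]
      exact hc u (w u) h
  rw [e1, ← Finset.mul_sum] at e2
  have e3 : (V.card : ℝ) * (1 / ((p : ℝ) + 1) *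
      ∑ u ∈ Λ, ich (¬ ((p : ℤ) ∣ (w u).1 ∧ (p : ℤ) ∣ (w u).2))) ≤
      V.card * ∑ u ∈ Λ, ich ((p : ℤ) ∣ dt (u j) (w u)) := by
    refine le_trans (le_of_eq ?_) e2
    ring
  exact le_of_mul_le_mul_left e3 hV'

theorem qf9_L1_card (p : ℕ) : (L1 p).card = p ^ 2 := by
  unfold L1
  rw [Finset.card_product, Int.card_Ico, sub_zero, Int.toNat_natCast, pow_two]

theorem qf9_ich_sum {Y : Type} (V : Finset Y) (P : Y → Prop) [DecidablePred P] :
    ∑ v ∈ V, ich (P v) = ((V.filter P).card : ℝ) := by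
  classical
  rw [Finset.card_filter]
  push_cast
  apply Finset.sum_congr rfl
  intro v _
  unfold ich
  by_cases h : P v
  · rw [if_pos h, if_pos h]
  · rw [if_neg h, if_neg h]

theorem qf9_swap (a b : ℤ × ℤ) (p : ℕ) : ((p : ℤ) ∣ dt a b) ↔ ((p : ℤ) ∣ dt b a - 0) := by
  have : dt b a - 0 = -dt a b := by unfold dt; ring
  rw [this, dvd_neg]

/-- the vectors parallel to `W` -/
theorem qf9_par_card {p : ℕ} (hp : p.Prime) {W : ℤ × ℤ}
    (hW : ¬ ((p : ℤ) ∣ W.1 ∧ (p : ℤ) ∣ W.2)) :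
    ((L1 p).filter (fun a => (p : ℤ) ∣ dt a W)).card = p := by
  refine Eq.trans ?_ (fib_card hp hW 0)
  congr 1
  apply Finset.filter_congr
  intro a _
  exact qf9_swap a W p

theorem qf9_zero_of_dvd {p : ℕ} {a : ℤ × ℤ} (ha : a ∈ L1 p) (h1 : (p : ℤ) ∣ a.1)
    (h2 : (p : ℤ) ∣ a.2) : a = (0, 0) := by
  unfold L1 at ha
  rw [Finset.mem_product, Finset.mem_Ico, Finset.mem_Ico] at ha
  have e1 := Int.eq_zero_of_dvd_of_nonneg_of_lt ha.1.1 ha.1.2 h1
  have e2 := Int.eq_zero_of_dvd_of_nonneg_of_lt ha.2.1 ha.2.2 h2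
  exact Prod.ext e1 e2

/-- the pairs with first vector parallel to `W` -/
theorem qf9_pair1 {p : ℕ} (hp : p.Prime) {δ : ℤ} (hδ : ¬ (p : ℤ) ∣ δ) {W : ℤ × ℤ}
    (hW : ¬ ((p : ℤ) ∣ W.1 ∧ (p : ℤ) ∣ W.2)) :
    (p : ℝ) * (p - 1) ≤ (((L2 δ p).filter (fun v => (p : ℤ) ∣ dt v.1 W)).card : ℝ) := by
  classical
  set A := ((L1 p).filter (fun a => (p : ℤ) ∣ dt a W)).erase (0, 0) with hA
  have hAc : p - 1 ≤ A.card := by
    rw [hA]
    have := Finset.pred_card_le_card_erase (s := (L1 p).filter (fun a => (p : ℤ) ∣ dt a W))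
      (a := ((0, 0) : ℤ × ℤ))
    rw [qf9_par_card hp hW] at this
    exact this
  have hsub : A.sigma (fun a => (L1 p).filter (fun b => (p : ℤ) ∣ dt a b - δ)) ⊆
      ((L2 δ p).filter (fun v => (p : ℤ) ∣ dt v.1 W)).map
        ⟨fun v => (⟨v.1, v.2⟩ : Σ _ : ℤ × ℤ, ℤ × ℤ), fun v w h => by
          obtain ⟨a, b⟩ := v
          obtain ⟨c, d⟩ := w
          simpa using h⟩ := by
    rintro ⟨a, b⟩ h
    rw [Finset.mem_sigma] at h
    obtain ⟨h1, h2⟩ := h
    simp only [hA, Finset.mem_erase, Finset.mem_filter] at h1 h2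
    rw [Finset.mem_map]
    refine ⟨(a, b), ?_, rfl⟩
    unfold L2
    rw [Finset.mem_filter, Finset.mem_filter, Finset.mem_product]
    exact ⟨⟨⟨h1.2.1, h2.1⟩, h2.2⟩, h1.2.2⟩
  have hcard := Finset.card_le_card hsub
  rw [Finset.card_map, Finset.card_sigma] at hcard
  have hfib : ∀ a ∈ A, ((L1 p).filter (fun b => (p : ℤ) ∣ dt a b - δ)).card = p := by
    intro a ha
    simp only [hA, Finset.mem_erase, Finset.mem_filter] at ha
    exact fib_card hp (fun h => ha.1 (qf9_zero_of_dvd ha.2.1 h.1 h.2)) δ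
  rw [Finset.sum_congr rfl hfib, Finset.sum_const, smul_eq_mul] at hcard
  have h3 : (p - 1) * p ≤ ((L2 δ p).filter (fun v => (p : ℤ) ∣ dt v.1 W)).card :=
    (Nat.mul_le_mul_right p hAc).trans hcard
  have h4 : (((p - 1) * p : ℕ) : ℝ) ≤
      (((L2 δ p).filter (fun v => (p : ℤ) ∣ dt v.1 W)).card : ℝ) := by exact_mod_cast h3
  rw [Nat.cast_mul, Nat.cast_sub hp.one_le, Nat.cast_one] at h4
  linarith

/-- the pairs with second vector parallel to `W` -/
theorem qf9_pair2 {p : ℕ} (hp : p.Prime) {δ : ℤ} (hδ : ¬ (p : ℤ) ∣ δ) {W : ℤ × ℤ}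
    (hW : ¬ ((p : ℤ) ∣ W.1 ∧ (p : ℤ) ∣ W.2)) :
    (p : ℝ) * (p - 1) ≤ (((L2 δ p).filter (fun v => (p : ℤ) ∣ dt v.2 W)).card : ℝ) := by
  have h1 := qf9_pair1 hp (δ := -δ) (fun h => hδ ((dvd_neg).1 h)) hW
  refine h1.trans (le_of_eq ?_)
  congr 1
  apply Finset.card_nbij' (fun v => (v.2, v.1)) (fun v => (v.2, v.1))
  · intro v hv
    unfold L2 at hv ⊢
    rw [Finset.mem_coe, Finset.mem_filter, Finset.mem_filter, Finset.mem_product] at hv ⊢
    refine ⟨⟨⟨hv.1.1.2, hv.1.1.1⟩, ?_⟩, hv.2⟩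
    have : dt v.2 v.1 - δ = -(dt v.1 v.2 - -δ) := by unfold dt; ring
    rw [this, dvd_neg]
    exact hv.1.2
  · intro v hv
    unfold L2 at hv ⊢
    rw [Finset.mem_coe, Finset.mem_filter, Finset.mem_filter, Finset.mem_product] at hv ⊢
    refine ⟨⟨⟨hv.1.1.2, hv.1.1.1⟩, ?_⟩, hv.2⟩
    have : dt v.2 v.1 - -δ = -(dt v.1 v.2 - δ) := by unfold dt; ring
    rw [this, dvd_neg]
    exact hv.1.2
  · intro v _
    rfl
  · intro v _
    rfl

theorem qf9_L2_card {p : ℕ} (hp : p.Prime) {δ : ℤ} (hδ : ¬ (p : ℤ) ∣ δ) :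
    ((L2 δ p).card : ℝ) = p * ((p : ℝ) ^ 2 - 1) := by
  have := L2_card hp hδ
  exact_mod_cast congrArg (Int.cast : ℤ → ℝ) this

theorem qf9_L2_pos {p : ℕ} (hp : p.Prime) {δ : ℤ} (hδ : ¬ (p : ℤ) ∣ δ) :
    0 < (L2 δ p).card := by
  have h1 := qf9_L2_card hp hδ
  have h2 : (2 : ℝ) ≤ p := by exact_mod_cast hp.two_le
  have h3 : (0 : ℝ) < (L2 δ p).card := by
    rw [h1]
    apply mul_pos (by linarith)
    nlinarith
  exact_mod_cast h3

/-- the counting condition for pairs -/
theorem qf9_hc {p : ℕ} (hp : p.Prime) {δ : ℤ} (hδ : ¬ (p : ℤ) ∣ δ) {W : ℤ × ℤ}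
    (hW : ¬ ((p : ℤ) ∣ W.1 ∧ (p : ℤ) ∣ W.2)) :
    ((L2 δ p).card : ℝ) / ((p : ℝ) + 1) ≤ ∑ v ∈ L2 δ p, ich ((p : ℤ) ∣ dt v.1 W) ∧
    ((L2 δ p).card : ℝ) / ((p : ℝ) + 1) ≤ ∑ v ∈ L2 δ p, ich ((p : ℤ) ∣ dt v.2 W) := by
  classical
  have e : ((L2 δ p).card : ℝ) / ((p : ℝ) + 1) = p * (p - 1) := by
    rw [qf9_L2_card hp hδ]
    have : (0 : ℝ) < (p : ℝ) + 1 := by positivity
    field_simp
    ring
  rw [e]
  constructor
  · rw [qf9_ich_sum (L2 δ p) (fun v => (p : ℤ) ∣ dt v.1 W)]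
    exact qf9_pair1 hp hδ hW
  · rw [qf9_ich_sum (L2 δ p) (fun v => (p : ℤ) ∣ dt v.2 W)]
    exact qf9_pair2 hp hδ hW

theorem qf9_hc1 {p : ℕ} (hp : p.Prime) {W : ℤ × ℤ}
    (hW : ¬ ((p : ℤ) ∣ W.1 ∧ (p : ℤ) ∣ W.2)) :
    ((L1 p).card : ℝ) / ((p : ℝ) + 1) ≤ ∑ v ∈ L1 p, ich ((p : ℤ) ∣ dt v W) := by
  classical
  rw [qf9_ich_sum (L1 p) (fun v => (p : ℤ) ∣ dt v W), qf9_par_card hp hW, qf9_L1_card,
    div_le_iff₀ (by positivity)]
  push_cast
  nlinarith [(Nat.cast_nonneg p : (0 : ℝ) ≤ p)]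

theorem qf9_mem {m : Fin 11} {δ1 δ2 : ℤ} {p : ℕ} {u : PolyK 11} : u ∈ Law11 m δ1 δ2 p ↔
    (∀ i, u i ∈ L1 p) ∧ (∀ j c, fx m j = some c → u j = c) ∧ (p : ℤ) ∣ dt (u 1) (u 2) - δ1 ∧
      (p : ℤ) ∣ dt (u 10) (u 0) - δ2 := by
  unfold Law11
  rw [Finset.mem_filter, Fintype.mem_piFinset]
  exact Iff.rfl

/-- changing two coordinates -/
def qf9_put (a b : Fin 11) (u : PolyK 11) (v : (ℤ × ℤ) × (ℤ × ℤ)) : PolyK 11 :=
  Function.update (Function.update u a v.1) b v.2

theorem qf9_put_ne {a b i : Fin 11} (ha : i ≠ a) (hb : i ≠ b) (u : PolyK 11)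
    (v : (ℤ × ℤ) × (ℤ × ℤ)) : qf9_put a b u v i = u i := by
  unfold qf9_put
  rw [Function.update_of_ne hb, Function.update_of_ne ha]

theorem qf9_put_b (a b : Fin 11) (u : PolyK 11) (v : (ℤ × ℤ) × (ℤ × ℤ)) :
    qf9_put a b u v b = v.2 := by
  unfold qf9_put
  rw [Function.update_self]

theorem qf9_put_a {a b : Fin 11} (hab : a ≠ b) (u : PolyK 11) (v : (ℤ × ℤ) × (ℤ × ℤ)) :
    qf9_put a b u v a = v.1 := by
  unfold qf9_put
  rw [Function.update_of_ne hab, Function.update_self]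

theorem qf9_put_put {a b : Fin 11} (hab : a ≠ b) (u : PolyK 11) (v : (ℤ × ℤ) × (ℤ × ℤ)) :
    qf9_put a b (qf9_put a b u v) (u a, u b) = u := by
  funext i
  by_cases h1 : i = b
  · subst h1
    rw [qf9_put_b]
  · by_cases h2 : i = a
    · subst h2
      rw [qf9_put_a hab]
    · rw [qf9_put_ne h2 h1, qf9_put_ne h2 h1]

/-- BLOCK QF9 (uses QF7; exact probability for (a)): `j` not fixed with partner not fixed. For a single
vertex `1/p`, for a vertex of a free pair `1/(p+1)`. -/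
theorem par_ge_pr {p : ℕ} (hp : p.Prime) (h2 : 2 < p) {m : Fin 11} {δ1 δ2 : ℤ} (hd : dOk m δ1 δ2)
    (h1 : ¬ (p : ℤ) ∣ δ1) (h2' : ¬ (p : ℤ) ∣ δ2) (j : Fin 11) (hj : ∀ i ∈ blk j, fx m i = none)
    (w : PolyK 11 → ℤ × ℤ)
    (hw : ∀ u v : PolyK 11, (∀ i, i ∉ blk j → u i = v i) → w u = w v) :
    1 / ((p : ℝ) + 1) * mL (Law11 m δ1 δ2 p) (fun u => ich (¬ ((p : ℤ) ∣ (w u).1 ∧
        (p : ℤ) ∣ (w u).2))) ≤
      mL (Law11 m δ1 δ2 p) (fun u => ich ((p : ℤ) ∣ dt (u j) (w u))) := by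
  by_cases c1 : j = 1 ∨ j = 2
  · have hb : blk j = {1, 2} := by unfold blk; rw [if_pos c1]
    rw [hb] at hj hw
    have f1 : fx m 1 = none := hj 1 (by simp)
    have f2 : fx m 2 = none := hj 2 (by simp)
    apply qf9_ge_gen (Law11 m δ1 δ2 p) (L2 δ1 p) (qf9_put 1 2) (fun u => (u 1, u 2))
    · intro u hu v hv
      rw [qf9_mem] at hu ⊢
      unfold L2 at hv
      rw [Finset.mem_filter, Finset.mem_product] at hv
      refine ⟨?_, ?_, ?_, ?_⟩
      · intro i
        by_cases e2 : i = 2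
        · subst e2
          rw [qf9_put_b]
          exact hv.1.2
        · by_cases e1 : i = 1
          · subst e1
            rw [qf9_put_a (by decide)]
            exact hv.1.1
          · rw [qf9_put_ne e1 e2]
            exact hu.1 i
      · intro i c hc
        have e1 : i ≠ 1 := by
          rintro rfl
          rw [f1] at hc
          exact absurd hc (by simp)
        have e2 : i ≠ 2 := by
          rintro rfl
          rw [f2] at hc
          exact absurd hc (by simp)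
        rw [qf9_put_ne e1 e2]
        exact hu.2.1 i c hc
      · rw [qf9_put_b, qf9_put_a (by decide)]
        exact hv.2
      · rw [qf9_put_ne (by decide) (by decide), qf9_put_ne (by decide) (by decide)]
        exact hu.2.2.2
    · intro u hu
      rw [qf9_mem] at hu
      unfold L2
      rw [Finset.mem_filter, Finset.mem_product]
      exact ⟨⟨hu.1 1, hu.1 2⟩, hu.2.2.1⟩
    · intro u v
      exact qf9_put_put (by decide) u v
    · intro u v
      simp only [qf9_put_b, qf9_put_a (show (1 : Fin 11) ≠ 2 by decide)]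
    · exact qf9_L2_pos hp h1
    · intro u v
      apply hw
      intro i hi
      rw [Finset.mem_insert, Finset.mem_singleton, not_or] at hi
      exact qf9_put_ne hi.1 hi.2 u v
    · intro u W hW
      rcases c1 with rfl | rfl
      · simp only [qf9_put_a (show (1 : Fin 11) ≠ 2 by decide)]
        exact (qf9_hc hp h1 hW).1
      · simp only [qf9_put_b]
        exact (qf9_hc hp h1 hW).2
  · by_cases c2 : j = 10 ∨ j = 0
    · have hb : blk j = {10, 0} := by unfold blk; rw [if_neg c1, if_pos c2]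
      rw [hb] at hj hw
      have f1 : fx m 10 = none := hj 10 (by simp)
      have f2 : fx m 0 = none := hj 0 (by simp)
      apply qf9_ge_gen (Law11 m δ1 δ2 p) (L2 δ2 p) (qf9_put 10 0) (fun u => (u 10, u 0))
      · intro u hu v hv
        rw [qf9_mem] at hu ⊢
        unfold L2 at hv
        rw [Finset.mem_filter, Finset.mem_product] at hv
        refine ⟨?_, ?_, ?_, ?_⟩
        · intro i
          by_cases e2 : i = 0
          · subst e2
            rw [qf9_put_b]
            exact hv.1.2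
          · by_cases e1 : i = 10
            · subst e1
              rw [qf9_put_a (by decide)]
              exact hv.1.1
            · rw [qf9_put_ne e1 e2]
              exact hu.1 i
        · intro i c hc
          have e1 : i ≠ 10 := by
            rintro rfl
            rw [f1] at hc
            exact absurd hc (by simp)
          have e2 : i ≠ 0 := by
            rintro rfl
            rw [f2] at hc
            exact absurd hc (by simp)
          rw [qf9_put_ne e1 e2]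
          exact hu.2.1 i c hc
        · rw [qf9_put_ne (by decide) (by decide), qf9_put_ne (by decide) (by decide)]
          exact hu.2.2.1
        · rw [qf9_put_b, qf9_put_a (by decide)]
          exact hv.2
      · intro u hu
        rw [qf9_mem] at hu
        unfold L2
        rw [Finset.mem_filter, Finset.mem_product]
        exact ⟨⟨hu.1 10, hu.1 0⟩, hu.2.2.2⟩
      · intro u v
        exact qf9_put_put (by decide) u v
      · intro u v
        simp only [qf9_put_b, qf9_put_a (show (10 : Fin 11) ≠ 0 by decide)]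
      · exact qf9_L2_pos hp h2'
      · intro u v
        apply hw
        intro i hi
        rw [Finset.mem_insert, Finset.mem_singleton, not_or] at hi
        exact qf9_put_ne hi.1 hi.2 u v
      · intro u W hW
        rcases c2 with rfl | rfl
        · simp only [qf9_put_a (show (10 : Fin 11) ≠ 0 by decide)]
          exact (qf9_hc hp h2' hW).1
        · simp only [qf9_put_b]
          exact (qf9_hc hp h2' hW).2
    · have hb : blk j = {j} := by unfold blk; rw [if_neg c1, if_neg c2]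
      rw [hb] at hj hw
      rw [not_or] at c1 c2
      have f1 : fx m j = none := hj j (by simp)
      apply qf9_ge_gen (Law11 m δ1 δ2 p) (L1 p) (fun u v => Function.update u j v)
        (fun u => u j)
      · intro u hu v hv
        rw [qf9_mem] at hu ⊢
        refine ⟨?_, ?_, ?_, ?_⟩
        · intro i
          by_cases e : i = j
          · subst e
            rw [Function.update_self]
            exact hv
          · rw [Function.update_of_ne e]
            exact hu.1 i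
        · intro i c hc
          have e : i ≠ j := by
            rintro rfl
            rw [f1] at hc
            exact absurd hc (by simp)
          rw [Function.update_of_ne e]
          exact hu.2.1 i c hc
        · rw [Function.update_of_ne (Ne.symm c1.1), Function.update_of_ne (Ne.symm c1.2)]
          exact hu.2.2.1
        · rw [Function.update_of_ne (Ne.symm c2.1), Function.update_of_ne (Ne.symm c2.2)]
          exact hu.2.2.2
      · intro u hu
        rw [qf9_mem] at hu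
        exact hu.1 j
      · intro u v
        simp
      · intro u v
        simp
      · rw [qf9_L1_card]
        exact pow_pos hp.pos 2
      · intro u v
        apply hw
        intro i hi
        rw [Finset.mem_singleton] at hi
        exact Function.update_of_ne hi _ _
      · intro u W hW
        simp only [Function.update_self]
        exact qf9_hc1 hp hW

/-- a vector which is not fixed is `0` modulo `p` with probability at most `1/p²` -/
theorem zero_le_pr {p : ℕ} (hp : p.Prime) (h2 : 2 < p) {m : Fin 11} {δ1 δ2 : ℤ}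
    (hd : dOk m δ1 δ2)
    (h1 : ¬ (p : ℤ) ∣ δ1) (h2' : ¬ (p : ℤ) ∣ δ2) (j : Fin 11) :
    mL (Law11 m δ1 δ2 p) (fun u => ich ((p : ℤ) ∣ (u j).1 ∧ (p : ℤ) ∣ (u j).2)) ≤
      1 / (p : ℝ) ^ 2 := by
  classical
  have hp2 : (0 : ℝ) < (p : ℝ) ^ 2 := pow_pos (by exact_mod_cast hp.pos) 2
  -- if it never happens
  have key : (∀ u ∈ Law11 m δ1 δ2 p, ¬ ((p : ℤ) ∣ (u j).1 ∧ (p : ℤ) ∣ (u j).2)) →
      mL (Law11 m δ1 δ2 p) (fun u => ich ((p : ℤ) ∣ (u j).1 ∧ (p : ℤ) ∣ (u j).2)) ≤
      1 / (p : ℝ) ^ 2 := by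
    intro h
    have : mL (Law11 m δ1 δ2 p) (fun u => ich ((p : ℤ) ∣ (u j).1 ∧ (p : ℤ) ∣ (u j).2)) = 0 := by
      unfold mL
      rw [Finset.sum_eq_zero, zero_div]
      intro u hu
      unfold ich
      rw [if_neg (h u hu)]
    rw [this]
    positivity
  have dv : ∀ (a b : ℤ × ℤ) (δ : ℤ), (p : ℤ) ∣ dt a b - δ →
      ((p : ℤ) ∣ a.1 ∧ (p : ℤ) ∣ a.2) ∨ ((p : ℤ) ∣ b.1 ∧ (p : ℤ) ∣ b.2) → (p : ℤ) ∣ δ := by
    intro a b δ h hab
    have h3 : (p : ℤ) ∣ dt a b := by
      unfold dt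
      rcases hab with ⟨x1, x2⟩ | ⟨x1, x2⟩
      · exact dvd_sub (Dvd.dvd.mul_right x1 _) (Dvd.dvd.mul_right x2 _)
      · exact dvd_sub (Dvd.dvd.mul_left x2 _) (Dvd.dvd.mul_left x1 _)
    have : δ = dt a b - (dt a b - δ) := by ring
    rw [this]
    exact dvd_sub h3 h
  by_cases c1 : j = 1 ∨ j = 2
  · apply key
    intro u hu h
    rw [qf9_mem] at hu
    rcases c1 with rfl | rfl
    · exact h1 (dv _ _ _ hu.2.2.1 (Or.inl h))
    · exact h1 (dv _ _ _ hu.2.2.1 (Or.inr h))
  · by_cases c2 : j = 10 ∨ j = 0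
    · apply key
      intro u hu h
      rw [qf9_mem] at hu
      rcases c2 with rfl | rfl
      · exact h2' (dv _ _ _ hu.2.2.2 (Or.inl h))
      · exact h2' (dv _ _ _ hu.2.2.2 (Or.inr h))
    · rw [not_or] at c1 c2
      by_cases hf : fx m j = none
      · have e1 := qf9_avg (Law11 m δ1 δ2 p) (L1 p) (fun u v => Function.update u j v)
          (fun u => u j)
          (by
            intro u hu v hv
            rw [qf9_mem] at hu ⊢
            refine ⟨?_, ?_, ?_, ?_⟩
            · intro i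
              by_cases e : i = j
              · subst e
                rw [Function.update_self]
                exact hv
              · rw [Function.update_of_ne e]
                exact hu.1 i
            · intro i c hc
              have e : i ≠ j := by
                rintro rfl
                rw [hf] at hc
                exact absurd hc (by simp)
              rw [Function.update_of_ne e]
              exact hu.2.1 i c hc
            · rw [Function.update_of_ne (Ne.symm c1.1), Function.update_of_ne (Ne.symm c1.2)]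
              exact hu.2.2.1
            · rw [Function.update_of_ne (Ne.symm c2.1), Function.update_of_ne (Ne.symm c2.2)]
              exact hu.2.2.2)
          (fun u hu => (qf9_mem.1 hu).1 j) (fun u v => by simp) (fun u v => by simp)
          (fun u => ich ((p : ℤ) ∣ (u j).1 ∧ (p : ℤ) ∣ (u j).2))
        have e2 : ∑ v ∈ L1 p, ich ((p : ℤ) ∣ v.1 ∧ (p : ℤ) ∣ v.2) ≤ 1 := by
          rw [qf9_ich_sum (L1 p) (fun v => (p : ℤ) ∣ v.1 ∧ (p : ℤ) ∣ v.2)]
          have : ((L1 p).filter (fun v => (p : ℤ) ∣ v.1 ∧ (p : ℤ) ∣ v.2)) ⊆ {(0, 0)} := by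
            intro v hv
            rw [Finset.mem_filter] at hv
            rw [Finset.mem_singleton]
            exact qf9_zero_of_dvd hv.1 hv.2.1 hv.2.2
          have := Finset.card_le_card this
          rw [Finset.card_singleton] at this
          exact_mod_cast this
        simp only [Function.update_self] at e1
        rw [Finset.sum_const, nsmul_eq_mul, qf9_L1_card] at e1
        have h6 : (Law11 m δ1 δ2 p).Nonempty := Law11_ne hp h2 hd h1 h2'
        have h7 : (0 : ℝ) < ((Law11 m δ1 δ2 p).card : ℝ) := by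
          exact_mod_cast Finset.card_pos.2 h6
        unfold mL
        rw [div_le_div_iff₀ h7 hp2]
        push_cast at e1
        have e3 : (∑ u ∈ Law11 m δ1 δ2 p, ich ((p : ℤ) ∣ (u j).1 ∧ (p : ℤ) ∣ (u j).2)) *
            (p : ℝ) ^ 2 = ((Law11 m δ1 δ2 p).card : ℝ) *
            ∑ v ∈ L1 p, ich ((p : ℤ) ∣ v.1 ∧ (p : ℤ) ∣ v.2) := by
          rw [e1]
          ring
        rw [e3]
        have e4 := mul_le_mul_of_nonneg_left e2 h7.le
        linarith
      · apply key
        intro u hu h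
        rw [qf9_mem] at hu
        obtain ⟨c, hc⟩ := Option.ne_none_iff_exists'.1 hf
        have e := hu.2.1 j c hc
        rw [e] at h
        have hne : ¬ (p : ℤ) ∣ 1 := by
          intro h6
          have := Int.le_of_dvd one_pos h6
          omega
        unfold fx at hc
        split_ifs at hc with x1 x2
        · rw [Option.some.injEq] at hc
          rw [← hc] at h
          exact hne h.2
        · rw [Option.some.injEq] at hc
          rw [← hc] at h
          exact hne h.1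

end Pool.Agent.PENK

namespace Pool.Agent.PENK

theorem par_ge : type_of% @par_ge_pr := @par_ge_pr

theorem zero_le : type_of% @zero_le_pr := @zero_le_pr

end Pool.Agent.PENK
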