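import Pool.Agent.Lib_helper18.PENK11.Defs
import Pool.Agent.Lib_helper18.PENKF.DefsQ
import Pool.Agent.Lib_helper18.PENKF.QF7
import Pool.Agent.Lib_helper18.PENKF.QF10
import Pool.Agent.Lib_helper18.PENKF.QF11
import Pool.Agent.Lib_helper18.PENKF.QF12
import Pool.Agent.Lib_helper18.PENKF.QF13

/-! Block QF14 (uses QF7, QF10 - QF13) -/

set_option autoImplicit false

namespace Pool.Agent.PENK

open Finset Pool.Agent.PENT

theorem qf14_not_dvd {p : ℕ} {a δ : ℤ} (h : (p : ℤ) ∣ a - δ) (hδ : ¬ (p : ℤ) ∣ δ) :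
    ¬ (p : ℤ) ∣ a := by
  intro ha
  apply hδ
  have h1 := dvd_sub ha h
  have e : a - (a - δ) = δ := by ring
  rw [e] at h1
  exact h1

theorem qf14_ne (m : Fin 11) : m + 1 ≠ m := by
  revert m
  decide

theorem qf14_open (m : Fin 11) (u : PolyK 11) (h : ∀ j c, fx m j = some c → u j = c) :
    dl u m = -1 := by
  have h1 : u m = (0, 1) := h m _ (by unfold fx; rw [if_pos rfl])
  have h2 : u (m + 1) = (1, 0) := h (m + 1) _ (by
    unfold fx
    rw [if_neg (qf14_ne m), if_pos rfl])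
  unfold dl
  rw [h1, h2]
  unfold dt
  norm_num

/-- BLOCK QF14 (uses QF7, QF10 - QF13) -/
theorem law11_locF_pr : ∃ C : ℝ, 0 ≤ C ∧ ∀ p : ℕ, p.Prime → 2 < p → ∀ (m : Fin 11) (δ1 δ2 : ℤ),
    dOk m δ1 δ2 → ¬ (p : ℤ) ∣ δ1 → ¬ (p : ℤ) ∣ δ2 → LocF {m} p (Law11 m δ1 δ2 p) C := by
  obtain ⟨Ca, ha0, ha⟩ := law11_a
  obtain ⟨Cb, hb0, hb⟩ := law11_b
  obtain ⟨Cc, hc0, hc⟩ := law11_c
  obtain ⟨Cd, hd0, hd⟩ := law11_d
  refine ⟨Ca + Cb + Cc + Cd, by positivity, ?_⟩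
  intro p hp h2 m δ1 δ2 hok h1 h2'
  have hp0 : (0 : ℝ) < p := by exact_mod_cast hp.pos
  have hp2 : (0 : ℝ) < (p : ℝ) ^ 2 := by positivity
  have mono1 : ∀ C' : ℝ, C' ≤ Ca + Cb + Cc + Cd → C' / (p : ℝ) ≤ (Ca + Cb + Cc + Cd) / p :=
    fun C' h => div_le_div_of_nonneg_right h hp0.le
  have mono2 : ∀ C' : ℝ, C' ≤ Ca + Cb + Cc + Cd →
      C' / (p : ℝ) ^ 2 ≤ (Ca + Cb + Cc + Cd) / (p : ℝ) ^ 2 :=
    fun C' h => div_le_div_of_nonneg_right h hp2.le
  have hmem : ∀ u ∈ Law11 m δ1 δ2 p, (∀ j c, fx m j = some c → u j = c) ∧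
      (p : ℤ) ∣ dl u 1 - δ1 ∧ (p : ℤ) ∣ dl u 10 - δ2 := by
    intro u hu
    unfold Law11 at hu
    exact (mem_filter.mp hu).2
  exact
    { ne := Law11_ne hp h2 hok h1 h2'
      a := fun j hj => by
        have e1 := (ha p hp h2 m δ1 δ2 hok h1 h2' j hj).1
        have e2 := mono2 Ca (by linarith)
        linarith
      a' := fun j hj =>
        ((ha p hp h2 m δ1 δ2 hok h1 h2' j hj).2).trans (mono1 Ca (by linarith))
      b := fun i hi j hj hij =>
        (hb p hp h2 m δ1 δ2 hok h1 h2' i hi j hj hij).trans (mono2 Cb (by linarith))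
      c := fun k hk v hv =>
        (hc p hp h2 m δ1 δ2 hok h1 h2' k hk v hv).trans (mono1 Cc (by linarith))
      d := fun i hi j hj hij =>
        (hd p hp h2 m δ1 δ2 hok h1 h2' i hi j hj hij).trans (mono1 Cd (by linarith))
      s1 := fun u hu => qf14_not_dvd (hmem u hu).2.1 h1
      sm := fun u hu => qf14_not_dvd (hmem u hu).2.2 h2'
      so := fun u hu j hj => by
        rw [mem_singleton] at hj
        subst hj
        rw [qf14_open _ u (hmem u hu).1]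
        intro hdv
        have h3 : (p : ℤ) ∣ 1 := (dvd_neg (a := (p : ℤ)) (b := 1)).mp hdv
        have h4 : (p : ℤ) ≤ 1 := Int.le_of_dvd one_pos h3
        have h5 : (2 : ℤ) < p := by exact_mod_cast h2
        linarith }

end Pool.Agent.PENK

namespace Pool.Agent.PENK

theorem law11_locF : type_of% @law11_locF_pr := @law11_locF_pr

end Pool.Agent.PENK
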