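import Pool.Agent.Lib_helper18.PENK11.Defs
import Pool.Agent.Lib_helper8.PENT.B.zb
import Pool.Agent.Lib_helper8.PENT.B.zc
import Pool.Agent.Lib_helper8.PENT.B.zk

/-! PENK block QF2 (helper99; the square as in helper83's PF7) -/

set_option autoImplicit false

namespace Pool.Agent.PENK

open Finset Pool.Agent.PENT

theorem qf2_sum_Ico (p : ℕ) (F : ℤ → ℝ) :
    ∑ s ∈ Ico (0 : ℤ) p, F s = ∑ a ∈ range p, F (a : ℤ) := by
  symm
  apply Finset.sum_nbij' (fun a : ℕ => (a : ℤ)) (fun s : ℤ => s.toNat)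
  · intro a ha
    rw [Finset.mem_range] at ha
    rw [Finset.mem_Ico]
    omega
  · intro s hs
    rw [Finset.mem_Ico] at hs
    rw [Finset.mem_range]
    omega
  · intro a _
    simp
  · intro s hs
    rw [Finset.mem_Ico] at hs
    exact Int.toNat_of_nonneg hs.1
  · intro a _
    rfl

theorem qf2_mG_L1 (p : ℕ) (h : ℤ × ℤ → ℝ) :
    mG (L1 p) h = av p (fun s t => h (s, t)) := by
  unfold mG av L1
  rw [Finset.card_product, Int.card_Ico, sub_zero, Int.toNat_natCast, Finset.sum_product,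
    qf2_sum_Ico]
  push_cast
  rw [pow_two]
  congr 1
  apply Finset.sum_congr rfl
  intro a _
  exact qf2_sum_Ico p (fun t => h ((a : ℤ), t))

theorem qf2_sq_card (A : ℕ) : ((sq A).card : ℝ) = (2 * (A : ℝ) + 1) ^ 2 := by
  unfold sq
  rw [Finset.card_product, Int.card_Icc]
  have : ((A : ℤ) + 1 - -(A : ℤ)).toNat = 2 * A + 1 := by omega
  rw [this]
  push_cast
  ring

/-- the square -/
theorem qf2_sq (A : ℕ) (T : Finset ℕ) (h : ℕ → ℤ × ℤ → ℝ)
    (hT : ∀ p ∈ T, p.Prime) (hper : ∀ p ∈ T, ∀ v w, cg1 p v w → h p v = h p w)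
    (h01 : ∀ p ∈ T, ∀ v, 0 ≤ h p v ∧ h p v ≤ 1) :
    |∑ a ∈ sq A, ∏ p ∈ T, h p a - (sq A).card * ∏ p ∈ T, mG (L1 p) (h p)| ≤
      2 * ((∏ p ∈ T, p : ℕ) : ℝ) * (2 * A + 1) + ((∏ p ∈ T, p : ℕ) : ℝ) ^ 2 := by
  set Q : ℕ := ∏ p ∈ T, p with hQ
  have hQ0 : 0 < Q := Finset.prod_pos (fun p hp => (hT p hp).pos)
  have h1 := av_prod (q := 1) one_pos (f := fun _ _ => 1) (fun _ _ _ _ _ _ => rfl) T
    (fun p => p) (fun p s t => h p (s, t)) (fun p hp => (hT p hp).pos)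
    (fun p _ => Nat.coprime_one_left p)
    (fun p hp p' hp' hne => (Nat.coprime_primes (hT p hp) (hT p' hp')).2 hne)
    (fun p hp s t s' t' hs ht => hper p hp _ _ ⟨hs, ht⟩)
  obtain ⟨h2, h3⟩ := h1
  have h4 := box_av (m := 1 * ∏ p ∈ T, p) (by rw [one_mul]; exact hQ0) h2
    (fun s t => by
      rw [one_mul]
      exact ⟨Finset.prod_nonneg (fun p hp => (h01 p hp _).1),
        Finset.prod_le_one (fun p hp => (h01 p hp _).1) (fun p hp => (h01 p hp _).2)⟩)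
    (-(A : ℤ) - 1) A (-(A : ℤ) - 1) A (by omega) (by omega)
  rw [h3] at h4
  have e1 : Finset.Ioc (-(A : ℤ) - 1) A = Finset.Icc (-(A : ℤ)) A := by
    ext s
    rw [Finset.mem_Ioc, Finset.mem_Icc]
    omega
  have e2 : av 1 (fun _ _ => (1 : ℝ)) = 1 := by
    unfold av
    simp
  rw [e1, e2, one_mul] at h4
  have e3 : ∑ a ∈ sq A, ∏ p ∈ T, h p a =
      ∑ s ∈ Finset.Icc (-(A : ℤ)) A, ∑ t ∈ Finset.Icc (-(A : ℤ)) A, 1 * ∏ p ∈ T, h p (s, t) := by
    unfold sq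
    rw [Finset.sum_product]
    simp only [one_mul]
  rw [e3, qf2_sq_card, Finset.prod_congr rfl (fun p _ => qf2_mG_L1 p (h p))]
  have e4 : (((A : ℤ) - (-(A : ℤ) - 1) : ℤ) : ℝ) = 2 * (A : ℝ) + 1 := by
    push_cast
    ring
  rw [e4, one_mul] at h4
  have e5 : (2 * (A : ℝ) + 1) ^ 2 = (2 * (A : ℝ) + 1) * (2 * (A : ℝ) + 1) := by ring
  rw [e5]
  refine h4.trans (le_of_eq ?_)
  ring

/-- a fixed vertex -/
theorem qf2_fix (c : ℤ × ℤ) (i : ℕ) (S : Finset ℕ) (Q η : ℝ) (hη : 0 ≤ η)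
    (hc : ∀ p ∈ S, c ∈ L1 p) :
    EquiG (O1 (some c) i) (fun v => v) cg1 (LL1 (some c)) S Q η := by
  intro T hTS _ h _ _
  have e1 : O1 (some c) i = {c} := rfl
  have e2 : ∀ p ∈ T, mG (LL1 (some c) p) (h p) = h p c := by
    intro p hp
    have e3 : LL1 (some c) p = {c} := by
      unfold LL1
      ext v
      rw [Finset.mem_filter, Finset.mem_singleton]
      constructor
      · rintro ⟨_, h2⟩
        exact h2 c rfl
      · rintro rfl
        refine ⟨hc p (hTS hp), ?_⟩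
        intro c' hc'
        exact (Option.some.inj hc')
    unfold mG
    rw [e3, Finset.sum_singleton, Finset.card_singleton]
    simp
  rw [e1, Finset.sum_singleton, Finset.card_singleton, Finset.prod_congr rfl e2]
  simp only [Nat.cast_one, one_mul, sub_self, abs_zero]
  linarith

theorem single_equi_pr {κ : ℝ} (hκ : 0 < κ) (hκ1 : κ ≤ 1 / 10) : ∃ x₀ : ℝ, 1 ≤ x₀ ∧ ∀ x ≥ x₀,
    ∀ (f : Option (ℤ × ℤ)) (i : ℕ), ((f = none ∧ x ^ (4 * κ) ≤ (2 : ℝ) ^ (i + 1)) ∨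
      f = some (1, 0) ∨ f = some (0, 1)) →
    ∀ S : Finset ℕ, (∀ p ∈ S, p.Prime ∧ 2 < p) →
    EquiG (O1 f i) (fun v => v) cg1 (LL1 f) S (x ^ κ) (x ^ (-(3 / 2 * κ))) := by
  have hκ2 : 0 < κ / 2 := by linarith
  refine ⟨2 ^ (1 / (κ / 2)), Real.one_le_rpow (by norm_num) (by positivity), ?_⟩
  intro x hx f i hf S hS
  have hx1 : 1 ≤ x := (Real.one_le_rpow (by norm_num) (by positivity)).trans hx
  have hx0 : 0 < x := by linarith
  have hη : (0 : ℝ) ≤ x ^ (-(3 / 2 * κ)) := by positivity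
  rcases hf with ⟨rfl, hi⟩ | rfl | rfl
  · set w : ℝ := x ^ (κ / 2) with hw
    have hw2 : (2 : ℝ) ≤ w := by
      have h1 : ((2 : ℝ) ^ (1 / (κ / 2))) ^ (κ / 2) ≤ x ^ (κ / 2) :=
        Real.rpow_le_rpow (by positivity) hx hκ2.le
      rw [← Real.rpow_mul (by norm_num), show 1 / (κ / 2) * (κ / 2) = 1 by field_simp,
        Real.rpow_one] at h1
      exact h1
    have hw0 : 0 < w := by linarith
    have wn : ∀ n : ℕ, x ^ (κ / 2 * n) = w ^ n := by
      intro n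
      rw [hw, ← Real.rpow_natCast, ← Real.rpow_mul hx0.le]
    have w2 : x ^ κ = w ^ 2 := by
      rw [← wn 2]
      congr 1
      push_cast
      ring
    have w8 : x ^ (4 * κ) = w ^ 8 := by
      rw [← wn 8]
      congr 1
      push_cast
      ring
    have w3 : x ^ (-(3 / 2 * κ)) = (w ^ 3)⁻¹ := by
      rw [Real.rpow_neg hx0.le, ← wn 3]
      congr 2
      push_cast
      ring
    have e1 : O1 none i = sq (2 ^ (i + 1)) := rfl
    have e2 : ∀ p : ℕ, LL1 none p = L1 p := by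
      intro p
      unfold LL1
      apply Finset.filter_true_of_mem
      intro v _ c hc
      exact absurd hc (by simp)
    intro T hTS hTQ h hper h01
    rw [e1, Finset.prod_congr rfl (fun p _ => by rw [e2 p])]
    refine (qf2_sq (2 ^ (i + 1)) T h (fun p hp => (hS p (hTS hp)).1) hper h01).trans ?_
    rw [qf2_sq_card]
    rw [w2] at hTQ
    rw [w8] at hi
    rw [w3]
    set Q : ℝ := ((∏ p ∈ T, p : ℕ) : ℝ) with hQ
    have hQ0 : 0 ≤ Q := Nat.cast_nonneg _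
    set N : ℝ := 2 * ((2 ^ (i + 1) : ℕ) : ℝ) + 1 with hN
    have hNw : w ^ 8 ≤ N := by
      have h2 : (0 : ℝ) ≤ 2 ^ (i + 1) := by positivity
      rw [hN]
      push_cast
      linarith
    have hN0 : 0 < N := lt_of_lt_of_le (by positivity) hNw
    have a1 : 2 * Q * N + Q ^ 2 ≤ 2 * w ^ 2 * N + (w ^ 2) ^ 2 := by
      have h1 : Q * N ≤ w ^ 2 * N := mul_le_mul_of_nonneg_right hTQ hN0.le
      have h2 : Q ^ 2 ≤ (w ^ 2) ^ 2 := pow_le_pow_left₀ hQ0 hTQ 2
      linarith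
    refine a1.trans ?_
    rw [← div_eq_inv_mul, le_div_iff₀ (by positivity)]
    -- 2 w^5 N + w^7 ≤ N²
    have b1 : w ^ 7 ≤ w ^ 8 := pow_le_pow_right₀ (by linarith) (by norm_num)
    have b2 : 8 * w ^ 5 ≤ w ^ 8 := by
      have : (2 : ℝ) ^ 3 ≤ w ^ 3 := pow_le_pow_left₀ (by norm_num) hw2 3
      have h5 : (0 : ℝ) < w ^ 5 := by positivity
      nlinarith
    have b3 : w ^ 8 * N ≤ N * N := mul_le_mul_of_nonneg_right hNw hN0.le
    have b4 : 1 ≤ w ^ 5 := one_le_pow₀ (by linarith)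
    have b5 : 8 * w ^ 5 * N ≤ w ^ 8 * N := mul_le_mul_of_nonneg_right b2 hN0.le
    have b6 : N ≤ w ^ 5 * N := by nlinarith
    nlinarith
  · refine qf2_fix (1, 0) i S _ _ hη ?_
    intro p hp
    have := (hS p hp).2
    unfold L1
    rw [Finset.mem_product, Finset.mem_Ico, Finset.mem_Ico]
    simp only
    omega
  · refine qf2_fix (0, 1) i S _ _ hη ?_
    intro p hp
    have := (hS p hp).2
    unfold L1
    rw [Finset.mem_product, Finset.mem_Ico, Finset.mem_Ico]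
    simp only
    omega

end Pool.Agent.PENK

namespace Pool.Agent.PENK

theorem single_equi : type_of% @single_equi_pr := @single_equi_pr

end Pool.Agent.PENK
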