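import Mathlib
import Pool.Agent.Lib_helper18.PENK11.Defs
import Pool.Agent.Lib_helper18.PENKF.DefsQ
import Pool.Agent.Lib_helper18.PENKF.DefsW
import Pool.Agent.Lib_helper18.PENKF.PF3

set_option autoImplicit false

namespace Pool.Agent.PENK

open Finset Pool.Agent.PENT

theorem qf5_gcd {a b c : ℤ × ℤ} (h : Nat.Coprime (dt c a).natAbs (dt a b).natAbs) :
    Int.gcd a.1 a.2 = 1 := by
  have h1 : (Int.gcd a.1 a.2 : ℤ) ∣ a.1 := Int.gcd_dvd_left ..
  have h2 : (Int.gcd a.1 a.2 : ℤ) ∣ a.2 := Int.gcd_dvd_right ..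
  have h3 : (Int.gcd a.1 a.2 : ℤ) ∣ dt c a := by
    unfold dt
    exact dvd_sub (Dvd.dvd.mul_left h2 _) (Dvd.dvd.mul_left h1 _)
  have h4 : (Int.gcd a.1 a.2 : ℤ) ∣ dt a b := by
    unfold dt
    exact dvd_sub (Dvd.dvd.mul_right h1 _) (Dvd.dvd.mul_right h2 _)
  have h5 : Int.gcd a.1 a.2 ∣ (dt c a).natAbs := Int.natCast_dvd.mp h3
  have h6 : Int.gcd a.1 a.2 ∣ (dt a b).natAbs := Int.natCast_dvd.mp h4
  have h7 := Nat.dvd_gcd h5 h6
  rw [h] at h7
  exact Nat.dvd_one.mp h7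

/-- one slot -/
theorem qf5_slot {fa fb : Option (ℤ × ℤ)} {ia ib : ℕ} {a b : ℤ × ℤ}
    (ha : Int.gcd a.1 a.2 = 1) (hb : Int.gcd b.1 b.2 = 1)
    (h1 : 2 ^ ia ≤ nr a) (h2 : nr a < 2 ^ (ia + 1)) (h3 : 2 ^ ib ≤ nr b)
    (h4 : nr b < 2 ^ (ib + 1)) (fA : ∀ c, fa = some c → a = c) (fB : ∀ c, fb = some c → b = c)
    (gA : fb = none → fa = none ∨ fa = some (1, 0))
    (gB : fa = none → fb = none ∨ fb = some (0, 1)) :
    ∃ o ∈ OS fa fb ia ib, pS fa fb ia ib (dt a b) o = (a, b) := by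
  rcases hfa : fa with _ | c
  · rcases hfb : fb with _ | c'
    · -- nothing fixed
      by_cases hab : ia < ib
      · obtain ⟨o, ho, ho'⟩ := pair_mem hab.le ha h1 h2 h4
        refine ⟨o, ?_, ?_⟩
        · simp only [OS, min_eq_left hab.le, max_eq_right hab.le]
          exact ho
        · simp only [pS, if_pos hab]
          exact ho'
      · have hba : ib ≤ ia := not_lt.mp hab
        obtain ⟨o, ho, ho'⟩ := pair_mem hba hb h3 h4 h2
        refine ⟨o, ?_, ?_⟩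
        · simp only [OS, min_eq_right hba, max_eq_left hba]
          exact ho
        · have e : -dt a b = dt b a := by unfold dt; ring
          simp only [pS, if_neg hab, e, ho']
    · -- `b = (0, 1)`
      have hb' : b = (0, 1) := by
        rcases gB hfa with h | h
        · rw [hfb] at h
          exact absurd h (by simp)
        · exact fB _ h
      have hc' : c' = (0, 1) := by rw [← fB c' hfb, hb']
      subst hb'
      refine ⟨((0, 0), a.2), ?_, ?_⟩
      · simp only [OS]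
        rw [mem_product, mem_Icc]
        refine ⟨mem_singleton.2 rfl, ?_⟩
        unfold nr at h2
        obtain ⟨B, hB⟩ : ∃ B : ℤ, B = ((2 ^ (ia + 1) : ℕ) : ℤ) := ⟨_, rfl⟩
        have h2' : (a.1.natAbs : ℤ) + (a.2.natAbs : ℤ) < ((2 ^ (ia + 1) : ℕ) : ℤ) := by
          exact_mod_cast h2
        rw [← hB] at h2' ⊢
        simp only
        omega
      · simp only [pS, hc']
        refine Prod.ext ?_ rfl
        refine Prod.ext ?_ rfl
        simp only [dt]
        ring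
  · rcases hfb : fb with _ | c'
    · -- `a = (1, 0)`
      have ha' : a = (1, 0) := by
        rcases gA hfb with h | h
        · rw [hfa] at h
          exact absurd h (by simp)
        · exact fA _ h
      have hc' : c = (1, 0) := by rw [← fA c hfa, ha']
      subst ha'
      refine ⟨((0, 0), b.1), ?_, ?_⟩
      · simp only [OS]
        rw [mem_product, mem_Icc]
        refine ⟨mem_singleton.2 rfl, ?_⟩
        unfold nr at h4
        obtain ⟨B, hB⟩ : ∃ B : ℤ, B = ((2 ^ (ib + 1) : ℕ) : ℤ) := ⟨_, rfl⟩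
        have h4' : (b.1.natAbs : ℤ) + (b.2.natAbs : ℤ) < ((2 ^ (ib + 1) : ℕ) : ℤ) := by
          exact_mod_cast h4
        rw [← hB] at h4' ⊢
        simp only
        omega
      · simp only [pS, hc']
        refine Prod.ext rfl ?_
        refine Prod.ext rfl ?_
        simp only [dt]
        ring
    · refine ⟨((0, 0), 0), ?_, ?_⟩
      · simp [OS]
      · simp only [pS]
        rw [fA c hfa, fB c' hfb]

theorem qf5_f1 : ∀ m : Fin 11, fx m 2 = none → fx m 1 = none ∨ fx m 1 = some (1, 0) := by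
  decide

theorem qf5_f2 : ∀ m : Fin 11, fx m 1 = none → fx m 2 = none ∨ fx m 2 = some (0, 1) := by
  decide

theorem qf5_f3 : ∀ m : Fin 11, fx m 0 = none → fx m 10 = none ∨ fx m 10 = some (1, 0) := by
  decide

theorem qf5_f4 : ∀ m : Fin 11, fx m 10 = none → fx m 0 = none ∨ fx m 0 = some (0, 1) := by
  decide

/-- BLOCK QF5 -/
theorem path_mem_pr {q : Par 11} {κ : ℝ} {m : Fin 11} {x : ℝ} {P0 : ℕ} {u : PolyK 11}
    (hu : IsPath q κ m x P0 u) {i : Fin 11 → ℕ} (hi : Siz i u) :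
    ∃ o ∈ O11 m i, pol11 m i (dl u 1) (dl u 10) o = u := by
  have hp := hu.poly
  have g1 : Int.gcd (u 1).1 (u 1).2 = 1 := qf5_gcd (hp.co 0 1 (by decide))
  have g2 : Int.gcd (u 2).1 (u 2).2 = 1 := qf5_gcd (hp.co 1 2 (by decide))
  have g10 : Int.gcd (u 10).1 (u 10).2 = 1 := qf5_gcd (hp.co 9 10 (by decide))
  have g0 : Int.gcd (u 0).1 (u 0).2 = 1 := qf5_gcd (hp.co 10 0 (by decide))
  obtain ⟨o1, ho1, ho1'⟩ := qf5_slot (fa := fx m 1) (fb := fx m 2) g1 g2 (hi 1).1 (hi 1).2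
    (hi 2).1 (hi 2).2 (hu.fix 1) (hu.fix 2) (qf5_f1 m) (qf5_f2 m)
  obtain ⟨o4, ho4, ho4'⟩ := qf5_slot (fa := fx m 10) (fb := fx m 0) g10 g0 (hi 10).1 (hi 10).2
    (hi 0).1 (hi 0).2 (hu.fix 10) (hu.fix 0) (qf5_f3 m) (qf5_f4 m)
  have e1 : dl u 1 = dt (u 1) (u 2) := rfl
  have e4 : dl u 10 = dt (u 10) (u 0) := rfl
  refine ⟨((o1, o4), fun j => u (sv j)), ?_, ?_⟩
  · unfold O11
    rw [mem_product, mem_product]
    refine ⟨⟨ho1, ho4⟩, ?_⟩
    rw [Fintype.mem_piFinset]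
    intro j
    simp only
    rcases hf : fx m (sv j) with _ | c
    · simp only [O1]
      have h3 := (hi (sv j)).2
      unfold nr at h3
      unfold sq
      rw [mem_product, mem_Icc, mem_Icc]
      have h3' : ((u (sv j)).1.natAbs : ℤ) + ((u (sv j)).2.natAbs : ℤ) <
          ((2 ^ (i (sv j) + 1) : ℕ) : ℤ) := by
        exact_mod_cast h3
      obtain ⟨B, hB⟩ : ∃ B : ℤ, B = ((2 ^ (i (sv j) + 1) : ℕ) : ℤ) := ⟨_, rfl⟩
      rw [← hB] at h3' ⊢
      omega
    · simp only [O1]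
      exact mem_singleton.2 (hu.fix (sv j) c hf)
  · unfold pol11
    rw [e1, e4]
    simp only [ho1', ho4']
    funext j
    fin_cases j <;> rfl

theorem qf5_log {a b : ℕ} (ha : a ≠ 0) {y : ℝ} (hy : 1 ≤ y) (h : y * a ≤ (b : ℝ)) :
    y ≤ (2 : ℝ) ^ (max (Nat.log 2 a) (Nat.log 2 b) - min (Nat.log 2 a) (Nat.log 2 b) + 1) := by
  have ha0 : (0 : ℝ) < a := by
    have : 0 < a := Nat.pos_of_ne_zero ha
    exact_mod_cast this
  have hab : a ≤ b := by
    have : (a : ℝ) ≤ b := by nlinarith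
    exact_mod_cast this
  have hl : Nat.log 2 a ≤ Nat.log 2 b := Nat.log_mono_right hab
  rw [max_eq_right hl, min_eq_left hl]
  have h1 : 2 ^ Nat.log 2 a ≤ a := Nat.pow_log_le_self 2 ha
  have h2 : b < 2 ^ (Nat.log 2 b + 1) := Nat.lt_pow_succ_log_self (by norm_num) _
  have h1' : (2 : ℝ) ^ Nat.log 2 a ≤ a := by exact_mod_cast h1
  have h2' : (b : ℝ) < 2 ^ (Nat.log 2 b + 1) := by exact_mod_cast h2
  have h3 : (2 : ℝ) ^ (Nat.log 2 b + 1) =
      2 ^ (Nat.log 2 b - Nat.log 2 a + 1) * 2 ^ Nat.log 2 a := by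
    rw [← pow_add]
    congr 1
    omega
  rw [h3] at h2'
  have h4 : (0 : ℝ) < 2 ^ Nat.log 2 a := by positivity
  have h5 : y * 2 ^ Nat.log 2 a ≤ 2 ^ (Nat.log 2 b - Nat.log 2 a + 1) * 2 ^ Nat.log 2 a := by
    have : y * 2 ^ Nat.log 2 a ≤ y * a := mul_le_mul_of_nonneg_left h1' (by linarith)
    linarith
  exact le_of_mul_le_mul_right h5 h4

theorem qf5_log' {a b : ℕ} (ha : a ≠ 0) (hb : b ≠ 0) {y : ℝ} (hy : 1 ≤ y)
    (h : y * a ≤ (b : ℝ) ∨ y * b ≤ (a : ℝ)) :
    y ≤ (2 : ℝ) ^ (max (Nat.log 2 a) (Nat.log 2 b) - min (Nat.log 2 a) (Nat.log 2 b) + 1) := by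
  rcases h with h | h
  · exact qf5_log ha hy h
  · rw [max_comm, min_comm]
    exact qf5_log hb hy h

theorem qf5_fx : ∀ m j : Fin 11, fx m j = none ∨ fx m j = some (0, 1) ∨ fx m j = some (1, 0) := by
  decide

theorem psiz_ok_pr {q : Par 11} (hq : q.Ok) {κ : ℝ} (hκ : 0 < κ) {m : Fin 11} {x : ℝ} (hx : 1 ≤ x)
    {P0 : ℕ} {u : PolyK 11} (hu : IsPath q κ m x P0 u) :
    (∃ i : Fin 11 → ℕ, Siz i u ∧ PSiz κ m x i) ∧ dOk m (dl u 1) (dl u 10) := by
  have hp := hu.poly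
  have hpos : ∀ j, nr (u j) ≠ 0 := by
    intro j h
    have h1 := hp.lo j
    rw [h] at h1
    have h2 : 0 < x ^ q.e j := Real.rpow_pos_of_pos (by linarith) _
    simp only [Nat.cast_zero] at h1
    linarith
  have hy : 1 ≤ x ^ (4 * κ) := Real.one_le_rpow hx (by linarith)
  refine ⟨⟨fun j => Nat.log 2 (nr (u j)), ?_, ?_⟩, ?_⟩
  · intro j
    exact ⟨Nat.pow_log_le_self 2 (hpos j), Nat.lt_pow_succ_log_self (by norm_num) _⟩
  · refine ⟨?_, ?_, ?_, ?_, ?_⟩
    · intro j c hc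
      have h1 := hu.fix j c hc
      have h2 : nr (u j) = 1 := by
        rcases qf5_fx m j with h | h | h
        · rw [hc] at h
          exact absurd h (by simp)
        · rw [hu.fix j _ h]
          rfl
        · rw [hu.fix j _ h]
          rfl
      simp only [h2, Nat.log_one_right]
    · intro j hj
      have h2 : nr (u j) < 2 ^ (Nat.log 2 (nr (u j)) + 1) :=
        Nat.lt_pow_succ_log_self (by norm_num) _
      have h2' : (nr (u j) : ℝ) < 2 ^ (Nat.log 2 (nr (u j)) + 1) := by exact_mod_cast h2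
      exact (hu.lo j hj).trans h2'.le
    · intro j
      have h1 : 2 ^ Nat.log 2 (nr (u j)) ≤ nr (u j) := Nat.pow_log_le_self 2 (hpos j)
      have h1' : (2 : ℝ) ^ Nat.log 2 (nr (u j)) ≤ nr (u j) := by exact_mod_cast h1
      have h3 : q.e j + q.ε / 50 ≤ 1 := by
        have h4 : q.e j + q.ε ≤ ∑ k, (q.e k + q.ε) :=
          Finset.single_le_sum (f := fun k => q.e k + q.ε)
            (fun k _ => add_nonneg (hq.he k) hq.ε0.le) (Finset.mem_univ j)
        have h5 := hq.hs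
        have h6 := hq.δ1
        have h7 := hq.ε0
        linarith
      have h8 : x ^ (q.e j + q.ε / 50) ≤ x ^ (1 : ℝ) := Real.rpow_le_rpow_of_exponent_le hx h3
      rw [Real.rpow_one] at h8
      exact h1'.trans ((hp.hi j).trans h8)
    · intro h1 h2
      exact qf5_log' (hpos 1) (hpos 2) hy (hu.g1 h1 h2)
    · intro h1 h2
      exact qf5_log' (hpos (-1)) (hpos 0) hy (hu.g4 h1 h2)
  · constructor
    · intro hm
      subst hm
      have h1 : u 1 = (0, 1) := hu.fix 1 (0, 1) (by decide)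
      have h2 : u 2 = (1, 0) := hu.fix 2 (1, 0) (by decide)
      have e1 : dl u 1 = dt (u 1) (u 2) := rfl
      rw [e1, h1, h2]
      simp [dt]
    · intro hm
      subst hm
      have h1 : u 10 = (0, 1) := hu.fix 10 (0, 1) (by decide)
      have h2 : u 0 = (1, 0) := hu.fix 0 (1, 0) (by decide)
      have e4 : dl u 10 = dt (u 10) (u 0) := rfl
      rw [e4, h1, h2]
      simp [dt]

end Pool.Agent.PENK

namespace Pool.Agent.PENK

theorem path_mem : type_of% @path_mem_pr := @path_mem_pr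

theorem psiz_ok : type_of% @psiz_ok_pr := @psiz_ok_pr

end Pool.Agent.PENK
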