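import Pool.Agent.Lib_helper18.PENKF.DefsQ
import Pool.Agent.Lib_helper8.PENT.B.zb
import Pool.Agent.Lib_helper8.PENT.B.zc
import Pool.Agent.Lib_helper8.PENT.B.zk
import Pool.Agent.Lib_helper68.LEV.MRT

/-! PENK (MP_892e4c_nt), block QH2 (helper76), after PH2 (helper98) -/

set_option autoImplicit false

namespace Pool.Agent.PENK

open Finset Pool.Agent.PENT

theorem qh2_sum_sq (ps P : ℕ) : ∑ p ∈ prs ps P, 1 / (p : ℝ) ^ 2 ≤ 1 := by
  have h0 : prs ps P ⊆ (Ioc 1 P) := by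
    intro p hp
    simp only [prs, Finset.mem_filter, Finset.mem_Ioc] at hp
    rw [Finset.mem_Ioc]
    exact ⟨hp.2.one_lt, hp.1.2⟩
  rcases le_or_gt P 1 with h | h
  · have : prs ps P = ∅ := by
      apply Finset.subset_empty.1
      rw [Finset.Ioc_eq_empty (by omega)] at h0
      exact h0
    rw [this]
    simp
  have h1 : ∑ p ∈ prs ps P, 1 / (p : ℝ) ^ 2 ≤ ∑ p ∈ Ioc 1 P, 1 / (p : ℝ) ^ 2 :=
    Finset.sum_le_sum_of_subset_of_nonneg h0 (fun _ _ _ => by positivity)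
  have h2 : ∑ p ∈ Ioc 1 P, 1 / (p : ℝ) ^ 2 = ∑ p ∈ Ioc 1 P, ((p : ℝ) ^ 2)⁻¹ :=
    Finset.sum_congr rfl (fun _ _ => by rw [one_div])
  have h3 := sum_Ioc_inv_sq_le_sub (α := ℝ) (k := 1) (n := P) (by omega) h.le
  have h4 : (0 : ℝ) ≤ (P : ℝ)⁻¹ := by positivity
  rw [h2] at h1
  norm_num at h3
  linarith

theorem qh2_split (a P : ℕ) (haP : a ≤ P) (q : ℕ → Prop) [DecidablePred q] :
    ∑ p ∈ (prs a P).filter q, 1 / (p : ℝ) =
      ∑ p ∈ (Icc 1 P).filter (fun p => p.Prime ∧ q p), 1 / (p : ℝ) -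
        ∑ p ∈ (Icc 1 a).filter (fun p => p.Prime ∧ q p), 1 / (p : ℝ) := by
  have h1 : (Icc 1 P).filter (fun p => p.Prime ∧ q p) =
      (Icc 1 a).filter (fun p => p.Prime ∧ q p) ∪ (prs a P).filter q := by
    ext p
    simp only [prs, Finset.mem_filter, Finset.mem_Icc, Finset.mem_union, Finset.mem_Ioc]
    constructor
    · rintro ⟨⟨h1, h2⟩, h3, h4⟩
      rcases le_or_gt p a with h | h
      · exact Or.inl ⟨⟨h1, h⟩, h3, h4⟩
      · exact Or.inr ⟨⟨⟨h, h2⟩, h3⟩, h4⟩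
    · rintro (⟨⟨h1, h2⟩, h3, h4⟩ | ⟨⟨⟨h1, h2⟩, h3⟩, h4⟩)
      · exact ⟨⟨h1, h2.trans haP⟩, h3, h4⟩
      · exact ⟨⟨h3.one_lt.le, h2⟩, h3, h4⟩
  have h2 : Disjoint ((Icc 1 a).filter (fun p => p.Prime ∧ q p)) ((prs a P).filter q) := by
    rw [Finset.disjoint_left]
    intro p hp hp'
    simp only [prs, Finset.mem_filter, Finset.mem_Icc, Finset.mem_Ioc] at hp hp'
    omega
  rw [h1, Finset.sum_union h2]
  ring

theorem qh2_prod_le (S : Finset ℕ) (f : ℕ → ℝ) (hf : ∀ p ∈ S, 0 ≤ 1 + f p) :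
    ∏ p ∈ S, (1 + f p) ≤ Real.exp (∑ p ∈ S, f p) := by
  rw [Real.exp_sum]
  apply Finset.prod_le_prod hf
  intro p _
  have := Real.add_one_le_exp (f p)
  linarith

/-- the primes in `(P, x]` for `P ≥ x ^ τ` -/
theorem qh2_tail {C0 : ℝ} (hC0 : ∀ x : ℝ, 2 ≤ x →
      |∑ p ∈ (Icc 1 ⌊x⌋₊).filter Nat.Prime, 1 / (p : ℝ) - Real.log (Real.log x)| ≤ C0)
    {τ : ℝ} (hτ : 0 < τ) {x : ℝ} (hx : 2 ≤ x) {P : ℕ} (hP2 : 2 ≤ P) (hτP : x ^ τ ≤ P)
    (hPx : (P : ℝ) ≤ x) {Q : Finset ℕ} (hQm : ∀ p ∈ Q, P < p ∧ p ≤ ⌊x⌋₊ ∧ p.Prime) :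
    ∑ p ∈ Q, 1 / (p : ℝ) ≤ 2 * C0 - Real.log τ := by
  classical
  obtain ⟨N, hN⟩ : ∃ N, N = ⌊x⌋₊ := ⟨_, rfl⟩
  have hPN : P ≤ N := by
    rw [hN]; exact Nat.le_floor hPx
  have hP2' : (2:ℝ) ≤ P := by exact_mod_cast hP2
  have m1 := hC0 x hx
  have m2 := hC0 P hP2'
  rw [Nat.floor_natCast] at m2
  rw [← hN] at m1
  rw [← hN] at hQm
  rw [abs_le] at m1 m2
  have h3 : ∑ p ∈ Q, 1 / (p : ℝ) + ∑ p ∈ (Icc 1 P).filter Nat.Prime, 1 / (p : ℝ) ≤
      ∑ p ∈ (Icc 1 N).filter Nat.Prime, 1 / (p : ℝ) := by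
    rw [← sum_union]
    · refine sum_le_sum_of_subset_of_nonneg ?_ (fun p _ _ => by positivity)
      intro p hp
      rw [mem_filter, mem_Icc]
      rcases mem_union.1 hp with h | h
      · obtain ⟨a, b, c⟩ := hQm p h
        exact ⟨⟨by omega, b⟩, c⟩
      · rw [mem_filter, mem_Icc] at h
        exact ⟨⟨h.1.1, h.1.2.trans hPN⟩, h.2⟩
    · rw [disjoint_left]
      intro p hp hp'
      have a := (hQm p hp).1
      rw [mem_filter, mem_Icc] at hp'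
      omega
  have hx0 : 0 < x := by linarith
  have hlx : 0 < Real.log x := Real.log_pos (by linarith)
  have h4 : τ * Real.log x ≤ Real.log P := by
    rw [← Real.log_rpow hx0]
    exact Real.log_le_log (by positivity) hτP
  have h5 : Real.log τ + Real.log (Real.log x) ≤ Real.log (Real.log P) := by
    rw [← Real.log_mul hτ.ne' hlx.ne']
    exact Real.log_le_log (by positivity) h4
  linarith [m1.2, m2.1]

/-- the density terms -/
theorem qh2_term (B3 BP B1 σ : ℝ) (h3 : 0 ≤ B3) (hP : 0 ≤ BP) (h1 : 0 ≤ B1)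
    (hbal : B1 - σ = BP) (P0 p : ℕ) (hp : p.Prime) :
    -((if p % 4 = 3 then B3 else if p ≤ P0 then BP else B1) / (p : ℝ)) ≤
      -B3 * (if p % 4 = 3 then 1 / (p : ℝ) else 0) - BP * (if p % 4 = 1 then 1 / (p : ℝ) else 0) -
        σ * (if p % 4 = 1 ∧ P0 < p then 1 / (p : ℝ) else 0) := by
  have hp0 : (0 : ℝ) < p := by exact_mod_cast hp.pos
  have hB1 : B1 = BP + σ := by linarith
  by_cases h4 : p % 4 = 3
  · rw [if_pos h4, if_pos h4, if_neg (by omega : ¬ p % 4 = 1), if_neg (by omega)]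
    apply le_of_eq; ring
  · rw [if_neg h4, if_neg h4]
    by_cases h5 : p % 4 = 1
    · rw [if_pos h5]
      by_cases h6 : p ≤ P0
      · rw [if_pos h6, if_neg (by omega)]
        apply le_of_eq; ring
      · rw [if_neg h6, if_pos ⟨h5, by omega⟩, hB1]
        apply le_of_eq; ring
    · rw [if_neg h5, if_neg (show ¬ (p % 4 = 1 ∧ P0 < p) from fun h => h5 h.1)]
      have : 0 ≤ (if p ≤ P0 then BP else B1) / (p : ℝ) := by
        apply div_nonneg _ hp0.le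
        split_ifs <;> assumption
      linarith

theorem qh2_exp (B3 BP B1 σ C1 : ℝ) (h3 : 0 ≤ B3) (hP : 0 ≤ BP) (h1 : 0 ≤ B1) (hσ : 0 ≤ σ)
    (hbal : B1 - σ = BP) (hC1 : 0 ≤ C1) (ps P0 P1 P : ℕ) {U : ℝ}
    (hU : ∑ p ∈ prs P1 P, 1 / (p : ℝ) ≤ U) :
    ∑ p ∈ prs ps P1, (-((if p % 4 = 3 then B3 else if p ≤ P0 then BP else B1) / (p : ℝ)) +
        C1 / (p : ℝ) ^ 2) +
      ∑ p ∈ (prs P0 P).filter (fun p => p % 4 = 1), σ / (p : ℝ) ≤
    -B3 * ∑ p ∈ (prs ps P1).filter (fun p => p % 4 = 3), 1 / (p : ℝ) -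
      BP * ∑ p ∈ (prs ps P1).filter (fun p => p % 4 = 1), 1 / (p : ℝ) + C1 + σ * (ps + U) := by
  have e1 : ∑ p ∈ (prs P0 P).filter (fun p => p % 4 = 1), σ / (p : ℝ) =
      σ * ∑ p ∈ (prs P0 P).filter (fun p => p % 4 = 1), 1 / (p : ℝ) := by
    rw [mul_sum]
    exact sum_congr rfl fun p _ => by ring
  have e2 : ∑ p ∈ (prs P0 P).filter (fun p => p % 4 = 1), 1 / (p : ℝ) ≤
      ∑ p ∈ (prs ps P1).filter (fun p => p % 4 = 1 ∧ P0 < p), 1 / (p : ℝ) + ps + U := by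
    have s1 : (prs P0 P).filter (fun p => p % 4 = 1) ⊆
        ((prs ps P1).filter (fun p => p % 4 = 1 ∧ P0 < p) ∪ Icc 1 ps) ∪ prs P1 P := by
      intro p hp
      simp only [prs, Finset.mem_filter, Finset.mem_Icc, Finset.mem_union, Finset.mem_Ioc] at hp ⊢
      obtain ⟨⟨⟨h1, h2⟩, h3⟩, h4⟩ := hp
      rcases le_or_gt p ps with h | h
      · exact Or.inl (Or.inr ⟨h3.one_lt.le, h⟩)
      · rcases le_or_gt p P1 with h' | h'
        · exact Or.inl (Or.inl ⟨⟨⟨h, h'⟩, h3⟩, h4, h1⟩)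
        · exact Or.inr ⟨⟨h', h2⟩, h3⟩
    have s2 : ∑ p ∈ Icc 1 ps, 1 / (p : ℝ) ≤ ps := by
      calc ∑ p ∈ Icc 1 ps, 1 / (p : ℝ) ≤ ∑ _p ∈ Icc 1 ps, (1 : ℝ) := by
            apply Finset.sum_le_sum
            intro p hp
            rw [Finset.mem_Icc] at hp
            have : (1 : ℝ) ≤ (p : ℝ) := by exact_mod_cast hp.1
            exact div_le_self (by norm_num) this
        _ = ps := by
            rw [Finset.sum_const, Nat.card_Icc, nsmul_eq_mul]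
            simp
    have s3 : ∑ p ∈ (prs P0 P).filter (fun p => p % 4 = 1), 1 / (p : ℝ) ≤
        ∑ p ∈ ((prs ps P1).filter (fun p => p % 4 = 1 ∧ P0 < p) ∪ Icc 1 ps) ∪ prs P1 P,
          1 / (p : ℝ) :=
      Finset.sum_le_sum_of_subset_of_nonneg s1 (fun _ _ _ => by positivity)
    have s4 : ∑ p ∈ ((prs ps P1).filter (fun p => p % 4 = 1 ∧ P0 < p) ∪ Icc 1 ps) ∪ prs P1 P,
          1 / (p : ℝ) ≤ ∑ p ∈ (prs ps P1).filter (fun p => p % 4 = 1 ∧ P0 < p) ∪ Icc 1 ps,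
          1 / (p : ℝ) + ∑ p ∈ prs P1 P, 1 / (p : ℝ) := by
      have := Finset.sum_union_inter (s₁ := (prs ps P1).filter (fun p => p % 4 = 1 ∧ P0 < p) ∪
        Icc 1 ps) (s₂ := prs P1 P) (f := fun p => 1 / (p : ℝ))
      have h0 : 0 ≤ ∑ p ∈ ((prs ps P1).filter (fun p => p % 4 = 1 ∧ P0 < p) ∪
        Icc 1 ps) ∩ prs P1 P, 1 / (p : ℝ) := Finset.sum_nonneg fun _ _ => by positivity
      linarith
    have s5 : ∑ p ∈ (prs ps P1).filter (fun p => p % 4 = 1 ∧ P0 < p) ∪ Icc 1 ps,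
          1 / (p : ℝ) ≤ ∑ p ∈ (prs ps P1).filter (fun p => p % 4 = 1 ∧ P0 < p),
          1 / (p : ℝ) + ∑ p ∈ Icc 1 ps, 1 / (p : ℝ) := by
      have := Finset.sum_union_inter (s₁ := (prs ps P1).filter (fun p => p % 4 = 1 ∧ P0 < p))
        (s₂ := Icc 1 ps) (f := fun p => 1 / (p : ℝ))
      have h0 : 0 ≤ ∑ p ∈ (prs ps P1).filter (fun p => p % 4 = 1 ∧ P0 < p) ∩ Icc 1 ps,
        1 / (p : ℝ) := Finset.sum_nonneg fun _ _ => by positivity
      linarith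
    linarith
  have e3 : ∑ p ∈ prs ps P1,
      (-((if p % 4 = 3 then B3 else if p ≤ P0 then BP else B1) / (p : ℝ)) + C1 / (p : ℝ) ^ 2) ≤
      -B3 * ∑ p ∈ (prs ps P1).filter (fun p => p % 4 = 3), 1 / (p : ℝ) -
      BP * ∑ p ∈ (prs ps P1).filter (fun p => p % 4 = 1), 1 / (p : ℝ) -
      σ * ∑ p ∈ (prs ps P1).filter (fun p => p % 4 = 1 ∧ P0 < p), 1 / (p : ℝ) + C1 := by
    have h6 := qh2_sum_sq ps P1
    have h8 : C1 * ∑ p ∈ prs ps P1, 1 / (p : ℝ) ^ 2 ≤ C1 := by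
      calc C1 * ∑ p ∈ prs ps P1, 1 / (p : ℝ) ^ 2 ≤ C1 * 1 := mul_le_mul_of_nonneg_left h6 hC1
        _ = C1 := mul_one _
    rw [Finset.sum_filter, Finset.sum_filter, Finset.sum_filter]
    refine le_trans ?_ (add_le_add_right h8 _)
    rw [Finset.mul_sum, Finset.mul_sum, Finset.mul_sum, Finset.mul_sum,
      ← Finset.sum_sub_distrib, ← Finset.sum_sub_distrib, ← Finset.sum_add_distrib]
    apply Finset.sum_le_sum
    intro p hp
    simp only [prs, Finset.mem_filter, Finset.mem_Ioc] at hp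
    have := qh2_term B3 BP B1 σ h3 hP h1 hbal P0 p hp.2
    have e : C1 / (p : ℝ) ^ 2 = C1 * (1 / (p : ℝ) ^ 2) := by ring
    linarith
  rw [e1]
  have e4 := mul_le_mul_of_nonneg_left e2 hσ
  linarith

theorem qh2_ll {x τ : ℝ} (hx : 2 ≤ x) (hτ : 0 < τ) {P : ℕ} (hP2 : (2 : ℝ) ≤ P) (hxP : x ^ τ ≤ P) :
    Real.log τ + Real.log (Real.log x) ≤ Real.log (Real.log P) := by
  have hx0 : 0 < x := by linarith
  have hlx : 0 < Real.log x := Real.log_pos (by linarith)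
  have h4 : τ * Real.log x ≤ Real.log P := by
    rw [← Real.log_rpow hx0]
    exact Real.log_le_log (by positivity) hxP
  rw [← Real.log_mul hτ.ne' hlx.ne']
  exact Real.log_le_log (by positivity) h4

/-- BLOCK QH2 (as PH2: helper8's `mertens_s14`, `mertens_two`): the Mertens exponents, general form; the sieve
level `P1` may differ from `P`. -/
theorem mert_gen_pr (B3 BP B1 σ C1 : ℝ) (h3 : 0 ≤ B3) (hP : 0 ≤ BP) (h1 : 0 ≤ B1) (hσ : 0 ≤ σ)
    (hbal : B1 - σ = BP) (hC1 : 0 ≤ C1) (ps : ℕ)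
    (hpos : ∀ P0 p : ℕ, p.Prime → ps < p → 1 / 4 ≤ FFg B3 BP B1 C1 P0 p) {τ : ℝ} (hτ : 0 < τ) :
    ∃ C x₀ : ℝ, 0 ≤ C ∧ 2 ≤ x₀ ∧ ∀ x ≥ x₀, ∀ P0 P1 P : ℕ, 2 ≤ P0 → P0 ≤ P1 → P0 ≤ P →
      x ^ τ ≤ P1 → (P1 : ℝ) ≤ x → x ^ τ ≤ P → (P : ℝ) ≤ x →
      (∏ p ∈ prs ps P1, FFg B3 BP B1 C1 P0 p) *
        ∏ p ∈ (prs P0 P).filter (fun p => p % 4 = 1), (1 + σ / (p : ℝ)) ≤
        C * Real.log x ^ (-(B3 / 2) - BP / 2) := by
  obtain ⟨Ca, hCa, Ha⟩ := mertens_s14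
  obtain ⟨Cb, Hb⟩ := Pool.Agent.LEV.mertens_two
  -- the sums over the residue classes
  obtain ⟨K, hK⟩ : ∃ K : ℝ, K = Ca + Cb + ps + 1 := ⟨_, rfl⟩
  set D : ℝ := B3 * (K - Real.log τ / 2) + BP * (K - Real.log τ / 2) + C1 +
    σ * (ps + (2 * Cb - Real.log τ)) with hD
  refine ⟨Real.exp D, max 2 ((ps : ℝ) ^ (1 / τ)), by positivity, le_max_left _ _, ?_⟩
  intro x hx P0 P1 P hP0 hP01 hP0P hxP1 hP1x hxP hPx
  have hx2 : 2 ≤ x := (le_max_left _ _).trans hx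
  have hx3 : (ps : ℝ) ^ (1 / τ) ≤ x := (le_max_right _ _).trans hx
  have hx0 : 0 < x := by linarith
  have hpsP : ps ≤ P1 := by
    have h1 : (ps : ℝ) ≤ x ^ τ := by
      have h2 := Real.rpow_le_rpow (by positivity) hx3 hτ.le
      rw [← Real.rpow_mul (Nat.cast_nonneg _), one_div, inv_mul_cancel₀ hτ.ne',
        Real.rpow_one] at h2
      exact h2
    exact_mod_cast h1.trans hxP1
  have hP2 : (2 : ℝ) ≤ P1 := by
    have : 2 ≤ P1 := by omega
    exact_mod_cast this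
  have hlx : 0 < Real.log x := Real.log_pos (by linarith)
  -- the products
  set b : ℕ → ℝ := fun p => if p % 4 = 3 then B3 else if p ≤ P0 then BP else B1 with hb
  have e0 : ∀ p, FFg B3 BP B1 C1 P0 p = 1 + (-(b p / (p : ℝ)) + C1 / (p : ℝ) ^ 2) := by
    intro p
    simp only [FFg, hb]
    ring
  have e1 : ∏ p ∈ prs ps P1, FFg B3 BP B1 C1 P0 p ≤
      Real.exp (∑ p ∈ prs ps P1, (-(b p / (p : ℝ)) + C1 / (p : ℝ) ^ 2)) := by
    rw [Finset.prod_congr rfl fun p _ => e0 p]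
    apply qh2_prod_le
    intro p hp
    simp only [prs, Finset.mem_filter, Finset.mem_Ioc] at hp
    have h2 := hpos P0 p hp.2 hp.1.1
    rw [e0] at h2
    linarith
  have e2 : ∏ p ∈ (prs P0 P).filter (fun p => p % 4 = 1), (1 + σ / (p : ℝ)) ≤
      Real.exp (∑ p ∈ (prs P0 P).filter (fun p => p % 4 = 1), σ / (p : ℝ)) :=
    qh2_prod_le _ _ (fun p _ => by positivity)
  have hU : ∑ p ∈ prs P1 P, 1 / (p : ℝ) ≤ 2 * Cb - Real.log τ := by
    apply qh2_tail Hb hτ hx2 (by omega) hxP1 hP1x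
    intro p hp
    simp only [prs, Finset.mem_filter, Finset.mem_Ioc] at hp
    exact ⟨hp.1.1, hp.1.2.trans (Nat.le_floor hPx), hp.2⟩
  have e3 := qh2_exp B3 BP B1 σ C1 h3 hP h1 hσ hbal hC1 ps P0 P1 P hU
  -- the classes
  have c1 := Ha P1 hP2
  have c2 := Hb P1 hP2
  have c3 := qh2_ll hx2 hτ hP2 hxP1
  rw [Nat.floor_natCast] at c2
  have d1 : s14 P1 = ∑ p ∈ (Icc 1 P1).filter (fun p => p.Prime ∧ p % 4 = 1), 1 / (p : ℝ) := by
    unfold s14
    rw [Nat.floor_natCast]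
  rw [d1] at c1
  have hsm : ∀ (q : ℕ → Prop) [DecidablePred q],
      ∑ p ∈ (Icc 1 ps).filter (fun p => p.Prime ∧ q p), 1 / (p : ℝ) ≤ ps := by
    intro q _
    calc ∑ p ∈ (Icc 1 ps).filter (fun p => p.Prime ∧ q p), 1 / (p : ℝ)
        ≤ ∑ p ∈ Icc 1 ps, 1 / (p : ℝ) :=
          Finset.sum_le_sum_of_subset_of_nonneg (Finset.filter_subset _ _)
            (fun _ _ _ => by positivity)
      _ ≤ ∑ _p ∈ Icc 1 ps, (1 : ℝ) := by
          apply Finset.sum_le_sum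
          intro p hp
          rw [Finset.mem_Icc] at hp
          have : (1 : ℝ) ≤ (p : ℝ) := by exact_mod_cast hp.1
          exact div_le_self (by norm_num) this
      _ = ps := by
          rw [Finset.sum_const, Nat.card_Icc, nsmul_eq_mul]
          simp
  have T1 : Real.log (Real.log x) / 2 - (K - Real.log τ / 2) ≤
      ∑ p ∈ (prs ps P1).filter (fun p => p % 4 = 1), 1 / (p : ℝ) := by
    rw [qh2_split ps P1 hpsP]
    have s1 := hsm (fun p => p % 4 = 1)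
    have s2 := (abs_le.1 c1).1
    have s3 : 0 ≤ Cb := (abs_nonneg _).trans c2
    rw [hK]
    linarith
  have T3 : Real.log (Real.log x) / 2 - (K - Real.log τ / 2) ≤
      ∑ p ∈ (prs ps P1).filter (fun p => p % 4 = 3), 1 / (p : ℝ) := by
    rw [qh2_split ps P1 hpsP]
    have s1 := hsm (fun p => p % 4 = 3)
    have s2 := (abs_le.1 c1).2
    have s3 := (abs_le.1 c2).1
    have s4 : ∑ p ∈ (Icc 1 P1).filter Nat.Prime, 1 / (p : ℝ) ≤
        1 / 2 + ∑ p ∈ (Icc 1 P1).filter (fun p => p.Prime ∧ p % 4 = 1), 1 / (p : ℝ) +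
        ∑ p ∈ (Icc 1 P1).filter (fun p => p.Prime ∧ p % 4 = 3), 1 / (p : ℝ) := by
      have t1 : ∑ p ∈ (Icc 1 P1).filter Nat.Prime, 1 / (p : ℝ) ≤
          ∑ p ∈ (Icc 1 P1).filter Nat.Prime, ((if p = 2 then 1 / (2 : ℝ) else 0) +
            (if p % 4 = 1 then 1 / (p : ℝ) else 0) + (if p % 4 = 3 then 1 / (p : ℝ) else 0)) := by
        apply Finset.sum_le_sum
        intro p hp
        rw [Finset.mem_filter] at hp
        have hp0 : (0 : ℝ) < p := by exact_mod_cast hp.2.pos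
        rcases hp.2.eq_two_or_odd with h | h
        · subst h
          norm_num
        · have hp2 : p ≠ 2 := by omega
          rcases (by omega : p % 4 = 1 ∨ p % 4 = 3) with h' | h'
          · rw [if_neg hp2, if_pos h', if_neg (by omega)]
            simp
          · rw [if_neg hp2, if_neg (by omega), if_pos h']
            simp
      refine t1.trans ?_
      rw [Finset.sum_add_distrib, Finset.sum_add_distrib]
      have t2 : ∑ p ∈ (Icc 1 P1).filter Nat.Prime, (if p = 2 then 1 / (2 : ℝ) else 0) ≤ 1 / 2 := by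
        rw [Finset.sum_ite_eq']
        split_ifs <;> norm_num
      have t3 : ∑ p ∈ (Icc 1 P1).filter Nat.Prime, (if p % 4 = 1 then 1 / (p : ℝ) else 0) =
          ∑ p ∈ (Icc 1 P1).filter (fun p => p.Prime ∧ p % 4 = 1), 1 / (p : ℝ) := by
        rw [← Finset.sum_filter, Finset.filter_filter]
      have t4 : ∑ p ∈ (Icc 1 P1).filter Nat.Prime, (if p % 4 = 3 then 1 / (p : ℝ) else 0) =
          ∑ p ∈ (Icc 1 P1).filter (fun p => p.Prime ∧ p % 4 = 3), 1 / (p : ℝ) := by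
        rw [← Finset.sum_filter, Finset.filter_filter]
      rw [t3, t4]
      linarith
    rw [hK]
    linarith
  have e4 : (∏ p ∈ prs ps P1, FFg B3 BP B1 C1 P0 p) *
        ∏ p ∈ (prs P0 P).filter (fun p => p % 4 = 1), (1 + σ / (p : ℝ)) ≤
      Real.exp (D + (-(B3 / 2) - BP / 2) * Real.log (Real.log x)) := by
    calc _ ≤ Real.exp (∑ p ∈ prs ps P1, (-(b p / (p : ℝ)) + C1 / (p : ℝ) ^ 2)) *
          Real.exp (∑ p ∈ (prs P0 P).filter (fun p => p % 4 = 1), σ / (p : ℝ)) :=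
          mul_le_mul e1 e2 (prod_nonneg fun p _ => by positivity) (Real.exp_nonneg _)
      _ = Real.exp (∑ p ∈ prs ps P1, (-(b p / (p : ℝ)) + C1 / (p : ℝ) ^ 2) +
          ∑ p ∈ (prs P0 P).filter (fun p => p % 4 = 1), σ / (p : ℝ)) := by
          rw [Real.exp_add]
      _ ≤ _ := by
          apply Real.exp_le_exp.2
          refine e3.trans ?_
          have u1 := mul_le_mul_of_nonneg_left T3 h3
          have u2 := mul_le_mul_of_nonneg_left T1 hP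
          rw [hD]
          linarith
  refine e4.trans (le_of_eq ?_)
  rw [Real.rpow_def_of_pos hlx, ← Real.exp_add]
  congr 1
  ring

end Pool.Agent.PENK

namespace Pool.Agent.PENK

theorem mert_gen : type_of% @mert_gen_pr := @mert_gen_pr

end Pool.Agent.PENK
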