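import Mathlib
import Pool.Agent.Lib_helper18.PENKF.DefsQ
import Pool.Agent.Lib_helper18.PENKF.QF5
import Pool.Agent.Lib_helper18.PENKF.QH1
import Pool.Agent.Lib_helper18.PENKF.QH2
import Pool.Agent.Lib_helper18.PENKF.QH3
import Pool.Agent.Lib_helper18.PENKF.QH5
import Pool.Agent.Lib_helper18.PENKF.QH6
import Pool.Agent.Lib_helper18.PENKF.PR2

set_option autoImplicit false

namespace Pool.Agent.PENK

open Finset Pool.Agent.PENT

theorem qh7_dl (q : Par 11) (hq : q.Ok) {x : ℝ} {P0 : ℕ} {u : PolyK 11} (h : IsPoly q x P0 u)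
    (j : Fin 11) : dl u j = q.σ j (j + 1) * (dn u j : ℤ) := by
  have hj : j ≠ j + 1 := by fin_cases j <;> decide
  have h1 := h.sg j (j + 1) hj
  unfold dn dl
  rcases hq.hσ j (j + 1) with h2 | h2
  · rw [h2] at h1 ⊢
    rw [one_mul] at h1 ⊢
    rw [Int.natCast_natAbs, abs_of_pos h1]
  · rw [h2] at h1 ⊢
    rw [Int.natCast_natAbs, abs_of_neg (by linarith)]
    ring

theorem qh7_abs (q : Par 11) (hq : q.Ok) (i j : Fin 11) (a : ℕ) :
    (q.σ i j * (a : ℤ)).natAbs = a := by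
  rcases hq.hσ i j with h2 | h2 <;> rw [h2] <;> simp

theorem qh7_mem (q : Par 11) (hq : q.Ok) : ∃ x₀ : ℝ, 2 ≤ x₀ ∧ ∀ x ≥ x₀, ∀ P0 : ℕ,
    ∀ u : PolyK 11, IsPoly q x P0 u → One4 u → ∀ j, dn u j ∈ DP0 P0 ⌊x⌋₊ := by
  classical
  obtain ⟨x₀, hx₀, H⟩ := DD_le (K := 11) hq
  refine ⟨max 2 x₀, le_max_left _ _, fun x hx P0 u hu h4 j => ?_⟩
  have hx1 : x₀ ≤ x := le_trans (le_max_right _ _) hx
  have hx2 : (2 : ℝ) ≤ x := le_trans (le_max_left _ _) hx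
  obtain ⟨h1, h2⟩ := H x hx1 P0 u hu
  have hdv : dn u j ∣ DD u := Finset.dvd_prod_of_mem _ (Finset.mem_univ j)
  have hpos : 0 < dn u j := Nat.pos_of_dvd_of_pos hdv h1
  have hle : dn u j ≤ DD u := Nat.le_of_dvd h1 hdv
  have hle2 : (dn u j : ℝ) ≤ x := by
    have h3 : (dn u j : ℝ) ≤ DD u := by exact_mod_cast hle
    have h4 : x ^ (q.δ / 20) ≤ x ^ (1 : ℝ) := by
      apply Real.rpow_le_rpow_of_exponent_le (by linarith)
      have := hq.δ1
      linarith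
    rw [Real.rpow_one] at h4
    linarith
  unfold DP0
  rw [Finset.mem_filter, Finset.mem_Icc]
  refine ⟨⟨hpos, Nat.le_floor hle2⟩, hu.sq j, fun p hp hpd => ⟨hu.ro j p hp hpd, h4 p hp (hpd.trans hdv)⟩⟩

theorem qh7_siz {q : Par 11} {x : ℝ} (hx : 0 < x) {P0 : ℕ} {u : PolyK 11}
    (h : IsPoly q x P0 u) : Siz (fun j => Nat.log 2 (nr (u j))) u := by
  intro j
  have h1 : nr (u j) ≠ 0 := by
    intro h0
    have h2 := h.lo j
    rw [h0] at h2
    have h3 : 0 < x ^ q.e j := Real.rpow_pos_of_pos hx _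
    simp at h2
    linarith
  exact ⟨Nat.pow_log_le_self 2 h1, Nat.lt_pow_succ_log_self (by norm_num) _⟩

theorem qh7_wsp_nn (P : ℕ) {both one : ℝ} (hb : 0 ≤ both) (ho : 0 ≤ one) (d d' : ℕ) :
    0 ≤ wsp P both one d d' := by
  unfold wsp
  apply Finset.prod_nonneg
  intro p _
  have h1 : 0 ≤ lw P p both := by
    unfold lw
    split_ifs
    · exact hb
    · norm_num
  have h2 : 0 ≤ lw P p one := by
    unfold lw
    split_ifs
    · exact ho
    · norm_num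
  split_ifs <;> positivity

theorem qh7_par {a b : ℝ} (ha : 0 ≤ a) (ha1 : a ≤ 1 / 2) (hb : 0 < b)
    (hb1 : b ≤ 1) : 0 ≤ a ^ 2 / (b + a) ∧ a ^ 2 / (b + a) ≤ 1 ∧ 0 ≤ a * b / (b + a) ∧
      a * b / (b + a) ≤ 1 := by
  have hs : 0 < b + a := by linarith
  refine ⟨by positivity, ?_, by positivity, ?_⟩
  · rw [div_le_one hs]
    nlinarith
  · rw [div_le_one hs]
    nlinarith

theorem qh7_sum_sq (ps P : ℕ) (hps : 1 ≤ ps) : ∑ p ∈ prs ps P, 1 / (p : ℝ) ^ 2 ≤ 1 := by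
  unfold prs
  rcases le_or_gt P ps with h | h
  · rw [Finset.Ioc_eq_empty (by omega)]
    simp
  have h1 : ∑ p ∈ (Ioc ps P).filter Nat.Prime, 1 / (p : ℝ) ^ 2 ≤ ∑ p ∈ Ioc ps P, 1 / (p : ℝ) ^ 2 :=
    Finset.sum_le_sum_of_subset_of_nonneg (Finset.filter_subset _ _)
      (fun _ _ _ => by positivity)
  have h2 : ∑ p ∈ Ioc ps P, 1 / (p : ℝ) ^ 2 = ∑ p ∈ Ioc ps P, ((p : ℝ) ^ 2)⁻¹ :=
    Finset.sum_congr rfl (fun _ _ => by rw [one_div])
  have h3 := sum_Ioc_inv_sq_le_sub (α := ℝ) (k := ps) (n := P) (by omega) h.le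
  have h4 : (0 : ℝ) ≤ (P : ℝ)⁻¹ := by positivity
  have h5 : (ps : ℝ)⁻¹ ≤ 1 := by
    apply inv_le_one_of_one_le₀
    exact_mod_cast hps
  rw [h2] at h1
  linarith

theorem qh7_prod_le (S : Finset ℕ) (f : ℕ → ℝ) (hf : ∀ p ∈ S, 0 ≤ 1 + f p) :
    ∏ p ∈ S, (1 + f p) ≤ Real.exp (∑ p ∈ S, f p) := by
  rw [Real.exp_sum]
  apply Finset.prod_le_prod hf
  intro p _
  have := Real.add_one_le_exp (f p)
  linarith

/-- the product over a special edge is at most a power of `log x` -/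
theorem qh7_G : ∃ C : ℝ, 0 ≤ C ∧ ∀ x : ℝ, 2 ≤ x → 1 ≤ Real.log x → ∀ P0 P : ℕ, (P : ℝ) ≤ x →
    ∀ σ : ℝ, 0 ≤ σ → σ ≤ 6 →
    ∏ p ∈ (prs P0 P).filter (fun p => p % 4 = 1), (1 + σ / (p : ℝ)) ≤ C * Real.log x ^ 6 := by
  obtain ⟨C, hC⟩ := Pool.Agent.LEV.mertens_two
  refine ⟨Real.exp (6 * |C|), (Real.exp_pos _).le, ?_⟩
  intro x hx hL P0 P hP σ hσ hσ6
  have h1 := qh7_prod_le ((prs P0 P).filter (fun p => p % 4 = 1)) (fun p => σ / (p : ℝ))
    (fun p _ => by positivity)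
  refine h1.trans ?_
  have hsum : ∑ p ∈ (prs P0 P).filter (fun p => p % 4 = 1), σ / (p : ℝ) ≤
      6 * ∑ p ∈ (Finset.Icc 1 ⌊x⌋₊).filter Nat.Prime, 1 / (p : ℝ) := by
    rw [Finset.mul_sum]
    calc ∑ p ∈ (prs P0 P).filter (fun p => p % 4 = 1), σ / (p : ℝ) ≤
        ∑ p ∈ (prs P0 P).filter (fun p => p % 4 = 1), 6 * (1 / (p : ℝ)) := by
          apply Finset.sum_le_sum
          intro p _
          rw [mul_one_div]
          exact div_le_div_of_nonneg_right hσ6 (Nat.cast_nonneg p)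
      _ ≤ _ := by
          apply Finset.sum_le_sum_of_subset_of_nonneg
          · intro p hp
            rw [Finset.mem_filter] at hp
            have hp1 := hp.1
            unfold prs at hp1
            rw [Finset.mem_filter, Finset.mem_Ioc] at hp1
            rw [Finset.mem_filter, Finset.mem_Icc]
            refine ⟨⟨hp1.2.pos, ?_⟩, hp1.2⟩
            apply Nat.le_floor
            have : (p : ℝ) ≤ P := by exact_mod_cast hp1.1.2
            linarith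
          · intro p _ _
            positivity
  have hm := (abs_le.1 (hC x hx)).2
  have hCC : C ≤ |C| := le_abs_self C
  have h2 : ∑ p ∈ (prs P0 P).filter (fun p => p % 4 = 1), σ / (p : ℝ) ≤
      6 * |C| + 6 * Real.log (Real.log x) := by linarith
  refine (Real.exp_le_exp.2 h2).trans (le_of_eq ?_)
  rw [Real.exp_add]
  congr 1
  have hL0 : 0 < Real.log x := by linarith
  rw [show (6 : ℝ) * Real.log (Real.log x) = ((6 : ℕ) : ℝ) * Real.log (Real.log x) by norm_num,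
    Real.exp_nat_mul, Real.exp_log hL0]

theorem qh7_small {e : ℝ} (he : 0 < e) : ∃ x₀ : ℝ, 2 ≤ x₀ ∧ ∀ x ≥ x₀,
    x ^ (-e) * Real.log x ^ 12 ≤ Real.log x ^ (-100 : ℝ) := by
  have h1 := (isLittleO_log_rpow_rpow_atTop (112 : ℝ) he).bound
    (show (0 : ℝ) < 1 by norm_num)
  obtain ⟨x₀, h2⟩ := Filter.eventually_atTop.1 h1
  refine ⟨max 2 x₀, le_max_left _ _, fun x hx => ?_⟩
  have h3 := h2 x (le_trans (le_max_right _ _) hx)
  have hx2 : (2 : ℝ) ≤ x := le_trans (le_max_left _ _) hx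
  have hlog : 0 < Real.log x := Real.log_pos (by linarith)
  have hp1 : 0 < Real.log x ^ (112 : ℝ) := Real.rpow_pos_of_pos hlog _
  have hp2 : 0 < x ^ e := Real.rpow_pos_of_pos (by linarith) _
  rw [Real.norm_of_nonneg hp1.le, Real.norm_of_nonneg hp2.le, one_mul] at h3
  have h4 : Real.log x ^ 12 = Real.log x ^ (112 : ℝ) * Real.log x ^ (-100 : ℝ) := by
    rw [← Real.rpow_add hlog, ← Real.rpow_natCast]
    norm_num
  rw [h4, Real.rpow_neg (by linarith : (0 : ℝ) ≤ x), ← mul_assoc]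
  have h5 : (x ^ e)⁻¹ * Real.log x ^ (112 : ℝ) ≤ 1 := by
    rw [← div_eq_inv_mul, div_le_one hp2]
    exact h3
  have h6 : 0 ≤ Real.log x ^ (-100 : ℝ) := (Real.rpow_pos_of_pos hlog _).le
  calc _ ≤ 1 * Real.log x ^ (-100 : ℝ) := mul_le_mul_of_nonneg_right h5 h6
    _ = _ := one_mul _

/-- the two products in one -/
theorem qh7_two (P0 P : ℕ) (hP0 : 1 ≤ P0) {a b : ℝ} (ha : 0 ≤ a) (ha6 : a ≤ 6) (hb : 0 ≤ b)
    (hb6 : b ≤ 6) :
    (∏ p ∈ (prs P0 P).filter (fun p => p % 4 = 1), (1 + a / (p : ℝ))) *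
      (∏ p ∈ (prs P0 P).filter (fun p => p % 4 = 1), (1 + b / (p : ℝ))) ≤
      Real.exp 36 * ∏ p ∈ (prs P0 P).filter (fun p => p % 4 = 1), (1 + (a + b) / (p : ℝ)) := by
  have hab : a * b ≤ 36 := by nlinarith
  rw [← Finset.prod_mul_distrib]
  have h1 : ∏ p ∈ (prs P0 P).filter (fun p => p % 4 = 1),
      ((1 + a / (p : ℝ)) * (1 + b / (p : ℝ))) ≤
      ∏ p ∈ (prs P0 P).filter (fun p => p % 4 = 1),
        ((1 + (a + b) / (p : ℝ)) * (1 + 36 / (p : ℝ) ^ 2)) := by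
    apply Finset.prod_le_prod
    · intro p _
      positivity
    · intro p _
      have e1 : (1 + a / (p : ℝ)) * (1 + b / (p : ℝ)) =
          1 + (a + b) / (p : ℝ) + a * b / (p : ℝ) ^ 2 := by ring
      have e2 : (1 + (a + b) / (p : ℝ)) * (1 + 36 / (p : ℝ) ^ 2) =
          1 + (a + b) / (p : ℝ) + 36 / (p : ℝ) ^ 2 +
            (a + b) / (p : ℝ) * (36 / (p : ℝ) ^ 2) := by ring
      rw [e1, e2]
      have e3 : a * b / (p : ℝ) ^ 2 ≤ 36 / (p : ℝ) ^ 2 :=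
        div_le_div_of_nonneg_right hab (by positivity)
      have e4 : 0 ≤ (a + b) / (p : ℝ) * (36 / (p : ℝ) ^ 2) := by positivity
      linarith
  refine h1.trans ?_
  rw [Finset.prod_mul_distrib, mul_comm]
  apply mul_le_mul_of_nonneg_right
  · refine (qh7_prod_le _ (fun p => 36 / (p : ℝ) ^ 2) (fun p _ => by positivity)).trans ?_
    apply Real.exp_le_exp.2
    have h2 : ∑ p ∈ (prs P0 P).filter (fun p => p % 4 = 1), 36 / (p : ℝ) ^ 2 ≤
        ∑ p ∈ prs P0 P, 36 / (p : ℝ) ^ 2 :=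
      Finset.sum_le_sum_of_subset_of_nonneg (Finset.filter_subset _ _)
        (fun _ _ _ => by positivity)
    have h3 : ∑ p ∈ prs P0 P, 36 / (p : ℝ) ^ 2 = 36 * ∑ p ∈ prs P0 P, 1 / (p : ℝ) ^ 2 := by
      rw [Finset.mul_sum]
      apply Finset.sum_congr rfl
      intro p _
      ring
    have h4 := qh7_sum_sq P0 P hP0
    linarith
  · apply Finset.prod_nonneg
    intro p _
    positivity

theorem cls3_11_pr (q : Par 11) (hq : q.Ok) {κ : ℝ} (hκ : 0 < κ) (hκ1 : κ ≤ 1 / 10) (m : Fin 11)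
    (W : Wts 11) (hW : Bal m W) : ∃ τ₀ : ℝ, 0 < τ₀ ∧ ∀ τ : ℝ, 0 < τ →
    ∃ C x₀ : ℝ, 0 ≤ C ∧ 2 ≤ x₀ ∧ ∀ x ≥ x₀, ∀ P0 P1 P : ℕ,
      Real.log x ^ 60 ≤ P0 → P0 ≤ P1 → P1 ≤ P → x ^ τ ≤ P1 → (P1 : ℝ) ≤ x ^ τ₀ → (P : ℝ) ≤ x →
      ∀ A : Finset (PolyK 11 × PolyK 11), (∀ s ∈ A, PairP q κ m x P0 s ∧ Gc s.1 s.2 = 1) →
      ∑ s ∈ A, ThB W P s.1 s.2 * VP W P0 P s.1 s.2 ≤
        C * Real.log x ^ ((ncell m : ℝ) - eB3 m / 2 - eBP m W / 2) := by
  classical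
  obtain ⟨ps, C1, τ1, hps, hC1, hτ1, hFF, Hcell⟩ := cell3_11 q hq hκ hκ1 m W hW
  obtain ⟨b30, b31, bP0, bP1, b10, b11, s10, s16, s00, s06⟩ := eB_le m W hW.ok
  have hal1 := qh7_par (hW.ok.al0 1) (hW.ok.al1 1) (hW.ok.be0 1) (hW.ok.be1 1)
  have hal0 := qh7_par (hW.ok.al0 (-1)) (hW.ok.al1 (-1)) (hW.ok.be0 0) (hW.ok.be1 0)
  have hs1e : W.be 1 + W.al 1 = W.s1 := rfl
  have hs0e : W.be 0 + W.al (-1) = W.s0 := rfl
  rw [hs1e] at hal1
  rw [hs0e] at hal0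
  refine ⟨min τ1 1, by positivity, fun τ hτ => ?_⟩
  obtain ⟨C5, x5, hC5, hx5, H5⟩ := Hcell τ hτ
  obtain ⟨C6, x6, hC6, hx6, H6⟩ := cells_count11 q hq hκ m
  obtain ⟨C3, x3, hC3, hx3, H3⟩ := sum_wsp_gen hal1.1 hal1.2.1 hal1.2.2.1 hal1.2.2.2 hτ
  obtain ⟨C4, x4, hC4, hx4, H4⟩ := sum_wsp_gen hal0.1 hal0.2.1 hal0.2.2.1 hal0.2.2.2 hτ
  obtain ⟨C2, x2, hC2, hx2, H2⟩ := mert_gen (eB3 m) (eBP m W) (eB1 m W) (eS1 W + eS0 W) C1 b30
    bP0 b10 (by linarith) (by have := hW.bal; linarith) hC1 ps hFF hτ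
  obtain ⟨xm, hxm, Hm⟩ := qh7_mem q hq
  obtain ⟨xs, hxs, Hs⟩ := qh7_small (e := κ / 2) (by linarith)
  obtain ⟨C7, hC7, HG⟩ := qh7_G
  refine ⟨C6 * C5 * (C3 * C4) * (Real.exp 36 * C2 + C7 ^ 2),
    max (max (max x5 x6) (max x3 x2)) (max (max xm xs) (max x4 (Real.exp 2))),
    by positivity, ?_, ?_⟩
  · exact le_trans hx5 (le_trans (le_trans (le_max_left _ _) (le_max_left _ _)) (le_max_left _ _))
  intro x hx P0 P1 P hP0 hP0P1 hP1P hτP1 hP1τ hPx A hA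
  simp only [ge_iff_le, max_le_iff] at hx
  obtain ⟨⟨⟨hx5', hx6'⟩, hx3', hx2'⟩, ⟨hxm', hxs'⟩, hx4', hxe⟩ := hx
  have hx2r : (2 : ℝ) ≤ x := by linarith
  have hxpos : 0 < x := by linarith
  have hlog2 : 2 ≤ Real.log x := by
    rw [Real.le_log_iff_exp_le hxpos]; exact hxe
  have hlogpos : 0 < Real.log x := by linarith
  have hP02 : 2 ≤ P0 := by
    have h1 : (2 : ℝ) ≤ Real.log x ^ 60 := by
      calc (2 : ℝ) ≤ 2 ^ 60 := by norm_num
        _ ≤ Real.log x ^ 60 := pow_le_pow_left₀ (by norm_num) hlog2 60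
    have h2 : (2 : ℝ) ≤ (P0 : ℝ) := le_trans h1 hP0
    exact_mod_cast h2
  have hP0P : P0 ≤ P := hP0P1.trans hP1P
  have hτP : x ^ τ ≤ (P : ℝ) := by
    refine hτP1.trans ?_
    exact_mod_cast hP1P
  have hP1τ1 : (P1 : ℝ) ≤ x ^ τ1 :=
    hP1τ.trans (Real.rpow_le_rpow_of_exponent_le (by linarith) (min_le_left _ _))
  have hP1x : (P1 : ℝ) ≤ x := by
    have h1 : x ^ (min τ1 1) ≤ x ^ (1 : ℝ) :=
      Real.rpow_le_rpow_of_exponent_le (by linarith) (min_le_right _ _)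
    rw [Real.rpow_one] at h1
    linarith
  -- abbreviations
  set f : PolyK 11 × PolyK 11 → ℝ := fun s => ThB W P s.1 s.2 * VP W P0 P s.1 s.2 with hf
  set D : Finset ℕ := DP0 P0 ⌊x⌋₊ with hD
  set F : ℝ := ∏ p ∈ prs ps P1, FFg (eB3 m) (eBP m W) (eB1 m W) C1 P0 p with hF
  set G1 : ℝ := ∏ p ∈ (prs P0 P).filter (fun p => p % 4 = 1), (1 + eS1 W / (p : ℝ)) with hG1
  set G0 : ℝ := ∏ p ∈ (prs P0 P).filter (fun p => p % 4 = 1), (1 + eS0 W / (p : ℝ)) with hG0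
  set η : ℝ := x ^ (-(κ / 2)) with hη
  have hη0 : 0 < η := Real.rpow_pos_of_pos hxpos _
  have hF0 : 0 ≤ F := by
    apply Finset.prod_nonneg
    intro p hp
    unfold prs at hp
    rw [Finset.mem_filter, Finset.mem_Ioc] at hp
    have := hFF P0 p hp.2 hp.1.1
    linarith
  have hG10 : 0 ≤ G1 := by
    apply Finset.prod_nonneg
    intro p _
    positivity
  have hG00 : 0 ≤ G0 := by
    apply Finset.prod_nonneg
    intro p _
    positivity
  -- keys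
  set key : PolyK 11 × PolyK 11 → (ℕ × ℕ) × (ℕ × ℕ) :=
    fun s => ((dn s.1 1, dn s.2 1), (dn s.1 10, dn s.2 10)) with hkey
  set key2 : PolyK 11 × PolyK 11 → (Fin 11 → ℕ) × (Fin 11 → ℕ) :=
    fun s => ((fun j => Nat.log 2 (nr (s.1 j))), (fun j => Nat.log 2 (nr (s.2 j)))) with hkey2
  set V : ((ℕ × ℕ) × (ℕ × ℕ)) → ℝ := fun k => wsp2 W P k.1.1 k.1.2 k.2.1 k.2.2 with hV
  have hV0 : ∀ k, 0 ≤ V k := fun k =>
    mul_nonneg (qh7_wsp_nn P hal1.1 hal1.2.2.1 _ _) (qh7_wsp_nn P hal0.1 hal0.2.2.1 _ _)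
  have hmaps : ∀ s ∈ A, key s ∈ (D ×ˢ D) ×ˢ (D ×ˢ D) := by
    intro s hs
    obtain ⟨hs1, _⟩ := hA s hs
    simp only [hkey, Finset.mem_product]
    exact ⟨⟨Hm x hxm' P0 _ hs1.p1.poly hs1.o1 1, Hm x hxm' P0 _ hs1.p2.poly hs1.o2 1⟩,
      ⟨Hm x hxm' P0 _ hs1.p1.poly hs1.o1 10, Hm x hxm' P0 _ hs1.p2.poly hs1.o2 10⟩⟩
  have hcell : ∀ k, ∀ t, ∑ s ∈ (A.filter (fun s => key s = k)).filter (fun s => key2 s = t), f s ≤
      C5 * V k * (F + η) := by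
    intro k t
    have h := H5 x hx5' P0 P1 P hP0 hP0P1 hP1P hτP1 hP1τ1 hPx t.1 t.2
      (q.σ 1 (1 + 1) * (k.1.1 : ℤ))
      (q.σ 10 (10 + 1) * (k.2.1 : ℤ)) (q.σ 1 (1 + 1) * (k.1.2 : ℤ)) (q.σ 10 (10 + 1) * (k.2.2 : ℤ))
      ((A.filter (fun s => key s = k)).filter (fun s => key2 s = t)) ?_
    · rw [qh7_abs q hq, qh7_abs q hq, qh7_abs q hq, qh7_abs q hq] at h
      exact h
    · intro s hs
      rw [Finset.mem_filter, Finset.mem_filter] at hs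
      obtain ⟨⟨hsA, hk⟩, ht⟩ := hs
      obtain ⟨hs1, hs2⟩ := hA s hsA
      refine ⟨hs1, hs2, ?_, ?_, ?_, ?_, ?_, ?_⟩
      · rw [← ht]; exact qh7_siz hxpos hs1.p1.poly
      · rw [← ht]; exact qh7_siz hxpos hs1.p2.poly
      · rw [← hk]; exact qh7_dl q hq hs1.p1.poly 1
      · rw [← hk]; exact qh7_dl q hq hs1.p1.poly 10
      · rw [← hk]; exact qh7_dl q hq hs1.p2.poly 1
      · rw [← hk]; exact qh7_dl q hq hs1.p2.poly 10
  have hfib : ∀ k, ∑ s ∈ A.filter (fun s => key s = k), f s ≤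
      (C6 * Real.log x ^ ncell m) * (C5 * V k * (F + η)) := by
    intro k
    have hM0 : 0 ≤ C5 * V k * (F + η) := by
      have := hV0 k
      positivity
    rw [← Finset.sum_fiberwise_of_maps_to (g := key2)
      (t := (A.filter (fun s => key s = k)).image key2)
      (fun s hs => Finset.mem_image_of_mem _ hs)]
    calc ∑ t ∈ (A.filter (fun s => key s = k)).image key2,
          ∑ s ∈ (A.filter (fun s => key s = k)).filter (fun s => key2 s = t), f s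
        ≤ ∑ t ∈ (A.filter (fun s => key s = k)).image key2, C5 * V k * (F + η) :=
          Finset.sum_le_sum (fun t _ => hcell k t)
      _ = (((A.filter (fun s => key s = k)).image key2).card : ℝ) * (C5 * V k * (F + η)) := by
          rw [Finset.sum_const, nsmul_eq_mul]
      _ ≤ (C6 * Real.log x ^ ncell m) * (C5 * V k * (F + η)) := by
          apply mul_le_mul_of_nonneg_right _ hM0
          apply H6 x hx6' P0 k.1.1 k.2.1 k.1.2 k.2.2
          intro t ht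
          rw [Finset.mem_image] at ht
          obtain ⟨s, hs, rfl⟩ := ht
          rw [Finset.mem_filter] at hs
          obtain ⟨hsA, hk⟩ := hs
          obtain ⟨hs1, hs2⟩ := hA s hsA
          exact ⟨s, hs1, qh7_siz hxpos hs1.p1.poly, qh7_siz hxpos hs1.p2.poly, by rw [← hk],
            by rw [← hk], by rw [← hk], by rw [← hk]⟩
  have hsumV : ∑ k ∈ (D ×ˢ D) ×ˢ (D ×ˢ D), V k ≤ (C3 * G1) * (C4 * G0) := by
    have h1 : ∑ k ∈ (D ×ˢ D) ×ˢ (D ×ˢ D), V k =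
        (∑ d ∈ D, ∑ d' ∈ D, wsp P (W.al 1 ^ 2 / W.s1) (W.al 1 * W.be 1 / W.s1) d d') *
          (∑ d ∈ D, ∑ d' ∈ D,
            wsp P (W.al (-1) ^ 2 / W.s0) (W.al (-1) * W.be 0 / W.s0) d d') := by
      rw [Finset.sum_product, ← Finset.sum_product' (s := D) (t := D)
        (f := fun d d' => wsp P (W.al 1 ^ 2 / W.s1) (W.al 1 * W.be 1 / W.s1) d d'),
        ← Finset.sum_product' (s := D) (t := D)
        (f := fun d d' => wsp P (W.al (-1) ^ 2 / W.s0) (W.al (-1) * W.be 0 / W.s0) d d'),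
        Finset.sum_mul_sum]
      rfl
    rw [h1]
    have h2 := H3 x hx3' P0 P hP02 hP0P hτP hPx
    have h3 := H4 x hx4' P0 P hP02 hP0P hτP hPx
    have h4 : 0 ≤ ∑ d ∈ D, ∑ d' ∈ D,
        wsp P (W.al (-1) ^ 2 / W.s0) (W.al (-1) * W.be 0 / W.s0) d d' :=
      Finset.sum_nonneg (fun d _ => Finset.sum_nonneg
        (fun d' _ => qh7_wsp_nn P hal0.1 hal0.2.2.1 _ _))
    exact mul_le_mul h2 h3 h4 (by positivity)
  set e : ℝ := -(eB3 m / 2) - eBP m W / 2 with he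
  have hLe : 0 ≤ Real.log x ^ e := (Real.rpow_pos_of_pos hlogpos _).le
  have hFG : F * (G1 * G0) ≤ Real.exp 36 * C2 * Real.log x ^ e := by
    have h1 := qh7_two P0 P (by omega) s10 s16 s00 s06
    have h2 := H2 x hx2' P0 P1 P hP02 hP0P1 hP0P hτP1 hP1x hτP hPx
    calc F * (G1 * G0) ≤ F * (Real.exp 36 *
          ∏ p ∈ (prs P0 P).filter (fun p => p % 4 = 1), (1 + (eS1 W + eS0 W) / (p : ℝ))) :=
          mul_le_mul_of_nonneg_left h1 hF0
      _ = Real.exp 36 * (F *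
          ∏ p ∈ (prs P0 P).filter (fun p => p % 4 = 1), (1 + (eS1 W + eS0 W) / (p : ℝ))) := by
          ring
      _ ≤ Real.exp 36 * (C2 * Real.log x ^ e) :=
          mul_le_mul_of_nonneg_left h2 (Real.exp_pos _).le
      _ = _ := by ring
  have hηG : η * (G1 * G0) ≤ C7 ^ 2 * Real.log x ^ e := by
    have h1 := HG x hx2r (by linarith) P0 P hPx (eS1 W) s10 s16
    have h2 := HG x hx2r (by linarith) P0 P hPx (eS0 W) s00 s06
    have h3 : G1 * G0 ≤ (C7 * Real.log x ^ 6) * (C7 * Real.log x ^ 6) :=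
      mul_le_mul h1 h2 hG00 (by positivity)
    calc η * (G1 * G0) ≤ η * ((C7 * Real.log x ^ 6) * (C7 * Real.log x ^ 6)) :=
          mul_le_mul_of_nonneg_left h3 hη0.le
      _ = C7 ^ 2 * (x ^ (-(κ / 2)) * Real.log x ^ 12) := by rw [hη]; ring
      _ ≤ C7 ^ 2 * Real.log x ^ (-100 : ℝ) :=
          mul_le_mul_of_nonneg_left (Hs x hxs') (by positivity)
      _ ≤ C7 ^ 2 * Real.log x ^ e := by
          apply mul_le_mul_of_nonneg_left _ (by positivity)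
          apply Real.rpow_le_rpow_of_exponent_le (by linarith)
          rw [he]
          linarith
  have hfin : Real.log x ^ ncell m * Real.log x ^ e =
      Real.log x ^ ((ncell m : ℝ) - eB3 m / 2 - eBP m W / 2) := by
    rw [← Real.rpow_natCast (Real.log x) (ncell m), ← Real.rpow_add hlogpos, he]
    congr 1
    ring
  calc ∑ s ∈ A, f s = ∑ k ∈ (D ×ˢ D) ×ˢ (D ×ˢ D), ∑ s ∈ A.filter (fun s => key s = k), f s :=
        (Finset.sum_fiberwise_of_maps_to hmaps f).symm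
    _ ≤ ∑ k ∈ (D ×ˢ D) ×ˢ (D ×ˢ D), (C6 * Real.log x ^ ncell m) * (C5 * V k * (F + η)) :=
        Finset.sum_le_sum (fun k _ => hfib k)
    _ = (C6 * Real.log x ^ ncell m) * C5 * (F + η) * ∑ k ∈ (D ×ˢ D) ×ˢ (D ×ˢ D), V k := by
        rw [Finset.mul_sum]
        apply Finset.sum_congr rfl
        intro k _
        ring
    _ ≤ (C6 * Real.log x ^ ncell m) * C5 * (F + η) * ((C3 * G1) * (C4 * G0)) :=
        mul_le_mul_of_nonneg_left hsumV (by positivity)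
    _ = C6 * C5 * (C3 * C4) * Real.log x ^ ncell m * (F * (G1 * G0) + η * (G1 * G0)) := by ring
    _ ≤ C6 * C5 * (C3 * C4) * Real.log x ^ ncell m *
        (Real.exp 36 * C2 * Real.log x ^ e + C7 ^ 2 * Real.log x ^ e) :=
        mul_le_mul_of_nonneg_left (by linarith) (by positivity)
    _ = C6 * C5 * (C3 * C4) * (Real.exp 36 * C2 + C7 ^ 2) *
        (Real.log x ^ ncell m * Real.log x ^ e) := by ring
    _ = _ := by rw [hfin]

end Pool.Agent.PENK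

namespace Pool.Agent.PENK

theorem cls3_11 : type_of% @cls3_11_pr := @cls3_11_pr

end Pool.Agent.PENK
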