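import Mathlib
import Pool.Agent.Lib_helper18.PENKF.DefsQ
import Pool.Agent.Lib_helper18.PENKF.PB2
import Pool.Agent.Lib_helper18.PENKF.PB3
import Pool.Agent.Lib_helper18.PENKF.QF4
import Pool.Agent.Lib_helper18.PENKF.QF5
import Pool.Agent.Lib_helper18.PENKF.QF6
import Pool.Agent.Lib_helper18.PENKF.QF15

set_option autoImplicit false

namespace Pool.Agent.PENK

open Finset Pool.Agent.PENT

/-- the event at `p` for the edge `k` -/
def qh8_ek (p : ℕ) (L : ℤ × ℤ) (k : Fin 11) (u : PolyK 11) : Prop :=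
  (p : ℤ) ∣ dl u k ∧ (p : ℤ) ∣ dt L (if k = 0 then cv u 2 else cv u k) ∧
    ¬ ((p : ℤ) ∣ (u k).1 ∧ (p : ℤ) ∣ (u k).2) ∧
    ¬ ((p : ℤ) ∣ (u (k + 1)).1 ∧ (p : ℤ) ∣ (u (k + 1)).2)

/-- the event at `p` -/
def qh8_ev (m : Fin 11) (p : ℕ) (L : ℤ × ℤ) (v : PolyK 11) : Prop :=
  ∃ k ∈ inr 11 \ {m}, qh8_ek p L k v

theorem qh8_dt {p : ℤ} {a a' b b' : ℤ × ℤ} (h1 : p ∣ a.1 - a'.1) (h2 : p ∣ a.2 - a'.2)
    (h3 : p ∣ b.1 - b'.1) (h4 : p ∣ b.2 - b'.2) : p ∣ dt a b - dt a' b' := by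
  have h : dt a b - dt a' b' = (a.1 - a'.1) * b.2 + a'.1 * (b.2 - b'.2) -
      (a.2 - a'.2) * b.1 - a'.2 * (b.1 - b'.1) := by
    unfold dt; ring
  rw [h]
  exact ((((h1.mul_right _).add (h4.mul_left _)).sub (h2.mul_right _)).sub (h3.mul_left _))

theorem qh8_per (m : Fin 11) (p : ℕ) (L : ℤ × ℤ) :
    PerP p (fun v : PolyK 11 => ich (qh8_ev m p L v)) := by
  intro v v' h
  have hdt : ∀ i j : Fin 11, (p : ℤ) ∣ dt (v i) (v j) - dt (v' i) (v' j) := fun i j =>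
    qh8_dt (h i).1 (h i).2 (h j).1 (h j).2
  have hdl : ∀ j : Fin 11, (p : ℤ) ∣ dl v j ↔ (p : ℤ) ∣ dl v' j := fun j =>
    (dvd_iff_dvd_of_dvd_sub (hdt j (j + 1)))
  have hcv : ∀ k : Fin 11, (p : ℤ) ∣ dt L (cv v k) ↔ (p : ℤ) ∣ dt L (cv v' k) := fun k =>
    dvd_iff_dvd_of_dvd_sub (qh8_dt (by simp) (by simp) (hdt k 1) (hdt 0 k))
  have h1 : ∀ k : Fin 11, (p : ℤ) ∣ (v k).1 ↔ (p : ℤ) ∣ (v' k).1 := fun k =>
    dvd_iff_dvd_of_dvd_sub (h k).1
  have h2 : ∀ k : Fin 11, (p : ℤ) ∣ (v k).2 ↔ (p : ℤ) ∣ (v' k).2 := fun k =>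
    dvd_iff_dvd_of_dvd_sub (h k).2
  have : qh8_ev m p L v ↔ qh8_ev m p L v' := by
    unfold qh8_ev
    apply exists_congr
    intro k
    apply and_congr_right
    intro _
    unfold qh8_ek
    rw [hdl k, h1 k, h2 k, h1 (k + 1), h2 (k + 1)]
    split_ifs
    · rw [hcv 2]
    · rw [hcv k]
  show ich (qh8_ev m p L v) = ich (qh8_ev m p L v')
  rw [propext this]

theorem qh8_ich01 (a : Prop) : 0 ≤ ich a ∧ ich a ≤ 1 := by
  unfold ich
  split_ifs <;> norm_num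

theorem qh8_ich_ex {ι : Type} (s : Finset ι) (a : ι → Prop) :
    ich (∃ k ∈ s, a k) ≤ ∑ k ∈ s, ich (a k) := by
  by_cases h : ∃ k ∈ s, a k
  · obtain ⟨k, hk, ha⟩ := h
    have h1 : ich (a k) = 1 := by unfold ich; rw [if_pos ha]
    calc ich (∃ k ∈ s, a k) ≤ 1 := (qh8_ich01 _).2
      _ = ich (a k) := h1.symm
      _ ≤ ∑ k ∈ s, ich (a k) := Finset.single_le_sum (fun i _ => (qh8_ich01 _).1) hk
  · have : ich (∃ k ∈ s, a k) = 0 := by unfold ich; rw [if_neg h]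
    rw [this]
    exact Finset.sum_nonneg (fun i _ => (qh8_ich01 _).1)

theorem qh8_mean {C : ℝ} {p : ℕ} {m : Fin 11} {δ1 δ2 : ℤ} {L : ℤ × ℤ}
    (h : ∀ k ∈ inr 11 \ {m}, mL (Law11 m δ1 δ2 p) (fun u => ich (qh8_ek p L k u)) ≤
      C / (p : ℝ) ^ 2) (hC : 0 ≤ C) :
    mL (Law11 m δ1 δ2 p) (fun v => ich (qh8_ev m p L v)) ≤ (11 * C) / (p : ℝ) ^ 2 := by
  have hle : mL (Law11 m δ1 δ2 p) (fun v => ich (qh8_ev m p L v)) ≤
      ∑ k ∈ inr 11 \ {m}, mL (Law11 m δ1 δ2 p) (fun u => ich (qh8_ek p L k u)) := by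
    unfold mL
    rw [← Finset.sum_div]
    apply div_le_div_of_nonneg_right _ (by positivity)
    rw [Finset.sum_comm]
    apply Finset.sum_le_sum
    intro v _
    exact qh8_ich_ex _ _
  refine hle.trans ((Finset.sum_le_sum h).trans ?_)
  rw [Finset.sum_const, nsmul_eq_mul, mul_div_assoc]
  apply mul_le_mul_of_nonneg_right _ (by positivity)
  have : (inr 11 \ {m}).card ≤ (Finset.univ : Finset (Fin 11)).card :=
    Finset.card_le_card (Finset.subset_univ _)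
  rw [Finset.card_univ, Fintype.card_fin] at this
  exact_mod_cast this

theorem qh8_par {p : ℤ} (hp : Prime p) {a b c : ℤ × ℤ} (hb : ¬ (p ∣ b.1 ∧ p ∣ b.2))
    (h1 : p ∣ dt a b) (h2 : p ∣ dt b c) : p ∣ dt a c := by
  have e1 : b.1 * dt a c = dt a b * c.1 + dt b c * a.1 := by unfold dt; ring
  have e2 : b.2 * dt a c = dt a b * c.2 + dt b c * a.2 := by unfold dt; ring
  have d1 : p ∣ b.1 * dt a c := by
    rw [e1]; exact (h1.mul_right _).add (h2.mul_right _)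
  have d2 : p ∣ b.2 * dt a c := by
    rw [e2]; exact (h1.mul_right _).add (h2.mul_right _)
  rcases hp.dvd_or_dvd d1 with h | h
  · rcases hp.dvd_or_dvd d2 with h' | h'
    · exact absurd ⟨h, h'⟩ hb
    · exact h'
  · exact h

theorem qh8_DD {u : PolyK 11} {p : ℕ} (h : p ∣ bad u) : p ∣ DD u := by
  unfold DD
  refine h.trans ?_
  unfold bad
  exact Finset.prod_dvd_prod_of_subset _ _ _ (Finset.subset_univ _)

theorem qh8_bad_dvd {u : PolyK 11} {p : ℕ} (hp : p.Prime) (h : p ∣ bad u) :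
    ∃ k ∈ inr 11, p ∣ dn u k := by
  unfold bad at h
  exact (Prime.dvd_finsetProd_iff (Nat.prime_iff.mp hp) _).mp h

theorem qh8_dnm {q : Par 11} {κ x : ℝ} {P0 : ℕ} {m : Fin 11} {v : PolyK 11}
    (hv : IsPath q κ m x P0 v) : dn v m = 1 := by
  have h1 : v m = (0, 1) := hv.fix m (0, 1) (by unfold fx; rw [if_pos rfl])
  have hm : m + 1 ≠ m := by fin_cases m <;> decide
  have h2 : v (m + 1) = (1, 0) := hv.fix (m + 1) (1, 0) (by
    unfold fx; rw [if_neg hm, if_pos rfl])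
  unfold dn dl dt
  rw [h1, h2]
  norm_num

/-- the vectors are not `0` modulo a prime -/
theorem qh8_nz {q : Par 11} {x : ℝ} {P0 : ℕ} {v : PolyK 11} (hv : IsPoly q x P0 v)
    {p : ℕ} (hp : p.Prime) (k : Fin 11) : ¬ ((p : ℤ) ∣ (v k).1 ∧ (p : ℤ) ∣ (v k).2) := by
  rintro ⟨h1, h2⟩
  have hk : k ≠ k + 5 := by fin_cases k <;> decide
  have e : k - 1 + 1 = k := sub_add_cancel k 1
  have a1 : p ∣ dn v k := by
    apply Int.natCast_dvd.mp
    unfold dl dt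
    exact (h1.mul_right _).sub (h2.mul_right _)
  have a2 : p ∣ dn v (k - 1) := by
    apply Int.natCast_dvd.mp
    unfold dl dt
    rw [e]
    exact (h2.mul_left _).sub (h1.mul_left _)
  have hkk : k ≠ k - 1 := by fin_cases k <;> decide
  exact Nat.not_coprime_of_dvd_of_dvd hp.one_lt a1 a2 (hv.co k (k - 1) hkk)

theorem qh8_event {q : Par 11} {κ x : ℝ} {P0 : ℕ} {m : Fin 11} {u v : PolyK 11}
    (hv : IsPath q κ m x P0 v)
    {p : ℕ} (hp : p.Prime) (hbv : p ∣ bad v) (hs : SameL u v p) : qh8_ev m p (Lv u p) v := by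
  have hpi : Prime (p : ℤ) := Nat.prime_iff_prime_int.mp hp
  have h5 : 5 ≤ 11 := by norm_num
  have hne := Lv_ne h5 hv.poly hp (qh8_DD hbv)
  have hs' : (p : ℤ) ∣ dt (Lv u p) (Lv v p) := hs
  obtain ⟨k, hk, hpk⟩ := qh8_bad_dvd hp hbv
  have hkm : k ≠ m := by
    rintro rfl
    rw [qh8_dnm hv] at hpk
    exact hp.one_lt.ne' (Nat.dvd_one.mp hpk)
  refine ⟨k, Finset.mem_sdiff.mpr ⟨hk, by simpa using hkm⟩, Int.natCast_dvd.mpr hpk, ?_,
    qh8_nz hv.poly hp k, qh8_nz hv.poly hp (k + 1)⟩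
  split_ifs with h0
  · rw [h0] at hpk
    exact qh8_par hpi hne hs' (Lv_par0 h5 hv.poly hp hpk 2 (by decide)).1
  · exact qh8_par hpi hne hs' (Lv_par h5 hv.poly hp hk h0 hpk).1

theorem qh8_count {q : Par 11} {κ x : ℝ} {P0 : ℕ} {m : Fin 11} (i : Fin 11 → ℕ) (δ1 δ2 : ℤ)
    (B : Finset (PolyK 11)) (T : Finset ℕ) (h : ℕ → PolyK 11 → ℝ)
    (hB : ∀ v ∈ B, IsPath q κ m x P0 v ∧ Siz i v ∧ dl v 1 = δ1 ∧ dl v 10 = δ2)
    (h0 : ∀ p v, 0 ≤ h p v) (h1 : ∀ v ∈ B, ∀ p ∈ T, h p v = 1) :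
    (B.card : ℝ) ≤ ∑ o ∈ O11 m i, ∏ p ∈ T, h p (pol11 m i δ1 δ2 o) := by
  classical
  have hex : ∀ v ∈ B, ∃ o ∈ O11 m i, pol11 m i δ1 δ2 o = v := by
    intro v hv
    obtain ⟨a, b, c, d⟩ := hB v hv
    have := path_mem a b
    rw [c, d] at this
    exact this
  choose! g hg1 hg2 using hex
  have hinj : Set.InjOn g B := by
    intro a ha b hb hab
    rw [← hg2 a ha, ← hg2 b hb, hab]
  have e1 : (B.card : ℝ) = ∑ v ∈ B, ∏ p ∈ T, h p (pol11 m i δ1 δ2 (g v)) := by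
    rw [Finset.card_eq_sum_ones]
    push_cast
    apply Finset.sum_congr rfl
    intro v hv
    rw [hg2 v hv, Finset.prod_eq_one (fun p hp => h1 v hv p hp)]
  rw [e1, ← Finset.sum_image (f := fun o => ∏ p ∈ T, h p (pol11 m i δ1 δ2 o))
    (fun a ha b hb hab => hinj ha hb hab)]
  apply Finset.sum_le_sum_of_subset_of_nonneg
  · intro o ho
    rw [Finset.mem_image] at ho
    obtain ⟨v, hv, rfl⟩ := ho
    exact hg1 v hv
  · intro o _ _
    exact Finset.prod_nonneg (fun p _ => h0 _ _)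

theorem qh8_dn_le (u : PolyK 11) (j : Fin 11) : dn u j ≤ nr (u j) * nr (u (j + 1)) := by
  have h : ∀ a b : ℤ × ℤ, (dt a b).natAbs ≤ nr a * nr b := by
    intro a b
    unfold dt nr
    have h1 : (a.1 * b.2 - a.2 * b.1).natAbs ≤ (a.1 * b.2).natAbs + (a.2 * b.1).natAbs :=
      Int.natAbs_sub_le _ _
    rw [Int.natAbs_mul, Int.natAbs_mul] at h1
    nlinarith [Nat.zero_le (a.1.natAbs * b.1.natAbs), Nat.zero_le (a.2.natAbs * b.2.natAbs)]
  exact h _ _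

theorem qh8_bad_le (q : Par 11) (hq : q.Ok) {x : ℝ} (hx : 1 ≤ x) {P0 : ℕ} {u : PolyK 11}
    (hu : IsPoly q x P0 u) : (bad u : ℝ) ≤ x := by
  have hx0 : 0 < x := by linarith
  have hs := hq.hs
  have he := hq.he
  have hε := hq.ε0
  have hδ := hq.δ1
  have hd : ∀ j : Fin 11, (dn u j : ℝ) ≤
      x ^ ((q.e j + q.ε / 50) + (q.e (j + 1) + q.ε / 50)) := by
    intro j
    have h1 : (dn u j : ℝ) ≤ (nr (u j) : ℝ) * (nr (u (j + 1)) : ℝ) := by
      exact_mod_cast qh8_dn_le u j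
    rw [Real.rpow_add hx0]
    exact h1.trans (mul_le_mul (hu.hi j) (hu.hi (j + 1)) (by positivity) (by positivity))
  have hbad : (bad u : ℝ) ≤ x ^ (∑ j ∈ inr 11, ((q.e j + q.ε / 50) +
      (q.e (j + 1) + q.ε / 50))) := by
    unfold bad
    push_cast
    rw [Real.rpow_sum_of_pos hx0]
    exact Finset.prod_le_prod (fun j _ => by positivity) (fun j _ => hd j)
  refine hbad.trans ?_
  calc x ^ (∑ j ∈ inr 11, ((q.e j + q.ε / 50) + (q.e (j + 1) + q.ε / 50))) ≤ x ^ (1 : ℝ) := by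
        apply Real.rpow_le_rpow_of_exponent_le hx
        have h1 : ∑ j ∈ inr 11, ((q.e j + q.ε / 50) + (q.e (j + 1) + q.ε / 50)) ≤
            ∑ j : Fin 11, ((q.e j + q.ε / 50) + (q.e (j + 1) + q.ε / 50)) := by
          apply Finset.sum_le_sum_of_subset_of_nonneg (Finset.subset_univ _)
          intro j _ _
          have := he j
          have := he (j + 1)
          linarith
        have h2 : ∑ j : Fin 11, ((q.e j + q.ε / 50) + (q.e (j + 1) + q.ε / 50)) =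
            2 * ∑ j : Fin 11, (q.e j + q.ε / 50) := by
          rw [Finset.sum_add_distrib, two_mul]
          congr 1
          exact Equiv.sum_comp (Equiv.addRight (1 : Fin 11)) (fun j => q.e j + q.ε / 50)
        have h3 : ∑ j : Fin 11, (q.e j + q.ε / 50) ≤ ∑ j : Fin 11, (q.e j + q.ε) :=
          Finset.sum_le_sum (fun j _ => by linarith)
        linarith
    _ = x := Real.rpow_one x

theorem qh8_omega {n : ℕ} {x : ℝ} (hn : 0 < n) (hnx : (n : ℝ) ≤ x) :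
    (n.primeFactors.card : ℝ) ≤ 2 * Real.log x := by
  have h1 : 2 ^ n.primeFactors.card ≤ n := by
    calc 2 ^ n.primeFactors.card = ∏ p ∈ n.primeFactors, 2 := by
          rw [Finset.prod_const]
      _ ≤ ∏ p ∈ n.primeFactors, p := by
          apply Finset.prod_le_prod'
          intro p hp
          exact (Nat.prime_of_mem_primeFactors hp).two_le
      _ ≤ n := Nat.le_of_dvd hn (Nat.prod_primeFactors_dvd n)
  have h2 : ((2 : ℝ) ^ n.primeFactors.card) ≤ x := by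
    refine le_trans ?_ hnx
    exact_mod_cast h1
  have h3 := Real.log_le_log (by positivity) h2
  rw [Real.log_pow] at h3
  have h4 : (1 : ℝ) / 2 ≤ Real.log 2 := by
    have := Real.log_two_gt_d9
    linarith
  have h5 : (0 : ℝ) ≤ (n.primeFactors.card : ℝ) := by positivity
  nlinarith

/-- the sum over nonempty sets of primes -/
theorem qh8_sets (W : Finset ℕ) (P : Finset (Finset ℕ)) (hP : ∀ T ∈ P, T ⊆ W ∧ T.Nonempty)
    {L c : ℝ} (hc1 : 1 ≤ c) (hL : 2 ≤ L) (hLc : 2 * c ≤ L) (hW : ∀ p ∈ W, L ^ 200 ≤ (p : ℝ))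
    (hc : (W.card : ℝ) ≤ 2 * L) :
    ∑ T ∈ P, ∏ p ∈ T, (c / (p : ℝ)) ≤ 4 * c / L ^ 199 := by
  classical
  have hL0 : 0 < L := by linarith
  have hc0 : 0 < c := by linarith
  have h1 : ∑ T ∈ P, ∏ p ∈ T, (c / (p : ℝ)) ≤
      ∑ T ∈ W.powerset.erase ∅, ∏ p ∈ T, (c / (p : ℝ)) := by
    apply Finset.sum_le_sum_of_subset_of_nonneg
    · intro T hT
      obtain ⟨h, h'⟩ := hP T hT
      rw [Finset.mem_erase, Finset.mem_powerset]
      exact ⟨h'.ne_empty, h⟩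
    · intro T _ _
      exact Finset.prod_nonneg (fun p _ => by positivity)
  have h2 : ∑ T ∈ W.powerset.erase ∅, ∏ p ∈ T, (c / (p : ℝ)) =
      ∏ p ∈ W, (1 + c / (p : ℝ)) - 1 := by
    rw [Finset.prod_one_add]
    rw [← Finset.add_sum_erase W.powerset _ (Finset.empty_mem_powerset W)]
    rw [Finset.prod_empty]
    ring
  have h3 : ∏ p ∈ W, (1 + c / (p : ℝ)) ≤ Real.exp (2 * c / L ^ 199) := by
    calc ∏ p ∈ W, (1 + c / (p : ℝ)) ≤ ∏ p ∈ W, Real.exp (c / (L ^ 200)) := by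
          apply Finset.prod_le_prod
          · intro p _
            positivity
          · intro p hp
            have h4 : c / (p : ℝ) ≤ c / L ^ 200 :=
              div_le_div_of_nonneg_left hc0.le (by positivity) (hW p hp)
            have h5 := Real.add_one_le_exp (c / L ^ 200)
            linarith
      _ = Real.exp (W.card * (c / L ^ 200)) := by
          rw [Finset.prod_const, ← Real.exp_nat_mul]
      _ ≤ Real.exp (2 * c / L ^ 199) := by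
          apply Real.exp_le_exp.mpr
          have e : L ^ 200 = L ^ 199 * L := pow_succ L 199
          calc (W.card : ℝ) * (c / L ^ 200) ≤ 2 * L * (c / L ^ 200) :=
                mul_le_mul_of_nonneg_right hc (by positivity)
            _ = 2 * c / L ^ 199 := by
                rw [e]
                field_simp
  have h6 : 2 * c / L ^ 199 ≤ 1 := by
    rw [div_le_one (by positivity)]
    calc 2 * c ≤ L := hLc
      _ = L ^ 1 := (pow_one L).symm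
      _ ≤ L ^ 199 := pow_le_pow_right₀ (by linarith) (by norm_num)
  have h7 := Real.abs_exp_sub_one_le (x := 2 * c / L ^ 199) (by
    rw [abs_of_nonneg (by positivity)]; exact h6)
  rw [abs_of_nonneg (by
    have := Real.add_one_le_exp (2 * c / L ^ 199)
    have h8 : (0 : ℝ) ≤ 2 * c / L ^ 199 := by positivity
    linarith), abs_of_nonneg (by positivity : (0 : ℝ) ≤ 2 * c / L ^ 199)] at h7
  have h9 : 4 * c / L ^ 199 = 2 * (2 * c / L ^ 199) := by ring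
  rw [h9]
  linarith

theorem qh8_Gc {u v : PolyK 11} : Gc u v = ∏ p ∈ (Gc u v).primeFactors, p ∧
    ∀ p ∈ (Gc u v).primeFactors, p.Prime ∧ p ∣ bad u ∧ p ∣ bad v ∧ SameL u v p := by
  classical
  have h1 : (Gc u v).primeFactors =
      (Nat.gcd (bad u) (bad v)).primeFactors.filter (SameL u v) := by
    unfold Gc
    rw [Nat.primeFactors_prod]
    · intro p hp
      exact Nat.prime_of_mem_primeFactors (Finset.mem_filter.mp hp).1
  constructor
  · rw [h1]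
    unfold Gc
    rfl
  · intro p hp
    rw [h1, Finset.mem_filter] at hp
    obtain ⟨hp1, hp2⟩ := hp
    have hd := Nat.dvd_of_mem_primeFactors hp1
    exact ⟨Nat.prime_of_mem_primeFactors hp1, hd.trans (Nat.gcd_dvd_left _ _),
      hd.trans (Nat.gcd_dvd_right _ _), hp2⟩

theorem qh8_pos {q : Par 11} {x : ℝ} {P0 : ℕ} {u : PolyK 11} (hu : IsPoly q x P0 u) :
    0 < bad u := by
  have h : ∀ j, 0 < dn u j := fun j => Nat.pos_of_ne_zero (hu.sq j).ne_zero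
  unfold bad
  exact Finset.prod_pos (fun j _ => h j)

theorem qh8_P0 {q : Par 11} {x : ℝ} {P0 : ℕ} {u : PolyK 11} (hu : IsPoly q x P0 u) {p : ℕ}
    (hp : p.Prime) (h : p ∣ bad u) : P0 < p := by
  obtain ⟨k, _, hk⟩ := qh8_bad_dvd hp h
  exact hu.ro k p hp hk

theorem qh8_inr : inr 11 = {0, 2, 3, 4, 5, 6, 7, 8, 9} := by decide

/-- lower bound for `bad` in a cell -/
theorem qh8_bad_ge {q : Par 11} (hq : q.Ok) {i : Fin 11 → ℕ} {v : PolyK 11} (hs : Sep q v)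
    (hi : Siz i v) : q.c3 ^ 9 * ((2 : ℝ) ^ i 0 * 2 ^ i 1 * 2 ^ i 2 * 2 ^ i 10 *
      ∏ j : Fin 7, (2 ^ i (sv j)) ^ 2) ≤ bad v := by
  have hc := hq.c30
  have hd : ∀ j : Fin 11, q.c3 * 2 ^ i j * 2 ^ i (j + 1) ≤ (dn v j : ℝ) := by
    intro j
    have hjk : j ≠ j + 1 := by fin_cases j <;> decide
    have h1 := hs j (j + 1) hjk
    have h2 : (dn v j : ℝ) = |(dt (v j) (v (j + 1)) : ℝ)| := by
      unfold dn dl
      rw [Nat.cast_natAbs, Int.cast_abs]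
    rw [h2]
    refine le_trans ?_ h1
    have h3 : (2 : ℝ) ^ i j ≤ nr (v j) := by exact_mod_cast (hi j).1
    have h4 : (2 : ℝ) ^ i (j + 1) ≤ nr (v (j + 1)) := by exact_mod_cast (hi (j + 1)).1
    apply mul_le_mul _ h4 (by positivity) (by positivity)
    exact mul_le_mul_of_nonneg_left h3 hc.le
  have hle : ∏ j ∈ inr 11, (q.c3 * 2 ^ i j * 2 ^ i (j + 1)) ≤ (bad v : ℝ) := by
    unfold bad
    push_cast
    exact Finset.prod_le_prod (fun j _ => by positivity) (fun j _ => hd j)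
  refine le_trans (le_of_eq ?_) hle
  rw [qh8_inr]
  rw [Finset.prod_insert (by decide), Finset.prod_insert (by decide),
    Finset.prod_insert (by decide), Finset.prod_insert (by decide),
    Finset.prod_insert (by decide), Finset.prod_insert (by decide),
    Finset.prod_insert (by decide), Finset.prod_insert (by decide), Finset.prod_singleton]
  rw [Fin.prod_univ_seven]
  have s0 : sv 0 = 3 := rfl
  have s1 : sv 1 = 4 := rfl
  have s2 : sv 2 = 5 := rfl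
  have s3 : sv 3 = 6 := rfl
  have s4 : sv 4 = 7 := rfl
  have s5 : sv 5 = 8 := rfl
  have s6 : sv 6 = 9 := rfl
  have t0 : (0 : Fin 11) + 1 = 1 := rfl
  have t2 : (2 : Fin 11) + 1 = 3 := rfl
  have t3 : (3 : Fin 11) + 1 = 4 := rfl
  have t4 : (4 : Fin 11) + 1 = 5 := rfl
  have t5 : (5 : Fin 11) + 1 = 6 := rfl
  have t6 : (6 : Fin 11) + 1 = 7 := rfl
  have t7 : (7 : Fin 11) + 1 = 8 := rfl
  have t8 : (8 : Fin 11) + 1 = 9 := rfl
  have t9 : (9 : Fin 11) + 1 = 10 := rfl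
  rw [s0, s1, s2, s3, s4, s5, s6, t0, t2, t3, t4, t5, t6, t7, t8, t9]
  ring

/-- the sizes are determined -/
theorem qh8_siz {i i' : Fin 11 → ℕ} {v : PolyK 11} (h : Siz i v) (h' : Siz i' v) : i = i' := by
  funext j
  have h1 := h j
  have h2 := h' j
  by_contra hne
  rcases Nat.lt_or_gt_of_ne hne with hlt | hlt
  · have : 2 ^ (i j + 1) ≤ 2 ^ i' j := Nat.pow_le_pow_right (by norm_num) hlt
    omega
  · have : 2 ^ (i' j + 1) ≤ 2 ^ i j := Nat.pow_le_pow_right (by norm_num) hlt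
    omega

/-- the bound for one value of `G` -/
theorem qh8_fix {C : ℝ} (hC1 : 1 ≤ C)
    (hG : ∀ p : ℕ, p.Prime → 2 < p → ∀ (m : Fin 11) (δ1 δ2 : ℤ),
      dOk m δ1 δ2 → ¬ (p : ℤ) ∣ δ1 → ¬ (p : ℤ) ∣ δ2 → ∀ L : ℤ × ℤ,
      ¬ ((p : ℤ) ∣ L.1 ∧ (p : ℤ) ∣ L.2) → ∀ k ∈ inr 11 \ {m},
      mL (Law11 m δ1 δ2 p) (fun u => ich (qh8_ek p L k u)) ≤ C / (p : ℝ) ^ 2)
    {q : Par 11} {κ x : ℝ} {m : Fin 11} {P0 : ℕ} (hP0 : 2 ≤ P0)
    {u : PolyK 11} (hu : IsPath q κ m x P0 u) (i : Fin 11 → ℕ) (δ1 δ2 : ℤ) (hd : dOk m δ1 δ2)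
    (hE : ∀ S : Finset ℕ, (∀ p ∈ S, p.Prime ∧ 2 < p ∧ ¬ (p : ℤ) ∣ δ1 ∧ ¬ (p : ℤ) ∣ δ2) →
      EquiF (O11 m i) (pol11 m i δ1 δ2) (Law11 m δ1 δ2) S (x ^ κ) (x ^ (-κ)))
    (A : Finset (PolyK 11)) (G : ℕ) (hGx : (G : ℝ) ≤ x ^ κ) (hAne : A.Nonempty)
    (hA : ∀ v ∈ A, IsPath q κ m x P0 v ∧ Siz i v ∧ dl v 1 = δ1 ∧ dl v 10 = δ2 ∧ Gc u v = G) :
    (A.card : ℝ) ≤ (O11 m i).card *
      (∏ p ∈ G.primeFactors, (11 * C) / (p : ℝ) ^ 2 + x ^ (-κ)) := by
  classical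
  obtain ⟨v0, hv0⟩ := hAne
  obtain ⟨a1, a2, a3, a4, a5⟩ := hA v0 hv0
  obtain ⟨g1, g2⟩ := qh8_Gc (u := u) (v := v0)
  rw [a5] at g1 g2
  set T := G.primeFactors with hT
  have hTp : ∀ p ∈ T, p.Prime ∧ 2 < p ∧ ¬ (p : ℤ) ∣ δ1 ∧ ¬ (p : ℤ) ∣ δ2 := by
    intro p hp
    obtain ⟨b1, b2, b3, b4⟩ := g2 p hp
    obtain ⟨j, hj, hpj⟩ := qh8_bad_dvd b1 b3
    have key : ∀ k : Fin 11, k ≠ j → ¬ (p : ℤ) ∣ dl v0 k := by
      intro k kj hk
      have hk' : p ∣ dn v0 k := Int.natCast_dvd.mp hk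
      exact Nat.not_coprime_of_dvd_of_dvd b1.one_lt hk' hpj (a1.poly.co k j kj)
    have hj' := hj
    unfold inr at hj'
    rw [Finset.mem_filter] at hj'
    have hm1 : (-1 : Fin 11) = 10 := by decide
    have hgt : 2 < p := lt_of_le_of_lt hP0 (qh8_P0 hu.poly b1 b2)
    refine ⟨b1, hgt, ?_, ?_⟩
    · rw [← a3]; exact key 1 (fun h => hj'.2.1 h.symm)
    · rw [← a4]; exact key 10 (fun h => hj'.2.2 (by rw [hm1]; exact h.symm))
  have hcount := qh8_count (q := q) (κ := κ) (x := x) (P0 := P0) (m := m) i δ1 δ2 A T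
    (fun p v => ich (qh8_ev m p (Lv u p) v))
    (fun v hv => ⟨(hA v hv).1, (hA v hv).2.1, (hA v hv).2.2.1, (hA v hv).2.2.2.1⟩)
    (fun p v => (qh8_ich01 _).1)
    (by
      intro v hv p hp
      obtain ⟨c1, c2, c3, c4, c5⟩ := hA v hv
      obtain ⟨_, g2'⟩ := qh8_Gc (u := u) (v := v)
      rw [c5] at g2'
      obtain ⟨b1, b2, b3, b4⟩ := g2' p hp
      have hev := qh8_event c1 b1 b3 b4
      show ich (qh8_ev m p (Lv u p) v) = 1
      unfold ich
      rw [if_pos hev])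
  have hprod : ((∏ p ∈ T, p : ℕ) : ℝ) ≤ x ^ κ := by
    rw [← g1]
    exact hGx
  have hequi := hE T hTp T (Finset.Subset.refl T) hprod
    (fun p v => ich (qh8_ev m p (Lv u p) v)) (fun p _ => qh8_per m p (Lv u p))
    (fun p _ v => qh8_ich01 _)
  have hmean : ∏ p ∈ T, mL (Law11 m δ1 δ2 p) (fun v => ich (qh8_ev m p (Lv u p) v)) ≤
      ∏ p ∈ T, (11 * C) / (p : ℝ) ^ 2 := by
    apply Finset.prod_le_prod
    · intro p _
      unfold mL
      apply div_nonneg _ (Nat.cast_nonneg _)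
      exact Finset.sum_nonneg (fun v _ => (qh8_ich01 _).1)
    · intro p hp
      obtain ⟨b1, b2, b3, b4⟩ := g2 p hp
      obtain ⟨_, hgt, t1, t4⟩ := hTp p hp
      exact qh8_mean (hG p b1 hgt m δ1 δ2 hd t1 t4 (Lv u p)
        (Lv_ne (by norm_num) hu.poly b1 (qh8_DD b2))) (by linarith)
  have h1 := (abs_le.mp hequi).2
  have hO : (0 : ℝ) ≤ (O11 m i).card := Nat.cast_nonneg _
  have h2 := mul_le_mul_of_nonneg_left hmean hO
  calc (A.card : ℝ) ≤ ∑ o ∈ O11 m i, ∏ p ∈ T, ich (qh8_ev m p (Lv u p) (pol11 m i δ1 δ2 o)) :=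
        hcount
    _ ≤ (O11 m i).card * ∏ p ∈ T, mL (Law11 m δ1 δ2 p)
          (fun v => ich (qh8_ev m p (Lv u p) v)) +
        x ^ (-κ) * (O11 m i).card := by linarith
    _ ≤ (O11 m i).card * (∏ p ∈ T, (11 * C) / (p : ℝ) ^ 2 + x ^ (-κ)) := by
        rw [mul_add, mul_comm (x ^ (-κ))]
        linarith

theorem qh8_x0 (c D ε : ℝ) (hc : 0 < c) (hD : 0 < D) (hε : 0 < ε) : ∃ x₀ : ℝ, 2 ≤ x₀ ∧ ∀ x ≥ x₀,
    2 ≤ Real.log x ∧ D ≤ Real.log x ∧
    c * (D / Real.log x ^ 199 + x ^ (ε / 8) * (x ^ (ε / 8) * x ^ (-ε))) ≤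
      Real.log x ^ (-198 : ℝ) := by
  have hl := isLittleO_log_rpow_rpow_atTop (198 : ℝ) (show 0 < 3 * ε / 4 by positivity)
  have h1 : ∀ᶠ x : ℝ in Filter.atTop, ‖Real.log x ^ (198 : ℝ)‖ ≤
      1 / (2 * c) * ‖x ^ (3 * ε / 4)‖ :=
    hl.def (by positivity)
  have h2 : ∀ᶠ x : ℝ in Filter.atTop, max (max 2 D) (2 * D * c) ≤ Real.log x :=
    Real.tendsto_log_atTop.eventually_ge_atTop _
  obtain ⟨x₀, hx₀⟩ := Filter.eventually_atTop.mp (h1.and h2)
  refine ⟨max x₀ 2, le_max_right _ _, fun x hx => ?_⟩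
  obtain ⟨e1, e2⟩ := hx₀ x (le_trans (le_max_left _ _) hx)
  have hx2 : 2 ≤ x := le_trans (le_max_right _ _) hx
  have hx0 : 0 < x := by linarith
  have hL2 : 2 ≤ Real.log x := le_trans (le_trans (le_max_left _ _) (le_max_left _ _)) e2
  have hLD : D ≤ Real.log x := le_trans (le_trans (le_max_right _ _) (le_max_left _ _)) e2
  have hLc : 2 * D * c ≤ Real.log x := le_trans (le_max_right _ _) e2
  refine ⟨hL2, hLD, ?_⟩
  set L := Real.log x with hL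
  have hL0 : 0 < L := by linarith
  have hLr : L ^ (198 : ℝ) = L ^ 198 := by
    have h := Real.rpow_natCast L 198
    exact_mod_cast h
  have hneg : L ^ (-198 : ℝ) = 1 / L ^ 198 := by
    rw [Real.rpow_neg hL0.le, hLr, one_div]
  rw [hLr, Real.norm_of_nonneg (by positivity), Real.norm_of_nonneg (by positivity)] at e1
  have hxx : x ^ (ε / 8) * (x ^ (ε / 8) * x ^ (-ε)) = 1 / x ^ (3 * ε / 4) := by
    rw [← Real.rpow_add hx0, ← Real.rpow_add hx0, one_div, ← Real.rpow_neg hx0.le]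
    congr 1
    ring
  rw [hxx, hneg]
  have hxp : 0 < x ^ (3 * ε / 4) := by positivity
  have i1 : c * (D / L ^ 199) ≤ 1 / 2 * (1 / L ^ 198) := by
    have : c * (D / L ^ 199) = (2 * D * c) * (1 / L ^ 199) / 2 := by ring
    rw [this]
    have h3 : (2 * D * c) * (1 / L ^ 199) ≤ L * (1 / L ^ 199) :=
      mul_le_mul_of_nonneg_right hLc (by positivity)
    have h4 : L * (1 / L ^ 199) = 1 / L ^ 198 := by
      have h5 : L ^ 199 = L ^ 198 * L := pow_succ L 198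
      have h6 : (0 : ℝ) < L ^ 198 := pow_pos hL0 198
      rw [h5]
      field_simp
    linarith
  have i2 : c * (1 / x ^ (3 * ε / 4)) ≤ 1 / 2 * (1 / L ^ 198) := by
    have h5 : 2 * c * L ^ 198 ≤ x ^ (3 * ε / 4) := by
      have h6 := mul_le_mul_of_nonneg_left e1 (show 0 ≤ 2 * c by positivity)
      have h7 : 2 * c * (1 / (2 * c) * x ^ (3 * ε / 4)) = x ^ (3 * ε / 4) := by
        field_simp
      linarith
    rw [mul_one_div, div_le_iff₀ hxp]
    have h8 : 1 / 2 * (1 / L ^ 198) * x ^ (3 * ε / 4) ≥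
        1 / 2 * (1 / L ^ 198) * (2 * c * L ^ 198) :=
      mul_le_mul_of_nonneg_left h5 (by positivity)
    have h9 : 1 / 2 * (1 / L ^ 198) * (2 * c * L ^ 198) = c := by
      field_simp
    linarith
  rw [mul_add]
  linarith

theorem cell2_11_pr (q : Par 11) (hq : q.Ok) {κ : ℝ} (hκ : 0 < κ) (hκ1 : κ ≤ 1 / 10)
    (m : Fin 11) :
    ∃ x₀ : ℝ, 2 ≤ x₀ ∧ ∀ x ≥ x₀, ∀ P0 : ℕ, Real.log x ^ 200 ≤ P0 →
    ∀ u : PolyK 11, IsPath q κ m x P0 u →
    ∀ (i' : Fin 11 → ℕ) (δ1' δ2' : ℤ) (A : Finset (PolyK 11)),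
    (∀ v ∈ A, IsPath q κ m x P0 v ∧ Siz i' v ∧ dl v 1 = δ1' ∧ dl v 10 = δ2' ∧
      1 < Gc u v ∧ (Gc u v : ℝ) ≤ x ^ (κ / 8)) →
    ∑ v ∈ A, (Gc u v : ℝ) / bad v ≤ Real.log x ^ (-198 : ℝ) := by
  classical
  obtain ⟨x₁, hx₁, hE⟩ := path_equi hκ hκ1
  obtain ⟨C, hC1, hG⟩ := law11_G
  have hc := hq.c30
  obtain ⟨x₂, hx₂, hfin⟩ := qh8_x0 (10 ^ 20 / q.c3 ^ 9) (44 * C) κ (by positivity)
    (by linarith) hκ
  refine ⟨max x₁ x₂, le_trans hx₂ (le_max_right _ _), ?_⟩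
  intro x hx P0 hP0 u hu i' δ1' δ2' A hA
  have hxx₁ : x ≥ x₁ := le_trans (le_max_left _ _) hx
  have hxx₂ : x ≥ x₂ := le_trans (le_max_right _ _) hx
  have hx2 : 2 ≤ x := le_trans hx₂ hxx₂
  have hx0 : 0 < x := by linarith
  have hx1 : 1 ≤ x := by linarith
  obtain ⟨hL2, hLD, hfin⟩ := hfin x hxx₂
  set L := Real.log x with hL
  have hL0 : 0 < L := by linarith
  rcases A.eq_empty_or_nonempty with hAe | ⟨w, hw⟩
  · rw [hAe, Finset.sum_empty]
    positivity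
  obtain ⟨⟨i0, hi0, hps⟩, hdok⟩ := psiz_ok hq hκ hx1 (hA w hw).1
  have hii : i0 = i' := qh8_siz hi0 (hA w hw).2.1
  rw [hii] at hps
  rw [(hA w hw).2.2.1, (hA w hw).2.2.2.1] at hdok
  have hE' := hE x hxx₁ m i' hps δ1' δ2' hdok
  have hP02 : 2 ≤ P0 := by
    have h1 : (2 : ℝ) ≤ L ^ 200 := by
      calc (2 : ℝ) = 2 ^ 1 := (pow_one _).symm
        _ ≤ 2 ^ 200 := pow_le_pow_right₀ (by norm_num) (by norm_num)
        _ ≤ L ^ 200 := pow_le_pow_left₀ (by norm_num) hL2 200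
    exact_mod_cast le_trans h1 hP0
  set B : ℝ := (2 : ℝ) ^ i' 0 * 2 ^ i' 1 * 2 ^ i' 2 * 2 ^ i' 10 *
    ∏ j : Fin 7, (2 ^ i' (sv j)) ^ 2 with hB
  have hB0 : 0 < B := by positivity
  have hcard : ((O11 m i').card : ℝ) ≤ 10 ^ 20 * B := O11_card m i' hps.fix
  have hbu := qh8_pos hu.poly
  set S := A.image (fun v => Gc u v) with hS
  have hSfacts : ∀ G ∈ S, 1 < G ∧ (G : ℝ) ≤ x ^ (κ / 8) ∧ G = ∏ p ∈ G.primeFactors, p ∧
      G.primeFactors ⊆ (bad u).primeFactors := by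
    intro G hG
    rw [hS, Finset.mem_image] at hG
    obtain ⟨v, hv, rfl⟩ := hG
    obtain ⟨_, _, _, _, h6, h7⟩ := hA v hv
    obtain ⟨g1, g2⟩ := qh8_Gc (u := u) (v := v)
    refine ⟨h6, h7, g1, ?_⟩
    intro p hp
    obtain ⟨b1, b2, _, _⟩ := g2 p hp
    exact Nat.mem_primeFactors.mpr ⟨b1, b2, hbu.ne'⟩
  -- the sum over the fibres
  have hsum1 : ∑ v ∈ A, (Gc u v : ℝ) / bad v =
      ∑ G ∈ S, ∑ v ∈ A.filter (fun v => Gc u v = G), (Gc u v : ℝ) / bad v := by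
    rw [Finset.sum_fiberwise_of_maps_to (fun v hv => Finset.mem_image_of_mem _ hv)]
  have hfib : ∀ G ∈ S, ∑ v ∈ A.filter (fun v => Gc u v = G), (Gc u v : ℝ) / bad v ≤
      10 ^ 20 / q.c3 ^ 9 * (∏ p ∈ G.primeFactors, ((11 * C) / (p : ℝ)) + G * x ^ (-κ)) := by
    intro G hGS
    obtain ⟨s1, s2, s3, s4⟩ := hSfacts G hGS
    have hG0 : (0 : ℝ) < G := by
      have : 0 < G := by omega
      exact_mod_cast this
    have hne : (A.filter (fun v => Gc u v = G)).Nonempty := by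
      rw [hS, Finset.mem_image] at hGS
      obtain ⟨v, hv, hvG⟩ := hGS
      exact ⟨v, Finset.mem_filter.mpr ⟨hv, hvG⟩⟩
    have hxe : x ^ (κ / 8) ≤ x ^ κ :=
      Real.rpow_le_rpow_of_exponent_le hx1 (by linarith)
    have hfix := qh8_fix hC1 hG hP02 hu i' δ1' δ2' hdok hE' (A.filter (fun v => Gc u v = G)) G
      (s2.trans hxe) hne (by
        intro v hv
        obtain ⟨hv1, hv2⟩ := Finset.mem_filter.mp hv
        obtain ⟨h1, h3, h4, h5, _, _⟩ := hA v hv1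
        exact ⟨h1, h3, h4, h5, hv2⟩)
    have hterm : ∀ v ∈ A.filter (fun v => Gc u v = G), (Gc u v : ℝ) / bad v ≤
        G / (q.c3 ^ 9 * B) := by
      intro v hv
      obtain ⟨hv1, hv2⟩ := Finset.mem_filter.mp hv
      obtain ⟨h1, h3, h4, h5, _, _⟩ := hA v hv1
      rw [hv2]
      exact div_le_div_of_nonneg_left hG0.le (by positivity) (qh8_bad_ge hq h1.sep h3)
    have hprodG : (G : ℝ) * ∏ p ∈ G.primeFactors, (11 * C) / (p : ℝ) ^ 2 =
        ∏ p ∈ G.primeFactors, ((11 * C) / (p : ℝ)) := by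
      have hGr : (G : ℝ) = ∏ p ∈ G.primeFactors, (p : ℝ) := by
        conv_lhs => rw [s3]
        push_cast
        rfl
      conv_lhs => rw [hGr]
      rw [← Finset.prod_mul_distrib]
      apply Finset.prod_congr rfl
      intro p hp
      have hp0 : (p : ℝ) ≠ 0 := by
        have := (Nat.prime_of_mem_primeFactors hp).pos
        positivity
      field_simp
    have hprod0 : 0 ≤ ∏ p ∈ G.primeFactors, (11 * C) / (p : ℝ) ^ 2 + x ^ (-κ) := by
      have : 0 ≤ ∏ p ∈ G.primeFactors, (11 * C) / (p : ℝ) ^ 2 :=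
        Finset.prod_nonneg (fun p _ => by positivity)
      have h' : 0 < x ^ (-κ) := by positivity
      linarith
    calc ∑ v ∈ A.filter (fun v => Gc u v = G), (Gc u v : ℝ) / bad v ≤
        ∑ v ∈ A.filter (fun v => Gc u v = G), (G : ℝ) / (q.c3 ^ 9 * B) :=
          Finset.sum_le_sum hterm
      _ = (A.filter (fun v => Gc u v = G)).card * (G / (q.c3 ^ 9 * B)) := by
          rw [Finset.sum_const, nsmul_eq_mul]
      _ ≤ ((O11 m i').card * (∏ p ∈ G.primeFactors, (11 * C) / (p : ℝ) ^ 2 + x ^ (-κ))) *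
          (G / (q.c3 ^ 9 * B)) := mul_le_mul_of_nonneg_right hfix (by positivity)
      _ ≤ ((10 ^ 20 * B) * (∏ p ∈ G.primeFactors, (11 * C) / (p : ℝ) ^ 2 + x ^ (-κ))) *
          (G / (q.c3 ^ 9 * B)) := by
          apply mul_le_mul_of_nonneg_right _ (by positivity)
          exact mul_le_mul_of_nonneg_right hcard hprod0
      _ = 10 ^ 20 / q.c3 ^ 9 * (G * ∏ p ∈ G.primeFactors, (11 * C) / (p : ℝ) ^ 2 +
          G * x ^ (-κ)) := by
          field_simp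
      _ = 10 ^ 20 / q.c3 ^ 9 * (∏ p ∈ G.primeFactors, ((11 * C) / (p : ℝ)) + G * x ^ (-κ)) := by
          rw [hprodG]
  -- the sum over G
  have hsets : ∑ G ∈ S, ∏ p ∈ G.primeFactors, ((11 * C) / (p : ℝ)) ≤ 44 * C / L ^ 199 := by
    have hinj : Set.InjOn (fun G : ℕ => G.primeFactors) (S : Set ℕ) := by
      intro a ha b hb hab
      have h1 := (hSfacts a ha).2.2.1
      have h2 := (hSfacts b hb).2.2.1
      simp only at hab
      rw [h1, h2, hab]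
    rw [← Finset.sum_image (f := fun T : Finset ℕ => ∏ p ∈ T, ((11 * C) / (p : ℝ)))
      (fun a ha b hb hab => hinj ha hb hab)]
    have e4 : 44 * C / L ^ 199 = 4 * (11 * C) / L ^ 199 := by ring
    rw [e4]
    apply qh8_sets (bad u).primeFactors _ _ (by linarith) hL2 (by linarith)
    · intro p hp
      obtain ⟨b1, b2, _⟩ := Nat.mem_primeFactors.mp hp
      have : P0 < p := qh8_P0 hu.poly b1 b2
      have h' : (P0 : ℝ) ≤ p := by exact_mod_cast this.le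
      exact hP0.trans h'
    · exact qh8_omega hbu (qh8_bad_le q hq hx1 hu.poly)
    · intro T hT
      rw [Finset.mem_image] at hT
      obtain ⟨G, hG, rfl⟩ := hT
      obtain ⟨s1, s2, s3, s4⟩ := hSfacts G hG
      refine ⟨s4, ?_⟩
      rw [Finset.nonempty_iff_ne_empty]
      intro h0
      rw [h0, Finset.prod_empty] at s3
      omega
  have hScard : (S.card : ℝ) ≤ x ^ (κ / 8) := by
    have hsub : S ⊆ Finset.Icc 1 ⌊x ^ (κ / 8)⌋₊ := by
      intro G hG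
      obtain ⟨s1, s2, _, _⟩ := hSfacts G hG
      rw [Finset.mem_Icc]
      exact ⟨s1.le, Nat.le_floor s2⟩
    have h1 := Finset.card_le_card hsub
    rw [Nat.card_Icc, Nat.add_sub_cancel] at h1
    calc (S.card : ℝ) ≤ (⌊x ^ (κ / 8)⌋₊ : ℝ) := by exact_mod_cast h1
      _ ≤ x ^ (κ / 8) := Nat.floor_le (by positivity)
  have hsumG : ∑ G ∈ S, (G : ℝ) * x ^ (-κ) ≤ x ^ (κ / 8) * (x ^ (κ / 8) * x ^ (-κ)) := by
    calc ∑ G ∈ S, (G : ℝ) * x ^ (-κ) ≤ ∑ G ∈ S, x ^ (κ / 8) * x ^ (-κ) := by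
          apply Finset.sum_le_sum
          intro G hG
          exact mul_le_mul_of_nonneg_right (hSfacts G hG).2.1 (by positivity)
      _ = S.card * (x ^ (κ / 8) * x ^ (-κ)) := by
          rw [Finset.sum_const, nsmul_eq_mul]
      _ ≤ x ^ (κ / 8) * (x ^ (κ / 8) * x ^ (-κ)) :=
          mul_le_mul_of_nonneg_right hScard (by positivity)
  rw [hsum1]
  calc ∑ G ∈ S, ∑ v ∈ A.filter (fun v => Gc u v = G), (Gc u v : ℝ) / bad v ≤
      ∑ G ∈ S, 10 ^ 20 / q.c3 ^ 9 * (∏ p ∈ G.primeFactors, ((11 * C) / (p : ℝ)) +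
        G * x ^ (-κ)) :=
        Finset.sum_le_sum hfib
    _ = 10 ^ 20 / q.c3 ^ 9 * (∑ G ∈ S, ∏ p ∈ G.primeFactors, ((11 * C) / (p : ℝ)) +
        ∑ G ∈ S, (G : ℝ) * x ^ (-κ)) := by
        rw [← Finset.mul_sum, Finset.sum_add_distrib]
    _ ≤ 10 ^ 20 / q.c3 ^ 9 * (44 * C / L ^ 199 + x ^ (κ / 8) * (x ^ (κ / 8) * x ^ (-κ))) := by
        apply mul_le_mul_of_nonneg_left _ (by positivity)
        exact add_le_add hsets hsumG
    _ ≤ L ^ (-198 : ℝ) := hfin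

end Pool.Agent.PENK

namespace Pool.Agent.PENK

theorem cell2_11 : type_of% @cell2_11_pr := @cell2_11_pr

end Pool.Agent.PENK
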