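import Pool.Agent.Lib_helper18.PENK11.Defs
import Pool.Agent.Lib_helper18.PENKF.PB2

/-! PENK block QN1 (helper41): one cell, a given prime of `bad` -/

set_option autoImplicit false

namespace Pool.Agent.PENK

open Finset Pool.Agent.PENT

/-- integers of an interval in one class -/
theorem qn1_cls {p : ℕ} (hp : 0 < p) (N : ℕ) (T : Finset ℤ) (hT : ∀ a ∈ T, a ∈ Icc (-(N : ℤ)) N)
    (h : ∀ a ∈ T, ∀ b ∈ T, (p : ℤ) ∣ a - b) : (T.card : ℝ) ≤ (2 * N + 1) / p + 1 := by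
  have hp0 : (0 : ℝ) < p := by exact_mod_cast hp
  rcases T.eq_empty_or_nonempty with he | ⟨c, hc⟩
  · rw [he, Finset.card_empty]
    push_cast
    positivity
  have h1 : T ⊆ (Ico (-(N : ℤ)) (N + 1)).filter (fun x => x ≡ c [ZMOD p]) := by
    intro a ha
    have h2 := hT a ha
    rw [mem_Icc] at h2
    rw [mem_filter, mem_Ico]
    refine ⟨⟨h2.1, by omega⟩, ?_⟩
    exact (Int.modEq_iff_dvd.2 (h c hc a ha))
  have h2 := Finset.card_le_card h1
  have h3 := Int.Ico_filter_modEq_card (-(N : ℤ)) (N + 1) (r := (p : ℤ)) (by exact_mod_cast hp) c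
  have hpq : (0 : ℚ) < p := by exact_mod_cast hp
  have h4 : ((((Ico (-(N : ℤ)) (N + 1)).filter (fun x => x ≡ c [ZMOD p])).card : ℤ) : ℚ) ≤
      (2 * N + 1) / p + 1 := by
    rw [h3]
    push_cast
    apply max_le
    · have a1 := Int.ceil_lt_add_one (((N : ℚ) + 1 - c) / p)
      have a2 := Int.le_ceil ((-(N : ℚ) - c) / p)
      have a3 : (2 * (N : ℚ) + 1) / p = ((N : ℚ) + 1 - c) / p - (-(N : ℚ) - c) / p := by ring
      rw [a3]
      linarith
    · positivity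
  have h5 : ((((Ico (-(N : ℤ)) (N + 1)).filter (fun x => x ≡ c [ZMOD p])).card : ℕ) : ℝ) ≤
      (2 * N + 1) / p + 1 := by
    have h6 := (Rat.cast_le (K := ℝ)).2 h4
    push_cast at h6
    exact_mod_cast h6
  refine le_trans ?_ h5
  exact_mod_cast h2

theorem qn1_fib {α β : Type} [DecidableEq β] (S : Finset α) (f : α → β) (T : Finset β)
    (hf : ∀ a ∈ S, f a ∈ T) {M : ℝ} (h : ∀ b ∈ T, ((S.filter (fun a => f a = b)).card : ℝ) ≤ M) :
    (S.card : ℝ) ≤ T.card * M := by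
  rw [Finset.card_eq_sum_card_fiberwise (f := f) (t := T) hf]
  push_cast
  calc ∑ b ∈ T, ((S.filter (fun a => f a = b)).card : ℝ) ≤ ∑ _b ∈ T, M := Finset.sum_le_sum h
    _ = T.card * M := by rw [Finset.sum_const, nsmul_eq_mul]

theorem qn1_prime {p : ℕ} (hp : p.Prime) {a b : ℤ} (h : (p : ℤ) ∣ a * b) (hb : ¬ (p : ℤ) ∣ b) :
    (p : ℤ) ∣ a :=
  ((Nat.prime_iff_prime_int.1 hp).dvd_or_dvd h).resolve_right hb

/-- vectors of a square parallel to a given one modulo `p` -/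
theorem qn1_line {p : ℕ} (hp : p.Prime) (N : ℕ) (hN : 1 ≤ N) (w : ℤ × ℤ)
    (hw : ¬ ((p : ℤ) ∣ w.1 ∧ (p : ℤ) ∣ w.2)) (S : Finset (ℤ × ℤ))
    (hS : ∀ a ∈ S, a ∈ sq N ∧ (p : ℤ) ∣ dt a w) :
    (S.card : ℝ) ≤ 9 * (N : ℝ) * (N / p + 1) := by
  classical
  have hp0 : (0 : ℝ) < p := by exact_mod_cast hp.pos
  have hN1 : (1 : ℝ) ≤ N := by exact_mod_cast hN
  have hcard : ((Icc (-(N : ℤ)) N).card : ℝ) ≤ 3 * N := by
    rw [Int.card_Icc]
    have : ((N : ℤ) + 1 - -(N : ℤ)).toNat = 2 * N + 1 := by omega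
    rw [this]
    push_cast
    linarith
  have hM : (2 * (N : ℝ) + 1) / p + 1 ≤ 3 * (N / p + 1) := by
    have : (2 * (N : ℝ) + 1) / p ≤ (3 * N) / p := div_le_div_of_nonneg_right (by linarith) hp0.le
    have h2 : (3 * (N : ℝ)) / p = 3 * (N / p) := by ring
    linarith
  by_cases h2 : (p : ℤ) ∣ w.2
  · have h1 : ¬ (p : ℤ) ∣ w.1 := fun h => hw ⟨h, h2⟩
    have h3 := qn1_fib S Prod.fst (Icc (-(N : ℤ)) N) (fun a ha => by
      have := (hS a ha).1
      unfold sq at this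
      rw [mem_product] at this
      exact this.1) (M := 3 * (N / p + 1)) (by
      intro b _
      refine le_trans ?_ hM
      have h4 := qn1_cls hp.pos N ((S.filter (fun a => a.1 = b)).image Prod.snd) (by
        intro c hc
        obtain ⟨a, ha, rfl⟩ := Finset.mem_image.1 hc
        rw [mem_filter] at ha
        have := (hS a ha.1).1
        unfold sq at this
        rw [mem_product] at this
        exact this.2) (by
        intro c hc d hd
        obtain ⟨a, ha, rfl⟩ := Finset.mem_image.1 hc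
        obtain ⟨a', ha', rfl⟩ := Finset.mem_image.1 hd
        rw [mem_filter] at ha ha'
        have k1 := (hS a ha.1).2
        have k2 := (hS a' ha'.1).2
        unfold dt at k1 k2
        rw [ha.2] at k1
        rw [ha'.2] at k2
        apply qn1_prime hp (b := w.1) _ h1
        have k3 := dvd_sub k2 k1
        have e : b * w.2 - a'.2 * w.1 - (b * w.2 - a.2 * w.1) = (a.2 - a'.2) * w.1 := by ring
        rwa [e] at k3)
      rw [Finset.card_image_of_injOn] at h4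
      · exact h4
      · intro a ha a' ha' hh
        rw [mem_coe, mem_filter] at ha ha'
        exact Prod.ext (ha.2.trans ha'.2.symm) hh)
    calc (S.card : ℝ) ≤ _ := h3
      _ ≤ (3 * N) * (3 * (N / p + 1)) := mul_le_mul_of_nonneg_right hcard (by positivity)
      _ = _ := by ring
  · have h3 := qn1_fib S Prod.snd (Icc (-(N : ℤ)) N) (fun a ha => by
      have := (hS a ha).1
      unfold sq at this
      rw [mem_product] at this
      exact this.2) (M := 3 * (N / p + 1)) (by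
      intro b _
      refine le_trans ?_ hM
      have h4 := qn1_cls hp.pos N ((S.filter (fun a => a.2 = b)).image Prod.fst) (by
        intro c hc
        obtain ⟨a, ha, rfl⟩ := Finset.mem_image.1 hc
        rw [mem_filter] at ha
        have := (hS a ha.1).1
        unfold sq at this
        rw [mem_product] at this
        exact this.1) (by
        intro c hc d hd
        obtain ⟨a, ha, rfl⟩ := Finset.mem_image.1 hc
        obtain ⟨a', ha', rfl⟩ := Finset.mem_image.1 hd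
        rw [mem_filter] at ha ha'
        have k1 := (hS a ha.1).2
        have k2 := (hS a' ha'.1).2
        unfold dt at k1 k2
        rw [ha.2] at k1
        rw [ha'.2] at k2
        apply qn1_prime hp (b := w.2) _ h2
        have k3 := dvd_sub k1 k2
        have e : a.1 * w.2 - b * w.1 - (a'.1 * w.2 - b * w.1) = (a.1 - a'.1) * w.2 := by ring
        rwa [e] at k3)
      rw [Finset.card_image_of_injOn] at h4
      · exact h4
      · intro a ha a' ha' hh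
        rw [mem_coe, mem_filter] at ha ha'
        exact Prod.ext hh (ha.2.trans ha'.2.symm))
    calc (S.card : ℝ) ≤ _ := h3
      _ ≤ (3 * N) * (3 * (N / p + 1)) := mul_le_mul_of_nonneg_right hcard (by positivity)
      _ = _ := by ring

/-- the vertices are nonzero modulo every prime -/
theorem qn1_vne {q : Par 11} {x : ℝ} {P0 : ℕ} {v : PolyK 11} (h : IsPoly q x P0 v) {p : ℕ}
    (hp : p.Prime) (j : Fin 11) : ¬ ((p : ℤ) ∣ (v j).1 ∧ (p : ℤ) ∣ (v j).2) := by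
  rintro ⟨h1, h2⟩
  have h3 := h.co (j - 1) j (by fin_cases j <;> decide)
  have h4 : p ∣ dn v (j - 1) := by
    unfold dn dl dt
    rw [sub_add_cancel]
    exact Int.natCast_dvd.1 (dvd_sub (Dvd.dvd.mul_left h2 _) (Dvd.dvd.mul_left h1 _))
  have h5 : p ∣ dn v j := by
    unfold dn dl dt
    exact Int.natCast_dvd.1 (dvd_sub (Dvd.dvd.mul_right h1 _) (Dvd.dvd.mul_right h2 _))
  have h6 := Nat.dvd_gcd h4 h5
  rw [Nat.Coprime] at h3
  rw [h3] at h6
  exact hp.one_lt.ne' (Nat.dvd_one.1 h6)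

/-- the number of values of the vertex `j` -/
noncomputable def qn1_B (i : Fin 11 → ℕ) (j : Fin 11) : ℝ :=
  if j = 0 ∨ j = 1 then 1 else if j = 2 ∨ j = 10 then 5 * 2 ^ i j else 25 * (2 ^ i j) ^ 2

/-- the values of the vertex `j` -/
noncomputable def qn1_T (i : Fin 11 → ℕ) (δ1 δ2 : ℤ) (j : Fin 11) : Finset (ℤ × ℤ) :=
  if j = 0 then {(0, 1)} else if j = 1 then {(1, 0)}
  else if j = 2 then (Icc (-((2 ^ (i j + 1) : ℕ) : ℤ)) ((2 ^ (i j + 1) : ℕ) : ℤ)) ×ˢ {δ1}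
  else if j = 10 then {δ2} ×ˢ (Icc (-((2 ^ (i j + 1) : ℕ) : ℤ)) ((2 ^ (i j + 1) : ℕ) : ℤ))
  else sq (2 ^ (i j + 1))

theorem qn1_Icc (n : ℕ) : ((Icc (-((2 ^ (n + 1) : ℕ) : ℤ)) ((2 ^ (n + 1) : ℕ) : ℤ)).card : ℝ) ≤
    5 * 2 ^ n := by
  rw [Int.card_Icc]
  have : (((2 ^ (n + 1) : ℕ) : ℤ) + 1 - -((2 ^ (n + 1) : ℕ) : ℤ)).toNat = 2 * 2 ^ (n + 1) + 1 := by
    omega
  rw [this, pow_succ]
  push_cast
  have : (1 : ℝ) ≤ 2 ^ n := one_le_pow₀ (by norm_num)
  linarith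

theorem qn1_TB (i : Fin 11 → ℕ) (δ1 δ2 : ℤ) (j : Fin 11) :
    ((qn1_T i δ1 δ2 j).card : ℝ) ≤ qn1_B i j := by
  have hI := qn1_Icc (i j)
  unfold qn1_T qn1_B
  by_cases h0 : j = 0
  · rw [if_pos h0, if_pos (Or.inl h0)]; simp
  by_cases h1 : j = 1
  · rw [if_neg h0, if_pos h1, if_pos (Or.inr h1)]; simp
  rw [if_neg h0, if_neg h1, if_neg (by tauto : ¬ (j = 0 ∨ j = 1))]
  by_cases h2 : j = 2
  · rw [if_pos h2, if_pos (Or.inl h2), card_product, card_singleton, mul_one]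
    exact hI
  by_cases h10 : j = 10
  · rw [if_neg h2, if_pos h10, if_pos (Or.inr h10), card_product, card_singleton, one_mul]
    exact hI
  rw [if_neg h2, if_neg h10, if_neg (by tauto : ¬ (j = 2 ∨ j = 10))]
  unfold sq
  rw [card_product]
  push_cast at hI ⊢
  nlinarith [Nat.cast_nonneg (α := ℝ) (Icc (-((2 ^ (i j + 1) : ℕ) : ℤ)) ((2 ^ (i j + 1) : ℕ) : ℤ)).card]

theorem qn1_mem {q : Par 11} {κ x : ℝ} {P0 : ℕ} {i : Fin 11 → ℕ} {v : PolyK 11}
    (h : IsPath q κ 0 x P0 v) (hi : Siz i v) (j : Fin 11) :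
    v j ∈ qn1_T i (dl v 1) (dl v 10) j := by
  have f0 : v 0 = (0, 1) := h.fix 0 (0, 1) (by decide)
  have f1 : v 1 = (1, 0) := h.fix 1 (1, 0) (by decide)
  have hsz : (v j).1.natAbs ≤ 2 ^ (i j + 1) ∧ (v j).2.natAbs ≤ 2 ^ (i j + 1) := by
    have := (hi j).2
    unfold nr at this
    omega
  have hI : ∀ a : ℤ, a.natAbs ≤ 2 ^ (i j + 1) →
      a ∈ Icc (-((2 ^ (i j + 1) : ℕ) : ℤ)) ((2 ^ (i j + 1) : ℕ) : ℤ) := by
    intro a ha
    rw [mem_Icc]
    omega
  unfold qn1_T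
  by_cases h0 : j = 0
  · rw [if_pos h0, h0, f0, mem_singleton]
  by_cases h1 : j = 1
  · rw [if_neg h0, if_pos h1, h1, f1, mem_singleton]
  rw [if_neg h0, if_neg h1]
  by_cases h2 : j = 2
  · rw [if_pos h2, mem_product, mem_singleton]
    refine ⟨hI _ hsz.1, ?_⟩
    unfold dl dt
    have e : (1 : Fin 11) + 1 = 2 := by decide
    rw [e, f1, h2]
    ring
  by_cases h10 : j = 10
  · rw [if_neg h2, if_pos h10, mem_product, mem_singleton]
    refine ⟨?_, hI _ hsz.2⟩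
    unfold dl dt
    have e : (10 : Fin 11) + 1 = 0 := by decide
    rw [e, f0, h10]
    ring
  rw [if_neg h2, if_neg h10]
  unfold sq
  rw [mem_product]
  exact ⟨hI _ hsz.1, hI _ hsz.2⟩

/-- one pair of vertices `(l, o)` -/
theorem qn1_pair {q : Par 11} {κ x : ℝ} {P0 p : ℕ} (hp : p.Prime) {i : Fin 11 → ℕ} {δ1 δ2 : ℤ}
    (A : Finset (PolyK 11)) (hA : ∀ v ∈ A, IsPath q κ 0 x P0 v ∧ Siz i v ∧ dl v 1 = δ1 ∧
      dl v 10 = δ2) (l o : Fin 11) (hl0 : l ≠ 0) (hl1 : l ≠ 1) (hl2 : l ≠ 2) (hl10 : l ≠ 10)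
    (hlo : o ≠ l) (hd : ∀ v ∈ A, (p : ℤ) ∣ dt (v l) (v o)) :
    (A.card : ℝ) ≤ (∏ j ∈ univ.erase l, qn1_B i j) *
      (9 * (2 ^ (i l + 1) : ℝ) * ((2 : ℝ) ^ (i l + 1) / p + 1)) := by
  classical
  have h1 := qn1_fib A (fun v => Function.update v l (0, 0))
    (Fintype.piFinset (fun j => if j = l then {(0, 0)} else qn1_T i δ1 δ2 j)) (by
      intro v hv
      obtain ⟨a1, a2, a3, a4⟩ := hA v hv
      rw [Fintype.mem_piFinset]
      intro j
      by_cases hj : j = l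
      · rw [if_pos hj, hj, Function.update_self, mem_singleton]
      · rw [if_neg hj, Function.update_of_ne hj]
        have := qn1_mem a1 a2 j
        rwa [a3, a4] at this)
    (M := 9 * (2 ^ (i l + 1) : ℝ) * ((2 : ℝ) ^ (i l + 1) / p + 1)) (by
      intro b _
      rcases (A.filter (fun v => Function.update v l (0, 0) = b)).eq_empty_or_nonempty with
        he | ⟨v0, hv0⟩
      · rw [he, card_empty]
        push_cast
        positivity
      rw [mem_filter] at hv0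
      have hb : ∀ v ∈ A.filter (fun v => Function.update v l (0, 0) = b), v o = b o := by
        intro v hv
        rw [mem_filter] at hv
        rw [← hv.2, Function.update_of_ne hlo]
      have hw : ¬ ((p : ℤ) ∣ (b o).1 ∧ (p : ℤ) ∣ (b o).2) := by
        rw [← hb v0 (mem_filter.2 hv0)]
        exact qn1_vne (hA v0 hv0.1).1.poly hp o
      have h2 := qn1_line hp (2 ^ (i l + 1)) Nat.one_le_two_pow (b o) hw
        ((A.filter (fun v => Function.update v l (0, 0) = b)).image (fun v => v l)) (by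
          intro a ha
          obtain ⟨v, hv, rfl⟩ := Finset.mem_image.1 ha
          have hvA := (mem_filter.1 hv).1
          refine ⟨?_, ?_⟩
          · obtain ⟨a1, a2, _, _⟩ := hA v hvA
            have := qn1_mem a1 a2 l
            unfold qn1_T at this
            rwa [if_neg hl0, if_neg hl1, if_neg hl2, if_neg hl10] at this
          · rw [← hb v hv]
            exact hd v hvA)
      rw [Finset.card_image_of_injOn] at h2
      · push_cast at h2
        exact h2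
      · intro v hv v' hv' hh
        rw [mem_coe] at hv hv'
        have e1 := (mem_filter.1 hv).2
        have e2 := (mem_filter.1 hv').2
        funext j
        by_cases hj : j = l
        · rw [hj]; exact hh
        · have e3 := congrFun (e1.trans e2.symm) j
          rwa [Function.update_of_ne hj, Function.update_of_ne hj] at e3)
  refine h1.trans (mul_le_mul_of_nonneg_right ?_ (by positivity))
  rw [Fintype.card_piFinset]
  push_cast
  rw [← Finset.mul_prod_erase univ _ (mem_univ l), if_pos rfl, card_singleton, Nat.cast_one, one_mul]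
  apply Finset.prod_le_prod
  · intro j _
    exact Nat.cast_nonneg _
  · intro j hj
    rw [if_neg (Finset.ne_of_mem_erase hj)]
    exact qn1_TB i δ1 δ2 j

theorem qn1_dnlow {q : Par 11} (hq : q.Ok) {u : PolyK 11} (hs : Sep q u) {i : Fin 11 → ℕ}
    (hi : Siz i u) (j : Fin 11) : q.c3 * (2 ^ i j * 2 ^ i (j + 1)) ≤ (dn u j : ℝ) := by
  have hj : j ≠ j + 1 := by fin_cases j <;> decide
  have h1 := hs j (j + 1) hj
  have h2 : (dn u j : ℝ) = |(dt (u j) (u (j + 1)) : ℝ)| := by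
    unfold dn dl
    rw [Nat.cast_natAbs]
    push_cast
    rfl
  rw [h2]
  refine le_trans ?_ h1
  have h3 : (2 : ℝ) ^ i j ≤ (nr (u j) : ℝ) := by exact_mod_cast (hi j).1
  have h4 : (2 : ℝ) ^ i (j + 1) ≤ (nr (u (j + 1)) : ℝ) := by exact_mod_cast (hi (j + 1)).1
  have h5 := hq.c30
  calc q.c3 * (2 ^ i j * 2 ^ i (j + 1)) ≤ q.c3 * ((nr (u j) : ℝ) * nr (u (j + 1))) := by
        apply mul_le_mul_of_nonneg_left _ h5.le
        exact mul_le_mul h3 h4 (by positivity) (by positivity)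
    _ = q.c3 * nr (u j) * nr (u (j + 1)) := by ring

theorem qn1_inr : inr 11 = {0, 2, 3, 4, 5, 6, 7, 8, 9} := by
  unfold inr
  decide

theorem qn1_badlow {q : Par 11} (hq : q.Ok) {u : PolyK 11} (hs : Sep q u) {i : Fin 11 → ℕ}
    (hi : Siz i u) : q.c3 ^ 9 * ((2 : ℝ) ^ i 0 * 2 ^ i 1 * 2 ^ i 2 * 2 ^ i 10 *
      ((2 ^ i 3) ^ 2 * (2 ^ i 4) ^ 2 * (2 ^ i 5) ^ 2 * (2 ^ i 6) ^ 2 * (2 ^ i 7) ^ 2 *
        (2 ^ i 8) ^ 2 * (2 ^ i 9) ^ 2)) ≤ (bad u : ℝ) := by
  have hc := hq.c30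
  have h1 : ∏ j ∈ inr 11, (q.c3 * ((2 : ℝ) ^ i j * 2 ^ i (j + 1))) ≤
      ∏ j ∈ inr 11, (dn u j : ℝ) :=
    Finset.prod_le_prod (fun j _ => by positivity) (fun j _ => qn1_dnlow hq hs hi j)
  have h2 : (bad u : ℝ) = ∏ j ∈ inr 11, (dn u j : ℝ) := by
    unfold bad
    push_cast
    rfl
  rw [h2]
  refine le_trans (le_of_eq ?_) h1
  rw [qn1_inr]
  rw [Finset.prod_insert (by decide), Finset.prod_insert (by decide),
    Finset.prod_insert (by decide), Finset.prod_insert (by decide),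
    Finset.prod_insert (by decide), Finset.prod_insert (by decide),
    Finset.prod_insert (by decide), Finset.prod_insert (by decide), Finset.prod_singleton]
  have e0 : (0 : Fin 11) + 1 = 1 := rfl
  have e2 : (2 : Fin 11) + 1 = 3 := rfl
  have e3 : (3 : Fin 11) + 1 = 4 := rfl
  have e4 : (4 : Fin 11) + 1 = 5 := rfl
  have e5 : (5 : Fin 11) + 1 = 6 := rfl
  have e6 : (6 : Fin 11) + 1 = 7 := rfl
  have e7 : (7 : Fin 11) + 1 = 8 := rfl
  have e8 : (8 : Fin 11) + 1 = 9 := rfl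
  have e9 : (9 : Fin 11) + 1 = 10 := rfl
  rw [e0, e2, e3, e4, e5, e6, e7, e8, e9]
  ring

theorem qn1_Bprod (i : Fin 11 → ℕ) : ∏ j, qn1_B i j ≤ 25 ^ 8 *
    ((2 : ℝ) ^ i 0 * 2 ^ i 1 * 2 ^ i 2 * 2 ^ i 10 *
      ((2 ^ i 3) ^ 2 * (2 ^ i 4) ^ 2 * (2 ^ i 5) ^ 2 * (2 ^ i 6) ^ 2 * (2 ^ i 7) ^ 2 *
        (2 ^ i 8) ^ 2 * (2 ^ i 9) ^ 2)) := by
  have h0 : qn1_B i 0 = 1 := by unfold qn1_B; rw [if_pos (by decide)]
  have h1 : qn1_B i 1 = 1 := by unfold qn1_B; rw [if_pos (by decide)]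
  have h2 : qn1_B i 2 = 5 * 2 ^ i 2 := by
    unfold qn1_B; rw [if_neg (by decide), if_pos (by decide)]
  have h10 : qn1_B i 10 = 5 * 2 ^ i 10 := by
    unfold qn1_B; rw [if_neg (by decide), if_pos (by decide)]
  have h : ∀ j : Fin 11, ¬ (j = 0 ∨ j = 1) → ¬ (j = 2 ∨ j = 10) →
      qn1_B i j = 25 * (2 ^ i j) ^ 2 := by
    intro j a b
    unfold qn1_B
    rw [if_neg a, if_neg b]
  have hu : (univ : Finset (Fin 11)) = {0, 1, 2, 3, 4, 5, 6, 7, 8, 9, 10} := by decide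
  rw [hu]
  rw [Finset.prod_insert (by decide), Finset.prod_insert (by decide),
    Finset.prod_insert (by decide), Finset.prod_insert (by decide),
    Finset.prod_insert (by decide), Finset.prod_insert (by decide),
    Finset.prod_insert (by decide), Finset.prod_insert (by decide),
    Finset.prod_insert (by decide), Finset.prod_insert (by decide), Finset.prod_singleton]
  rw [h0, h1, h2, h10, h 3 (by decide) (by decide), h 4 (by decide) (by decide),
    h 5 (by decide) (by decide), h 6 (by decide) (by decide), h 7 (by decide) (by decide),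
    h 8 (by decide) (by decide), h 9 (by decide) (by decide)]
  have k : ∀ n : ℕ, (1 : ℝ) ≤ 2 ^ n := fun n => one_le_pow₀ (by norm_num)
  set M : ℝ := (2 : ℝ) ^ i 2 * 2 ^ i 10 *
      ((2 ^ i 3) ^ 2 * (2 ^ i 4) ^ 2 * (2 ^ i 5) ^ 2 * (2 ^ i 6) ^ 2 * (2 ^ i 7) ^ 2 *
        (2 ^ i 8) ^ 2 * (2 ^ i 9) ^ 2) with hM
  have hM0 : 0 < M := by positivity
  have k1 : 1 ≤ (2 : ℝ) ^ i 0 * 2 ^ i 1 := one_le_mul_of_one_le_of_one_le (k _) (k _)
  calc _ = 25 ^ 8 * (1 * M) := by rw [hM]; ring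
    _ ≤ 25 ^ 8 * (((2 : ℝ) ^ i 0 * 2 ^ i 1) * M) := by
        apply mul_le_mul_of_nonneg_left _ (by positivity)
        exact mul_le_mul_of_nonneg_right k1 hM0.le
    _ = _ := by rw [hM]; ring

theorem qn1_Bpos (i : Fin 11 → ℕ) (j : Fin 11) : 0 < qn1_B i j := by
  unfold qn1_B
  split_ifs <;> positivity

/-- the list of the pairs -/
def qn1_P : Finset (Fin 11 × Fin 11) :=
  {(3, 2), (3, 4), (4, 5), (5, 6), (6, 7), (7, 8), (8, 9), (9, 10)}

theorem qn1_Pfin' : ∀ t ∈ qn1_P, t.1 ≠ 0 ∧ t.1 ≠ 1 ∧ t.1 ≠ 2 ∧ t.1 ≠ 10 ∧ t.2 ≠ t.1 := by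
  intro t ht
  unfold qn1_P at ht
  simp only [mem_insert, mem_singleton] at ht
  rcases ht with rfl | rfl | rfl | rfl | rfl | rfl | rfl | rfl <;>
    exact ⟨by decide, by decide, by decide, by decide, by decide⟩

theorem qn1_Pfin (t : Fin 11 × Fin 11) (ht : t ∈ qn1_P) : t.1 ≠ 0 ∧ t.1 ≠ 1 ∧ t.1 ≠ 2 ∧
    t.1 ≠ 10 ∧ t.2 ≠ t.1 ∧ fx 0 t.1 = none := by
  obtain ⟨a1, a2, a3, a4, a5⟩ := qn1_Pfin' t ht
  refine ⟨a1, a2, a3, a4, a5, ?_⟩
  unfold fx
  rw [if_neg a1, if_neg (by rw [zero_add]; exact a2)]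

theorem qn1_cov {v : PolyK 11} (h0 : v 0 = (0, 1)) (h1 : v 1 = (1, 0)) {p : ℕ} (hp : p.Prime)
    (h : p ∣ bad v) : ∃ t ∈ qn1_P, (p : ℤ) ∣ dt (v t.1) (v t.2) := by
  unfold bad at h
  obtain ⟨k, hk, hd⟩ := (Prime.dvd_finsetProd_iff hp.prime _).1 h
  have hk0 : k ≠ 0 := by
    rintro rfl
    have e : dn v 0 = 1 := by
      unfold dn dl dt
      have e1 : (0 : Fin 11) + 1 = 1 := rfl
      rw [e1, h0, h1]
      rfl
    rw [e] at hd
    exact hp.one_lt.ne' (Nat.dvd_one.1 hd)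
  have hd' : (p : ℤ) ∣ dt (v k) (v (k + 1)) := Int.natCast_dvd.2 hd
  have hneg : (p : ℤ) ∣ dt (v (k + 1)) (v k) := by
    have e : dt (v (k + 1)) (v k) = -dt (v k) (v (k + 1)) := by unfold dt; ring
    rw [e]
    exact (dvd_neg).2 hd'
  by_cases h2 : k = 2
  · refine ⟨(3, 2), by decide, ?_⟩
    rw [h2] at hneg
    exact hneg
  · refine ⟨(k, k + 1), ?_, hd'⟩
    have hfin : ∀ k : Fin 11, k ∈ inr 11 → k ≠ 0 → k ≠ 2 → (k, k + 1) ∈ qn1_P := by
      rw [qn1_inr]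
      decide
    exact hfin k hk hk0 h2

theorem cellN_11_pr (q : Par 11) (hq : q.Ok) {κ : ℝ} (hκ : 0 < κ) (hκ1 : κ ≤ 1 / 10) :
    ∃ C x₀ : ℝ, 0 ≤ C ∧ 2 ≤ x₀ ∧ ∀ x ≥ x₀, ∀ P0 p : ℕ, p.Prime →
    ∀ (i' : Fin 11 → ℕ) (δ1' δ2' : ℤ) (A : Finset (PolyK 11)),
    (∀ v ∈ A, IsPath q κ 0 x P0 v ∧ Siz i' v ∧ dl v 1 = δ1' ∧ dl v 10 = δ2' ∧ p ∣ bad v) →
    ∑ v ∈ A, 1 / (bad v : ℝ) ≤ C * (1 / p + x ^ (-(4 * κ))) := by
  classical
  have hc := hq.c30
  refine ⟨32 * 25 ^ 8 / q.c3 ^ 9, 2, by positivity, le_rfl, ?_⟩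
  intro x hx P0 p hp i δ1 δ2 A hA
  have hx0 : 0 < x := by linarith
  have hp0 : (0 : ℝ) < p := by exact_mod_cast hp.pos
  have hE0 : 0 < 1 / (p : ℝ) + x ^ (-(4 * κ)) := by positivity
  set M : ℝ := (2 : ℝ) ^ i 0 * 2 ^ i 1 * 2 ^ i 2 * 2 ^ i 10 *
      ((2 ^ i 3) ^ 2 * (2 ^ i 4) ^ 2 * (2 ^ i 5) ^ 2 * (2 ^ i 6) ^ 2 * (2 ^ i 7) ^ 2 *
        (2 ^ i 8) ^ 2 * (2 ^ i 9) ^ 2) with hM
  have hM0 : 0 < M := by positivity
  -- the number of elements
  have hcov : A ⊆ qn1_P.biUnion (fun t => A.filter (fun v => (p : ℤ) ∣ dt (v t.1) (v t.2))) := by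
    intro v hv
    obtain ⟨a1, _, _, _, a5⟩ := hA v hv
    obtain ⟨t, ht, hd⟩ := qn1_cov (a1.fix 0 (0, 1) (by decide)) (a1.fix 1 (1, 0) (by decide)) hp a5
    rw [mem_biUnion]
    exact ⟨t, ht, mem_filter.2 ⟨hv, hd⟩⟩
  have hone : ∀ t ∈ qn1_P, ((A.filter (fun v => (p : ℤ) ∣ dt (v t.1) (v t.2))).card : ℝ) ≤
      4 * (25 ^ 8 * M) * (1 / p + x ^ (-(4 * κ))) := by
    intro t ht
    obtain ⟨t0, t1, t2, t10, t3, t4⟩ := qn1_Pfin t ht
    rcases (A.filter (fun v => (p : ℤ) ∣ dt (v t.1) (v t.2))).eq_empty_or_nonempty with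
      he | ⟨v0, hv0⟩
    · rw [he, card_empty]
      push_cast
      positivity
    have h1 := qn1_pair hp (A.filter (fun v => (p : ℤ) ∣ dt (v t.1) (v t.2)))
      (fun v hv => by
        obtain ⟨a1, a2, a3, a4, _⟩ := hA v (mem_filter.1 hv).1
        exact ⟨a1, a2, a3, a4⟩) t.1 t.2 t0 t1 t2 t10 t3 (fun v hv => (mem_filter.1 hv).2)
    refine h1.trans ?_
    obtain ⟨a1, a2, _⟩ := hA v0 (mem_filter.1 hv0).1
    have b1 := a1.lo t.1 t4
    have b2 := (a2 t.1).2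
    have b3 : x ^ (4 * κ) ≤ 2 * 2 ^ i t.1 := by
      have b4 : (nr (v0 t.1) : ℝ) ≤ ((2 ^ (i t.1 + 1) : ℕ) : ℝ) := by exact_mod_cast b2.le
      rw [pow_succ] at b4
      push_cast at b4
      linarith
    have hBl : qn1_B i t.1 = 25 * (2 ^ i t.1) ^ 2 := by
      unfold qn1_B
      rw [if_neg (by tauto), if_neg (by tauto)]
    set R : ℝ := (2 : ℝ) ^ i t.1 with hR
    have hR0 : 0 < R := by positivity
    have hxk : 0 < x ^ (4 * κ) := by positivity
    have hinv : x ^ (-(4 * κ)) = 1 / x ^ (4 * κ) := by rw [Real.rpow_neg hx0.le, one_div]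
    have b5 : R ≤ 2 * R ^ 2 * x ^ (-(4 * κ)) := by
      rw [hinv, mul_one_div, le_div_iff₀ hxk]
      nlinarith
    have b6 : 9 * ((2 : ℝ) ^ (i t.1 + 1)) * ((2 : ℝ) ^ (i t.1 + 1) / p + 1) ≤
        qn1_B i t.1 * (4 * (1 / p + x ^ (-(4 * κ)))) := by
      rw [hBl, pow_succ, ← hR]
      have e1 : 9 * (R * 2) * (R * 2 / p + 1) = 36 * (R ^ 2 * (1 / p)) + 18 * R := by ring
      have e2 : 25 * R ^ 2 * (4 * (1 / p + x ^ (-(4 * κ)))) =
          100 * (R ^ 2 * (1 / p)) + 100 * (R ^ 2 * x ^ (-(4 * κ))) := by ring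
      rw [e1, e2]
      have e3 : 0 ≤ R ^ 2 * (1 / (p : ℝ)) := by positivity
      have e4 : 0 ≤ R ^ 2 * x ^ (-(4 * κ)) := by positivity
      nlinarith
    have hP0 : 0 ≤ ∏ j ∈ univ.erase t.1, qn1_B i j :=
      Finset.prod_nonneg fun j _ => (qn1_Bpos i j).le
    calc (∏ j ∈ univ.erase t.1, qn1_B i j) *
          (9 * ((2 : ℝ) ^ (i t.1 + 1)) * ((2 : ℝ) ^ (i t.1 + 1) / p + 1))
        ≤ (∏ j ∈ univ.erase t.1, qn1_B i j) *
          (qn1_B i t.1 * (4 * (1 / p + x ^ (-(4 * κ))))) := mul_le_mul_of_nonneg_left b6 hP0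
      _ = (qn1_B i t.1 * ∏ j ∈ univ.erase t.1, qn1_B i j) * (4 * (1 / p + x ^ (-(4 * κ)))) := by
          ring
      _ = (∏ j, qn1_B i j) * (4 * (1 / p + x ^ (-(4 * κ)))) := by
          rw [Finset.mul_prod_erase univ _ (mem_univ _)]
      _ ≤ (25 ^ 8 * M) * (4 * (1 / p + x ^ (-(4 * κ)))) :=
          mul_le_mul_of_nonneg_right (qn1_Bprod i) (by positivity)
      _ = _ := by ring
  have hcard : (A.card : ℝ) ≤ 8 * (4 * (25 ^ 8 * M) * (1 / p + x ^ (-(4 * κ)))) := by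
    have h1 : (A.card : ℝ) ≤ ((qn1_P.biUnion
        (fun t => A.filter (fun v => (p : ℤ) ∣ dt (v t.1) (v t.2)))).card : ℝ) := by
      exact_mod_cast Finset.card_le_card hcov
    have h2 : ((qn1_P.biUnion
        (fun t => A.filter (fun v => (p : ℤ) ∣ dt (v t.1) (v t.2)))).card : ℝ) ≤
        ∑ t ∈ qn1_P, ((A.filter (fun v => (p : ℤ) ∣ dt (v t.1) (v t.2))).card : ℝ) := by
      exact_mod_cast Finset.card_biUnion_le
    refine h1.trans (h2.trans ((Finset.sum_le_sum hone).trans ?_))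
    rw [Finset.sum_const, nsmul_eq_mul]
    have : (qn1_P.card : ℝ) = 8 := by
      have : qn1_P.card = 8 := by decide
      rw [this]
      norm_num
    rw [this]
  have hterm : ∀ v ∈ A, 1 / (bad v : ℝ) ≤ 1 / (q.c3 ^ 9 * M) := by
    intro v hv
    obtain ⟨a1, a2, _⟩ := hA v hv
    apply one_div_le_one_div_of_le (by positivity)
    exact qn1_badlow hq a1.sep a2
  calc ∑ v ∈ A, 1 / (bad v : ℝ) ≤ ∑ v ∈ A, 1 / (q.c3 ^ 9 * M) := Finset.sum_le_sum hterm
    _ = (A.card : ℝ) * (1 / (q.c3 ^ 9 * M)) := by rw [Finset.sum_const, nsmul_eq_mul]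
    _ ≤ (8 * (4 * (25 ^ 8 * M) * (1 / p + x ^ (-(4 * κ))))) * (1 / (q.c3 ^ 9 * M)) :=
        mul_le_mul_of_nonneg_right hcard (by positivity)
    _ = 32 * 25 ^ 8 / q.c3 ^ 9 * (1 / p + x ^ (-(4 * κ))) := by
        field_simp
        ring

end Pool.Agent.PENK

namespace Pool.Agent.PENK

theorem cellN_11 : type_of% @cellN_11_pr := @cellN_11_pr

end Pool.Agent.PENK
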