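import Pool.Agent.Lib_helper18.PENKF.DefsQ
import Pool.Agent.Lib_helper18.PENKF.QN1
import Pool.Agent.Lib_helper18.PENKF.QF5
import Pool.Agent.Lib_helper18.PENKF.QF6
import Pool.Agent.Lib_helper18.PENKF.QH1
import Pool.Agent.Lib_helper18.PENKF.QH3
import Pool.Agent.Lib_helper18.PENKF.PA6
import Pool.Agent.Lib_helper18.PENKF.PG5
import Pool.Agent.Lib_helper18.PENKF.PR2

/-! PENK block QN2 (helper41): pairs of paths with a common prime on different lines, base `P`;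
port of QH9 (helper73) -/

set_option autoImplicit false

namespace Pool.Agent.PENK

open Finset Pool.Agent.PENT

theorem qn2_dl (q : Par 11) (hq : q.Ok) {x : ℝ} {P0 : ℕ} {u : PolyK 11} (h : IsPoly q x P0 u)
    (j : Fin 11) : dl u j = q.σ j (j + 1) * (dn u j : ℤ) := by
  have hj : j ≠ j + 1 := by fin_cases j <;> decide
  have h1 := h.sg j (j + 1) hj
  unfold dn dl
  rcases hq.hσ j (j + 1) with h2 | h2
  · rw [h2] at h1 ⊢
    rw [one_mul] at h1 ⊢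
    rw [Int.natCast_natAbs, abs_of_pos h1]
  · rw [h2] at h1 ⊢
    rw [Int.natCast_natAbs, abs_of_neg (by linarith)]
    ring

theorem qn2_abs (q : Par 11) (hq : q.Ok) (i j : Fin 11) (a : ℕ) :
    (q.σ i j * (a : ℤ)).natAbs = a := by
  rcases hq.hσ i j with h2 | h2 <;> rw [h2] <;> simp

theorem qn2_mem (q : Par 11) (hq : q.Ok) : ∃ x₀ : ℝ, 2 ≤ x₀ ∧ ∀ x ≥ x₀, ∀ P0 : ℕ,
    ∀ u : PolyK 11, IsPoly q x P0 u → One4 u → ∀ j, dn u j ∈ DP0 P0 ⌊x⌋₊ := by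
  classical
  obtain ⟨x₀, hx₀, H⟩ := DD_le (K := 11) hq
  refine ⟨max 2 x₀, le_max_left _ _, fun x hx P0 u hu h4 j => ?_⟩
  have hx1 : x₀ ≤ x := le_trans (le_max_right _ _) hx
  have hx2 : (2 : ℝ) ≤ x := le_trans (le_max_left _ _) hx
  obtain ⟨h1, h2⟩ := H x hx1 P0 u hu
  have hdv : dn u j ∣ DD u := Finset.dvd_prod_of_mem _ (Finset.mem_univ j)
  have hpos : 0 < dn u j := Nat.pos_of_dvd_of_pos hdv h1
  have hle : dn u j ≤ DD u := Nat.le_of_dvd h1 hdv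
  have hle2 : (dn u j : ℝ) ≤ x := by
    have h3 : (dn u j : ℝ) ≤ DD u := by exact_mod_cast hle
    have h4 : x ^ (q.δ / 20) ≤ x ^ (1 : ℝ) := by
      apply Real.rpow_le_rpow_of_exponent_le (by linarith)
      have := hq.δ1
      linarith
    rw [Real.rpow_one] at h4
    linarith
  unfold DP0
  rw [Finset.mem_filter, Finset.mem_Icc]
  refine ⟨⟨hpos, Nat.le_floor hle2⟩, hu.sq j, fun p hp hpd => ⟨hu.ro j p hp hpd, h4 p hp (hpd.trans hdv)⟩⟩

theorem qn2_siz {q : Par 11} {x : ℝ} (hx : 0 < x) {P0 : ℕ} {u : PolyK 11}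
    (h : IsPoly q x P0 u) : Siz (fun j => Nat.log 2 (nr (u j))) u := by
  intro j
  have h1 : nr (u j) ≠ 0 := by
    intro h0
    have h2 := h.lo j
    rw [h0] at h2
    have h3 : 0 < x ^ q.e j := Real.rpow_pos_of_pos hx _
    simp at h2
    linarith
  exact ⟨Nat.pow_log_le_self 2 h1, Nat.lt_pow_succ_log_self (by norm_num) _⟩

theorem qn2_wsp_nn (P : ℕ) {both one : ℝ} (hb : 0 ≤ both) (ho : 0 ≤ one) (d d' : ℕ) :
    0 ≤ wsp P both one d d' := by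
  unfold wsp
  apply Finset.prod_nonneg
  intro p _
  have h1 : 0 ≤ lw P p both := by
    unfold lw
    split_ifs
    · exact hb
    · norm_num
  have h2 : 0 ≤ lw P p one := by
    unfold lw
    split_ifs
    · exact ho
    · norm_num
  split_ifs <;> positivity

theorem qn2_par {a b : ℝ} (ha : 0 ≤ a) (ha1 : a ≤ 1 / 2) (hb : 0 < b)
    (hb1 : b ≤ 1) : 0 ≤ a ^ 2 / (b + a) ∧ a ^ 2 / (b + a) ≤ 1 ∧ 0 ≤ a * b / (b + a) ∧
      a * b / (b + a) ≤ 1 := by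
  have hs : 0 < b + a := by linarith
  refine ⟨by positivity, ?_, by positivity, ?_⟩
  · rw [div_le_one hs]
    nlinarith
  · rw [div_le_one hs]
    nlinarith

theorem qn2_prod_le (S : Finset ℕ) (f : ℕ → ℝ) (hf : ∀ p ∈ S, 0 ≤ 1 + f p) :
    ∏ p ∈ S, (1 + f p) ≤ Real.exp (∑ p ∈ S, f p) := by
  rw [Real.exp_sum]
  apply Finset.prod_le_prod hf
  intro p _
  have := Real.add_one_le_exp (f p)
  linarith

/-- the product over a special edge is at most a power of `log x` -/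
theorem qn2_G : ∃ C : ℝ, 0 ≤ C ∧ ∀ x : ℝ, 2 ≤ x → 1 ≤ Real.log x → ∀ P0 P : ℕ, (P : ℝ) ≤ x →
    ∀ σ : ℝ, 0 ≤ σ → σ ≤ 6 →
    ∏ p ∈ (prs P0 P).filter (fun p => p % 4 = 1), (1 + σ / (p : ℝ)) ≤ C * Real.log x ^ 6 := by
  obtain ⟨C, hC⟩ := Pool.Agent.LEV.mertens_two
  refine ⟨Real.exp (6 * |C|), (Real.exp_pos _).le, ?_⟩
  intro x hx hL P0 P hP σ hσ hσ6
  have h1 := qn2_prod_le ((prs P0 P).filter (fun p => p % 4 = 1)) (fun p => σ / (p : ℝ))
    (fun p _ => by positivity)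
  refine h1.trans ?_
  have hsum : ∑ p ∈ (prs P0 P).filter (fun p => p % 4 = 1), σ / (p : ℝ) ≤
      6 * ∑ p ∈ (Finset.Icc 1 ⌊x⌋₊).filter Nat.Prime, 1 / (p : ℝ) := by
    rw [Finset.mul_sum]
    calc ∑ p ∈ (prs P0 P).filter (fun p => p % 4 = 1), σ / (p : ℝ) ≤
        ∑ p ∈ (prs P0 P).filter (fun p => p % 4 = 1), 6 * (1 / (p : ℝ)) := by
          apply Finset.sum_le_sum
          intro p _
          rw [mul_one_div]
          exact div_le_div_of_nonneg_right hσ6 (Nat.cast_nonneg p)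
      _ ≤ _ := by
          apply Finset.sum_le_sum_of_subset_of_nonneg
          · intro p hp
            rw [Finset.mem_filter] at hp
            have hp1 := hp.1
            unfold prs at hp1
            rw [Finset.mem_filter, Finset.mem_Ioc] at hp1
            rw [Finset.mem_filter, Finset.mem_Icc]
            refine ⟨⟨hp1.2.pos, ?_⟩, hp1.2⟩
            apply Nat.le_floor
            have : (p : ℝ) ≤ P := by exact_mod_cast hp1.1.2
            linarith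
          · intro p _ _
            positivity
  have hm := (abs_le.1 (hC x hx)).2
  have hCC : C ≤ |C| := le_abs_self C
  have h2 : ∑ p ∈ (prs P0 P).filter (fun p => p % 4 = 1), σ / (p : ℝ) ≤
      6 * |C| + 6 * Real.log (Real.log x) := by linarith
  refine (Real.exp_le_exp.2 h2).trans (le_of_eq ?_)
  rw [Real.exp_add]
  congr 1
  have hL0 : 0 < Real.log x := by linarith
  rw [show (6 : ℝ) * Real.log (Real.log x) = ((6 : ℕ) : ℝ) * Real.log (Real.log x) by norm_num,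
    Real.exp_nat_mul, Real.exp_log hL0]

theorem qn2_m1 : (-1 : Fin 11) = 10 := by decide

theorem qn2_dnlow {q : Par 11} (hq : q.Ok) {u : PolyK 11} (hs : Sep q u) {i : Fin 11 → ℕ}
    (hi : Siz i u) (j : Fin 11) : q.c3 * (2 ^ i j * 2 ^ i (j + 1)) ≤ (dn u j : ℝ) := by
  have hj : j ≠ j + 1 := by fin_cases j <;> decide
  have h1 := hs j (j + 1) hj
  have h2 : (dn u j : ℝ) = |(dt (u j) (u (j + 1)) : ℝ)| := by
    unfold dn dl
    rw [Nat.cast_natAbs]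
    push_cast
    rfl
  rw [h2]
  refine le_trans ?_ h1
  have h3 : (2 : ℝ) ^ i j ≤ (nr (u j) : ℝ) := by exact_mod_cast (hi j).1
  have h4 : (2 : ℝ) ^ i (j + 1) ≤ (nr (u (j + 1)) : ℝ) := by exact_mod_cast (hi (j + 1)).1
  have h5 := hq.c30
  calc q.c3 * (2 ^ i j * 2 ^ i (j + 1)) ≤ q.c3 * ((nr (u j) : ℝ) * nr (u (j + 1))) := by
        apply mul_le_mul_of_nonneg_left _ h5.le
        exact mul_le_mul h3 h4 (by positivity) (by positivity)
    _ = q.c3 * nr (u j) * nr (u (j + 1)) := by ring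

theorem qn2_inr : inr 11 = {0, 2, 3, 4, 5, 6, 7, 8, 9} := by
  unfold inr
  decide

theorem qn2_badlow {q : Par 11} (hq : q.Ok) {u : PolyK 11} (hs : Sep q u) {i : Fin 11 → ℕ}
    (hi : Siz i u) : q.c3 ^ 9 * ((2 : ℝ) ^ i 0 * 2 ^ i 1 * 2 ^ i 2 * 2 ^ i 10 *
      ∏ j : Fin 7, (2 ^ i (sv j)) ^ 2) ≤ (bad u : ℝ) := by
  have hc := hq.c30
  have h1 : ∏ j ∈ inr 11, (q.c3 * ((2 : ℝ) ^ i j * 2 ^ i (j + 1))) ≤
      ∏ j ∈ inr 11, (dn u j : ℝ) :=
    Finset.prod_le_prod (fun j _ => by positivity) (fun j _ => qn2_dnlow hq hs hi j)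
  have h2 : (bad u : ℝ) = ∏ j ∈ inr 11, (dn u j : ℝ) := by
    unfold bad
    push_cast
    rfl
  rw [h2]
  refine le_trans (le_of_eq ?_) h1
  rw [qn2_inr]
  rw [Finset.prod_insert (by decide), Finset.prod_insert (by decide),
    Finset.prod_insert (by decide), Finset.prod_insert (by decide),
    Finset.prod_insert (by decide), Finset.prod_insert (by decide),
    Finset.prod_insert (by decide), Finset.prod_insert (by decide), Finset.prod_singleton,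
    Fin.prod_univ_seven]
  have s0 : sv 0 = 3 := rfl
  have s1 : sv 1 = 4 := rfl
  have s2 : sv 2 = 5 := rfl
  have s3 : sv 3 = 6 := rfl
  have s4 : sv 4 = 7 := rfl
  have s5 : sv 5 = 8 := rfl
  have s6 : sv 6 = 9 := rfl
  have e0 : (0 : Fin 11) + 1 = 1 := rfl
  have e2 : (2 : Fin 11) + 1 = 3 := rfl
  have e3 : (3 : Fin 11) + 1 = 4 := rfl
  have e4 : (4 : Fin 11) + 1 = 5 := rfl
  have e5 : (5 : Fin 11) + 1 = 6 := rfl
  have e6 : (6 : Fin 11) + 1 = 7 := rfl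
  have e7 : (7 : Fin 11) + 1 = 8 := rfl
  have e8 : (8 : Fin 11) + 1 = 9 := rfl
  have e9 : (9 : Fin 11) + 1 = 10 := rfl
  rw [s0, s1, s2, s3, s4, s5, s6, e0, e2, e3, e4, e5, e6, e7, e8, e9]
  ring

theorem qn2_fix {q : Par 11} {κ : ℝ} {m : Fin 11} {x : ℝ} {P0 : ℕ} {u : PolyK 11}
    (hu : IsPath q κ m x P0 u) {i : Fin 11 → ℕ} (hi : Siz i u) :
    ∀ j c, fx m j = some c → i j = 0 := by
  intro j c hj
  have h1 := hu.fix j c hj
  have h2 := (hi j).1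
  rw [h1] at h2
  have h3 : nr c = 1 := by
    unfold fx at hj
    split_ifs at hj with a b
    · rw [← Option.some.inj hj]; rfl
    · rw [← Option.some.inj hj]; rfl
  rw [h3] at h2
  by_contra h0
  have h4 : 2 ^ 1 ≤ 2 ^ i j := Nat.pow_le_pow_right (by norm_num) (by omega)
  omega

/-- the sum of `1 / bad` in one cell -/
theorem qn2_cell {q : Par 11} (hq : q.Ok) {κ : ℝ} {m : Fin 11} {x : ℝ} {P0 : ℕ}
    {i : Fin 11 → ℕ} {δ1 δ2 : ℤ} (U : Finset (PolyK 11))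
    (hU : ∀ u ∈ U, IsPath q κ m x P0 u ∧ Siz i u ∧ dl u 1 = δ1 ∧ dl u 10 = δ2) :
    ∑ u ∈ U, 1 / (bad u : ℝ) ≤ 10 ^ 20 / q.c3 ^ 9 := by
  classical
  have hc := hq.c30
  rcases U.eq_empty_or_nonempty with hUe | ⟨u0, hu0⟩
  · rw [hUe, Finset.sum_empty]
    positivity
  have hfix := qn2_fix (hU u0 hu0).1 (hU u0 hu0).2.1
  set M : ℝ := (2 : ℝ) ^ i 0 * 2 ^ i 1 * 2 ^ i 2 * 2 ^ i 10 *
    ∏ j : Fin 7, (2 ^ i (sv j)) ^ 2 with hM
  have hM0 : 0 < M := by positivity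
  have hcard : (U.card : ℝ) ≤ 10 ^ 20 * M := by
    have h1 : U ⊆ (O11 m i).image (pol11 m i δ1 δ2) := by
      intro u hu
      obtain ⟨h1, h3, h4, h5⟩ := hU u hu
      obtain ⟨o, ho, hou⟩ := path_mem h1 h3
      rw [h4, h5] at hou
      rw [Finset.mem_image]
      exact ⟨o, ho, hou⟩
    have h2 : U.card ≤ (O11 m i).card := le_trans (Finset.card_le_card h1) Finset.card_image_le
    have h3 : (U.card : ℝ) ≤ ((O11 m i).card : ℝ) := by exact_mod_cast h2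
    exact le_trans h3 (O11_card m i hfix)
  have hterm : ∀ u ∈ U, 1 / (bad u : ℝ) ≤ 1 / (q.c3 ^ 9 * M) := by
    intro u hu
    obtain ⟨h2, h3, _, _⟩ := hU u hu
    apply one_div_le_one_div_of_le (by positivity)
    exact qn2_badlow hq h2.sep h3
  calc ∑ u ∈ U, 1 / (bad u : ℝ) ≤ ∑ u ∈ U, 1 / (q.c3 ^ 9 * M) := Finset.sum_le_sum hterm
    _ = (U.card : ℝ) * (1 / (q.c3 ^ 9 * M)) := by rw [Finset.sum_const, nsmul_eq_mul]
    _ ≤ (10 ^ 20 * M) * (1 / (q.c3 ^ 9 * M)) :=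
        mul_le_mul_of_nonneg_right hcard (by positivity)
    _ = 10 ^ 20 / q.c3 ^ 9 := by field_simp

theorem qn2_gc (n : ℕ) (hn : n ≠ 0) : ∏ p ∈ n.primeFactors, ((p : ℝ) / 2) ≤ n := by
  have h1 : ∏ p ∈ n.primeFactors, ((p : ℝ) / 2) ≤ ∏ p ∈ n.primeFactors, (p : ℝ) := by
    apply Finset.prod_le_prod
    · intro p _; positivity
    · intro p _
      have : (0 : ℝ) ≤ p := Nat.cast_nonneg p
      linarith
  have h2 : ∏ p ∈ n.primeFactors, p ≤ n :=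
    Nat.le_of_dvd (Nat.pos_of_ne_zero hn) (Nat.prod_primeFactors_dvd n)
  have h3 : ((∏ p ∈ n.primeFactors, p : ℕ) : ℝ) ≤ n := by exact_mod_cast h2
  push_cast at h3
  linarith

theorem qn2_ThB (W : Wts 11) (P : ℕ) (u v : PolyK 11) : ThB W P u v =
    (∏ p ∈ (Gc u v).primeFactors, (p : ℝ) / 2) * (wi W P u * wi W P v) *
      wsp2 W P (dn u 1) (dn v 1) (dn u 10) (dn v 10) := by
  unfold ThB wsp2
  rw [← qn2_m1]

open Filter in
theorem qn2_ev {κ : ℝ} (hκ : 0 < κ) : ∃ x₀ : ℝ, 2 ≤ x₀ ∧ ∀ x ≥ x₀,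
    x ^ (-(4 * κ)) ≤ Real.log x ^ (-200 : ℝ) ∧ 1 ≤ Real.log x := by
  have h4 : 0 < 4 * κ := by positivity
  have hlo := (isLittleO_log_rpow_rpow_atTop (200 : ℝ) h4).bound (show (0 : ℝ) < 1 by norm_num)
  have hl := Real.tendsto_log_atTop.eventually_ge_atTop 1
  obtain ⟨X, hX⟩ := eventually_atTop.1 (hlo.and hl)
  refine ⟨max X 2, le_max_right _ _, fun x hx => ?_⟩
  have hx1 : X ≤ x := (le_max_left _ _).trans hx
  have hx2 : 2 ≤ x := (le_max_right _ _).trans hx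
  obtain ⟨a1, a2⟩ := hX x hx1
  have hx0 : 0 < x := by linarith
  have hL : 0 < Real.log x := by linarith
  refine ⟨?_, a2⟩
  rw [one_mul, Real.norm_eq_abs, Real.norm_eq_abs, abs_of_nonneg (Real.rpow_nonneg hL.le _),
    abs_of_nonneg (Real.rpow_nonneg hx0.le _)] at a1
  rw [Real.rpow_neg hx0.le, Real.rpow_neg hL.le]
  exact inv_anti₀ (Real.rpow_pos_of_pos hL _) a1

/-- the number of prime factors -/
theorem qn2_omega {n : ℕ} (hn : 0 < n) : (n.primeFactors.card : ℝ) ≤ 2 * Real.log n := by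
  have h1 : 2 ^ n.primeFactors.card ≤ n := by
    calc 2 ^ n.primeFactors.card = ∏ _p ∈ n.primeFactors, 2 := by rw [Finset.prod_const]
      _ ≤ ∏ p ∈ n.primeFactors, p :=
          Finset.prod_le_prod' fun p hp => (Nat.prime_of_mem_primeFactors hp).two_le
      _ ≤ n := Nat.le_of_dvd hn (Nat.prod_primeFactors_dvd n)
  have h2 : ((2 ^ n.primeFactors.card : ℕ) : ℝ) ≤ n := by exact_mod_cast h1
  push_cast at h2
  have h3 := Real.log_le_log (by positivity) h2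
  rw [Real.log_pow] at h3
  have h4 := Real.log_two_gt_d9
  have h5 : (0 : ℝ) ≤ n.primeFactors.card := Nat.cast_nonneg _
  nlinarith

theorem qn2_biU {α β : Type} [DecidableEq β] (s : Finset α) (t : α → Finset β) (f : β → ℝ)
    (hf : ∀ b, 0 ≤ f b) : ∑ b ∈ s.biUnion t, f b ≤ ∑ a ∈ s, ∑ b ∈ t a, f b := by
  classical
  induction s using Finset.induction_on with
  | empty => simp
  | insert a s ha ih =>
    rw [Finset.biUnion_insert, Finset.sum_insert ha]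
    have h1 := Finset.sum_union_inter (s₁ := t a) (s₂ := s.biUnion t) (f := f)
    have h2 : 0 ≤ ∑ b ∈ t a ∩ s.biUnion t, f b := Finset.sum_nonneg fun b _ => hf b
    linarith

/-- a prime of `DD u` divides `bad v` -/
theorem qn2_cellN (q : Par 11) (hq : q.Ok) {κ : ℝ} (hκ : 0 < κ) (hκ1 : κ ≤ 1 / 10) :
    ∃ x₀ : ℝ, 2 ≤ x₀ ∧ ∀ x ≥ x₀, ∀ P0 : ℕ, Real.log x ^ 200 ≤ P0 →
    ∀ u : PolyK 11, IsPath q κ 0 x P0 u →
    ∀ (i' : Fin 11 → ℕ) (δ1' δ2' : ℤ) (A : Finset (PolyK 11)),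
    (∀ v ∈ A, IsPath q κ 0 x P0 v ∧ Siz i' v ∧ dl v 1 = δ1' ∧ dl v 10 = δ2' ∧
      1 < Nat.gcd (DD u) (bad v)) →
    ∑ v ∈ A, 1 / (bad v : ℝ) ≤ Real.log x ^ (-198 : ℝ) := by
  classical
  obtain ⟨C, x1, hC, hx1, H1⟩ := cellN_11 q hq hκ hκ1
  obtain ⟨x2, hx2, H2⟩ := DD_le (K := 11) hq
  obtain ⟨x3, hx3, H3⟩ := qn2_ev hκ
  refine ⟨max (max x1 x2) (max x3 (Real.exp (4 * C))), ?_, ?_⟩
  · exact hx1.trans ((le_max_left _ _).trans (le_max_left _ _))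
  intro x hx P0 hP0 u hu i' δ1' δ2' A hA
  simp only [ge_iff_le, max_le_iff] at hx
  obtain ⟨⟨hxa, hxb⟩, hxc, hxd⟩ := hx
  have hxpos : 0 < x := by linarith
  obtain ⟨k1, k2⟩ := H3 x hxc
  have hL : 0 < Real.log x := by linarith
  have k3 : 4 * C ≤ Real.log x := by
    rw [Real.le_log_iff_exp_le hxpos]
    exact hxd
  obtain ⟨d1, d2⟩ := H2 x hxb P0 u hu.poly
  have d3 : (DD u : ℝ) ≤ x := by
    refine d2.trans ?_
    calc x ^ (q.δ / 20) ≤ x ^ (1 : ℝ) := by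
          apply Real.rpow_le_rpow_of_exponent_le (by linarith)
          have := hq.δ1
          linarith
      _ = x := Real.rpow_one x
  have d4 : ((DD u).primeFactors.card : ℝ) ≤ 2 * Real.log x := by
    have h1 := qn2_omega d1
    have h2 : Real.log (DD u) ≤ Real.log x := Real.log_le_log (by exact_mod_cast d1) d3
    linarith
  have hlog200 : Real.log x ^ (-200 : ℝ) = 1 / Real.log x ^ 200 := by
    rw [Real.rpow_neg hL.le, one_div]
    norm_cast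
  have hsub : A ⊆ (DD u).primeFactors.biUnion (fun p => A.filter (fun v => p ∣ bad v)) := by
    intro v hv
    obtain ⟨_, _, _, _, a5⟩ := hA v hv
    obtain ⟨p, hp, hd⟩ := Nat.exists_prime_and_dvd a5.ne'
    rw [mem_biUnion]
    refine ⟨p, ?_, mem_filter.2 ⟨hv, hd.trans (Nat.gcd_dvd_right _ _)⟩⟩
    rw [Nat.mem_primeFactors]
    exact ⟨hp, hd.trans (Nat.gcd_dvd_left _ _), d1.ne'⟩
  have hone : ∀ p ∈ (DD u).primeFactors, ∑ v ∈ A.filter (fun v => p ∣ bad v), 1 / (bad v : ℝ) ≤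
      C * (2 * Real.log x ^ (-200 : ℝ)) := by
    intro p hp
    rw [Nat.mem_primeFactors] at hp
    have h1 := H1 x hxa P0 p hp.1 i' δ1' δ2' (A.filter (fun v => p ∣ bad v)) (fun v hv => by
      rw [mem_filter] at hv
      obtain ⟨a1, a2, a3, a4, _⟩ := hA v hv.1
      exact ⟨a1, a2, a3, a4, hv.2⟩)
    refine h1.trans (mul_le_mul_of_nonneg_left ?_ hC)
    have h2 : P0 < p := by
      have h3 := hp.2.1
      unfold DD at h3
      obtain ⟨j, _, hj⟩ := (Prime.dvd_finsetProd_iff hp.1.prime _).1 h3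
      exact hu.poly.ro j p hp.1 hj
    have h3 : 1 / (p : ℝ) ≤ Real.log x ^ (-200 : ℝ) := by
      rw [hlog200]
      apply one_div_le_one_div_of_le (by positivity)
      have : (P0 : ℝ) ≤ p := by exact_mod_cast h2.le
      linarith
    linarith
  have e1 : Real.log x * Real.log x ^ (-200 : ℝ) = Real.log x ^ (-199 : ℝ) := by
    conv_lhs => rw [← Real.rpow_one (Real.log x), ← Real.rpow_mul hL.le]
    rw [← Real.rpow_add hL]
    norm_num
  have e2 : Real.log x * Real.log x ^ (-199 : ℝ) = Real.log x ^ (-198 : ℝ) := by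
    conv_lhs => rw [← Real.rpow_one (Real.log x), ← Real.rpow_mul hL.le]
    rw [← Real.rpow_add hL]
    norm_num
  have hnn : 0 ≤ Real.log x ^ (-200 : ℝ) := Real.rpow_nonneg hL.le _
  have hnn1 : 0 ≤ Real.log x ^ (-199 : ℝ) := Real.rpow_nonneg hL.le _
  calc ∑ v ∈ A, 1 / (bad v : ℝ)
      ≤ ∑ v ∈ (DD u).primeFactors.biUnion (fun p => A.filter (fun v => p ∣ bad v)),
          1 / (bad v : ℝ) :=
        Finset.sum_le_sum_of_subset_of_nonneg hsub fun v _ _ => by positivity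
    _ ≤ ∑ p ∈ (DD u).primeFactors, ∑ v ∈ A.filter (fun v => p ∣ bad v), 1 / (bad v : ℝ) :=
        qn2_biU _ _ _ fun v => by positivity
    _ ≤ ∑ p ∈ (DD u).primeFactors, C * (2 * Real.log x ^ (-200 : ℝ)) := Finset.sum_le_sum hone
    _ = ((DD u).primeFactors.card : ℝ) * (C * (2 * Real.log x ^ (-200 : ℝ))) := by
        rw [Finset.sum_const, nsmul_eq_mul]
    _ ≤ (2 * Real.log x) * (C * (2 * Real.log x ^ (-200 : ℝ))) :=
        mul_le_mul_of_nonneg_right d4 (by positivity)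
    _ = (4 * C) * Real.log x ^ (-199 : ℝ) := by rw [← e1]; ring
    _ ≤ Real.log x * Real.log x ^ (-199 : ℝ) := mul_le_mul_of_nonneg_right k3 hnn1
    _ = Real.log x ^ (-198 : ℝ) := e2

/-- half of the sum over one cell of pairs -/
theorem qn2_half {q : Par 11} (hq : q.Ok) {κ : ℝ} {x : ℝ} {P0 : ℕ}
    {i i' : Fin 11 → ℕ} {δ1 δ2 δ1' δ2' : ℤ} {E : ℝ} (hE : 0 ≤ E)
    (hcell : ∀ u : PolyK 11, IsPath q κ 0 x P0 u →
      ∀ (A : Finset (PolyK 11)),
      (∀ v ∈ A, IsPath q κ 0 x P0 v ∧ Siz i' v ∧ dl v 1 = δ1' ∧ dl v 10 = δ2' ∧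
        1 < Nat.gcd (DD u) (bad v)) →
      ∑ v ∈ A, 1 / (bad v : ℝ) ≤ E)
    (B : Finset (PolyK 11 × PolyK 11))
    (hB : ∀ s ∈ B, IsPath q κ 0 x P0 s.1 ∧ IsPath q κ 0 x P0 s.2 ∧
      1 < Nat.gcd (DD s.1) (bad s.2) ∧
      Siz i s.1 ∧ Siz i' s.2 ∧ dl s.1 1 = δ1 ∧ dl s.1 10 = δ2 ∧ dl s.2 1 = δ1' ∧
      dl s.2 10 = δ2') :
    ∑ s ∈ B, 1 / ((bad s.1 : ℝ) * bad s.2) ≤ 10 ^ 20 / q.c3 ^ 9 * E := by
  classical
  have hc := hq.c30
  rw [← Finset.sum_fiberwise_of_maps_to (g := Prod.fst) (t := B.image Prod.fst)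
      (fun s hs => Finset.mem_image_of_mem _ hs)]
  have hin : ∀ u ∈ B.image Prod.fst, ∑ s ∈ B.filter (fun s => s.1 = u),
      1 / ((bad s.1 : ℝ) * bad s.2) ≤ 1 / (bad u : ℝ) * E := by
    intro u hu
    rw [Finset.mem_image] at hu
    obtain ⟨s0, hs0, rfl⟩ := hu
    obtain ⟨h0, _⟩ := hB s0 hs0
    have h1 := hcell s0.1 h0 ((B.filter (fun s => s.1 = s0.1)).image Prod.snd) (by
      intro v hv
      rw [Finset.mem_image] at hv
      obtain ⟨s, hs, rfl⟩ := hv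
      rw [Finset.mem_filter] at hs
      obtain ⟨hsB, hs1⟩ := hs
      obtain ⟨a1, a2, a3, a4, a5, a6, a7, a8, a9⟩ := hB s hsB
      rw [← hs1]
      exact ⟨a2, a5, a8, a9, a3⟩)
    rw [Finset.sum_image (by
      intro s hs t ht hst
      rw [Finset.mem_coe, Finset.mem_filter] at hs ht
      exact Prod.ext (hs.2.trans ht.2.symm) hst)] at h1
    calc ∑ s ∈ B.filter (fun s => s.1 = s0.1), 1 / ((bad s.1 : ℝ) * bad s.2)
        = 1 / (bad s0.1 : ℝ) * ∑ s ∈ B.filter (fun s => s.1 = s0.1),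
            1 / (bad s.2 : ℝ) := by
          rw [Finset.mul_sum]
          apply Finset.sum_congr rfl
          intro s hs
          rw [Finset.mem_filter] at hs
          rw [hs.2, one_div, one_div, one_div, mul_inv]
      _ ≤ 1 / (bad s0.1 : ℝ) * E := mul_le_mul_of_nonneg_left h1 (by positivity)
  calc ∑ u ∈ B.image Prod.fst, ∑ s ∈ B.filter (fun s => s.1 = u),
        1 / ((bad s.1 : ℝ) * bad s.2)
      ≤ ∑ u ∈ B.image Prod.fst, 1 / (bad u : ℝ) * E := Finset.sum_le_sum hin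
    _ = (∑ u ∈ B.image Prod.fst, 1 / (bad u : ℝ)) * E := by rw [Finset.sum_mul]
    _ ≤ 10 ^ 20 / q.c3 ^ 9 * E := by
        apply mul_le_mul_of_nonneg_right _ hE
        apply qn2_cell hq (κ := κ) (m := 0) (x := x) (P0 := P0) (i := i) (δ1 := δ1) (δ2 := δ2)
        intro u hu
        rw [Finset.mem_image] at hu
        obtain ⟨s, hs, rfl⟩ := hu
        obtain ⟨a1, a2, a3, a4, a5, a6, a7, a8, a9⟩ := hB s hs
        exact ⟨a1, a4, a6, a7⟩

/-- the sum over one cell of pairs -/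
theorem qn2_pairs {q : Par 11} (hq : q.Ok) {κ : ℝ} {x : ℝ} {P0 : ℕ}
    {i i' : Fin 11 → ℕ} {δ1 δ2 δ1' δ2' : ℤ} {E : ℝ} (hE : 0 ≤ E)
    (hcell : ∀ u : PolyK 11, IsPath q κ 0 x P0 u → ∀ (j : Fin 11 → ℕ) (ε1 ε2 : ℤ)
      (A : Finset (PolyK 11)),
      (∀ v ∈ A, IsPath q κ 0 x P0 v ∧ Siz j v ∧ dl v 1 = ε1 ∧ dl v 10 = ε2 ∧
        1 < Nat.gcd (DD u) (bad v)) →
      ∑ v ∈ A, 1 / (bad v : ℝ) ≤ E)
    (B : Finset (PolyK 11 × PolyK 11))
    (hB : ∀ s ∈ B, PairP q κ 0 x P0 s ∧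
      (1 < Nat.gcd (bad s.1) (DD s.2) ∨ 1 < Nat.gcd (DD s.1) (bad s.2)) ∧
      Siz i s.1 ∧ Siz i' s.2 ∧ dl s.1 1 = δ1 ∧ dl s.1 10 = δ2 ∧ dl s.2 1 = δ1' ∧
      dl s.2 10 = δ2') :
    ∑ s ∈ B, 1 / ((bad s.1 : ℝ) * bad s.2) ≤ (2 * (10 ^ 20 / q.c3 ^ 9)) * E := by
  classical
  have h1 := qn2_half hq (κ := κ) (x := x) (P0 := P0) (i := i) (i' := i') (δ1 := δ1) (δ2 := δ2)
    (δ1' := δ1') (δ2' := δ2') hE (fun u hu A hA => hcell u hu i' δ1' δ2' A hA)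
    (B.filter (fun s => 1 < Nat.gcd (DD s.1) (bad s.2))) (by
      intro s hs
      rw [Finset.mem_filter] at hs
      obtain ⟨a1, _, a3, a4, a5, a6, a7, a8⟩ := hB s hs.1
      exact ⟨a1.p1, a1.p2, hs.2, a3, a4, a5, a6, a7, a8⟩)
  have h2 := qn2_half hq (κ := κ) (x := x) (P0 := P0) (i := i') (i' := i) (δ1 := δ1') (δ2 := δ2')
    (δ1' := δ1) (δ2' := δ2) hE (fun u hu A hA => hcell u hu i δ1 δ2 A hA)
    ((B.filter (fun s => ¬ 1 < Nat.gcd (DD s.1) (bad s.2))).image Prod.swap) (by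
      intro t ht
      rw [Finset.mem_image] at ht
      obtain ⟨s, hs, rfl⟩ := ht
      rw [Finset.mem_filter] at hs
      obtain ⟨a1, a2, a3, a4, a5, a6, a7, a8⟩ := hB s hs.1
      refine ⟨a1.p2, a1.p1, ?_, a4, a3, a7, a8, a5, a6⟩
      have := a2.resolve_right hs.2
      rw [Nat.gcd_comm]
      exact this)
  rw [Finset.sum_image (fun s _ t _ hst => Prod.swap_injective hst)] at h2
  have h3 : ∑ s ∈ B.filter (fun s => ¬ 1 < Nat.gcd (DD s.1) (bad s.2)),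
      1 / ((bad s.1 : ℝ) * bad s.2) ≤ 10 ^ 20 / q.c3 ^ 9 * E := by
    refine le_trans (le_of_eq ?_) h2
    apply Finset.sum_congr rfl
    intro s _
    rw [Prod.fst_swap, Prod.snd_swap, mul_comm]
  rw [← Finset.sum_filter_add_sum_filter_not B (fun s => 1 < Nat.gcd (DD s.1) (bad s.2))]
  linarith

/-- the sizes of the vertices -/
theorem qn2_nr {q : Par 11} (hq : q.Ok) {x : ℝ} (hx : 1 ≤ x) {P0 : ℕ} {u : PolyK 11}
    (h : IsPoly q x P0 u) (j : Fin 11) : (nr (u j) : ℝ) ≤ x := by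
  refine (h.hi j).trans ?_
  have h1 : q.e j + q.ε ≤ ∑ j, (q.e j + q.ε) :=
    Finset.single_le_sum (f := fun j => q.e j + q.ε)
      (fun j _ => add_nonneg (hq.he j) hq.ε0.le) (Finset.mem_univ j)
  have h2 := hq.hs
  have h3 := hq.δ1
  have h4 := hq.ε0
  calc x ^ (q.e j + q.ε / 50) ≤ x ^ (1 : ℝ) :=
        Real.rpow_le_rpow_of_exponent_le hx (by linarith)
    _ = x := Real.rpow_one x

theorem qn2_cells {q : Par 11} (hq : q.Ok) {x : ℝ} (hx : 2 ≤ x) (hL : 2 ≤ Real.log x) {P0 : ℕ}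
    (T : Finset ((Fin 11 → ℕ) × (Fin 11 → ℕ)))
    (hT : ∀ t ∈ T, ∃ u v : PolyK 11, IsPoly q x P0 u ∧ IsPoly q x P0 v ∧
      t = ((fun j => Nat.log 2 (nr (u j))), (fun j => Nat.log 2 (nr (v j))))) :
    (T.card : ℝ) ≤ (3 * Real.log x) ^ 22 := by
  classical
  set N : ℕ := Nat.log 2 ⌊x⌋₊ with hN
  have hsub : T ⊆ (Fintype.piFinset (fun _ : Fin 11 => Finset.range (N + 1))) ×ˢ
      (Fintype.piFinset (fun _ : Fin 11 => Finset.range (N + 1))) := by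
    intro t ht
    obtain ⟨u, v, hu, hv, rfl⟩ := hT t ht
    rw [Finset.mem_product, Fintype.mem_piFinset, Fintype.mem_piFinset]
    constructor
    · intro j
      rw [Finset.mem_range]
      have := Nat.log_mono_right (b := 2) (Nat.le_floor (qn2_nr hq (by linarith) hu j))
      simp only
      omega
    · intro j
      rw [Finset.mem_range]
      have := Nat.log_mono_right (b := 2) (Nat.le_floor (qn2_nr hq (by linarith) hv j))
      simp only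
      omega
  have h1 := Finset.card_le_card hsub
  rw [Finset.card_product, Fintype.card_piFinset] at h1
  simp only [Finset.card_range, Finset.prod_const, Finset.card_univ, Fintype.card_fin] at h1
  have h2 : (T.card : ℝ) ≤ ((N : ℝ) + 1) ^ 11 * ((N : ℝ) + 1) ^ 11 := by exact_mod_cast h1
  have h3 : (N : ℝ) ≤ 2 * Real.log x := by
    have hfl : 0 < ⌊x⌋₊ := Nat.floor_pos.2 (by linarith)
    have h4 : 2 ^ N ≤ ⌊x⌋₊ := Nat.pow_log_le_self 2 hfl.ne'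
    have h5 : (2 : ℝ) ^ N ≤ x := by
      have h6 : ((2 ^ N : ℕ) : ℝ) ≤ (⌊x⌋₊ : ℝ) := by exact_mod_cast h4
      push_cast at h6
      exact h6.trans (Nat.floor_le (by linarith))
    have h6 := Real.log_le_log (by positivity) h5
    rw [Real.log_pow] at h6
    have h7 := Real.log_two_gt_d9
    nlinarith [Nat.cast_nonneg (α := ℝ) N]
  have h4 : (N : ℝ) + 1 ≤ 3 * Real.log x := by linarith
  calc (T.card : ℝ) ≤ ((N : ℝ) + 1) ^ 11 * ((N : ℝ) + 1) ^ 11 := h2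
    _ = ((N : ℝ) + 1) ^ 22 := by ring
    _ ≤ (3 * Real.log x) ^ 22 := pow_le_pow_left₀ (by positivity) h4 22

theorem clsN_11_pr (q : Par 11) (hq : q.Ok) {κ : ℝ} (hκ : 0 < κ) (hκ1 : κ ≤ 1 / 10) (W : Wts 11)
    (hW : Bal 0 W) {τ : ℝ} (hτ : 0 < τ) : ∃ x₀ : ℝ, 2 ≤ x₀ ∧
    ∀ x ≥ x₀, ∀ P0 P : ℕ, Real.log x ^ 200 ≤ P0 → P0 ≤ P → x ^ τ ≤ P → (P : ℝ) ≤ x →
      ∀ A : Finset (PolyK 11 × PolyK 11), (∀ s ∈ A, PairP q κ 0 x P0 s ∧ Gc s.1 s.2 = 1 ∧
        (1 < Nat.gcd (bad s.1) (DD s.2) ∨ 1 < Nat.gcd (DD s.1) (bad s.2))) →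
      ∑ s ∈ A, ThB W P s.1 s.2 * VP W P0 P s.1 s.2 ≤ Real.log x ^ (-120 : ℝ) := by
  classical
  obtain ⟨b30, b31, bP0, bP1, b10, b11, s10, s16, s00, s06⟩ := eB_le 0 W hW.ok
  have hal1 := qn2_par (hW.ok.al0 1) (hW.ok.al1 1) (hW.ok.be0 1) (hW.ok.be1 1)
  have hal0 := qn2_par (hW.ok.al0 (-1)) (hW.ok.al1 (-1)) (hW.ok.be0 0) (hW.ok.be1 0)
  have hs1e : W.be 1 + W.al 1 = W.s1 := rfl
  have hs0e : W.be 0 + W.al (-1) = W.s0 := rfl
  rw [hs1e] at hal1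
  rw [hs0e] at hal0
  obtain ⟨x5, hx5, H5⟩ := qn2_cellN q hq hκ hκ1
  obtain ⟨C3, x3, hC3, hx3, H3⟩ := sum_wsp_gen hal1.1 hal1.2.1 hal1.2.2.1 hal1.2.2.2 hτ
  obtain ⟨C4, x4, hC4, hx4, H4⟩ := sum_wsp_gen hal0.1 hal0.2.1 hal0.2.2.1 hal0.2.2.2 hτ
  obtain ⟨C2, x2, hC2, hx2, H2⟩ := wi_VP_le (K := 11) (by norm_num) q hq W hW.ok hτ
  obtain ⟨xm, hxm, Hm⟩ := qn2_mem q hq
  obtain ⟨C7, hC7, HG⟩ := qn2_G
  have hc := hq.c30
  set K0 : ℝ := 3 ^ 22 * C2 * (2 * (10 ^ 20 / q.c3 ^ 9)) * ((C3 * C7) * (C4 * C7)) with hK0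
  have hK00 : 0 ≤ K0 := by positivity
  refine ⟨max (max (max x5 x4) (max x3 x2)) (max xm (Real.exp (max K0 2))), ?_, ?_⟩
  · exact le_trans hx5 (le_trans (le_trans (le_max_left _ _) (le_max_left _ _)) (le_max_left _ _))
  intro x hx P0 P hP0 hP0P hτP hPx A hA
  simp only [ge_iff_le, max_le_iff] at hx
  obtain ⟨⟨⟨hx5', hx4'⟩, hx3', hx2'⟩, hxm', hxe⟩ := hx
  have hx2r : (2 : ℝ) ≤ x := by linarith
  have hxpos : 0 < x := by linarith
  have hlogK : max K0 2 ≤ Real.log x := by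
    rw [Real.le_log_iff_exp_le hxpos]; exact hxe
  have hlog2 : 2 ≤ Real.log x := le_trans (le_max_right _ _) hlogK
  have hlogK' : K0 ≤ Real.log x := le_trans (le_max_left _ _) hlogK
  have hlogpos : 0 < Real.log x := by linarith
  have hP02 : 2 ≤ P0 := by
    have h1 : (2 : ℝ) ≤ Real.log x ^ 200 := by
      calc (2 : ℝ) ≤ 2 ^ 200 := by norm_num
        _ ≤ Real.log x ^ 200 := pow_le_pow_left₀ (by norm_num) hlog2 200
    have h2 : (2 : ℝ) ≤ (P0 : ℝ) := le_trans h1 hP0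
    exact_mod_cast h2
  -- abbreviations
  set f : PolyK 11 × PolyK 11 → ℝ := fun s => ThB W P s.1 s.2 * VP W P0 P s.1 s.2 with hf
  set D : Finset ℕ := DP0 P0 ⌊x⌋₊ with hD
  set η : ℝ := Real.log x ^ (-198 : ℝ) with hη
  have hη0 : 0 < η := Real.rpow_pos_of_pos hlogpos _
  -- keys
  set key : PolyK 11 × PolyK 11 → (ℕ × ℕ) × (ℕ × ℕ) :=
    fun s => ((dn s.1 1, dn s.2 1), (dn s.1 10, dn s.2 10)) with hkey
  set key2 : PolyK 11 × PolyK 11 → (Fin 11 → ℕ) × (Fin 11 → ℕ) :=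
    fun s => ((fun j => Nat.log 2 (nr (s.1 j))), (fun j => Nat.log 2 (nr (s.2 j)))) with hkey2
  set V : ((ℕ × ℕ) × (ℕ × ℕ)) → ℝ := fun k => wsp2 W P k.1.1 k.1.2 k.2.1 k.2.2 with hV
  have hV0 : ∀ k, 0 ≤ V k := fun k =>
    mul_nonneg (qn2_wsp_nn P hal1.1 hal1.2.2.1 _ _) (qn2_wsp_nn P hal0.1 hal0.2.2.1 _ _)
  have hmaps : ∀ s ∈ A, key s ∈ (D ×ˢ D) ×ˢ (D ×ˢ D) := by
    intro s hs
    obtain ⟨hs1, _⟩ := hA s hs
    simp only [hkey, Finset.mem_product]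
    exact ⟨⟨Hm x hxm' P0 _ hs1.p1.poly hs1.o1 1, Hm x hxm' P0 _ hs1.p2.poly hs1.o2 1⟩,
      ⟨Hm x hxm' P0 _ hs1.p1.poly hs1.o1 10, Hm x hxm' P0 _ hs1.p2.poly hs1.o2 10⟩⟩
  -- one pair
  have hone : ∀ s ∈ A, f s ≤ C2 * V (key s) * (1 / ((bad s.1 : ℝ) * bad s.2)) := by
    intro s hs
    obtain ⟨hs1, hs2, hs3⟩ := hA s hs
    have h1 := H2 x hx2' P0 P hP02 hτP s.1 s.2 hs1.p1.poly hs1.p2.poly hs1.o1 hs1.o2 ∅ (by simp)
    rw [Finset.prod_empty, mul_one] at h1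
    simp only [hf]
    rw [qn2_ThB, hs2, Nat.primeFactors_one, Finset.prod_empty, one_mul]
    calc (wi W P s.1 * wi W P s.2) *
          wsp2 W P (dn s.1 1) (dn s.2 1) (dn s.1 10) (dn s.2 10) * VP W P0 P s.1 s.2
        = (wi W P s.1 * wi W P s.2 * VP W P0 P s.1 s.2) * V (key s) := by
          simp only [hV, hkey]
          ring
      _ ≤ (C2 / ((bad s.1 : ℝ) * bad s.2)) * V (key s) :=
          mul_le_mul_of_nonneg_right h1 (hV0 _)
      _ = C2 * V (key s) * (1 / ((bad s.1 : ℝ) * bad s.2)) := by ring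
  have hcell : ∀ k, ∀ t, ∑ s ∈ (A.filter (fun s => key s = k)).filter (fun s => key2 s = t), f s ≤
      C2 * V k * ((2 * (10 ^ 20 / q.c3 ^ 9)) * η) := by
    intro k t
    have h := qn2_pairs hq (κ := κ) (x := x) (P0 := P0) (i := t.1) (i' := t.2)
      (δ1 := q.σ 1 (1 + 1) * (k.1.1 : ℤ))
      (δ2 := q.σ 10 (10 + 1) * (k.2.1 : ℤ)) (δ1' := q.σ 1 (1 + 1) * (k.1.2 : ℤ))
      (δ2' := q.σ 10 (10 + 1) * (k.2.2 : ℤ)) (E := η) hη0.le
      (fun u hu j ε1 ε2 B hB => H5 x hx5' P0 hP0 u hu j ε1 ε2 B hB)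
      ((A.filter (fun s => key s = k)).filter (fun s => key2 s = t)) ?_
    · calc ∑ s ∈ (A.filter (fun s => key s = k)).filter (fun s => key2 s = t), f s
          ≤ ∑ s ∈ (A.filter (fun s => key s = k)).filter (fun s => key2 s = t), C2 * V k *
              (1 / ((bad s.1 : ℝ) * bad s.2)) := by
            apply Finset.sum_le_sum
            intro s hs
            rw [Finset.mem_filter, Finset.mem_filter] at hs
            have h1 := hone s hs.1.1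
            rw [hs.1.2] at h1
            exact h1
        _ = C2 * V k * ∑ s ∈ (A.filter (fun s => key s = k)).filter (fun s => key2 s = t),
              (1 / ((bad s.1 : ℝ) * bad s.2)) := by rw [Finset.mul_sum]
        _ ≤ C2 * V k * ((2 * (10 ^ 20 / q.c3 ^ 9)) * η) :=
            mul_le_mul_of_nonneg_left h (mul_nonneg hC2 (hV0 k))
    · intro s hs
      rw [Finset.mem_filter, Finset.mem_filter] at hs
      obtain ⟨⟨hsA, hk⟩, ht⟩ := hs
      obtain ⟨hs1, hs2, hs3⟩ := hA s hsA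
      refine ⟨hs1, hs3, ?_, ?_, ?_, ?_, ?_, ?_⟩
      · rw [← ht]; exact qn2_siz hxpos hs1.p1.poly
      · rw [← ht]; exact qn2_siz hxpos hs1.p2.poly
      · rw [← hk]; exact qn2_dl q hq hs1.p1.poly 1
      · rw [← hk]; exact qn2_dl q hq hs1.p1.poly 10
      · rw [← hk]; exact qn2_dl q hq hs1.p2.poly 1
      · rw [← hk]; exact qn2_dl q hq hs1.p2.poly 10
  have hfib : ∀ k, ∑ s ∈ A.filter (fun s => key s = k), f s ≤
      (3 * Real.log x) ^ 22 * (C2 * V k * ((2 * (10 ^ 20 / q.c3 ^ 9)) * η)) := by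
    intro k
    have hM0 : 0 ≤ C2 * V k * ((2 * (10 ^ 20 / q.c3 ^ 9)) * η) := by
      have := hV0 k
      positivity
    rw [← Finset.sum_fiberwise_of_maps_to (g := key2)
      (t := (A.filter (fun s => key s = k)).image key2)
      (fun s hs => Finset.mem_image_of_mem _ hs)]
    calc ∑ t ∈ (A.filter (fun s => key s = k)).image key2,
          ∑ s ∈ (A.filter (fun s => key s = k)).filter (fun s => key2 s = t), f s
        ≤ ∑ t ∈ (A.filter (fun s => key s = k)).image key2,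
            C2 * V k * ((2 * (10 ^ 20 / q.c3 ^ 9)) * η) :=
          Finset.sum_le_sum (fun t _ => hcell k t)
      _ = (((A.filter (fun s => key s = k)).image key2).card : ℝ) *
            (C2 * V k * ((2 * (10 ^ 20 / q.c3 ^ 9)) * η)) := by
          rw [Finset.sum_const, nsmul_eq_mul]
      _ ≤ (3 * Real.log x) ^ 22 * (C2 * V k * ((2 * (10 ^ 20 / q.c3 ^ 9)) * η)) := by
          apply mul_le_mul_of_nonneg_right _ hM0
          apply qn2_cells hq hx2r hlog2 (P0 := P0)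
          intro t ht
          rw [Finset.mem_image] at ht
          obtain ⟨s, hs, rfl⟩ := ht
          rw [Finset.mem_filter] at hs
          obtain ⟨hsA, hk⟩ := hs
          obtain ⟨hs1, hs2⟩ := hA s hsA
          exact ⟨s.1, s.2, hs1.p1.poly, hs1.p2.poly, rfl⟩
  have hsumV : ∑ k ∈ (D ×ˢ D) ×ˢ (D ×ˢ D), V k ≤
      (C3 * (C7 * Real.log x ^ 6)) * (C4 * (C7 * Real.log x ^ 6)) := by
    have h1 : ∑ k ∈ (D ×ˢ D) ×ˢ (D ×ˢ D), V k =
        (∑ d ∈ D, ∑ d' ∈ D, wsp P (W.al 1 ^ 2 / W.s1) (W.al 1 * W.be 1 / W.s1) d d') *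
          (∑ d ∈ D, ∑ d' ∈ D,
            wsp P (W.al (-1) ^ 2 / W.s0) (W.al (-1) * W.be 0 / W.s0) d d') := by
      rw [Finset.sum_product, ← Finset.sum_product' (s := D) (t := D)
        (f := fun d d' => wsp P (W.al 1 ^ 2 / W.s1) (W.al 1 * W.be 1 / W.s1) d d'),
        ← Finset.sum_product' (s := D) (t := D)
        (f := fun d d' => wsp P (W.al (-1) ^ 2 / W.s0) (W.al (-1) * W.be 0 / W.s0) d d'),
        Finset.sum_mul_sum]
      rfl
    rw [h1]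
    have h2 := (H3 x hx3' P0 P hP02 hP0P hτP hPx).trans (mul_le_mul_of_nonneg_left
      (HG x hx2r (by linarith) P0 P hPx (eS1 W) s10 s16) hC3)
    have h3 := (H4 x hx4' P0 P hP02 hP0P hτP hPx).trans (mul_le_mul_of_nonneg_left
      (HG x hx2r (by linarith) P0 P hPx (eS0 W) s00 s06) hC4)
    have h4 : 0 ≤ ∑ d ∈ D, ∑ d' ∈ D,
        wsp P (W.al (-1) ^ 2 / W.s0) (W.al (-1) * W.be 0 / W.s0) d d' :=
      Finset.sum_nonneg (fun d _ => Finset.sum_nonneg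
        (fun d' _ => qn2_wsp_nn P hal0.1 hal0.2.2.1 _ _))
    exact mul_le_mul h2 h3 h4 (by positivity)
  have hfin : Real.log x ^ 34 * Real.log x ^ (-198 : ℝ) = Real.log x ^ (-164 : ℝ) := by
    rw [← Real.rpow_natCast (Real.log x) 34, ← Real.rpow_add hlogpos]
    norm_num
  have hfin2 : Real.log x * Real.log x ^ (-164 : ℝ) = Real.log x ^ (-163 : ℝ) := by
    conv_lhs => rw [← Real.rpow_one (Real.log x), ← Real.rpow_mul hlogpos.le]
    rw [← Real.rpow_add hlogpos]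
    norm_num
  calc ∑ s ∈ A, f s = ∑ k ∈ (D ×ˢ D) ×ˢ (D ×ˢ D), ∑ s ∈ A.filter (fun s => key s = k), f s :=
        (Finset.sum_fiberwise_of_maps_to hmaps f).symm
    _ ≤ ∑ k ∈ (D ×ˢ D) ×ˢ (D ×ˢ D),
          (3 * Real.log x) ^ 22 * (C2 * V k * ((2 * (10 ^ 20 / q.c3 ^ 9)) * η)) :=
        Finset.sum_le_sum (fun k _ => hfib k)
    _ = (3 * Real.log x) ^ 22 * C2 * ((2 * (10 ^ 20 / q.c3 ^ 9)) * η) *
          ∑ k ∈ (D ×ˢ D) ×ˢ (D ×ˢ D), V k := by
        rw [Finset.mul_sum]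
        apply Finset.sum_congr rfl
        intro k _
        ring
    _ ≤ (3 * Real.log x) ^ 22 * C2 * ((2 * (10 ^ 20 / q.c3 ^ 9)) * η) *
          ((C3 * (C7 * Real.log x ^ 6)) * (C4 * (C7 * Real.log x ^ 6))) :=
        mul_le_mul_of_nonneg_left hsumV (by positivity)
    _ = K0 * (Real.log x ^ 34 * Real.log x ^ (-198 : ℝ)) := by
        rw [hK0, hη]; ring
    _ = K0 * Real.log x ^ (-164 : ℝ) := by rw [hfin]
    _ ≤ Real.log x * Real.log x ^ (-164 : ℝ) :=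
        mul_le_mul_of_nonneg_right hlogK' (Real.rpow_nonneg hlogpos.le _)
    _ = Real.log x ^ (-163 : ℝ) := hfin2
    _ ≤ Real.log x ^ (-120 : ℝ) :=
        Real.rpow_le_rpow_of_exponent_le (by linarith) (by norm_num)

end Pool.Agent.PENK

namespace Pool.Agent.PENK

theorem clsN_11 : type_of% @clsN_11_pr := @clsN_11_pr

end Pool.Agent.PENK
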